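import Mathlib

/-!
Line functionals built from a symmetric Hadamard matrix.
-/

namespace Pool.Agent.Y81.Proj

variable {K : Type} [Fintype K] [DecidableEq K]

/-- a symmetric Hadamard matrix -/
structure Had (H : K → K → ℝ) : Prop where
  pm : ∀ a b, H a b = 1 ∨ H a b = -1
  orth : ∀ a a', ∑ b, H a b * H a' b = if a = a' then (Fintype.card K : ℝ) else 0
  symm : ∀ a b, H a b = H b a
  card : 2 ≤ Fintype.card K

/-- the mixed functionals on a line -/
noncomputable def gl (H : K → K → ℝ) (z : K → ℝ) (χ κ : K) : ℝ :=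
  z κ - (2 / (Fintype.card K : ℝ)) * H χ κ * ∑ κ', H χ κ' * z κ'

/-- norm bound on a line -/
def LB (H : K → K → ℝ) (z : K → ℝ) (c : ℝ) : Prop :=
  (∀ κ, |z κ| ≤ c) ∧ ∀ χ κ, |gl H z χ κ| ≤ c

theorem Had.sq {H : K → K → ℝ} (h : Had H) (a b : K) : H a b * H a b = 1 := by
  rcases h.pm a b with h | h <;> rw [h] <;> norm_num

theorem Had.abs {H : K → K → ℝ} (h : Had H) (a b : K) : |H a b| = 1 := by
  rcases h.pm a b with h | h <;> rw [h] <;> norm_num

theorem Had.kpos {H : K → K → ℝ} (h : Had H) : (2 : ℝ) ≤ (Fintype.card K : ℝ) := by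
  exact_mod_cast h.card

theorem gl_comb (H : K → K → ℝ) (c e : ℝ) (κ0 : K) (z : K → ℝ) (χ κ : K) :
    gl H (fun κ => c * z κ + (if κ = κ0 then e else 0)) χ κ =
      c * gl H z χ κ + ((if κ = κ0 then e else 0) -
        (2 / (Fintype.card K : ℝ)) * H χ κ * (H χ κ0 * e)) := by
  unfold gl
  have h1 : ∑ κ', H χ κ' * (c * z κ' + (if κ' = κ0 then e else 0)) =
      c * ∑ κ', H χ κ' * z κ' + H χ κ0 * e := by
    simp only [mul_add, Finset.sum_add_distrib]
    congr 1
    · rw [Finset.mul_sum]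
      apply Finset.sum_congr rfl
      intro κ' _
      ring
    · simp
  rw [h1]
  ring

theorem LB_comb {H : K → K → ℝ} (h : Had H) {c e : ℝ} {κ0 : K} {z : K → ℝ} (hc : 0 ≤ c)
    (hz : LB H z 1) : LB H (fun κ => c * z κ + (if κ = κ0 then e else 0)) (c + |e|) := by
  constructor
  · intro κ
    have h1 : |c * z κ| ≤ c := by
      rw [abs_mul, abs_of_nonneg hc]
      exact mul_le_of_le_one_right hc (hz.1 κ)
    have h2 : |(if κ = κ0 then e else 0)| ≤ |e| := by
      split_ifs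
      · exact le_rfl
      · simp
    exact (abs_add_le _ _).trans (add_le_add h1 h2)
  · intro χ κ
    rw [gl_comb]
    have h1 : |c * gl H z χ κ| ≤ c := by
      rw [abs_mul, abs_of_nonneg hc]
      exact mul_le_of_le_one_right hc (hz.2 χ κ)
    have hk := h.kpos
    have hk0 : (0 : ℝ) < (Fintype.card K : ℝ) := by linarith
    have h2k : 2 / (Fintype.card K : ℝ) ≤ 1 := by rw [div_le_one hk0]; exact hk
    have h2k0 : 0 ≤ 2 / (Fintype.card K : ℝ) := by positivity
    have h2 : |(if κ = κ0 then e else 0) -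
        (2 / (Fintype.card K : ℝ)) * H χ κ * (H χ κ0 * e)| ≤ |e| := by
      by_cases hκ : κ = κ0
      · rw [if_pos hκ, hκ]
        have h3 : e - (2 / (Fintype.card K : ℝ)) * H χ κ0 * (H χ κ0 * e) =
            (1 - 2 / (Fintype.card K : ℝ)) * e := by
          have := h.sq χ κ0
          calc e - (2 / (Fintype.card K : ℝ)) * H χ κ0 * (H χ κ0 * e)
              = e - (2 / (Fintype.card K : ℝ)) * (H χ κ0 * H χ κ0) * e := by ring
            _ = _ := by rw [this]; ring
        rw [h3, abs_mul, abs_of_nonneg (by linarith)]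
        exact mul_le_of_le_one_left (abs_nonneg _) (by linarith)
      · rw [if_neg hκ, zero_sub, abs_neg, abs_mul, abs_mul, abs_mul, h.abs, h.abs,
          abs_of_nonneg h2k0]
        simp only [mul_one, one_mul]
        exact mul_le_of_le_one_left (abs_nonneg _) h2k
    exact (abs_add_le _ _).trans (add_le_add h1 h2)

theorem LB_mono {H : K → K → ℝ} {z : K → ℝ} {c c' : ℝ} (hz : LB H z c) (h : c ≤ c') :
    LB H z c' :=
  ⟨fun κ => (hz.1 κ).trans h, fun χ κ => (hz.2 χ κ).trans h⟩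

/-- the average of the mixed functionals -/
theorem sum_gl {H : K → K → ℝ} (h : Had H) (z : K → ℝ) (κ : K) :
    ∑ χ, gl H z χ κ = ((Fintype.card K : ℝ) - 2) * z κ := by
  unfold gl
  have hk := h.kpos
  have hk0 : (Fintype.card K : ℝ) ≠ 0 := by linarith
  rw [Finset.sum_sub_distrib]
  have h1 : ∑ χ, (2 / (Fintype.card K : ℝ)) * H χ κ * ∑ κ', H χ κ' * z κ' =
      (2 / (Fintype.card K : ℝ)) * ∑ κ', (∑ χ, H κ χ * H κ' χ) * z κ' := by
    simp only [Finset.mul_sum, Finset.sum_mul]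
    rw [Finset.sum_comm]
    apply Finset.sum_congr rfl
    intro κ' _
    apply Finset.sum_congr rfl
    intro χ _
    rw [h.symm χ κ, h.symm χ κ']
    ring
  rw [h1]
  simp only [h.orth, ite_mul, zero_mul, Finset.sum_ite_eq, Finset.mem_univ, if_true,
    Finset.sum_const, Finset.card_univ, nsmul_eq_mul]
  field_simp

/-- a mixed functional almost as large as the value at the point -/
theorem exists_gl {H : K → K → ℝ} (h : Had H) (z : K → ℝ) (κ : K) {σ : ℝ} :
    ∃ χ, (1 - 2 / (Fintype.card K : ℝ)) * (σ * z κ) ≤ σ * gl H z χ κ := by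
  by_contra hcon
  push Not at hcon
  have hk := h.kpos
  have hk0 : (0 : ℝ) < (Fintype.card K : ℝ) := by linarith
  have hne : (Finset.univ : Finset K).Nonempty := ⟨κ, Finset.mem_univ _⟩
  have h1 : ∑ χ : K, σ * gl H z χ κ <
      ∑ χ : K, (1 - 2 / (Fintype.card K : ℝ)) * (σ * z κ) :=
    Finset.sum_lt_sum_of_nonempty hne (fun χ _ => hcon χ)
  rw [← Finset.mul_sum, sum_gl h, Finset.sum_const, Finset.card_univ, nsmul_eq_mul] at h1
  have h2 : (Fintype.card K : ℝ) * ((1 - 2 / (Fintype.card K : ℝ)) * (σ * z κ)) =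
      σ * (((Fintype.card K : ℝ) - 2) * z κ) := by
    field_simp
  linarith

/-- crude upper bound for the mixed functionals -/
theorem gl_le {H : K → K → ℝ} (h : Had H) {z : K → ℝ} {c : ℝ} (hz : ∀ κ, |z κ| ≤ c)
    (χ κ : K) : |gl H z χ κ| ≤ 3 * c := by
  unfold gl
  have hk := h.kpos
  have hk0 : (0 : ℝ) < (Fintype.card K : ℝ) := by linarith
  have h1 : |∑ κ', H χ κ' * z κ'| ≤ (Fintype.card K : ℝ) * c := by
    refine (Finset.abs_sum_le_sum_abs _ _).trans ?_
    have h2 : ∑ κ' : K, |H χ κ' * z κ'| ≤ ∑ κ' : K, c := by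
      apply Finset.sum_le_sum
      intro κ' _
      rw [abs_mul, h.abs, one_mul]
      exact hz κ'
    refine h2.trans ?_
    rw [Finset.sum_const, Finset.card_univ, nsmul_eq_mul]
  have h3 : |(2 / (Fintype.card K : ℝ)) * H χ κ * ∑ κ', H χ κ' * z κ'| ≤ 2 * c := by
    rw [abs_mul, abs_mul, h.abs, mul_one, abs_of_nonneg (by positivity)]
    calc 2 / (Fintype.card K : ℝ) * |∑ κ', H χ κ' * z κ'|
        ≤ 2 / (Fintype.card K : ℝ) * ((Fintype.card K : ℝ) * c) :=
          mul_le_mul_of_nonneg_left h1 (by positivity)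
      _ = 2 * c := by field_simp
  calc |z κ - (2 / (Fintype.card K : ℝ)) * H χ κ * ∑ κ', H χ κ' * z κ'|
      ≤ |z κ| + |(2 / (Fintype.card K : ℝ)) * H χ κ * ∑ κ', H χ κ' * z κ'| := abs_sub _ _
    _ ≤ c + 2 * c := add_le_add (hz κ) h3
    _ = 3 * c := by ring

/-- prescribed value at a point together with a norming mixed functional -/
theorem exists_flex {H : K → K → ℝ} (h : Had H) (κ0 χ0 : K) {t σ : ℝ} (ht : |t| ≤ 1)
    (hσ : σ = 1 ∨ σ = -1) :
    ∃ z : K → ℝ, z κ0 = t ∧ LB H z 1 ∧ gl H z χ0 κ0 = σ := by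
  have hk := h.kpos
  have hk0 : (0 : ℝ) < (Fintype.card K : ℝ) := by linarith
  obtain ⟨χ1, hχ1⟩ : ∃ χ1 : K, χ1 ≠ χ0 := by
    have h2 : 1 < Fintype.card K := by have := h.card; omega
    exact Fintype.exists_ne_of_one_lt_card h2 χ0
  set a : ℝ := (σ + t) / 2 with ha
  set b : ℝ := (σ - t) / 2 with hb
  have hab : |a| + |b| ≤ 1 := by
    have ht' := abs_le.mp ht
    rcases hσ with rfl | rfl
    · rw [ha, hb, abs_of_nonneg (by linarith), abs_of_nonneg (by linarith)]; linarith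
    · rw [ha, hb, abs_of_nonpos (by linarith), abs_of_nonpos (by linarith)]; linarith
  set z : K → ℝ := fun κ => a * (H χ1 κ0 * H χ1 κ) - b * (H χ0 κ0 * H χ0 κ) with hz
  have hsum : ∀ χ, ∑ κ', H χ κ' * z κ' =
      a * H χ1 κ0 * (if χ = χ1 then (Fintype.card K : ℝ) else 0) -
      b * H χ0 κ0 * (if χ = χ0 then (Fintype.card K : ℝ) else 0) := by
    intro χ
    rw [← h.orth χ χ1, ← h.orth χ χ0, Finset.mul_sum, Finset.mul_sum, ← Finset.sum_sub_distrib]
    apply Finset.sum_congr rfl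
    intro κ' _
    rw [hz]
    ring
  have hbd : ∀ (s1 s2 : ℝ), |s1| = 1 → |s2| = 1 → |a * s1 - b * s2| ≤ 1 := by
    intro s1 s2 h1 h2
    calc |a * s1 - b * s2| ≤ |a * s1| + |b * s2| := abs_sub _ _
      _ = |a| + |b| := by rw [abs_mul, abs_mul, h1, h2, mul_one, mul_one]
      _ ≤ 1 := hab
  have hHH : ∀ χ κ κ', |H χ κ * H χ κ'| = 1 := by
    intro χ κ κ'
    rw [abs_mul, h.abs, h.abs, mul_one]
  refine ⟨z, ?_, ⟨?_, ?_⟩, ?_⟩
  · rw [hz]
    simp only [h.sq]
    rw [ha, hb]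
    ring
  · intro κ
    exact hbd _ _ (hHH _ _ _) (hHH _ _ _)
  · intro χ κ
    unfold gl
    rw [hsum]
    by_cases h1 : χ = χ1
    · have h2 : χ ≠ χ0 := by rw [h1]; exact hχ1
      rw [if_pos h1, if_neg h2]
      have h3 : z κ - 2 / (Fintype.card K : ℝ) * H χ κ *
          (a * H χ1 κ0 * (Fintype.card K : ℝ) - b * H χ0 κ0 * 0) =
          a * (-(H χ1 κ0 * H χ1 κ)) - b * (H χ0 κ0 * H χ0 κ) := by
        rw [hz, h1]
        field_simp
        ring
      rw [h3]
      exact hbd _ _ (by rw [abs_neg]; exact hHH _ _ _) (hHH _ _ _)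
    · by_cases h2 : χ = χ0
      · rw [if_neg h1, if_pos h2]
        have h3 : z κ - 2 / (Fintype.card K : ℝ) * H χ κ *
            (a * H χ1 κ0 * 0 - b * H χ0 κ0 * (Fintype.card K : ℝ)) =
            a * (H χ1 κ0 * H χ1 κ) - b * (-(H χ0 κ0 * H χ0 κ)) := by
          rw [hz, h2]
          field_simp
          ring
        rw [h3]
        exact hbd _ _ (hHH _ _ _) (by rw [abs_neg]; exact hHH _ _ _)
      · rw [if_neg h1, if_neg h2]
        have h3 : z κ - 2 / (Fintype.card K : ℝ) * H χ κ * (a * H χ1 κ0 * 0 - b * H χ0 κ0 * 0) =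
            a * (H χ1 κ0 * H χ1 κ) - b * (H χ0 κ0 * H χ0 κ) := by
          rw [hz]
          ring
        rw [h3]
        exact hbd _ _ (hHH _ _ _) (hHH _ _ _)
  · unfold gl
    rw [hsum, if_neg (Ne.symm hχ1), if_pos rfl]
    have h3 : z κ0 = a - b := by
      rw [hz]
      simp only [h.sq]
      ring
    rw [h3]
    have h4 : 2 / (Fintype.card K : ℝ) * H χ0 κ0 *
        (a * H χ1 κ0 * 0 - b * H χ0 κ0 * (Fintype.card K : ℝ)) = -2 * b := by
      have h5 := h.sq χ0 κ0
      calc 2 / (Fintype.card K : ℝ) * H χ0 κ0 *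
          (a * H χ1 κ0 * 0 - b * H χ0 κ0 * (Fintype.card K : ℝ))
          = -2 * b * (H χ0 κ0 * H χ0 κ0) := by field_simp; ring
        _ = -2 * b := by rw [h5, mul_one]
    rw [h4, ha, hb]
    ring

end Pool.Agent.Y81.Proj
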