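import Mathlib
import Pool.Agent.Y81.ProjLine

/-!
Functions on a product of finite sets, with the norm given by the values and by the mixed
functionals on all lines; the damped modification near a point.
-/

namespace Pool.Agent.Y81.Proj

variable {K : Type} [Fintype K] [DecidableEq K] {m : ℕ}

/-- norm bound for functions on the product: on every line -/
def NB (H : K → K → ℝ) (x : (Fin m → K) → ℝ) (c : ℝ) : Prop :=
  (∀ γ, |x γ| ≤ c) ∧ ∀ (j : Fin m) (γ : Fin m → K) (χ : K),
    |gl H (fun κ => x (Function.update γ j κ)) χ (γ j)| ≤ c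

theorem NB.line {H : K → K → ℝ} {x : (Fin m → K) → ℝ} {c : ℝ} (h : NB H x c) (j : Fin m)
    (γ : Fin m → K) : LB H (fun κ => x (Function.update γ j κ)) c := by
  constructor
  · intro κ
    exact h.1 _
  · intro χ κ
    have h1 := h.2 j (Function.update γ j κ) χ
    simpa using h1

theorem NB_of_line {H : K → K → ℝ} {x : (Fin m → K) → ℝ} {c : ℝ} (h0 : ∀ γ, |x γ| ≤ c)
    (h : ∀ (j : Fin m) (γ : Fin m → K), LB H (fun κ => x (Function.update γ j κ)) c) :
    NB H x c :=
  ⟨h0, fun j γ χ => (h j γ).2 χ (γ j)⟩

/-- number of coordinates in which `γ` differs from `γ0` -/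
def lev (γ0 γ : Fin m → K) : ℕ := ∑ i, if γ i = γ0 i then 0 else 1

theorem lev_update (γ0 γ : Fin m → K) (i : Fin m) (κ : K) :
    lev γ0 (Function.update γ i κ) =
      lev γ0 (Function.update γ i (γ0 i)) + (if κ = γ0 i then 0 else 1) := by
  unfold lev
  rw [← Finset.add_sum_erase _ _ (Finset.mem_univ i),
    ← Finset.add_sum_erase (f := fun l => if Function.update γ i (γ0 i) l = γ0 l then 0 else 1)
      _ (Finset.mem_univ i)]
  have h1 : ∑ x ∈ Finset.univ.erase i, (if Function.update γ i κ x = γ0 x then 0 else 1) =
      ∑ x ∈ Finset.univ.erase i, (if Function.update γ i (γ0 i) x = γ0 x then 0 else 1) := by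
    apply Finset.sum_congr rfl
    intro l hl
    have hli : l ≠ i := Finset.ne_of_mem_erase hl
    rw [Function.update_of_ne hli, Function.update_of_ne hli]
  rw [h1]
  simp only [Function.update_self, if_true]
  omega

theorem lev_pos (γ0 γ : Fin m → K) (h : γ ≠ γ0) : 1 ≤ lev γ0 γ := by
  obtain ⟨i, hi⟩ := Function.ne_iff.mp h
  unfold lev
  have : (if γ i = γ0 i then 0 else 1) ≤ ∑ i, (if γ i = γ0 i then 0 else 1) :=
    Finset.single_le_sum (f := fun i => if γ i = γ0 i then 0 else 1)
      (fun _ _ => Nat.zero_le _) (Finset.mem_univ i)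
  rw [if_neg hi] at this
  exact this

/-- damping factor -/
noncomputable def cf (L r : ℕ) : ℝ := min 1 (((r : ℝ) - 1) / L)

theorem cf_nonneg {L r : ℕ} (hL : 1 ≤ L) (hr : 1 ≤ r) : 0 ≤ cf L r := by
  unfold cf
  have h1 : (1 : ℝ) ≤ r := by exact_mod_cast hr
  have h2 : (0 : ℝ) < L := by exact_mod_cast hL
  apply le_min zero_le_one
  apply div_nonneg <;> linarith

theorem cf_le_one (L r : ℕ) : cf L r ≤ 1 := min_le_left _ _

theorem cf_mono (L r : ℕ) (hL : 1 ≤ L) : cf L r ≤ cf L (r + 1) := by
  unfold cf
  have h2 : (0 : ℝ) < L := by exact_mod_cast hL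
  apply min_le_min le_rfl
  apply div_le_div_of_nonneg_right _ h2.le
  push_cast
  linarith

theorem cf_step (L r : ℕ) (hL : 1 ≤ L) : cf L (r + 1) ≤ cf L r + 1 / L := by
  unfold cf
  have h2 : (0 : ℝ) < L := by exact_mod_cast hL
  have h3 : (0 : ℝ) ≤ 1 / (L : ℝ) := by positivity
  rcases le_total 1 (((r : ℝ) - 1) / L) with h | h
  · rw [min_eq_left h]
    exact (min_le_left _ _).trans (by linarith)
  · rw [min_eq_right h]
    refine (min_le_right _ _).trans ?_
    push_cast
    rw [← add_div]
    apply div_le_div_of_nonneg_right _ h2.le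
    linarith

theorem cf_two (L : ℕ) (hL : 1 ≤ L) : cf L 2 ≤ 1 / L := by
  unfold cf
  refine (min_le_right _ _).trans ?_
  norm_num

theorem cf_large {L r : ℕ} (hL : 1 ≤ L) (hr : L + 1 ≤ r) : cf L r = 1 := by
  unfold cf
  apply min_eq_left
  have h2 : (0 : ℝ) < L := by exact_mod_cast hL
  rw [le_div_iff₀ h2]
  have : ((L : ℝ) + 1) ≤ r := by exact_mod_cast hr
  linarith

/-- the damped modification in direction `j` near `γ0` -/
noncomputable def vj (L : ℕ) (γ0 : Fin m → K) (vs : (Fin m → K) → ℝ) (z : K → ℝ) (j : Fin m)
    (γ : Fin m → K) : ℝ :=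
  if γ j = γ0 j then vs γ
  else if γ = Function.update γ0 j (γ j) then z (γ j)
  else cf L (lev γ0 γ) * vs γ

theorem vj_abs {L : ℕ} (hL : 1 ≤ L) (γ0 : Fin m → K) {vs : (Fin m → K) → ℝ} {z : K → ℝ}
    (j : Fin m) (hvs : ∀ γ, |vs γ| ≤ 1) (hz : ∀ κ, |z κ| ≤ 1) (γ : Fin m → K) :
    |vj L γ0 vs z j γ| ≤ 1 := by
  unfold vj
  split_ifs with h1 h2
  · exact hvs γ
  · exact hz _
  · have hne : γ ≠ γ0 := fun h => h1 (by rw [h])
    rw [abs_mul, abs_of_nonneg (cf_nonneg hL (lev_pos γ0 γ hne))]
    exact mul_le_one₀ (cf_le_one _ _) (abs_nonneg _) (hvs γ)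

theorem vj_NB {H : K → K → ℝ} (hH : Had H) {L : ℕ} (hL : 1 ≤ L) (γ0 : Fin m → K)
    {vs : (Fin m → K) → ℝ} {z : K → ℝ} (j : Fin m) (hvs : NB H vs 1) (hz : LB H z 1)
    (hz0 : z (γ0 j) = vs γ0) : NB H (vj L γ0 vs z j) (1 + 2 / L) := by
  have hLR : (0 : ℝ) < L := by exact_mod_cast hL
  have h2L : (0 : ℝ) ≤ 2 / (L : ℝ) := by positivity
  have habs := vj_abs hL γ0 j hvs.1 hz.1
  apply NB_of_line
  · intro γ
    exact (habs γ).trans (by linarith)
  · intro i γ
    by_cases hij : i = j
    · -- lines in direction j
      rw [hij]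
      by_cases hβ : Function.update γ j (γ0 j) = γ0
      · -- the line through γ0
        have hline : (fun κ => vj L γ0 vs z j (Function.update γ j κ)) = z := by
          funext κ
          have h1 : Function.update γ j κ = Function.update γ0 j κ := by
            rw [← hβ, Function.update_idem]
          rw [h1]
          unfold vj
          simp only [Function.update_self]
          by_cases hκ : κ = γ0 j
          · rw [if_pos hκ, hκ, Function.update_eq_self, hz0]
          · rw [if_neg hκ, if_pos trivial]
        rw [hline]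
        exact LB_mono hz (by linarith)
      · -- other lines
        set β := Function.update γ j (γ0 j) with hβdef
        have hrpos : 1 ≤ lev γ0 β := lev_pos γ0 β hβ
        set c := cf L (lev γ0 β + 1) with hc
        have hc0 : 0 ≤ c := cf_nonneg hL (by omega)
        have hc1 : c ≤ 1 := cf_le_one _ _
        have hline : (fun κ => vj L γ0 vs z j (Function.update γ j κ)) =
            fun κ => c * vs (Function.update γ j κ) +
              (if κ = γ0 j then (1 - c) * vs β else 0) := by
          funext κ
          unfold vj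
          simp only [Function.update_self]
          by_cases hκ : κ = γ0 j
          · rw [if_pos hκ, if_pos hκ, hκ]
            ring
          · rw [if_neg hκ, if_neg hκ, if_neg, lev_update, if_neg hκ, add_zero]
            intro hcon
            apply hβ
            have h2 := congrArg (fun g => Function.update g j (γ0 j)) hcon
            simp only [Function.update_idem] at h2
            rw [hβdef, h2, Function.update_eq_self]
        rw [hline]
        have h3 := LB_comb hH (c := c) (e := (1 - c) * vs β) (κ0 := γ0 j) hc0 (hvs.line j γ)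
        refine LB_mono h3 ?_
        rw [abs_mul, abs_of_nonneg (by linarith : (0 : ℝ) ≤ 1 - c)]
        have h4 : (1 - c) * |vs β| ≤ (1 - c) * 1 :=
          mul_le_mul_of_nonneg_left (hvs.1 β) (by linarith)
        linarith
    · -- lines in another direction
      by_cases hγ : γ j = γ0 j
      · have hline : (fun κ => vj L γ0 vs z j (Function.update γ i κ)) =
            fun κ => vs (Function.update γ i κ) := by
          funext κ
          unfold vj
          rw [if_pos]
          rw [Function.update_of_ne (Ne.symm hij)]
          exact hγ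
        rw [hline]
        exact LB_mono (hvs.line i γ) (by linarith)
      · set β := Function.update γ i (γ0 i) with hβdef
        have hβj : β j = γ j := by rw [hβdef, Function.update_of_ne (Ne.symm hij)]
        have hβne : β ≠ γ0 := by
          intro h
          apply hγ
          rw [← hβj, h]
        have hrpos : 1 ≤ lev γ0 β := lev_pos γ0 β hβne
        set c := cf L (lev γ0 β + 1) with hc
        have hc0 : 0 ≤ c := cf_nonneg hL (by omega)
        have hc1 : c ≤ 1 := cf_le_one _ _
        set e := vj L γ0 vs z j β - c * vs β with he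
        have hline : (fun κ => vj L γ0 vs z j (Function.update γ i κ)) =
            fun κ => c * vs (Function.update γ i κ) + (if κ = γ0 i then e else 0) := by
          funext κ
          by_cases hκ : κ = γ0 i
          · rw [if_pos hκ, hκ, he]
            ring
          · rw [if_neg hκ, add_zero]
            unfold vj
            rw [Function.update_of_ne (Ne.symm hij), if_neg hγ, if_neg, lev_update, if_neg hκ]
            intro hcon
            apply hκ
            have h2 := congrFun hcon i
            rw [Function.update_self, Function.update_of_ne hij] at h2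
            exact h2
        rw [hline]
        have h3 := LB_comb hH (c := c) (e := e) (κ0 := γ0 i) hc0 (hvs.line i γ)
        refine LB_mono h3 ?_
        have h1L : (0 : ℝ) ≤ 1 / (L : ℝ) := by positivity
        have h2L' : 2 / (L : ℝ) = 1 / L + 1 / L := by ring
        by_cases hβ1 : β = Function.update γ0 j (β j)
        · -- first level
          have hlev : lev γ0 β = 1 := by
            rw [hβ1, lev_update, Function.update_eq_self, if_neg]
            · have : lev γ0 γ0 = 0 := by simp [lev]
              rw [this]
            · rw [hβj]; exact hγ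
          have hc2 : c ≤ 1 / L := by
            rw [hc, hlev]
            exact cf_two L hL
          have h5 : |e| ≤ 1 + c := by
            rw [he]
            refine (abs_sub _ _).trans (add_le_add (habs β) ?_)
            rw [abs_mul, abs_of_nonneg hc0]
            exact mul_le_of_le_one_right hc0 (hvs.1 β)
          linarith
        · have hvβ : vj L γ0 vs z j β = cf L (lev γ0 β) * vs β := by
            unfold vj
            rw [if_neg (by rw [hβj]; exact hγ), if_neg hβ1]
          have h5 : |e| ≤ 1 / L := by
            rw [he, hvβ, ← sub_mul, abs_mul]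
            have h6 : |cf L (lev γ0 β) - c| ≤ 1 / L := by
              rw [abs_le]
              have h7 := cf_mono L (lev γ0 β) hL
              have h8 := cf_step L (lev γ0 β) hL
              constructor
              · rw [hc]; linarith
              · rw [hc]; linarith
            calc |cf L (lev γ0 β) - c| * |vs β| ≤ (1 / L) * 1 :=
                  mul_le_mul h6 (hvs.1 β) (abs_nonneg _) h1L
              _ = 1 / L := mul_one _
          linarith

/-- the sum of the modifications over many directions stays bounded -/
theorem sum_vj {L : ℕ} (hL : 1 ≤ L) (γ0 : Fin m → K) {vs : (Fin m → K) → ℝ}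
    {z : Fin m → K → ℝ} (hvs : ∀ γ, |vs γ| ≤ 1) (hz : ∀ j κ, |z j κ| ≤ 1) (J : Finset (Fin m))
    (γ : Fin m → K) : |∑ j ∈ J, (vj L γ0 vs (z j) j γ - vs γ)| ≤ 2 * L := by
  have hLR : (1 : ℝ) ≤ L := by exact_mod_cast hL
  have hterm : ∀ j, |vj L γ0 vs (z j) j γ - vs γ| ≤
      (if γ j = γ0 j then 0 else 1) * (if lev γ0 γ ≤ L then 2 else 0 : ℝ) := by
    intro j
    by_cases h1 : γ j = γ0 j
    · rw [if_pos h1]
      unfold vj
      rw [if_pos h1]
      simp
    · rw [if_neg h1, one_mul]
      by_cases h2 : lev γ0 γ ≤ L
      · rw [if_pos h2]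
        have h3 := vj_abs hL γ0 j hvs (hz j) γ
        calc |vj L γ0 vs (z j) j γ - vs γ| ≤ |vj L γ0 vs (z j) j γ| + |vs γ| := abs_sub _ _
          _ ≤ 1 + 1 := add_le_add h3 (hvs γ)
          _ = 2 := by norm_num
      · rw [if_neg h2]
        unfold vj
        rw [if_neg h1, if_neg, cf_large hL (by omega)]
        · simp
        · intro h3
          apply h2
          rw [h3, lev_update, Function.update_eq_self, if_neg h1]
          have : lev γ0 γ0 = 0 := by simp [lev]
          rw [this]
          omega
  refine (Finset.abs_sum_le_sum_abs _ _).trans ?_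
  refine (Finset.sum_le_sum (fun j _ => hterm j)).trans ?_
  rw [← Finset.sum_mul]
  have h1 : ∑ j ∈ J, (if γ j = γ0 j then (0 : ℝ) else 1) ≤ (lev γ0 γ : ℝ) := by
    unfold lev
    push_cast
    apply Finset.sum_le_sum_of_subset_of_nonneg (Finset.subset_univ _)
    intro j _ _
    split_ifs <;> norm_num
  have h0 : 0 ≤ ∑ j ∈ J, (if γ j = γ0 j then (0 : ℝ) else 1) := by
    apply Finset.sum_nonneg
    intro j _
    split_ifs <;> norm_num
  by_cases h2 : lev γ0 γ ≤ L
  · rw [if_pos h2]
    have h3 : (lev γ0 γ : ℝ) ≤ L := by exact_mod_cast h2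
    linarith
  · rw [if_neg h2, mul_zero]
    linarith

end Pool.Agent.Y81.Proj
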