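import Mathlib
import Pool.Agent.Y81.ProjDamp

/-!
Star functionals on functions of several coordinates, and their local modification.
-/

namespace Pool.Agent.Y81.Proj

set_option linter.unusedSectionVars false

variable {S M : Type} [Fintype S] [DecidableEq S] [DecidableEq M]

/-- the star point of `a` in the direction `u` -/
def st (τ : M → M) (a : S → M) (u : S) : S → M := Function.update a u (τ (a u))

/-- star functional -/
noncomputable def G (τ : M → M) (w : ℝ) (μ : S → ℝ) (x : (S → M) → ℝ) (a : S → M) : ℝ :=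
  w * x a + (1 + w) * ∑ u, μ u * x (st τ a u)

/-- number of coordinates in which `p` differs from `a` -/
def dif (a p : S → M) : ℕ := (Finset.univ.filter fun u => p u ≠ a u).card

/-- the points which differ from `a` on the set `B` -/
def Dm (B : S → Prop) (a p : S → M) : Prop := ∃ u, B u ∧ p u ≠ a u

theorem st_self (τ : M → M) (a : S → M) (u : S) : st τ a u u = τ (a u) := by
  unfold st
  rw [Function.update_self]

theorem st_of_ne (τ : M → M) (a : S → M) {u v : S} (h : v ≠ u) : st τ a u v = a v := by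
  unfold st
  rw [Function.update_of_ne h]

theorem dif_self (a : S → M) : dif a a = 0 := by
  unfold dif
  simp

theorem dif_pos {a p : S → M} (h : p ≠ a) : 1 ≤ dif a p := by
  obtain ⟨u, hu⟩ := Function.ne_iff.mp h
  unfold dif
  rw [Nat.one_le_iff_ne_zero, Finset.card_ne_zero]
  exact ⟨u, by simpa using hu⟩

theorem dif_st_of_eq {τ : M → M} (hτ : ∀ x, τ x ≠ x) {a p : S → M} {u : S} (h : p u = a u) :
    dif a (st τ p u) = dif a p + 1 := by
  unfold dif
  have : (Finset.univ.filter fun v => st τ p u v ≠ a v) =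
      insert u (Finset.univ.filter fun v => p v ≠ a v) := by
    ext v
    simp only [Finset.mem_filter, Finset.mem_univ, true_and, Finset.mem_insert]
    by_cases hv : v = u
    · rw [hv, st_self, h]
      simp [hτ]
    · rw [st_of_ne _ _ hv]
      simp [hv]
  rw [this, Finset.card_insert_of_notMem (by simp [h])]

theorem dif_st_ge {τ : M → M} {a p : S → M} {u : S} : dif a p ≤ dif a (st τ p u) + 1 := by
  unfold dif
  have : (Finset.univ.filter fun v => p v ≠ a v) ⊆
      insert u (Finset.univ.filter fun v => st τ p u v ≠ a v) := by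
    intro v hv
    simp only [Finset.mem_filter, Finset.mem_univ, true_and, Finset.mem_insert] at hv ⊢
    by_cases hvu : v = u
    · exact Or.inl hvu
    · right
      rw [st_of_ne _ _ hvu]
      exact hv
  exact (Finset.card_le_card this).trans (Finset.card_insert_le _ _)

theorem Dm_ne {B : S → Prop} {a p : S → M} (h : Dm B a p) : p ≠ a := by
  obtain ⟨u, _, hu⟩ := h
  intro h2
  exact hu (by rw [h2])

theorem not_Dm_self {B : S → Prop} {a : S → M} : ¬ Dm B a a := fun h => Dm_ne h rfl

open Classical in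
/-- the damping factor -/
noncomputable def ph (L : ℕ) (B : S → Prop) (a p : S → M) : ℝ :=
  if Dm B a p then cf L (dif a p) else 1

open Classical in
/-- the special values -/
noncomputable def sp (τ : M → M) (B : S → Prop) (c : ℝ) (χ : S → ℝ) (a p : S → M) : ℝ :=
  ∑ u, if B u ∧ p = st τ a u then c * χ u else 0

/-- the modified vector -/
noncomputable def vm (τ : M → M) (L : ℕ) (B : S → Prop) (c : ℝ) (χ : S → ℝ) (a : S → M)
    (v : (S → M) → ℝ) (p : S → M) : ℝ :=
  ph L B a p * v p + sp τ B c χ a p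

theorem ph_nonneg {L : ℕ} (hL : 1 ≤ L) (B : S → Prop) (a p : S → M) : 0 ≤ ph L B a p := by
  unfold ph
  split_ifs with h
  · exact cf_nonneg hL (dif_pos (Dm_ne h))
  · exact zero_le_one

theorem ph_le_one (L : ℕ) (B : S → Prop) (a p : S → M) : ph L B a p ≤ 1 := by
  unfold ph
  split_ifs with h
  · exact cf_le_one _ _
  · exact le_rfl

theorem st_inj {τ : M → M} (hτ : ∀ x, τ x ≠ x) {a : S → M} {u v : S}
    (h : st τ a u = st τ a v) : u = v := by
  by_contra hne
  have h1 := congrFun h u
  rw [st_self, st_of_ne _ _ hne] at h1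
  exact hτ _ h1

theorem sp_st {τ : M → M} (hτ : ∀ x, τ x ≠ x) {B : S → Prop} {c : ℝ} {χ : S → ℝ} {a : S → M}
    {u : S} (hu : B u) : sp τ B c χ a (st τ a u) = c * χ u := by
  unfold sp
  rw [Finset.sum_eq_single u]
  · rw [if_pos ⟨hu, rfl⟩]
  · intro v _ hv
    rw [if_neg]
    rintro ⟨_, h⟩
    exact hv (st_inj hτ h).symm
  · intro h
    exact absurd (Finset.mem_univ _) h

theorem sp_eq_zero {τ : M → M} {B : S → Prop} {c : ℝ} {χ : S → ℝ} {a p : S → M}
    (h : ∀ u, B u → p ≠ st τ a u) : sp τ B c χ a p = 0 := by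
  unfold sp
  apply Finset.sum_eq_zero
  intro u _
  rw [if_neg]
  rintro ⟨h1, h2⟩
  exact h u h1 h2

theorem sp_self {τ : M → M} (hτ : ∀ x, τ x ≠ x) {B : S → Prop} {c : ℝ} {χ : S → ℝ}
    {a : S → M} : sp τ B c χ a a = 0 := by
  apply sp_eq_zero
  intro u _ h
  have := congrFun h u
  rw [st_self] at this
  exact hτ _ this.symm

theorem abs_sp_le {τ : M → M} (hτ : ∀ x, τ x ≠ x) {B : S → Prop} {c : ℝ} {χ : S → ℝ}
    (hc0 : 0 ≤ c) (hc1 : c ≤ 1) (hχ : ∀ u, |χ u| ≤ 1) {a p : S → M} :
    |sp τ B c χ a p| ≤ 1 := by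
  by_cases h : ∃ u, B u ∧ p = st τ a u
  · obtain ⟨u, hu, rfl⟩ := h
    rw [sp_st hτ hu, abs_mul, abs_of_nonneg hc0]
    exact mul_le_one₀ hc1 (abs_nonneg _) (hχ u)
  · push Not at h
    rw [sp_eq_zero h]
    simp

theorem Dm_st {τ : M → M} (hτ : ∀ x, τ x ≠ x) {B : S → Prop} {a : S → M} {u : S} (hu : B u) :
    Dm B a (st τ a u) := ⟨u, hu, by rw [st_self]; exact hτ _⟩

theorem dif_st_self {τ : M → M} (hτ : ∀ x, τ x ≠ x) {a : S → M} {u : S} :
    dif a (st τ a u) = 1 := by
  rw [dif_st_of_eq hτ rfl, dif_self]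

theorem cf_one (L : ℕ) : cf L 1 = 0 := by
  unfold cf
  simp

theorem abs_vm_le {τ : M → M} (hτ : ∀ x, τ x ≠ x) {L : ℕ} (hL : 1 ≤ L) {B : S → Prop} {c : ℝ}
    {χ : S → ℝ} (hc0 : 0 ≤ c) (hc1 : c ≤ 1) (hχ : ∀ u, |χ u| ≤ 1) {a : S → M}
    {v : (S → M) → ℝ} (hv : ∀ p, |v p| ≤ 1) (p : S → M) : |vm τ L B c χ a v p| ≤ 1 := by
  unfold vm
  by_cases h : ∃ u, B u ∧ p = st τ a u
  · obtain ⟨u, hu, rfl⟩ := h
    have h1 : ph L B a (st τ a u) = 0 := by
      unfold ph
      rw [if_pos (Dm_st hτ hu), dif_st_self hτ, cf_one]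
    rw [h1, zero_mul, zero_add]
    exact abs_sp_le hτ hc0 hc1 hχ
  · push Not at h
    rw [sp_eq_zero h, add_zero, abs_mul, abs_of_nonneg (ph_nonneg hL B a p)]
    exact mul_le_one₀ (ph_le_one _ _ _ _) (abs_nonneg _) (hv p)

/-- the modification is local -/
theorem abs_vm_sub_le {τ : M → M} (hτ : ∀ x, τ x ≠ x) {L : ℕ} (hL : 1 ≤ L) {B : S → Prop} {c : ℝ}
    {χ : S → ℝ} (hc0 : 0 ≤ c) (hc1 : c ≤ 1) (hχ : ∀ u, |χ u| ≤ 1) {a : S → M}
    {v : (S → M) → ℝ} (hv : ∀ p, |v p| ≤ 1) (p : S → M) [Decidable (Dm B a p)] :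
    |vm τ L B c χ a v p - v p| ≤ if Dm B a p ∧ dif a p ≤ L then 2 else 0 := by
  split_ifs with h
  · refine (abs_sub _ _).trans ?_
    have := abs_vm_le hτ hL hc0 hc1 hχ hv (a := a) (B := B) p
    linarith [hv p]
  · have h1 : vm τ L B c χ a v p = v p := by
      unfold vm
      by_cases h2 : Dm B a p
      · have h3 : L + 1 ≤ dif a p := by
          by_contra hcon
          exact h ⟨h2, by omega⟩
        have h4 : ph L B a p = 1 := by
          unfold ph
          rw [if_pos h2, cf_large hL h3]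
        rw [h4, one_mul, sp_eq_zero, add_zero]
        rintro u hu rfl
        rw [dif_st_self hτ] at h3
        omega
      · have h4 : ph L B a p = 1 := by
          unfold ph
          rw [if_neg h2]
        rw [h4, one_mul, sp_eq_zero, add_zero]
        rintro u hu rfl
        exact h2 (Dm_st hτ hu)
    rw [h1, sub_self, abs_zero]

theorem vm_eq_of_large {τ : M → M} (hτ : ∀ x, τ x ≠ x) {L : ℕ} (hL : 1 ≤ L) {B : S → Prop} {c : ℝ}
    {χ : S → ℝ} (hc0 : 0 ≤ c) (hc1 : c ≤ 1) (hχ : ∀ u, |χ u| ≤ 1) {a : S → M}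
    {v : (S → M) → ℝ} (hv : ∀ p, |v p| ≤ 1) {p : S → M} (hp : L + 1 ≤ dif a p) :
    vm τ L B c χ a v p = v p := by
  classical
  have h := abs_vm_sub_le hτ hL hc0 hc1 hχ hv p (a := a) (B := B)
  rw [if_neg (by omega)] at h
  have := abs_nonneg (vm τ L B c χ a v p - v p)
  have h2 : |vm τ L B c χ a v p - v p| = 0 := le_antisymm h this
  rw [abs_eq_zero] at h2
  linarith

theorem vm_of_Dm {τ : M → M} (hτ : ∀ x, τ x ≠ x) {L : ℕ} {B : S → Prop} {c : ℝ}
    {χ : S → ℝ} {a : S → M} {v : (S → M) → ℝ} {p : S → M} (hp : Dm B a p) (h2 : 2 ≤ dif a p) :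
    vm τ L B c χ a v p = cf L (dif a p) * v p := by
  unfold vm ph
  rw [if_pos hp, sp_eq_zero, add_zero]
  rintro u _ rfl
  rw [dif_st_self hτ] at h2
  omega

theorem vm_of_not_Dm {τ : M → M} (hτ : ∀ x, τ x ≠ x) {L : ℕ} {B : S → Prop} {c : ℝ}
    {χ : S → ℝ} {a : S → M} {v : (S → M) → ℝ} {p : S → M} (hp : ¬ Dm B a p) :
    vm τ L B c χ a v p = v p := by
  unfold vm ph
  rw [if_neg hp, sp_eq_zero, one_mul, add_zero]
  rintro u hu rfl
  exact hp (Dm_st hτ hu)

theorem vm_st {τ : M → M} (hτ : ∀ x, τ x ≠ x) {L : ℕ} {B : S → Prop} {c : ℝ}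
    {χ : S → ℝ} {a : S → M} {v : (S → M) → ℝ} {u : S} (hu : B u) :
    vm τ L B c χ a v (st τ a u) = c * χ u := by
  unfold vm ph
  rw [if_pos (Dm_st hτ hu), dif_st_self hτ, cf_one, zero_mul, zero_add, sp_st hτ hu]

theorem Dm_st_iff {τ : M → M} {B : S → Prop} {a p : S → M} {u : S}
    (hp : ¬ Dm B a p) (hu : ¬ B u) : ¬ Dm B a (st τ p u) := by
  rintro ⟨v, hv, hne⟩
  have hvu : v ≠ u := by
    rintro rfl
    exact hu hv
  rw [st_of_ne _ _ hvu] at hne
  exact hp ⟨v, hv, hne⟩

theorem eq_of_not_Dm {B : S → Prop} {a p : S → M} {u : S} (hp : ¬ Dm B a p) (hu : B u) :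
    p u = a u := by
  by_contra h
  exact hp ⟨u, hu, h⟩

/-- compatibility of a functional with a block -/
def Compat (δ w w0 : ℝ) (B : S → Prop) (μ χ : S → ℝ) : Prop :=
  (∃ T : Finset S, (∀ u, B u → u ∈ T) ∧ ∑ u ∈ T, |μ u| ≤ δ) ∨
    (w ≤ w0 ∧ (∀ u, ¬ B u → μ u = 0) ∧ (∑ u, μ u * χ u = 0 ∨ ∑ u, μ u * χ u = 1))

theorem sum_abs_le {μ e : S → ℝ} {T : Finset S} {δ C : ℝ} (hC : 0 ≤ C) (h0 : ∀ u ∉ T, e u = 0)
    (h1 : ∀ u, |e u| ≤ C) (h : ∑ u ∈ T, |μ u| ≤ δ) : |∑ u, μ u * e u| ≤ δ * C := by
  have h2 : ∑ u, μ u * e u = ∑ u ∈ T, μ u * e u := by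
    symm
    apply Finset.sum_subset (Finset.subset_univ _)
    intro u _ hu
    rw [h0 u hu, mul_zero]
  rw [h2]
  calc |∑ u ∈ T, μ u * e u| ≤ ∑ u ∈ T, |μ u * e u| := Finset.abs_sum_le_sum_abs _ _
    _ ≤ ∑ u ∈ T, |μ u| * C := by
        apply Finset.sum_le_sum
        intro u _
        rw [abs_mul]
        exact mul_le_mul_of_nonneg_left (h1 u) (abs_nonneg _)
    _ = (∑ u ∈ T, |μ u|) * C := by rw [Finset.sum_mul]
    _ ≤ δ * C := mul_le_mul_of_nonneg_right h hC

/-- the constant of the modification -/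
theorem c_bounds {w0 t : ℝ} (hw0 : 0 ≤ w0) (hw1 : w0 ≤ 1) (ht : |t| ≤ 1) :
    0 ≤ (1 - w0 * t) / (1 + w0) ∧ (1 - w0 * t) / (1 + w0) ≤ 1 := by
  have h := abs_le.mp ht
  constructor
  · apply div_nonneg
    · nlinarith
    · linarith
  · rw [div_le_one (by linarith)]
    nlinarith

theorem beta_bound {w w0 t : ℝ} (hw : 0 ≤ w) (hww : w ≤ w0) (hw1 : w0 ≤ 1) (ht : |t| ≤ 1) :
    |w * t + (1 + w) * ((1 - w0 * t) / (1 + w0))| ≤ 1 := by
  have h := abs_le.mp ht
  have h0 : (0 : ℝ) < 1 + w0 := by linarith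
  obtain ⟨hc0, hc1⟩ := c_bounds (hw.trans hww) hw1 ht
  have hc : (1 - w0 * t) / (1 + w0) * (1 + w0) = 1 - w0 * t := by
    field_simp
  generalize (1 - w0 * t) / (1 + w0) = c at hc hc0 hc1
  rw [abs_le]
  constructor
  · nlinarith
  · -- w t + (1+w) c = 1 - (w0 - w) (t + c)
    have h1 : (t + c) * (1 + w0) = 1 + t := by linarith
    have h2 : 0 ≤ t + c := by
      by_contra hcon
      push Not at hcon
      have : (t + c) * (1 + w0) < 0 := mul_neg_of_neg_of_pos hcon h0
      linarith
    have h3 : w * t + (1 + w) * c = 1 - (w0 - w) * (t + c) := by linarith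
    rw [h3]
    have := mul_nonneg (sub_nonneg.mpr hww) h2
    linarith

theorem vm_flex {τ : M → M} (hτ : ∀ x, τ x ≠ x) {L : ℕ} {B : S → Prop}
    {χ : S → ℝ} {a : S → M} {v : (S → M) → ℝ} {w0 : ℝ} {μ0 : S → ℝ} (hw0 : 0 ≤ w0)
    (hμ : ∀ u, ¬ B u → μ0 u = 0) (hμχ : ∑ u, μ0 u * χ u = 1) :
    G τ w0 μ0 (vm τ L B ((1 - w0 * v a) / (1 + w0)) χ a v) a = 1 := by
  unfold G
  rw [vm_of_not_Dm hτ not_Dm_self]
  have h1 : ∑ u, μ0 u * vm τ L B ((1 - w0 * v a) / (1 + w0)) χ a v (st τ a u) =
      ((1 - w0 * v a) / (1 + w0)) * ∑ u, μ0 u * χ u := by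
    rw [Finset.mul_sum]
    apply Finset.sum_congr rfl
    intro u _
    by_cases hu : B u
    · rw [vm_st hτ hu]
      ring
    · rw [hμ u hu]
      ring
  rw [h1, hμχ]
  have : (1 : ℝ) + w0 ≠ 0 := by linarith
  field_simp
  ring

theorem vm_G_le {τ : M → M} (hτ : ∀ x, τ x ≠ x) {L : ℕ} (hL : 1 ≤ L) {B : S → Prop}
    {χ : S → ℝ} (hχ : ∀ u, |χ u| ≤ 1) {a : S → M}
    {v : (S → M) → ℝ} (hv : ∀ p, |v p| ≤ 1) {w0 : ℝ} (hw0 : 0 ≤ w0) (hw01 : w0 ≤ 1)
    {w δ : ℝ} {μ : S → ℝ} (hw : 0 ≤ w) (hw1 : w ≤ 1) (hδ : 0 ≤ δ) (hμδ : ∀ u, |μ u| ≤ δ)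
    (hcomp : Compat δ w w0 B μ χ) (p : S → M) (hG : |G τ w μ v p| ≤ 1) :
    |G τ w μ (vm τ L B ((1 - w0 * v a) / (1 + w0)) χ a v) p| ≤ 1 + 2 / L + 4 * (L + 1) * δ := by
  classical
  obtain ⟨hc0, hc1⟩ := c_bounds hw0 hw01 (hv a)
  have hLR : (1 : ℝ) ≤ L := by exact_mod_cast hL
  have h2L : (0 : ℝ) ≤ 2 / (L : ℝ) := by positivity
  have h1L : (0 : ℝ) ≤ 1 / (L : ℝ) := by positivity
  have h2L' : 2 / (L : ℝ) = 1 / L + 1 / L := by ring
  have hLδ : 0 ≤ (L : ℝ) * δ := by positivity
  set v' := vm τ L B ((1 - w0 * v a) / (1 + w0)) χ a v with hv'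
  have hv'1 : ∀ q, |v' q| ≤ 1 := fun q => abs_vm_le hτ hL hc0 hc1 hχ hv q
  have hw1' : 0 ≤ 1 + w := by linarith
  by_cases hpa : p = a
  · -- the star of the centre
    have hp0 : v' p = v p := by
      rw [hpa]
      exact vm_of_not_Dm hτ not_Dm_self
    rcases hcomp with ⟨T, hT, hTδ⟩ | ⟨hww, hμ0, hχ01⟩
    · have h1 : G τ w μ v' p = G τ w μ v p +
          (1 + w) * ∑ u, μ u * (v' (st τ p u) - v (st τ p u)) := by
        unfold G
        simp only [mul_sub, Finset.sum_sub_distrib]
        rw [hp0]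
        ring
      have h2 : |∑ u, μ u * (v' (st τ p u) - v (st τ p u))| ≤ δ * 2 := by
        apply sum_abs_le zero_le_two _ _ hTδ
        · intro u hu
          have hBu : ¬ B u := fun h => hu (hT u h)
          rw [hpa, hv', vm_of_not_Dm hτ (Dm_st_iff not_Dm_self hBu), sub_self]
        · intro u
          refine (abs_sub _ _).trans ?_
          linarith [hv'1 (st τ p u), hv (st τ p u)]
      rw [h1]
      refine (abs_add_le _ _).trans ?_
      rw [abs_mul, abs_of_nonneg hw1']
      have h3 : (1 + w) * |∑ u, μ u * (v' (st τ p u) - v (st τ p u))| ≤ 2 * (δ * 2) :=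
        mul_le_mul (by linarith) h2 (abs_nonneg _) (by norm_num)
      linarith
    · have h1 : ∑ u, μ u * v' (st τ p u) =
          ((1 - w0 * v a) / (1 + w0)) * ∑ u, μ u * χ u := by
        rw [Finset.mul_sum]
        apply Finset.sum_congr rfl
        intro u _
        by_cases hu : B u
        · rw [hpa, hv', vm_st hτ hu]
          ring
        · rw [hμ0 u hu]
          ring
      unfold G
      rw [hp0, h1, hpa]
      rcases hχ01 with h | h
      · rw [h, mul_zero, mul_zero, add_zero, abs_mul, abs_of_nonneg hw]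
        have : w * |v a| ≤ 1 := mul_le_one₀ hw1 (abs_nonneg _) (hv a)
        linarith
      · rw [h, mul_one]
        have := beta_bound hw hww hw01 (hv a)
        linarith
  · have hr1 : 1 ≤ dif a p := dif_pos hpa
    set c1 := cf L (dif a p + 1) with hc1d
    have hc10 : 0 ≤ c1 := cf_nonneg hL (by omega)
    have hc11 : c1 ≤ 1 := cf_le_one _ _
    by_cases hD : Dm B a p
    · by_cases hr : L + 2 ≤ dif a p
      · -- far away
        have h1 : v' p = v p := vm_eq_of_large hτ hL hc0 hc1 hχ hv (by omega)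
        have h2 : ∀ u, v' (st τ p u) = v (st τ p u) := by
          intro u
          have := dif_st_ge (τ := τ) (a := a) (p := p) (u := u)
          exact vm_eq_of_large hτ hL hc0 hc1 hχ hv (by omega)
        have h3 : G τ w μ v' p = G τ w μ v p := by
          unfold G
          simp only [h1, h2]
        rw [h3]
        linarith
      · -- near
        set E := Finset.univ.filter fun u => p u ≠ a u with hE
        have hEc : (E.card : ℝ) ≤ L + 1 := by
          have : E.card ≤ L + 1 := by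
            have h : dif a p ≤ L + 1 := by omega
            exact h
          exact_mod_cast this
        have hEδ : ∑ u ∈ E, |μ u| ≤ (L + 1) * δ := by
          calc ∑ u ∈ E, |μ u| ≤ ∑ u ∈ E, δ := Finset.sum_le_sum fun u _ => hμδ u
            _ = E.card * δ := by rw [Finset.sum_const, nsmul_eq_mul]
            _ ≤ (L + 1) * δ := mul_le_mul_of_nonneg_right hEc hδ
        have h1 : G τ w μ v' p = c1 * G τ w μ v p + w * (v' p - c1 * v p) +
            (1 + w) * ∑ u, μ u * (v' (st τ p u) - c1 * v (st τ p u)) := by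
          unfold G
          have : ∑ u, μ u * (v' (st τ p u) - c1 * v (st τ p u)) =
              ∑ u, μ u * v' (st τ p u) - c1 * ∑ u, μ u * v (st τ p u) := by
            rw [Finset.mul_sum, ← Finset.sum_sub_distrib]
            apply Finset.sum_congr rfl
            intro u _
            ring
          rw [this]
          ring
        have h2 : |∑ u, μ u * (v' (st τ p u) - c1 * v (st τ p u))| ≤ (L + 1) * δ * 2 := by
          apply sum_abs_le zero_le_two _ _ hEδ
          · intro u hu
            have hpu : p u = a u := by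
              by_contra h
              exact hu (by rw [hE]; simpa using h)
            have hdu : dif a (st τ p u) = dif a p + 1 := dif_st_of_eq hτ hpu
            have hDu : Dm B a (st τ p u) := by
              obtain ⟨u', hu', hne⟩ := hD
              refine ⟨u', hu', ?_⟩
              have : u' ≠ u := by
                rintro rfl
                exact hne hpu
              rw [st_of_ne _ _ this]
              exact hne
            rw [hv', vm_of_Dm hτ hDu (by omega), hdu, sub_self]
          · intro u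
            refine (abs_sub _ _).trans ?_
            rw [abs_mul, abs_of_nonneg hc10]
            have := mul_le_one₀ hc11 (abs_nonneg _) (hv (st τ p u))
            linarith [hv'1 (st τ p u)]
        have h3 : c1 + |v' p - c1 * v p| ≤ 1 + 2 / L := by
          by_cases h2r : 2 ≤ dif a p
          · rw [hv', vm_of_Dm hτ hD h2r, ← sub_mul, abs_mul]
            have h6 : |cf L (dif a p) - c1| ≤ 1 / L := by
              rw [abs_le]
              have h7 := cf_mono L (dif a p) hL
              have h8 := cf_step L (dif a p) hL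
              constructor
              · rw [hc1d]; linarith
              · rw [hc1d]; linarith
            have h9 : |cf L (dif a p) - c1| * |v p| ≤ (1 / L) * 1 :=
              mul_le_mul h6 (hv p) (abs_nonneg _) h1L
            linarith
          · have hr2 : dif a p = 1 := by omega
            have hc12 : c1 ≤ 1 / L := by
              rw [hc1d, hr2]
              exact cf_two L hL
            have h10 : |v' p - c1 * v p| ≤ 1 + c1 := by
              refine (abs_sub _ _).trans (add_le_add (hv'1 p) ?_)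
              rw [abs_mul, abs_of_nonneg hc10]
              exact mul_le_of_le_one_right hc10 (hv p)
            linarith
        rw [h1]
        have h4 : |c1 * G τ w μ v p| ≤ c1 := by
          rw [abs_mul, abs_of_nonneg hc10]
          exact mul_le_of_le_one_right hc10 hG
        have h5 : |w * (v' p - c1 * v p)| ≤ |v' p - c1 * v p| := by
          rw [abs_mul, abs_of_nonneg hw]
          exact mul_le_of_le_one_left (abs_nonneg _) hw1
        have h6 : |(1 + w) * ∑ u, μ u * (v' (st τ p u) - c1 * v (st τ p u))| ≤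
            2 * ((L + 1) * δ * 2) := by
          rw [abs_mul, abs_of_nonneg hw1']
          exact mul_le_mul (by linarith) h2 (abs_nonneg _) (by norm_num)
        have h7 := abs_add_le (c1 * G τ w μ v p + w * (v' p - c1 * v p))
          ((1 + w) * ∑ u, μ u * (v' (st τ p u) - c1 * v (st τ p u)))
        have h8 := abs_add_le (c1 * G τ w μ v p) (w * (v' p - c1 * v p))
        linarith
    · -- outside of the damped region
      have hp0 : v' p = v p := vm_of_not_Dm hτ hD
      have hB1 : ∀ u, B u → v' (st τ p u) = c1 * v (st τ p u) := by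
        intro u hu
        have hpu : p u = a u := eq_of_not_Dm hD hu
        have hdu : dif a (st τ p u) = dif a p + 1 := dif_st_of_eq hτ hpu
        have hDu : Dm B a (st τ p u) := ⟨u, hu, by rw [st_self, hpu]; exact hτ _⟩
        rw [hv', vm_of_Dm hτ hDu (by omega), hdu]
      have hB2 : ∀ u, ¬ B u → v' (st τ p u) = v (st τ p u) := by
        intro u hu
        exact vm_of_not_Dm hτ (Dm_st_iff hD hu)
      rcases hcomp with ⟨T, hT, hTδ⟩ | ⟨hww, hμ0, hχ01⟩
      · have h1 : G τ w μ v' p = G τ w μ v p +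
            (1 + w) * ∑ u, μ u * (v' (st τ p u) - v (st τ p u)) := by
          unfold G
          simp only [mul_sub, Finset.sum_sub_distrib]
          rw [hp0]
          ring
        have h2 : |∑ u, μ u * (v' (st τ p u) - v (st τ p u))| ≤ δ * 2 := by
          apply sum_abs_le zero_le_two _ _ hTδ
          · intro u hu
            have hBu : ¬ B u := fun h => hu (hT u h)
            rw [hB2 u hBu, sub_self]
          · intro u
            refine (abs_sub _ _).trans ?_
            linarith [hv'1 (st τ p u), hv (st τ p u)]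
        rw [h1]
        refine (abs_add_le _ _).trans ?_
        rw [abs_mul, abs_of_nonneg hw1']
        have h3 : (1 + w) * |∑ u, μ u * (v' (st τ p u) - v (st τ p u))| ≤ 2 * (δ * 2) :=
          mul_le_mul (by linarith) h2 (abs_nonneg _) (by norm_num)
        linarith
      · have h1 : G τ w μ v' p = c1 * G τ w μ v p + (1 - c1) * (w * v p) := by
          unfold G
          have : ∑ u, μ u * v' (st τ p u) = c1 * ∑ u, μ u * v (st τ p u) := by
            rw [Finset.mul_sum]
            apply Finset.sum_congr rfl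
            intro u _
            by_cases hu : B u
            · rw [hB1 u hu]
              ring
            · rw [hμ0 u hu]
              ring
          rw [this, hp0]
          ring
        rw [h1]
        have h4 : |c1 * G τ w μ v p| ≤ c1 := by
          rw [abs_mul, abs_of_nonneg hc10]
          exact mul_le_of_le_one_right hc10 hG
        have h5 : |(1 - c1) * (w * v p)| ≤ 1 - c1 := by
          rw [abs_mul, abs_of_nonneg (by linarith : (0 : ℝ) ≤ 1 - c1)]
          apply mul_le_of_le_one_right (by linarith)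
          rw [abs_mul, abs_of_nonneg hw]
          exact mul_le_one₀ hw1 (abs_nonneg _) (hv p)
        have h6 := abs_add_le (c1 * G τ w μ v p) ((1 - c1) * (w * v p))
        linarith

end Pool.Agent.Y81.Proj
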