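import Mathlib
import Pool.Agent.Y81.ProjStar

/-!
Star functionals in general star systems, with geometric damping.
-/

set_option linter.unusedSectionVars false

namespace Pool.Agent.Y81.Proj.Ch

variable {S Ω : Type} [Fintype S] [DecidableEq S] [DecidableEq Ω]

/-- star functional -/
noncomputable def G (st : Ω → S → Ω) (w : ℝ) (μ : S → ℝ) (x : Ω → ℝ) (a : Ω) : ℝ :=
  w * x a + (1 + w) * ∑ u, μ u * x (st a u)

/-- local coordinates of radius `L` at the point `a` -/
structure Chart (st : Ω → S → Ω) (L : ℕ) (a : Ω) where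
  /-- the level of a point -/
  lev : Ω → ℕ
  /-- the support of a point -/
  sup : Ω → Finset S
  lev_self : lev a = 0
  sup_self : sup a = ∅
  lev_pos : ∀ p, p ≠ a → 1 ≤ lev p
  card_sup : ∀ p, (sup p).card ≤ lev p
  near : ∀ p u, u ∉ sup p → lev p ≤ L → lev (st p u) = lev p + 1 ∧ sup (st p u) = insert u (sup p)
  far : ∀ p u, L + 1 ≤ lev p → u ∉ sup p → L + 1 ≤ lev (st p u)
  sub : ∀ p u, u ∈ sup p → sup (st p u) ⊆ sup p
  sup_lev : ∀ p u, u ∈ sup p → lev p ≤ L + 1

/-- the geometric damping coefficients -/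
noncomputable def gf (L r : ℕ) : ℝ :=
  if L + 1 ≤ r then 1 else if r ≤ 2 then 0 else 1 - (1 / 2) ^ (r - 2)

theorem gf_nonneg (L r : ℕ) : 0 ≤ gf L r := by
  unfold gf
  split_ifs
  · exact zero_le_one
  · exact le_rfl
  · have : ((1 : ℝ) / 2) ^ (r - 2) ≤ 1 := pow_le_one₀ (by norm_num) (by norm_num)
    linarith

theorem gf_le_one (L r : ℕ) : gf L r ≤ 1 := by
  unfold gf
  split_ifs
  · exact le_rfl
  · exact zero_le_one
  · have : (0 : ℝ) ≤ ((1 : ℝ) / 2) ^ (r - 2) := by positivity
    linarith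

theorem gf_large {L r : ℕ} (h : L + 1 ≤ r) : gf L r = 1 := by
  unfold gf
  rw [if_pos h]

theorem gf_two {L r : ℕ} (hL : 2 ≤ L) (h : r ≤ 2) : gf L r = 0 := by
  unfold gf
  rw [if_neg (by omega), if_pos h]

/-- the step of the damping coefficients -/
theorem gf_step {L r : ℕ} (hL : 2 ≤ L) (hr : 2 ≤ r) :
    gf L (r + 1) + |gf L r - gf L (r + 1)| ≤ 1 + (1 / 2) ^ (L - 2) := by
  have hpos : (0 : ℝ) ≤ (1 / 2) ^ (L - 2) := by positivity
  by_cases h1 : L + 1 ≤ r
  · rw [gf_large h1, gf_large (by omega)]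
    simp
  · by_cases h2 : r = L
    · rw [gf_large (r := r + 1) (by omega)]
      have h3 : gf L r = 1 - (1 / 2) ^ (L - 2) := by
        unfold gf
        rw [if_neg h1]
        by_cases h4 : r ≤ 2
        · have : L - 2 = 0 := by omega
          rw [if_pos h4, this]
          norm_num
        · rw [if_neg h4, h2]
      rw [h3]
      have : (1 : ℝ) - (1 / 2) ^ (L - 2) - 1 = -(1 / 2) ^ (L - 2) := by ring
      rw [this, abs_neg, abs_of_nonneg hpos]
    · have h3 : gf L (r + 1) = 1 - (1 / 2) ^ (r - 2 + 1) := by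
        unfold gf
        rw [if_neg (by omega), if_neg (by omega)]
        have : r + 1 - 2 = r - 2 + 1 := by omega
        rw [this]
      have h4 : gf L r = 1 - (1 / 2) ^ (r - 2) := by
        unfold gf
        rw [if_neg h1]
        by_cases h5 : r ≤ 2
        · have : r - 2 = 0 := by omega
          rw [if_pos h5, this]
          norm_num
        · rw [if_neg h5]
      rw [h3, h4]
      have h5 : (1 : ℝ) - (1 / 2) ^ (r - 2) - (1 - (1 / 2) ^ (r - 2 + 1)) =
          -((1 / 2) ^ (r - 2 + 1)) := by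
        rw [pow_succ]
        ring
      have h6 : (0 : ℝ) ≤ (1 / 2) ^ (r - 2 + 1) := by positivity
      rw [h5, abs_neg, abs_of_nonneg h6]
      linarith

section
variable {st : Ω → S → Ω} {L : ℕ} {a : Ω} (c : Chart st L a)

/-- points whose support meets the block -/
def Dm (B : S → Prop) (p : Ω) : Prop := ∃ u ∈ c.sup p, B u

open Classical in
/-- the damping factor -/
noncomputable def ph (B : S → Prop) (p : Ω) : ℝ := if Dm c B p then gf L (c.lev p) else 1

open Classical in
/-- the special values -/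
noncomputable def sp (st : Ω → S → Ω) (a : Ω) (B : S → Prop) (d : ℝ) (χ : S → ℝ) (p : Ω) : ℝ :=
  ∑ u, if B u ∧ p = st a u then d * χ u else 0

/-- the modified vector -/
noncomputable def vm (B : S → Prop) (d : ℝ) (χ : S → ℝ) (v : Ω → ℝ) (p : Ω) : ℝ :=
  ph c B p * v p + sp st a B d χ p

theorem ph_nonneg (B : S → Prop) (p : Ω) : 0 ≤ ph c B p := by
  unfold ph
  split_ifs with h
  · exact gf_nonneg _ _
  · exact zero_le_one

theorem ph_le_one (B : S → Prop) (p : Ω) : ph c B p ≤ 1 := by
  unfold ph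
  split_ifs with h
  · exact gf_le_one _ _
  · exact le_rfl

include c

theorem sup_st_self (u : S) : c.lev (st a u) = 1 ∧ c.sup (st a u) = {u} := by
  have h := c.near a u (by rw [c.sup_self]; simp) (by rw [c.lev_self]; omega)
  rw [c.lev_self, c.sup_self] at h
  exact ⟨h.1, h.2⟩

theorem st_inj {u v : S} (h : st a u = st a v) : u = v := by
  have h1 := (sup_st_self c u).2
  have h2 := (sup_st_self c v).2
  rw [h, h2] at h1
  exact (Finset.singleton_inj.mp h1).symm

theorem sp_st {B : S → Prop} {d : ℝ} {χ : S → ℝ} {u : S} (hu : B u) :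
    sp st a B d χ (st a u) = d * χ u := by
  unfold sp
  rw [Finset.sum_eq_single u]
  · rw [if_pos ⟨hu, rfl⟩]
  · intro v _ hv
    rw [if_neg]
    rintro ⟨_, h⟩
    exact hv (st_inj c h).symm
  · intro h
    exact absurd (Finset.mem_univ _) h

omit c in
theorem sp_eq_zero {B : S → Prop} {d : ℝ} {χ : S → ℝ} {p : Ω}
    (h : ∀ u, B u → p ≠ st a u) : sp st a B d χ p = 0 := by
  unfold sp
  apply Finset.sum_eq_zero
  intro u _
  rw [if_neg]
  rintro ⟨h1, h2⟩
  exact h u h1 h2

theorem not_Dm_self {B : S → Prop} : ¬ Dm c B a := by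
  rintro ⟨u, hu, _⟩
  rw [c.sup_self] at hu
  simp at hu

theorem Dm_st {B : S → Prop} {u : S} (hu : B u) : Dm c B (st a u) :=
  ⟨u, by rw [(sup_st_self c u).2]; simp, hu⟩

theorem abs_vm_le {B : S → Prop} {d : ℝ} (hL : 2 ≤ L)
    {χ : S → ℝ} (hc0 : 0 ≤ d) (hc1 : d ≤ 1) (hχ : ∀ u, |χ u| ≤ 1)
    {v : Ω → ℝ} (hv : ∀ p, |v p| ≤ 1) (p : Ω) : |vm c B d χ v p| ≤ 1 := by
  unfold vm
  by_cases h : ∃ u, B u ∧ p = st a u
  · obtain ⟨u, hu, rfl⟩ := h
    have h1 : ph c B (st a u) = 0 := by
      unfold ph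
      rw [if_pos (Dm_st c hu), (sup_st_self c u).1, gf_two hL (by norm_num)]
    rw [h1, zero_mul, zero_add, sp_st c hu, abs_mul, abs_of_nonneg hc0]
    exact mul_le_one₀ hc1 (abs_nonneg _) (hχ u)
  · push Not at h
    rw [sp_eq_zero h, add_zero, abs_mul, abs_of_nonneg (ph_nonneg c B p)]
    exact mul_le_one₀ (ph_le_one _ _ _) (abs_nonneg _) (hv p)

theorem vm_of_Dm {B : S → Prop} {d : ℝ}
    {χ : S → ℝ} {v : Ω → ℝ} {p : Ω} (hp : Dm c B p) (h2 : 2 ≤ c.lev p) :
    vm c B d χ v p = gf L (c.lev p) * v p := by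
  unfold vm ph
  rw [if_pos hp, sp_eq_zero, add_zero]
  rintro u _ rfl
  rw [(sup_st_self c u).1] at h2
  omega

theorem vm_of_not_Dm {B : S → Prop} {d : ℝ}
    {χ : S → ℝ} {v : Ω → ℝ} {p : Ω} (hp : ¬ Dm c B p) :
    vm c B d χ v p = v p := by
  unfold vm ph
  rw [if_neg hp, sp_eq_zero, one_mul, add_zero]
  rintro u hu rfl
  exact hp (Dm_st c hu)

theorem vm_st (hL : 2 ≤ L) {B : S → Prop} {d : ℝ}
    {χ : S → ℝ} {v : Ω → ℝ} {u : S} (hu : B u) :
    vm c B d χ v (st a u) = d * χ u := by
  unfold vm ph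
  rw [if_pos (Dm_st c hu), (sup_st_self c u).1, gf_two hL (by norm_num), zero_mul, zero_add,
    sp_st c hu]

theorem vm_eq_of_large (hL : 2 ≤ L) {B : S → Prop} {d : ℝ}
    {χ : S → ℝ} {v : Ω → ℝ} {p : Ω} (hp : L + 1 ≤ c.lev p) :
    vm c B d χ v p = v p := by
  by_cases h : Dm c B p
  · rw [vm_of_Dm c h (by omega), gf_large hp, one_mul]
  · exact vm_of_not_Dm c h

/-- the modification is local -/
theorem abs_vm_sub_le {B : S → Prop} {d : ℝ} (hL : 2 ≤ L)
    {χ : S → ℝ} (hc0 : 0 ≤ d) (hc1 : d ≤ 1) (hχ : ∀ u, |χ u| ≤ 1)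
    {v : Ω → ℝ} (hv : ∀ p, |v p| ≤ 1) (p : Ω) [Decidable (Dm c B p)] :
    |vm c B d χ v p - v p| ≤ if Dm c B p ∧ c.lev p ≤ L then 2 else 0 := by
  split_ifs with h
  · refine (abs_sub _ _).trans ?_
    have := abs_vm_le c hL hc0 hc1 hχ hv (B := B) p
    linarith [hv p]
  · have h1 : vm c B d χ v p = v p := by
      by_cases h2 : Dm c B p
      · apply vm_eq_of_large c hL
        by_contra hcon
        exact h ⟨h2, by omega⟩
      · exact vm_of_not_Dm c h2
    rw [h1, sub_self, abs_zero]

theorem vm_flex {B : S → Prop} (hL : 2 ≤ L)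
    {χ : S → ℝ} {v : Ω → ℝ} {w0 : ℝ} {μ0 : S → ℝ} (hw0 : 0 ≤ w0)
    (hμ : ∀ u, ¬ B u → μ0 u = 0) (hμχ : ∑ u, μ0 u * χ u = 1) :
    G st w0 μ0 (vm c B ((1 - w0 * v a) / (1 + w0)) χ v) a = 1 := by
  unfold G
  rw [vm_of_not_Dm c (not_Dm_self c)]
  have h1 : ∑ u, μ0 u * vm c B ((1 - w0 * v a) / (1 + w0)) χ v (st a u) =
      ((1 - w0 * v a) / (1 + w0)) * ∑ u, μ0 u * χ u := by
    rw [Finset.mul_sum]
    apply Finset.sum_congr rfl
    intro u _
    by_cases hu : B u
    · rw [vm_st c hL hu]
      ring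
    · rw [hμ u hu]
      ring
  rw [h1, hμχ]
  have : (1 : ℝ) + w0 ≠ 0 := by linarith
  field_simp
  ring

theorem vm_G_le (hL : 2 ≤ L) {B : S → Prop}
    {χ : S → ℝ} (hχ : ∀ u, |χ u| ≤ 1)
    {v : Ω → ℝ} (hv : ∀ p, |v p| ≤ 1) {w0 : ℝ} (hw0 : 0 ≤ w0) (hw01 : w0 ≤ 1)
    {w δ : ℝ} {μ : S → ℝ} (hw : 0 ≤ w) (hw1 : w ≤ 1) (hδ : 0 ≤ δ) (hμδ : ∀ u, |μ u| ≤ δ)
    (hcomp : Compat δ w w0 B μ χ) (p : Ω) (hG : |G st w μ v p| ≤ 1) :
    |G st w μ (vm c B ((1 - w0 * v a) / (1 + w0)) χ v) p| ≤
      1 + (1 / 2) ^ (L - 2) + 4 * (L + 1) * δ := by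
  classical
  obtain ⟨hc0, hc1⟩ := c_bounds hw0 hw01 (hv a)
  have hLR : (2 : ℝ) ≤ L := by exact_mod_cast hL
  have h2L : (0 : ℝ) ≤ (1 / 2) ^ (L - 2) := by positivity
  have hLδ : 0 ≤ (L : ℝ) * δ := by positivity
  set v' := vm c B ((1 - w0 * v a) / (1 + w0)) χ v with hv'
  have hv'1 : ∀ q, |v' q| ≤ 1 := fun q => abs_vm_le c hL hc0 hc1 hχ hv q
  have hw1' : 0 ≤ 1 + w := by linarith
  -- the case of a small overlap
  have halpha : ∀ (T : Finset S) (hT : ∀ u, B u → u ∈ T) (hTδ : ∑ u ∈ T, |μ u| ≤ δ)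
      (hp0 : v' p = v p) (hB2 : ∀ u, ¬ B u → v' (st p u) = v (st p u)),
      |G st w μ v' p| ≤ 1 + (1 / 2) ^ (L - 2) + 4 * (L + 1) * δ := by
    intro T hT hTδ hp0 hB2
    have h1 : G st w μ v' p = G st w μ v p +
        (1 + w) * ∑ u, μ u * (v' (st p u) - v (st p u)) := by
      unfold G
      simp only [mul_sub, Finset.sum_sub_distrib]
      rw [hp0]
      ring
    have h2 : |∑ u, μ u * (v' (st p u) - v (st p u))| ≤ δ * 2 := by
      apply sum_abs_le zero_le_two _ _ hTδ
      · intro u hu
        have hBu : ¬ B u := fun h => hu (hT u h)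
        rw [hB2 u hBu, sub_self]
      · intro u
        refine (abs_sub _ _).trans ?_
        linarith [hv'1 (st p u), hv (st p u)]
    rw [h1]
    refine (abs_add_le _ _).trans ?_
    rw [abs_mul, abs_of_nonneg hw1']
    have h3 : (1 + w) * |∑ u, μ u * (v' (st p u) - v (st p u))| ≤ 2 * (δ * 2) :=
      mul_le_mul (by linarith) h2 (abs_nonneg _) (by norm_num)
    linarith
  by_cases hpa : p = a
  · -- the star of the centre
    have hp0 : v' p = v p := by
      rw [hpa]
      exact vm_of_not_Dm c (not_Dm_self c)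
    rcases hcomp with ⟨T, hT, hTδ⟩ | ⟨hww, hμ0, hχ01⟩
    · apply halpha T hT hTδ hp0
      intro u hu
      rw [hpa, hv', vm_of_not_Dm c]
      rintro ⟨u', hu', hBu'⟩
      rw [(sup_st_self c u).2, Finset.mem_singleton] at hu'
      rw [hu'] at hBu'
      exact hu hBu'
    · have h1 : ∑ u, μ u * v' (st p u) =
          ((1 - w0 * v a) / (1 + w0)) * ∑ u, μ u * χ u := by
        rw [Finset.mul_sum]
        apply Finset.sum_congr rfl
        intro u _
        by_cases hu : B u
        · rw [hpa, hv', vm_st c hL hu]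
          ring
        · rw [hμ0 u hu]
          ring
      unfold G
      rw [hp0, h1, hpa]
      rcases hχ01 with h | h
      · rw [h, mul_zero, mul_zero, add_zero, abs_mul, abs_of_nonneg hw]
        have : w * |v a| ≤ 1 := mul_le_one₀ hw1 (abs_nonneg _) (hv a)
        linarith
      · rw [h, mul_one]
        have := beta_bound hw hww hw01 (hv a)
        linarith
  · have hr1 : 1 ≤ c.lev p := c.lev_pos p hpa
    set c1 := gf L (c.lev p + 1) with hc1d
    have hc10 : 0 ≤ c1 := gf_nonneg _ _
    have hc11 : c1 ≤ 1 := gf_le_one _ _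
    by_cases hD : Dm c B p
    · -- near
      have hD' := hD
      obtain ⟨u', hu', hBu'⟩ := hD'
      have hrL : c.lev p ≤ L + 1 := c.sup_lev p u' hu'
      set E := c.sup p with hE
      have hEc : (E.card : ℝ) ≤ L + 1 := by
        have : E.card ≤ L + 1 := (c.card_sup p).trans hrL
        exact_mod_cast this
      have hEδ : ∑ u ∈ E, |μ u| ≤ (L + 1) * δ := by
        calc ∑ u ∈ E, |μ u| ≤ ∑ u ∈ E, δ := Finset.sum_le_sum fun u _ => hμδ u
          _ = E.card * δ := by rw [Finset.sum_const, nsmul_eq_mul]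
          _ ≤ (L + 1) * δ := mul_le_mul_of_nonneg_right hEc hδ
      have h1 : G st w μ v' p = c1 * G st w μ v p + w * (v' p - c1 * v p) +
          (1 + w) * ∑ u, μ u * (v' (st p u) - c1 * v (st p u)) := by
        unfold G
        have : ∑ u, μ u * (v' (st p u) - c1 * v (st p u)) =
            ∑ u, μ u * v' (st p u) - c1 * ∑ u, μ u * v (st p u) := by
          rw [Finset.mul_sum, ← Finset.sum_sub_distrib]
          apply Finset.sum_congr rfl
          intro u _
          ring
        rw [this]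
        ring
      have h2 : |∑ u, μ u * (v' (st p u) - c1 * v (st p u))| ≤ (L + 1) * δ * 2 := by
        apply sum_abs_le zero_le_two _ _ hEδ
        · intro u hu
          by_cases hr : c.lev p ≤ L
          · have hn := c.near p u hu hr
            have hDu : Dm c B (st p u) := ⟨u', by rw [hn.2]; exact Finset.mem_insert_of_mem hu', hBu'⟩
            rw [hv', vm_of_Dm c hDu (by omega), hn.1, sub_self]
          · have hf := c.far p u (by omega) hu
            have hc1' : c1 = 1 := gf_large (by omega)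
            rw [hv', vm_eq_of_large c hL hf, hc1', one_mul, sub_self]
        · intro u
          refine (abs_sub _ _).trans ?_
          rw [abs_mul, abs_of_nonneg hc10]
          have := mul_le_one₀ hc11 (abs_nonneg _) (hv (st p u))
          linarith [hv'1 (st p u)]
      have h3 : c1 + |v' p - c1 * v p| ≤ 1 + (1 / 2) ^ (L - 2) := by
        by_cases h2r : 2 ≤ c.lev p
        · rw [hv', vm_of_Dm c hD h2r, ← sub_mul, abs_mul]
          have h6 := gf_step hL h2r
          have h9 : |gf L (c.lev p) - c1| * |v p| ≤ |gf L (c.lev p) - c1| :=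
            mul_le_of_le_one_right (abs_nonneg _) (hv p)
          linarith
        · have hc12 : c1 = 0 := gf_two hL (by omega)
          rw [hc12, zero_mul, sub_zero, zero_add]
          linarith [hv'1 p]
      rw [h1]
      have h4 : |c1 * G st w μ v p| ≤ c1 := by
        rw [abs_mul, abs_of_nonneg hc10]
        exact mul_le_of_le_one_right hc10 hG
      have h5 : |w * (v' p - c1 * v p)| ≤ |v' p - c1 * v p| := by
        rw [abs_mul, abs_of_nonneg hw]
        exact mul_le_of_le_one_left (abs_nonneg _) hw1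
      have h6 : |(1 + w) * ∑ u, μ u * (v' (st p u) - c1 * v (st p u))| ≤
          2 * ((L + 1) * δ * 2) := by
        rw [abs_mul, abs_of_nonneg hw1']
        exact mul_le_mul (by linarith) h2 (abs_nonneg _) (by norm_num)
      have h7 := abs_add_le (c1 * G st w μ v p + w * (v' p - c1 * v p))
        ((1 + w) * ∑ u, μ u * (v' (st p u) - c1 * v (st p u)))
      have h8 := abs_add_le (c1 * G st w μ v p) (w * (v' p - c1 * v p))
      linarith
    · -- outside of the damped region
      have hp0 : v' p = v p := vm_of_not_Dm c hD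
      have hBs : ∀ u, B u → u ∉ c.sup p := fun u hu h => hD ⟨u, h, hu⟩
      have hsub : ∀ u, u ∈ c.sup p → v' (st p u) = v (st p u) := by
        intro u hu
        apply vm_of_not_Dm c
        rintro ⟨u', hu', hB'⟩
        exact hD ⟨u', c.sub p u hu hu', hB'⟩
      by_cases hr : c.lev p ≤ L
      · have hB1 : ∀ u, B u → v' (st p u) = c1 * v (st p u) := by
          intro u hu
          have hn := c.near p u (hBs u hu) hr
          have hDu : Dm c B (st p u) := ⟨u, by rw [hn.2]; exact Finset.mem_insert_self _ _, hu⟩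
          rw [hv', vm_of_Dm c hDu (by omega), hn.1]
        have hB2 : ∀ u, ¬ B u → v' (st p u) = v (st p u) := by
          intro u hu
          by_cases hus : u ∈ c.sup p
          · exact hsub u hus
          · apply vm_of_not_Dm c
            rintro ⟨u', hu', hB'⟩
            rw [(c.near p u hus hr).2, Finset.mem_insert] at hu'
            rcases hu' with h | h
            · rw [h] at hB'
              exact hu hB'
            · exact hD ⟨u', h, hB'⟩
        rcases hcomp with ⟨T, hT, hTδ⟩ | ⟨hww, hμ0, hχ01⟩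
        · exact halpha T hT hTδ hp0 hB2
        · have h1 : G st w μ v' p = c1 * G st w μ v p + (1 - c1) * (w * v p) := by
            unfold G
            have : ∑ u, μ u * v' (st p u) = c1 * ∑ u, μ u * v (st p u) := by
              rw [Finset.mul_sum]
              apply Finset.sum_congr rfl
              intro u _
              by_cases hu : B u
              · rw [hB1 u hu]
                ring
              · rw [hμ0 u hu]
                ring
            rw [this, hp0]
            ring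
          rw [h1]
          have h4 : |c1 * G st w μ v p| ≤ c1 := by
            rw [abs_mul, abs_of_nonneg hc10]
            exact mul_le_of_le_one_right hc10 hG
          have h5 : |(1 - c1) * (w * v p)| ≤ 1 - c1 := by
            rw [abs_mul, abs_of_nonneg (by linarith : (0 : ℝ) ≤ 1 - c1)]
            apply mul_le_of_le_one_right (by linarith)
            rw [abs_mul, abs_of_nonneg hw]
            exact mul_le_one₀ hw1 (abs_nonneg _) (hv p)
          have h6 := abs_add_le (c1 * G st w μ v p) ((1 - c1) * (w * v p))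
          linarith
      · have hall : ∀ u, v' (st p u) = v (st p u) := by
          intro u
          by_cases hus : u ∈ c.sup p
          · exact hsub u hus
          · exact vm_eq_of_large c hL (c.far p u (by omega) hus)
        have h3 : G st w μ v' p = G st w μ v p := by
          unfold G
          simp only [hall, hp0]
        rw [h3]
        linarith

end

end Pool.Agent.Y81.Proj.Ch
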