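import Mathlib
import Pool.Agent.Y81.ProjChart

/-!
Star systems on the moment curve over a prime field: charts of radius `L`.
-/

set_option linter.unusedSectionVars false

namespace Pool.Agent.Y81.Proj.Mo

variable {S : Type} [Fintype S] [DecidableEq S] {p D : ℕ}

/-- point of the moment curve -/
def ev (ι : S → ZMod p) (D : ℕ) (u : S) : Fin D → ZMod p := fun i => ι u ^ (i : ℕ)

/-- the stars -/
def stp (ι : S → ZMod p) (D : ℕ) (a : Fin D → ZMod p) (u : S) : Fin D → ZMod p := a + ev ι D u

/-- integer combinations -/
def comb (ι : S → ZMod p) (D : ℕ) (k : S → ℤ) : Fin D → ZMod p :=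
  ∑ u, (k u : ZMod p) • ev ι D u

/-- length of an integer vector -/
def nrm (k : S → ℤ) : ℕ := ∑ u, (k u).natAbs

theorem comb_add (ι : S → ZMod p) (D : ℕ) (k l : S → ℤ) :
    comb ι D (k + l) = comb ι D k + comb ι D l := by
  unfold comb
  rw [← Finset.sum_add_distrib]
  apply Finset.sum_congr rfl
  intro u _
  rw [Pi.add_apply, Int.cast_add, add_smul]

theorem comb_neg (ι : S → ZMod p) (D : ℕ) (k : S → ℤ) : comb ι D (-k) = -comb ι D k := by
  unfold comb
  rw [← Finset.sum_neg_distrib]
  apply Finset.sum_congr rfl
  intro u _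
  rw [Pi.neg_apply, Int.cast_neg, neg_smul]

theorem comb_sub (ι : S → ZMod p) (D : ℕ) (k l : S → ℤ) :
    comb ι D (k - l) = comb ι D k - comb ι D l := by
  rw [sub_eq_add_neg, comb_add, comb_neg, ← sub_eq_add_neg]

theorem comb_zero (ι : S → ZMod p) (D : ℕ) : comb ι D 0 = 0 := by
  unfold comb
  simp

theorem comb_single (ι : S → ZMod p) (D : ℕ) (u : S) :
    comb ι D (Pi.single u 1) = ev ι D u := by
  unfold comb
  rw [Finset.sum_eq_single u]
  · simp
  · intro v _ hv
    rw [Pi.single_eq_of_ne hv]
    simp
  · intro h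
    exact absurd (Finset.mem_univ _) h

theorem nrm_zero : nrm (0 : S → ℤ) = 0 := by
  unfold nrm
  simp

theorem nrm_eq_zero {k : S → ℤ} (h : nrm k = 0) : k = 0 := by
  funext u
  unfold nrm at h
  rw [Finset.sum_eq_zero_iff] at h
  have := h u (Finset.mem_univ _)
  simpa using this

theorem nrm_sub_le (k l : S → ℤ) : nrm (k - l) ≤ nrm k + nrm l := by
  unfold nrm
  rw [← Finset.sum_add_distrib]
  apply Finset.sum_le_sum
  intro u _
  rw [Pi.sub_apply]
  omega

theorem nrm_add_single (k : S → ℤ) (u : S) (c : ℤ) :
    nrm (k + Pi.single u c) + (k u).natAbs = nrm k + (k u + c).natAbs := by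
  unfold nrm
  rw [← Finset.add_sum_erase _ _ (Finset.mem_univ u),
    ← Finset.add_sum_erase (f := fun v => (k v).natAbs) _ (Finset.mem_univ u)]
  have h1 : ∑ v ∈ Finset.univ.erase u, ((k + Pi.single u c : S → ℤ) v).natAbs =
      ∑ v ∈ Finset.univ.erase u, (k v).natAbs := by
    apply Finset.sum_congr rfl
    intro v hv
    rw [Pi.add_apply, Pi.single_eq_of_ne (Finset.ne_of_mem_erase hv), add_zero]
  rw [h1]
  simp only [Pi.add_apply, Pi.single_eq_same]
  omega

theorem card_supp_le (k : S → ℤ) : (Finset.univ.filter fun u => k u ≠ 0).card ≤ nrm k := by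
  unfold nrm
  rw [Finset.card_filter]
  apply Finset.sum_le_sum
  intro u _
  split_ifs with h
  · omega
  · omega

theorem natAbs_le_nrm (k : S → ℤ) (u : S) : (k u).natAbs ≤ nrm k :=
  Finset.single_le_sum (f := fun v => (k v).natAbs) (fun _ _ => Nat.zero_le _) (Finset.mem_univ u)

/-- short integer relations on the moment curve are trivial -/
theorem indep [Fact p.Prime] {ι : S → ZMod p} (hι : Function.Injective ι) (hD : D < p)
    {k : S → ℤ} (hk : nrm k ≤ D) (h : comb ι D k = 0) : k = 0 := by
  by_contra hne
  obtain ⟨u0, hu0⟩ := Function.ne_iff.mp hne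
  have hu0' : k u0 ≠ 0 := hu0
  set T := Finset.univ.filter fun u => k u ≠ 0 with hT
  have hu0T : u0 ∈ T := by rw [hT]; simpa using hu0'
  have hTc : T.card ≤ D := (card_supp_le k).trans hk
  set Q : Polynomial (ZMod p) := ∏ v ∈ T.erase u0, (Polynomial.X - Polynomial.C (ι v)) with hQ
  have hdeg : Q.natDegree < D := by
    rw [hQ, Polynomial.natDegree_prod_of_monic _ _ (fun v _ => Polynomial.monic_X_sub_C _)]
    simp only [Polynomial.natDegree_X_sub_C, Finset.sum_const, smul_eq_mul, mul_one]
    rw [Finset.card_erase_of_mem hu0T]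
    have : 0 < T.card := Finset.card_pos.mpr ⟨u0, hu0T⟩
    omega
  have hsum : ∑ u, (k u : ZMod p) * Q.eval (ι u) = 0 := by
    have h1 : ∀ u, Q.eval (ι u) = ∑ i ∈ Finset.range D, Q.coeff i * ι u ^ i :=
      fun u => Polynomial.eval_eq_sum_range' hdeg (ι u)
    simp only [h1, Finset.mul_sum]
    rw [Finset.sum_comm]
    apply Finset.sum_eq_zero
    intro i hi
    have h2 : ∑ u, (k u : ZMod p) * (Q.coeff i * ι u ^ i) =
        Q.coeff i * ∑ u, (k u : ZMod p) * ι u ^ i := by
      rw [Finset.mul_sum]
      apply Finset.sum_congr rfl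
      intro u _
      ring
    rw [h2]
    have h3 := congrFun h ⟨i, Finset.mem_range.mp hi⟩
    unfold comb ev at h3
    rw [Finset.sum_apply] at h3
    simp only [Pi.smul_apply, smul_eq_mul, Pi.zero_apply] at h3
    rw [h3, mul_zero]
  have hone : ∑ u, (k u : ZMod p) * Q.eval (ι u) = (k u0 : ZMod p) * Q.eval (ι u0) := by
    apply Finset.sum_eq_single u0
    · intro v _ hv
      by_cases hvT : v ∈ T
      · have : Q.eval (ι v) = 0 := by
          rw [hQ, Polynomial.eval_prod]
          apply Finset.prod_eq_zero (Finset.mem_erase.mpr ⟨hv, hvT⟩)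
          simp
        rw [this, mul_zero]
      · have : k v = 0 := by
          by_contra hcon
          exact hvT (by rw [hT]; simpa using hcon)
        rw [this]
        simp
    · intro h
      exact absurd (Finset.mem_univ _) h
  rw [hone] at hsum
  have hQ0 : Q.eval (ι u0) ≠ 0 := by
    rw [hQ, Polynomial.eval_prod, Finset.prod_ne_zero_iff]
    intro v hv
    simp only [Polynomial.eval_sub, Polynomial.eval_X, Polynomial.eval_C]
    intro hcon
    have := hι (sub_eq_zero.mp hcon)
    exact (Finset.ne_of_mem_erase hv) this.symm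
  rcases mul_eq_zero.mp hsum with h1 | h1
  · rw [ZMod.intCast_zmod_eq_zero_iff_dvd] at h1
    have h2 := natAbs_le_nrm k u0
    have h3 : (k u0).natAbs < p := by omega
    have h4 := Int.natAbs_dvd_natAbs.mpr h1
    simp only [Int.natAbs_natCast] at h4
    have h5 := Nat.le_of_dvd (by omega) h4
    omega
  · exact hQ0 h1

section
variable [Fact p.Prime] {ι : S → ZMod p} {L : ℕ} (a : Fin D → ZMod p)

theorem uniq (hι : Function.Injective ι) (hD : D < p) {k l : S → ℤ} (hkl : nrm k + nrm l ≤ D)
    (h : a + comb ι D k = a + comb ι D l) : k = l := by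
  have h1 : comb ι D (k - l) = 0 := by
    rw [comb_sub, add_left_cancel h, sub_self]
  exact sub_eq_zero.mp (indep hι hD ((nrm_sub_le k l).trans hkl) h1)

/-- near points -/
def Near (ι : S → ZMod p) (L : ℕ) (a q : Fin D → ZMod p) : Prop :=
  ∃ k : S → ℤ, nrm k ≤ L + 1 ∧ q = a + comb ι D k

open Classical in
/-- the level -/
noncomputable def lv (ι : S → ZMod p) (L : ℕ) (a q : Fin D → ZMod p) : ℕ :=
  if h : Near ι L a q then nrm h.choose else L + 2

open Classical in
/-- the support -/
noncomputable def su (ι : S → ZMod p) (L : ℕ) (a q : Fin D → ZMod p) : Finset S :=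
  if h : Near ι L a q then Finset.univ.filter (fun u => h.choose u ≠ 0) else ∅

variable {a}

theorem near_spec (hι : Function.Injective ι) (hD : D < p) (hLD : 2 * L + 3 ≤ D)
    {q : Fin D → ZMod p} {k : S → ℤ} (hk : nrm k ≤ L + 1) (hq : q = a + comb ι D k) :
    lv ι L a q = nrm k ∧ su ι L a q = Finset.univ.filter (fun u => k u ≠ 0) := by
  have h : Near ι L a q := ⟨k, hk, hq⟩
  have hc := h.choose_spec
  have hck : h.choose = k := by
    apply uniq a hι hD (by omega)
    rw [← hc.2, ← hq]
  have h1 : lv ι L a q = nrm h.choose := by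
    unfold lv
    exact _root_.dif_pos h
  have h2 : su ι L a q = Finset.univ.filter (fun u => h.choose u ≠ 0) := by
    unfold su
    exact _root_.dif_pos h
  rw [h1, h2, hck]
  exact ⟨rfl, rfl⟩

theorem far_spec {q : Fin D → ZMod p} (h : ¬ Near ι L a q) :
    lv ι L a q = L + 2 ∧ su ι L a q = ∅ := by
  have h1 : lv ι L a q = L + 2 := by
    unfold lv
    exact _root_.dif_neg h
  have h2 : su ι L a q = ∅ := by
    unfold su
    exact _root_.dif_neg h
  exact ⟨h1, h2⟩

variable (a)

/-- the chart of radius `L` -/
noncomputable def chart (hι : Function.Injective ι) (hD : D < p) (hLD : 2 * L + 3 ≤ D) :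
    Ch.Chart (stp ι D) L a where
  lev := lv ι L a
  sup := su ι L a
  lev_self := by
    have := near_spec (a := a) hι hD hLD (q := a) (k := 0) (by rw [nrm_zero]; omega)
      (by rw [comb_zero, add_zero])
    rw [this.1, nrm_zero]
  sup_self := by
    have := near_spec (a := a) hι hD hLD (q := a) (k := 0) (by rw [nrm_zero]; omega)
      (by rw [comb_zero, add_zero])
    rw [this.2]
    simp
  lev_pos := by
    intro q hq
    by_cases h : Near ι L a q
    · obtain ⟨k, hk, hqk⟩ := h
      rw [(near_spec hι hD hLD hk hqk).1]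
      by_contra hcon
      have : k = 0 := nrm_eq_zero (by omega)
      rw [this, comb_zero, add_zero] at hqk
      exact hq hqk
    · rw [(far_spec h).1]
      omega
  card_sup := by
    intro q
    by_cases h : Near ι L a q
    · obtain ⟨k, hk, hqk⟩ := h
      rw [(near_spec hι hD hLD hk hqk).1, (near_spec hι hD hLD hk hqk).2]
      exact card_supp_le k
    · rw [(far_spec h).2]
      simp
  near := by
    intro q u hu hq
    by_cases h : Near ι L a q
    · obtain ⟨k, hk, hqk⟩ := h
      have hs := near_spec hι hD hLD hk hqk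
      rw [hs.2] at hu
      rw [hs.1] at hq
      have hku : k u = 0 := by
        by_contra hcon
        exact hu (by simpa using hcon)
      have hn : nrm (k + Pi.single u 1) = nrm k + 1 := by
        have := nrm_add_single k u 1
        rw [hku] at this
        simpa using this
      have hq' : stp ι D q u = a + comb ι D (k + Pi.single u 1) := by
        unfold stp
        rw [hqk, comb_add, comb_single, add_assoc]
      have hs' := near_spec (a := a) hι hD hLD (by omega) hq'
      rw [hs'.1, hs'.2, hs.1, hs.2, hn]
      refine ⟨rfl, ?_⟩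
      ext v
      simp only [Finset.mem_filter, Finset.mem_univ, true_and, Finset.mem_insert, Pi.add_apply]
      by_cases hv : v = u
      · rw [hv, hku]
        simp
      · rw [Pi.single_eq_of_ne hv, add_zero]
        simp [hv]
    · rw [(far_spec h).1] at hq
      omega
  far := by
    intro q u hq hu
    by_contra hcon
    have h : Near ι L a (stp ι D q u) := by
      by_contra h2
      rw [(far_spec h2).1] at hcon
      omega
    obtain ⟨k, hk, hqk⟩ := h
    have hs := near_spec hι hD hLD hk hqk
    rw [hs.1] at hcon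
    have hq' : q = a + comb ι D (k + Pi.single u (-1)) := by
      have h1 : comb ι D (Pi.single u (-1)) = -ev ι D u := by
        rw [← comb_single, ← comb_neg, Pi.single_neg]
      rw [comb_add, h1, ← add_assoc, ← hqk]
      unfold stp
      abel
    have hn := nrm_add_single k u (-1)
    have hle : nrm (k + Pi.single u (-1)) ≤ L + 1 := by omega
    have hs' := near_spec (a := a) hι hD hLD hle hq'
    rw [hs'.1] at hq
    rw [hs'.2] at hu
    have hku : (k + Pi.single u (-1) : S → ℤ) u = 0 := by
      by_contra h3
      exact hu (by simpa using h3)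
    rw [Pi.add_apply, Pi.single_eq_same] at hku
    omega
  sub := by
    intro q u hu
    by_cases h : Near ι L a q
    · obtain ⟨k, hk, hqk⟩ := h
      have hs := near_spec hι hD hLD hk hqk
      rw [hs.2] at hu ⊢
      by_cases h' : Near ι L a (stp ι D q u)
      · obtain ⟨l, hl, hql⟩ := h'
        have hs' := near_spec hι hD hLD hl hql
        have hq' : stp ι D q u = a + comb ι D (k + Pi.single u 1) := by
          unfold stp
          rw [hqk, comb_add, comb_single, add_assoc]
        have hn := nrm_add_single k u 1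
        have hkl : l = k + Pi.single u 1 := by
          apply uniq a hι hD _ (hql.symm.trans hq')
          omega
        rw [hs'.2, hkl]
        intro v hv
        simp only [Finset.mem_filter, Finset.mem_univ, true_and, Pi.add_apply] at hv hu ⊢
        by_cases hvu : v = u
        · rw [hvu]; exact hu
        · rw [Pi.single_eq_of_ne hvu, add_zero] at hv
          exact hv
      · rw [(far_spec h').2]
        exact Finset.empty_subset _
    · rw [(far_spec h).2] at hu
      simp at hu
  sup_lev := by
    intro q u hu
    by_cases h : Near ι L a q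
    · obtain ⟨k, hk, hqk⟩ := h
      rw [(near_spec hι hD hLD hk hqk).1]
      exact hk
    · rw [(far_spec h).2] at hu
      simp at hu

end

end Pool.Agent.Y81.Proj.Mo
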