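import Mathlib

/-!
A finite certificate checker for lower bounds on the norms of all projections onto
hyperplanes of a finite-dimensional polyhedral normed space.

Integer vectors are lists of integers; real vectors are sequences indexed by the naturals.
-/

namespace Pool.Agent.Y81.Proj

/-- pairing of an integer vector with a real sequence -/
def dotR : List ℤ → (ℕ → ℝ) → ℝ
  | [], _ => 0
  | a :: as, x => (a : ℝ) * x 0 + dotR as (fun k => x (k + 1))

def vadd : List ℤ → List ℤ → List ℤ
  | [], b => b
  | a :: as, [] => a :: as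
  | a :: as, b :: bs => (a + b) :: vadd as bs

def vsmul (c : ℤ) : List ℤ → List ℤ
  | [] => []
  | a :: as => (c * a) :: vsmul c as

def dotZ : List ℤ → List ℤ → ℤ
  | [], _ => 0
  | _ :: _, [] => 0
  | a :: as, b :: bs => a * b + dotZ as bs

def isZero : List ℤ → Bool
  | [] => true
  | a :: as => decide (a = 0) && isZero as

def single : ℕ → ℤ → List ℤ
  | 0, c => [c]
  | l + 1, c => 0 :: single l c

theorem dotR_vadd (u v : List ℤ) : ∀ x : ℕ → ℝ, dotR (vadd u v) x = dotR u x + dotR v x := by
  induction u generalizing v with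
  | nil => intro x; simp [vadd, dotR]
  | cons a as ih =>
    intro x
    cases v with
    | nil => simp [vadd, dotR]
    | cons b bs =>
      simp only [vadd, dotR, ih]
      push_cast
      ring

theorem dotR_vsmul (c : ℤ) (u : List ℤ) : ∀ x : ℕ → ℝ, dotR (vsmul c u) x = c * dotR u x := by
  induction u with
  | nil => intro x; simp [vsmul, dotR]
  | cons a as ih =>
    intro x
    simp only [vsmul, dotR, ih]
    push_cast
    ring

theorem dotR_isZero (u : List ℤ) (h : isZero u = true) : ∀ x : ℕ → ℝ, dotR u x = 0 := by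
  induction u with
  | nil => intro x; simp [dotR]
  | cons a as ih =>
    intro x
    simp only [isZero, Bool.and_eq_true, decide_eq_true_eq] at h
    simp only [dotR, ih h.2]
    rw [h.1]
    simp

theorem dotR_single (l : ℕ) (c : ℤ) : ∀ x : ℕ → ℝ, dotR (single l c) x = c * x l := by
  induction l with
  | zero => intro x; simp [single, dotR]
  | succ l ih =>
    intro x
    simp only [single, dotR, ih]
    push_cast
    ring

theorem dotR_smul_seq (u : List ℤ) (r : ℝ) : ∀ x : ℕ → ℝ,
    dotR u (fun k => r * x k) = r * dotR u x := by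
  induction u with
  | nil => intro x; simp [dotR]
  | cons a as ih =>
    intro x
    simp only [dotR]
    rw [ih (fun k => x (k + 1))]
    ring

/-- the real sequence of an integer vector -/
def seqOf (w : List ℤ) : ℕ → ℝ := fun k => ((w.getD k 0 : ℤ) : ℝ)

theorem dotR_seqOf (g : List ℤ) : ∀ w : List ℤ, dotR g (seqOf w) = (dotZ g w : ℝ) := by
  induction g with
  | nil => intro w; simp [dotR, dotZ]
  | cons a as ih =>
    intro w
    cases w with
    | nil =>
      simp only [dotR, dotZ]
      have h0 : ∀ as : List ℤ, dotR as (fun _ => (0 : ℝ)) = 0 := by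
        intro as
        induction as with
        | nil => simp [dotR]
        | cons b bs ihb => simp [dotR, ihb]
      have h1 : seqOf ([] : List ℤ) = fun _ => (0 : ℝ) := by
        funext k; simp [seqOf]
      rw [h1]
      simp [h0]
    | cons b bs =>
      simp only [dotR, dotZ]
      have h1 : (fun k => seqOf (b :: bs) (k + 1)) = seqOf bs := by
        funext k; simp [seqOf]
      rw [h1, ih bs]
      have h2 : seqOf (b :: bs) 0 = (b : ℝ) := by simp [seqOf]
      rw [h2]
      push_cast
      ring

/-- integer linear combination of rows -/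
def lc : List ℤ → List (List ℤ) → List ℤ
  | [], _ => []
  | _ :: _, [] => []
  | c :: cs, v :: vs => vadd (vsmul c v) (lc cs vs)

/-- the sequence of row values -/
def hfun (G : List (List ℤ)) (x : ℕ → ℝ) : ℕ → ℝ := fun i => dotR (G.getD i []) x

theorem dotR_zero_seq (as : List ℤ) : dotR as (fun _ => (0 : ℝ)) = 0 := by
  induction as with
  | nil => simp [dotR]
  | cons b bs ihb => simp [dotR, ihb]

theorem dotR_hfun (c : List ℤ) : ∀ (G : List (List ℤ)) (x : ℕ → ℝ),
    dotR c (hfun G x) = dotR (lc c G) x := by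
  induction c with
  | nil => intro G x; simp [lc, dotR]
  | cons a as ih =>
    intro G x
    cases G with
    | nil =>
      have h1 : hfun [] x = fun _ => (0 : ℝ) := by
        funext k; simp [hfun, dotR]
      rw [h1, dotR_zero_seq]
      simp [lc, dotR]
    | cons g gs =>
      simp only [lc, dotR, dotR_vadd, dotR_vsmul]
      have h1 : (fun k => hfun (g :: gs) x (k + 1)) = hfun gs x := by
        funext k; simp [hfun]
      have h2 : hfun (g :: gs) x 0 = dotR g x := by simp [hfun]
      rw [h1, h2, ih]

/-- interval constraints on a real sequence -/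
def Sat (h : ℕ → ℝ) (iv : List (ℤ × ℤ)) : Prop :=
  ∀ i p, iv[i]? = some p → ((p.1 : ℤ) : ℝ) ≤ h i ∧ h i ≤ ((p.2 : ℤ) : ℝ)

theorem Sat.tail {h : ℕ → ℝ} {p : ℤ × ℤ} {iv : List (ℤ × ℤ)} (hs : Sat h (p :: iv)) :
    Sat (fun k => h (k + 1)) iv := by
  intro i q hq
  exact hs (i + 1) q (by simpa using hq)

theorem Sat.head {h : ℕ → ℝ} {p : ℤ × ℤ} {iv : List (ℤ × ℤ)} (hs : Sat h (p :: iv)) :
    ((p.1 : ℤ) : ℝ) ≤ h 0 ∧ h 0 ≤ ((p.2 : ℤ) : ℝ) := hs 0 p (by simp)

/-- lower bound of a linear combination under interval constraints -/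
def lowb : List ℤ → List (ℤ × ℤ) → Option ℤ
  | [], _ => some 0
  | _ :: _, [] => none
  | c :: cs, p :: iv =>
    match lowb cs iv with
    | none => none
    | some s => some ((if 0 ≤ c then c * p.1 else c * p.2) + s)

theorem lowb_le (c : List ℤ) : ∀ (iv : List (ℤ × ℤ)) (h : ℕ → ℝ) (s : ℤ), Sat h iv →
    lowb c iv = some s → (s : ℝ) ≤ dotR c h := by
  induction c with
  | nil =>
    intro iv h s _ hl
    simp only [lowb, Option.some.injEq] at hl
    simp [dotR, ← hl]
  | cons a as ih =>
    intro iv h s hs hl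
    cases iv with
    | nil => simp [lowb] at hl
    | cons p iv =>
      simp only [lowb] at hl
      cases hq : lowb as iv with
      | none => rw [hq] at hl; simp at hl
      | some s' =>
        rw [hq] at hl
        simp only [Option.some.injEq] at hl
        have h1 := ih iv _ s' hs.tail hq
        have h2 := hs.head
        simp only [dotR]
        rw [← hl]
        push_cast
        split_ifs with hc
        · have hc' : (0 : ℝ) ≤ (a : ℝ) := by exact_mod_cast hc
          push_cast
          nlinarith [mul_le_mul_of_nonneg_left h2.1 hc']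
        · have hc' : (a : ℝ) ≤ 0 := by
            have : a ≤ 0 := by omega
            exact_mod_cast this
          push_cast
          nlinarith [mul_le_mul_of_nonpos_left h2.2 hc']

/-- certificate data of a block -/
structure Data where
  n : ℕ
  Q : ℤ
  G : List (List ℤ)
  circ : List (List ℤ)
  W : ℤ
  p : ℤ
  q : ℤ
  K : ℤ

/-- all row values of an integer vector -/
def rowVals (w : List ℤ) : List (List ℤ) → List ℤ
  | [] => []
  | g :: gs => dotZ g w :: rowVals w gs

theorem rowVals_get (w : List ℤ) : ∀ (G : List (List ℤ)) (i : ℕ) (t : ℤ),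
    (rowVals w G)[i]? = some t → ∃ g, G[i]? = some g ∧ dotZ g w = t := by
  intro G
  induction G with
  | nil => intro i t h; simp [rowVals] at h
  | cons g gs ih =>
    intro i t h
    cases i with
    | zero =>
      simp only [rowVals, List.getElem?_cons_zero, Option.some.injEq] at h
      exact ⟨g, by simp, h⟩
    | succ i =>
      simp only [rowVals, List.getElem?_cons_succ] at h
      obtain ⟨g', h1, h2⟩ := ih i t h
      exact ⟨g', by simpa using h1, h2⟩

/-- entries bounded in absolute value -/
def allLe (D : ℤ) : List ℤ → Bool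
  | [] => true
  | t :: ts => decide (t ≤ D) && decide (-D ≤ t) && allLe D ts

theorem allLe_get (D : ℤ) : ∀ (l : List ℤ) (i : ℕ) (t : ℤ), allLe D l = true →
    l[i]? = some t → -D ≤ t ∧ t ≤ D := by
  intro l
  induction l with
  | nil => intro i t _ h; simp at h
  | cons a as ih =>
    intro i t h hi
    simp only [allLe, Bool.and_eq_true, decide_eq_true_eq] at h
    cases i with
    | zero =>
      simp only [List.getElem?_cons_zero, Option.some.injEq] at hi
      rw [← hi]
      exact ⟨h.1.2, h.1.1⟩
    | succ i =>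
      exact ih i t h.2 (by simpa using hi)

/-- check of a point of the unit ball -/
def vOK (d : Data) (w : List ℤ) (D : ℤ) (dots : List ℤ) : Bool :=
  decide (0 < D) && decide (w.length = d.n) && decide (rowVals w d.G = dots) && allLe D dots

/-- a point of the unit ball, with its denominator and its row values -/
structure Vt (d : Data) where
  w : List ℤ
  D : ℤ
  dots : List ℤ
  ok : vOK d w D dots = true

/-- the pair hypothesis: every point of the unit ball is moved by less than the claimed factor -/
def PairHyp (d : Data) (F x : ℕ → ℝ) : Prop :=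
  ∀ v : Vt d, ∀ g ∈ d.G,
    (d.q : ℝ) * |(dotZ g v.w : ℝ) - dotR v.w F * dotR g x| ≤ ((d.q : ℝ) + d.p) * v.D

/-- contribution of one certificate entry -/
def entry (d : Data) (iv : List (ℤ × ℤ)) (v : Vt d) (i : ℕ) (nu : ℤ) : Option (List ℤ × ℤ) :=
  match v.dots[i]?, iv[i]? with
  | some t, some lh =>
    if 0 ≤ nu then
      if 0 < lh.1 then
        some (vsmul (nu * lh.1) v.w, nu * ((d.q + d.p) * v.D - d.q * t))
      else if lh.2 < 0 then
        some (vsmul (nu * (-lh.2)) v.w, nu * ((d.q + d.p) * v.D + d.q * t))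
      else none
    else none
  | _, _ => none

theorem key_ineq {L h φ κ : ℝ} (hκ : 0 ≤ κ) (hL : 0 ≤ L) (hLh : L ≤ h) (h1 : -(φ * h) ≤ κ) :
    -(φ * L) ≤ κ := by
  by_cases hφ : 0 ≤ φ
  · nlinarith [mul_nonneg hφ hL]
  · push Not at hφ
    nlinarith [mul_le_mul_of_nonneg_left hLh (le_of_lt (neg_pos.mpr hφ))]

theorem entry_sound (d : Data) (hq : 0 < d.q) (hp : 0 ≤ d.p)
    {F x : ℕ → ℝ} (hP : PairHyp d F x) {iv : List (ℤ × ℤ)} (hs : Sat (hfun d.G x) iv)
    {wD : Vt d} {i : ℕ} {nu : ℤ} {v : List ℤ} {c : ℤ} (he : entry d iv wD i nu = some (v, c)) :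
    -((d.q : ℝ) * dotR v F) ≤ c := by
  unfold entry at he
  split at he
  rotate_left
  · simp at he
  rename_i t lh ht hl
  by_cases hnu : 0 ≤ nu
  swap
  · rw [if_neg hnu] at he; simp at he
  rw [if_pos hnu] at he
  have hok := wD.ok
  unfold vOK at hok
  simp only [Bool.and_eq_true, decide_eq_true_eq] at hok
  obtain ⟨⟨⟨hD, hlen⟩, hrv⟩, hal⟩ := hok
  have hbd0 := allLe_get wD.D wD.dots i t hal ht
  rw [← hrv] at ht
  obtain ⟨g, hg, hgt⟩ := rowVals_get wD.w d.G i t ht
  have hgm : g ∈ d.G := List.mem_of_getElem? hg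
  have hpair := hP wD g hgm
  rw [hgt] at hpair
  have hbd : -wD.D ≤ t ∧ t ≤ wD.D ∧ 0 < wD.D := ⟨hbd0.1, hbd0.2, hD⟩
  have hhi : hfun d.G x i = dotR g x := by
    simp [hfun, List.getD_eq_getElem?_getD, hg]
  have hsi := hs i lh hl
  rw [hhi] at hsi
  have hqR : (0 : ℝ) < d.q := by exact_mod_cast hq
  have hpR : (0 : ℝ) ≤ d.p := by exact_mod_cast hp
  have hnuR : (0 : ℝ) ≤ nu := by exact_mod_cast hnu
  have hb1 : -(wD.D : ℝ) ≤ (t : ℝ) := by exact_mod_cast hbd.1
  have hb2 : (t : ℝ) ≤ (wD.D : ℝ) := by exact_mod_cast hbd.2.1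
  have hb3 : (0 : ℝ) < (wD.D : ℝ) := by exact_mod_cast hbd.2.2
  have habs := abs_le.mp (show |(d.q : ℝ) * ((t : ℝ) - dotR wD.w F * dotR g x)| ≤
    ((d.q : ℝ) + d.p) * wD.D by rw [abs_mul, abs_of_pos hqR]; exact hpair)
  by_cases hlo : 0 < lh.1
  · rw [if_pos hlo] at he
    simp only [Option.some.injEq, Prod.mk.injEq] at he
    obtain ⟨he1, he2⟩ := he
    rw [← he1, ← he2, dotR_vsmul]
    have hloR : (0 : ℝ) ≤ (lh.1 : ℝ) := by exact_mod_cast hlo.le
    have hk := key_ineq (L := (lh.1 : ℝ)) (h := dotR g x) (φ := (d.q : ℝ) * dotR wD.w F)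
      (κ := ((d.q : ℝ) + d.p) * wD.D - d.q * t)
      (by nlinarith) hloR hsi.1 (by nlinarith [habs.2])
    push_cast
    nlinarith [mul_le_mul_of_nonneg_left hk hnuR]
  · rw [if_neg hlo] at he
    by_cases hhi' : lh.2 < 0
    · rw [if_pos hhi'] at he
      simp only [Option.some.injEq, Prod.mk.injEq] at he
      obtain ⟨he1, he2⟩ := he
      rw [← he1, ← he2, dotR_vsmul]
      have hloR : (0 : ℝ) ≤ -(lh.2 : ℝ) := by
        have : (lh.2 : ℝ) < 0 := by exact_mod_cast hhi'
        linarith
      have hk := key_ineq (L := -(lh.2 : ℝ)) (h := -dotR g x) (φ := (d.q : ℝ) * dotR wD.w F)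
        (κ := ((d.q : ℝ) + d.p) * wD.D + d.q * t)
        (by nlinarith) hloR (by linarith [hsi.2]) (by nlinarith [habs.1])
      push_cast
      nlinarith [mul_le_mul_of_nonneg_left hk hnuR]
    · rw [if_neg hhi'] at he; simp at he

/-- certificate: a list of triples (point, row, weight) -/
def cert (d : Data) (iv : List (ℤ × ℤ)) : List (Vt d × ℕ × ℕ) → Option (List ℤ × ℤ)
  | [] => some ([], 0)
  | e :: rest =>
    match cert d iv rest with
    | none => none
    | some vc =>
      match entry d iv e.1 e.2.1 (e.2.2 : ℤ) with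
      | none => none
      | some vc' => some (vadd vc'.1 vc.1, vc'.2 + vc.2)

theorem cert_sound (d : Data) (hq : 0 < d.q) (hp : 0 ≤ d.p)
    {F x : ℕ → ℝ} (hP : PairHyp d F x) {iv : List (ℤ × ℤ)} (hs : Sat (hfun d.G x) iv) :
    ∀ (es : List (Vt d × ℕ × ℕ)) (v : List ℤ) (c : ℤ), cert d iv es = some (v, c) →
    -((d.q : ℝ) * dotR v F) ≤ c := by
  intro es
  induction es with
  | nil =>
    intro v c h
    simp only [cert, Option.some.injEq, Prod.mk.injEq] at h
    rw [← h.1, ← h.2]
    simp [dotR]
  | cons e rest ih =>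
    intro v c h
    simp only [cert] at h
    cases h1 : cert d iv rest with
    | none => rw [h1] at h; simp at h
    | some vc =>
      rw [h1] at h
      simp only at h
      cases h2 : entry d iv e.1 e.2.1 (e.2.2 : ℤ) with
      | none => rw [h2] at h; simp at h
      | some vc' =>
        rw [h2] at h
        simp only [Option.some.injEq, Prod.mk.injEq] at h
        have h3 := ih vc.1 vc.2 h1
        have h4 := entry_sound d hq hp hP hs (v := vc'.1) (c := vc'.2) h2
        rw [← h.1, ← h.2, dotR_vadd]
        push_cast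
        nlinarith

/-- rounded-up quotient -/
def cdiv (c K C : ℤ) : ℤ := -((-(c * K)) / C)

theorem cdiv_spec {c K C : ℤ} (hC : 0 < C) : c * K ≤ cdiv c K C * C := by
  unfold cdiv
  have := Int.ediv_mul_le (-(c * K)) (ne_of_gt hC)
  linarith

/-- upper bound of the l-th coefficient of the functional (times q K), from above
(sg = true) or of its negative (sg = false) -/
def bnd (d : Data) (iv : List (ℤ × ℤ)) (sg : Bool) (l : ℕ)
    (es : List (Vt d × ℕ × ℕ)) : Option ℤ :=
  match cert d iv es with
  | none => none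
  | some vc =>
    let C := if sg then -(vc.1.getD l 0) else vc.1.getD l 0
    if 0 < C then
      if isZero (vadd vc.1 (single l (if sg then C else -C))) = true then
        some (cdiv vc.2 d.K C)
      else none
    else none

theorem bnd_sound (d : Data) (hq : 0 < d.q) (hp : 0 ≤ d.p) (hK : 0 < d.K)
    {F x : ℕ → ℝ} (hP : PairHyp d F x) {iv : List (ℤ × ℤ)} (hs : Sat (hfun d.G x) iv)
    {sg : Bool} {l : ℕ} {es : List (Vt d × ℕ × ℕ)} {u : ℤ} (hb : bnd d iv sg l es = some u) :
    (d.q : ℝ) * d.K * (if sg then F l else -F l) ≤ u := by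
  unfold bnd at hb
  cases h1 : cert d iv es with
  | none => rw [h1] at hb; simp at hb
  | some vc =>
    rw [h1] at hb
    simp only at hb
    have h2 := cert_sound d hq hp hP hs es vc.1 vc.2 h1
    set C : ℤ := if sg then -(vc.1.getD l 0) else vc.1.getD l 0 with hCdef
    by_cases hC : 0 < C
    swap
    · rw [if_neg hC] at hb; simp at hb
    rw [if_pos hC] at hb
    by_cases hz : isZero (vadd vc.1 (single l (if sg then C else -C))) = true
    swap
    · rw [if_neg hz] at hb; simp at hb
    rw [if_pos hz] at hb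
    simp only [Option.some.injEq] at hb
    have h3 := dotR_isZero _ hz F
    rw [dotR_vadd, dotR_single] at h3
    have hKR : (0 : ℝ) < d.K := by exact_mod_cast hK
    have hCR : (0 : ℝ) < C := by exact_mod_cast hC
    have h4 : (vc.2 : ℝ) * d.K ≤ u * C := by
      have := cdiv_spec (c := vc.2) (K := d.K) hC
      rw [hb] at this
      exact_mod_cast this
    have h5 : dotR vc.1 F = -(C : ℝ) * (if sg then F l else -F l) := by
      cases sg with
      | true =>
        simp only [if_true] at h3 ⊢
        linarith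
      | false =>
        simp only [Bool.false_eq_true, if_false] at h3 ⊢
        push_cast at h3
        linarith
    rw [h5] at h2
    have h6 : (d.q : ℝ) * (C * (if sg then F l else -F l)) * d.K ≤ u * C := by
      have : (d.q : ℝ) * (C * (if sg then F l else -F l)) ≤ vc.2 := by
        have h7 : -((d.q : ℝ) * (-(C : ℝ) * (if sg then F l else -F l))) =
          (d.q : ℝ) * (C * (if sg then F l else -F l)) := by ring
        rw [h7] at h2
        exact h2
      exact (mul_le_mul_of_nonneg_right this hKR.le).trans h4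
    have h8 : ((d.q : ℝ) * d.K * (if sg then F l else -F l)) * C ≤ u * C := by
      calc ((d.q : ℝ) * d.K * (if sg then F l else -F l)) * C
          = (d.q : ℝ) * (C * (if sg then F l else -F l)) * d.K := by ring
        _ ≤ u * C := h6
    exact le_of_mul_le_mul_right h8 hCR

end Pool.Agent.Y81.Proj
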