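import Mathlib
import Pool.Agent.Y81.ProjCheck

namespace Pool.Agent.Y81.Proj

/-- data of one coordinate in a leaf: centre, upper certificate, lower certificate -/
abbrev Crd (d : Data) := ℤ × List (Vt d × ℕ × ℕ) × List (Vt d × ℕ × ℕ)

/-- upper bound of the sum over coordinates, starting with coordinate `l` -/
def coordB (d : Data) (iv : List (ℤ × ℤ)) : ℕ → List (Crd d) → List (ℤ × ℤ) → Option ℤ
  | _, [], _ => some 0
  | _, _ :: _, [] => none
  | l, c :: cs, lh :: ivt =>
    match coordB d iv (l + 1) cs ivt,
      (if lh.2 ≤ c.1 then some 0 else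
        match bnd d iv true l c.2.1 with
        | none => none
        | some u => some (u * (lh.2 - c.1))),
      (if c.1 ≤ lh.1 then some 0 else
        match bnd d iv false l c.2.2 with
        | none => none
        | some u => some (u * (c.1 - lh.1))) with
    | some s, some a, some b => some (max (max a b) 0 + s)
    | _, _, _ => none

theorem term_bound {qK Fl hl hb lo hi A B : ℝ} (hqK : 0 ≤ qK) (h1 : lo ≤ hl) (h2 : hl ≤ hi)
    (hA : (hi ≤ hb ∧ 0 ≤ A) ∨ (∃ u, qK * Fl ≤ u ∧ A = u * (hi - hb)))
    (hB : (hb ≤ lo ∧ 0 ≤ B) ∨ (∃ u, qK * (-Fl) ≤ u ∧ B = u * (hb - lo))) :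
    qK * (Fl * (hl - hb)) ≤ max (max A B) 0 := by
  by_cases hh : hb ≤ hl
  · by_cases hF : 0 ≤ Fl
    · rcases hA with ⟨h3, _⟩ | ⟨u, hu, rfl⟩
      · have h4 : hl = hb := le_antisymm (h2.trans h3) hh
        rw [h4]; simp
      · have hu0 : 0 ≤ u := le_trans (mul_nonneg hqK hF) hu
        have h5 : qK * (Fl * (hl - hb)) ≤ u * (hi - hb) := by
          calc qK * (Fl * (hl - hb)) = (qK * Fl) * (hl - hb) := by ring
            _ ≤ u * (hl - hb) := mul_le_mul_of_nonneg_right hu (by linarith)
            _ ≤ u * (hi - hb) := mul_le_mul_of_nonneg_left (by linarith) hu0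
        exact h5.trans ((le_max_left _ _).trans (le_max_left _ _))
    · push Not at hF
      have : qK * (Fl * (hl - hb)) ≤ 0 := by
        have h6 : Fl * (hl - hb) ≤ 0 := mul_nonpos_of_nonpos_of_nonneg hF.le (by linarith)
        exact mul_nonpos_of_nonneg_of_nonpos hqK h6
      exact this.trans (le_max_right _ _)
  · push Not at hh
    by_cases hF : Fl ≤ 0
    · rcases hB with ⟨h3, _⟩ | ⟨u, hu, rfl⟩
      · exact absurd (lt_of_lt_of_le hh (h3.trans h1)) (lt_irrefl _)
      · have hu0 : 0 ≤ u := le_trans (mul_nonneg hqK (by linarith)) hu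
        have h5 : qK * (Fl * (hl - hb)) ≤ u * (hb - lo) := by
          calc qK * (Fl * (hl - hb)) = (qK * (-Fl)) * (hb - hl) := by ring
            _ ≤ u * (hb - hl) := mul_le_mul_of_nonneg_right hu (by linarith)
            _ ≤ u * (hb - lo) := mul_le_mul_of_nonneg_left (by linarith) hu0
        exact h5.trans ((le_max_right _ _).trans (le_max_left _ _))
    · push Not at hF
      have : qK * (Fl * (hl - hb)) ≤ 0 := by
        have h6 : Fl * (hl - hb) ≤ 0 := mul_nonpos_of_nonneg_of_nonpos hF.le (by linarith)
        exact mul_nonpos_of_nonneg_of_nonpos hqK h6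
      exact this.trans (le_max_right _ _)

/-- the finite sum of products of two sequences -/
def psum (F h : ℕ → ℝ) (l : ℕ) : ℕ → ℝ
  | 0 => 0
  | m + 1 => F l * h l + psum F h (l + 1) m

theorem coordB_sound (d : Data) (hq : 0 < d.q) (hp : 0 ≤ d.p) (hK : 0 < d.K)
    {F x : ℕ → ℝ} (hP : PairHyp d F x) {iv : List (ℤ × ℤ)}
    (hs : Sat (hfun d.G x) iv) :
    ∀ (cs : List (Crd d)) (l : ℕ) (ivt : List (ℤ × ℤ)) (s : ℤ),
      Sat (fun k => hfun d.G x (l + k)) ivt → coordB d iv l cs ivt = some s →
      (d.q : ℝ) * d.K * (psum F (hfun d.G x) l cs.length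
        - dotR (cs.map (fun c => c.1)) (fun k => F (l + k))) ≤ s := by
  intro cs
  induction cs with
  | nil =>
    intro l ivt s _ h
    simp only [coordB, Option.some.injEq] at h
    simp [psum, dotR, ← h]
  | cons c cs ih =>
    intro l ivt s hst h
    cases ivt with
    | nil => simp [coordB] at h
    | cons lh ivt =>
      simp only [coordB] at h
      split at h
      swap
      · simp at h
      rename_i s0 a b hs0 ha hb
      simp only [Option.some.injEq] at h
      have hst' : Sat (fun k => hfun d.G x (l + 1 + k)) ivt := by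
        have := hst.tail
        intro i q hq
        have h1 := this i q hq
        have h2 : l + (i + 1) = l + 1 + i := by omega
        simp only [h2] at h1
        exact h1
      have hrec := ih (l + 1) ivt s0 hst' hs0
      have hhd := hst.head
      simp only [Nat.add_zero] at hhd
      have hqK : (0 : ℝ) ≤ (d.q : ℝ) * d.K := by
        have h1 : (0 : ℝ) < d.q := by exact_mod_cast hq
        have h2 : (0 : ℝ) < d.K := by exact_mod_cast hK
        positivity
      have hA : (((lh.2 : ℤ) : ℝ) ≤ ((c.1 : ℤ) : ℝ) ∧ 0 ≤ ((a : ℤ) : ℝ)) ∨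
          (∃ u : ℝ, (d.q : ℝ) * d.K * F l ≤ u ∧ ((a : ℤ) : ℝ) = u * ((lh.2 : ℝ) - (c.1 : ℝ))) := by
        by_cases h1 : lh.2 ≤ c.1
        · rw [if_pos h1] at ha
          simp only [Option.some.injEq] at ha
          left
          exact ⟨by exact_mod_cast h1, by rw [← ha]; simp⟩
        · rw [if_neg h1] at ha
          cases h2 : bnd d iv true l c.2.1 with
          | none => rw [h2] at ha; simp at ha
          | some u =>
            rw [h2] at ha
            simp only [Option.some.injEq] at ha
            right
            refine ⟨(u : ℝ), ?_, ?_⟩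
            · have := bnd_sound d hq hp hK hP hs h2
              simpa using this
            · rw [← ha]; push_cast; ring
      have hB : (((c.1 : ℤ) : ℝ) ≤ ((lh.1 : ℤ) : ℝ) ∧ 0 ≤ ((b : ℤ) : ℝ)) ∨
          (∃ u : ℝ, (d.q : ℝ) * d.K * (-F l) ≤ u ∧ ((b : ℤ) : ℝ) = u * ((c.1 : ℝ) - (lh.1 : ℝ))) := by
        by_cases h1 : c.1 ≤ lh.1
        · rw [if_pos h1] at hb
          simp only [Option.some.injEq] at hb
          left
          exact ⟨by exact_mod_cast h1, by rw [← hb]; simp⟩
        · rw [if_neg h1] at hb
          cases h2 : bnd d iv false l c.2.2 with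
          | none => rw [h2] at hb; simp at hb
          | some u =>
            rw [h2] at hb
            simp only [Option.some.injEq] at hb
            right
            refine ⟨(u : ℝ), ?_, ?_⟩
            · have := bnd_sound d hq hp hK hP hs h2
              simpa using this
            · rw [← hb]; push_cast; ring
      have ht := term_bound hqK hhd.1 hhd.2 hA hB
      rw [← h]
      simp only [psum, List.length_cons, List.map_cons, dotR, Nat.add_zero]
      have h2 : (fun k => F (l + (k + 1))) = (fun k => F (l + 1 + k)) := by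
        funext k; congr 1; omega
      rw [h2]
      push_cast
      have h3 : ((d.q : ℝ) * d.K) * (F l * hfun d.G x l + psum F (hfun d.G x) (l + 1) cs.length -
          (((c.1 : ℤ) : ℝ) * F l + dotR (List.map (fun c => c.1) cs) (fun k => F (l + 1 + k)))) =
          ((d.q : ℝ) * d.K) * (F l * (hfun d.G x l - ((c.1 : ℤ) : ℝ))) +
          ((d.q : ℝ) * d.K) * (psum F (hfun d.G x) (l + 1) cs.length -
            dotR (List.map (fun c => c.1) cs) (fun k => F (l + 1 + k))) := by ring
      rw [h3]
      exact add_le_add ht hrec

/-- leaf check: centre certificate with common denominator `C` -/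
def leafOK (d : Data) (iv : List (ℤ × ℤ)) (C : ℤ) (es : List (Vt d × ℕ × ℕ)) (cs : List (Crd d)) : Bool :=
  decide (cs.length = d.n) &&
  match coordB d iv 0 cs iv with
  | none => false
  | some s =>
    if C = 0 then
      isZero (cs.map (fun c => c.1)) && decide (s < d.q * d.K * d.Q)
    else
      match cert d iv es with
      | none => false
      | some vc =>
        decide (0 < C) && isZero (vadd vc.1 (vsmul C (cs.map (fun c => c.1)))) &&
          decide (cdiv vc.2 d.K C + s < d.q * d.K * d.Q)

/-- the first n rows are Q times the coordinate functionals -/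
def rowsOK (d : Data) : Bool :=
  (List.range d.n).all (fun l =>
    match d.G[l]? with
    | none => false
    | some g => isZero (vadd g (single l (-d.Q))))

theorem rows_sound (d : Data) (h : rowsOK d = true) (x : ℕ → ℝ) (l : ℕ) (hl : l < d.n) :
    hfun d.G x l = d.Q * x l := by
  unfold rowsOK at h
  rw [List.all_eq_true] at h
  have h1 := h l (List.mem_range.mpr hl)
  cases h2 : d.G[l]? with
  | none => rw [h2] at h1; simp at h1
  | some g =>
    rw [h2] at h1
    have h3 := dotR_isZero _ h1 x
    rw [dotR_vadd, dotR_single] at h3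
    have h4 : hfun d.G x l = dotR g x := by
      simp [hfun, List.getD_eq_getElem?_getD, h2]
    rw [h4]
    push_cast at h3
    linarith

theorem psum_scale (F x : ℕ → ℝ) (G : ℕ → ℝ) (Q : ℝ) (m : ℕ) : ∀ l,
    (∀ k, l ≤ k → k < l + m → G k = Q * x k) → psum F G l m = Q * psum F x l m := by
  induction m with
  | zero => intro l _; simp [psum]
  | succ m ih =>
    intro l h
    simp only [psum]
    rw [h l le_rfl (by omega), ih (l + 1) (fun k h1 h2 => h k (by omega) (by omega))]
    ring

theorem leaf_sound (d : Data) (hq : 0 < d.q) (hp : 0 ≤ d.p) (hK : 0 < d.K)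
    (hR : rowsOK d = true) {F x : ℕ → ℝ} (hP : PairHyp d F x)
    (hF : psum F x 0 d.n = 1) {iv : List (ℤ × ℤ)}
    (hs : Sat (hfun d.G x) iv) {C : ℤ} {es : List (Vt d × ℕ × ℕ)} {cs : List (Crd d)}
    (h : leafOK d iv C es cs = true) : False := by
  unfold leafOK at h
  rw [Bool.and_eq_true] at h
  obtain ⟨hlen, h⟩ := h
  have hlen' : cs.length = d.n := by simpa using hlen
  cases h1 : coordB d iv 0 cs iv with
  | none => rw [h1] at h; simp at h
  | some s =>
    rw [h1] at h
    simp only at h
    have h2 := coordB_sound d hq hp hK hP hs cs 0 iv s (by simpa using hs) h1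
    rw [hlen'] at h2
    have h3 : psum F (hfun d.G x) 0 d.n = d.Q * psum F x 0 d.n :=
      psum_scale F x (hfun d.G x) d.Q d.n 0 (fun k _ hk => rows_sound d hR x k (by omega))
    rw [h3, hF] at h2
    simp only [Nat.zero_add] at h2
    by_cases hC : C = 0
    · rw [if_pos hC] at h
      simp only [Bool.and_eq_true, decide_eq_true_eq] at h
      rw [dotR_isZero _ h.1] at h2
      have h4 : (s : ℝ) < d.q * d.K * d.Q := by exact_mod_cast h.2
      nlinarith
    · rw [if_neg hC] at h
      cases h5 : cert d iv es with
      | none => rw [h5] at h; simp at h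
      | some vc =>
        rw [h5] at h
        simp only [Bool.and_eq_true, decide_eq_true_eq] at h
        obtain ⟨⟨hC0, hz⟩, hlt⟩ := h
        have h6 := cert_sound d hq hp hP hs es vc.1 vc.2 h5
        have h7 := dotR_isZero _ hz F
        rw [dotR_vadd, dotR_vsmul] at h7
        have hCR : (0 : ℝ) < C := by exact_mod_cast hC0
        have hKR : (0 : ℝ) < d.K := by exact_mod_cast hK
        have h8 : (vc.2 : ℝ) * d.K ≤ (cdiv vc.2 d.K C : ℤ) * C := by
          have := cdiv_spec (c := vc.2) (K := d.K) hC0
          exact_mod_cast this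
        have h9 : (d.q : ℝ) * d.K * dotR (cs.map (fun c => c.1)) F ≤ (cdiv vc.2 d.K C : ℤ) := by
          have h10 : dotR vc.1 F = -(C * dotR (cs.map (fun c => c.1)) F) := by linarith
          rw [h10] at h6
          have h11 : (d.q : ℝ) * (C * dotR (cs.map (fun c => c.1)) F) * d.K ≤
              (cdiv vc.2 d.K C : ℤ) * C := by
            have h12 : (d.q : ℝ) * (C * dotR (cs.map (fun c => c.1)) F) ≤ vc.2 := by
              have h13 : -((d.q : ℝ) * -(C * dotR (cs.map (fun c => c.1)) F)) =
                (d.q : ℝ) * (C * dotR (cs.map (fun c => c.1)) F) := by ring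
              rw [h13] at h6
              exact h6
            exact (mul_le_mul_of_nonneg_right h12 hKR.le).trans h8
          have h14 : ((d.q : ℝ) * d.K * dotR (cs.map (fun c => c.1)) F) * C ≤
              (cdiv vc.2 d.K C : ℤ) * C := by
            calc ((d.q : ℝ) * d.K * dotR (cs.map (fun c => c.1)) F) * C
                = (d.q : ℝ) * (C * dotR (cs.map (fun c => c.1)) F) * d.K := by ring
              _ ≤ (cdiv vc.2 d.K C : ℤ) * C := h11
          exact le_of_mul_le_mul_right h14 hCR
        have h15 : ((cdiv vc.2 d.K C : ℤ) : ℝ) + s < d.q * d.K * d.Q := by exact_mod_cast hlt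
        nlinarith

/-- certificate trees -/
inductive Tree (d : Data) where
  | far (c : ℕ) : Tree d
  | node (i : ℕ) (t : ℤ) (a b : Tree d) : Tree d
  | leaf (C : ℤ) (es : List (Vt d × ℕ × ℕ)) (cs : List (Crd d)) : Tree d

def treeOK (d : Data) : Tree d → List (ℤ × ℤ) → Bool
  | .far c, iv =>
    match d.circ[c]? with
    | none => false
    | some lam =>
      match lowb lam iv with
      | none => false
      | some s => decide (0 < s)
  | .node i t a b, iv =>
    match iv[i]? with
    | none => false
    | some lh => treeOK d a (iv.set i (t, lh.2)) && treeOK d b (iv.set i (lh.1, t))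
  | .leaf C es cs, iv => leafOK d iv C es cs

def circOK (d : Data) : Bool := d.circ.all (fun c => isZero (lc c d.G))

theorem tree_sound (d : Data) (hq : 0 < d.q) (hp : 0 ≤ d.p) (hK : 0 < d.K)
    (hR : rowsOK d = true) (hc : circOK d = true)
    {F x : ℕ → ℝ} (hP : PairHyp d F x)
    (hF : psum F x 0 d.n = 1) : ∀ (T : Tree d) (iv : List (ℤ × ℤ)),
    Sat (hfun d.G x) iv → treeOK d T iv = true → False := by
  intro T
  induction T with
  | far c =>
    intro iv hs h
    simp only [treeOK] at h
    cases h1 : d.circ[c]? with
    | none => rw [h1] at h; simp at h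
    | some lam =>
      rw [h1] at h
      simp only at h
      cases h2 : lowb lam iv with
      | none => rw [h2] at h; simp at h
      | some s =>
        rw [h2] at h
        simp only [decide_eq_true_eq] at h
        have h3 := lowb_le lam iv (hfun d.G x) s hs h2
        unfold circOK at hc
        rw [List.all_eq_true] at hc
        have h4 := hc lam (List.mem_of_getElem? h1)
        rw [dotR_hfun, dotR_isZero _ h4] at h3
        have h5 : (0 : ℝ) < s := by exact_mod_cast h
        linarith
  | node i t a b iha ihb =>
    intro iv hs h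
    simp only [treeOK] at h
    cases h1 : iv[i]? with
    | none => rw [h1] at h; simp at h
    | some lh =>
      rw [h1] at h
      simp only [Bool.and_eq_true] at h
      have h2 := hs i lh h1
      have hi : i < iv.length := by
        by_contra hcon
        rw [List.getElem?_eq_none (by omega)] at h1
        simp at h1
      by_cases ht : ((t : ℤ) : ℝ) ≤ hfun d.G x i
      · refine iha _ ?_ h.1
        intro j q hj
        rw [List.getElem?_set] at hj
        by_cases hij : i = j
        · rw [if_pos hij, if_pos (hij ▸ hi)] at hj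
          simp only [Option.some.injEq] at hj
          rw [← hj, ← hij]
          exact ⟨ht, h2.2⟩
        · rw [if_neg hij] at hj
          exact hs j q hj
      · push Not at ht
        refine ihb _ ?_ h.2
        intro j q hj
        rw [List.getElem?_set] at hj
        by_cases hij : i = j
        · rw [if_pos hij, if_pos (hij ▸ hi)] at hj
          simp only [Option.some.injEq] at hj
          rw [← hj, ← hij]
          exact ⟨h2.1, ht.le⟩
        · rw [if_neg hij] at hj
          exact hs j q hj
  | leaf C es cs =>
    intro iv hs h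
    simp only [treeOK] at h
    exact leaf_sound d hq hp hK hR hP hF hs h

def rootIv (d : Data) (i : ℕ) : List (ℤ × ℤ) :=
  (List.replicate d.G.length (-d.W, d.W)).set i (d.W, d.W)

def rootsOK (d : Data) : ℕ → List (Tree d) → Bool
  | _, [] => true
  | i, T :: Ts => treeOK d T (rootIv d i) && rootsOK d (i + 1) Ts

theorem rootsOK_get (d : Data) : ∀ (Ts : List (Tree d)) (i k : ℕ) (T : Tree d),
    rootsOK d i Ts = true → Ts[k]? = some T → treeOK d T (rootIv d (i + k)) = true := by
  intro Ts
  induction Ts with
  | nil => intro i k T _ h; simp at h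
  | cons T0 Ts ih =>
    intro i k T h hk
    simp only [rootsOK, Bool.and_eq_true] at h
    cases k with
    | zero =>
      simp only [List.getElem?_cons_zero, Option.some.injEq] at hk
      rw [← hk]
      simpa using h.1
    | succ k =>
      have := ih (i + 1) k T h.2 (by simpa using hk)
      have h2 : i + 1 + k = i + (k + 1) := by omega
      rw [h2] at this
      exact this

/-- basic checks of the data -/
def baseOK (d : Data) : Bool :=
  decide (0 < d.q) && decide (0 ≤ d.p) && decide (0 < d.K) && decide (0 < d.W) &&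
  decide (0 < d.Q) && rowsOK d && circOK d && d.G.all (fun g => decide (g.length = d.n))
  && decide (d.n ≤ d.G.length)

theorem hfun_smul (G : List (List ℤ)) (r : ℝ) (x : ℕ → ℝ) (i : ℕ) :
    hfun G (fun k => r * x k) i = r * hfun G x i := by
  simp [hfun, dotR_smul_seq]

theorem psum_smul (F x : ℕ → ℝ) (r s : ℝ) (m : ℕ) : ∀ l,
    psum (fun k => r * F k) (fun k => s * x k) l m = r * s * psum F x l m := by
  induction m with
  | zero => intro l; simp [psum]
  | succ m ih =>
    intro l
    simp only [psum]
    rw [ih]
    ring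

theorem psum_zero (F x : ℕ → ℝ) (m : ℕ) : ∀ l, (∀ k, l ≤ k → k < l + m → x k = 0) →
    psum F x l m = 0 := by
  induction m with
  | zero => intro l _; simp [psum]
  | succ m ih =>
    intro l h
    simp only [psum]
    rw [h l le_rfl (by omega), ih (l + 1) (fun k h1 h2 => h k (by omega) (by omega))]
    ring

/-- the core soundness statement -/
theorem core (d : Data) (Ts : List (Tree d)) (hb : baseOK d = true)
    (hT : rootsOK d 0 Ts = true) (hlen : Ts.length = d.G.length)
    (F x : ℕ → ℝ) (hP : PairHyp d F x) (hF : psum F x 0 d.n = 1) : False := by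
  unfold baseOK at hb
  simp only [Bool.and_eq_true, decide_eq_true_eq] at hb
  obtain ⟨⟨⟨⟨⟨⟨⟨⟨hq, hp⟩, hK⟩, hW⟩, hQ⟩, hR⟩, hc⟩, hG⟩, hn⟩ := hb
  -- the maximal row
  have hne : d.n ≠ 0 := by
    intro h0
    rw [h0] at hF
    simp [psum] at hF
  have hGpos : 0 < d.G.length := by omega
  obtain ⟨i0, hi0, hmax⟩ := Finset.exists_max_image (Finset.range d.G.length)
    (fun i => |hfun d.G x i|) ⟨0, Finset.mem_range.mpr hGpos⟩
  rw [Finset.mem_range] at hi0
  have hQR : (0 : ℝ) < d.Q := by exact_mod_cast hQ
  have hWR : (0 : ℝ) < d.W := by exact_mod_cast hW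
  have hpos : 0 < |hfun d.G x i0| := by
    by_contra hcon
    push Not at hcon
    have h0 : ∀ k, 0 ≤ k → k < 0 + d.n → x k = 0 := by
      intro k _ hk
      have h1 := hmax k (Finset.mem_range.mpr (by omega))
      have h2 : |hfun d.G x k| = 0 := le_antisymm (h1.trans hcon) (abs_nonneg _)
      have h3 : hfun d.G x k = 0 := abs_eq_zero.mp h2
      rw [rows_sound d hR x k (by omega)] at h3
      rcases mul_eq_zero.mp h3 with h4 | h4
      · exact absurd h4 hQR.ne'
      · exact h4
    rw [psum_zero F x d.n 0 h0] at hF
    norm_num at hF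
  have hne0 : hfun d.G x i0 ≠ 0 := abs_pos.mp hpos
  set r : ℝ := d.W / hfun d.G x i0 with hr
  have hr0 : r ≠ 0 := div_ne_zero hWR.ne' hne0
  set F' : ℕ → ℝ := fun k => r⁻¹ * F k with hF'
  set x' : ℕ → ℝ := fun k => r * x k with hx'
  have hP' : PairHyp d F' x' := by
    intro w g hg
    have h1 := hP w g hg
    have h2 : dotR w.w F' * dotR g x' = dotR w.w F * dotR g x := by
      rw [hF', hx', dotR_smul_seq, dotR_smul_seq]
      field_simp
    rw [h2]
    exact h1
  have hF1 : psum F' x' 0 d.n = 1 := by
    rw [hF', hx', psum_smul, hF]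
    field_simp
  have hs : Sat (hfun d.G x') (rootIv d i0) := by
    intro j q hj
    unfold rootIv at hj
    rw [List.getElem?_set] at hj
    have hval : hfun d.G x' j = r * hfun d.G x j := by rw [hx', hfun_smul]
    by_cases hij : i0 = j
    · rw [if_pos hij] at hj
      split_ifs at hj with h1
      · simp only [Option.some.injEq] at hj
        rw [← hj, hval, ← hij, hr]
        have : (d.W : ℝ) / hfun d.G x i0 * hfun d.G x i0 = d.W := by field_simp
        rw [this]
        exact ⟨le_rfl, le_rfl⟩
    · rw [if_neg hij, List.getElem?_replicate] at hj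
      split_ifs at hj with h1
      · simp only [Option.some.injEq] at hj
        have h2 : |hfun d.G x' j| ≤ d.W := by
          rw [hval, abs_mul, hr, abs_div, abs_of_pos hWR]
          rw [div_mul_eq_mul_div, div_le_iff₀ hpos]
          exact mul_le_mul_of_nonneg_left (hmax j (Finset.mem_range.mpr h1)) hWR.le
        rw [← hj]
        have h3 := abs_le.mp h2
        push_cast
        exact h3
  have hTi : ∃ T, Ts[i0]? = some T := by
    have : i0 < Ts.length := by omega
    exact ⟨Ts[i0], List.getElem?_eq_getElem this⟩
  obtain ⟨T, hTT⟩ := hTi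
  have h5 := rootsOK_get d Ts 0 i0 T hT hTT
  rw [Nat.zero_add] at h5
  exact tree_sound d hq hp hK hR hc hP' hF1 T _ hs h5

end Pool.Agent.Y81.Proj
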