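import Mathlib
import Pool.Agent.Y81.ProjTree

namespace Pool.Agent.Y81.Proj

/-- every projection along a vector with kernel of a functional has norm at least `r` -/
def RG (X : Type) [NormedAddCommGroup X] [NormedSpace ℝ X] (r : ℝ) : Prop :=
  ∀ (f : X →L[ℝ] ℝ) (x : X), f x = 1 → r ≤ ‖ContinuousLinearMap.id ℝ X - f.smulRight x‖

theorem RG_iff_bound {X : Type} [NormedAddCommGroup X] [NormedSpace ℝ X] (f : X →L[ℝ] ℝ) (x : X)
    (v : X) : ‖v - f v • x‖ ≤ ‖ContinuousLinearMap.id ℝ X - f.smulRight x‖ * ‖v‖ := by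
  have := (ContinuousLinearMap.id ℝ X - f.smulRight x).le_opNorm v
  simpa using this

/-- first half of the product lemma -/
theorem half_prod {X Y : Type} [NormedAddCommGroup X] [NormedSpace ℝ X]
    [NormedAddCommGroup Y] [NormedSpace ℝ Y] [FiniteDimensional ℝ Y] {r R : ℝ}
    (hX : RG X r) (f1 : X →L[ℝ] ℝ) (f2 : Y →L[ℝ] ℝ) (x1 : X)
    (hR1 : 1 ≤ R)
    (hR : ∀ (v : X) (w : Y), ‖v‖ ≤ 1 → ‖w‖ ≤ 1 → ‖v - (f1 v + f2 w) • x1‖ ≤ R)
    (ht : 0 < f1 x1) (hb : ‖f1‖ ≤ f1 x1 * (‖f1‖ + ‖f2‖)) : r ≤ R := by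
  -- a norming vector for f2
  obtain ⟨w0, hw0, hw0max⟩ := (isCompact_closedBall (0 : Y) 1).exists_isMaxOn
    ⟨0, by simp⟩ f2.continuous.continuousOn
  have hw0' : ‖w0‖ ≤ 1 := by simpa using hw0
  have hmax : ∀ w : Y, ‖w‖ ≤ 1 → f2 w ≤ f2 w0 := fun w hw => hw0max (by simpa using hw)
  have hn2 : ‖f2‖ ≤ f2 w0 := by
    refine ContinuousLinearMap.opNorm_le_bound _ ?_ ?_
    · have := hmax 0 (by simp)
      simpa using this
    · intro w
      by_cases hw : w = 0
      · simp [hw]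
      · have hwn : 0 < ‖w‖ := norm_pos_iff.mpr hw
        have h1 : ∀ s : ℝ, |s| = 1 → s * f2 w ≤ f2 w0 * ‖w‖ := by
          intro s hs
          have h2 := hmax ((s * ‖w‖⁻¹) • w) (by
            rw [norm_smul, norm_mul, norm_inv, norm_norm, Real.norm_eq_abs, hs]
            rw [one_mul, inv_mul_cancel₀ hwn.ne'])
          rw [map_smul, smul_eq_mul] at h2
          have h3 : s * ‖w‖⁻¹ * f2 w * ‖w‖ ≤ f2 w0 * ‖w‖ := mul_le_mul_of_nonneg_right h2 hwn.le
          have h4 : s * ‖w‖⁻¹ * f2 w * ‖w‖ = s * f2 w := by field_simp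
          linarith
        rw [Real.norm_eq_abs, abs_le]
        constructor
        · have := h1 (-1) (by simp)
          linarith
        · have := h1 1 (by simp)
          linarith
  have hf1 : 0 < ‖f1‖ := by
    rw [norm_pos_iff]
    intro h
    rw [h] at ht
    simp at ht
  -- apply the assumption to the rescaled functional
  have h1 := hX ((f1 x1)⁻¹ • f1) x1 (by simp [ht.ne'])
  refine h1.trans (ContinuousLinearMap.opNorm_le_bound _ (by linarith) ?_)
  -- homogeneous reduction to the unit ball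
  have hball : ∀ v : X, ‖v‖ ≤ 1 → ‖v - ((f1 x1)⁻¹ * f1 v) • x1‖ ≤ R := by
    intro v hv
    -- sign of f1 v
    obtain ⟨s, hs, hsa⟩ : ∃ s : ℝ, (s = 1 ∨ s = -1) ∧ f1 v = s * |f1 v| := by
      rcases le_total 0 (f1 v) with h | h
      · exact ⟨1, Or.inl rfl, by rw [abs_of_nonneg h]; ring⟩
      · exact ⟨-1, Or.inr rfl, by rw [abs_of_nonpos h]; ring⟩
    have hs1 : |s| = 1 := by rcases hs with h | h <;> rw [h] <;> simp
    have hR2 := hR v (s • w0) hv (by rw [norm_smul, Real.norm_eq_abs, hs1, one_mul]; exact hw0')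
    rw [map_smul, smul_eq_mul] at hR2
    set a := |f1 v| with ha
    have ha0 : 0 ≤ a := abs_nonneg _
    have hale : a ≤ ‖f1‖ := by
      have := f1.le_opNorm v
      rw [Real.norm_eq_abs] at this
      exact this.trans (mul_le_of_le_one_right (norm_nonneg _) hv)
    rw [hsa] at hR2 ⊢
    -- convexity
    have hw00 : 0 ≤ f2 w0 := (norm_nonneg _).trans hn2
    by_cases haz : a + f2 w0 = 0
    · have ha' : a = 0 := by linarith
      rw [ha']
      simp only [mul_zero, zero_smul, sub_zero]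
      exact hv.trans hR1
    · have hpos : 0 < a + f2 w0 := lt_of_le_of_ne (by linarith) (Ne.symm haz)
      set θ := (f1 x1)⁻¹ * a / (a + f2 w0) with hθ
      have hθ0 : 0 ≤ θ := by rw [hθ]; positivity
      have hθ1 : θ ≤ 1 := by
        rw [hθ, div_le_one hpos, inv_mul_le_iff₀ ht]
        -- a ≤ t (a + m2)
        have h3 : a * ‖f1‖ ≤ (f1 x1 * (a + f2 w0)) * ‖f1‖ := by
          calc a * ‖f1‖ ≤ a * (f1 x1 * (‖f1‖ + ‖f2‖)) := mul_le_mul_of_nonneg_left hb ha0
            _ = f1 x1 * (a * ‖f1‖ + a * ‖f2‖) := by ring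
            _ ≤ f1 x1 * (a * ‖f1‖ + ‖f1‖ * f2 w0) := by
                apply mul_le_mul_of_nonneg_left _ ht.le
                have : a * ‖f2‖ ≤ ‖f1‖ * f2 w0 := mul_le_mul hale hn2 (norm_nonneg _) hf1.le
                linarith
            _ = (f1 x1 * (a + f2 w0)) * ‖f1‖ := by ring
        exact le_of_mul_le_mul_right h3 hf1
      have hcomb : v - ((f1 x1)⁻¹ * (s * a)) • x1 =
          (1 - θ) • v + θ • (v - (s * a + s * f2 w0) • x1) := by
        have h5 : (f1 x1)⁻¹ * (s * a) = θ * (s * a + s * f2 w0) := by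
          rw [hθ]
          field_simp
        rw [h5, smul_sub, smul_smul, sub_smul, one_smul]
        abel
      rw [hcomb]
      calc ‖(1 - θ) • v + θ • (v - (s * a + s * f2 w0) • x1)‖
          ≤ ‖(1 - θ) • v‖ + ‖θ • (v - (s * a + s * f2 w0) • x1)‖ := norm_add_le _ _
        _ = (1 - θ) * ‖v‖ + θ * ‖v - (s * a + s * f2 w0) • x1‖ := by
            rw [norm_smul, norm_smul, Real.norm_of_nonneg (by linarith), Real.norm_of_nonneg hθ0]
        _ ≤ (1 - θ) * R + θ * R := by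
            apply add_le_add
            · exact mul_le_mul_of_nonneg_left (hv.trans hR1) (by linarith)
            · exact mul_le_mul_of_nonneg_left hR2 hθ0
        _ = R := by ring
  intro v
  by_cases hv : v = 0
  · simp [hv]
  · have hvn : 0 < ‖v‖ := norm_pos_iff.mpr hv
    have h2 := hball (‖v‖⁻¹ • v) (by rw [norm_smul, norm_inv, norm_norm, inv_mul_cancel₀ hvn.ne'])
    have h3 : ‖v‖⁻¹ • v - ((f1 x1)⁻¹ * f1 (‖v‖⁻¹ • v)) • x1 =
        ‖v‖⁻¹ • (v - ((f1 x1)⁻¹ * f1 v) • x1) := by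
      rw [map_smul, smul_eq_mul, smul_sub, smul_smul]
      congr 2
      ring
    rw [h3, norm_smul, norm_inv, norm_norm, inv_mul_le_iff₀ hvn] at h2
    have h4 : (ContinuousLinearMap.id ℝ X - ((f1 x1)⁻¹ • f1).smulRight x1) v =
        v - ((f1 x1)⁻¹ * f1 v) • x1 := by simp
    rw [h4, mul_comm R]
    exact h2

theorem prod_RG {X Y : Type} [NormedAddCommGroup X] [NormedSpace ℝ X]
    [NormedAddCommGroup Y] [NormedSpace ℝ Y] [FiniteDimensional ℝ X] [FiniteDimensional ℝ Y]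
    {r : ℝ} (hX : RG X r) (hY : RG Y r) (f : X × Y →L[ℝ] ℝ) (x : X × Y) (hfx : f x = 1)
    (hR1 : 1 ≤ ‖ContinuousLinearMap.id ℝ (X × Y) - f.smulRight x‖) :
    r ≤ ‖ContinuousLinearMap.id ℝ (X × Y) - f.smulRight x‖ := by
  set R := ‖ContinuousLinearMap.id ℝ (X × Y) - f.smulRight x‖ with hRdef
  set f1 : X →L[ℝ] ℝ := f.comp (ContinuousLinearMap.inl ℝ X Y) with hf1
  set f2 : Y →L[ℝ] ℝ := f.comp (ContinuousLinearMap.inr ℝ X Y) with hf2
  have hsplit : ∀ (v : X) (w : Y), f (v, w) = f1 v + f2 w := by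
    intro v w
    rw [hf1, hf2]
    simp only [ContinuousLinearMap.comp_apply, ContinuousLinearMap.inl_apply,
      ContinuousLinearMap.inr_apply]
    rw [← map_add]
    simp
  have hsum : f1 x.1 + f2 x.2 = 1 := by
    rw [← hsplit]; exact hfx
  have hbd : ∀ (v : X) (w : Y), ‖v‖ ≤ 1 → ‖w‖ ≤ 1 →
      ‖v - (f1 v + f2 w) • x.1‖ ≤ R ∧ ‖w - (f1 v + f2 w) • x.2‖ ≤ R := by
    intro v w hv hw
    have h1 := RG_iff_bound f x (v, w)
    have h2 : ‖((v, w) : X × Y)‖ ≤ 1 := by
      rw [Prod.norm_def]; exact max_le hv hw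
    have h3 : ‖(v, w) - f (v, w) • x‖ ≤ R :=
      h1.trans (mul_le_of_le_one_right (norm_nonneg _) h2)
    rw [hsplit] at h3
    rw [Prod.norm_def] at h3
    exact ⟨(le_max_left _ _).trans h3, (le_max_right _ _).trans h3⟩
  have h1 : |f1 x.1| ≤ ‖f1‖ * ‖x.1‖ := by
    have := f1.le_opNorm x.1
    rwa [Real.norm_eq_abs] at this
  have h2 : |f2 x.2| ≤ ‖f2‖ * ‖x.2‖ := by
    have := f2.le_opNorm x.2
    rwa [Real.norm_eq_abs] at this
  -- one of the two components carries its share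
  by_cases hc1 : 0 < f1 x.1 ∧ ‖f1‖ ≤ f1 x.1 * (‖f1‖ + ‖f2‖)
  · exact half_prod hX f1 f2 x.1 hR1 (fun v w hv hw => (hbd v w hv hw).1) hc1.1 hc1.2
  · have hc2 : 0 < f2 x.2 ∧ ‖f2‖ ≤ f2 x.2 * (‖f2‖ + ‖f1‖) := by
      by_cases hp : 0 < f1 x.1
      · have h3 : f1 x.1 * (‖f1‖ + ‖f2‖) < ‖f1‖ := by
          by_contra h4
          push Not at h4
          exact hc1 ⟨hp, h4⟩
        have h5 : ‖f2‖ < f2 x.2 * (‖f2‖ + ‖f1‖) := by
          have : (f1 x.1 + f2 x.2) * (‖f1‖ + ‖f2‖) = ‖f1‖ + ‖f2‖ := by rw [hsum, one_mul]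
          nlinarith
        refine ⟨?_, h5.le⟩
        by_contra h6
        push Not at h6
        have : f2 x.2 * (‖f2‖ + ‖f1‖) ≤ 0 :=
          mul_nonpos_of_nonpos_of_nonneg h6 (by positivity)
        have h7 := norm_nonneg f2
        linarith
      · push Not at hp
        have h3 : 1 ≤ f2 x.2 := by linarith
        refine ⟨by linarith, ?_⟩
        have h4 := norm_nonneg f1
        have h5 := norm_nonneg f2
        nlinarith
    refine half_prod hY f2 f1 x.2 hR1 (fun w v hw hv => ?_) hc2.1 hc2.2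
    have := (hbd v w hv hw).2
    rwa [add_comm (f1 v) (f2 w)] at this

/-- the identity minus a rank one idempotent has norm at least one in dimension at least two -/
theorem one_le_norm {X : Type} [NormedAddCommGroup X] [NormedSpace ℝ X]
    (hd : 2 ≤ Module.finrank ℝ X) (f : X →L[ℝ] ℝ) (x : X) :
    1 ≤ ‖ContinuousLinearMap.id ℝ X - f.smulRight x‖ := by
  have : FiniteDimensional ℝ X := FiniteDimensional.of_finrank_pos (by omega)
  have hker : LinearMap.ker (f : X →ₗ[ℝ] ℝ) ≠ ⊥ := by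
    apply LinearMap.ker_ne_bot_of_finrank_lt
    simp
    omega
  obtain ⟨z, hz, hz0⟩ := Submodule.exists_mem_ne_zero_of_ne_bot hker
  have hz' : f z = 0 := by simpa using hz
  have h1 := RG_iff_bound f x z
  rw [hz', zero_smul, sub_zero] at h1
  have h2 : 0 < ‖z‖ := norm_pos_iff.mpr hz0
  by_contra h3
  push Not at h3
  nlinarith

theorem RG_prod {X Y : Type} [NormedAddCommGroup X] [NormedSpace ℝ X]
    [NormedAddCommGroup Y] [NormedSpace ℝ Y] (hX0 : 1 ≤ Module.finrank ℝ X)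
    (hY0 : 1 ≤ Module.finrank ℝ Y)
    {r : ℝ} (hX : RG X r) (hY : RG Y r) : RG (X × Y) r := by
  have : FiniteDimensional ℝ X := FiniteDimensional.of_finrank_pos (by omega)
  have : FiniteDimensional ℝ Y := FiniteDimensional.of_finrank_pos (by omega)
  intro f x hfx
  refine prod_RG hX hY f x hfx (one_le_norm ?_ f x)
  rw [Module.finrank_prod]
  omega

end Pool.Agent.Y81.Proj
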