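import Mathlib
import Pool.Agent.Y81.ProjSpace

/-!
A criterion for large norms of all hyperplane projections.
-/

namespace Pool.Agent.Y81.Proj

/-- many nearly norming functionals whose values can be changed independently -/
def Flex (X : Type) [NormedAddCommGroup X] [NormedSpace ℝ X] (N : ℕ) (η ε C : ℝ) (y : X) : Prop :=
  ∃ (ι : Type) (_ : Fintype ι) (g : ι → X →L[ℝ] ℝ), N ≤ Fintype.card ι ∧
      (∀ l z, g l z ≤ ‖z‖) ∧ (Fintype.card ι : ℝ) * (1 - η) * ‖y‖ ≤ ∑ l, g l y ∧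
      ∀ v : X, ‖v‖ ≤ 1 → ∃ v' : ι → X, (∀ l, ‖v' l‖ ≤ 1 + ε) ∧ (∀ l, 1 ≤ g l (v' l)) ∧
        ∀ c : ι → ℝ, (∀ l, |c l| ≤ 1) → ‖∑ l, c l • (v' l - v)‖ ≤ C

theorem Flex.of_neg {X : Type} [NormedAddCommGroup X] [NormedSpace ℝ X] {N : ℕ} {η ε C : ℝ}
    {y : X} (h : Flex X N η ε C (-y)) : Flex X N η ε C y := by
  obtain ⟨ι, i1, g, hcard, hg, hsum, hflex⟩ := h
  refine ⟨ι, i1, fun l => -g l, hcard, ?_, ?_, ?_⟩
  · intro l z
    have := hg l (-z)
    rw [map_neg, norm_neg] at this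
    simpa using this
  · simp only [map_neg, norm_neg, neg_apply] at hsum ⊢
    exact hsum
  · intro v hv
    obtain ⟨v', h1, h2, h3⟩ := hflex (-v) (by rw [norm_neg]; exact hv)
    refine ⟨fun l => -v' l, ?_, ?_, ?_⟩
    · intro l
      rw [norm_neg]
      exact h1 l
    · intro l
      have := h2 l
      simpa using this
    · intro c hc
      have := h3 c hc
      have h4 : ∑ l, c l • (-v' l - v) = -∑ l, c l • (v' l - -v) := by
        rw [← Finset.sum_neg_distrib]
        apply Finset.sum_congr rfl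
        intro l _
        rw [← smul_neg]
        congr 1
        abel
      rw [h4, norm_neg]
      exact this

theorem RG_of_flex {X : Type} [NormedAddCommGroup X] [NormedSpace ℝ X]
    (hd : 0 < Module.finrank ℝ X) {η ε C : ℝ} {N : ℕ} (hN : 1 ≤ N) (hε : 0 ≤ ε) (hC : 0 ≤ C)
    (hη : C ≤ N * (1 - η)) (hη1 : η ≤ 1) (h : ∀ y : X, Flex X N η ε C y) :
    RG X ((2 - η - C / N) / (1 + ε)) := by
  intro f x hfx
  have hfd : FiniteDimensional ℝ X := FiniteDimensional.of_finrank_pos hd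
  obtain ⟨ι, _, g, hcard, hg, hsum, hflex⟩ := h x
  -- the minimizer
  obtain ⟨w0, hw0, hw0max⟩ := (isCompact_closedBall (0 : X) 1).exists_isMaxOn
    ⟨0, by simp⟩ f.continuous.continuousOn
  have hw0' : ‖w0‖ ≤ 1 := by simpa using hw0
  have hmax : ∀ w : X, ‖w‖ ≤ 1 → f w ≤ f w0 := fun w hw => hw0max (by simpa using hw)
  have hn2 : ‖f‖ ≤ f w0 := by
    refine ContinuousLinearMap.opNorm_le_bound _ ?_ ?_
    · have := hmax 0 (by simp)
      simpa using this
    · intro w
      by_cases hw : w = 0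
      · simp [hw]
      · have hwn : 0 < ‖w‖ := norm_pos_iff.mpr hw
        have h1 : ∀ s : ℝ, |s| = 1 → s * f w ≤ f w0 * ‖w‖ := by
          intro s hs
          have h2 := hmax ((s * ‖w‖⁻¹) • w) (by
            rw [norm_smul, norm_mul, norm_inv, norm_norm, Real.norm_eq_abs, hs]
            rw [one_mul, inv_mul_cancel₀ hwn.ne'])
          rw [map_smul, smul_eq_mul] at h2
          have h3 : s * ‖w‖⁻¹ * f w * ‖w‖ ≤ f w0 * ‖w‖ := mul_le_mul_of_nonneg_right h2 hwn.le
          have h4 : s * ‖w‖⁻¹ * f w * ‖w‖ = s * f w := by field_simp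
          linarith
        rw [Real.norm_eq_abs, abs_le]
        constructor
        · have := h1 (-1) (by simp)
          linarith
        · have := h1 1 (by simp)
          linarith
  have hfx0 : 1 ≤ ‖f‖ * ‖x‖ := by
    have := f.le_opNorm x
    rw [hfx] at this
    simpa using this
  have hf0 : 0 ≤ ‖f‖ := norm_nonneg f
  have hx0 : 0 < ‖x‖ := by
    by_contra hcon
    have : ‖x‖ = 0 := le_antisymm (not_lt.mp hcon) (norm_nonneg x)
    rw [this] at hfx0
    norm_num at hfx0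
  obtain ⟨v', hv'n, hv'g, hv's⟩ := hflex (-w0) (by rw [norm_neg]; exact hw0')
  set R := ‖ContinuousLinearMap.id ℝ X - f.smulRight x‖ with hR
  have hR0 : 0 ≤ R := norm_nonneg _
  -- evaluation
  have heval : ∀ l, 1 - f (v' l) * g l x ≤ R * (1 + ε) := by
    intro l
    have h1 : ‖v' l - f (v' l) • x‖ ≤ R * ‖v' l‖ := RG_iff_bound f x (v' l)
    have h2 : R * ‖v' l‖ ≤ R * (1 + ε) := mul_le_mul_of_nonneg_left (hv'n l) hR0
    have h3 := hg l (v' l - f (v' l) • x)
    rw [map_sub, map_smul, smul_eq_mul] at h3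
    have h4 := hv'g l
    linarith
  have hc : ∀ l, |g l x / ‖x‖| ≤ 1 := by
    intro l
    rw [abs_div, abs_of_pos hx0, div_le_one hx0, abs_le]
    constructor
    · have := hg l (-x)
      rw [map_neg, norm_neg] at this
      linarith
    · exact hg l x
  have hS := hv's (fun l => g l x / ‖x‖) hc
  have hfS : f (∑ l, (g l x / ‖x‖) • (v' l - -w0)) ≤ ‖f‖ * C :=
    (le_abs_self _).trans (((Real.norm_eq_abs _).symm.le.trans (f.le_opNorm _)).trans
      (mul_le_mul_of_nonneg_left hS hf0))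
  have hfS2 : f (∑ l, (g l x / ‖x‖) • (v' l - -w0)) * ‖x‖ =
      ∑ l, f (v' l) * g l x + f w0 * ∑ l, g l x := by
    rw [map_sum, Finset.sum_mul, Finset.mul_sum, ← Finset.sum_add_distrib]
    apply Finset.sum_congr rfl
    intro l _
    rw [map_smul, map_sub, map_neg, smul_eq_mul]
    field_simp
    ring
  have hfS3 : ∑ l, f (v' l) * g l x + f w0 * ∑ l, g l x ≤ ‖f‖ * C * ‖x‖ := by
    rw [← hfS2]
    exact mul_le_mul_of_nonneg_right hfS hx0.le
  have hsumR : ∑ l : ι, (1 - f (v' l) * g l x) ≤ ∑ l : ι, R * (1 + ε) :=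
    Finset.sum_le_sum fun l _ => heval l
  rw [Finset.sum_sub_distrib, Finset.sum_const, Finset.sum_const, Finset.card_univ,
    nsmul_eq_mul, nsmul_eq_mul, mul_one] at hsumR
  set n : ℝ := (Fintype.card ι : ℝ) with hn
  have hNR : (1 : ℝ) ≤ N := by exact_mod_cast hN
  have hNn : (N : ℝ) ≤ n := by rw [hn]; exact_mod_cast hcard
  have hn0 : 0 < n := by linarith
  have hgs : n * (1 - η) * ‖x‖ * ‖f‖ ≤ f w0 * ∑ l, g l x := by
    have h0 : 0 ≤ n * (1 - η) * ‖x‖ := by
      have : 0 ≤ 1 - η := by linarith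
      positivity
    calc n * (1 - η) * ‖x‖ * ‖f‖ ≤ n * (1 - η) * ‖x‖ * f w0 :=
          mul_le_mul_of_nonneg_left hn2 h0
      _ ≤ (∑ l, g l x) * f w0 := mul_le_mul_of_nonneg_right hsum (hf0.trans hn2)
      _ = f w0 * ∑ l, g l x := mul_comm _ _
  -- conclusion
  have hCn : C ≤ n * (1 - η) := hη.trans (mul_le_mul_of_nonneg_right hNn (by linarith))
  have hmain : n + (n * (1 - η) - C) * (‖f‖ * ‖x‖) ≤ n * (R * (1 + ε)) := by
    have : (n * (1 - η) - C) * (‖f‖ * ‖x‖) = n * (1 - η) * ‖x‖ * ‖f‖ - ‖f‖ * C * ‖x‖ := by ring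
    rw [this]
    linarith
  have hmain2 : n + (n * (1 - η) - C) ≤ n * (R * (1 + ε)) := by
    have : (n * (1 - η) - C) * 1 ≤ (n * (1 - η) - C) * (‖f‖ * ‖x‖) :=
      mul_le_mul_of_nonneg_left hfx0 (by linarith)
    linarith
  have hCN : C / n ≤ C / N := div_le_div_of_nonneg_left hC (by linarith) hNn
  have h5 : 2 - η - C / n ≤ R * (1 + ε) := by
    have h6 : n * (2 - η - C / n) = n + (n * (1 - η) - C) := by
      field_simp
      ring
    have h7 : n * (2 - η - C / n) ≤ n * (R * (1 + ε)) := by rw [h6]; exact hmain2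
    exact le_of_mul_le_mul_left h7 hn0
  rw [div_le_iff₀ (by linarith)]
  linarith

end Pool.Agent.Y81.Proj
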