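import Mathlib
import Pool.Agent.Y81.ProjLine
import Pool.Agent.Y81.ProjStar

/-!
The hierarchical family of star functionals.
-/

set_option linter.unusedSectionVars false

namespace Pool.Agent.Y81.Proj

variable {K : Type} [Fintype K] [DecidableEq K] {m : ℕ}

/-- the weight of a block of level `i` -/
noncomputable def Pw (i : ℕ) (s y : Fin m → K) : ℝ :=
  if (∀ k : Fin m, k.val < i → y k = s k) then
    (Fintype.card K : ℝ) ^ i / (Fintype.card K : ℝ) ^ m else 0

theorem Pw_nonneg (i : ℕ) (s y : Fin m → K) : 0 ≤ Pw i s y := by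
  unfold Pw
  split_ifs
  · positivity
  · exact le_rfl

theorem Pw_le_one (hq : 1 ≤ Fintype.card K) {i : ℕ} (hi : i ≤ m) (s y : Fin m → K) :
    Pw i s y ≤ 1 := by
  unfold Pw
  have h1 : (1 : ℝ) ≤ Fintype.card K := by exact_mod_cast hq
  split_ifs
  · rw [div_le_one (by positivity)]
    exact pow_le_pow_right₀ h1 hi
  · exact zero_le_one

theorem Pw_ne {i : ℕ} {s y : Fin m → K} (h : ∃ k : Fin m, k.val < i ∧ y k ≠ s k) :
    Pw i s y = 0 := by
  unfold Pw
  rw [if_neg]
  intro h2
  obtain ⟨k, hk, hne⟩ := h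
  exact hne (h2 k hk)

theorem Pw_succ (i : ℕ) (hi : i < m) (s y : Fin m → K) (κ : K) :
    Pw (i + 1) (Function.update s ⟨i, hi⟩ κ) y =
      if y ⟨i, hi⟩ = κ then (Fintype.card K : ℝ) * Pw i s y else 0 := by
  unfold Pw
  by_cases h1 : y ⟨i, hi⟩ = κ
  · rw [if_pos h1]
    by_cases h2 : ∀ k : Fin m, k.val < i → y k = s k
    · rw [if_pos h2, if_pos]
      · rw [pow_succ]
        ring
      · intro k hk
        by_cases hki : k.val = i
        · have : k = ⟨i, hi⟩ := Fin.ext hki
          rw [this, Function.update_self]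
          exact h1
        · have hne : k ≠ ⟨i, hi⟩ := fun h => hki (by rw [h])
          rw [Function.update_of_ne hne]
          exact h2 k (by omega)
    · rw [if_neg h2, if_neg, mul_zero]
      intro h3
      apply h2
      intro k hk
      have hne : k ≠ ⟨i, hi⟩ := by
        intro h
        rw [h] at hk
        simp at hk
      have := h3 k (by omega)
      rw [Function.update_of_ne hne] at this
      exact this
  · rw [if_neg h1, if_neg]
    intro h3
    have := h3 ⟨i, hi⟩ (by simp)
    rw [Function.update_self] at this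
    exact h1 this

theorem sum_Pw_succ (i : ℕ) (hi : i < m) (s y : Fin m → K) :
    ∑ κ, Pw (i + 1) (Function.update s ⟨i, hi⟩ κ) y = (Fintype.card K : ℝ) * Pw i s y := by
  simp only [Pw_succ]
  simp

theorem sum_Pw (hq : 1 ≤ Fintype.card K) {i : ℕ} (hi : i ≤ m) (s : Fin m → K) :
    ∑ y, Pw i s y = 1 := by
  obtain ⟨d, hd⟩ := Nat.exists_eq_add_of_le hi
  induction d generalizing i s with
  | zero =>
    have him : i = m := by omega
    subst him
    rw [Finset.sum_eq_single s]
    · unfold Pw
      rw [if_pos (fun _ _ => rfl)]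
      have : (0 : ℝ) < Fintype.card K := by exact_mod_cast hq
      field_simp
    · intro y _ hy
      apply Pw_ne
      obtain ⟨k, hk⟩ := Function.ne_iff.mp hy
      exact ⟨k, k.2, hk⟩
    · intro h
      exact absurd (Finset.mem_univ _) h
  | succ d ih =>
    have hi' : i < m := by omega
    have h0 : (0 : ℝ) < Fintype.card K := by exact_mod_cast hq
    have h1 : ∑ y, ∑ κ, Pw (i + 1) (Function.update s ⟨i, hi'⟩ κ) y =
        (Fintype.card K : ℝ) * ∑ y, Pw i s y := by
      rw [Finset.mul_sum]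
      apply Finset.sum_congr rfl
      intro y _
      exact sum_Pw_succ i hi' s y
    rw [Finset.sum_comm] at h1
    have h2 : ∀ κ, ∑ y, Pw (i + 1) (Function.update s ⟨i, hi'⟩ κ) y = 1 :=
      fun κ => ih (by omega) _ (by omega)
    simp only [h2, Finset.sum_const, Finset.card_univ, nsmul_eq_mul, mul_one] at h1
    have h3 : (Fintype.card K : ℝ) * 1 = (Fintype.card K : ℝ) * ∑ y, Pw i s y := by
      rw [mul_one]; exact h1
    exact (mul_left_cancel₀ h0.ne' h3).symm

/-- directions of a star -/
abbrev Sx (K : Type) (m : ℕ) : Type := K × (Fin m → K) × K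

/-- the signed measure of a star functional -/
noncomputable def mu (H : K → K → ℝ) (j : K) (i : ℕ) (s : Fin m → K) (χ : K) (u : Sx K m) : ℝ :=
  if u.1 = j then Pw i s u.2.1 * (H χ u.2.2 / Fintype.card K) else 0

/-- the block -/
def Bk (j : K) (i : ℕ) (s : Fin m → K) (u : Sx K m) : Prop :=
  u.1 = j ∧ ∀ k : Fin m, k.val < i → u.2.1 k = s k

/-- the sign pattern -/
def ch (H : K → K → ℝ) (χ : K) (u : Sx K m) : ℝ := H χ u.2.2

/-- the weight of the centre -/
noncomputable def wt (m i : ℕ) : ℝ := 1 - i / m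

theorem wt_nonneg {i : ℕ} (hi : i ≤ m) : 0 ≤ wt m i := by
  unfold wt
  rcases Nat.eq_zero_or_pos m with h | h
  · rw [h]
    simp
  · have hm : (0 : ℝ) < m := by exact_mod_cast h
    have : (i : ℝ) ≤ m := by exact_mod_cast hi
    rw [sub_nonneg, div_le_one hm]
    exact this

theorem wt_le_one (i : ℕ) : wt m i ≤ 1 := by
  unfold wt
  have : (0 : ℝ) ≤ (i : ℝ) / m := by positivity
  linarith

theorem wt_anti {i i0 : ℕ} (h : i0 ≤ i) : wt m i ≤ wt m i0 := by
  unfold wt
  have h1 : (i0 : ℝ) ≤ i := by exact_mod_cast h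
  have h2 : (i0 : ℝ) / m ≤ i / m := by
    apply div_le_div_of_nonneg_right h1
    positivity
  linarith

section
variable {H : K → K → ℝ}

theorem abs_mu (hH : Had H) (j : K) (i : ℕ) (s : Fin m → K) (χ : K) (u : Sx K m) :
    |mu H j i s χ u| = if u.1 = j then Pw i s u.2.1 / Fintype.card K else 0 := by
  unfold mu
  split_ifs
  · rw [abs_mul, abs_div, hH.abs, abs_of_nonneg (Pw_nonneg _ _ _),
      abs_of_nonneg (Nat.cast_nonneg _)]
    ring
  · simp

theorem abs_mu_le (hH : Had H) (j : K) {i : ℕ} (hi : i ≤ m) (s : Fin m → K) (χ : K)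
    (u : Sx K m) : |mu H j i s χ u| ≤ 1 / Fintype.card K := by
  rw [abs_mu hH]
  have hk := hH.card
  split_ifs
  · exact div_le_div_of_nonneg_right (Pw_le_one (by omega) hi _ _) (Nat.cast_nonneg _)
  · positivity

theorem sum_abs_mu (hH : Had H) (j : K) {i : ℕ} (hi : i ≤ m) (s : Fin m → K) (χ : K) :
    ∑ u, |mu H j i s χ u| = 1 := by
  have hk := hH.kpos
  have hk0 : (0 : ℝ) < (Fintype.card K : ℝ) := by linarith
  have hk1 := hH.card
  simp only [abs_mu hH]
  rw [Fintype.sum_prod_type]
  simp only [Fintype.sum_prod_type]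
  rw [Finset.sum_eq_single j]
  · simp only [if_true, Finset.sum_const, Finset.card_univ, nsmul_eq_mul]
    rw [← Finset.mul_sum, ← Finset.sum_div, sum_Pw (by omega) hi]
    field_simp
  · intro j' _ hj
    apply Finset.sum_eq_zero
    intro y _
    apply Finset.sum_eq_zero
    intro κ _
    rw [if_neg hj]
  · intro h
    exact absurd (Finset.mem_univ _) h

theorem sum_mu_ch (hH : Had H) (j : K) {i : ℕ} (hi : i ≤ m) (s : Fin m → K) (χ χ0 : K) :
    ∑ u, mu H j i s χ u * ch H χ0 u = if χ = χ0 then 1 else 0 := by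
  have hk := hH.kpos
  have hk0 : (0 : ℝ) < (Fintype.card K : ℝ) := by linarith
  have hk1 := hH.card
  unfold mu ch
  rw [Fintype.sum_prod_type]
  simp only [Fintype.sum_prod_type]
  rw [Finset.sum_eq_single j]
  · simp only [if_true]
    have h1 : ∀ y : Fin m → K, ∑ κ, Pw i s y * (H χ κ / (Fintype.card K : ℝ)) * H χ0 κ =
        Pw i s y * ((if χ = χ0 then (Fintype.card K : ℝ) else 0) / (Fintype.card K : ℝ)) := by
      intro y
      rw [← hH.orth, Finset.sum_div, Finset.mul_sum]
      apply Finset.sum_congr rfl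
      intro κ _
      ring
    simp only [h1]
    rw [← Finset.sum_mul, sum_Pw (by omega) hi, one_mul]
    split_ifs
    · field_simp
    · simp
  · intro j' _ hj
    apply Finset.sum_eq_zero
    intro y _
    apply Finset.sum_eq_zero
    intro κ _
    rw [if_neg hj, zero_mul]
  · intro h
    exact absurd (Finset.mem_univ _) h

theorem mu_support {j : K} {i : ℕ} {s : Fin m → K} {χ : K} {u : Sx K m} (h : ¬ Bk j i s u) :
    mu H j i s χ u = 0 := by
  unfold mu
  split_ifs with h1
  · rw [Pw_ne, zero_mul]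
    by_contra hcon
    push Not at hcon
    exact h ⟨h1, hcon⟩
  · rfl

theorem compat_mu (hH : Had H) (j j0 : K) {i i0 : ℕ} (hi : i ≤ m) (hi0 : i0 ≤ m)
    (s s0 : Fin m → K) (χ χ0 : K) :
    Compat (1 / (Fintype.card K : ℝ)) (wt m i) (wt m i0) (Bk j0 i0 s0) (mu H j i s χ)
      (ch H χ0) := by
  classical
  have hk := hH.kpos
  have hk0 : (0 : ℝ) < (Fintype.card K : ℝ) := by linarith
  have hδ : (0 : ℝ) ≤ 1 / (Fintype.card K : ℝ) := by positivity
  by_cases hj : j = j0
  · subst hj
    by_cases hii : i0 ≤ i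
    · by_cases hs : ∀ k : Fin m, k.val < i0 → s k = s0 k
      · right
        refine ⟨wt_anti hii, ?_, ?_⟩
        · intro u hu
          apply mu_support
          intro hB
          apply hu
          refine ⟨hB.1, fun k hk => ?_⟩
          rw [hB.2 k (by omega), hs k hk]
        · rw [sum_mu_ch hH j hi]
          split_ifs
          · right; rfl
          · left; rfl
      · left
        refine ⟨Finset.univ.filter (Bk j i0 s0), fun u hu => by simpa using hu, ?_⟩
        rw [Finset.sum_eq_zero]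
        · exact hδ
        · intro u hu
          rw [Finset.mem_filter] at hu
          push Not at hs
          obtain ⟨k, hk, hne⟩ := hs
          rw [mu_support, abs_zero]
          intro hB
          apply hne
          rw [← hB.2 k (by omega), hu.2.2 k hk]
    · left
      have him : i < m := by omega
      refine ⟨Finset.univ.filter (Bk j i0 s0), fun u hu => by simpa using hu, ?_⟩
      have h1 : ∀ u ∈ Finset.univ.filter (Bk j i0 s0), |mu H j i s χ u| ≤
          |mu H j (i + 1) (Function.update s ⟨i, him⟩ (s0 ⟨i, him⟩)) χ u| *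
            (1 / (Fintype.card K : ℝ)) := by
        intro u hu
        rw [Finset.mem_filter] at hu
        have hui : u.2.1 ⟨i, him⟩ = s0 ⟨i, him⟩ := hu.2.2 ⟨i, him⟩ (by simp; omega)
        rw [abs_mu hH, abs_mu hH, if_pos hu.2.1, if_pos hu.2.1, Pw_succ, if_pos hui]
        apply le_of_eq
        field_simp
      refine (Finset.sum_le_sum h1).trans ?_
      rw [← Finset.sum_mul]
      have h2 : ∑ u ∈ Finset.univ.filter (Bk j i0 s0),
          |mu H j (i + 1) (Function.update s ⟨i, him⟩ (s0 ⟨i, him⟩)) χ u| ≤ 1 := by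
        rw [← sum_abs_mu hH j (i := i + 1) (by omega)
          (Function.update s ⟨i, him⟩ (s0 ⟨i, him⟩)) χ]
        apply Finset.sum_le_sum_of_subset_of_nonneg (Finset.filter_subset _ _)
        intro u _ _
        exact abs_nonneg _
      exact mul_le_of_le_one_left hδ h2
  · left
    refine ⟨Finset.univ.filter (Bk j0 i0 s0), fun u hu => by simpa using hu, ?_⟩
    rw [Finset.sum_eq_zero]
    · exact hδ
    · intro u hu
      rw [Finset.mem_filter] at hu
      rw [mu_support, abs_zero]
      intro hB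
      exact hj (hB.1.symm.trans hu.2.1)

/-- the parts of a block average to the block -/
theorem sum_mu_succ (j : K) {i : ℕ} (hi : i < m) (s : Fin m → K) (χ : K) (u : Sx K m) :
    ∑ κ, mu H j (i + 1) (Function.update s ⟨i, hi⟩ κ) χ u =
      (Fintype.card K : ℝ) * mu H j i s χ u := by
  unfold mu
  split_ifs
  · rw [← Finset.sum_mul, sum_Pw_succ]
    ring
  · simp

/-- at least one pattern is not too negative -/
theorem exists_pattern (hH : Had H) (j : K) (s : Fin m → K) (z : Sx K m → ℝ) {b : ℝ} (hb : 0 ≤ b)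
    (hz : ∀ u, |z u| ≤ b) {θ : ℝ} (hθ : 0 ≤ θ) (hθq : 1 < θ ^ 2 * (Fintype.card K : ℝ)) :
    ∃ χ, -(θ * b) ≤ ∑ u, mu H j 0 s χ u * z u := by
  have hk := hH.kpos
  have hk0 : (0 : ℝ) < (Fintype.card K : ℝ) := by linarith
  have hk1 := hH.card
  rcases hb.eq_or_lt with hb0 | hb0
  · obtain ⟨χ⟩ : Nonempty K := by
      rw [← Fintype.card_pos_iff]
      omega
    refine ⟨χ, ?_⟩
    have h0 : ∀ u, z u = 0 := by
      intro u
      have := hz u
      rw [← hb0] at this
      exact abs_eq_zero.mp (le_antisymm this (abs_nonneg _))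
    simp [h0, ← hb0]
  by_contra hcon
  push Not at hcon
  -- the averages over the fibres
  set zb : K → ℝ := fun κ => ∑ y, Pw 0 s y * z (j, y, κ) with hzb
  have hzb1 : ∀ κ, |zb κ| ≤ b := by
    intro κ
    rw [hzb]
    refine (Finset.abs_sum_le_sum_abs _ _).trans ?_
    have : ∑ y, |Pw 0 s y * z (j, y, κ)| ≤ ∑ y, Pw 0 s y * b := by
      apply Finset.sum_le_sum
      intro y _
      rw [abs_mul, abs_of_nonneg (Pw_nonneg _ _ _)]
      exact mul_le_mul_of_nonneg_left (hz _) (Pw_nonneg _ _ _)
    refine this.trans ?_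
    rw [← Finset.sum_mul, sum_Pw (by omega) (Nat.zero_le _), one_mul]
  have hval : ∀ χ, ∑ u, mu H j 0 s χ u * z u = (∑ κ, H χ κ * zb κ) / Fintype.card K := by
    intro χ
    unfold mu
    rw [Fintype.sum_prod_type]
    simp only [Fintype.sum_prod_type]
    rw [Finset.sum_eq_single j]
    · simp only [if_true]
      rw [Finset.sum_comm, Finset.sum_div]
      apply Finset.sum_congr rfl
      intro κ _
      rw [hzb, Finset.mul_sum, Finset.sum_div]
      apply Finset.sum_congr rfl
      intro y _
      ring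
    · intro j' _ hj
      apply Finset.sum_eq_zero
      intro y _
      apply Finset.sum_eq_zero
      intro κ _
      rw [if_neg hj, zero_mul]
    · intro h
      exact absurd (Finset.mem_univ _) h
  -- Parseval
  have hpars : ∑ χ, (∑ κ, H χ κ * zb κ) ^ 2 = (Fintype.card K : ℝ) * ∑ κ, zb κ ^ 2 := by
    have h1 : ∀ χ, (∑ κ, H χ κ * zb κ) ^ 2 =
        ∑ κ, ∑ κ', (H κ χ * H κ' χ) * (zb κ * zb κ') := by
      intro χ
      rw [sq, Finset.sum_mul_sum]
      apply Finset.sum_congr rfl
      intro κ _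
      apply Finset.sum_congr rfl
      intro κ' _
      rw [hH.symm χ κ, hH.symm χ κ']
      ring
    simp only [h1]
    rw [Finset.sum_comm]
    rw [Finset.mul_sum]
    apply Finset.sum_congr rfl
    intro κ _
    rw [Finset.sum_comm]
    simp only [← Finset.sum_mul, hH.orth, ite_mul, zero_mul, Finset.sum_ite_eq,
      Finset.mem_univ, if_true]
    ring
  have hlow : ∀ χ, (θ * b * Fintype.card K) ^ 2 < (∑ κ, H χ κ * zb κ) ^ 2 := by
    intro χ
    have h1 := hcon χ
    rw [hval, div_lt_iff₀ hk0] at h1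
    have h2 : 0 ≤ θ * b * (Fintype.card K : ℝ) := by positivity
    nlinarith
  have hne : (Finset.univ : Finset K).Nonempty := by
    rw [Finset.univ_nonempty_iff, ← Fintype.card_pos_iff]
    omega
  have h3 := Finset.sum_lt_sum_of_nonempty hne (fun χ _ => hlow χ)
  rw [hpars, Finset.sum_const, Finset.card_univ, nsmul_eq_mul] at h3
  have h4 : ∑ κ, zb κ ^ 2 ≤ (Fintype.card K : ℝ) * b ^ 2 := by
    calc ∑ κ, zb κ ^ 2 ≤ ∑ κ : K, b ^ 2 := by
          apply Finset.sum_le_sum
          intro κ _
          have := abs_le.mp (hzb1 κ)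
          nlinarith
      _ = (Fintype.card K : ℝ) * b ^ 2 := by
          rw [Finset.sum_const, Finset.card_univ, nsmul_eq_mul]
  have h5 : (Fintype.card K : ℝ) * (θ * b * Fintype.card K) ^ 2 <
      (Fintype.card K : ℝ) * ((Fintype.card K : ℝ) * b ^ 2) :=
    lt_of_lt_of_le h3 (mul_le_mul_of_nonneg_left h4 hk0.le)
  have h6 := lt_of_mul_lt_mul_left h5 hk0.le
  have h7 : (θ * b * (Fintype.card K : ℝ)) ^ 2 =
      (θ ^ 2 * (Fintype.card K : ℝ)) * ((Fintype.card K : ℝ) * b ^ 2) := by ring
  rw [h7] at h6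
  have h8 : 0 < (Fintype.card K : ℝ) * b ^ 2 := by positivity
  have h9 : 1 * ((Fintype.card K : ℝ) * b ^ 2) <
      (θ ^ 2 * (Fintype.card K : ℝ)) * ((Fintype.card K : ℝ) * b ^ 2) :=
    mul_lt_mul_of_pos_right hθq h8
  linarith

end

end Pool.Agent.Y81.Proj
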