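import Mathlib
import Pool.Agent.Y81.ProjMu
import Pool.Agent.Y81.ProjCrit
import Pool.Agent.Y81.ProjChart

/-!
The spaces of functions on a general star system with the hierarchical family of functionals.
-/

set_option linter.unusedSectionVars false

namespace Pool.Agent.Y81.Proj.Th

open Ch

variable {K Ω : Type} [Fintype K] [DecidableEq K] [Fintype Ω] [DecidableEq Ω] {m : ℕ}

/-- index set of the star functionals at a point -/
abbrev Ix (K : Type) (m : ℕ) : Type := K × Fin (m + 1) × (Fin m → K) × K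

/-- the star functionals -/
noncomputable def gs (H : K → K → ℝ) (st : Ω → Sx K m → Ω) (p : Ix K m) (x : Ω → ℝ)
    (a : Ω) : ℝ :=
  Ch.G st (wt m p.2.1) (mu H p.1 p.2.1 p.2.2.1 p.2.2.2) x a

theorem G_add {S : Type} [Fintype S] [DecidableEq S] (st : Ω → S → Ω) (w : ℝ) (μ : S → ℝ)
    (x y : Ω → ℝ) (a : Ω) : Ch.G st w μ (x + y) a = Ch.G st w μ x a + Ch.G st w μ y a := by
  unfold Ch.G
  simp only [Pi.add_apply, mul_add, Finset.sum_add_distrib]
  ring

theorem G_smul {S : Type} [Fintype S] [DecidableEq S] (st : Ω → S → Ω) (w : ℝ) (μ : S → ℝ)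
    (c : ℝ) (x : Ω → ℝ) (a : Ω) : Ch.G st w μ (c • x) a = c * Ch.G st w μ x a := by
  unfold Ch.G
  simp only [Pi.smul_apply, smul_eq_mul]
  have h1 : ∑ u, μ u * (c * x (st a u)) = c * ∑ u, μ u * x (st a u) := by
    rw [Finset.mul_sum]
    apply Finset.sum_congr rfl
    intro u _
    ring
  rw [h1]
  ring

/-- the embedding into the space of all values of the functionals -/
noncomputable def emb3 (H : K → K → ℝ) (st : Ω → Sx K m → Ω) : (Ω → ℝ) →ₗ[ℝ]
    (Ω ⊕ (Ix K m × Ω) → ℝ) where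
  toFun x := Sum.elim x (fun p => gs H st p.1 x p.2)
  map_add' x y := by
    funext i
    cases i with
    | inl a => rfl
    | inr p => exact G_add _ _ _ _ _ _
  map_smul' c x := by
    funext i
    cases i with
    | inl a => rfl
    | inr p => exact G_smul _ _ _ _ _ _

theorem emb3_norm (H : K → K → ℝ) (st : Ω → Sx K m → Ω) (x : Ω → ℝ) {c : ℝ} (hc : 0 ≤ c) :
    ‖emb3 H st x‖ ≤ c ↔ (∀ a, |x a| ≤ c) ∧ ∀ p a, |gs H st p x a| ≤ c := by
  rw [pi_norm_le_iff_of_nonneg hc]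
  constructor
  · intro h
    exact ⟨fun a => h (Sum.inl a), fun p a => h (Sum.inr (p, a))⟩
  · intro h i
    cases i with
    | inl a => exact h.1 a
    | inr p => exact h.2 p.1 p.2

/-- the space -/
noncomputable abbrev TS (H : K → K → ℝ) (st : Ω → Sx K m → Ω) :
    Submodule ℝ (Ω ⊕ (Ix K m × Ω) → ℝ) := LinearMap.range (emb3 H st)

/-- the vector given by a function -/
noncomputable def mk3 (H : K → K → ℝ) (st : Ω → Sx K m → Ω) (x : Ω → ℝ) : TS H st :=
  ⟨emb3 H st x, ⟨x, rfl⟩⟩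

/-- coordinate functional -/
noncomputable def cfun (H : K → K → ℝ) (st : Ω → Sx K m → Ω) (i : Ω ⊕ (Ix K m × Ω)) :
    TS H st →L[ℝ] ℝ :=
  (ContinuousLinearMap.proj i).comp (TS H st).subtypeL

theorem cfun_le (H : K → K → ℝ) (st : Ω → Sx K m → Ω) (i : Ω ⊕ (Ix K m × Ω)) (z : TS H st) :
    cfun H st i z ≤ ‖z‖ := by
  have h1 : cfun H st i z = (z : Ω ⊕ (Ix K m × Ω) → ℝ) i := rfl
  rw [h1]
  refine (le_abs_self _).trans ?_
  rw [← Real.norm_eq_abs, ← Submodule.norm_coe]
  exact norm_le_pi_norm _ i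

theorem abs_sum_mu_le {H : K → K → ℝ} (hH : Had H) (j : K) {i : ℕ} (hi : i ≤ m)
    (s : Fin m → K) (χ : K) {z : Sx K m → ℝ} {b : ℝ} (hz : ∀ u, |z u| ≤ b) :
    |∑ u, mu H j i s χ u * z u| ≤ b := by
  refine (Finset.abs_sum_le_sum_abs _ _).trans ?_
  calc ∑ u, |mu H j i s χ u * z u| ≤ ∑ u, |mu H j i s χ u| * b := by
        apply Finset.sum_le_sum
        intro u _
        rw [abs_mul]
        exact mul_le_mul_of_nonneg_left (hz u) (abs_nonneg _)
    _ = b := by rw [← Finset.sum_mul, sum_abs_mu hH j hi, one_mul]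

theorem gs_le {H : K → K → ℝ} (hH : Had H) (st : Ω → Sx K m → Ω) {x : Ω → ℝ} {b : ℝ}
    (hx : ∀ a, |x a| ≤ b) (p : Ix K m) (a : Ω) : |gs H st p x a| ≤ 3 * b := by
  have hi : p.2.1.val ≤ m := by
    have := p.2.1.2
    omega
  unfold gs Ch.G
  have hw0 := wt_nonneg hi
  have hw1 := wt_le_one (m := m) p.2.1.val
  have h1 := abs_sum_mu_le hH p.1 hi p.2.2.1 p.2.2.2 (z := fun u => x (st a u)) (b := b)
    (fun u => hx _)
  refine (abs_add_le _ _).trans ?_
  rw [abs_mul, abs_mul, abs_of_nonneg hw0, abs_of_nonneg (by linarith : (0 : ℝ) ≤ 1 + wt m p.2.1)]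
  have h2 : wt m p.2.1 * |x a| ≤ 1 * b := mul_le_mul hw1 (hx a) (abs_nonneg _) zero_le_one
  have h3 := mul_le_mul (by linarith : 1 + wt m p.2.1 ≤ 2) h1 (abs_nonneg _) zero_le_two
  linarith

theorem norm_mk3_le {H : K → K → ℝ} (hH : Had H) (st : Ω → Sx K m → Ω) {x : Ω → ℝ} {b : ℝ}
    (hb : 0 ≤ b) (hx : ∀ a, |x a| ≤ b) : ‖mk3 H st x‖ ≤ 3 * b := by
  rw [← Submodule.norm_coe]
  exact (emb3_norm H st x (by linarith)).mpr
    ⟨fun a => (hx a).trans (by linarith), fun p a => gs_le hH st hx p a⟩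

/-- the number of modified blocks at a point is bounded -/
theorem sum_ind_le {S ι : Type} [Fintype S] [DecidableEq S] [Fintype ι] {st : Ω → S → Ω} {L : ℕ}
    {a : Ω} (c : Chart st L a)
    (B : ι → S → Prop) (ψ : S → ι) (hψ : ∀ l u, B l u → ψ u = l) (p : Ω)
    [∀ l, Decidable (Ch.Dm c (B l) p ∧ c.lev p ≤ L)] :
    ∑ l, (if Ch.Dm c (B l) p ∧ c.lev p ≤ L then (2 : ℝ) else 0) ≤ 2 * L := by
  classical
  by_cases hL : c.lev p ≤ L
  · rw [← Finset.sum_filter, Finset.sum_const, nsmul_eq_mul]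
    have h1 : (Finset.univ.filter fun l => Ch.Dm c (B l) p ∧ c.lev p ≤ L) ⊆
        (c.sup p).image ψ := by
      intro l hl
      rw [Finset.mem_filter] at hl
      obtain ⟨u, hu, hB⟩ := hl.2.1
      rw [Finset.mem_image]
      exact ⟨u, hu, hψ l u hB⟩
    have h2 : (Finset.univ.filter fun l => Ch.Dm c (B l) p ∧ c.lev p ≤ L).card ≤ L :=
      (Finset.card_le_card h1).trans (Finset.card_image_le.trans ((c.card_sup p).trans hL))
    have h3 : ((Finset.univ.filter fun l => Ch.Dm c (B l) p ∧ c.lev p ≤ L).card : ℝ) ≤ L := by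
      exact_mod_cast h2
    linarith
  · have : ∀ l, (if Ch.Dm c (B l) p ∧ c.lev p ≤ L then (2 : ℝ) else 0) = 0 := by
      intro l
      rw [if_neg]
      intro h
      exact hL h.2
    simp only [this, Finset.sum_const_zero]
    positivity

/-- a family of star functionals with disjoint blocks -/
theorem flex_family {H : K → K → ℝ} (hH : Had H) {st : Ω → Sx K m → Ω} {L : ℕ}
    (hL : 2 ≤ L) {a : Ω} (ct : Chart st L a) {ι : Type} [Fintype ι] (p : ι → Ix K m)
    (ψ : Sx K m → ι)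
    (hψ : ∀ l u, Bk (p l).1 (p l).2.1 (p l).2.2.1 u → ψ u = l) {N : ℕ}
    (hN : N ≤ Fintype.card ι) {η : ℝ} (x : Ω → ℝ)
    (hsum : (Fintype.card ι : ℝ) * (1 - η) * ‖mk3 H st x‖ ≤ ∑ l, gs H st (p l) x a) :
    Flex (TS H st) N η ((1 / 2) ^ (L - 2) + 4 * (L + 1) * (1 / (Fintype.card K : ℝ))) (6 * L)
      (mk3 H st x) := by
  classical
  have hk := hH.kpos
  have hk0 : (0 : ℝ) < (Fintype.card K : ℝ) := by linarith
  have hδ : (0 : ℝ) ≤ 1 / (Fintype.card K : ℝ) := by positivity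
  refine ⟨ι, inferInstance, fun l => cfun H st (Sum.inr (p l, a)), hN,
    fun l z => cfun_le _ _ _ _, hsum, ?_⟩
  intro v hv
  obtain ⟨v0, hv0⟩ : ∃ v0, emb3 H st v0 = v := v.2
  have hvmk : v = mk3 H st v0 := Subtype.ext hv0.symm
  have hvn : ‖emb3 H st v0‖ ≤ 1 := by
    rw [hv0]
    exact hv
  obtain ⟨hv1, hv2⟩ := (emb3_norm H st v0 zero_le_one).mp hvn
  have hil : ∀ l, (p l).2.1.val ≤ m := by
    intro l
    have := (p l).2.1.2
    omega
  have hχ : ∀ (χ : K) (u : Sx K m), |ch H χ u| ≤ 1 := fun χ u => (hH.abs _ _).le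
  set c : ι → ℝ := fun l => (1 - wt m (p l).2.1 * v0 a) / (1 + wt m (p l).2.1) with hc
  have hcb : ∀ l, 0 ≤ c l ∧ c l ≤ 1 := fun l =>
    c_bounds (wt_nonneg (hil l)) (wt_le_one _) (hv1 a)
  set V : ι → Ω → ℝ := fun l =>
    Ch.vm ct (Bk (p l).1 (p l).2.1 (p l).2.2.1) (c l) (ch H (p l).2.2.2) v0 with hV
  refine ⟨fun l => mk3 H st (V l), ?_, ?_, ?_⟩
  · intro l
    have hε : (0 : ℝ) ≤ (1 / 2) ^ (L - 2) + 4 * (L + 1) * (1 / (Fintype.card K : ℝ)) := by
      positivity
    rw [← Submodule.norm_coe]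
    refine (emb3_norm H st (V l) (by linarith)).mpr ⟨?_, ?_⟩
    · intro q
      have := Ch.abs_vm_le ct hL (hcb l).1 (hcb l).2 (hχ (p l).2.2.2) hv1
        (B := Bk (p l).1 (p l).2.1 (p l).2.2.1) q
      exact this.trans (by linarith)
    · intro r q
      have hir : r.2.1.val ≤ m := by
        have := r.2.1.2
        omega
      have := Ch.vm_G_le ct hL (hχ (p l).2.2.2) hv1 (wt_nonneg (hil l)) (wt_le_one (p l).2.1.val)
        (wt_nonneg hir) (wt_le_one r.2.1.val) hδ (abs_mu_le hH r.1 hir r.2.2.1 r.2.2.2)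
        (compat_mu hH r.1 (p l).1 hir (hil l) r.2.2.1 (p l).2.2.1 r.2.2.2 (p l).2.2.2)
        q (hv2 r q)
      rw [← add_assoc]
      exact this
  · intro l
    have h1 : cfun H st (Sum.inr (p l, a)) (mk3 H st (V l)) = gs H st (p l) (V l) a := rfl
    rw [h1]
    have h2 : gs H st (p l) (V l) a = 1 :=
      Ch.vm_flex ct hL (wt_nonneg (hil l)) (fun u hu => mu_support hu)
        (by rw [sum_mu_ch hH _ (hil l), if_pos rfl])
    rw [h2]
  · intro θ hθ
    have h1 : ∑ l, θ l • (mk3 H st (V l) - v) =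
        mk3 H st (∑ l, θ l • (V l - v0)) := by
      rw [hvmk]
      apply Subtype.ext
      rw [AddSubmonoidClass.coe_finsetSum]
      change ∑ l, θ l • (emb3 H st (V l) - emb3 H st v0) = emb3 H st (∑ l, θ l • (V l - v0))
      rw [map_sum]
      apply Finset.sum_congr rfl
      intro l _
      rw [map_smul, map_sub]
    rw [h1]
    have h2 : ‖mk3 H st (∑ l, θ l • (V l - v0))‖ ≤ 3 * (2 * L) := by
      apply norm_mk3_le hH st (by positivity)
      intro q
      rw [Finset.sum_apply]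
      refine (Finset.abs_sum_le_sum_abs _ _).trans ?_
      refine le_trans ?_ (sum_ind_le ct (fun l => Bk (p l).1 (p l).2.1 (p l).2.2.1) ψ hψ q)
      apply Finset.sum_le_sum
      intro l _
      rw [Pi.smul_apply, smul_eq_mul, abs_mul, Pi.sub_apply]
      have h3 := Ch.abs_vm_sub_le ct hL (hcb l).1 (hcb l).2 (hχ (p l).2.2.2) hv1
        (B := Bk (p l).1 (p l).2.1 (p l).2.2.1) q
      exact (mul_le_of_le_one_left (abs_nonneg _) (hθ l)).trans h3
    linarith

theorem emb3_inj (H : K → K → ℝ) (st : Ω → Sx K m → Ω) : Function.Injective (emb3 H st) := by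
  intro x y h
  funext a
  exact congrFun h (Sum.inl a)

theorem TS_finrank (H : K → K → ℝ) (st : Ω → Sx K m → Ω) :
    Module.finrank ℝ (TS H st) = Fintype.card Ω := by
  have h1 : Module.finrank ℝ (LinearMap.range (emb3 H st)) =
      Module.finrank ℝ (Ω → ℝ) := LinearMap.finrank_range_of_inj (emb3_inj H st)
  change Module.finrank ℝ (LinearMap.range (emb3 H st)) = _
  rw [h1, Module.finrank_fintype_fun_eq_card]

/-- values of a vector are at most its norm -/
theorem abs_le_norm (H : K → K → ℝ) (st : Ω → Sx K m → Ω) (x : Ω → ℝ) (a : Ω) :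
    |x a| ≤ ‖mk3 H st x‖ :=
  ((emb3_norm H st x (norm_nonneg _)).mp le_rfl).1 a

/-- at least one pattern is not too negative -/
theorem exists_pattern_one {H : K → K → ℝ} (hH : Had H) {κ0 : K} (h1 : ∀ χ, H χ κ0 = 1) (j : K)
    (s : Fin m → K) (z : Sx K m → ℝ) {b : ℝ} (hz : ∀ u, |z u| ≤ b) :
    ∃ χ, -(1 / (Fintype.card K : ℝ) * b) ≤ ∑ u, mu H j 0 s χ u * z u := by
  have hk := hH.kpos
  have hk0 : (0 : ℝ) < (Fintype.card K : ℝ) := by linarith
  have hk1 := hH.card
  by_contra hcon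
  push Not at hcon
  have hne : (Finset.univ : Finset K).Nonempty := by
    rw [Finset.univ_nonempty_iff, ← Fintype.card_pos_iff]
    omega
  have h2 := Finset.sum_lt_sum_of_nonempty hne (fun χ _ => hcon χ)
  rw [Finset.sum_const, Finset.card_univ, nsmul_eq_mul, Finset.sum_comm] at h2
  have hcol : ∀ κ, ∑ χ, H χ κ = if κ = κ0 then (Fintype.card K : ℝ) else 0 := by
    intro κ
    rw [← hH.orth κ κ0]
    apply Finset.sum_congr rfl
    intro χ _
    rw [hH.symm κ χ, hH.symm κ0 χ, h1 χ, mul_one]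
  have h3 : ∀ u : Sx K m, ∑ χ, mu H j 0 s χ u * z u =
      if u.1 = j ∧ u.2.2 = κ0 then Pw 0 s u.2.1 * z u else 0 := by
    intro u
    rw [← Finset.sum_mul]
    unfold mu
    by_cases hj : u.1 = j
    · simp only [if_pos hj]
      rw [← Finset.mul_sum, ← Finset.sum_div, hcol]
      by_cases hκ : u.2.2 = κ0
      · rw [if_pos hκ, if_pos ⟨hj, hκ⟩, div_self hk0.ne', mul_one]
      · rw [if_neg hκ, if_neg (fun h => hκ h.2)]
        simp
    · simp only [if_neg hj]
      rw [if_neg (fun h => hj h.1)]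
      simp
  simp only [h3] at h2
  have h4 : |∑ u : Sx K m, (if u.1 = j ∧ u.2.2 = κ0 then Pw 0 s u.2.1 * z u else 0)| ≤ b := by
    refine (Finset.abs_sum_le_sum_abs _ _).trans ?_
    have h5 : ∀ u : Sx K m, |if u.1 = j ∧ u.2.2 = κ0 then Pw 0 s u.2.1 * z u else 0| ≤
        if u.1 = j then (if u.2.2 = κ0 then Pw 0 s u.2.1 * b else 0) else 0 := by
      intro u
      by_cases hj : u.1 = j
      · by_cases hκ : u.2.2 = κ0
        · rw [if_pos ⟨hj, hκ⟩, if_pos hj, if_pos hκ, abs_mul, abs_of_nonneg (Pw_nonneg _ _ _)]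
          exact mul_le_mul_of_nonneg_left (hz u) (Pw_nonneg _ _ _)
        · rw [if_neg (fun h => hκ h.2), if_pos hj, if_neg hκ]
          simp
      · rw [if_neg (fun h => hj h.1), if_neg hj]
        simp
    refine (Finset.sum_le_sum fun u _ => h5 u).trans ?_
    rw [Fintype.sum_prod_type]
    simp only [Fintype.sum_prod_type]
    rw [Finset.sum_eq_single j]
    · simp only [if_true]
      simp only [Finset.sum_ite_eq', Finset.mem_univ, if_true]
      rw [← Finset.sum_mul, sum_Pw (by omega) (Nat.zero_le _), one_mul]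
    · intro j' _ hj
      apply Finset.sum_eq_zero
      intro y _
      apply Finset.sum_eq_zero
      intro κ _
      rw [if_neg hj]
    · intro h
      exact absurd (Finset.mem_univ _) h
  have h6 : (Fintype.card K : ℝ) * -(1 / (Fintype.card K : ℝ) * b) = -b := by
    field_simp
  rw [h6] at h2
  linarith [(abs_le.mp h4).1]

theorem flex_point {H : K → K → ℝ} (hH : Had H) {κ0 : K} (hone : ∀ χ, H χ κ0 = 1)
    {st : Ω → Sx K m → Ω} {L : ℕ} (hL : 2 ≤ L) {η : ℝ}
    (hη : 2 * (1 / (Fintype.card K : ℝ)) ≤ η) (x : Ω → ℝ) {a : Ω} (ct : Chart st L a)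
    (ha : ‖mk3 H st x‖ ≤ x a) :
    Flex (TS H st) (Fintype.card K) η
      ((1 / 2) ^ (L - 2) + 4 * (L + 1) * (1 / (Fintype.card K : ℝ)))
      (6 * L) (mk3 H st x) := by
  have hk := hH.kpos
  have hk0 : (0 : ℝ) < (Fintype.card K : ℝ) := by linarith
  set Y := ‖mk3 H st x‖ with hY
  have hY0 : 0 ≤ Y := norm_nonneg _
  have hpat : ∀ j : K, ∃ χ, -(1 / (Fintype.card K : ℝ) * Y) ≤
      ∑ u, mu H j 0 (fun _ : Fin m => j) χ u * x (st a u) :=
    fun j => exists_pattern_one hH hone j (fun _ => j) (fun u => x (st a u))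
      (fun u => abs_le_norm H st x _)
  choose χ hχ using hpat
  refine flex_family hH hL ct (fun j : K => (j, ⟨0, by omega⟩, fun _ => j, χ j))
    (fun u => u.1) (fun l u h => h.1) le_rfl x ?_
  have h1 : ∀ j : K, (1 - η) * Y ≤
      gs H st ((j, ⟨0, by omega⟩, fun _ => j, χ j) : Ix K m) x a := by
    intro j
    unfold gs Ch.G
    have hw : wt m 0 = 1 := by
      unfold wt
      simp
    simp only [hw]
    have h2 := hχ j
    have h3 : 2 * (1 / (Fintype.card K : ℝ)) * Y ≤ η * Y := mul_le_mul_of_nonneg_right hη hY0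
    linarith
  calc (Fintype.card K : ℝ) * (1 - η) * Y = ∑ j : K, (1 - η) * Y := by
        rw [Finset.sum_const, Finset.card_univ, nsmul_eq_mul, mul_assoc]
    _ ≤ _ := Finset.sum_le_sum fun j _ => h1 j

theorem flex_line {H : K → K → ℝ} (hH : Had H) {st : Ω → Sx K m → Ω} {L : ℕ}
    (hL : 2 ≤ L) (hm : 1 ≤ m) {η : ℝ} (hη : 2 / (m : ℝ) ≤ η) (x : Ω → ℝ)
    (p : Ix K m) (hp : p.2.1.val < m) {a : Ω} (ct : Chart st L a)
    (ha : ‖mk3 H st x‖ ≤ gs H st p x a) :
    Flex (TS H st) (Fintype.card K) η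
      ((1 / 2) ^ (L - 2) + 4 * (L + 1) * (1 / (Fintype.card K : ℝ)))
      (6 * L) (mk3 H st x) := by
  obtain ⟨j, ⟨i, hi⟩, s, χ⟩ := p
  have hp' : i < m := hp
  have hk := hH.kpos
  have hk0 : (0 : ℝ) < (Fintype.card K : ℝ) := by linarith
  have hm0 : (0 : ℝ) < m := by exact_mod_cast hm
  set Y := ‖mk3 H st x‖ with hY
  have hY0 : 0 ≤ Y := norm_nonneg _
  refine flex_family hH hL ct
    (fun κ : K => (j, ⟨i + 1, by omega⟩, Function.update s ⟨i, hp'⟩ κ, χ))
    (fun u => u.2.1 ⟨i, hp'⟩) ?_ le_rfl x ?_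
  · intro l u h
    have h1 := h.2 ⟨i, hp'⟩ (by simp)
    simp only [Function.update_self] at h1
    exact h1
  · unfold gs Ch.G at ha ⊢
    simp only at ha ⊢
    set h := ∑ u, mu H j i s χ u * x (st a u) with hh
    have h1 : |h| ≤ Y := abs_sum_mu_le hH j (by omega) s χ (fun u => abs_le_norm H st x _)
    have h2 : |x a| ≤ Y := abs_le_norm H st x a
    have h3 : ∑ κ : K, (wt m (i + 1) * x a + (1 + wt m (i + 1)) *
        ∑ u, mu H j (i + 1) (Function.update s ⟨i, hp'⟩ κ) χ u * x (st a u)) =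
        (Fintype.card K : ℝ) * (wt m (i + 1) * x a + (1 + wt m (i + 1)) * h) := by
      rw [Finset.sum_add_distrib, Finset.sum_const, Finset.card_univ, nsmul_eq_mul,
        ← Finset.mul_sum, Finset.sum_comm]
      have h4 : ∑ u, ∑ κ, mu H j (i + 1) (Function.update s ⟨i, hp'⟩ κ) χ u * x (st a u) =
          (Fintype.card K : ℝ) * h := by
        rw [hh, Finset.mul_sum]
        apply Finset.sum_congr rfl
        intro u _
        rw [← Finset.sum_mul, sum_mu_succ, mul_assoc]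
      rw [h4]
      ring
    rw [h3]
    have h5 : wt m (i + 1) = wt m i - 1 / m := by
      unfold wt
      push_cast
      ring
    rw [h5, mul_assoc]
    apply mul_le_mul_of_nonneg_left _ hk0.le
    have h6 : 1 / (m : ℝ) * (x a + h) ≤ 1 / (m : ℝ) * (2 * Y) := by
      apply mul_le_mul_of_nonneg_left _ (by positivity)
      linarith [(abs_le.mp h1).2, (abs_le.mp h2).2]
    have h7 : 2 / (m : ℝ) * Y ≤ η * Y := mul_le_mul_of_nonneg_right hη hY0
    have h8 : 1 / (m : ℝ) * (2 * Y) = 2 / (m : ℝ) * Y := by ring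
    have h9 : (wt m i - 1 / (m : ℝ)) * x a + (1 + (wt m i - 1 / (m : ℝ))) * h =
        (wt m i * x a + (1 + wt m i) * h) - 1 / (m : ℝ) * (x a + h) := by ring
    rw [h9]
    linarith

theorem mk3_neg (H : K → K → ℝ) (st : Ω → Sx K m → Ω) (x : Ω → ℝ) :
    mk3 H st (-x) = -mk3 H st x := by
  apply Subtype.ext
  exact map_neg (emb3 H st) x

theorem gs_neg (H : K → K → ℝ) (st : Ω → Sx K m → Ω) (p : Ix K m) (x : Ω → ℝ)
    (a : Ω) : gs H st p (-x) a = -gs H st p x a := by
  have h : (-x) = (-1 : ℝ) • x := by simp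
  unfold gs
  rw [h, G_smul]
  ring

theorem flex_all [Nonempty Ω] {H : K → K → ℝ} (hH : Had H) {κ0 : K} (hone : ∀ χ, H χ κ0 = 1)
    {st : Ω → Sx K m → Ω} {L : ℕ} (hL : 2 ≤ L) (ct : ∀ a, Chart st L a) (hm : 1 ≤ m) {η : ℝ}
    (hη : 2 * (1 / (Fintype.card K : ℝ)) ≤ η) (hη2 : 2 / (m : ℝ) ≤ η) (y : TS H st) :
    Flex (TS H st) (Fintype.card K) η
      ((1 / 2) ^ (L - 2) + 4 * (L + 1) * (1 / (Fintype.card K : ℝ)))
      (6 * L) y := by
  obtain ⟨x, hx⟩ : ∃ x, emb3 H st x = y := y.2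
  have hy : y = mk3 H st x := Subtype.ext hx.symm
  rw [hy]
  have hne : (Finset.univ : Finset Ω).Nonempty := Finset.univ_nonempty
  obtain ⟨a0, _, ha0⟩ := Finset.exists_max_image Finset.univ (fun a => |x a|) hne
  by_cases h1 : ‖mk3 H st x‖ ≤ |x a0|
  · rcases le_total 0 (x a0) with h | h
    · rw [abs_of_nonneg h] at h1
      exact flex_point hH hone hL hη x (ct a0) h1
    · rw [abs_of_nonpos h] at h1
      apply Flex.of_neg
      rw [← mk3_neg]
      apply flex_point hH hone hL hη (-x) (ct a0)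
      rw [mk3_neg, norm_neg]
      exact h1
  · push Not at h1
    have hYpos : 0 < ‖mk3 H st x‖ := lt_of_le_of_lt (abs_nonneg _) h1
    obtain ⟨p, a, hpa⟩ : ∃ p a, ‖mk3 H st x‖ ≤ |gs H st p x a| := by
      by_contra hcon
      push Not at hcon
      have h2 : ‖emb3 H st x‖ < ‖mk3 H st x‖ := by
        rw [pi_norm_lt_iff hYpos]
        intro i
        cases i with
        | inl a => exact lt_of_le_of_lt (ha0 a (Finset.mem_univ _)) h1
        | inr q => exact hcon q.1 q.2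
      exact lt_irrefl _ h2
    have hp : p.2.1.val < m := by
      by_contra hcon
      have him : p.2.1.val = m := by
        have := p.2.1.2
        omega
      have hw : wt m p.2.1.val = 0 := by
        rw [him]
        unfold wt
        have : (m : ℝ) ≠ 0 := by
          have : (0 : ℝ) < m := by exact_mod_cast hm
          exact this.ne'
        field_simp
        ring
      have h3 : |gs H st p x a| ≤ |x a0| := by
        unfold gs Ch.G
        rw [hw, zero_mul, zero_add, add_zero, one_mul]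
        exact abs_sum_mu_le hH p.1 him.le p.2.2.1 p.2.2.2
          (fun u => ha0 _ (Finset.mem_univ _))
      linarith
    rcases le_total 0 (gs H st p x a) with h | h
    · rw [abs_of_nonneg h] at hpa
      exact flex_line hH hL hm hη2 x p hp (ct a) hpa
    · rw [abs_of_nonpos h] at hpa
      apply Flex.of_neg
      rw [← mk3_neg]
      apply flex_line hH hL hm hη2 (-x) p hp (ct a)
      rw [mk3_neg, norm_neg, gs_neg]
      exact hpa

theorem TS_RG [Nonempty Ω] {H : K → K → ℝ} (hH : Had H) {κ0 : K} (hone : ∀ χ, H χ κ0 = 1)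
    {st : Ω → Sx K m → Ω} {L : ℕ} (hL : 2 ≤ L) (ct : ∀ a, Chart st L a) (hm : 1 ≤ m) {η : ℝ}
    (hη : 2 * (1 / (Fintype.card K : ℝ)) ≤ η) (hη2 : 2 / (m : ℝ) ≤ η)
    (hη1 : η ≤ 1) (hC : 6 * (L : ℝ) ≤ (Fintype.card K : ℝ) * (1 - η)) :
    RG (TS H st) ((2 - η - 6 * L / (Fintype.card K : ℝ)) /
      (1 + ((1 / 2) ^ (L - 2) + 4 * (L + 1) * (1 / (Fintype.card K : ℝ))))) := by
  have hk := hH.card
  have hpos : 0 < Module.finrank ℝ (TS H st) := by
    rw [TS_finrank]
    exact Fintype.card_pos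
  exact RG_of_flex hpos (by omega) (by positivity) (by positivity) hC hη1
    (flex_all hH hone hL ct hm hη hη2)

end Pool.Agent.Y81.Proj.Th
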