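import Mathlib
import Pool.Agent.Y81.ProjSpace

namespace Pool.Agent.Y81.Proj

/-- the norms of the projections of `X` onto `Y` -/
def projNorms (X : Type) [NormedAddCommGroup X] [NormedSpace ℝ X] (Y : Submodule ℝ X) : Set ℝ :=
  {c | ∃ P : X →L[ℝ] X, LinearMap.range (P : X →ₗ[ℝ] X) = Y ∧ (∀ y ∈ Y, P y = y) ∧ c = ‖P‖}

/-- the relative projection constant of `Y` in `X` -/
noncomputable def relProj (X : Type) [NormedAddCommGroup X] [NormedSpace ℝ X]
    (Y : Submodule ℝ X) : ℝ := sInf (projNorms X Y)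

/-- the infimum of the relative projection constants of the hyperplanes of `X` -/
noncomputable def hypConst (X : Type) [NormedAddCommGroup X] [NormedSpace ℝ X] : ℝ :=
  sInf {c | ∃ Y : Submodule ℝ X, Module.finrank ℝ Y + 1 = Module.finrank ℝ X ∧ c = relProj X Y}

/-- the supremum of `hypConst X` over all `n`-dimensional normed spaces `X` -/
noncomputable def rho (n : ℕ) : ℝ :=
  sSup {c | ∃ (X : Type) (_ : NormedAddCommGroup X) (_ : NormedSpace ℝ X),
    Module.finrank ℝ X = n ∧ c = hypConst X}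

section
variable {X : Type} [NormedAddCommGroup X] [NormedSpace ℝ X]

/-- a projection onto a hyperplane is the identity minus a rank one idempotent -/
theorem exists_rank_one (hd : 0 < Module.finrank ℝ X) (Y : Submodule ℝ X)
    (hY : Module.finrank ℝ Y + 1 = Module.finrank ℝ X) (P : X →L[ℝ] X)
    (hr : LinearMap.range (P : X →ₗ[ℝ] X) = Y) (hP : ∀ y ∈ Y, P y = y) :
    ∃ (f : X →L[ℝ] ℝ) (x : X), f x = 1 ∧ P = ContinuousLinearMap.id ℝ X - f.smulRight x := by
  have : FiniteDimensional ℝ X := FiniteDimensional.of_finrank_pos hd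
  have hk := LinearMap.finrank_range_add_finrank_ker (P : X →ₗ[ℝ] X)
  rw [hr] at hk
  have hk1 : Module.finrank ℝ (LinearMap.ker (P : X →ₗ[ℝ] X)) = 1 := by omega
  obtain ⟨⟨x0, hx0⟩, hne, hspan⟩ := finrank_eq_one_iff'.mp hk1
  have hx0' : P x0 = 0 := by simpa using hx0
  have hx0ne : x0 ≠ 0 := by
    intro h
    apply hne
    ext
    exact h
  obtain ⟨g, hg1, hg2⟩ := exists_dual_vector ℝ x0 (norm_ne_zero_iff.mpr hx0ne)
  have hn : 0 < ‖x0‖ := norm_pos_iff.mpr hx0ne
  have hg2' : g x0 = ‖x0‖ := by simpa using hg2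
  set φ : X →L[ℝ] ℝ := (‖x0‖)⁻¹ • g with hφ
  have hφx : φ x0 = 1 := by
    rw [hφ]
    simp [hg2', hn.ne']
  refine ⟨φ.comp (ContinuousLinearMap.id ℝ X - P), x0, ?_, ?_⟩
  · simp [hx0', hφx]
  · ext v
    have hPv : P v ∈ Y := by
      rw [← hr]
      exact ⟨v, rfl⟩
    have hmem : v - P v ∈ LinearMap.ker (P : X →ₗ[ℝ] X) := by
      simp [hP _ hPv]
    obtain ⟨c, hc⟩ := hspan ⟨v - P v, hmem⟩
    have hc' : c • x0 = v - P v := congrArg Subtype.val hc
    have h1 : φ (v - P v) = c := by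
      rw [← hc', map_smul, hφx, smul_eq_mul, mul_one]
    simp only [sub_apply, ContinuousLinearMap.id_apply,
      ContinuousLinearMap.smulRight_apply, ContinuousLinearMap.comp_apply]
    rw [h1, hc']
    abel

/-- the identity minus a rank one idempotent is a projection onto the kernel hyperplane -/
theorem rank_one_proj (hd : 0 < Module.finrank ℝ X) (f : X →L[ℝ] ℝ) (x : X) (hfx : f x = 1) :
    Module.finrank ℝ (LinearMap.ker (f : X →ₗ[ℝ] ℝ)) + 1 = Module.finrank ℝ X ∧
    LinearMap.range ((ContinuousLinearMap.id ℝ X - f.smulRight x : X →L[ℝ] X) : X →ₗ[ℝ] X) =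
      LinearMap.ker (f : X →ₗ[ℝ] ℝ) ∧
    ∀ y ∈ LinearMap.ker (f : X →ₗ[ℝ] ℝ), (ContinuousLinearMap.id ℝ X - f.smulRight x) y = y := by
  have : FiniteDimensional ℝ X := FiniteDimensional.of_finrank_pos hd
  refine ⟨?_, ?_, ?_⟩
  · have hk := LinearMap.finrank_range_add_finrank_ker (f : X →ₗ[ℝ] ℝ)
    have hs : LinearMap.range (f : X →ₗ[ℝ] ℝ) = ⊤ := by
      rw [LinearMap.range_eq_top]
      intro c
      refine ⟨c • x, ?_⟩
      simp [hfx]
    rw [hs, finrank_top, Module.finrank_self] at hk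
    omega
  · ext y
    constructor
    · rintro ⟨v, rfl⟩
      simp [hfx]
    · intro hy
      refine ⟨y, ?_⟩
      have : f y = 0 := by simpa using hy
      simp [this]
  · intro y hy
    have : f y = 0 := by simpa using hy
    simp [this]

theorem exists_functional (hd : 0 < Module.finrank ℝ X) :
    ∃ (f : X →L[ℝ] ℝ) (x : X), f x = 1 ∧ ‖ContinuousLinearMap.id ℝ X - f.smulRight x‖ ≤ 2 := by
  have : FiniteDimensional ℝ X := FiniteDimensional.of_finrank_pos hd
  have : Nontrivial X := Module.nontrivial_of_finrank_pos hd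
  obtain ⟨x, hx⟩ := exists_ne (0 : X)
  have hn : 0 < ‖x‖ := norm_pos_iff.mpr hx
  obtain ⟨g, hg1, hg2⟩ := exists_dual_vector ℝ x (norm_ne_zero_iff.mpr hx)
  have hg2' : g x = ‖x‖ := by simpa using hg2
  refine ⟨g, (‖x‖)⁻¹ • x, ?_, ?_⟩
  · rw [map_smul, smul_eq_mul, hg2', inv_mul_cancel₀ hn.ne']
  · refine ContinuousLinearMap.opNorm_le_bound _ (by norm_num) ?_
    intro v
    have h1 : ‖g v • (‖x‖⁻¹ • x)‖ ≤ ‖v‖ := by
      rw [norm_smul, norm_smul, norm_inv, norm_norm, inv_mul_cancel₀ hn.ne', mul_one]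
      have := g.le_opNorm v
      rwa [hg1, one_mul] at this
    calc ‖(ContinuousLinearMap.id ℝ X - g.smulRight (‖x‖⁻¹ • x)) v‖
        = ‖v - g v • (‖x‖⁻¹ • x)‖ := by simp
      _ ≤ ‖v‖ + ‖g v • (‖x‖⁻¹ • x)‖ := norm_sub_le _ _
      _ ≤ 2 * ‖v‖ := by linarith

theorem relProj_nonneg (Y : Submodule ℝ X) : 0 ≤ relProj X Y := by
  apply Real.sInf_nonneg
  rintro c ⟨P, _, _, rfl⟩
  exact norm_nonneg _

theorem relProj_le (Y : Submodule ℝ X) (P : X →L[ℝ] X)
    (hr : LinearMap.range (P : X →ₗ[ℝ] X) = Y) (hP : ∀ y ∈ Y, P y = y) :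
    relProj X Y ≤ ‖P‖ := by
  refine csInf_le ⟨0, ?_⟩ ⟨P, hr, hP, rfl⟩
  rintro c ⟨P, _, _, rfl⟩
  exact norm_nonneg _

theorem hypConst_le (Y : Submodule ℝ X) (hY : Module.finrank ℝ Y + 1 = Module.finrank ℝ X) :
    hypConst X ≤ relProj X Y := by
  refine csInf_le ⟨0, ?_⟩ ⟨Y, hY, rfl⟩
  rintro c ⟨Y, _, rfl⟩
  exact relProj_nonneg Y

theorem hypConst_le_two (hd : 0 < Module.finrank ℝ X) : hypConst X ≤ 2 := by
  obtain ⟨f, x, hfx, hn⟩ := exists_functional (X := X) hd
  obtain ⟨h1, h2, h3⟩ := rank_one_proj hd f x hfx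
  exact (hypConst_le _ h1).trans ((relProj_le _ _ h2 h3).trans hn)

theorem hypConst_nonneg : 0 ≤ hypConst X := by
  apply Real.sInf_nonneg
  rintro c ⟨Y, _, rfl⟩
  exact relProj_nonneg Y

/-- every subspace of a finite-dimensional space is the range of a projection -/
theorem projNorms_nonempty (hd : 0 < Module.finrank ℝ X) (Y : Submodule ℝ X) :
    (projNorms X Y).Nonempty := by
  have : FiniteDimensional ℝ X := FiniteDimensional.of_finrank_pos hd
  obtain ⟨g, hg⟩ := LinearMap.exists_leftInverse_of_injective Y.subtype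
    (LinearMap.ker_eq_bot.mpr Y.injective_subtype)
  refine ⟨‖LinearMap.toContinuousLinearMap (Y.subtype ∘ₗ g)‖,
    LinearMap.toContinuousLinearMap (Y.subtype ∘ₗ g), ?_, ?_, rfl⟩
  · ext y
    constructor
    · rintro ⟨v, rfl⟩
      exact (g v).2
    · intro hy
      refine ⟨y, ?_⟩
      have := LinearMap.congr_fun hg ⟨y, hy⟩
      simp only [LinearMap.comp_apply, Submodule.subtype_apply, LinearMap.id_apply] at this
      simp [this]
  · intro y hy
    have := LinearMap.congr_fun hg ⟨y, hy⟩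
    simp only [LinearMap.comp_apply, Submodule.subtype_apply, LinearMap.id_apply] at this
    simp [this]

theorem RG_iff_proj (hd : 0 < Module.finrank ℝ X) (r : ℝ) : RG X r ↔
    ∀ Y : Submodule ℝ X, Module.finrank ℝ Y + 1 = Module.finrank ℝ X →
      ∀ P : X →L[ℝ] X, LinearMap.range (P : X →ₗ[ℝ] X) = Y → (∀ y ∈ Y, P y = y) → r ≤ ‖P‖ := by
  constructor
  · intro h Y hY P hr hP
    obtain ⟨f, x, hfx, rfl⟩ := exists_rank_one hd Y hY P hr hP
    exact h f x hfx
  · intro h f x hfx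
    obtain ⟨h1, h2, h3⟩ := rank_one_proj hd f x hfx
    exact h _ h1 _ h2 h3

theorem RG_iff_hypConst (hd : 0 < Module.finrank ℝ X) (r : ℝ) : RG X r ↔ r ≤ hypConst X := by
  rw [RG_iff_proj hd]
  constructor
  · intro h
    refine le_csInf ?_ ?_
    · obtain ⟨f, x, hfx, _⟩ := exists_functional (X := X) hd
      obtain ⟨h1, _, _⟩ := rank_one_proj hd f x hfx
      exact ⟨_, _, h1, rfl⟩
    · rintro c ⟨Y, hY, rfl⟩
      refine le_csInf (projNorms_nonempty hd Y) ?_
      rintro c ⟨P, hr, hP, rfl⟩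
      exact h Y hY P hr hP
  · intro h Y hY P hr hP
    exact h.trans ((hypConst_le Y hY).trans (relProj_le Y P hr hP))

end

theorem rho_bddAbove (n : ℕ) (hn : 0 < n) : BddAbove
    {c | ∃ (X : Type) (_ : NormedAddCommGroup X) (_ : NormedSpace ℝ X),
    Module.finrank ℝ X = n ∧ c = hypConst X} := by
  refine ⟨2, ?_⟩
  rintro c ⟨X, i1, i2, hX, rfl⟩
  exact hypConst_le_two (by omega)

/-- a space all of whose hyperplane projections have norm at least `r` bounds `rho` from below -/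
theorem le_rho {X : Type} [i1 : NormedAddCommGroup X] [i2 : NormedSpace ℝ X] {n : ℕ} (hn : 0 < n)
    (hX : Module.finrank ℝ X = n) {r : ℝ} (h : RG X r) : r ≤ rho n :=
  ((RG_iff_hypConst (by omega) r).mp h).trans
    (le_csSup (rho_bddAbove n hn) ⟨X, i1, i2, hX, rfl⟩)

theorem exists_of_lt_rho {n : ℕ} (hn : 0 < n) {r : ℝ} (hr0 : 0 ≤ r) (hr : r < rho n) :
    ∃ (X : Type) (_ : NormedAddCommGroup X) (_ : NormedSpace ℝ X),
      Module.finrank ℝ X = n ∧ RG X r := by
  have hne : {c | ∃ (X : Type) (_ : NormedAddCommGroup X) (_ : NormedSpace ℝ X),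
    Module.finrank ℝ X = n ∧ c = hypConst X}.Nonempty := by
    by_contra hcon
    rw [Set.not_nonempty_iff_eq_empty] at hcon
    unfold rho at hr
    rw [hcon, Real.sSup_empty] at hr
    linarith
  obtain ⟨c, ⟨X, i1, i2, hX, rfl⟩, hc⟩ := exists_lt_of_lt_csSup hne hr
  exact ⟨X, i1, i2, hX, (RG_iff_hypConst (by omega) r).mpr hc.le⟩

/-- the projection constants behave monotonically under sums of the dimensions -/
theorem rho_add (m n : ℕ) (hm : 1 ≤ m) (hn : 1 ≤ n) : min (rho m) (rho n) ≤ rho (m + n) := by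
  by_contra hcon
  push Not at hcon
  have h0 : 0 ≤ rho (m + n) := by
    apply Real.sSup_nonneg
    rintro c ⟨X, i1, i2, _, rfl⟩
    exact hypConst_nonneg
  obtain ⟨r, hr1, hr2⟩ := exists_between hcon
  have hr0 : 0 ≤ r := h0.trans hr1.le
  obtain ⟨X, i1, i2, hX, hX2⟩ := exists_of_lt_rho (by omega) hr0 (lt_of_lt_of_le hr2 (min_le_left _ _))
  obtain ⟨Y, j1, j2, hY, hY2⟩ := exists_of_lt_rho (by omega) hr0 (lt_of_lt_of_le hr2 (min_le_right _ _))
  have h1 : RG (X × Y) r := RG_prod (by omega) (by omega) hX2 hY2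
  have : FiniteDimensional ℝ X := FiniteDimensional.of_finrank_pos (by omega)
  have : FiniteDimensional ℝ Y := FiniteDimensional.of_finrank_pos (by omega)
  have h2 : Module.finrank ℝ (X × Y) = m + n := by rw [Module.finrank_prod, hX, hY]
  have h3 := le_rho (by omega) h2 h1
  linarith

end Pool.Agent.Y81.Proj
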