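import Mathlib
import Pool.Agent.Y81.ProjDamp
import Pool.Agent.Y81.ProjRho

/-!
The spaces of functions on a product, and the lower bound for their hyperplane projections.
-/

namespace Pool.Agent.Y81.Proj

variable {K : Type} [Fintype K] [DecidableEq K] {m : ℕ}

/-- index set of all norming functionals -/
abbrev Idx (K : Type) (m : ℕ) : Type := (Fin m → K) ⊕ (Fin m × K × (Fin m → K))

theorem gl_add (H : K → K → ℝ) (z w : K → ℝ) (χ κ : K) :
    gl H (fun a => z a + w a) χ κ = gl H z χ κ + gl H w χ κ := by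
  unfold gl
  simp only [mul_add, Finset.sum_add_distrib]
  ring

theorem gl_smul (H : K → K → ℝ) (c : ℝ) (z : K → ℝ) (χ κ : K) :
    gl H (fun a => c * z a) χ κ = c * gl H z χ κ := by
  unfold gl
  have h1 : ∑ κ', H χ κ' * (c * z κ') = c * ∑ κ', H χ κ' * z κ' := by
    rw [Finset.mul_sum]
    apply Finset.sum_congr rfl
    intro κ' _
    ring
  rw [h1]
  ring

/-- the embedding into the space of all values of the norming functionals -/
noncomputable def emb (H : K → K → ℝ) (m : ℕ) : ((Fin m → K) → ℝ) →ₗ[ℝ] (Idx K m → ℝ) where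
  toFun x := Sum.elim x
    (fun p => gl H (fun κ => x (Function.update p.2.2 p.1 κ)) p.2.1 (p.2.2 p.1))
  map_add' x y := by
    funext i
    cases i with
    | inl γ => rfl
    | inr p =>
      simp only [Sum.elim_inr, Pi.add_apply]
      rw [← gl_add]
  map_smul' c x := by
    funext i
    cases i with
    | inl γ => rfl
    | inr p =>
      simp only [Sum.elim_inr, Pi.smul_apply, smul_eq_mul, RingHom.id_apply]
      rw [← gl_smul]

theorem emb_inj (H : K → K → ℝ) (m : ℕ) : Function.Injective (emb H m) := by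
  intro x y h
  funext γ
  exact congrFun h (Sum.inl γ)

theorem emb_norm (H : K → K → ℝ) (m : ℕ) (x : (Fin m → K) → ℝ) {c : ℝ} (hc : 0 ≤ c) :
    ‖emb H m x‖ ≤ c ↔ NB H x c := by
  rw [pi_norm_le_iff_of_nonneg hc]
  constructor
  · intro h
    exact ⟨fun γ => h (Sum.inl γ), fun j γ χ => h (Sum.inr (j, χ, γ))⟩
  · intro h i
    cases i with
    | inl γ => exact h.1 γ
    | inr p => exact h.2 p.1 p.2.2 p.2.1

/-- functions vanishing on a set -/
def ZS (K : Type) (m : ℕ) (S : Set (Fin m → K)) : Submodule ℝ ((Fin m → K) → ℝ) where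
  carrier := {x | ∀ γ ∈ S, x γ = 0}
  add_mem' := by
    intro x y hx hy γ hγ
    simp [hx γ hγ, hy γ hγ]
  zero_mem' := by
    intro γ _
    rfl
  smul_mem' := by
    intro c x hx γ hγ
    simp [hx γ hγ]

/-- the space -/
noncomputable abbrev BS (H : K → K → ℝ) (m : ℕ) (S : Set (Fin m → K)) :
    Submodule ℝ (Idx K m → ℝ) := (ZS K m S).map (emb H m)

/-- the vector of the space given by a function -/
noncomputable def mk (H : K → K → ℝ) (m : ℕ) (S : Set (Fin m → K)) (x : (Fin m → K) → ℝ)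
    (hx : x ∈ ZS K m S) : BS H m S := ⟨emb H m x, ⟨x, hx, rfl⟩⟩

/-- the concluding arithmetic -/
theorem final_arith {L N c k f s R : ℝ} (hL : 1 ≤ L) (hN : 0 < N) (hNc : N ≤ c) (hk : 2 ≤ k)
    (hf : 0 ≤ f) (hs : 0 ≤ s) (hsf : 1 / 3 ≤ f * s) (hΘ : 0 ≤ R * (1 + 2 / L) - 1)
    (h : c * (f * ((1 - 2 / k) * s) - (R * (1 + 2 / L) - 1)) ≤
      f * (6 * L) * ((1 - 2 / k) * s)) :
    1 + (1 - 2 / k) * (1 - 6 * L / N) / 3 ≤ R * (1 + 2 / L) := by
  have hk0 : 0 < k := by linarith
  have h2k : 2 / k ≤ 1 := by rw [div_le_one hk0]; exact hk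
  generalize hΘd : R * (1 + 2 / L) - 1 = Θ at h hΘ
  have hR : R * (1 + 2 / L) = 1 + Θ := by linarith
  rw [hR]
  generalize hα : 1 - 2 / k = α at h
  have hα0 : 0 ≤ α := by linarith
  generalize hB : f * s = B at hsf
  have hB1 : f * (α * s) = α * B := by rw [← hB]; ring
  have hB2 : f * (6 * L) * (α * s) = 6 * L * (α * B) := by rw [← hB]; ring
  rw [hB1, hB2] at h
  have hB0 : 0 ≤ B := by linarith
  have hαB : 0 ≤ α * B := mul_nonneg hα0 hB0
  by_contra hcon
  push Not at hcon
  have h1 : Θ < α * (1 - 6 * L / N) / 3 := by linarith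
  have hpos : 0 < 1 - 6 * L / N := by
    by_contra h2
    push Not at h2
    have : α * (1 - 6 * L / N) ≤ 0 := mul_nonpos_of_nonneg_of_nonpos hα0 h2
    linarith
  have h2 : α * (1 - 6 * L / N) / 3 ≤ α * B * (1 - 6 * L / N) := by
    have h3 : α * (1 - 6 * L / N) * (1 / 3) ≤ α * (1 - 6 * L / N) * B :=
      mul_le_mul_of_nonneg_left hsf (mul_nonneg hα0 hpos.le)
    linarith
  have h3 : α * B * (6 * L / N) < α * B - Θ := by
    have : α * B * (1 - 6 * L / N) = α * B - α * B * (6 * L / N) := by ring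
    linarith
  have h4 : 0 ≤ α * B * (6 * L / N) := by positivity
  have h5 : N * (α * B - Θ) ≤ c * (α * B - Θ) :=
    mul_le_mul_of_nonneg_right hNc (by linarith)
  have h6 : N * (α * B * (6 * L / N)) = 6 * L * (α * B) := by field_simp
  have h7 : N * (α * B * (6 * L / N)) < N * (α * B - Θ) := mul_lt_mul_of_pos_left h3 hN
  linarith

theorem main_ineq {H : K → K → ℝ} (hH : Had H) (S : Set (Fin m → K)) (N L : ℕ) (hL : 1 ≤ L)
    (hN : 1 ≤ N)
    (hS : ∀ γ0 ∉ S, ∃ J : Finset (Fin m), N ≤ J.card ∧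
      ∀ j ∈ J, ∀ κ, Function.update γ0 j κ ∉ S)
    (f : BS H m S →L[ℝ] ℝ) (y : BS H m S) (hfy : f y = 1) (hd : 2 ≤ Module.finrank ℝ (BS H m S)) :
    1 + (1 - 2 / (Fintype.card K : ℝ)) * (1 - 6 * L / N) / 3 ≤
      ‖ContinuousLinearMap.id ℝ (BS H m S) - f.smulRight y‖ * (1 + 2 / L) := by
  have hk := hH.kpos
  have hk0 : (0 : ℝ) < (Fintype.card K : ℝ) := by linarith
  have hLR : (1 : ℝ) ≤ L := by exact_mod_cast hL
  have hLR0 : (0 : ℝ) < L := by linarith
  have hNR : (0 : ℝ) < N := by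
    have : (1 : ℝ) ≤ N := by exact_mod_cast hN
    linarith
  have hne : (Finset.univ : Finset (Fin m → K)).Nonempty := by
    have : Nonempty K := by
      rw [← Fintype.card_pos_iff]
      have := hH.card
      omega
    exact Finset.univ_nonempty
  set R := ‖ContinuousLinearMap.id ℝ (BS H m S) - f.smulRight y‖ with hR
  have hR1 : 1 ≤ R := one_le_norm hd f y
  -- the function representing y
  obtain ⟨x, hxS, hxy⟩ : ∃ x, x ∈ ZS K m S ∧ emb H m x = y := y.2
  -- the centre
  obtain ⟨γ0, _, hγ0⟩ := Finset.exists_max_image Finset.univ (fun γ => |x γ|) hne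
  set s := |x γ0| with hs
  have hs0 : 0 ≤ s := abs_nonneg _
  have hxs : ∀ γ, |x γ| ≤ s := fun γ => hγ0 γ (Finset.mem_univ _)
  have hyn : ‖y‖ ≤ 3 * s := by
    rw [← Submodule.norm_coe, ← hxy, emb_norm _ _ _ (by linarith)]
    exact ⟨fun γ => (hxs γ).trans (by linarith), fun j γ χ => gl_le hH (fun κ => hxs _) _ _⟩
  have hfy1 : 1 ≤ ‖f‖ * ‖y‖ := by
    have := f.le_opNorm y
    rw [hfy] at this
    simpa using this
  have hf0 : 0 ≤ ‖f‖ := norm_nonneg f
  have hsf : 1 / 3 ≤ ‖f‖ * s := by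
    have h1 : ‖f‖ * ‖y‖ ≤ ‖f‖ * (3 * s) := mul_le_mul_of_nonneg_left hyn hf0
    linarith
  have hspos : 0 < s := by
    by_contra h
    push Not at h
    have : s = 0 := le_antisymm h hs0
    rw [this, mul_zero] at hsf
    norm_num at hsf
  have hfpos : 0 < ‖f‖ := by
    by_contra h
    push Not at h
    have : ‖f‖ = 0 := le_antisymm h hf0
    rw [this, zero_mul] at hsf
    norm_num at hsf
  have hγS : γ0 ∉ S := by
    intro h
    have := hxS γ0 h
    rw [hs, this] at hspos
    simp at hspos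
  obtain ⟨J, hJN, hJ⟩ := hS γ0 hγS
  -- sign
  obtain ⟨σ, hσ, hσx⟩ : ∃ σ : ℝ, (σ = 1 ∨ σ = -1) ∧ σ * x γ0 = s := by
    rcases le_total 0 (x γ0) with h | h
    · exact ⟨1, Or.inl rfl, by rw [hs, abs_of_nonneg h]; ring⟩
    · exact ⟨-1, Or.inr rfl, by rw [hs, abs_of_nonpos h]; ring⟩
  have hσσ : σ * σ = 1 := by rcases hσ with h | h <;> rw [h] <;> norm_num
  -- the minimizer
  have hfd : FiniteDimensional ℝ (BS H m S) := FiniteDimensional.of_finrank_pos (by omega)
  obtain ⟨w0, hw0, hw0max⟩ := (isCompact_closedBall (0 : BS H m S) 1).exists_isMaxOn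
    ⟨0, by simp⟩ f.continuous.continuousOn
  have hw0' : ‖w0‖ ≤ 1 := by simpa using hw0
  have hmax : ∀ w : BS H m S, ‖w‖ ≤ 1 → f w ≤ f w0 := fun w hw => hw0max (by simpa using hw)
  have hn2 : ‖f‖ ≤ f w0 := by
    refine ContinuousLinearMap.opNorm_le_bound _ ?_ ?_
    · have := hmax 0 (by simp)
      simpa using this
    · intro w
      by_cases hw : w = 0
      · simp [hw]
      · have hwn : 0 < ‖w‖ := norm_pos_iff.mpr hw
        have h1 : ∀ s : ℝ, |s| = 1 → s * f w ≤ f w0 * ‖w‖ := by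
          intro s hs
          have h2 := hmax ((s * ‖w‖⁻¹) • w) (by
            rw [norm_smul, norm_mul, norm_inv, norm_norm, Real.norm_eq_abs, hs]
            rw [one_mul, inv_mul_cancel₀ hwn.ne'])
          rw [map_smul, smul_eq_mul] at h2
          have h3 : s * ‖w‖⁻¹ * f w * ‖w‖ ≤ f w0 * ‖w‖ := mul_le_mul_of_nonneg_right h2 hwn.le
          have h4 : s * ‖w‖⁻¹ * f w * ‖w‖ = s * f w := by field_simp
          linarith
        rw [Real.norm_eq_abs, abs_le]
        constructor
        · have := h1 (-1) (by simp)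
          linarith
        · have := h1 1 (by simp)
          linarith
  obtain ⟨vs, hvsS, hvs⟩ : ∃ v, v ∈ ZS K m S ∧ emb H m v = (-w0 : BS H m S) := (-w0).2
  have hvsN : NB H vs 1 := by
    rw [← emb_norm H m vs zero_le_one, hvs]
    have : ‖(-w0 : BS H m S)‖ ≤ 1 := by rw [norm_neg]; exact hw0'
    exact this
  have hvsmk : mk H m S vs hvsS = -w0 := Subtype.ext hvs
  have hfvs : f (mk H m S vs hvsS) ≤ -‖f‖ := by
    rw [hvsmk, map_neg]
    linarith
  -- choice of the mixed functionals and of the line vectors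
  have hχ : ∀ j : Fin m, ∃ χ, (1 - 2 / (Fintype.card K : ℝ)) * s ≤
      σ * gl H (fun κ => x (Function.update γ0 j κ)) χ (γ0 j) := by
    intro j
    obtain ⟨χ, hχ⟩ := exists_gl hH (fun κ => x (Function.update γ0 j κ)) (γ0 j) (σ := σ)
    refine ⟨χ, ?_⟩
    simp only [Function.update_eq_self] at hχ
    rw [hσx] at hχ
    exact hχ
  choose χ hχ using hχ
  have hz : ∀ j : Fin m, ∃ z : K → ℝ, z (γ0 j) = vs γ0 ∧ LB H z 1 ∧ gl H z (χ j) (γ0 j) = σ :=
    fun j => exists_flex hH (γ0 j) (χ j) (hvsN.1 γ0) hσ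
  choose z hz0 hzB hzg using hz
  -- the modified vectors
  have hvN : ∀ j, NB H (vj L γ0 vs (z j) j) (1 + 2 / L) := fun j =>
    vj_NB hH hL γ0 j hvsN (hzB j) (hz0 j)
  have hvS : ∀ j ∈ J, vj L γ0 vs (z j) j ∈ ZS K m S := by
    intro j hj γ hγ
    unfold vj
    have h1 := hvsS γ hγ
    split_ifs with h2 h3
    · exact h1
    · exfalso
      apply hJ j hj (γ j)
      rw [← h3]
      exact hγ
    · rw [h1, mul_zero]
  have h2L : (0 : ℝ) ≤ 2 / (L : ℝ) := by positivity
  set Θ := R * (1 + 2 / L) - 1 with hΘ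
  have hΘ0 : 0 ≤ Θ := by
    rw [hΘ]
    nlinarith
  set A := (1 - 2 / (Fintype.card K : ℝ)) * s with hA
  have h2k : 2 / (Fintype.card K : ℝ) ≤ 1 := by rw [div_le_one hk0]; exact hk
  have hA0 : 0 ≤ A := by
    rw [hA]
    exact mul_nonneg (by linarith) hs0
  -- evaluation of the projection
  have heval : ∀ j (hj : j ∈ J), -(f (mk H m S _ (hvS j hj)) * A) ≤ Θ := by
    intro j hj
    by_cases hpos : 0 ≤ f (mk H m S _ (hvS j hj))
    · have := mul_nonneg hpos hA0
      linarith
    · push Not at hpos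
      set v := mk H m S _ (hvS j hj) with hv
      have h1 : ‖v - f v • y‖ ≤ R * ‖v‖ := RG_iff_bound f y v
      have h2 : ‖v‖ ≤ 1 + 2 / L := by
        rw [← Submodule.norm_coe]
        exact (emb_norm H m _ (by linarith)).mpr (hvN j)
      have h3 : ‖v - f v • y‖ ≤ R * (1 + 2 / L) :=
        h1.trans (mul_le_mul_of_nonneg_left h2 (by linarith))
      have hRL : 0 ≤ R * (1 + 2 / (L : ℝ)) := by
        apply mul_nonneg <;> linarith
      rw [← Submodule.norm_coe, pi_norm_le_iff_of_nonneg hRL] at h3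
      have h4 := h3 (Sum.inr (j, χ j, γ0))
      have h5 : ((v - f v • y : BS H m S) : Idx K m → ℝ) (Sum.inr (j, χ j, γ0)) =
          gl H (fun κ => vj L γ0 vs (z j) j (Function.update γ0 j κ)) (χ j) (γ0 j) -
          f v * gl H (fun κ => x (Function.update γ0 j κ)) (χ j) (γ0 j) := by
        have h6 : ((y : BS H m S) : Idx K m → ℝ) (Sum.inr (j, χ j, γ0)) =
            gl H (fun κ => x (Function.update γ0 j κ)) (χ j) (γ0 j) := by
          rw [← hxy]; rfl
        rw [← h6]
        rfl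
      have hline : (fun κ => vj L γ0 vs (z j) j (Function.update γ0 j κ)) = z j := by
        funext κ
        unfold vj
        simp only [Function.update_self]
        by_cases hκ : κ = γ0 j
        · rw [if_pos hκ, hκ, Function.update_eq_self, hz0]
        · rw [if_neg hκ, if_pos trivial]
      rw [h5, hline, hzg j, Real.norm_eq_abs] at h4
      have h7 : σ * (σ - f v * gl H (fun κ => x (Function.update γ0 j κ)) (χ j) (γ0 j)) ≤
          R * (1 + 2 / L) := by
        refine le_trans (le_abs_self _) ?_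
        rw [abs_mul]
        have : |σ| = 1 := by rcases hσ with h | h <;> rw [h] <;> norm_num
        rw [this, one_mul]
        exact h4
      have h8 := hχ j
      have h9 : σ * (σ - f v * gl H (fun κ => x (Function.update γ0 j κ)) (χ j) (γ0 j)) =
          1 - f v * (σ * gl H (fun κ => x (Function.update γ0 j κ)) (χ j) (γ0 j)) := by
        calc _ = σ * σ - f v * (σ * gl H (fun κ => x (Function.update γ0 j κ)) (χ j) (γ0 j)) := by
              ring
          _ = _ := by rw [hσσ]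
      rw [h9] at h7
      have h10 : -f v * A ≤
          -f v * (σ * gl H (fun κ => x (Function.update γ0 j κ)) (χ j) (γ0 j)) :=
        mul_le_mul_of_nonneg_left h8 (by linarith)
      linarith
  -- the sum of the modifications
  set W : (Fin m → K) → ℝ := fun γ => ∑ j ∈ J, (vj L γ0 vs (z j) j γ - vs γ) with hW
  have hWb : ∀ γ, |W γ| ≤ 2 * L := fun γ =>
    sum_vj hL γ0 hvsN.1 (fun j κ => (hzB j).1 κ) J γ
  have hWS : W ∈ ZS K m S := by
    intro γ hγ
    rw [hW]
    apply Finset.sum_eq_zero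
    intro j hj
    rw [hvS j hj γ hγ, hvsS γ hγ, sub_zero]
  have hWn : ‖mk H m S W hWS‖ ≤ 6 * L := by
    rw [← Submodule.norm_coe]
    refine (emb_norm H m W (by positivity)).mpr ?_
    refine ⟨fun γ => (hWb γ).trans (by linarith), fun j γ χ => ?_⟩
    have := gl_le hH (z := fun κ => W (Function.update γ j κ)) (c := 2 * L) (fun κ => hWb _)
      χ (γ j)
    linarith
  have hfW : f (mk H m S W hWS) ≤ ‖f‖ * (6 * L) :=
    (le_abs_self _).trans (((Real.norm_eq_abs _).symm.le.trans (f.le_opNorm _)).trans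
      (mul_le_mul_of_nonneg_left hWn hf0))
  have hfsum : f (mk H m S W hWS) =
      ∑ j ∈ J.attach, (f (mk H m S _ (hvS j.1 j.2)) - f (mk H m S vs hvsS)) := by
    have h1 : mk H m S W hWS =
        ∑ j ∈ J.attach, (mk H m S _ (hvS j.1 j.2) - mk H m S vs hvsS) := by
      apply Subtype.ext
      rw [AddSubmonoidClass.coe_finsetSum]
      have h2 : ∀ j : {x // x ∈ J}, ((mk H m S _ (hvS j.1 j.2) - mk H m S vs hvsS : BS H m S) :
          Idx K m → ℝ) = emb H m (fun γ => vj L γ0 vs (z j.1) j.1 γ - vs γ) := by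
        intro j
        have h3 : (fun γ => vj L γ0 vs (z j.1) j.1 γ - vs γ) = vj L γ0 vs (z j.1) j.1 - vs := rfl
        rw [h3, map_sub]
        rfl
      simp only [h2]
      rw [← map_sum]
      change emb H m W = _
      congr 1
      funext γ
      rw [Finset.sum_apply, hW]
      exact (Finset.sum_attach J (fun j => vj L γ0 vs (z j) j γ - vs γ)).symm
    rw [h1, map_sum]
    simp only [map_sub]
  -- lower bound for the sum
  have hlow : (J.card : ℝ) * (‖f‖ * A - Θ) ≤ f (mk H m S W hWS) * A := by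
    rw [hfsum, Finset.sum_mul]
    have h1 : ∑ j ∈ J.attach, (‖f‖ * A - Θ) ≤
        ∑ j ∈ J.attach, (f (mk H m S _ (hvS j.1 j.2)) - f (mk H m S vs hvsS)) * A := by
      apply Finset.sum_le_sum
      intro j _
      have h2 := heval j.1 j.2
      have h3 : ‖f‖ * A ≤ -f (mk H m S vs hvsS) * A :=
        mul_le_mul_of_nonneg_right (by linarith) hA0
      linarith
    rw [Finset.sum_const, Finset.card_attach, nsmul_eq_mul] at h1
    exact h1
  have hup : f (mk H m S W hWS) * A ≤ ‖f‖ * (6 * L) * A := mul_le_mul_of_nonneg_right hfW hA0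
  -- conclusion
  exact final_arith hLR hNR (by exact_mod_cast hJN) hk hf0 hs0 hsf hΘ0 (hlow.trans hup)

end Pool.Agent.Y81.Proj
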