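import Mathlib
import Pool.Agent.Y81.ProjAsym

/-!
Existence of the matrices, dimensions, and the asymptotic lower bound.
-/

namespace Pool.Agent.Y81.Proj

/-- the Walsh matrix -/
noncomputable def walsh (r : ℕ) (a b : Fin r → Bool) : ℝ :=
  ∏ i, (if a i = true ∧ b i = true then (-1 : ℝ) else 1)

theorem walsh_had (r : ℕ) (hr : 1 ≤ r) : Had (walsh r) where
  pm := by
    intro a b
    unfold walsh
    have : ∀ s : Finset (Fin r), (∏ i ∈ s, (if a i = true ∧ b i = true then (-1 : ℝ) else 1)) = 1 ∨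
        (∏ i ∈ s, (if a i = true ∧ b i = true then (-1 : ℝ) else 1)) = -1 := by
      intro s
      induction s using Finset.induction_on with
      | empty => left; simp
      | insert i s hi ih =>
        rw [Finset.prod_insert hi]
        rcases ih with h | h <;> rw [h] <;> split_ifs <;> norm_num
    exact this _
  orth := by
    intro a a'
    unfold walsh
    simp only [← Finset.prod_mul_distrib]
    have h1 := Finset.prod_univ_sum (ι := Fin r) (κ := fun _ => Bool) (R := ℝ)
      (fun _ => (Finset.univ : Finset Bool))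
      (fun i (b : Bool) => (if a i = true ∧ b = true then (-1 : ℝ) else 1) *
        (if a' i = true ∧ b = true then (-1 : ℝ) else 1))
    rw [Fintype.piFinset_univ] at h1
    rw [← h1]
    by_cases haa : a = a'
    · rw [if_pos haa, haa]
      have h2 : ∀ i, ∑ b : Bool, (if a' i = true ∧ b = true then (-1 : ℝ) else 1) *
        (if a' i = true ∧ b = true then (-1 : ℝ) else 1) = 2 := by
        intro i
        rw [Fintype.sum_bool]
        cases a' i <;> norm_num
      simp only [h2, Finset.prod_const, Finset.card_univ, Fintype.card_fin]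
      simp
    · rw [if_neg haa]
      obtain ⟨i, hi⟩ := Function.ne_iff.mp haa
      apply Finset.prod_eq_zero (Finset.mem_univ i)
      rw [Fintype.sum_bool]
      cases h3 : a i <;> cases h4 : a' i <;> simp_all
  symm := by
    intro a b
    unfold walsh
    apply Finset.prod_congr rfl
    intro i _
    simp only [and_comm]
  card := by
    rw [Fintype.card_fun, Fintype.card_fin, Fintype.card_bool]
    calc 2 = 2 ^ 1 := by norm_num
      _ ≤ 2 ^ r := Nat.pow_le_pow_right (by norm_num) hr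

variable {K : Type} [Fintype K] [DecidableEq K] {m : ℕ}

theorem BS_finrank (H : K → K → ℝ) (m : ℕ) (S : Set (Fin m → K)) :
    Module.finrank ℝ (BS H m S) = Module.finrank ℝ (ZS K m S) :=
  (Submodule.equivMapOfInjective (emb H m) (emb_inj H m) (ZS K m S)).finrank_eq.symm

theorem ZS_empty : Module.finrank ℝ (ZS K m ∅) = Fintype.card K ^ m := by
  have h : ZS K m ∅ = ⊤ := by
    rw [eq_top_iff]
    intro x _ γ hγ
    exact absurd hγ (Set.notMem_empty _)
  rw [h, finrank_top, Module.finrank_fintype_fun_eq_card, Fintype.card_fun, Fintype.card_fin]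

theorem ZS_single (γ1 : Fin m → K) :
    Module.finrank ℝ (ZS K m {γ1}) + 1 = Fintype.card K ^ m := by
  have h : ZS K m {γ1} = LinearMap.ker (LinearMap.proj (R := ℝ) (φ := fun _ => ℝ) γ1) := by
    ext x
    constructor
    · intro hx
      exact hx γ1 rfl
    · intro hx γ hγ
      rw [Set.mem_singleton_iff] at hγ
      rw [hγ]
      exact hx
  have hk := LinearMap.finrank_range_add_finrank_ker
    (LinearMap.proj (R := ℝ) (φ := fun _ : (Fin m → K) => ℝ) γ1)
  have hs : LinearMap.range (LinearMap.proj (R := ℝ) (φ := fun _ : (Fin m → K) => ℝ) γ1) = ⊤ := by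
    rw [LinearMap.range_eq_top]
    exact LinearMap.proj_surjective γ1
  rw [hs, finrank_top, Module.finrank_self, Module.finrank_fintype_fun_eq_card,
    Fintype.card_fun, Fintype.card_fin] at hk
  rw [h]
  omega

theorem dirs_single (γ1 : Fin (m + 1) → K) : ∀ γ0 ∉ ({γ1} : Set (Fin (m + 1) → K)),
    ∃ J : Finset (Fin (m + 1)), m ≤ J.card ∧
      ∀ j ∈ J, ∀ κ, Function.update γ0 j κ ∉ ({γ1} : Set (Fin (m + 1) → K)) := by
  intro γ0 h0
  rw [Set.mem_singleton_iff] at h0
  by_cases hex : ∃ j κ, Function.update γ0 j κ = γ1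
  · obtain ⟨j0, κ0, hj0⟩ := hex
    refine ⟨Finset.univ.erase j0, ?_, ?_⟩
    · rw [Finset.card_erase_of_mem (Finset.mem_univ _), Finset.card_univ, Fintype.card_fin]
      omega
    · intro j hj κ hcon
      rw [Set.mem_singleton_iff] at hcon
      have hne : j ≠ j0 := Finset.ne_of_mem_erase hj
      apply h0
      rw [← hj0]
      have h1 := congrFun hj0 j0
      have h2 := congrFun hcon j0
      rw [Function.update_self] at h1
      rw [Function.update_of_ne (Ne.symm hne)] at h2
      rw [h1, ← h2, Function.update_eq_self]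
  · push Not at hex
    refine ⟨Finset.univ, ?_, ?_⟩
    · rw [Finset.card_univ, Fintype.card_fin]; omega
    · intro j _ κ hcon
      exact hex j κ (Set.mem_singleton_iff.mp hcon)

theorem dirs_empty (m : ℕ) : ∀ γ0 ∉ (∅ : Set (Fin (m + 1) → K)),
    ∃ J : Finset (Fin (m + 1)), m ≤ J.card ∧
      ∀ j ∈ J, ∀ κ, Function.update γ0 j κ ∉ (∅ : Set (Fin (m + 1) → K)) := by
  intro γ0 _
  refine ⟨Finset.univ, ?_, ?_⟩
  · rw [Finset.card_univ, Fintype.card_fin]; omega
  · intro j _ κ
    exact Set.notMem_empty _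

/-- existence of a space of dimension `n` all of whose hyperplane projections have norm at
least `c` -/
def Good (c : ℝ) (n : ℕ) : Prop :=
  ∃ (X : Type) (_ : NormedAddCommGroup X) (_ : NormedSpace ℝ X),
    Module.finrank ℝ X = n ∧ RG X c

theorem Good.add {c : ℝ} {a b : ℕ} (ha : Good c a) (hb : Good c b) (ha1 : 1 ≤ a) (hb1 : 1 ≤ b) :
    Good c (a + b) := by
  obtain ⟨X, i1, i2, hX, hX2⟩ := ha
  obtain ⟨Y, j1, j2, hY, hY2⟩ := hb
  have : FiniteDimensional ℝ X := FiniteDimensional.of_finrank_pos (by omega)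
  have : FiniteDimensional ℝ Y := FiniteDimensional.of_finrank_pos (by omega)
  exact ⟨X × Y, inferInstance, inferInstance, by rw [Module.finrank_prod, hX, hY],
    RG_prod (by omega) (by omega) hX2 hY2⟩

theorem Good.mul {c : ℝ} {a : ℕ} (ha : Good c a) (ha1 : 1 ≤ a) (t : ℕ) (ht : 1 ≤ t) :
    Good c (t * a) := by
  induction t, ht using Nat.le_induction with
  | base => simpa using ha
  | succ t ht ih =>
    rw [Nat.succ_mul]
    exact ih.add ha (Nat.le_trans ha1 (Nat.le_mul_of_pos_left a ht)) ha1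

theorem Good.le_rho {c : ℝ} {n : ℕ} (h : Good c n) (hn : 0 < n) : c ≤ rho n := by
  obtain ⟨X, i1, i2, hX, hX2⟩ := h
  exact Proj.le_rho hn hX hX2

theorem Good.of_consecutive {c : ℝ} {a : ℕ} (ha : 1 ≤ a) (h1 : Good c a) (h2 : Good c (a + 1))
    (n : ℕ) (hn : a * a ≤ n) : Good c n := by
  -- n = a q + r, q ≥ a > r
  set q := n / a with hq
  set r := n % a with hr
  have hn' : a * q + r = n := Nat.div_add_mod n a
  have hr1 : r < a := Nat.mod_lt _ (by omega)
  have hq1 : a ≤ q := by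
    rw [hq]
    exact (Nat.le_div_iff_mul_le (by omega)).mpr hn
  have h3 : n = (q - r) * a + r * (a + 1) := by
    obtain ⟨d, hd⟩ : ∃ d, q = r + d := ⟨q - r, by omega⟩
    have : q - r = d := by omega
    rw [this, ← hn', hd]
    ring
  have h4 : Good c ((q - r) * a) := h1.mul ha (q - r) (by omega)
  rcases Nat.eq_zero_or_pos r with h0 | h0
  · rw [h3, h0]
    rw [h0] at h4
    simpa using h4
  · rw [h3]
    refine h4.add (h2.mul (by omega) r h0) ?_ ?_
    · exact Nat.mul_pos (by omega) ha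
    · exact Nat.mul_pos h0 (by omega)

theorem exists_params {c : ℝ} (hc : c < 4 / 3) : ∃ (r L N : ℕ), 1 ≤ r ∧ 1 ≤ L ∧ 1 ≤ N ∧
    c * (1 + 2 / L) ≤ 1 + (1 - 2 / ((2 ^ r : ℕ) : ℝ)) * (1 - 6 * L / N) / 3 := by
  set ε := 4 / 3 - c with hε
  have hε0 : 0 < ε := by linarith
  obtain ⟨L, hL⟩ := exists_nat_gt (8 / ε)
  obtain ⟨r, hr⟩ := exists_nat_gt (2 / ε)
  obtain ⟨N, hN⟩ := exists_nat_gt (6 * L / ε)
  have hL0 : (0 : ℝ) < L := lt_trans (by positivity) hL
  have hN0 : (0 : ℝ) < N := lt_of_le_of_lt (by positivity) hN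
  have hr0 : (0 : ℝ) < r := lt_trans (by positivity) hr
  have hk : (r : ℝ) ≤ ((2 ^ r : ℕ) : ℝ) := by exact_mod_cast Nat.lt_two_pow_self.le
  have hk0 : (0 : ℝ) < ((2 ^ r : ℕ) : ℝ) := lt_of_lt_of_le hr0 hk
  refine ⟨r, L, N, by exact_mod_cast hr0, by exact_mod_cast hL0, by exact_mod_cast hN0, ?_⟩
  have h1 : 2 / ((2 ^ r : ℕ) : ℝ) ≤ ε := by
    rw [div_le_iff₀ hk0]
    rw [div_lt_iff₀ hε0] at hr
    nlinarith
  have h2 : 6 * (L : ℝ) / N ≤ ε := by
    rw [div_le_iff₀ hN0]
    rw [div_lt_iff₀ hε0] at hN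
    nlinarith
  have h3 : 8 / (L : ℝ) ≤ ε := by
    rw [div_le_iff₀ hL0]
    rw [div_lt_iff₀ hε0] at hL
    nlinarith
  have h4 : 0 ≤ 2 / ((2 ^ r : ℕ) : ℝ) := by positivity
  have h5 : 0 ≤ 6 * (L : ℝ) / N := by positivity
  have h6 : (1 - 2 / ((2 ^ r : ℕ) : ℝ)) * (1 - 6 * L / N) ≥
      1 - 2 / ((2 ^ r : ℕ) : ℝ) - 6 * L / N := by nlinarith
  have h7 : c * (1 + 2 / (L : ℝ)) ≤ c + (8 / L) / 3 := by
    have h8 : c * (2 / (L : ℝ)) ≤ (4 / 3) * (2 / (L : ℝ)) :=
      mul_le_mul_of_nonneg_right hc.le (by positivity)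
    have h9 : (4 / 3) * (2 / (L : ℝ)) = (8 / L) / 3 := by ring
    linarith
  linarith

/-- every constant below four thirds is a lower bound for all large dimensions -/
theorem eventually_good {c : ℝ} (hc : c < 4 / 3) : ∃ n0 : ℕ, ∀ n, n0 ≤ n → Good c n := by
  obtain ⟨r, L, N, hr, hL, hN, hpar⟩ := exists_params hc
  have hH := walsh_had r hr
  have hcard : Fintype.card (Fin r → Bool) = 2 ^ r := by
    rw [Fintype.card_fun, Fintype.card_fin, Fintype.card_bool]
  have hk2 : 2 ≤ Fintype.card (Fin r → Bool) := hH.card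
  have hLR : (0 : ℝ) < L := by exact_mod_cast hL
  have key : ∀ S : Set (Fin (N + 1) → Fin r → Bool),
      (∀ γ0 ∉ S, ∃ J : Finset (Fin (N + 1)), N ≤ J.card ∧
        ∀ j ∈ J, ∀ κ, Function.update γ0 j κ ∉ S) →
      2 ≤ Module.finrank ℝ (BS (walsh r) (N + 1) S) → RG (BS (walsh r) (N + 1) S) c := by
    intro S hS hd f y hfy
    have h1 := main_ineq hH S N L hL hN hS f y hfy hd
    rw [hcard] at h1
    have h2 := hpar.trans h1
    exact le_of_mul_le_mul_right h2 (by positivity)
  obtain ⟨γ1⟩ : Nonempty (Fin (N + 1) → Fin r → Bool) := inferInstance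
  have hpow : 4 ≤ Fintype.card (Fin r → Bool) ^ (N + 1) := by
    calc 4 = 2 ^ 2 := by norm_num
      _ ≤ 2 ^ (N + 1) := Nat.pow_le_pow_right (by norm_num) (by omega)
      _ ≤ Fintype.card (Fin r → Bool) ^ (N + 1) := Nat.pow_le_pow_left hk2 _
  have e1 : Module.finrank ℝ (BS (walsh r) (N + 1) (∅ : Set (Fin (N + 1) → Fin r → Bool))) =
      Fintype.card (Fin r → Bool) ^ (N + 1) := by rw [BS_finrank, ZS_empty]
  have e2 : Module.finrank ℝ (BS (walsh r) (N + 1) ({γ1} : Set (Fin (N + 1) → Fin r → Bool))) + 1 =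
      Fintype.card (Fin r → Bool) ^ (N + 1) := by rw [BS_finrank, ZS_single]
  have g1 : Good c (Fintype.card (Fin r → Bool) ^ (N + 1)) :=
    ⟨_, inferInstance, inferInstance, e1, key ∅ (dirs_empty N) (by omega)⟩
  have g2 : Good c (Fintype.card (Fin r → Bool) ^ (N + 1) - 1) :=
    ⟨_, inferInstance, inferInstance, by omega, key {γ1} (dirs_single γ1) (by omega)⟩
  refine ⟨(Fintype.card (Fin r → Bool) ^ (N + 1) - 1) * (Fintype.card (Fin r → Bool) ^ (N + 1) - 1),
    fun n hn => ?_⟩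
  refine Good.of_consecutive (by omega) g2 ?_ n hn
  have : Fintype.card (Fin r → Bool) ^ (N + 1) - 1 + 1 = Fintype.card (Fin r → Bool) ^ (N + 1) := by
    omega
  rw [this]
  exact g1

end Pool.Agent.Y81.Proj
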