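import Mathlib
import Pool.Agent.Y81.ProjMu
import Pool.Agent.Y81.ProjCrit

/-!
The spaces of functions with the hierarchical family of star functionals.
-/

set_option linter.unusedSectionVars false

namespace Pool.Agent.Y81.Proj

variable {K M : Type} [Fintype K] [DecidableEq K] [Fintype M] [DecidableEq M] {m : ℕ}

/-- index set of the star functionals at a point -/
abbrev Ix (K : Type) (m : ℕ) : Type := K × Fin (m + 1) × (Fin m → K) × K

/-- the star functionals -/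
noncomputable def gf (H : K → K → ℝ) (τ : M → M) (p : Ix K m) (x : (Sx K m → M) → ℝ)
    (a : Sx K m → M) : ℝ :=
  G τ (wt m p.2.1) (mu H p.1 p.2.1 p.2.2.1 p.2.2.2) x a

theorem G_add {S : Type} [Fintype S] [DecidableEq S] (τ : M → M) (w : ℝ) (μ : S → ℝ)
    (x y : (S → M) → ℝ) (a : S → M) : G τ w μ (x + y) a = G τ w μ x a + G τ w μ y a := by
  unfold G
  simp only [Pi.add_apply, mul_add, Finset.sum_add_distrib]
  ring

theorem G_smul {S : Type} [Fintype S] [DecidableEq S] (τ : M → M) (w : ℝ) (μ : S → ℝ)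
    (c : ℝ) (x : (S → M) → ℝ) (a : S → M) : G τ w μ (c • x) a = c * G τ w μ x a := by
  unfold G
  simp only [Pi.smul_apply, smul_eq_mul]
  have h1 : ∑ u, μ u * (c * x (st τ a u)) = c * ∑ u, μ u * x (st τ a u) := by
    rw [Finset.mul_sum]
    apply Finset.sum_congr rfl
    intro u _
    ring
  rw [h1]
  ring

/-- the embedding into the space of all values of the functionals -/
noncomputable def emb2 (H : K → K → ℝ) (τ : M → M) (m : ℕ) : ((Sx K m → M) → ℝ) →ₗ[ℝ]
    ((Sx K m → M) ⊕ (Ix K m × (Sx K m → M)) → ℝ) where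
  toFun x := Sum.elim x (fun p => gf H τ p.1 x p.2)
  map_add' x y := by
    funext i
    cases i with
    | inl a => rfl
    | inr p => exact G_add _ _ _ _ _ _
  map_smul' c x := by
    funext i
    cases i with
    | inl a => rfl
    | inr p => exact G_smul _ _ _ _ _ _

theorem emb2_norm (H : K → K → ℝ) (τ : M → M) (x : (Sx K m → M) → ℝ) {c : ℝ} (hc : 0 ≤ c) :
    ‖emb2 H τ m x‖ ≤ c ↔ (∀ a, |x a| ≤ c) ∧ ∀ p a, |gf H τ p x a| ≤ c := by
  rw [pi_norm_le_iff_of_nonneg hc]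
  constructor
  · intro h
    exact ⟨fun a => h (Sum.inl a), fun p a => h (Sum.inr (p, a))⟩
  · intro h i
    cases i with
    | inl a => exact h.1 a
    | inr p => exact h.2 p.1 p.2

/-- the space -/
noncomputable abbrev TS (H : K → K → ℝ) (τ : M → M) (m : ℕ) :
    Submodule ℝ ((Sx K m → M) ⊕ (Ix K m × (Sx K m → M)) → ℝ) := LinearMap.range (emb2 H τ m)

/-- the vector given by a function -/
noncomputable def mk2 (H : K → K → ℝ) (τ : M → M) (m : ℕ) (x : (Sx K m → M) → ℝ) : TS H τ m :=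
  ⟨emb2 H τ m x, ⟨x, rfl⟩⟩

/-- coordinate functional -/
noncomputable def cfun (H : K → K → ℝ) (τ : M → M) (m : ℕ)
    (i : (Sx K m → M) ⊕ (Ix K m × (Sx K m → M))) : TS H τ m →L[ℝ] ℝ :=
  (ContinuousLinearMap.proj i).comp (TS H τ m).subtypeL

theorem cfun_le (H : K → K → ℝ) (τ : M → M) (m : ℕ)
    (i : (Sx K m → M) ⊕ (Ix K m × (Sx K m → M))) (z : TS H τ m) : cfun H τ m i z ≤ ‖z‖ := by
  have h1 : cfun H τ m i z = (z : (Sx K m → M) ⊕ (Ix K m × (Sx K m → M)) → ℝ) i := rfl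
  rw [h1]
  refine (le_abs_self _).trans ?_
  rw [← Real.norm_eq_abs, ← Submodule.norm_coe]
  exact norm_le_pi_norm _ i

theorem abs_sum_mu_le {H : K → K → ℝ} (hH : Had H) (j : K) {i : ℕ} (hi : i ≤ m)
    (s : Fin m → K) (χ : K) {z : Sx K m → ℝ} {b : ℝ} (hz : ∀ u, |z u| ≤ b) :
    |∑ u, mu H j i s χ u * z u| ≤ b := by
  refine (Finset.abs_sum_le_sum_abs _ _).trans ?_
  calc ∑ u, |mu H j i s χ u * z u| ≤ ∑ u, |mu H j i s χ u| * b := by
        apply Finset.sum_le_sum
        intro u _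
        rw [abs_mul]
        exact mul_le_mul_of_nonneg_left (hz u) (abs_nonneg _)
    _ = b := by rw [← Finset.sum_mul, sum_abs_mu hH j hi, one_mul]

theorem gf_le {H : K → K → ℝ} (hH : Had H) (τ : M → M) {x : (Sx K m → M) → ℝ} {b : ℝ}
    (hx : ∀ a, |x a| ≤ b) (p : Ix K m) (a : Sx K m → M) :
    |gf H τ p x a| ≤ 3 * b := by
  have hi : p.2.1.val ≤ m := by
    have := p.2.1.2
    omega
  unfold gf G
  have hw0 := wt_nonneg hi
  have hw1 := wt_le_one (m := m) p.2.1.val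
  have h1 := abs_sum_mu_le hH p.1 hi p.2.2.1 p.2.2.2 (z := fun u => x (st τ a u)) (b := b)
    (fun u => hx _)
  refine (abs_add_le _ _).trans ?_
  rw [abs_mul, abs_mul, abs_of_nonneg hw0, abs_of_nonneg (by linarith : (0 : ℝ) ≤ 1 + wt m p.2.1)]
  have h2 : wt m p.2.1 * |x a| ≤ 1 * b := mul_le_mul hw1 (hx a) (abs_nonneg _) zero_le_one
  have h3 := mul_le_mul (by linarith : 1 + wt m p.2.1 ≤ 2) h1 (abs_nonneg _) zero_le_two
  linarith

theorem norm_mk2_le {H : K → K → ℝ} (hH : Had H) (τ : M → M) {x : (Sx K m → M) → ℝ} {b : ℝ}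
    (hb : 0 ≤ b) (hx : ∀ a, |x a| ≤ b) : ‖mk2 H τ m x‖ ≤ 3 * b := by
  rw [← Submodule.norm_coe]
  exact (emb2_norm H τ x (by linarith)).mpr
    ⟨fun a => (hx a).trans (by linarith), fun p a => gf_le hH τ hx p a⟩

/-- the number of modified blocks at a point is bounded -/
theorem sum_ind_le {S ι : Type} [Fintype S] [DecidableEq S] [Fintype ι] (L : ℕ)
    (B : ι → S → Prop) (ψ : S → ι) (hψ : ∀ l u, B l u → ψ u = l) (a p : S → M)
    [∀ l, Decidable (Dm (B l) a p ∧ dif a p ≤ L)] :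
    ∑ l, (if Dm (B l) a p ∧ dif a p ≤ L then (2 : ℝ) else 0) ≤ 2 * L := by
  classical
  by_cases hL : dif a p ≤ L
  · rw [← Finset.sum_filter, Finset.sum_const, nsmul_eq_mul]
    have h1 : (Finset.univ.filter fun l => Dm (B l) a p ∧ dif a p ≤ L) ⊆
        (Finset.univ.filter fun u => p u ≠ a u).image ψ := by
      intro l hl
      rw [Finset.mem_filter] at hl
      obtain ⟨u, hu, hne⟩ := hl.2.1
      rw [Finset.mem_image]
      exact ⟨u, by simpa using hne, hψ l u hu⟩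
    have h2 : (Finset.univ.filter fun l => Dm (B l) a p ∧ dif a p ≤ L).card ≤ L :=
      (Finset.card_le_card h1).trans (Finset.card_image_le.trans hL)
    have h3 : ((Finset.univ.filter fun l => Dm (B l) a p ∧ dif a p ≤ L).card : ℝ) ≤ L := by
      exact_mod_cast h2
    linarith
  · have : ∀ l, (if Dm (B l) a p ∧ dif a p ≤ L then (2 : ℝ) else 0) = 0 := by
      intro l
      rw [if_neg]
      intro h
      exact hL h.2
    simp only [this, Finset.sum_const_zero]
    positivity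

/-- a family of star functionals with disjoint blocks -/
theorem flex_family {H : K → K → ℝ} (hH : Had H) {τ : M → M} (hτ : ∀ x, τ x ≠ x) {L : ℕ}
    (hL : 1 ≤ L) {ι : Type} [Fintype ι] (p : ι → Ix K m) (ψ : Sx K m → ι)
    (hψ : ∀ l u, Bk (p l).1 (p l).2.1 (p l).2.2.1 u → ψ u = l) (a : Sx K m → M) {N : ℕ}
    (hN : N ≤ Fintype.card ι) {η : ℝ} (x : (Sx K m → M) → ℝ)
    (hsum : (Fintype.card ι : ℝ) * (1 - η) * ‖mk2 H τ m x‖ ≤ ∑ l, gf H τ (p l) x a) :
    Flex (TS H τ m) N η (2 / L + 4 * (L + 1) * (1 / (Fintype.card K : ℝ))) (6 * L)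
      (mk2 H τ m x) := by
  classical
  have hk := hH.kpos
  have hk0 : (0 : ℝ) < (Fintype.card K : ℝ) := by linarith
  have hδ : (0 : ℝ) ≤ 1 / (Fintype.card K : ℝ) := by positivity
  refine ⟨ι, inferInstance, fun l => cfun H τ m (Sum.inr (p l, a)), hN,
    fun l z => cfun_le _ _ _ _ _, hsum, ?_⟩
  intro v hv
  obtain ⟨v0, hv0⟩ : ∃ v0, emb2 H τ m v0 = v := v.2
  have hvmk : v = mk2 H τ m v0 := Subtype.ext hv0.symm
  have hvn : ‖emb2 H τ m v0‖ ≤ 1 := by
    rw [hv0]
    exact hv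
  obtain ⟨hv1, hv2⟩ := (emb2_norm H τ v0 zero_le_one).mp hvn
  have hil : ∀ l, (p l).2.1.val ≤ m := by
    intro l
    have := (p l).2.1.2
    omega
  have hχ : ∀ (χ : K) (u : Sx K m), |ch H χ u| ≤ 1 := fun χ u => (hH.abs _ _).le
  set c : ι → ℝ := fun l => (1 - wt m (p l).2.1 * v0 a) / (1 + wt m (p l).2.1) with hc
  have hcb : ∀ l, 0 ≤ c l ∧ c l ≤ 1 := fun l =>
    c_bounds (wt_nonneg (hil l)) (wt_le_one _) (hv1 a)
  set V : ι → (Sx K m → M) → ℝ := fun l =>
    vm τ L (Bk (p l).1 (p l).2.1 (p l).2.2.1) (c l) (ch H (p l).2.2.2) a v0 with hV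
  refine ⟨fun l => mk2 H τ m (V l), ?_, ?_, ?_⟩
  · intro l
    have hε : (0 : ℝ) ≤ 2 / L + 4 * (L + 1) * (1 / (Fintype.card K : ℝ)) := by positivity
    rw [← Submodule.norm_coe]
    refine (emb2_norm H τ (V l) (by linarith)).mpr ⟨?_, ?_⟩
    · intro q
      have := abs_vm_le hτ hL (hcb l).1 (hcb l).2 (hχ (p l).2.2.2) hv1
        (B := Bk (p l).1 (p l).2.1 (p l).2.2.1) (a := a) q
      exact this.trans (by linarith)
    · intro r q
      have hir : r.2.1.val ≤ m := by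
        have := r.2.1.2
        omega
      have := vm_G_le hτ hL (hχ (p l).2.2.2) hv1 (wt_nonneg (hil l)) (wt_le_one (p l).2.1.val)
        (wt_nonneg hir) (wt_le_one r.2.1.val) hδ (abs_mu_le hH r.1 hir r.2.2.1 r.2.2.2)
        (compat_mu hH r.1 (p l).1 hir (hil l) r.2.2.1 (p l).2.2.1 r.2.2.2 (p l).2.2.2)
        (τ := τ) (a := a) q (hv2 r q)
      rw [← add_assoc]
      exact this
  · intro l
    have h1 : cfun H τ m (Sum.inr (p l, a)) (mk2 H τ m (V l)) = gf H τ (p l) (V l) a := rfl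
    rw [h1]
    have h2 : gf H τ (p l) (V l) a = 1 :=
      vm_flex hτ (wt_nonneg (hil l)) (fun u hu => mu_support hu)
        (by rw [sum_mu_ch hH _ (hil l), if_pos rfl])
    rw [h2]
  · intro θ hθ
    have h1 : ∑ l, θ l • (mk2 H τ m (V l) - v) =
        mk2 H τ m (∑ l, θ l • (V l - v0)) := by
      rw [hvmk]
      apply Subtype.ext
      rw [AddSubmonoidClass.coe_finsetSum]
      change ∑ l, θ l • (emb2 H τ m (V l) - emb2 H τ m v0) = emb2 H τ m (∑ l, θ l • (V l - v0))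
      rw [map_sum]
      apply Finset.sum_congr rfl
      intro l _
      rw [map_smul, map_sub]
    rw [h1]
    have h2 : ‖mk2 H τ m (∑ l, θ l • (V l - v0))‖ ≤ 3 * (2 * L) := by
      apply norm_mk2_le hH τ (by positivity)
      intro q
      rw [Finset.sum_apply]
      refine (Finset.abs_sum_le_sum_abs _ _).trans ?_
      refine le_trans ?_ (sum_ind_le L (fun l => Bk (p l).1 (p l).2.1 (p l).2.2.1) ψ hψ a q)
      apply Finset.sum_le_sum
      intro l _
      rw [Pi.smul_apply, smul_eq_mul, abs_mul, Pi.sub_apply]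
      have h3 := abs_vm_sub_le hτ hL (hcb l).1 (hcb l).2 (hχ (p l).2.2.2) hv1
        (B := Bk (p l).1 (p l).2.1 (p l).2.2.1) (a := a) q
      exact (mul_le_of_le_one_left (abs_nonneg _) (hθ l)).trans h3
    linarith

theorem emb2_inj (H : K → K → ℝ) (τ : M → M) (m : ℕ) : Function.Injective (emb2 H τ m) := by
  intro x y h
  funext a
  exact congrFun h (Sum.inl a)

theorem TS_finrank (H : K → K → ℝ) (τ : M → M) (m : ℕ) :
    Module.finrank ℝ (TS H τ m) = Fintype.card M ^ Fintype.card (Sx K m) := by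
  have h1 : Module.finrank ℝ (LinearMap.range (emb2 H τ m)) =
      Module.finrank ℝ ((Sx K m → M) → ℝ) := LinearMap.finrank_range_of_inj (emb2_inj H τ m)
  change Module.finrank ℝ (LinearMap.range (emb2 H τ m)) = _
  rw [h1, Module.finrank_fintype_fun_eq_card, Fintype.card_fun]

/-- values of a vector are at most its norm -/
theorem abs_le_norm (H : K → K → ℝ) (τ : M → M) (x : (Sx K m → M) → ℝ) (a : Sx K m → M) :
    |x a| ≤ ‖mk2 H τ m x‖ :=
  ((emb2_norm H τ x (norm_nonneg _)).mp le_rfl).1 a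

theorem flex_point {H : K → K → ℝ} (hH : Had H) {τ : M → M} (hτ : ∀ x, τ x ≠ x) {L : ℕ}
    (hL : 1 ≤ L) (hm : 1 ≤ m) {θ η : ℝ} (hθ : 0 ≤ θ) (hθq : 1 < θ ^ 2 * (Fintype.card K : ℝ))
    (hη : 2 * θ ≤ η) (x : (Sx K m → M) → ℝ) (a : Sx K m → M) (ha : ‖mk2 H τ m x‖ ≤ x a) :
    Flex (TS H τ m) (Fintype.card K) η (2 / L + 4 * (L + 1) * (1 / (Fintype.card K : ℝ)))
      (6 * L) (mk2 H τ m x) := by
  have hk := hH.kpos
  have hk0 : (0 : ℝ) < (Fintype.card K : ℝ) := by linarith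
  set Y := ‖mk2 H τ m x‖ with hY
  have hY0 : 0 ≤ Y := norm_nonneg _
  have hpat : ∀ j : K, ∃ χ, -(θ * Y) ≤ ∑ u, mu H j 0 (fun _ : Fin m => j) χ u * x (st τ a u) :=
    fun j => exists_pattern hH j (fun _ => j) (fun u => x (st τ a u)) hY0
      (fun u => abs_le_norm H τ x _) hθ hθq
  choose χ hχ using hpat
  refine flex_family hH hτ hL (fun j : K => (j, ⟨0, by omega⟩, fun _ => j, χ j))
    (fun u => u.1) (fun l u h => h.1) a le_rfl x ?_
  have h1 : ∀ j : K, (1 - η) * Y ≤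
      gf H τ ((j, ⟨0, by omega⟩, fun _ => j, χ j) : Ix K m) x a := by
    intro j
    unfold gf G
    have hw : wt m 0 = 1 := by
      unfold wt
      simp
    simp only [hw]
    have h2 := hχ j
    have h3 : 2 * θ * Y ≤ η * Y := mul_le_mul_of_nonneg_right hη hY0
    linarith
  calc (Fintype.card K : ℝ) * (1 - η) * Y = ∑ j : K, (1 - η) * Y := by
        rw [Finset.sum_const, Finset.card_univ, nsmul_eq_mul, mul_assoc]
    _ ≤ _ := Finset.sum_le_sum fun j _ => h1 j

theorem flex_line {H : K → K → ℝ} (hH : Had H) {τ : M → M} (hτ : ∀ x, τ x ≠ x) {L : ℕ}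
    (hL : 1 ≤ L) (hm : 1 ≤ m) {η : ℝ} (hη : 2 / (m : ℝ) ≤ η) (x : (Sx K m → M) → ℝ)
    (p : Ix K m) (hp : p.2.1.val < m) (a : Sx K m → M) (ha : ‖mk2 H τ m x‖ ≤ gf H τ p x a) :
    Flex (TS H τ m) (Fintype.card K) η (2 / L + 4 * (L + 1) * (1 / (Fintype.card K : ℝ)))
      (6 * L) (mk2 H τ m x) := by
  obtain ⟨j, ⟨i, hi⟩, s, χ⟩ := p
  have hp' : i < m := hp
  have hk := hH.kpos
  have hk0 : (0 : ℝ) < (Fintype.card K : ℝ) := by linarith
  have hm0 : (0 : ℝ) < m := by exact_mod_cast hm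
  set Y := ‖mk2 H τ m x‖ with hY
  have hY0 : 0 ≤ Y := norm_nonneg _
  refine flex_family hH hτ hL
    (fun κ : K => (j, ⟨i + 1, by omega⟩, Function.update s ⟨i, hp'⟩ κ, χ))
    (fun u => u.2.1 ⟨i, hp'⟩) ?_ a le_rfl x ?_
  · intro l u h
    have h1 := h.2 ⟨i, hp'⟩ (by simp)
    simp only [Function.update_self] at h1
    exact h1
  · unfold gf G at ha ⊢
    simp only at ha ⊢
    set h := ∑ u, mu H j i s χ u * x (st τ a u) with hh
    have h1 : |h| ≤ Y := abs_sum_mu_le hH j (by omega) s χ (fun u => abs_le_norm H τ x _)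
    have h2 : |x a| ≤ Y := abs_le_norm H τ x a
    have h3 : ∑ κ : K, (wt m (i + 1) * x a + (1 + wt m (i + 1)) *
        ∑ u, mu H j (i + 1) (Function.update s ⟨i, hp'⟩ κ) χ u * x (st τ a u)) =
        (Fintype.card K : ℝ) * (wt m (i + 1) * x a + (1 + wt m (i + 1)) * h) := by
      rw [Finset.sum_add_distrib, Finset.sum_const, Finset.card_univ, nsmul_eq_mul,
        ← Finset.mul_sum, Finset.sum_comm]
      have h4 : ∑ u, ∑ κ, mu H j (i + 1) (Function.update s ⟨i, hp'⟩ κ) χ u * x (st τ a u) =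
          (Fintype.card K : ℝ) * h := by
        rw [hh, Finset.mul_sum]
        apply Finset.sum_congr rfl
        intro u _
        rw [← Finset.sum_mul, sum_mu_succ, mul_assoc]
      rw [h4]
      ring
    rw [h3]
    have h5 : wt m (i + 1) = wt m i - 1 / m := by
      unfold wt
      push_cast
      ring
    rw [h5, mul_assoc]
    apply mul_le_mul_of_nonneg_left _ hk0.le
    have h6 : 1 / (m : ℝ) * (x a + h) ≤ 1 / (m : ℝ) * (2 * Y) := by
      apply mul_le_mul_of_nonneg_left _ (by positivity)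
      linarith [(abs_le.mp h1).2, (abs_le.mp h2).2]
    have h7 : 2 / (m : ℝ) * Y ≤ η * Y := mul_le_mul_of_nonneg_right hη hY0
    have h8 : 1 / (m : ℝ) * (2 * Y) = 2 / (m : ℝ) * Y := by ring
    have h9 : (wt m i - 1 / (m : ℝ)) * x a + (1 + (wt m i - 1 / (m : ℝ))) * h =
        (wt m i * x a + (1 + wt m i) * h) - 1 / (m : ℝ) * (x a + h) := by ring
    rw [h9]
    linarith

theorem mk2_neg (H : K → K → ℝ) (τ : M → M) (x : (Sx K m → M) → ℝ) :
    mk2 H τ m (-x) = -mk2 H τ m x := by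
  apply Subtype.ext
  exact map_neg (emb2 H τ m) x

theorem gf_neg (H : K → K → ℝ) (τ : M → M) (p : Ix K m) (x : (Sx K m → M) → ℝ)
    (a : Sx K m → M) : gf H τ p (-x) a = -gf H τ p x a := by
  have h : (-x) = (-1 : ℝ) • x := by simp
  unfold gf
  rw [h, G_smul]
  ring

theorem flex_all [Nonempty M] {H : K → K → ℝ} (hH : Had H) {τ : M → M} (hτ : ∀ x, τ x ≠ x)
    {L : ℕ} (hL : 1 ≤ L) (hm : 1 ≤ m) {θ η : ℝ} (hθ : 0 ≤ θ)
    (hθq : 1 < θ ^ 2 * (Fintype.card K : ℝ)) (hη : 2 * θ ≤ η) (hη2 : 2 / (m : ℝ) ≤ η)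
    (y : TS H τ m) :
    Flex (TS H τ m) (Fintype.card K) η (2 / L + 4 * (L + 1) * (1 / (Fintype.card K : ℝ)))
      (6 * L) y := by
  obtain ⟨x, hx⟩ : ∃ x, emb2 H τ m x = y := y.2
  have hy : y = mk2 H τ m x := Subtype.ext hx.symm
  rw [hy]
  have hne : (Finset.univ : Finset (Sx K m → M)).Nonempty := Finset.univ_nonempty
  obtain ⟨a0, _, ha0⟩ := Finset.exists_max_image Finset.univ (fun a => |x a|) hne
  by_cases h1 : ‖mk2 H τ m x‖ ≤ |x a0|
  · rcases le_total 0 (x a0) with h | h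
    · rw [abs_of_nonneg h] at h1
      exact flex_point hH hτ hL hm hθ hθq hη x a0 h1
    · rw [abs_of_nonpos h] at h1
      apply Flex.of_neg
      rw [← mk2_neg]
      apply flex_point hH hτ hL hm hθ hθq hη (-x) a0
      rw [mk2_neg, norm_neg]
      exact h1
  · push Not at h1
    have hYpos : 0 < ‖mk2 H τ m x‖ := lt_of_le_of_lt (abs_nonneg _) h1
    obtain ⟨p, a, hpa⟩ : ∃ p a, ‖mk2 H τ m x‖ ≤ |gf H τ p x a| := by
      by_contra hcon
      push Not at hcon
      have h2 : ‖emb2 H τ m x‖ < ‖mk2 H τ m x‖ := by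
        rw [pi_norm_lt_iff hYpos]
        intro i
        cases i with
        | inl a => exact lt_of_le_of_lt (ha0 a (Finset.mem_univ _)) h1
        | inr q => exact hcon q.1 q.2
      exact lt_irrefl _ h2
    have hp : p.2.1.val < m := by
      by_contra hcon
      have him : p.2.1.val = m := by
        have := p.2.1.2
        omega
      have hw : wt m p.2.1.val = 0 := by
        rw [him]
        unfold wt
        have : (m : ℝ) ≠ 0 := by
          have : (0 : ℝ) < m := by exact_mod_cast hm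
          exact this.ne'
        field_simp
        ring
      have h3 : |gf H τ p x a| ≤ |x a0| := by
        unfold gf G
        rw [hw, zero_mul, zero_add, add_zero, one_mul]
        exact abs_sum_mu_le hH p.1 him.le p.2.2.1 p.2.2.2
          (fun u => ha0 _ (Finset.mem_univ _))
      linarith
    rcases le_total 0 (gf H τ p x a) with h | h
    · rw [abs_of_nonneg h] at hpa
      exact flex_line hH hτ hL hm hη2 x p hp a hpa
    · rw [abs_of_nonpos h] at hpa
      apply Flex.of_neg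
      rw [← mk2_neg]
      apply flex_line hH hτ hL hm hη2 (-x) p hp a
      rw [mk2_neg, norm_neg, gf_neg]
      exact hpa

theorem TS_RG [Nonempty M] {H : K → K → ℝ} (hH : Had H) {τ : M → M} (hτ : ∀ x, τ x ≠ x)
    {L : ℕ} (hL : 1 ≤ L) (hm : 1 ≤ m) {θ η : ℝ} (hθ : 0 ≤ θ)
    (hθq : 1 < θ ^ 2 * (Fintype.card K : ℝ)) (hη : 2 * θ ≤ η) (hη2 : 2 / (m : ℝ) ≤ η)
    (hη1 : η ≤ 1) (hC : 6 * (L : ℝ) ≤ (Fintype.card K : ℝ) * (1 - η)) :
    RG (TS H τ m) ((2 - η - 6 * L / (Fintype.card K : ℝ)) /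
      (1 + (2 / L + 4 * (L + 1) * (1 / (Fintype.card K : ℝ))))) := by
  have hk := hH.card
  have hpos : 0 < Module.finrank ℝ (TS H τ m) := by
    rw [TS_finrank]
    exact Nat.pow_pos Fintype.card_pos
  exact RG_of_flex hpos (by omega) (by positivity) (by positivity) hC hη1
    (flex_all hH hτ hL hm hθ hθq hη hη2)

end Pool.Agent.Y81.Proj
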