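import Mathlib
import Pool.Agent.Y81.ProjTwo
import Pool.Agent.Y81.ProjLim

/-!
The minimal hyperplane projection constants tend to two.
-/

namespace Pool.Agent.Y81.Proj

theorem Good.lin {c : ℝ} {a b : ℕ} (ha : Good c a) (hb : Good c b) (ha1 : 1 ≤ a) (hb1 : 1 ≤ b)
    (i j : ℕ) (h : 0 < i * a + j * b) : Good c (i * a + j * b) := by
  rcases Nat.eq_zero_or_pos i with hi | hi
  · rcases Nat.eq_zero_or_pos j with hj | hj
    · rw [hi, hj] at h
      simp at h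
    · rw [hi, Nat.zero_mul, Nat.zero_add]
      exact hb.mul hb1 j hj
  · rcases Nat.eq_zero_or_pos j with hj | hj
    · rw [hj, Nat.zero_mul, Nat.add_zero]
      exact ha.mul ha1 i hi
    · exact (ha.mul ha1 i hi).add (hb.mul hb1 j hj) (Nat.mul_pos hi ha1) (Nat.mul_pos hj hb1)

theorem Good.of_coprime {c : ℝ} {a b : ℕ} (ha : Good c a) (hb : Good c b) (ha1 : 1 < a)
    (hb1 : 1 < b) (hab : Nat.Coprime a b) (n : ℕ) (hn : a * b ≤ n) : Good c n := by
  have h := frobeniusNumber_pair hab ha1 hb1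
  have hmem : n ∈ AddSubmonoid.closure ({a, b} : Set ℕ) := by
    by_contra hcon
    have h1 : n ≤ a * b - a - b := h.2 hcon
    have h2 : 0 < a * b := Nat.mul_pos (by omega) (by omega)
    omega
  rw [AddSubmonoid.mem_closure_pair] at hmem
  obtain ⟨i, j, hij⟩ := hmem
  simp only [smul_eq_mul] at hij
  rw [← hij]
  apply ha.lin hb (by omega) (by omega)
  have h2 : 0 < a * b := Nat.mul_pos (by omega) (by omega)
  omega

/-- choice of the parameters -/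
theorem exists_params2 {c : ℝ} (hc : c < 2) : ∃ (r L m : ℕ) (θ η : ℝ), 1 ≤ r ∧ 1 ≤ L ∧ 1 ≤ m ∧
    0 ≤ θ ∧ 1 < θ ^ 2 * ((2 ^ r : ℕ) : ℝ) ∧ 2 * θ ≤ η ∧ 2 / (m : ℝ) ≤ η ∧ η ≤ 1 ∧
    6 * (L : ℝ) ≤ ((2 ^ r : ℕ) : ℝ) * (1 - η) ∧
    c ≤ (2 - η - 6 * L / ((2 ^ r : ℕ) : ℝ)) /
      (1 + (2 / L + 4 * (L + 1) * (1 / ((2 ^ r : ℕ) : ℝ)))) := by
  obtain ⟨e, he0, he1, he2⟩ : ∃ e : ℝ, 0 < e ∧ e ≤ 1 / 10 ∧ 6 * e ≤ 2 - c := by
    refine ⟨min (1 / 10) ((2 - c) / 6), ?_, min_le_left _ _, ?_⟩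
    · apply lt_min (by norm_num)
      linarith
    · have := min_le_right (1 / 10) ((2 - c) / 6)
      linarith
  obtain ⟨L, hL⟩ := exists_nat_gt (2 / e)
  have hLR : (0 : ℝ) < L := lt_trans (by positivity) hL
  have hL1 : 1 ≤ L := by
    have : (0 : ℕ) < L := by exact_mod_cast hLR
    omega
  have h2L : 2 / (L : ℝ) ≤ e := by
    rw [div_lt_iff₀ he0] at hL
    rw [div_le_iff₀ hLR]
    linarith
  obtain ⟨q0, hq0⟩ := exists_nat_gt (max (4 / e ^ 2) (8 * (L + 1) / e))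
  have hq1 : (4 / e ^ 2 : ℝ) < q0 := lt_of_le_of_lt (le_max_left _ _) hq0
  have hq2 : (8 * (L + 1) / e : ℝ) < q0 := lt_of_le_of_lt (le_max_right _ _) hq0
  have hqq : (q0 : ℝ) < ((2 ^ (q0 + 1) : ℕ) : ℝ) := by
    have : q0 < 2 ^ (q0 + 1) :=
      lt_trans Nat.lt_two_pow_self (Nat.pow_lt_pow_right (by norm_num) (by omega))
    exact_mod_cast this
  generalize hQ : ((2 ^ (q0 + 1) : ℕ) : ℝ) = Q at hqq
  have hQ1 : 4 / e ^ 2 < Q := hq1.trans hqq
  have hQ2 : 8 * (L + 1) / e < Q := hq2.trans hqq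
  have hQ0 : 0 < Q := lt_trans (by positivity) hQ1
  have h3 : 4 < Q * e ^ 2 := by rwa [div_lt_iff₀ (by positivity)] at hQ1
  have h4 : 8 * ((L : ℝ) + 1) < Q * e := by rwa [div_lt_iff₀ he0] at hQ2
  refine ⟨q0 + 1, L, L, e / 2, e, by omega, hL1, hL1, by positivity, ?_, by linarith, h2L,
    by linarith, ?_, ?_⟩
  · rw [hQ]
    have : (e / 2) ^ 2 * Q = (Q * e ^ 2) / 4 := by ring
    rw [this]
    linarith
  · rw [hQ]
    nlinarith
  · rw [hQ]
    have h5 : 6 * (L : ℝ) / Q ≤ e := by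
      rw [div_le_iff₀ hQ0]
      linarith
    have h6 : 4 * ((L : ℝ) + 1) * (1 / Q) ≤ e := by
      rw [mul_one_div, div_le_iff₀ hQ0]
      linarith
    have h7 : 0 ≤ 4 * ((L : ℝ) + 1) * (1 / Q) := by positivity
    have h8 : 0 ≤ 2 / (L : ℝ) := by positivity
    rw [le_div_iff₀ (by linarith)]
    generalize hs : 2 / (L : ℝ) + 4 * ((L : ℝ) + 1) * (1 / Q) = s
    have hs0 : 0 ≤ s := by rw [← hs]; linarith
    have hs1 : s ≤ 2 * e := by rw [← hs]; linarith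
    nlinarith

theorem TS_good {K M : Type} [Fintype K] [DecidableEq K] [Fintype M] [DecidableEq M] [Nonempty M]
    {m : ℕ} {H : K → K → ℝ} (hH : Had H) {τ : M → M} (hτ : ∀ x, τ x ≠ x)
    {L : ℕ} (hL : 1 ≤ L) (hm : 1 ≤ m) {θ η : ℝ} (hθ : 0 ≤ θ)
    (hθq : 1 < θ ^ 2 * (Fintype.card K : ℝ)) (hη : 2 * θ ≤ η) (hη2 : 2 / (m : ℝ) ≤ η)
    (hη1 : η ≤ 1) (hC : 6 * (L : ℝ) ≤ (Fintype.card K : ℝ) * (1 - η)) {c : ℝ}
    (hc : c ≤ (2 - η - 6 * L / (Fintype.card K : ℝ)) /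
      (1 + (2 / L + 4 * (L + 1) * (1 / (Fintype.card K : ℝ))))) :
    Good c (Fintype.card M ^ Fintype.card (Sx K m)) :=
  ⟨TS H τ m, inferInstance, inferInstance, TS_finrank _ _ _, fun f x hfx =>
    hc.trans (TS_RG hH hτ hL hm hθ hθq hη hη2 hη1 hC f x hfx)⟩

/-- every constant below two is a lower bound for all large dimensions -/
theorem eventually_good_two {c : ℝ} (hc : c < 2) : ∃ n0 : ℕ, ∀ n, n0 ≤ n → Good c n := by
  obtain ⟨r, L, m, θ, η, hr, hL, hm, hθ, hθq, hη, hη2, hη1, hC, hpar⟩ := exists_params2 hc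
  have hH := walsh_had r hr
  have hcard : Fintype.card (Fin r → Bool) = 2 ^ r := by
    rw [Fintype.card_fun, Fintype.card_fin, Fintype.card_bool]
  have key : ∀ (M : Type) [Fintype M] [DecidableEq M] [Nonempty M] (τ : M → M),
      (∀ x, τ x ≠ x) → Good c (Fintype.card M ^ Fintype.card (Sx (Fin r → Bool) m)) := by
    intro M _ _ _ τ hτ
    rw [← hcard] at hθq hC hpar
    exact TS_good hH hτ hL hm hθ hθq hη hη2 hη1 hC hpar
  have g2 := key Bool (fun b => !b) (fun b => Bool.not_ne_self b)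
  have g3 := key (Fin 3) (fun b => b + 1) (by decide)
  rw [Fintype.card_bool] at g2
  rw [Fintype.card_fin] at g3
  have hpos : Fintype.card (Sx (Fin r → Bool) m) ≠ 0 := Fintype.card_ne_zero
  refine ⟨_, Good.of_coprime g2 g3 (Nat.one_lt_pow hpos (by norm_num))
    (Nat.one_lt_pow hpos (by norm_num)) ?_⟩
  exact Nat.Coprime.pow _ _ (by norm_num)

theorem rho_le_two (n : ℕ) (hn : 1 ≤ n) : rho n ≤ 2 := by
  apply Real.sSup_le _ (by norm_num)
  rintro c ⟨X, i1, i2, hX, rfl⟩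
  exact hypConst_le_two (by omega)

/-- the minimal hyperplane projection constants tend to two -/
theorem tendsto_rho : Filter.Tendsto rho Filter.atTop (nhds 2) := by
  rw [Metric.tendsto_atTop]
  intro ε hε
  obtain ⟨n0, hn0⟩ := eventually_good_two (c := 2 - ε / 2) (by linarith)
  refine ⟨n0 + 1, fun n hn => ?_⟩
  have h1 : 2 - ε / 2 ≤ rho n := (hn0 n (by omega)).le_rho (by omega)
  have h2 := rho_le_two n (by omega)
  rw [Real.dist_eq, abs_lt]
  constructor <;> linarith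

end Pool.Agent.Y81.Proj
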