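import Mathlib
import Pool.Agent.Y81.ProjThree
import Pool.Agent.Y81.ProjMoment
import Pool.Agent.Y81.ProjTwoLim

/-!
An explicit rate for the minimal hyperplane projection constants.
-/

namespace Pool.Agent.Y81.Proj

theorem star_good {K : Type} [Fintype K] [DecidableEq K] {m : ℕ} {H : K → K → ℝ} (hH : Had H)
    {κ0 : K} (hone : ∀ χ, H χ κ0 = 1) {p D L : ℕ} [Fact p.Prime]
    (hcard : Fintype.card (Sx K m) ≤ p) (hD : D < p) (hLD : 2 * L + 3 ≤ D) (hL : 2 ≤ L)
    (hm : 1 ≤ m) {η : ℝ} (hη : 2 * (1 / (Fintype.card K : ℝ)) ≤ η) (hη2 : 2 / (m : ℝ) ≤ η)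
    (hη1 : η ≤ 1) (hC : 6 * (L : ℝ) ≤ (Fintype.card K : ℝ) * (1 - η)) {c : ℝ}
    (hc : c ≤ (2 - η - 6 * L / (Fintype.card K : ℝ)) /
      (1 + ((1 / 2) ^ (L - 2) + 4 * (L + 1) * (1 / (Fintype.card K : ℝ))))) :
    Good c (p ^ D) := by
  obtain ⟨ι⟩ : Nonempty (Sx K m ↪ ZMod p) := by
    apply Function.Embedding.nonempty_of_card_le
    rw [ZMod.card]
    exact hcard
  refine ⟨Th.TS H (Mo.stp (ι : Sx K m → ZMod p) D), inferInstance, inferInstance, ?_, ?_⟩
  · rw [Th.TS_finrank, Fintype.card_fun, ZMod.card, Fintype.card_fin]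
  · intro f x hfx
    exact hc.trans (Th.TS_RG hH hone hL (fun a => Mo.chart a ι.injective hD hLD) hm hη hη2 hη1 hC
      f x hfx)

theorem walsh_one (r : ℕ) (χ : Fin r → Bool) : walsh r χ (fun _ => false) = 1 := by
  unfold walsh
  simp

theorem pow_ge {r : ℕ} (hr : 8 ≤ r) : 32 * r ≤ 2 ^ r := by
  induction r, hr using Nat.le_induction with
  | base => norm_num
  | succ r hr ih =>
    rw [pow_succ]
    omega

/-- explicit parameters -/
theorem good_rate {r : ℕ} (hr : 8 ≤ r) (n : ℕ) (hn : 2 ^ (9 * r * 2 ^ r) ≤ n) :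
    Good (2 - 56 * r / 2 ^ r) n := by
  have h32 := pow_ge hr
  have hrR : (8 : ℝ) ≤ r := by exact_mod_cast hr
  have h32R : 32 * (r : ℝ) ≤ 2 ^ r := by exact_mod_cast h32
  have hQ0 : (0 : ℝ) < 2 ^ r := by positivity
  have hH := walsh_had r (by omega)
  have hcard : Fintype.card (Fin r → Bool) = 2 ^ r := by
    rw [Fintype.card_fun, Fintype.card_fin, Fintype.card_bool]
  have hcardR : (Fintype.card (Fin r → Bool) : ℝ) = 2 ^ r := by
    rw [hcard]
    push_cast
    rfl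
  -- the number of levels
  obtain ⟨m, hm1, hm2, hm3⟩ : ∃ m : ℕ, 1 ≤ m ∧ r * m ≤ 2 ^ r ∧ 2 ^ r ≤ 2 * r * m := by
    refine ⟨2 ^ r / r, ?_, Nat.mul_div_le _ _, ?_⟩
    · rw [Nat.one_le_div_iff (by omega)]
      omega
    · have h1 : 2 ^ r < r * (2 ^ r / r + 1) := Nat.lt_mul_div_succ _ (by omega)
      have h2 : 1 ≤ 2 ^ r / r := by
        rw [Nat.one_le_div_iff (by omega)]
        omega
      have h3 : r * (2 ^ r / r + 1) ≤ r * (2 * (2 ^ r / r)) := Nat.mul_le_mul_left _ (by omega)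
      calc 2 ^ r ≤ r * (2 * (2 ^ r / r)) := (h1.trans_le h3).le
        _ = 2 * r * (2 ^ r / r) := by ring
  have hmR : (0 : ℝ) < m := by exact_mod_cast hm1
  have hm3R : (2 : ℝ) ^ r ≤ 2 * r * m := by exact_mod_cast hm3
  -- the error terms
  set η : ℝ := 4 * r / 2 ^ r with hη
  have hη1 : 2 * (1 / (Fintype.card (Fin r → Bool) : ℝ)) ≤ η := by
    rw [hcardR, hη, mul_one_div]
    apply div_le_div_of_nonneg_right _ hQ0.le
    linarith
  have hη2 : 2 / (m : ℝ) ≤ η := by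
    rw [hη, div_le_div_iff₀ hmR hQ0]
    linarith
  have hη3 : η ≤ 1 / 8 := by
    rw [hη, div_le_iff₀ hQ0]
    linarith
  have hC : 6 * ((r + 2 : ℕ) : ℝ) ≤ (Fintype.card (Fin r → Bool) : ℝ) * (1 - η) := by
    rw [hcardR]
    push_cast
    have h1 : (2 : ℝ) ^ r * (1 - 1 / 8) ≤ 2 ^ r * (1 - η) :=
      mul_le_mul_of_nonneg_left (by linarith) hQ0.le
    linarith
  have hc : 2 - 56 * r / 2 ^ r ≤ (2 - η - 6 * ((r + 2 : ℕ) : ℝ) /
      (Fintype.card (Fin r → Bool) : ℝ)) /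
      (1 + ((1 / 2) ^ (r + 2 - 2) + 4 * (((r + 2 : ℕ) : ℝ) + 1) *
        (1 / (Fintype.card (Fin r → Bool) : ℝ)))) := by
    rw [hcardR]
    have h1 : ((1 : ℝ) / 2) ^ (r + 2 - 2) = 1 / 2 ^ r := by
      rw [Nat.add_sub_cancel, one_div_pow]
    rw [h1]
    push_cast
    generalize hP : (2 : ℝ) ^ r = Q at *
    have e1 : 6 * ((r : ℝ) + 2) / Q ≤ 8 * r / Q := by
      apply div_le_div_of_nonneg_right _ hQ0.le
      linarith
    have e2 : 1 / Q + 4 * ((r : ℝ) + 2 + 1) * (1 / Q) ≤ 6 * r / Q := by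
      rw [mul_one_div, ← add_div]
      apply div_le_div_of_nonneg_right _ hQ0.le
      linarith
    have e3 : 0 ≤ 1 / Q + 4 * ((r : ℝ) + 2 + 1) * (1 / Q) := by positivity
    generalize 1 / Q + 4 * ((r : ℝ) + 2 + 1) * (1 / Q) = E at e2 e3
    generalize 6 * ((r : ℝ) + 2) / Q = F at e1
    have hrQ : (r : ℝ) / Q ≤ 1 / 32 := by
      rw [div_le_iff₀ hQ0]
      linarith
    have hrQ0 : 0 ≤ (r : ℝ) / Q := by positivity
    have e4 : η = 4 * (r / Q) := by rw [hη]; ring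
    have e5 : 8 * (r : ℝ) / Q = 8 * (r / Q) := by ring
    have e6 : 6 * (r : ℝ) / Q = 6 * (r / Q) := by ring
    have e7 : 56 * (r : ℝ) / Q = 56 * (r / Q) := by ring
    rw [e5] at e1
    rw [e6] at e2
    rw [e4, e7]
    generalize (r : ℝ) / Q = t at *
    rw [le_div_iff₀ (by linarith)]
    nlinarith
  -- Good for prime powers
  set X := 2 ^ (r * (m + 2)) with hX
  have hcS : Fintype.card (Sx (Fin r → Bool) m) = X := by
    rw [Fintype.card_prod, Fintype.card_prod, Fintype.card_fun (α := Fin m), hcard,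
      Fintype.card_fin, hX]
    rw [← pow_mul, ← pow_add, ← pow_add]
    congr 1
    ring
  have hXr : 2 ^ r ≤ X := by
    rw [hX]
    apply Nat.pow_le_pow_right (by norm_num)
    exact Nat.le_mul_of_pos_right r (by omega)
  have key : ∀ p : ℕ, p.Prime → X ≤ p → Good (2 - 56 * r / 2 ^ r) (p ^ (2 * r + 7)) := by
    intro p hp hXp
    have : Fact p.Prime := ⟨hp⟩
    exact star_good (L := r + 2) hH (walsh_one r) (by rw [hcS]; exact hXp) (by omega) (by omega)
      (by omega) hm1 hη1 hη2 (by linarith) hC hc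
  have hX0 : X ≠ 0 := by
    rw [hX]
    positivity
  obtain ⟨p1, hp1, h1, h1'⟩ := Nat.exists_prime_lt_and_le_two_mul X hX0
  obtain ⟨p2, hp2, h2, h2'⟩ := Nat.exists_prime_lt_and_le_two_mul (2 * X) (by omega)
  have g1 := key p1 hp1 (by omega)
  have g2 := key p2 hp2 (by omega)
  have hcop : Nat.Coprime (p1 ^ (2 * r + 7)) (p2 ^ (2 * r + 7)) := by
    apply Nat.Coprime.pow
    rw [Nat.coprime_primes hp1 hp2]
    omega
  refine Good.of_coprime g1 g2 (Nat.one_lt_pow (by omega) hp1.one_lt)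
    (Nat.one_lt_pow (by omega) hp2.one_lt) hcop n ?_
  refine le_trans ?_ hn
  calc p1 ^ (2 * r + 7) * p2 ^ (2 * r + 7) = (p1 * p2) ^ (2 * r + 7) := by rw [mul_pow]
    _ ≤ (2 ^ (3 * 2 ^ r)) ^ (2 * r + 7) := by
        apply Nat.pow_le_pow_left
        calc p1 * p2 ≤ (2 * X) * (2 * (2 * X)) := Nat.mul_le_mul h1' h2'
          _ = 2 ^ (3 + 2 * (r * (m + 2))) := by
              rw [hX, pow_add, pow_mul, mul_comm 2 (r * (m + 2)), pow_mul]
              ring
          _ ≤ 2 ^ (3 * 2 ^ r) := by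
              apply Nat.pow_le_pow_right (by norm_num)
              have : r * (m + 2) = r * m + 2 * r := by ring
              omega
    _ = 2 ^ (3 * 2 ^ r * (2 * r + 7)) := by rw [← pow_mul]
    _ ≤ 2 ^ (9 * r * 2 ^ r) := by
        apply Nat.pow_le_pow_right (by norm_num)
        calc 3 * 2 ^ r * (2 * r + 7) ≤ 3 * 2 ^ r * (3 * r) := Nat.mul_le_mul_left _ (by omega)
          _ = 9 * r * 2 ^ r := by ring

theorem rho_nonneg (n : ℕ) : 0 ≤ rho n := by
  apply Real.sSup_nonneg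
  rintro c ⟨X, i1, i2, _, rfl⟩
  exact hypConst_nonneg

/-- choice of the parameter for large dimensions -/
theorem exists_level {n : ℕ} (hn : 2 ^ (9 * 8 * 2 ^ 8) ≤ n) :
    ∃ r, 8 ≤ r ∧ 2 ^ (9 * r * 2 ^ r) ≤ n ∧ n < 2 ^ (9 * (r + 1) * 2 ^ (r + 1)) := by
  by_contra hcon
  push Not at hcon
  have h : ∀ r, 8 ≤ r → 2 ^ (9 * r * 2 ^ r) ≤ n := by
    intro r hr
    induction r, hr using Nat.le_induction with
    | base => exact hn
    | succ r hr ih => exact hcon r hr ih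
  have h1 := h (n + 8) (by omega)
  have h2 : n < 2 ^ n := Nat.lt_two_pow_self
  have h3 : 2 ^ n ≤ 2 ^ (9 * (n + 8) * 2 ^ (n + 8)) := by
    apply Nat.pow_le_pow_right (by norm_num)
    calc n ≤ 9 * (n + 8) := by omega
      _ ≤ 9 * (n + 8) * 2 ^ (n + 8) := Nat.le_mul_of_pos_right _ (by positivity)
  omega

theorem rate_large {n : ℕ} (hn : 2 ^ (9 * 8 * 2 ^ 8) ≤ n) :
    2 - 5000 * Real.log (Real.log n) ^ 2 / Real.log n ≤ rho n := by
  obtain ⟨r, hr, h1, h2⟩ := exists_level hn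
  have hgood := (good_rate hr n h1).le_rho (lt_of_lt_of_le (by positivity) h1)
  refine le_trans ?_ hgood
  have hrR : (8 : ℝ) ≤ r := by exact_mod_cast hr
  have hQ0 : (0 : ℝ) < 2 ^ r := by positivity
  have hnR : (1 : ℝ) ≤ n := by
    have : 1 ≤ n := le_trans Nat.one_le_two_pow h1
    exact_mod_cast this
  have hn0 : (0 : ℝ) < n := by linarith
  have hl2 := Real.log_two_gt_d9
  have hl2' := Real.log_two_lt_d9
  -- the logarithm
  have hy1 : 9 * (r : ℝ) * 2 ^ r * Real.log 2 ≤ Real.log n := by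
    have h3 : ((2 : ℝ) ^ (9 * r * 2 ^ r)) ≤ n := by exact_mod_cast h1
    have h4 := Real.log_le_log (by positivity) h3
    rw [Real.log_pow] at h4
    push_cast at h4
    exact h4
  have hy2 : Real.log n ≤ 18 * ((r : ℝ) + 1) * 2 ^ r := by
    have h3 : (n : ℝ) ≤ (2 : ℝ) ^ (9 * (r + 1) * 2 ^ (r + 1)) := by exact_mod_cast h2.le
    have h4 := Real.log_le_log hn0 h3
    rw [Real.log_pow] at h4
    push_cast at h4
    refine h4.trans ?_
    have h5 : 9 * ((r : ℝ) + 1) * 2 ^ (r + 1) * Real.log 2 =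
        (18 * ((r : ℝ) + 1) * 2 ^ r) * Real.log 2 := by
      rw [pow_succ]
      ring
    rw [h5]
    apply mul_le_of_le_one_right (by positivity)
    linarith
  have hyQ : (2 : ℝ) ^ r ≤ Real.log n := by
    refine le_trans ?_ hy1
    have : (1 : ℝ) ≤ 9 * r * Real.log 2 := by nlinarith
    calc (2 : ℝ) ^ r = 1 * 2 ^ r := by ring
      _ ≤ (9 * r * Real.log 2) * 2 ^ r := mul_le_mul_of_nonneg_right this hQ0.le
      _ = 9 * (r : ℝ) * 2 ^ r * Real.log 2 := by ring
  have hy0 : 0 < Real.log n := lt_of_lt_of_le hQ0 hyQ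
  have hll : (r : ℝ) / 2 ≤ Real.log (Real.log n) := by
    have h3 := Real.log_le_log hQ0 hyQ
    rw [Real.log_pow] at h3
    refine le_trans ?_ h3
    nlinarith
  -- conclusion
  have h6 : 56 * (r : ℝ) / 2 ^ r ≤ 5000 * Real.log (Real.log n) ^ 2 / Real.log n := by
    rw [div_le_div_iff₀ hQ0 hy0]
    have h7 : (r : ℝ) ^ 2 ≤ 4 * Real.log (Real.log n) ^ 2 := by nlinarith
    calc 56 * (r : ℝ) * Real.log n ≤ 56 * r * (18 * ((r : ℝ) + 1) * 2 ^ r) :=
          mul_le_mul_of_nonneg_left hy2 (by positivity)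
      _ = 1008 * (r * (r + 1)) * 2 ^ r := by ring
      _ ≤ (1250 * r ^ 2) * 2 ^ r := by
          apply mul_le_mul_of_nonneg_right _ hQ0.le
          nlinarith
      _ ≤ 5000 * Real.log (Real.log n) ^ 2 * 2 ^ r := by
          apply mul_le_mul_of_nonneg_right _ hQ0.le
          linarith
  linarith

theorem log_le_of_lt {n E : ℕ} (h1 : 1 ≤ n) (h : n < 2 ^ E) :
    Real.log n ≤ E * Real.log 2 := by
  have hn0 : (0 : ℝ) < n := by exact_mod_cast h1
  have e1 : (n : ℝ) ≤ (2 : ℝ) ^ E := by exact_mod_cast h.le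
  have e2 := Real.log_le_log hn0 e1
  rwa [Real.log_pow] at e2

theorem rate_small {n : ℕ} (h3 : 3 ≤ n) (hy2 : Real.log n ≤ 12800) :
    2 - 5000 * Real.log (Real.log n) ^ 2 / Real.log n ≤ rho n := by
  refine le_trans ?_ (rho_nonneg n)
  have hl2 := Real.log_two_gt_d9
  have hl2' := Real.log_two_lt_d9
  have hnR : (3 : ℝ) ≤ n := by exact_mod_cast h3
  have hn0 : (0 : ℝ) < n := by linarith
  have hlog3 : (1.09 : ℝ) ≤ Real.log 3 := by
    have e1 : Real.log 9 = 2 * Real.log 3 := by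
      rw [show (9 : ℝ) = 3 ^ 2 by norm_num, Real.log_pow]
      norm_num
    have e2 : Real.log 9 = 3 * Real.log 2 + Real.log (9 / 8) := by
      rw [show (9 : ℝ) = 2 ^ 3 * (9 / 8) by norm_num, Real.log_mul (by norm_num) (by norm_num),
        Real.log_pow]
      norm_num
    have e3 := Real.one_sub_inv_le_log_of_pos (show (0 : ℝ) < 9 / 8 by norm_num)
    have e4 : (1 : ℝ) - (9 / 8)⁻¹ = 1 / 9 := by norm_num
    rw [e4] at e3
    linarith
  have hy1 : (1.09 : ℝ) ≤ Real.log n := hlog3.trans (Real.log_le_log (by norm_num) hnR)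
  generalize Real.log n = y at hy1 hy2
  have hy0 : 0 < y := by linarith
  have key : y ≤ 2500 * Real.log y ^ 2 := by
    rcases le_total y 4 with h4 | h4
    · have e1 := Real.one_sub_inv_le_log_of_pos hy0
      have e2 : y⁻¹ ≤ (1.09 : ℝ)⁻¹ := inv_anti₀ (by norm_num) hy1
      have e3 : (1.09 : ℝ)⁻¹ ≤ 0.92 := by norm_num
      have e4 : (0.08 : ℝ) ≤ Real.log y := by linarith
      nlinarith
    · rcases le_total y 1400 with h5 | h5
      · have e1 := Real.one_sub_inv_le_log_of_pos hy0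
        have e2 : y⁻¹ ≤ (4 : ℝ)⁻¹ := inv_anti₀ (by norm_num) h4
        have e4 : (0.75 : ℝ) ≤ Real.log y := by
          have : (4 : ℝ)⁻¹ = 0.25 := by norm_num
          linarith
        nlinarith
      · have e1 : Real.log ((2 : ℝ) ^ 10) ≤ Real.log y :=
          Real.log_le_log (by norm_num) (by linarith)
        rw [Real.log_pow] at e1
        push_cast at e1
        have e4 : (6 : ℝ) ≤ Real.log y := by linarith
        nlinarith
  have : 2 ≤ 5000 * Real.log y ^ 2 / y := by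
    rw [le_div_iff₀ hy0]
    linarith
  linarith

/-- explicit lower bound for the minimal hyperplane projection constants -/
theorem rho_rate (n : ℕ) (hn : 3 ≤ n) :
    2 - 5000 * Real.log (Real.log n) ^ 2 / Real.log n ≤ rho n := by
  rcases Nat.lt_or_ge n (2 ^ (9 * 8 * 2 ^ 8)) with h | h
  · apply rate_small hn
    have h1 := log_le_of_lt (by omega) h
    have h2 : ((9 * 8 * 2 ^ 8 : ℕ) : ℝ) = 18432 := by norm_num
    rw [h2] at h1
    have := Real.log_two_lt_d9
    linarith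
  · exact rate_large h

end Pool.Agent.Y81.Proj
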