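import Mathlib
import Pool.Agent.Y81.ProjTree

/-! Certificate data of a block: rows, points of the unit ball, relations. -/

set_option maxRecDepth 100000

namespace Pool.Agent.Y81.Proj.BlockFive

/-- the rows of the block -/
def dat : Data where
  n := 5
  Q := 3
  G := [[3, 0, 0, 0, 0], [0, 3, 0, 0, 0], [0, 0, 3, 0, 0], [0, 0, 0, 3, 0], [0, 0, 0, 0, 3], [-2, -3,
  2, 2, -1], [-4, 1, 2, -3, 4]]
  circ := [[2, 3, -2, -2, 1, 3, 0], [-2, -3, 2, 2, -1, -3, 0], [4, -1, -2, 3, -4, 0, 3], [-4, 1, 2, -3,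
  4, 0, -3], [12, 11, -10, -5, 0, 12, 3], [-12, -11, 10, 5, 0, -12, -3], [14, 7, -10, 0, -5, 9,
  6], [-14, -7, 10, 0, 5, -9, -6], [2, -4, 0, 5, -5, -3, 3], [-2, 4, 0, -5, 5, 3, -3], [14, 0,
  -8, 7, -11, 3, 9], [-14, 0, 8, -7, 11, -3, -9], [0, -7, 2, 7, -6, -6, 3], [0, 7, -2, -7, 6,
  6, -3]]
  W := 1000
  p := 3
  q := 100
  K := 1000000

def v0 : Vt dat := ⟨[1, 1, 1, 1, 1], 3, [3, 3, 3, 3, 3, -2, 0], by decide +kernel⟩
def v1 : Vt dat := ⟨[-1, -1, -1, -1, -1], 3, [-3, -3, -3, -3, -3, 2, 0], by decide +kernel⟩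
def v2 : Vt dat := ⟨[4, 4, 4, 4, 1], 12, [12, 12, 12, 12, 3, -5, -12], by decide +kernel⟩
def v3 : Vt dat := ⟨[-4, -4, -4, -4, -1], 12, [-12, -12, -12, -12, -3, 5, 12], by decide +kernel⟩
def v4 : Vt dat := ⟨[4, -4, 4, -4, 3], 12, [12, -12, 12, -12, 9, 1, 12], by decide +kernel⟩
def v5 : Vt dat := ⟨[-4, 4, -4, 4, -3], 12, [-12, 12, -12, 12, -9, -1, -12], by decide +kernel⟩
def v6 : Vt dat := ⟨[4, -4, 4, -4, -3], 12, [12, -12, 12, -12, -9, 7, -12], by decide +kernel⟩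
def v7 : Vt dat := ⟨[-4, 4, -4, 4, 3], 12, [-12, 12, -12, 12, 9, -7, 12], by decide +kernel⟩
def v8 : Vt dat := ⟨[2, 2, 2, 1, 2], 6, [6, 6, 6, 3, 6, -6, 3], by decide +kernel⟩
def v9 : Vt dat := ⟨[-2, -2, -2, -1, -2], 6, [-6, -6, -6, -3, -6, 6, -3], by decide +kernel⟩
def v10 : Vt dat := ⟨[2, -2, 2, 1, 2], 6, [6, -6, 6, 3, 6, 6, -1], by decide +kernel⟩
def v11 : Vt dat := ⟨[-2, 2, -2, -1, -2], 6, [-6, 6, -6, -3, -6, -6, 1], by decide +kernel⟩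
def v12 : Vt dat := ⟨[2, -2, -2, -1, 2], 6, [6, -6, -6, -3, 6, -6, -3], by decide +kernel⟩
def v13 : Vt dat := ⟨[-2, 2, 2, 1, -2], 6, [-6, 6, 6, 3, -6, 6, 3], by decide +kernel⟩
def v14 : Vt dat := ⟨[3, -3, 3, -2, 3], 9, [9, -9, 9, -6, 9, 2, 9], by decide +kernel⟩
def v15 : Vt dat := ⟨[-3, 3, -3, 2, -3], 9, [-9, 9, -9, 6, -9, -2, -9], by decide +kernel⟩
def v16 : Vt dat := ⟨[1, -1, -1, 0, 1], 3, [3, -3, -3, 0, 3, -2, -3], by decide +kernel⟩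
def v17 : Vt dat := ⟨[-1, 1, 1, 0, -1], 3, [-3, 3, 3, 0, -3, 2, 3], by decide +kernel⟩
def v18 : Vt dat := ⟨[5, 5, 5, -2, -4], 15, [15, 15, 15, -6, -12, -15, -15], by decide +kernel⟩
def v19 : Vt dat := ⟨[-5, -5, -5, 2, 4], 15, [-15, -15, -15, 6, 12, 15, 15], by decide +kernel⟩
def v20 : Vt dat := ⟨[1, -1, 1, 0, 0], 3, [3, -3, 3, 0, 0, 3, -3], by decide +kernel⟩
def v21 : Vt dat := ⟨[-1, 1, -1, 0, 0], 3, [-3, 3, -3, 0, 0, -3, 3], by decide +kernel⟩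
def v22 : Vt dat := ⟨[5, -5, -5, -4, 2], 15, [15, -15, -15, -12, 6, -15, -15], by decide +kernel⟩
def v23 : Vt dat := ⟨[-5, 5, 5, 4, -2], 15, [-15, 15, 15, 12, -6, 15, 15], by decide +kernel⟩
def v24 : Vt dat := ⟨[2, 2, 1, 2, 2], 6, [6, 6, 3, 6, 6, -6, -2], by decide +kernel⟩
def v25 : Vt dat := ⟨[-2, -2, -1, -2, -2], 6, [-6, -6, -3, -6, -6, 6, 2], by decide +kernel⟩
def v26 : Vt dat := ⟨[2, -2, 1, 2, 2], 6, [6, -6, 3, 6, 6, 6, -6], by decide +kernel⟩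
def v27 : Vt dat := ⟨[-2, 2, -1, -2, -2], 6, [-6, 6, -3, -6, -6, -6, 6], by decide +kernel⟩
def v28 : Vt dat := ⟨[2, -2, -1, -2, 2], 6, [6, -6, -3, -6, 6, -6, 2], by decide +kernel⟩
def v29 : Vt dat := ⟨[-2, 2, 1, 2, -2], 6, [-6, 6, 3, 6, -6, 6, -2], by decide +kernel⟩
def v30 : Vt dat := ⟨[2, -2, 1, -2, 2], 6, [6, -6, 3, -6, 6, -2, 6], by decide +kernel⟩
def v31 : Vt dat := ⟨[-2, 2, -1, 2, -2], 6, [-6, 6, -3, 6, -6, 2, -6], by decide +kernel⟩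
def v32 : Vt dat := ⟨[10, 10, 3, 10, 6], 30, [30, 30, 9, 30, 18, -30, -30], by decide +kernel⟩
def v33 : Vt dat := ⟨[-10, -10, -3, -10, -6], 30, [-30, -30, -9, -30, -18, 30, 30], by decide +kernel⟩
def v34 : Vt dat := ⟨[10, -10, -9, -10, 2], 30, [30, -30, -27, -30, 6, -30, -30], by decide +kernel⟩
def v35 : Vt dat := ⟨[-10, 10, 9, 10, -2], 30, [-30, 30, 27, 30, -6, 30, 30], by decide +kernel⟩
def v36 : Vt dat := ⟨[3, -2, 3, 3, 3], 9, [9, -6, 9, 9, 9, 9, -5], by decide +kernel⟩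
def v37 : Vt dat := ⟨[-3, 2, -3, -3, -3], 9, [-9, 6, -9, -9, -9, -9, 5], by decide +kernel⟩
def v38 : Vt dat := ⟨[3, 2, 3, -3, -3], 9, [9, 6, 9, -9, -9, -9, -7], by decide +kernel⟩
def v39 : Vt dat := ⟨[-3, -2, -3, 3, 3], 9, [-9, -6, -9, 9, 9, 9, 7], by decide +kernel⟩
def v40 : Vt dat := ⟨[1, 0, 1, -1, -1], 3, [3, 0, 3, -3, -3, -1, -3], by decide +kernel⟩
def v41 : Vt dat := ⟨[-1, 0, -1, 1, 1], 3, [-3, 0, -3, 3, 3, 1, 3], by decide +kernel⟩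
def v42 : Vt dat := ⟨[11, -6, 11, 11, 7], 33, [33, -18, 33, 33, 21, 33, -33], by decide +kernel⟩
def v43 : Vt dat := ⟨[-11, 6, -11, -11, -7], 33, [-33, 18, -33, -33, -21, -33, 33], by decide +kernel⟩
def v44 : Vt dat := ⟨[11, 2, 11, -11, 5], 33, [33, 6, 33, -33, 15, -33, 33], by decide +kernel⟩
def v45 : Vt dat := ⟨[-11, -2, -11, 11, -5], 33, [-33, -6, -33, 33, -15, 33, -33], by decide +kernel⟩
def v46 : Vt dat := ⟨[7, 4, 7, -1, 7], 21, [21, 12, 21, -3, 21, -21, 21], by decide +kernel⟩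
def v47 : Vt dat := ⟨[-7, -4, -7, 1, -7], 21, [-21, -12, -21, 3, -21, 21, -21], by decide +kernel⟩
def v48 : Vt dat := ⟨[7, 6, 7, -5, -7], 21, [21, 18, 21, -15, -21, -21, -21], by decide +kernel⟩
def v49 : Vt dat := ⟨[-7, -6, -7, 5, 7], 21, [-21, -18, -21, 15, 21, 21, 21], by decide +kernel⟩
def v50 : Vt dat := ⟨[7, -4, -7, 1, 7], 21, [21, -12, -21, 3, 21, -21, -21], by decide +kernel⟩
def v51 : Vt dat := ⟨[-7, 4, 7, -1, -7], 21, [-21, 12, 21, -3, -21, 21, 21], by decide +kernel⟩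
def v52 : Vt dat := ⟨[4, 2, -1, 4, 4], 12, [12, 6, -3, 12, 12, -12, -12], by decide +kernel⟩
def v53 : Vt dat := ⟨[-4, -2, 1, -4, -4], 12, [-12, -6, 3, -12, -12, 12, 12], by decide +kernel⟩
def v54 : Vt dat := ⟨[4, -2, 1, -4, 4], 12, [12, -6, 3, -12, 12, -12, 12], by decide +kernel⟩
def v55 : Vt dat := ⟨[-4, 2, -1, 4, -4], 12, [-12, 6, -3, 12, -12, 12, -12], by decide +kernel⟩
def v56 : Vt dat := ⟨[4, 2, 3, -4, -4], 12, [12, 6, 9, -12, -12, -12, -12], by decide +kernel⟩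
def v57 : Vt dat := ⟨[-4, -2, -3, 4, 4], 12, [-12, -6, -9, 12, 12, 12, 12], by decide +kernel⟩
def v58 : Vt dat := ⟨[-1, 2, 2, 2, -2], 6, [-3, 6, 6, 6, -6, 6, -4], by decide +kernel⟩
def v59 : Vt dat := ⟨[1, -2, -2, -2, 2], 6, [3, -6, -6, -6, 6, -6, 4], by decide +kernel⟩
def v60 : Vt dat := ⟨[1, 2, 2, -2, -2], 6, [3, 6, 6, -6, -6, -6, 0], by decide +kernel⟩
def v61 : Vt dat := ⟨[-1, -2, -2, 2, 2], 6, [-3, -6, -6, 6, 6, 6, 0], by decide +kernel⟩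
def v62 : Vt dat := ⟨[-1, 2, -2, 2, 2], 6, [-3, 6, -6, 6, 6, -6, 4], by decide +kernel⟩
def v63 : Vt dat := ⟨[1, -2, 2, -2, -2], 6, [3, -6, 6, -6, -6, 6, -4], by decide +kernel⟩
def v64 : Vt dat := ⟨[1, 4, 4, 4, 4], 12, [3, 12, 12, 12, 12, -2, 12], by decide +kernel⟩
def v65 : Vt dat := ⟨[-1, -4, -4, -4, -4], 12, [-3, -12, -12, -12, -12, 2, -12], by decide +kernel⟩
def v66 : Vt dat := ⟨[-1, 4, 4, 4, -4], 12, [-3, 12, 12, 12, -12, 10, -12], by decide +kernel⟩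
def v67 : Vt dat := ⟨[1, -4, -4, -4, 4], 12, [3, -12, -12, -12, 12, -10, 12], by decide +kernel⟩
def v68 : Vt dat := ⟨[-1, 4, 4, -4, -4], 12, [-3, 12, 12, -12, -12, -6, 12], by decide +kernel⟩
def v69 : Vt dat := ⟨[1, -4, -4, 4, 4], 12, [3, -12, -12, 12, 12, 6, -12], by decide +kernel⟩
def v70 : Vt dat := ⟨[-3, 4, -4, 4, 4], 12, [-9, 12, -12, 12, 12, -10, 12], by decide +kernel⟩
def v71 : Vt dat := ⟨[3, -4, 4, -4, -4], 12, [9, -12, 12, -12, -12, 10, -12], by decide +kernel⟩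
def v72 : Vt dat := ⟨[-11, 12, 12, 12, -2], 36, [-33, 36, 36, 36, -6, 36, 36], by decide +kernel⟩
def v73 : Vt dat := ⟨[11, -12, -12, -12, 2], 36, [33, -36, -36, -36, 6, -36, -36], by decide +kernel⟩
def v74 : Vt dat := ⟨[1, 4, 4, -4, -2], 12, [3, 12, 12, -12, -6, -12, 12], by decide +kernel⟩
def v75 : Vt dat := ⟨[-1, -4, -4, 4, 2], 12, [-3, -12, -12, 12, 6, 12, -12], by decide +kernel⟩
def v76 : Vt dat := ⟨[-1, 12, -12, 12, 2], 36, [-3, 36, -36, 36, 6, -36, -36], by decide +kernel⟩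
def v77 : Vt dat := ⟨[1, -12, 12, -12, -2], 36, [3, -36, 36, -36, -6, 36, 36], by decide +kernel⟩
def v78 : Vt dat := ⟨[11, 14, 14, 4, 14], 42, [33, 42, 42, 12, 42, -42, 42], by decide +kernel⟩
def v79 : Vt dat := ⟨[-11, -14, -14, -4, -14], 42, [-33, -42, -42, -12, -42, 42, -42], by decide +kernel⟩
def v80 : Vt dat := ⟨[13, 14, 14, -8, -14], 42, [39, 42, 42, -24, -42, -42, -42], by decide +kernel⟩
def v81 : Vt dat := ⟨[-13, -14, -14, 8, 14], 42, [-39, -42, -42, 24, 42, 42, 42], by decide +kernel⟩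
def v82 : Vt dat := ⟨[-9, 14, -14, 12, 14], 42, [-27, 42, -42, 36, 42, -42, 42], by decide +kernel⟩
def v83 : Vt dat := ⟨[9, -14, 14, -12, -14], 42, [27, -42, 42, -36, -42, 42, -42], by decide +kernel⟩
def v84 : Vt dat := ⟨[-1, 2, -2, 0, -2], 6, [-3, 6, -6, 0, -6, -6, -6], by decide +kernel⟩
def v85 : Vt dat := ⟨[1, -2, 2, 0, 2], 6, [3, -6, 6, 0, 6, 6, 6], by decide +kernel⟩
def v86 : Vt dat := ⟨[0, 0, 1, 1, 1], 3, [0, 0, 3, 3, 3, 3, 3], by decide +kernel⟩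
def v87 : Vt dat := ⟨[0, 0, -1, -1, -1], 3, [0, 0, -3, -3, -3, -3, -3], by decide +kernel⟩
def v88 : Vt dat := ⟨[-2, 6, 7, 7, -7], 21, [-6, 18, 21, 21, -21, 21, -21], by decide +kernel⟩
def v89 : Vt dat := ⟨[2, -6, -7, -7, 7], 21, [6, -18, -21, -21, 21, -21, 21], by decide +kernel⟩
def v90 : Vt dat := ⟨[-4, -2, 7, -7, -7], 21, [-12, -6, 21, -21, -21, 21, 21], by decide +kernel⟩
def v91 : Vt dat := ⟨[4, 2, -7, 7, 7], 21, [12, 6, -21, 21, 21, -21, -21], by decide +kernel⟩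

theorem base : baseOK dat = true := by decide +kernel

end Pool.Agent.Y81.Proj.BlockFive
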