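import Mathlib
import Pool.Agent.Y81.BlockFive

/-! Certificate trees. -/

set_option maxRecDepth 100000

namespace Pool.Agent.Y81.Proj.BlockFive

def t0 : Tree dat :=
.node 4 (-250) (.node 4 (-150) (.node 4 (-100) (.node 4 (-60) (.node 2 (-250) (.node 2 (-150)
  (.node 2 (-100) (.node 2 (-60) (.node 1 250 (.node 2 150 (.leaf 46200 [(v5, 1, 64806), (v77,
  2, 45500), (v7, 1, 16434), (v26, 0, 330), (v16, 0, 27555)] [(1000, [], []), (625, [(v26, 0,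
  33), (v5, 1, 175), (v77, 2, 140), (v7, 1, 11), (v16, 0, 99)], [(v32, 0, 1), (v21, 1, 16),
  (v27, 1, 28), (v8, 0, 4)]), (575, [(v11, 1, 32), (v22, 0, 1), (v5, 1, 12), (v16, 0, 23)],
  [(v23, 1, 288), (v6, 0, 23), (v10, 0, 24), (v4, 0, 55)]), (0, [(v27, 1, 4), (v30, 0, 1)],
  [(v26, 0, 1), (v31, 1, 4)]), (470, [(v5, 1, 4), (v6, 0, 1)], [(v14, 0, 4), (v27, 1, 4), (v30,
  0, 1), (v7, 1, 12)])]) (.node 5 (-437) (.far 4) (.leaf 4370000 [(v35, 1, 1365188), (v43, 5,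
  2000000), (v10, 0, 62054), (v20, 0, 3910276), (v26, 0, 2311293)] [(1000, [], []), (0, [(v26,
  0, 15295), (v29, 1, 8740), (v23, 1, 3496), (v43, 5, 8000), (v20, 0, 16606)], []), (45, [(v11,
  5, 1500), (v87, 5, 500), (v5, 1, 874), (v16, 0, 2185)], [(v23, 1, 288), (v6, 0, 23), (v10, 0,
  24), (v4, 0, 55)]), (347, [(v43, 5, 13000), (v44, 0, 2185), (v4, 0, 9614)], [(v31, 1, 4),
  (v26, 0, 1)]), (470, [(v20, 0, 1748), (v31, 1, 6992), (v6, 0, 437), (v87, 5, 4000)], [(v14,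
  0, 3527901), (v35, 1, 2045160), (v43, 5, 201500), (v89, 5, 1632500), (v82, 5, 1507500)])])))
  (.node 1 150 (.node 2 100 (.leaf 3960 [(v77, 2, 2808), (v16, 0, 2178), (v7, 1, 2717), (v5, 1,
  6133), (v90, 2, 2772)] [(1000, [], []), (200, [(v5, 1, 875), (v16, 0, 297), (v77, 2, 630),
  (v7, 1, 55), (v26, 0, 99)], [(v32, 0, 3), (v21, 1, 80), (v27, 1, 140), (v8, 0, 12)]), (550,
  [(v11, 1, 160), (v22, 0, 3), (v5, 1, 60), (v16, 0, 69)], [(v23, 1, 480), (v6, 0, 23), (v10,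
  0, 24), (v4, 0, 55)]), (0, [(v27, 1, 20), (v30, 0, 3)], [(v26, 0, 3), (v31, 1, 20)]), (470,
  [(v5, 1, 20), (v6, 0, 3)], [(v27, 1, 20), (v30, 0, 3), (v14, 0, 12), (v7, 1, 60)])]) (.node 5
  (-387) (.far 4) (.leaf 154800 [(v10, 0, 13545), (v13, 1, 466980), (v43, 5, 80000), (v26, 0,
  128484), (v20, 0, 41796)] [(1000, [], []), (0, [(v26, 0, 6579), (v43, 5, 4000), (v20, 0,
  7740), (v29, 1, 6450), (v35, 1, 1290)], []), (20, [(v11, 5, 300), (v87, 5, 100), (v5, 1,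
  258), (v16, 0, 387)], [(v23, 1, 480), (v6, 0, 23), (v10, 0, 24), (v4, 0, 55)]), (0, [(v43, 5,
  13000), (v44, 0, 1935), (v4, 0, 8514)], [(v26, 0, 3), (v31, 1, 20)]), (470, [(v20, 0, 1548),
  (v31, 1, 10320), (v6, 0, 387), (v87, 5, 4000)], [(v10, 0, 774), (v14, 0, 387), (v21, 5,
  7000)])]))) (.node 1 100 (.node 2 250 (.leaf 1680 [(v90, 2, 1120), (v5, 1, 2541), (v26, 0,
  50), (v16, 0, 1200), (v7, 1, 2109)] [(1000, [], []), (0, [(v26, 0, 44), (v5, 1, 175), (v90,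
  2, 112), (v7, 1, 95), (v16, 0, 132)], []), (625, [(v11, 1, 120), (v22, 0, 36), (v5, 1, 275),
  (v7, 1, 115)], [(v0, 0, 24), (v23, 2, 40), (v51, 2, 100), (v36, 0, 27), (v4, 0, 30)]), (0,
  [(v54, 0, 3), (v51, 2, 8), (v27, 1, 80), (v28, 0, 9)], [(v26, 0, 1), (v31, 1, 10)]), (470,
  [(v88, 2, 40), (v15, 1, 390), (v83, 2, 32), (v22, 0, 13)], [(v30, 0, 22), (v51, 2, 1), (v86,
  2, 5), (v72, 2, 3), (v7, 1, 85)])]) (.node 3 (-631) (.node 5 (-216) (.far 4) (.leaf 5400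
  [(v10, 0, 270), (v26, 0, 4617), (v43, 5, 5000), (v20, 0, 1458), (v13, 1, 23760)] [(1000, [],
  []), (0, [(v26, 0, 459), (v43, 5, 500), (v20, 0, 540), (v29, 1, 675), (v35, 1, 135)], []),
  (95, [(v11, 5, 75), (v16, 0, 54), (v87, 5, 25), (v5, 1, 54)], [(v17, 1, 230), (v23, 1, 10),
  (v10, 0, 8), (v4, 0, 3)]), (0, [(v43, 5, 250), (v27, 5, 1875), (v54, 0, 135), (v4, 0, 216)],
  [(v26, 0, 1), (v31, 1, 10)]), (470, [(v20, 0, 108), (v31, 1, 1080), (v6, 0, 27), (v87, 5,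
  500)], [(v21, 5, 875), (v14, 0, 27), (v10, 0, 54)])])) (.far 0))) (.node 1 60 (.node 3 (-100)
  (.node 4 150 (.leaf 163800 [(v49, 4, 90720), (v27, 1, 525100), (v11, 1, 391350), (v13, 1,
  230450), (v6, 0, 17271)] [(1000, [], []), (80, [(v61, 4, 20), (v31, 1, 50), (v6, 0, 27),
  (v39, 4, 200), (v15, 1, 50)], [(v38, 0, 383), (v44, 0, 9), (v27, 1, 800), (v70, 4, 2240),
  (v17, 1, 2400)]), (470, [(v22, 0, 102), (v70, 4, 280), (v34, 0, 9), (v15, 1, 2400), (v41, 4,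
  280)], [(v17, 1, 400), (v6, 0, 3), (v86, 4, 160), (v4, 0, 3)]), (450, [(v67, 4, 260), (v4, 0,
  63), (v27, 1, 3250), (v44, 0, 9)], [(v31, 1, 50), (v26, 0, 3)]), (575, [(v6, 0, 63), (v31, 1,
  1000), (v15, 1, 1000), (v69, 4, 80), (v40, 0, 36)], [(v57, 4, 20), (v44, 0, 4), (v54, 0, 1),
  (v41, 4, 240)])]) (.node 6 (-333) (.far 2) (.leaf 185592000 [(v7, 1, 151494650), (v4, 0,
  36690273), (v35, 1, 81562800), (v21, 1, 1991739600), (v47, 6, 54720000)] [(1000, [], []),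
  (80, [(v10, 0, 3663), (v47, 6, 7000), (v14, 0, 2997)], [(v46, 0, 1258), (v54, 0, 407), (v15,
  6, 8000), (v27, 1, 20350)]), (499, [(v12, 0, 666), (v15, 6, 2000), (v28, 0, 333)], [(v17, 1,
  5550), (v23, 1, 38850), (v55, 6, 3200), (v88, 6, 1600), (v4, 0, 4329)]), (233, [(v27, 1, 50),
  (v30, 0, 3)], [(v55, 6, 1000), (v26, 0, 444), (v52, 0, 111)]), (0, [(v22, 0, 999), (v31, 6,
  30000), (v40, 0, 94905), (v45, 6, 21500), (v47, 6, 500)], [(v14, 0, 12), (v27, 1, 50), (v30,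
  0, 3), (v7, 1, 150)])]))) (.node 5 (-106) (.far 0) (.leaf 5520 [(v82, 5, 1200), (v25, 3,
  16494), (v31, 1, 13070), (v26, 0, 933), (v29, 1, 11450)] [(1000, [], []), (80, [(v26, 0, 1),
  (v25, 3, 10)], [(v8, 0, 212), (v32, 0, 53), (v21, 5, 2000), (v27, 5, 3500)]), (470, [(v84, 5,
  76000), (v82, 5, 2750), (v50, 0, 3339), (v1, 3, 122430), (v76, 5, 4250)], [(v14, 0, 18),
  (v23, 1, 350), (v0, 0, 63), (v10, 0, 36), (v90, 3, 210)]), (-550, [(v43, 5, 6500), (v44, 0,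
  265), (v4, 0, 1166)], [(v31, 1, 50), (v26, 0, 3)]), (470, [(v20, 0, 2544), (v31, 1, 21200),
  (v6, 0, 477), (v1, 3, 6360), (v84, 5, 12000)], [(v82, 5, 2607000), (v35, 1, 72875), (v46, 0,
  16059), (v14, 0, 1152432), (v53, 3, 2597265)])]))) (.node 3 250 (.node 2 60 (.leaf 125400
  [(v7, 3, 134079), (v56, 0, 7448), (v5, 3, 19323), (v34, 0, 7231), (v90, 2, 308750)] [(1000,
  [], []), (-470, [(v39, 3, 53), (v45, 3, 3), (v6, 0, 12)], [(v38, 0, 53), (v7, 3, 192), (v44,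
  0, 3)]), (530, [(v5, 3, 19), (v34, 0, 3), (v7, 3, 11)], [(v35, 3, 48), (v6, 0, 11), (v4, 0,
  19)]), (625, [(v7, 3, 792), (v34, 0, 45), (v90, 2, 1900), (v68, 2, 3800), (v28, 0, 513)],
  [(v55, 3, 12), (v26, 0, 4), (v52, 0, 1)]), (470, [(v56, 0, 39), (v55, 3, 52), (v6, 0, 18),
  (v45, 3, 64)], [(v35, 3, 32), (v54, 0, 57), (v57, 3, 76), (v7, 3, 72)])]) (.node 4 392 (.node
  6 (-189) (.far 2) (.leaf 1009449000 [(v35, 3, 419412168), (v89, 4, 101250000), (v38, 0,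
  17475507), (v87, 6, 1837955000), (v65, 6, 490609000)] [(1000, [], []), (-470, [(v20, 0,
  5194), (v49, 4, 6625), (v45, 3, 2548), (v6, 0, 4998)], [(v35, 3, 275184), (v38, 0, 636363),
  (v87, 6, 1274000), (v82, 4, 367875), (v89, 4, 97875)]), (0, [(v82, 4, 25), (v67, 4, 25),
  (v34, 0, 49), (v5, 3, 392), (v41, 4, 50)], [(v35, 3, 48), (v6, 0, 11), (v4, 0, 19)]), (0,
  [(v35, 3, 84672), (v65, 6, 98000), (v67, 4, 37125), (v38, 0, 51597), (v89, 4, 77625)], []),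
  (696, [(v31, 3, 76), (v6, 0, 7), (v34, 0, 1)], [(v41, 4, 7875), (v44, 0, 343), (v46, 0, 49),
  (v49, 4, 375)])])) (.far 2))) (.node 3 150 (.node 2 60 (.leaf 143640 [(v7, 3, 128541), (v34,
  0, 1512), (v68, 2, 52060), (v90, 2, 237500), (v5, 3, 35853)] [(1000, [], []), (-470, [(v39,
  3, 265), (v45, 3, 15), (v6, 0, 36)], [(v38, 0, 53), (v7, 3, 320), (v44, 0, 3)]), (0, [(v5, 3,
  95), (v34, 0, 9), (v7, 3, 55)], []), (200, [(v7, 3, 1320), (v90, 2, 1900), (v28, 0, 513),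
  (v68, 2, 3800), (v34, 0, 45)], [(v55, 3, 20), (v26, 0, 4), (v52, 0, 1)]), (470, [(v56, 0,
  117), (v55, 3, 260), (v6, 0, 54), (v45, 3, 320)], [(v35, 3, 160), (v54, 0, 171), (v57, 3,
  380), (v7, 3, 360)])]) (.node 4 317 (.node 6 (-89) (.far 2) (.leaf 28213000 [(v67, 4,
  21582500), (v29, 3, 98040175), (v38, 0, 2652022), (v35, 3, 8040705), (v65, 6, 17276500)]
  [(1000, [], []), (-470, [(v39, 4, 13250), (v45, 3, 1585), (v6, 0, 3804)], [(v35, 3, 41210),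
  (v38, 0, 111267), (v29, 3, 288470), (v82, 4, 75000), (v89, 4, 45000)]), (0, [(v49, 4, 13000),
  (v82, 4, 57000), (v34, 0, 86541), (v5, 3, 1153880), (v89, 4, 29000)], [(v35, 3, 80), (v6, 0,
  11), (v4, 0, 19)]), (0, [(v35, 3, 1269585), (v65, 6, 1188750), (v67, 4, 3003750), (v38, 0,
  677112), (v29, 3, 3244495)], []), (658, [(v6, 0, 3), (v5, 3, 20)], [(v41, 4, 63000), (v44, 0,
  2219), (v46, 0, 317), (v49, 4, 3000)])])) (.far 2))) (.node 5 250 (.node 1 (-565) (.node 2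
  503 (.leaf 14084000 [(v49, 5, 273632), (v68, 2, 6916000), (v50, 0, 742428), (v39, 5,
  7869435), (v45, 5, 3425933)] [(1000, [], []), (-347, [(v77, 2, 3000), (v26, 0, 16599), (v19,
  5, 2012), (v9, 5, 64384)], [(v52, 0, 10060), (v50, 0, 5030), (v45, 5, 7545), (v39, 5, 40743),
  (v68, 2, 48000)]), (503, [(v50, 0, 100097), (v68, 2, 308000), (v22, 0, 7042), (v45, 5,
  169008), (v49, 5, 66396)], []), (-177, [(v49, 5, 12072), (v19, 5, 12072), (v28, 0, 3018),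
  (v68, 2, 46000), (v12, 0, 26659)], [(v88, 2, 36000), (v26, 0, 59857), (v52, 0, 20623), (v45,
  5, 60360)]), (470, [(v34, 0, 147379), (v88, 2, 684000), (v6, 0, 9054), (v47, 5, 1146840),
  (v56, 0, 296267)], [(v78, 2, 43000), (v74, 2, 136000), (v49, 5, 271620), (v12, 0, 16599),
  (v28, 0, 67905)])]) (.far 4)) (.leaf 9492000 [(v32, 0, 929877), (v29, 5, 14854980), (v18, 0,
  112096), (v3, 1, 5757600), (v8, 0, 544208)] [(1000, [], []), (-565, [], [(v18, 0, 18080),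
  (v8, 0, 15820), (v32, 0, 19323), (v35, 5, 28476), (v3, 1, 108000)]), (512, [(v32, 0, 339),
  (v1, 1, 2800), (v3, 1, 800)], [(v0, 0, 205547), (v23, 5, 299676), (v2, 0, 17176), (v42, 0,
  4407), (v77, 1, 91800)]), (-425, [(v8, 0, 791), (v18, 0, 226), (v3, 1, 1200)], [(v55, 5,
  7684), (v42, 0, 339), (v2, 0, 1469), (v75, 1, 3400)]), (470, [(v2, 0, 1921), (v18, 0, 2260),
  (v58, 5, 6328), (v79, 1, 2800)], [(v8, 0, 791), (v19, 1, 200), (v3, 1, 450)])])) (.node 3 100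
  (.node 2 60 (.leaf 287280 [(v7, 3, 357273), (v34, 0, 1890), (v68, 2, 69920), (v90, 2,
  457900), (v5, 3, 122949)] [(1000, [], []), (-470, [(v39, 3, 265), (v45, 3, 15), (v6, 0, 24)],
  [(v38, 0, 53), (v7, 3, 480), (v44, 0, 3)]), (0, [(v5, 3, 95), (v34, 0, 6), (v7, 3, 55)], []),
  (125, [(v7, 3, 1980), (v90, 2, 1900), (v28, 0, 513), (v68, 2, 3800), (v34, 0, 45)], [(v2, 0,
  1), (v26, 0, 12), (v55, 3, 40), (v5, 3, 30)]), (470, [(v5, 3, 10), (v6, 0, 1)], [(v4, 0, 1),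
  (v7, 3, 10)])]) (.node 4 279 (.leaf 122760000 [(v81, 4, 16870000), (v67, 4, 118550000), (v35,
  3, 14378265), (v29, 3, 885084255), (v38, 0, 32249052)] [(1000, [], []), (-470, [(v6, 0,
  6696), (v45, 3, 4185), (v39, 4, 26500)], [(v38, 0, 32643), (v89, 4, 15000), (v29, 3, 126945),
  (v82, 4, 25000), (v35, 3, 18135)]), (0, [(v81, 4, 6500), (v5, 3, 1523340), (v82, 4, 57500),
  (v34, 0, 76167), (v89, 4, 28000)], [(v35, 3, 120), (v6, 0, 11), (v4, 0, 19)]), (0, [(v35, 3,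
  46035), (v29, 3, 322245), (v81, 4, 10000), (v38, 0, 36828), (v67, 4, 130000)], []), (639,
  [(v56, 0, 39), (v55, 3, 130), (v6, 0, 18), (v45, 3, 160)], [(v46, 0, 93), (v49, 4, 1000),
  (v41, 4, 21000), (v44, 0, 651)])]) (.far 2))) (.node 3 60 (.node 4 250 (.node 6 (-150) (.node
  1 (-60) (.node 4 417 (.node 5 (-32) (.far 4) (.leaf 22518000 [(v81, 4, 2568000), (v37, 5,
  98776875), (v29, 3, 58810900), (v55, 3, 13441300), (v40, 0, 11168928)] [(1000, [], []), (0,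
  [(v6, 0, 10008), (v45, 3, 10425), (v39, 4, 26500)], [(v38, 0, 150815), (v44, 0, 3753), (v27,
  5, 990375), (v70, 4, 304000), (v35, 3, 83400)]), (470, [(v34, 0, 113841), (v82, 4, 57500),
  (v89, 4, 28000), (v5, 3, 3794700), (v81, 4, 6500)], [(v35, 3, 200), (v6, 0, 11), (v4, 0,
  19)]), (80, [(v81, 4, 56000), (v27, 5, 2293500), (v38, 0, 96327), (v44, 0, 13761), (v67, 4,
  24000)], [(v2, 0, 12927), (v55, 3, 590750), (v42, 0, 6255), (v69, 4, 51000)]), (708, [(v5, 3,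
  50), (v6, 0, 3)], [(v57, 4, 1000), (v44, 0, 556), (v54, 0, 139), (v41, 4, 12000)])])) (.far
  2)) (.node 4 447 (.leaf 7822500 [(v38, 0, 935571), (v29, 3, 26238900), (v1, 1, 77085150),
  (v70, 4, 1794000), (v31, 3, 3747350)] [(1000, [], []), (-518, [(v61, 4, 22500), (v79, 1,
  11175), (v55, 3, 67050), (v39, 4, 91000), (v6, 0, 38889)], [(v38, 0, 41869), (v44, 0, 447),
  (v33, 1, 28310), (v70, 4, 76000), (v35, 3, 19370)]), (470, [(v70, 4, 44000), (v5, 3, 625800),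
  (v1, 1, 163900), (v34, 0, 21903)], [(v38, 0, 447), (v35, 3, 745), (v40, 0, 447), (v86, 4,
  6000), (v33, 1, 2235)]), (80, [(v33, 1, 119200), (v89, 4, 8000), (v44, 0, 4023), (v38, 0,
  17433), (v82, 4, 8000)], [(v2, 0, 13857), (v55, 3, 633250), (v42, 0, 6705), (v69, 4,
  51000)]), (1000, [], [(v41, 4, 21000), (v44, 0, 1043), (v46, 0, 149), (v49, 4, 1000)])])
  (.far 2))) (.leaf 7900200 [(v47, 6, 6544760), (v35, 3, 3672900), (v49, 4, 644292), (v15, 6,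
  11251800), (v44, 0, 669669)] [(1000, [], []), (-470, [(v49, 4, 186), (v47, 6, 130), (v20, 0,
  210), (v6, 0, 63)], [(v31, 6, 320), (v38, 0, 29), (v15, 6, 320), (v70, 4, 192), (v44, 0,
  27)]), (470, [(v70, 4, 56), (v15, 6, 320), (v34, 0, 3), (v22, 0, 34), (v41, 4, 56)], [(v6, 0,
  11), (v35, 3, 200), (v4, 0, 19)]), (0, [(v47, 6, 200), (v44, 0, 33), (v15, 6, 120), (v41, 4,
  396)], []), (1000, [], [(v57, 4, 12), (v44, 0, 4), (v54, 0, 1), (v41, 4, 144)])])) (.node 2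
  59 (.node 6 (-373) (.far 2) (.leaf 106755957000 [(v51, 2, 131890935000), (v7, 3,
  254180850000), (v47, 6, 21846697000), (v15, 6, 11128698000), (v54, 0, 19553285521)] [(1000,
  [], []), (-308, [(v10, 0, 4103), (v47, 6, 7000), (v14, 0, 3357)], [(v46, 0, 19769), (v44, 0,
  28721), (v15, 6, 318000), (v7, 3, 410300)]), (529, [(v12, 0, 746), (v28, 0, 373), (v15, 6,
  2000)], [(v51, 2, 634100), (v23, 2, 857900), (v55, 6, 12390), (v88, 6, 81420), (v14, 0,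
  198063)]), (80, [(v51, 2, 6154500), (v47, 6, 560500), (v15, 6, 2478000), (v54, 0, 1694539)],
  [(v55, 6, 3000), (v26, 0, 1492), (v52, 0, 373)]), (0, [(v6, 0, 14547), (v47, 6, 410000),
  (v42, 0, 20142), (v18, 0, 158152)], [(v35, 3, 400), (v54, 0, 171), (v57, 3, 950), (v7, 3,
  900)])])) (.far 2))) (.node 5 150 (.node 1 (-545) (.node 2 450 (.leaf 432000 [(v39, 5,
  416880), (v50, 0, 32409), (v45, 5, 215100), (v17, 2, 6840), (v68, 2, 251720)] [(1000, [],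
  []), (-317, [(v19, 5, 20), (v9, 5, 640), (v77, 2, 20), (v26, 0, 99)], [(v50, 0, 9), (v17, 2,
  120), (v39, 5, 12), (v68, 2, 8)]), (725, [(v50, 0, 1791), (v68, 2, 6160), (v22, 0, 126),
  (v45, 5, 5040), (v49, 5, 1980)], [(v8, 0, 189), (v51, 2, 560), (v10, 0, 423), (v14, 0,
  180)]), (-282, [(v49, 5, 360), (v19, 5, 360), (v28, 0, 54), (v68, 2, 920), (v12, 0, 477)],
  [(v88, 2, 80), (v26, 0, 119), (v52, 0, 41), (v45, 5, 200)]), (470, [(v34, 0, 293), (v88, 2,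
  1520), (v6, 0, 18), (v47, 5, 3800), (v56, 0, 589)], [(v78, 2, 860), (v74, 2, 2720), (v49, 5,
  8100), (v12, 0, 297), (v28, 0, 1215)])]) (.far 4)) (.leaf 91560000 [(v3, 1, 52152000), (v23,
  5, 12116440), (v18, 0, 721362), (v32, 0, 8925465), (v29, 5, 205475900)] [(1000, [], []),
  (-545, [], [(v18, 0, 17440), (v8, 0, 15260), (v32, 0, 18639), (v35, 5, 45780), (v3, 1,
  108000)]), (474, [(v32, 0, 327), (v1, 1, 2800), (v3, 1, 800)], [(v0, 0, 52647), (v23, 5,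
  141700), (v2, 0, 6540), (v36, 0, 4251), (v77, 1, 27000)]), (-470, [(v8, 0, 763), (v18, 0,
  218), (v3, 1, 1200)], [(v29, 5, 333540), (v79, 1, 6800), (v42, 0, 2943), (v2, 0, 38695),
  (v75, 1, 85000)]), (470, [(v2, 0, 5559), (v18, 0, 6540), (v58, 5, 30520), (v79, 1, 8400)],
  [(v8, 0, 763), (v19, 1, 200), (v3, 1, 450)])])) (.node 3 (-470) (.node 6 150 (.node 4 244
  (.leaf 6588000 [(v69, 4, 7719000), (v17, 6, 35035960), (v27, 6, 15986880), (v48, 0, 96441),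
  (v40, 0, 904935)] [(1000, [], []), (-470, [(v69, 4, 1875), (v51, 6, 1220), (v6, 0, 1098),
  (v61, 4, 8625), (v53, 6, 2440)], [(v18, 0, 1403), (v82, 4, 2250), (v27, 6, 18300), (v8, 0,
  1708)]), (470, [(v91, 4, 500), (v56, 0, 549), (v27, 6, 13420), (v69, 4, 5500)], [(v23, 6,
  480), (v6, 0, 23), (v10, 0, 24), (v4, 0, 55)]), (-205, [(v43, 6, 260), (v44, 0, 15), (v4, 0,
  66)], [(v48, 0, 549), (v27, 6, 1220), (v17, 6, 69540), (v69, 4, 17250), (v18, 0, 549)]),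
  (622, [(v48, 0, 549), (v17, 6, 14640), (v53, 6, 3050), (v69, 4, 6000), (v27, 6, 4270)],
  [(v44, 0, 244), (v54, 0, 61), (v57, 4, 750), (v41, 4, 9000)])]) (.far 2)) (.node 6 100 (.node
  1 (-100) (.node 4 207 (.node 5 (-74) (.far 4) (.leaf 907591500 [(v53, 6, 396238365), (v61, 4,
  1047988000), (v84, 5, 2995238250), (v6, 0, 9834156), (v51, 6, 499788045)] [(1000, [], []),
  (-100, [(v61, 4, 5013500), (v84, 5, 776250), (v51, 6, 536130), (v53, 6, 689310), (v6, 0,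
  436563)], []), (494, [(v50, 0, 1702), (v41, 4, 18500), (v22, 0, 4255), (v84, 5, 241500),
  (v39, 4, 18500)], [(v38, 0, 2484), (v51, 6, 41400), (v6, 0, 2139), (v86, 4, 160000), (v4, 0,
  3243)]), (-205, [(v43, 6, 130), (v44, 0, 5), (v4, 0, 22)], [(v84, 5, 215625), (v23, 6,
  25530), (v42, 0, 2553), (v20, 0, 10212), (v61, 4, 46250)]), (603, [(v20, 0, 1010988), (v51,
  6, 612720), (v6, 0, 68931), (v61, 4, 814000), (v84, 5, 9315000)], [(v46, 0, 69), (v49, 4,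
  1000), (v41, 4, 21000), (v44, 0, 483)])])) (.far 2)) (.node 4 247 (.leaf 637260000 [(v70, 4,
  307867500), (v17, 6, 2363397270), (v18, 0, 24364574), (v79, 1, 242582405), (v27, 6,
  138863400)] [(1000, [], []), (-550, [(v20, 0, 2223), (v39, 4, 5000), (v9, 1, 7410), (v6, 0,
  741)], [(v38, 0, 94601), (v44, 0, 2223), (v27, 6, 118560), (v70, 4, 336000), (v17, 6,
  355680)]), (470, [(v91, 4, 3600), (v62, 4, 50400), (v56, 0, 3211), (v79, 1, 14820), (v34, 0,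
  1235)], [(v40, 0, 4446), (v51, 6, 14820), (v6, 0, 247), (v86, 4, 48000), (v4, 0, 1235)]),
  (-205, [(v27, 6, 30875), (v53, 6, 8645), (v44, 0, 741), (v67, 4, 6000)], [(v2, 0, 190190),
  (v23, 6, 118560), (v42, 0, 6669), (v79, 1, 395200), (v39, 4, 459000)]), (623, [(v2, 0, 45),
  (v17, 6, 420), (v79, 1, 280), (v18, 0, 34)], [(v46, 0, 247), (v49, 4, 3000), (v41, 4, 63000),
  (v44, 0, 1729)])]) (.far 2))) (.node 3 (-250) (.node 4 (-30) (.node 4 30 (.node 1 (-470)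
  (.node 2 (-30) (.node 5 100 (.node 1 (-69) (.far 0) (.node 2 472 (.leaf 227976000 [(v3, 1,
  50032000), (v68, 2, 108675000), (v50, 0, 9721548), (v39, 5, 336488505), (v45, 5, 118160775)]
  [(1000, [], []), (-270, [(v26, 0, 1947), (v19, 5, 590), (v9, 5, 18880), (v77, 2, 375)],
  [(v17, 2, 750), (v50, 0, 59), (v68, 2, 50), (v39, 5, 118)]), (472, [(v50, 0, 635076), (v68,
  2, 1932000), (v3, 1, 944000), (v45, 5, 2503665), (v39, 5, 1730175)], []), (-95, [(v49, 5,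
  3540), (v19, 5, 3540), (v28, 0, 354), (v68, 2, 5750), (v12, 0, 3127)], [(v58, 2, 3075), (v72,
  2, 175), (v26, 0, 354), (v45, 5, 1180), (v16, 0, 2950)]), (433, [(v34, 0, 826), (v88, 2,
  125), (v13, 2, 3250), (v47, 5, 2950), (v58, 2, 6375)], [(v28, 0, 7965), (v78, 2, 5375), (v49,
  5, 79650), (v12, 0, 1947), (v74, 2, 17000)])]) (.far 4))) (.node 2 150 (.node 6 (-150) (.node
  4 184 (.leaf 161000 [(v17, 2, 41860), (v70, 4, 14750), (v34, 0, 26841), (v41, 4, 710375),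
  (v13, 2, 947600)] [(1000, [], []), (-205, [(v6, 0, 3381), (v13, 2, 8740), (v39, 4, 26125),
  (v58, 2, 8740), (v34, 0, 483)], [(v38, 0, 69), (v68, 2, 460), (v48, 0, 69), (v82, 4, 375)]),
  (575, [(v70, 4, 825), (v41, 4, 2400), (v13, 2, 2944), (v58, 2, 1932), (v34, 0, 207)], [(v8,
  0, 207), (v23, 2, 400), (v51, 2, 1840), (v10, 0, 549), (v4, 0, 180)]), (-95, [(v67, 4, 75),
  (v68, 2, 92)], [(v88, 2, 276), (v69, 4, 350), (v91, 4, 25)]), (592, [(v34, 0, 483), (v58, 2,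
  8740), (v41, 4, 1500), (v13, 2, 8740), (v39, 4, 1125)], [(v4, 0, 23), (v41, 4, 3250), (v44,
  0, 46)])]) (.far 2)) (.leaf 1365000 [(v23, 2, 1024100), (v28, 0, 677859), (v47, 6, 517740),
  (v5, 6, 1450400), (v51, 2, 513120)] [(1000, [], []), (-205, [(v10, 0, 33), (v47, 6, 140),
  (v14, 0, 27)], [(v46, 0, 7), (v54, 0, 11), (v15, 6, 170), (v17, 2, 110)]), (575, [(v12, 0,
  6), (v15, 6, 40), (v28, 0, 3)], [(v36, 0, 9), (v23, 2, 200), (v6, 0, 9), (v51, 2, 20), (v4,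
  0, 27)]), (-95, [(v17, 2, 90), (v28, 0, 9), (v15, 6, 10)], [(v2, 0, 3), (v26, 0, 36), (v55,
  6, 80), (v5, 6, 60)]), (503, [(v22, 0, 9), (v31, 6, 600), (v40, 0, 855), (v45, 6, 430), (v47,
  6, 10)], [(v28, 0, 429), (v72, 2, 260), (v45, 6, 20), (v5, 6, 335), (v23, 2, 260)])])) (.node
  4 515 (.node 5 (-228) (.far 0) (.leaf 657552000 [(v6, 0, 184237851), (v11, 5, 1600027750),
  (v57, 4, 230610600), (v86, 4, 1338189000), (v84, 5, 832600500)] [(1000, [], []), (-205,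
  [(v20, 0, 5871), (v84, 5, 25750), (v6, 0, 11742), (v57, 4, 11400), (v39, 4, 15200)], [(v48,
  0, 346389), (v44, 0, 13699), (v27, 5, 3090000), (v70, 4, 1368000), (v8, 0, 473594)]), (60,
  [(v91, 4, 3800), (v70, 4, 28500), (v22, 0, 45011), (v84, 5, 592250), (v61, 4, 104500)],
  [(v27, 5, 25750), (v11, 5, 25750), (v86, 4, 79800), (v6, 0, 5871)]), (-95, [(v67, 4, 148200),
  (v27, 5, 1673750), (v44, 0, 17613), (v4, 0, 123291)], [(v86, 4, 9000), (v57, 4, 2400), (v42,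
  0, 309), (v20, 0, 7416), (v84, 5, 25750)]), (757, [(v86, 4, 76000), (v57, 4, 15200), (v6, 0,
  17613), (v20, 0, 7828), (v84, 5, 206000)], [(v44, 0, 412), (v54, 0, 103), (v41, 4, 7200),
  (v57, 4, 600)])])) (.node 5 (-169) (.far 4) (.node 6 (-276) (.far 2) (.leaf 42757000 [(v45,
  6, 3422250), (v27, 5, 45103000), (v21, 5, 150650000), (v14, 0, 17254393), (v55, 6, 39334750)]
  [(1000, [], []), (-205, [(v10, 0, 759), (v47, 6, 1750), (v14, 0, 621)], [(v8, 0, 11661),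
  (v84, 6, 21125), (v21, 5, 34500), (v27, 5, 34500)]), (60, [(v12, 0, 781287), (v21, 5, 69000),
  (v15, 6, 1647750), (v43, 5, 69000), (v84, 6, 211250)], [(v27, 5, 51750), (v21, 5, 172500),
  (v55, 6, 42250), (v88, 6, 21125), (v14, 0, 34983)]), (-95, [(v43, 5, 2000), (v27, 5, 15000),
  (v54, 0, 845), (v4, 0, 1352)], [(v2, 0, 69), (v26, 0, 828), (v55, 6, 1000), (v5, 6, 750)]),
  (272, [(v22, 0, 207), (v31, 6, 7500), (v40, 0, 19665), (v45, 6, 5375), (v47, 6, 125)], [(v14,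
  0, 9130563), (v55, 6, 5492500), (v45, 6, 422500), (v82, 5, 5382000), (v21, 5,
  70173000)])])))))) (.node 4 62 (.node 5 (-319) (.far 4) (.leaf 49445000 [(v42, 0, 4984056),
  (v27, 5, 128417500), (v11, 5, 34534000), (v57, 4, 172658750), (v20, 0, 42512811)] [(1000, [],
  []), (-205, [(v20, 0, 69223), (v11, 5, 31000), (v49, 4, 79750), (v37, 5, 15500)], [(v8, 0,
  1276), (v32, 0, 319), (v21, 5, 4000), (v27, 5, 7000)]), (-45, [(v16, 0, 638), (v11, 5, 2000),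
  (v26, 0, 319)], [(v42, 0, 2697), (v27, 5, 77500), (v20, 0, 7192), (v57, 4, 36250), (v10, 0,
  10788)]), (-95, [(v43, 5, 13000), (v44, 0, 1595), (v4, 0, 7018)], [(v11, 5, 155000), (v42, 0,
  9889), (v20, 0, 19778), (v39, 4, 159500)]), (531, [(v42, 0, 9889), (v11, 5, 434000), (v39, 4,
  159500), (v20, 0, 197780)], [(v14, 0, 319), (v10, 0, 638), (v21, 5, 7000)])])) (.far 2)))
  (.node 2 60 (.leaf 1184400 [(v9, 1, 19950), (v17, 2, 8455300), (v3, 1, 789000), (v13, 2,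
  4334575), (v32, 0, 134514)] [(1000, [], []), (-735, [(v26, 0, 47), (v25, 1, 100)], [(v18, 0,
  329), (v8, 0, 658), (v3, 1, 4500), (v32, 0, 846), (v17, 2, 49350)]), (60, [(v32, 0, 141),
  (v1, 1, 1400), (v3, 1, 400)], []), (-95, [(v8, 0, 329), (v18, 0, 94), (v3, 1, 600)], [(v9, 1,
  350), (v19, 1, 100), (v2, 0, 141)]), (515, [(v2, 0, 423), (v9, 1, 2800), (v18, 0, 188)],
  [(v19, 1, 100), (v8, 0, 329), (v3, 1, 225)])]) (.node 4 149 (.leaf 343147000 [(v2, 0,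
  111193634), (v70, 4, 570815000), (v25, 1, 290136525), (v33, 1, 88703425), (v18, 0, 31373440)]
  [(1000, [], []), (-735, [(v20, 0, 188), (v9, 1, 400), (v26, 0, 329), (v33, 1, 100)], [(v18,
  0, 413177), (v8, 0, 196084), (v3, 1, 268200), (v70, 4, 2961000), (v33, 1, 134100)]), (0,
  [(v32, 0, 2037873), (v82, 4, 3478000), (v48, 0, 14006), (v1, 1, 46309200), (v22, 0,
  1190510)], [(v0, 0, 329), (v2, 0, 94), (v33, 1, 150)]), (-95, [(v8, 0, 329), (v18, 0, 94),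
  (v3, 1, 600)], [(v2, 0, 141), (v9, 1, 350), (v19, 1, 100)]), (574, [(v2, 0, 423), (v9, 1,
  2800), (v18, 0, 188)], [(v19, 1, 100), (v3, 1, 225), (v8, 0, 329)])]) (.far 2)))) (.node 5
  (-366) (.node 2 227 (.node 6 (-356) (.far 2) (.leaf 4400213400 [(v23, 2, 1961666800), (v51,
  2, 1283059600), (v45, 6, 1434605950), (v15, 6, 3390052050), (v54, 0, 2275888153)] [(1000, [],
  []), (-327, [(v10, 0, 979), (v47, 6, 1750), (v14, 0, 801)], [(v46, 0, 141421), (v54, 0,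
  222233), (v15, 6, 1447125), (v17, 2, 1468500)]), (613, [(v12, 0, 178), (v28, 0, 89), (v15, 6,
  500)], [(v88, 6, 170250), (v23, 2, 445000), (v51, 2, 356000), (v10, 0, 20203), (v14, 0,
  383857)]), (-95, [(v47, 6, 113500), (v54, 0, 222233), (v17, 2, 1468500), (v15, 6, 255375)],
  [(v55, 6, 750), (v26, 0, 356), (v52, 0, 89)]), (0, [(v22, 0, 3204), (v31, 6, 92750), (v6, 0,
  12460), (v47, 6, 1500), (v56, 0, 979)], [(v5, 6, 3149625), (v72, 2, 2314000), (v54, 0,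
  5778058), (v45, 6, 2610500), (v23, 2, 2314000)])])) (.far 10)) (.node 6 (-485) (.far 8)
  (.leaf 3221806500 [(v45, 6, 184363350), (v43, 5, 210453625), (v14, 0, 1159264557), (v21, 5,
  6495095750), (v55, 6, 1284294000)] [(1000, [], []), (-133, [(v10, 0, 1067), (v47, 6, 1400),
  (v14, 0, 873)], [(v84, 6, 18300), (v27, 5, 24250), (v21, 5, 24250), (v8, 0, 17751)]), (420,
  [(v12, 0, 1189317), (v21, 5, 48500), (v15, 6, 1427400), (v43, 5, 48500), (v84, 6, 183000)],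
  [(v88, 6, 18300), (v21, 5, 121250), (v27, 5, 36375), (v55, 6, 36600), (v14, 0, 53253)]),
  (-96, [(v43, 5, 6500), (v44, 0, 915), (v4, 0, 4026)], [(v2, 0, 97), (v26, 0, 1164), (v55, 6,
  800), (v5, 6, 600)]), (0, [(v22, 0, 291), (v31, 6, 6000), (v40, 0, 27645), (v45, 6, 4300),
  (v47, 6, 100)], [(v14, 0, 4633011), (v55, 6, 1586000), (v45, 6, 122000), (v82, 5, 1261000),
  (v21, 5, 16441500)])])))) (.node 2 154 (.node 6 (-436) (.far 2) (.leaf 3046659000 [(v23, 2,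
  2119341500), (v51, 2, 1326530000), (v45, 6, 842745750), (v15, 6, 1826979000), (v54, 0,
  1611682611)] [(1000, [], []), (-289, [(v10, 0, 1199), (v47, 6, 1750), (v14, 0, 981)], [(v46,
  0, 5341), (v54, 0, 8393), (v15, 6, 44625), (v17, 2, 81750)]), (577, [(v15, 6, 500), (v12, 0,
  218), (v28, 0, 109)], [(v23, 2, 250700), (v55, 6, 8085), (v51, 2, 185300), (v88, 6, 53130),
  (v14, 0, 151074)]), (-95, [(v47, 6, 16625), (v51, 2, 81750), (v15, 6, 73500), (v54, 0,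
  58751)], [(v55, 6, 1000), (v2, 0, 109), (v26, 0, 1308), (v5, 6, 750)]), (-45, [(v22, 0, 327),
  (v31, 6, 7500), (v40, 0, 31065), (v45, 6, 5375), (v47, 6, 125)], [(v54, 0, 2400398), (v72, 2,
  1417000), (v45, 6, 885500), (v5, 6, 1068375), (v23, 2, 1417000)])])) (.far 2))) (.node 1
  (-60) (.node 5 (-86) (.far 0) (.leaf 8514000 [(v25, 3, 5416882), (v62, 5, 20792300), (v42, 0,
  420411), (v53, 3, 8163894), (v76, 5, 5558700)] [(1000, [], []), (0, [(v26, 0, 1), (v25, 3,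
  4)], [(v24, 0, 1), (v27, 3, 4)]), (470, [(v37, 3, 8), (v52, 0, 5), (v1, 3, 56)], [(v0, 0, 7),
  (v53, 3, 10), (v36, 0, 1)]), (-360, [(v43, 3, 52), (v44, 0, 5), (v4, 0, 22)], [(v53, 3,
  4902), (v62, 5, 3100), (v42, 0, 645), (v25, 3, 2666), (v76, 5, 6900)]), (399, [(v2, 0, 1),
  (v1, 3, 16)], [(v3, 3, 1), (v0, 0, 1)])])) (.leaf 1800 [(v2, 0, 498), (v53, 3, 1285), (v37,
  3, 1818), (v61, 1, 13600), (v27, 3, 655)] [(1000, [], []), (-530, [(v26, 0, 1), (v25, 3, 4)],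
  [(v24, 0, 1), (v27, 3, 4)]), (470, [(v37, 3, 8), (v52, 0, 5), (v1, 3, 56)], [(v0, 0, 7),
  (v53, 3, 10), (v36, 0, 1)]), (-360, [(v43, 3, 52), (v44, 0, 5), (v4, 0, 22)], [(v27, 3, 2),
  (v61, 1, 50), (v53, 3, 2), (v1, 3, 24), (v2, 0, 3)]), (470, [(v2, 0, 1), (v1, 3, 16)], [(v3,
  3, 1), (v0, 0, 1)])]))))) (.node 1 (-150) (.node 5 (-143) (.far 0) (.leaf 14786200 [(v62, 5,
  19575500), (v25, 3, 5255250), (v76, 5, 9282500), (v53, 3, 9688250), (v42, 0, 1135849)]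
  [(1000, [], []), (-45, [(v26, 0, 47), (v25, 3, 100)], [(v24, 0, 47), (v27, 3, 100)]), (470,
  [(v37, 3, 40), (v52, 0, 47), (v1, 3, 280)], [(v0, 0, 329), (v53, 3, 250), (v36, 0, 47)]),
  (-735, [(v43, 3, 2400), (v53, 3, 3300), (v44, 0, 752), (v54, 0, 2585)], [(v53, 3, 81510),
  (v62, 5, 58280), (v42, 0, 20163), (v25, 3, 44330), (v76, 5, 129720)]), (470, [(v2, 0, 47),
  (v1, 3, 400)], [(v3, 3, 25), (v0, 0, 47)])])) (.leaf 211500 [(v27, 3, 230900), (v2, 0,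
  60771), (v75, 1, 241815), (v61, 1, 412425), (v53, 3, 74150)] [(1000, [], []), (-575, [(v26,
  0, 47), (v25, 3, 100)], [(v24, 0, 47), (v27, 3, 100)]), (470, [(v37, 3, 40), (v52, 0, 47),
  (v1, 3, 280)], [(v0, 0, 329), (v53, 3, 250), (v36, 0, 47)]), (-735, [(v43, 3, 2400), (v53, 3,
  3300), (v44, 0, 752), (v54, 0, 2585)], [(v27, 3, 150), (v53, 3, 150), (v75, 1, 940), (v2, 0,
  141)]), (470, [(v2, 0, 47), (v1, 3, 400)], [(v53, 3, 50), (v8, 0, 2961), (v81, 1, 940), (v3,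
  3, 2100), (v27, 3, 50)])]))))))))))))) (.node 5 (-250) (.node 1 (-192) (.far 6) (.node 3
  (-846) (.node 6 (-58) (.far 6) (.leaf 19488000 [(v8, 0, 8489112), (v21, 2, 32712000), (v11,
  2, 6461200), (v31, 6, 110460000), (v33, 1, 10893125)] [(1000, [], []), (-596, [(v20, 0, 216),
  (v9, 1, 250), (v19, 1, 125)], [(v8, 0, 2), (v18, 0, 1), (v21, 2, 150)]), (-80, [(v52, 0, 52),
  (v11, 2, 800), (v50, 0, 8), (v1, 1, 875)], [(v2, 0, 32), (v33, 1, 125), (v0, 0, 112)]), (0,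
  [(v43, 2, 1800), (v44, 0, 204), (v3, 1, 1375)], [(v19, 1, 250), (v2, 0, 144), (v9, 1, 875)]),
  (470, [(v2, 0, 54), (v9, 1, 875), (v18, 0, 24)], [(v3, 1, 1125), (v8, 0, 672), (v19, 1,
  500)])])) (.far 0))) (.node 3 (-150) (.node 4 129 (.leaf 1548000 [(v57, 4, 2347500), (v27, 5,
  5106594), (v86, 4, 716000), (v20, 0, 1624884), (v42, 0, 53793)] [(1000, [], []), (0, [(v20,
  0, 1161), (v47, 2, 3225), (v6, 0, 1548), (v39, 4, 15500)], [(v8, 0, 4), (v32, 0, 1), (v21, 5,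
  16), (v27, 5, 28)]), (-80, [(v16, 0, 387), (v11, 5, 258), (v87, 5, 129), (v84, 5, 645), (v39,
  4, 250)], [(v27, 5, 258), (v20, 0, 129), (v86, 4, 1000)]), (425, [(v43, 5, 52), (v44, 0, 5),
  (v4, 0, 22)], [(v42, 0, 7869), (v11, 5, 102168), (v57, 4, 22000), (v45, 2, 32250), (v84, 5,
  11352)]), (564, [(v42, 0, 39), (v20, 0, 924), (v45, 2, 250), (v11, 5, 2376)], [(v14, 0,
  15093), (v86, 4, 50000), (v57, 4, 10000), (v82, 5, 6192), (v21, 5, 104748)])]) (.far 10))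
  (.leaf 330000 [(v21, 5, 1489224), (v45, 2, 26750), (v42, 0, 51759), (v53, 3, 475200), (v11,
  5, 448536)] [(1000, [], []), (-425, [(v26, 0, 3), (v25, 3, 20)], [(v8, 0, 1), (v11, 5, 4)]),
  (-80, [(v62, 5, 6), (v16, 0, 9), (v84, 5, 18), (v1, 3, 20)], [(v0, 0, 432), (v42, 0, 15),
  (v90, 3, 1400), (v36, 0, 171), (v82, 5, 120)]), (-575, [(v43, 5, 8), (v27, 5, 60), (v54, 0,
  5), (v4, 0, 8)], [(v42, 0, 39), (v21, 5, 264), (v45, 2, 250), (v11, 5, 396)]), (470, [(v42,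
  0, 15), (v53, 3, 230), (v20, 0, 186), (v25, 3, 90), (v84, 5, 744)], [(v21, 5, 36), (v14, 0,
  891), (v53, 3, 1000), (v82, 5, 864), (v90, 3, 200)])])))) (.node 1 (-250) (.node 1 637 (.far
  4) (.node 3 (-806) (.node 5 (-249) (.far 6) (.leaf 3486000 [(v27, 5, 15750000), (v39, 2,
  11930835), (v42, 0, 386614), (v47, 2, 114955), (v20, 0, 3764465)] [(1000, [], []), (193,
  [(v20, 0, 9), (v9, 2, 20), (v19, 2, 10)], [(v24, 0, 249), (v27, 5, 1000)]), (-125, [(v62, 5,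
  1750), (v11, 5, 14500), (v84, 5, 11250), (v45, 2, 2490), (v16, 0, 13197)], [(v10, 0, 8715),
  (v27, 5, 74000), (v9, 2, 7470), (v42, 0, 2324), (v49, 2, 6640)]), (0, [(v43, 5, 13000), (v44,
  0, 1245), (v4, 0, 5478)], [(v42, 0, 13), (v45, 2, 50), (v5, 2, 220)]), (470, [(v48, 0, 78),
  (v6, 0, 63), (v45, 2, 560), (v47, 2, 260)], [(v14, 0, 249), (v10, 0, 498), (v21, 5,
  7000)])])) (.far 0))) (.leaf 25200 [(v0, 0, 34195), (v11, 2, 20670), (v18, 0, 316), (v15, 2,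
  54470), (v33, 1, 16200)] [(1000, [], []), (-625, [(v25, 1, 4), (v26, 0, 1)], [(v8, 0, 2),
  (v18, 0, 1), (v21, 2, 90)]), (-125, [(v15, 2, 100), (v11, 2, 235), (v50, 0, 14), (v9, 1,
  42)], [(v33, 1, 6), (v2, 0, 2), (v0, 0, 7)]), (-75, [(v43, 2, 90), (v44, 0, 17), (v3, 1,
  88)], [(v42, 0, 13), (v45, 2, 50), (v5, 2, 220)]), (470, [(v2, 0, 9), (v9, 1, 112), (v18, 0,
  4)], [(v3, 1, 6), (v46, 0, 7), (v19, 1, 26), (v21, 2, 105)])]))) (.node 1 (-250) (.node 5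
  (-305) (.far 6) (.leaf 658800 [(v27, 5, 2592000), (v39, 2, 1083665), (v36, 0, 293532), (v45,
  2, 129015), (v20, 0, 742248)] [(1000, [], []), (170, [(v20, 0, 27), (v9, 2, 40), (v19, 2,
  20)], [(v24, 0, 61), (v27, 5, 200)]), (-200, [(v62, 5, 1050), (v11, 5, 8700), (v84, 5, 6750),
  (v45, 2, 1220), (v16, 0, 9699)], [(v10, 0, 19215), (v27, 5, 133200), (v9, 2, 10980), (v42, 0,
  5124), (v49, 2, 9760)]), (0, [(v43, 5, 2600), (v44, 0, 305), (v4, 0, 1342)], [(v42, 0, 39),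
  (v45, 2, 100), (v5, 2, 440)]), (470, [(v48, 0, 234), (v6, 0, 189), (v45, 2, 1120), (v47, 2,
  520)], [(v14, 0, 3843), (v46, 0, 2379), (v49, 2, 13420), (v21, 5, 46200)])])) (.leaf 75600
  [(v0, 0, 108885), (v11, 2, 30468), (v18, 0, 1308), (v15, 2, 116188), (v33, 1, 51840)] [(1000,
  [], []), (-625, [(v20, 0, 4), (v9, 1, 16), (v26, 0, 7), (v33, 1, 4)], [(v8, 0, 2), (v18, 0,
  1), (v21, 2, 60)]), (-200, [(v50, 0, 21), (v11, 2, 235), (v15, 2, 100), (v9, 1, 63)], [(v33,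
  1, 6), (v2, 0, 2), (v0, 0, 7)]), (-92, [(v43, 2, 60), (v44, 0, 17), (v3, 1, 88)], [(v42, 0,
  39), (v45, 2, 100), (v5, 2, 440)]), (470, [(v2, 0, 9), (v18, 0, 4), (v9, 1, 112)], [(v3, 1,
  27), (v46, 0, 14), (v19, 1, 40), (v7, 2, 35)])]))) (.node 1 (-250) (.node 5 (-416) (.far 6)
  (.node 6 (-124) (.far 6) (.leaf 62868000 [(v27, 5, 106589625), (v19, 2, 37317800), (v10, 0,
  30529668), (v88, 6, 45500000), (v20, 0, 22686482)] [(1000, [], []), (125, [(v20, 0, 9), (v9,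
  2, 8), (v19, 2, 4)], [(v8, 0, 52), (v11, 5, 125)]), (-513, [(v62, 5, 875), (v11, 5, 7250),
  (v84, 5, 5625), (v45, 2, 832), (v16, 0, 11024)], [(v19, 2, 167648), (v74, 5, 108500), (v10,
  0, 502944), (v88, 6, 390000), (v27, 5, 895125)]), (0, [(v43, 5, 125), (v44, 0, 20), (v4, 0,
  88)], [(v42, 0, 13), (v45, 2, 20), (v5, 2, 88)]), (474, [(v48, 0, 78), (v6, 0, 63), (v45, 2,
  224), (v47, 2, 104)], [(v14, 0, 260), (v46, 0, 52), (v41, 2, 2288), (v21, 5, 1375)])])))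
  (.leaf 100800 [(v33, 1, 93600), (v7, 2, 81900), (v8, 0, 6944), (v2, 0, 42543), (v18, 0,
  6208)] [(1000, [], []), (-625, [(v20, 0, 4), (v9, 1, 16), (v26, 0, 7), (v33, 1, 4)], [(v8, 0,
  2), (v18, 0, 1), (v21, 2, 36)]), (-625, [(v11, 2, 24), (v22, 0, 18), (v5, 2, 55), (v7, 2,
  23)], [(v33, 1, 6), (v2, 0, 2), (v0, 0, 7)]), (-125, [(v43, 2, 52), (v44, 0, 5), (v4, 0,
  22)], [(v42, 0, 13), (v45, 2, 20), (v5, 2, 88)]), (470, [(v6, 0, 63), (v48, 0, 78), (v45, 2,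
  224), (v47, 2, 104)], [(v4, 0, 31), (v46, 0, 22), (v41, 2, 848), (v43, 2, 24)])]))) (.node 3
  (-207) (.node 2 151 (.node 6 (-245) (.far 10) (.leaf 293000400 [(v51, 2, 53606000), (v23, 2,
  192080000), (v45, 6, 156073600), (v27, 4, 1062126450), (v54, 0, 114188767)] [(1000, [], []),
  (0, [(v10, 0, 77), (v47, 6, 200), (v14, 0, 63)], [(v46, 0, 51793), (v54, 0, 81389), (v15, 6,
  770100), (v17, 2, 808500)]), (575, [(v12, 0, 98), (v15, 6, 400), (v28, 0, 49)], [(v88, 6,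
  90600), (v23, 2, 245000), (v51, 2, 196000), (v10, 0, 7399), (v14, 0, 140581)]), (190, [(v54,
  0, 155379), (v51, 2, 147000), (v27, 4, 2589650), (v47, 6, 90600)], [(v2, 0, 49), (v26, 0,
  588), (v55, 6, 800), (v5, 6, 600)]), (-80, [(v22, 0, 1764), (v31, 6, 74200), (v6, 0, 6860),
  (v47, 6, 1200), (v56, 0, 539)], [(v54, 0, 1058057), (v72, 2, 637000), (v45, 6, 694600), (v5,
  6, 838050), (v23, 2, 637000)])])) (.far 10)) (.node 2 (-543) (.leaf 1725000 [(v0, 0,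
  1154784), (v36, 0, 130962), (v29, 4, 11528750), (v3, 3, 3000000), (v52, 0, 148695)] [(1000,
  [], []), (-52, [(v26, 0, 207), (v25, 3, 1000)], [(v24, 0, 207), (v27, 3, 1000)]), (228,
  [(v52, 0, 207), (v37, 3, 400), (v1, 3, 2800)], [(v0, 0, 1449), (v36, 0, 207), (v53, 3,
  2500)]), (-604, [(v43, 3, 13000), (v44, 0, 1035), (v4, 0, 4554)], [(v31, 4, 50), (v26, 0,
  3)]), (-80, [(v2, 0, 207), (v1, 3, 4000)], [(v0, 0, 207), (v3, 3, 250)])]) (.far 10))))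
  (.node 2 150 (.node 3 534 (.far 2) (.leaf 30000 [(v15, 4, 11730), (v12, 0, 18375), (v37, 4,
  20424), (v1, 4, 158538), (v72, 2, 25000)] [(1000, [], []), (0, [(v9, 4, 10), (v10, 0, 1)],
  [(v24, 0, 1), (v27, 4, 10)]), (575, [(v11, 4, 10), (v15, 4, 40), (v12, 0, 7)], [(v36, 0, 9),
  (v23, 2, 40), (v13, 2, 160), (v51, 2, 20), (v4, 0, 18)]), (-233, [(v30, 0, 1), (v27, 4, 10)],
  [(v26, 0, 4), (v55, 4, 30), (v52, 0, 1)]), (-125, [(v34, 0, 293), (v56, 0, 589), (v88, 2,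
  4560), (v47, 4, 5700), (v6, 0, 18)], [(v28, 0, 69), (v1, 4, 36), (v12, 0, 69), (v72, 2, 140),
  (v37, 4, 138)])])) (.node 3 (-271) (.far 10) (.node 6 (-433) (.far 10) (.leaf 4646782800
  [(v33, 3, 2371545330), (v43, 3, 152242800), (v55, 6, 718450810), (v45, 6, 959139460), (v8, 0,
  4023339441)] [(1000, [], []), (-357, [(v10, 0, 2698889), (v33, 3, 649500), (v79, 6, 745250),
  (v75, 6, 203250)], [(v8, 0, 234686), (v84, 6, 101625), (v76, 6, 33875), (v27, 3, 757750)]),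
  (-169, [(v5, 6, 271000), (v43, 3, 433000), (v84, 6, 1355000), (v15, 6, 9214000), (v12, 0,
  7157923)], [(v0, 0, 1897), (v36, 0, 271), (v53, 3, 2500)]), (-636, [(v43, 3, 18000), (v53, 3,
  11000), (v44, 0, 3252), (v30, 0, 14905)], [(v2, 0, 433), (v26, 0, 5196), (v55, 6, 4000), (v5,
  6, 3000)]), (-125, [(v22, 0, 1299), (v31, 6, 30000), (v40, 0, 123405), (v45, 6, 21500), (v47,
  6, 500)], [(v46, 0, 3402947), (v14, 0, 234686), (v45, 6, 2981000), (v3, 3, 9526000)])])))))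
  (.node 2 100 (.leaf 30000 [(v15, 4, 25180), (v12, 0, 5625), (v37, 4, 39784), (v1, 4, 80108),
  (v86, 2, 360000)] [(1000, [], []), (0, [(v26, 0, 3), (v25, 4, 20)], [(v24, 0, 3), (v27, 4,
  20)]), (550, [(v11, 4, 20), (v15, 4, 80), (v12, 0, 21)], [(v13, 4, 140), (v10, 0, 3), (v14,
  0, 12)]), (-267, [(v30, 0, 3), (v27, 4, 20)], [(v52, 0, 1), (v26, 0, 4), (v55, 4, 20)]),
  (-200, [(v2, 0, 63), (v48, 0, 78), (v47, 4, 920), (v20, 0, 168)], [(v28, 0, 21), (v86, 2,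
  1290), (v37, 4, 200), (v12, 0, 21), (v64, 2, 60)])]) (.node 3 (-407) (.far 10) (.node 6
  (-538) (.far 10) (.leaf 50581146000 [(v53, 3, 20928132750), (v8, 0, 46627386421), (v33, 3,
  5645973750), (v45, 6, 11221498750), (v3, 3, 12516570000)] [(1000, [], []), (-411, [(v10, 0,
  2518109), (v33, 3, 403500), (v79, 6, 559625), (v75, 6, 152625)], [(v84, 6, 152625), (v76, 6,
  50875), (v8, 0, 437932), (v27, 3, 941500)]), (-160, [(v50, 0, 109483), (v43, 3, 807000),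
  (v84, 6, 2442000), (v15, 6, 20757000), (v12, 0, 18831076)], [(v0, 0, 2849), (v36, 0, 407),
  (v53, 3, 2500)]), (-704, [(v43, 3, 24000), (v53, 3, 33000), (v44, 0, 6512), (v54, 0, 22385)],
  [(v2, 0, 269), (v26, 0, 3228), (v55, 6, 2000), (v5, 6, 1500)]), (-200, [(v22, 0, 807), (v31,
  6, 15000), (v40, 0, 76665), (v45, 6, 10750), (v47, 6, 250)], [(v0, 0, 407), (v3, 3,
  250)])]))))) (.node 2 150 (.leaf 18750 [(v1, 4, 26472), (v37, 4, 22056), (v12, 0, 5625),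
  (v15, 4, 9120), (v86, 2, 203125)] [(1000, [], []), (0, [(v26, 0, 1), (v25, 4, 4)], [(v24, 0,
  1), (v27, 4, 4)]), (575, [(v11, 4, 4), (v15, 4, 16), (v12, 0, 7)], [(v13, 4, 28), (v10, 0,
  1), (v14, 0, 4)]), (-333, [(v30, 0, 1), (v27, 4, 4)], [(v52, 0, 1), (v26, 0, 4), (v55, 4,
  12)]), (-625, [(v2, 0, 21), (v48, 0, 26), (v47, 4, 184), (v20, 0, 56)], [(v64, 2, 40), (v86,
  2, 860), (v12, 0, 21), (v37, 4, 120), (v28, 0, 21)])]) (.node 3 (-507) (.far 10) (.node 6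
  (-616) (.far 10) (.leaf 216489000 [(v3, 3, 155965000), (v13, 4, 216574176), (v0, 0,
  337030785), (v33, 3, 4002000), (v45, 6, 16033875)] [(1000, [], []), (-411, [(v10, 0,
  1197196), (v33, 3, 154000), (v79, 6, 232375), (v75, 6, 63375)], [(v24, 0, 507), (v27, 3,
  1000)]), (-66, [(v84, 6, 253500), (v43, 3, 77000), (v15, 6, 2154750), (v50, 0, 13013), (v12,
  0, 2238236)], [(v0, 0, 3549), (v36, 0, 507), (v53, 3, 2500)]), (-754, [(v43, 3, 8000), (v53,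
  3, 11000), (v44, 0, 2704), (v54, 0, 9295)], [(v2, 0, 77), (v26, 0, 924), (v55, 6, 500), (v5,
  6, 375)]), (-407, [(v22, 0, 462), (v31, 6, 7500), (v40, 0, 43890), (v45, 6, 5375), (v47, 6,
  125)], [(v0, 0, 507), (v3, 3, 250)])]))))

theorem t0_ok : treeOK dat t0 (rootIv dat 0) = true := by decide +kernel

def t1 : Tree dat :=
.node 4 250 (.node 3 250 (.leaf 144 [(v75, 3, 92), (v45, 3, 56), (v68, 1, 27), (v60, 1, 24),
  (v30, 4, 360)] [(0, [(v27, 1, 1), (v17, 1, 7), (v81, 4, 2), (v30, 4, 4)], [(v16, 4, 24),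
  (v80, 1, 1), (v69, 3, 8)]), (1000, [], []), (0, [(v76, 1, 1), (v11, 1, 40), (v84, 1, 24),
  (v75, 3, 28), (v16, 4, 448)], [(v66, 1, 1), (v17, 1, 4), (v85, 4, 24), (v68, 1, 1)]), (625,
  [(v27, 1, 1), (v30, 4, 4)], [(v66, 1, 5), (v26, 3, 64), (v75, 3, 12), (v5, 1, 6)]), (0,
  [(v60, 1, 4), (v75, 3, 12), (v68, 1, 1)], [])]) (.node 5 (-291) (.far 13) (.leaf 2910000
  [(v13, 1, 410504), (v73, 5, 1000000), (v85, 4, 4286721), (v29, 1, 1376721), (v81, 4, 242597)]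
  [(31, [(v27, 1, 4), (v17, 1, 19), (v81, 4, 6), (v14, 4, 8)], [(v80, 1, 1455), (v2, 1, 19206),
  (v66, 1, 15714), (v22, 5, 110000)]), (1000, [], []), (0, [(v12, 5, 6000), (v82, 1, 873),
  (v73, 5, 11200), (v5, 1, 8148), (v59, 5, 3800)], [(v58, 1, 2), (v17, 1, 2), (v85, 4, 20),
  (v68, 1, 1)]), (-54, [(v68, 1, 1), (v67, 4, 4)], [(v31, 1, 1), (v26, 4, 4)]), (0, [(v13, 1,
  970), (v58, 1, 1067), (v85, 4, 1940), (v73, 5, 2000), (v29, 1, 1940)], [])]))) (.node 4 150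
  (.node 3 250 (.leaf 96 [(v75, 3, 192), (v27, 1, 7), (v68, 1, 32), (v60, 1, 16), (v30, 4,
  260)] [(0, [(v81, 4, 10), (v67, 4, 20), (v17, 1, 33)], [(v69, 3, 8), (v80, 1, 1), (v16, 4,
  40)]), (1000, [], []), (0, [(v11, 1, 9), (v84, 1, 18), (v69, 3, 24), (v12, 4, 100)], [(v17,
  1, 15), (v26, 3, 12), (v14, 4, 20)]), (625, [(v27, 1, 3), (v30, 4, 20)], [(v66, 1, 5), (v26,
  3, 64), (v75, 3, 12), (v5, 1, 6)]), (0, [(v68, 1, 1), (v75, 3, 12), (v60, 1, 4)], [])])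
  (.node 5 (-191) (.far 13) (.leaf 24066000 [(v85, 4, 40110000), (v73, 5, 12600000), (v13, 1,
  5764380), (v58, 1, 9064287), (v81, 4, 6100540)] [(0, [(v81, 4, 1910), (v17, 1, 6303), (v59,
  5, 6000)], [(v80, 1, 955), (v2, 1, 12606), (v66, 1, 10314), (v22, 5, 110000)]), (1000, [],
  []), (0, [(v12, 5, 6000), (v82, 1, 573), (v73, 5, 11200), (v5, 1, 5348), (v59, 5, 3800)],
  [(v85, 4, 40), (v68, 1, 2), (v10, 4, 20), (v13, 1, 5)]), (-97, [(v17, 1, 382), (v68, 1, 191),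
  (v59, 5, 3000)], [(v31, 1, 3), (v26, 4, 20)]), (0, [(v73, 5, 126000), (v58, 1, 101421), (v81,
  4, 19100), (v13, 1, 63030)], [])]))) (.node 4 100 (.node 5 (-150) (.node 2 (-676) (.node 3
  242 (.leaf 2178000 [(v75, 3, 4500000), (v68, 1, 653642), (v60, 1, 457985), (v30, 4, 6083880),
  (v59, 4, 678810)] [(0, [(v61, 3, 1000), (v68, 1, 121)], [(v12, 4, 2420), (v80, 1, 121), (v69,
  3, 1250)]), (1000, [], []), (162, [(v11, 1, 363), (v84, 1, 726), (v69, 3, 1000), (v12, 4,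
  6050)], [(v17, 1, 121), (v26, 3, 100), (v14, 4, 242)]), (242, [(v27, 1, 1), (v30, 4, 10)],
  []), (0, [(v60, 1, 484), (v68, 1, 121), (v75, 3, 1500)], [])]) (.far 13)) (.far 0)) (.node 0
  60 (.node 3 (-486) (.leaf 522000 [(v87, 5, 419360), (v6, 0, 1218550), (v81, 4, 295335), (v73,
  5, 8370), (v17, 1, 198987)] [(530, [(v81, 4, 15), (v59, 5, 40), (v17, 1, 33)], [(v80, 1, 15),
  (v2, 1, 198), (v66, 1, 162), (v22, 5, 2200)]), (1000, [], []), (0, [(v62, 1, 9), (v59, 5,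
  28), (v73, 5, 32), (v5, 1, 12)], [(v66, 1, 1), (v17, 1, 4), (v85, 4, 60), (v68, 1, 1)]),
  (257, [(v17, 1, 2), (v59, 5, 20), (v68, 1, 1)], [(v66, 1, 1), (v69, 4, 10)]), (125, [(v73, 5,
  60), (v58, 1, 9), (v6, 0, 125), (v29, 1, 60)], [(v81, 4, 60), (v72, 1, 69), (v64, 1, 243),
  (v85, 4, 660), (v89, 5, 1760)])]) (.far 13)) (.node 3 (-325) (.leaf 6000 [(v58, 1, 93), (v10,
  4, 15000), (v13, 1, 2700), (v81, 4, 990), (v73, 5, 4000)] [(-470, [(v81, 4, 15), (v17, 1,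
  33), (v59, 5, 40)], [(v80, 1, 15), (v2, 1, 198), (v66, 1, 162), (v22, 5, 2200)]), (1000, [],
  []), (0, [(v62, 1, 9), (v59, 5, 28), (v73, 5, 32), (v5, 1, 12)], [(v85, 4, 60), (v68, 1, 2),
  (v10, 4, 30), (v13, 1, 5)]), (337, [(v17, 1, 2), (v68, 1, 1), (v59, 5, 20)], [(v31, 1, 1),
  (v26, 4, 10)]), (0, [(v73, 5, 280), (v58, 1, 177), (v81, 4, 50), (v13, 1, 110)], [])]) (.far
  9)))) (.node 0 250 (.node 2 100 (.leaf 6160 [(v5, 1, 987), (v16, 0, 18304), (v77, 2, 5600),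
  (v26, 0, 1584), (v7, 1, 495)] [(0, [(v5, 1, 7), (v7, 1, 11), (v77, 2, 60)], []), (1000, [],
  []), (550, [(v11, 1, 8), (v22, 0, 4), (v5, 1, 3), (v16, 0, 92)], [(v23, 1, 1), (v17, 1, 23),
  (v10, 0, 32), (v4, 0, 12)]), (0, [(v27, 1, 1), (v30, 0, 4)], [(v26, 0, 4), (v31, 1, 1)]),
  (-450, [(v6, 0, 4), (v5, 1, 1)], [(v4, 0, 4), (v7, 1, 1)])]) (.node 5 (-416) (.far 4) (.leaf
  78000 [(v13, 1, 1040), (v89, 5, 46875), (v20, 0, 314808), (v29, 1, 44226), (v23, 1, 5434)]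
  [(0, [(v29, 1, 1599), (v35, 1, 65), (v13, 1, 520), (v20, 0, 4576), (v89, 5, 1500)], []),
  (1000, [], []), (-201, [(v62, 1, 156), (v73, 5, 200), (v5, 1, 208), (v59, 5, 175)], [(v23, 1,
  1), (v17, 1, 23), (v10, 0, 32), (v4, 0, 12)]), (324, [(v17, 1, 1248), (v27, 1, 52), (v68, 1,
  1456), (v89, 5, 2625), (v6, 0, 624)], [(v26, 0, 4), (v31, 1, 1)]), (-450, [(v73, 5, 375),
  (v66, 1, 52), (v31, 1, 3328), (v6, 0, 4992)], [(v72, 1, 13), (v35, 1, 364), (v10, 0, 1456),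
  (v64, 1, 871), (v89, 5, 2625)])]))) (.node 0 150 (.node 2 100 (.leaf 18480 [(v5, 1, 2961),
  (v16, 0, 91520), (v77, 2, 16800), (v26, 0, 7920), (v7, 1, 1485)] [(0, [(v5, 1, 7), (v7, 1,
  11), (v77, 2, 60)], []), (1000, [], []), (550, [(v11, 1, 24), (v22, 0, 20), (v5, 1, 9), (v16,
  0, 460)], [(v14, 0, 20), (v10, 0, 40), (v17, 1, 21)]), (0, [(v27, 1, 3), (v30, 0, 20)],
  [(v31, 1, 3), (v26, 0, 20)]), (-450, [(v6, 0, 20), (v5, 1, 3)], [(v27, 1, 3), (v30, 0, 20),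
  (v14, 0, 80), (v7, 1, 9)])]) (.node 5 (-316) (.far 4) (.leaf 948000 [(v20, 0, 6582280), (v26,
  0, 23700), (v23, 1, 76314), (v29, 1, 543441), (v89, 5, 750000)] [(0, [(v20, 0, 139040), (v89,
  5, 36000), (v29, 1, 29151), (v35, 1, 1185), (v13, 1, 9480)], []), (1000, [], []), (-271,
  [(v62, 1, 237), (v73, 5, 400), (v5, 1, 316), (v59, 5, 350)], [(v23, 1, 4), (v13, 1, 23),
  (v10, 0, 60), (v4, 0, 80)]), (274, [(v17, 1, 158), (v59, 5, 750), (v68, 1, 79)], [(v31, 1,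
  3), (v26, 0, 20)]), (-450, [(v73, 5, 750), (v66, 1, 79), (v31, 1, 5056), (v6, 0, 12640)],
  [(v64, 1, 15879), (v35, 1, 6636), (v72, 1, 237), (v10, 0, 44240), (v89, 5, 63000)])])))
  (.node 0 100 (.node 2 144 (.leaf 198000 [(v5, 1, 36903), (v16, 0, 1556280), (v77, 2, 111625),
  (v85, 2, 147125), (v7, 1, 11319)] [(0, [(v7, 1, 33), (v5, 1, 21), (v77, 2, 125)], []), (1000,
  [], []), (572, [(v11, 1, 8), (v22, 0, 10), (v5, 1, 3), (v16, 0, 230)], [(v78, 1, 1620), (v72,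
  1, 2142), (v58, 1, 9828), (v10, 2, 37500), (v77, 2, 33125)]), (0, [(v4, 2, 250), (v21, 1,
  36), (v27, 1, 81), (v28, 0, 270)], [(v31, 1, 1), (v26, 0, 10)]), (-450, [(v76, 1, 18), (v5,
  1, 144), (v71, 2, 1375)], [(v70, 1, 198), (v4, 2, 1000), (v77, 2, 125)])]) (.node 2 (-711)
  (.node 3 (-545) (.node 5 (-229) (.far 4) (.leaf 687000 [(v26, 0, 1183930), (v29, 1, 400521),
  (v13, 1, 164422), (v89, 5, 750000), (v20, 0, 5496000)] [(0, [(v20, 0, 201520), (v89, 5,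
  48000), (v29, 1, 28167), (v35, 1, 1145), (v13, 1, 9160)], []), (1000, [], []), (-284, [(v62,
  1, 687), (v73, 5, 1600), (v5, 1, 916), (v59, 5, 1400)], [(v23, 1, 4), (v13, 1, 23), (v10, 0,
  90), (v4, 0, 120)]), (0, [(v17, 1, 458), (v59, 5, 3000), (v68, 1, 229)], [(v31, 1, 1), (v26,
  0, 10)]), (-450, [(v73, 5, 3000), (v66, 1, 229), (v31, 1, 14656), (v6, 0, 54960)], [(v64, 1,
  1145), (v72, 1, 687), (v59, 5, 28000)])])) (.far 0)) (.far 6))) (.node 4 60 (.node 3 150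
  (.node 5 (-150) (.node 0 (-250) (.node 2 54 (.node 3 208 (.leaf 702000 [(v67, 4, 769275),
  (v75, 3, 381375), (v59, 4, 655200), (v27, 1, 89154), (v71, 2, 1387750)] [(-75, [(v17, 1,
  1404), (v39, 3, 9450), (v77, 2, 2600), (v27, 1, 468), (v68, 1, 819)], [(v12, 4, 5200), (v80,
  1, 156), (v69, 3, 1875)]), (1000, [], []), (527, [(v11, 1, 117), (v84, 1, 234), (v69, 3,
  375), (v12, 4, 3250)], [(v68, 1, 8424), (v17, 1, 35100), (v77, 2, 65000), (v36, 3, 64125),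
  (v86, 3, 172125)]), (604, [(v27, 1, 3), (v30, 4, 50)], [(v66, 1, 130), (v26, 3, 2000), (v75,
  3, 375), (v5, 1, 156)]), (80, [(v84, 1, 11232), (v80, 1, 3744), (v71, 2, 247000), (v75, 3,
  9375), (v45, 3, 33000)], [(v30, 4, 41600), (v78, 1, 1092), (v39, 3, 36000), (v67, 4, 35750),
  (v74, 1, 3315)])]) (.far 13)) (.far 0)) (.node 3 269 (.leaf 3228000 [(v3, 0, 2788992), (v28,
  4, 3463375), (v69, 3, 915000), (v26, 3, 3134500), (v80, 1, 189107)] [(-625, [(v33, 0, 5724),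
  (v70, 1, 1155), (v35, 1, 777), (v19, 0, 1600), (v78, 1, 280)], [(v3, 0, 19368), (v80, 1,
  18561), (v69, 3, 183500), (v91, 3, 10000), (v28, 4, 403500)]), (1000, [], []), (152, [(v91,
  3, 64000), (v84, 1, 10491), (v80, 1, 2959), (v1, 0, 180768), (v3, 0, 51648)], [(v68, 1,
  6187), (v86, 3, 49000), (v33, 0, 5380), (v17, 1, 5380), (v36, 3, 31000)]), (634, [(v74, 1,
  4842), (v91, 3, 1500), (v78, 1, 269), (v3, 0, 16678), (v28, 4, 60525)], [(v66, 1, 1345),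
  (v26, 3, 16000), (v75, 3, 3000), (v5, 1, 1614)]), (80, [(v9, 0, 11836), (v66, 1, 2421), (v80,
  1, 8608), (v47, 0, 82852), (v26, 3, 77000)], [(v78, 1, 9415), (v19, 0, 27976), (v69, 3,
  21000), (v3, 0, 74244)])]) (.far 9))) (.leaf 4800 [(v85, 4, 10700), (v75, 3, 2055), (v26, 3,
  4960), (v17, 1, 4686), (v73, 5, 3045)] [(-450, [(v61, 3, 5), (v59, 5, 5), (v17, 1, 3)], [(v5,
  1, 630), (v18, 1, 1110), (v26, 3, 12950), (v32, 1, 201), (v34, 5, 4130)]), (1000, [], []),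
  (0, [(v62, 1, 375), (v11, 1, 84), (v73, 5, 1240), (v5, 1, 360), (v61, 3, 420)], [(v17, 1, 3),
  (v26, 3, 4), (v14, 4, 10)]), (575, [(v17, 1, 2), (v68, 1, 1), (v59, 5, 20)], [(v66, 1, 15),
  (v26, 3, 320), (v75, 3, 60), (v5, 1, 18)]), (80, [(v73, 5, 55), (v58, 1, 27), (v13, 1, 30),
  (v75, 3, 25)], [(v72, 1, 3), (v86, 3, 80), (v64, 1, 9), (v89, 5, 80)])])) (.node 5 (-218)
  (.far 13) (.node 6 116 (.leaf 667603200 [(v73, 5, 275105600), (v33, 6, 65345500), (v85, 6,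
  1324445375), (v81, 6, 171541475), (v66, 1, 178432128)] [(-450, [(v33, 6, 3569750), (v89, 5,
  2030000), (v21, 1, 885080), (v19, 6, 1635000), (v35, 1, 685937)], [(v73, 5, 500), (v66, 1,
  109), (v2, 1, 218)]), (1000, [], []), (0, [(v76, 1, 109), (v73, 5, 5500), (v5, 1, 2071), (v7,
  1, 1199)], [(v66, 1, 7308), (v72, 1, 2639), (v77, 6, 49250), (v85, 6, 82500), (v78, 1,
  1914)]), (-116, [(v33, 6, 272500), (v77, 6, 245250), (v68, 1, 1520441), (v89, 5, 4147000)],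
  [(v66, 1, 1071579), (v81, 6, 1226250), (v26, 4, 3477100), (v22, 5, 957000), (v50, 5,
  957000)]), (80, [(v31, 1, 22127), (v66, 1, 69542), (v73, 5, 87000), (v33, 6, 81750)], [(v85,
  6, 599500), (v72, 1, 72703), (v81, 6, 54500), (v64, 1, 256041), (v89, 5, 1276000)])]) (.far
  9)))) (.node 0 60 (.node 5 (-150) (.node 2 191 (.leaf 302544000 [(v7, 1, 28903457), (v16, 0,
  3002749200), (v11, 1, 1260600), (v77, 2, 144000000), (v5, 1, 22383481)] [(0, [(v5, 1, 1337),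
  (v7, 1, 2101), (v77, 2, 6000)], []), (1000, [], []), (191, [(v11, 1, 24), (v22, 0, 50), (v5,
  1, 9), (v16, 0, 1150)], []), (417, [(v4, 2, 2000), (v21, 1, 382), (v11, 1, 573)], [(v10, 2,
  1500), (v20, 2, 1000), (v5, 1, 191)]), (-470, [(v76, 1, 191), (v5, 1, 1528), (v71, 2,
  11000)], [(v85, 2, 1000), (v14, 2, 2000), (v70, 1, 191), (v21, 1, 764)])]) (.far 4)) (.node 2
  126 (.leaf 29106000 [(v59, 5, 75821130), (v77, 2, 1829750), (v5, 1, 8607438), (v85, 2,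
  109602625), (v83, 2, 5897375)] [(80, [(v77, 2, 1000), (v5, 1, 147), (v7, 1, 231)], [(v73, 5,
  20), (v2, 1, 6), (v66, 1, 3)]), (1000, [], []), (563, [(v62, 1, 9), (v73, 5, 32), (v5, 1,
  12), (v59, 5, 28)], [(v78, 1, 5670), (v72, 1, 7497), (v58, 1, 34398), (v10, 2, 150000), (v77,
  2, 132500)]), (0, [(v27, 1, 210), (v77, 2, 500), (v68, 1, 1407), (v89, 5, 5880)], [(v20, 2,
  500), (v10, 2, 750), (v5, 1, 63)]), (-470, [(v80, 1, 504), (v66, 1, 6321), (v73, 5, 32340),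
  (v31, 1, 51744), (v83, 2, 44000)], [(v70, 1, 693), (v35, 1, 2520), (v64, 1, 7119), (v85, 2,
  32000), (v89, 5, 53760)])]) (.node 3 100 (.node 5 (-204) (.far 4) (.leaf 1224000 [(v4, 0,
  1979225), (v6, 0, 1363825), (v17, 1, 462366), (v59, 5, 250125), (v61, 3, 3909915)] [(0,
  [(v61, 3, 255), (v59, 5, 125), (v17, 1, 102)], []), (1000, [], []), (-311, [(v73, 5, 250),
  (v5, 1, 102), (v70, 1, 51)], [(v23, 1, 1), (v17, 1, 15), (v26, 3, 40), (v4, 0, 50)]), (100,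
  [(v17, 1, 34), (v59, 5, 250), (v68, 1, 17)], []), (-435, [(v29, 1, 1020), (v58, 1, 153),
  (v73, 5, 750), (v6, 0, 2125)], [(v72, 1, 153), (v64, 1, 255), (v59, 5, 7000)])])) (.node 2
  (-379) (.node 3 (-567) (.node 5 (-579) (.far 4) (.leaf 579000 [(v20, 0, 5114500), (v29, 1,
  405879), (v13, 1, 185280), (v26, 0, 2470400), (v59, 5, 1000000)] [(0, [(v29, 1, 8685), (v35,
  1, 579), (v13, 1, 4632), (v20, 0, 77200), (v59, 5, 24000)], []), (1000, [], []), (-127,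
  [(v62, 1, 1737), (v73, 5, 1600), (v5, 1, 2316), (v59, 5, 1400)], [(v13, 1, 1737), (v10, 0,
  9650), (v28, 5, 2000)]), (-234, [(v68, 1, 193), (v17, 1, 386), (v59, 5, 1000)], [(v29, 1,
  1737), (v26, 0, 9650), (v12, 5, 2000)]), (-470, [(v13, 1, 1158), (v58, 1, 579), (v20, 0,
  19300), (v73, 5, 1000), (v29, 1, 2316)], [(v72, 1, 1737), (v64, 1, 2895), (v59, 5,
  28000)])])) (.far 0)) (.far 4))))) (.node 2 (-250) (.node 2 (-150) (.node 2 (-100) (.node 2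
  (-60) (.node 3 (-250) (.node 3 (-150) (.node 3 (-100) (.node 3 (-60) (.node 4 (-470) (.node 5
  250 (.node 0 (-470) (.node 2 169 (.node 3 169 (.leaf 3971500 [(v11, 1, 505141), (v69, 3,
  2907500), (v84, 1, 676676), (v4, 2, 4718500), (v9, 5, 2359916)] [(-205, [(v23, 1, 206), (v64,
  1, 33), (v77, 5, 252), (v81, 5, 404), (v27, 1, 504)], [(v84, 1, 507), (v80, 1, 169), (v6, 2,
  7100), (v91, 3, 5600), (v4, 2, 700)]), (1000, [], []), (584, [(v91, 3, 5000), (v11, 1,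
  10647), (v84, 1, 21294), (v69, 3, 52000), (v4, 2, 45000)], [(v68, 1, 1), (v17, 1, 2), (v58,
  1, 2), (v85, 5, 20)]), (584, [(v21, 1, 338), (v11, 1, 507), (v4, 2, 2000)], [(v66, 1, 5),
  (v26, 5, 64), (v75, 5, 12), (v5, 1, 6)]), (-205, [(v84, 1, 112), (v66, 1, 21), (v20, 5, 616),
  (v79, 5, 24), (v83, 5, 20)], [(v4, 2, 168000), (v78, 1, 6253), (v19, 5, 75712), (v82, 1,
  6591), (v27, 1, 14196)])]) (.far 0)) (.far 0)) (.leaf 3948000 [(v32, 1, 434985), (v1, 0,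
  590800), (v26, 5, 6849780), (v3, 0, 4368800), (v18, 1, 723612)] [(-735, [(v17, 1, 1974),
  (v64, 1, 329), (v19, 0, 600), (v3, 0, 1000)], [(v32, 1, 282), (v20, 5, 3948), (v18, 1, 141),
  (v1, 0, 1400), (v3, 0, 1000)]), (1000, [], []), (470, [(v32, 1, 141), (v1, 0, 1400), (v3, 0,
  400)], [(v58, 1, 546), (v72, 1, 119), (v77, 5, 1060), (v10, 5, 1200), (v78, 1, 90)]), (548,
  [(v3, 0, 600), (v18, 1, 94), (v8, 1, 329)], [(v66, 1, 141), (v26, 5, 2820), (v45, 0, 500),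
  (v2, 1, 329)]), (-205, [(v18, 1, 611), (v2, 1, 141), (v20, 5, 3948), (v47, 0, 1400)], [(v19,
  0, 100), (v8, 1, 329), (v3, 0, 225)])])) (.node 4 (-250) (.node 5 150 (.node 3 199 (.leaf
  119400 [(v33, 5, 18905), (v63, 5, 61690), (v25, 5, 42785), (v69, 3, 91500), (v60, 1, 6567)]
  [(60, [], [(v69, 3, 500), (v60, 1, 199)]), (1000, [], []), (470, [(v69, 3, 1000), (v27, 1,
  199), (v60, 1, 199)], [(v17, 1, 222880), (v72, 1, 4975), (v77, 5, 147260), (v36, 3, 296000),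
  (v78, 1, 7164)]), (0, [(v27, 1, 4776), (v77, 5, 3980), (v74, 1, 4179), (v69, 3, 24000)], []),
  (-95, [(v75, 3, 231000), (v66, 1, 37611), (v79, 5, 175120), (v80, 1, 28656)], [(v77, 5,
  22885), (v78, 1, 5373), (v19, 5, 31840), (v69, 3, 81750), (v27, 1, 27462)])]) (.far 13))
  (.node 6 (-250) (.node 5 100 (.node 0 (-470) (.node 2 80 (.node 3 157 (.leaf 18840000 [(v4,
  2, 19283525), (v69, 3, 26824000), (v6, 2, 23506825), (v25, 5, 5859240), (v27, 1, 6435116)]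
  [(-205, [(v68, 1, 30615), (v57, 3, 286000), (v77, 5, 3140), (v17, 1, 24492), (v33, 5,
  53380)], [(v84, 1, 9891), (v4, 2, 70650), (v80, 1, 3297), (v91, 3, 4000), (v69, 3, 71000)]),
  (1000, [], []), (540, [(v91, 3, 10000), (v11, 1, 19782), (v84, 1, 39564), (v69, 3, 104000),
  (v4, 2, 176625)], [(v74, 1, 157), (v64, 1, 628), (v77, 5, 4710), (v17, 1, 5024), (v36, 3,
  8000)]), (578, [(v69, 3, 4000), (v27, 1, 6594), (v91, 3, 2000), (v4, 2, 35325)], [(v66, 1,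
  785), (v26, 3, 16000), (v75, 3, 3000), (v5, 1, 942)]), (-95, [(v84, 1, 48356), (v66, 1,
  9891), (v80, 1, 628), (v75, 3, 77000), (v83, 5, 69080)], [(v4, 2, 1153950), (v78, 1, 6437),
  (v57, 3, 280000), (v82, 1, 20567), (v27, 1, 39564)])]) (.far 13)) (.far 4)) (.node 3 197
  (.leaf 1458292500 [(v26, 3, 1428682500), (v18, 1, 135894343), (v69, 3, 337554000), (v8, 1,
  120292928), (v3, 0, 824179050)] [(0, [], [(v69, 3, 740250), (v18, 1, 157403), (v8, 1, 64813),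
  (v3, 0, 177300)]), (1000, [], []), (421, [(v32, 1, 141), (v1, 0, 1400), (v3, 0, 400)], [(v68,
  1, 1425886), (v72, 1, 324065), (v53, 0, 7269300), (v36, 3, 23124000), (v78, 1, 453691)]),
  (598, [(v8, 1, 329), (v18, 1, 94), (v3, 0, 600)], [(v66, 1, 27777), (v26, 3, 705000), (v45,
  0, 98500), (v2, 1, 64813)]), (-95, [(v47, 0, 1516900), (v66, 1, 83331), (v26, 3, 3619000),
  (v9, 0, 216700), (v80, 1, 296288)], [(v19, 0, 100), (v8, 1, 329), (v3, 0, 225)])]) (.far 9)))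
  (.node 5 60 (.node 0 (-250) (.node 2 296 (.node 3 214 (.leaf 28504800 [(v11, 1, 11924508),
  (v75, 3, 15064550), (v69, 3, 12374650), (v4, 2, 18524375), (v71, 2, 5855575)] [(-95, [(v27,
  1, 75221), (v35, 1, 11877), (v77, 2, 50825), (v39, 3, 281200), (v7, 1, 7918)], [(v76, 1,
  222), (v6, 2, 1375), (v4, 2, 875)]), (1000, [], []), (648, [(v91, 3, 92500), (v11, 1,
  249417), (v84, 1, 498834), (v69, 3, 962000), (v4, 2, 601875)], [(v78, 1, 3330), (v72, 1,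
  4403), (v58, 1, 20202), (v10, 2, 37500), (v77, 2, 33125)]), (607, [(v21, 1, 74), (v11, 1,
  111), (v4, 2, 250)], [(v42, 2, 13375), (v5, 1, 3959), (v31, 1, 11877), (v75, 3, 18500)]),
  (-95, [(v84, 1, 185), (v20, 2, 1000), (v5, 1, 111), (v83, 2, 125)], [(v70, 1, 407), (v4, 2,
  1000), (v77, 2, 125)])]) (.far 0)) (.far 4)) (.node 3 122 (.leaf 1281000 [(v8, 1, 92659),
  (v26, 3, 1855000), (v69, 3, 616000), (v18, 1, 121634), (v3, 0, 1321260)] [(0, [], [(v69, 3,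
  7875), (v18, 1, 1037), (v8, 1, 427), (v3, 0, 2196)]), (1000, [], []), (470, [(v32, 1, 3),
  (v1, 0, 56), (v3, 0, 16)], [(v74, 1, 427), (v17, 1, 5124), (v53, 0, 10980), (v36, 3, 30000),
  (v78, 1, 427)]), (561, [(v8, 1, 7), (v18, 1, 2), (v3, 0, 24)], [(v66, 1, 183), (v26, 3,
  7500), (v45, 0, 1220), (v2, 1, 427)]), (-95, [(v2, 1, 9), (v18, 1, 4), (v9, 0, 112)], [(v19,
  0, 4), (v8, 1, 7), (v3, 0, 9)])]) (.far 13))) (.node 6 (-150) (.node 3 (-30) (.node 4 (-150)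
  (.node 6 (-100) (.node 6 (-60) (.node 3 100 (.node 2 100 (.node 0 (-950) (.leaf 14400 [(v84,
  1, 378), (v6, 2, 17065), (v69, 3, 27900), (v11, 1, 5028), (v4, 2, 18065)] [(-445, [(v39, 3,
  52), (v27, 1, 6), (v23, 1, 2), (v7, 1, 1), (v77, 2, 13)], [(v84, 1, 63), (v80, 1, 21), (v69,
  3, 710), (v91, 3, 40), (v4, 2, 360)]), (1000, [], []), (550, [(v91, 3, 50), (v11, 1, 63),
  (v84, 1, 126), (v69, 3, 520), (v4, 2, 450)], [(v78, 1, 90), (v72, 1, 119), (v58, 1, 546),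
  (v10, 2, 3000), (v77, 2, 2650)]), (550, [(v21, 1, 2), (v11, 1, 3), (v4, 2, 20)], [(v66, 1,
  1), (v69, 3, 10)]), (-45, [(v84, 1, 16), (v66, 1, 3), (v20, 2, 40), (v75, 3, 30), (v83, 2,
  20)], [(v82, 1, 11), (v4, 2, 210), (v85, 2, 110), (v77, 2, 40)])]) (.far 7)) (.node 0 (-250)
  (.node 5 (-204) (.far 6) (.leaf 81600 [(v59, 5, 51200), (v17, 1, 96084), (v73, 5, 29425),
  (v75, 3, 89505), (v26, 3, 244800)] [(-250, [(v59, 5, 125), (v17, 1, 102), (v61, 3, 255)],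
  []), (1000, [], []), (100, [], [(v17, 1, 102), (v28, 5, 125), (v26, 3, 255)]), (100, [(v17,
  1, 34), (v68, 1, 17), (v59, 5, 250)], []), (-45, [(v73, 5, 1375), (v58, 1, 918), (v13, 1,
  1020), (v75, 3, 1275)], [(v72, 1, 153), (v64, 1, 255), (v59, 5, 7000)])])) (.leaf 10500
  [(v18, 1, 1926), (v26, 3, 34300), (v69, 3, 6685), (v3, 0, 12318), (v8, 1, 861)] [(-625,
  [(v33, 0, 5724), (v70, 1, 1155), (v35, 1, 777), (v19, 0, 1600), (v78, 1, 280)], [(v69, 3,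
  315), (v18, 1, 34), (v8, 1, 14), (v3, 0, 72)]), (1000, [], []), (20, [(v32, 1, 3), (v1, 0,
  56), (v3, 0, 16)], [(v0, 1, 7), (v53, 0, 10), (v36, 3, 10)]), (550, [(v8, 1, 7), (v18, 1, 2),
  (v3, 0, 24)], [(v66, 1, 3), (v26, 3, 150), (v45, 0, 20), (v2, 1, 7)]), (-45, [(v18, 1, 4),
  (v2, 1, 9), (v9, 0, 112)], [(v19, 0, 4), (v8, 1, 7), (v3, 0, 9)])]))) (.node 6 60 (.node 0
  (-150) (.node 5 (-116) (.far 0) (.leaf 3674880 [(v34, 5, 2457840), (v33, 6, 1279828), (v85,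
  6, 4687705), (v66, 1, 601344), (v81, 6, 2260405)] [(0, [(v33, 6, 189950), (v89, 5, 105000),
  (v21, 1, 24360), (v19, 6, 87000), (v35, 1, 18879)], [(v34, 5, 10000), (v2, 1, 1827), (v5, 1,
  145), (v66, 1, 928)]), (1000, [], []), (470, [(v76, 1, 29), (v73, 5, 2750), (v5, 1, 551),
  (v7, 1, 319)], [(v66, 1, 45), (v23, 1, 28), (v77, 6, 100), (v85, 6, 3900), (v68, 1, 55)]),
  (35, [(v33, 6, 14500), (v77, 6, 13050), (v68, 1, 41847), (v89, 5, 214500)], [(v66, 1, 609),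
  (v81, 6, 1305), (v85, 6, 1595), (v22, 5, 1100), (v50, 5, 1100)]), (-45, [(v73, 5, 1500),
  (v66, 1, 638), (v31, 1, 203), (v33, 6, 1450)], [(v85, 6, 31900), (v72, 1, 2001), (v81, 6,
  2900), (v64, 1, 7047), (v89, 5, 66000)])])) (.node 5 (-66) (.far 13) (.node 6 193 (.leaf
  83376000 [(v32, 1, 10001067), (v14, 6, 98615500), (v67, 6, 7129250), (v81, 6, 356750), (v9,
  0, 399401920)] [(-453, [(v27, 1, 12352), (v64, 1, 579), (v17, 1, 63111), (v81, 6, 26500),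
  (v4, 6, 24000)], [(v22, 5, 31500), (v9, 0, 15400), (v2, 1, 2970), (v18, 1, 627)]), (1000, [],
  []), (470, [(v76, 1, 757911), (v67, 6, 3564000), (v84, 1, 840708), (v9, 0, 11209440), (v73,
  5, 5886500)], [(v66, 1, 965), (v23, 1, 1544), (v77, 6, 1000), (v85, 6, 4000), (v4, 6,
  10000)]), (35, [(v27, 1, 1544), (v77, 6, 1000), (v74, 1, 1351), (v67, 6, 8000)], [(v47, 0,
  81060), (v45, 0, 54040), (v85, 6, 189000), (v32, 1, 5211), (v2, 1, 21423)]), (-45, [(v2, 1,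
  27), (v18, 1, 12), (v9, 0, 560)], [(v4, 6, 814000), (v35, 1, 6369), (v19, 6, 76000), (v70, 1,
  146680), (v27, 1, 25669)])]) (.far 3)))) (.node 4 (-39) (.far 3) (.node 5 (-816) (.far 9)
  (.leaf 556920000 [(v72, 1, 57288504), (v79, 4, 504730000), (v83, 4, 510000000), (v12, 5,
  392518750), (v59, 5, 30483375)] [(4, [(v35, 1, 663), (v25, 4, 34000), (v59, 5, 3250), (v29,
  1, 663)], [(v22, 5, 6875), (v66, 1, 2754), (v2, 1, 3366), (v80, 1, 255)]), (1000, [], []),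
  (0, [(v62, 1, 306), (v73, 5, 200), (v5, 1, 408), (v59, 5, 175)], [(v13, 1, 6630), (v72, 1,
  9282), (v83, 4, 85000), (v58, 1, 7293), (v28, 5, 56875)]), (0, [(v68, 1, 34), (v17, 1, 68),
  (v59, 5, 125)], [(v58, 1, 73593), (v72, 1, 9282), (v12, 5, 130000), (v79, 4, 85000)]), (-39,
  [], [(v72, 1, 153), (v64, 1, 255), (v59, 5, 1750)])]))))) (.node 3 536 (.leaf 22914000 [(v6,
  6, 26960800), (v61, 3, 13323750), (v34, 6, 10016500), (v65, 6, 21322750), (v74, 1, 2241753)]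
  [(-275, [(v61, 3, 250), (v68, 1, 67)], [(v69, 3, 125), (v60, 1, 134)]), (1000, [], []), (409,
  [(v27, 1, 67), (v60, 1, 67), (v69, 3, 125)], [(v26, 3, 125), (v61, 3, 125), (v68, 1, 67)]),
  (536, [(v74, 1, 13668), (v27, 1, 5829), (v71, 6, 33500), (v34, 6, 23450), (v61, 3, 41250)],
  []), (-45, [(v68, 1, 67), (v75, 3, 375), (v60, 1, 268)], [(v61, 3, 500), (v69, 3, 125), (v74,
  1, 201)])]) (.node 3 73 (.node 5 (-209) (.far 9) (.leaf 230685840 [(v79, 6, 36723599), (v83,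
  6, 97904169), (v61, 3, 434159880), (v59, 5, 116741016), (v73, 5, 2158464)] [(-114, [(v61, 3,
  52250), (v59, 5, 18250), (v17, 1, 15257)], [(v66, 1, 209), (v2, 1, 418), (v73, 5, 1000)]),
  (1000, [], []), (287, [(v62, 1, 627), (v73, 5, 1600), (v5, 1, 836), (v59, 5, 1400)], [(v54,
  5, 547500), (v23, 1, 350911), (v83, 6, 762850), (v26, 3, 1672000), (v28, 5, 1533000)]), (304,
  [(v68, 1, 209), (v17, 1, 418), (v59, 5, 3000)], [(v66, 1, 167827), (v26, 3, 1254000), (v75,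
  3, 1881000), (v91, 5, 146000)]), (0, [(v87, 5, 1050000), (v58, 1, 618849), (v83, 6, 130625),
  (v73, 5, 336000), (v79, 6, 339625)], [(v72, 1, 627), (v64, 1, 1045), (v59, 5, 28000)])]))
  (.far 3)))) (.node 3 113 (.leaf 141024000 [(v34, 6, 61232440), (v39, 3, 190656000), (v65, 6,
  22567795), (v71, 6, 125572945), (v74, 1, 5638248)] [(-267, [(v39, 3, 1600), (v71, 6, 226),
  (v68, 1, 113)], [(v69, 3, 35000), (v18, 1, 4520), (v32, 1, 113), (v34, 6, 7910)]), (1000, [],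
  []), (397, [(v76, 1, 2825), (v11, 1, 24408), (v73, 6, 39550), (v84, 1, 1356), (v69, 3,
  84000)], [(v86, 3, 64000), (v71, 6, 10170), (v57, 3, 4000), (v68, 1, 1243)]), (556, [(v74, 1,
  19323), (v68, 1, 10735), (v6, 6, 24860), (v34, 6, 58760), (v39, 3, 228000)], [(v66, 1, 565),
  (v26, 3, 16000), (v75, 3, 3000), (v5, 1, 678)]), (-45, [(v80, 1, 5424), (v66, 1, 7119), (v75,
  3, 77000), (v79, 6, 49720)], [(v6, 6, 55935), (v78, 1, 6441), (v57, 3, 475000), (v34, 6,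
  89270), (v74, 1, 32205)])]) (.far 3))) (.node 3 30 (.node 0 (-100) (.node 2 30 (.node 3 817
  (.far 8) (.leaf 1368000 [(v14, 2, 5524200), (v1, 4, 208840), (v65, 4, 1135520), (v82, 1,
  11817), (v61, 3, 5393700)] [(-20, [(v70, 1, 3), (v64, 1, 9), (v25, 4, 160)], [(v24, 1, 6),
  (v71, 4, 5), (v65, 4, 15)]), (1000, [], []), (515, [(v24, 1, 3), (v62, 1, 3), (v65, 4, 20)],
  [(v64, 1, 3), (v25, 4, 20), (v63, 4, 20)]), (423, [(v78, 1, 3), (v1, 4, 200), (v65, 4, 20)],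
  [(v0, 1, 30), (v64, 1, 3), (v79, 4, 20)]), (-200, [(v84, 1, 570), (v66, 1, 243), (v71, 4,
  2460), (v32, 1, 96), (v79, 4, 760)], [(v70, 1, 168), (v78, 1, 27), (v14, 2, 11200), (v25, 4,
  1680), (v82, 1, 33)])])) (.node 5 (-572) (.far 6) (.leaf 12870000 [(v72, 1, 1228656), (v63,
  4, 21771750), (v59, 5, 1171125), (v12, 5, 12815625), (v9, 4, 16938350)] [(0, [(v25, 4,
  31460), (v89, 5, 3000), (v59, 5, 6000), (v35, 1, 3003), (v9, 4, 11440)], [(v66, 1, 702), (v2,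
  1, 858), (v80, 1, 65), (v22, 5, 2500)]), (1000, [], []), (-15, [(v62, 1, 429), (v73, 5, 400),
  (v5, 1, 572), (v59, 5, 350)], [(v83, 4, 20020), (v72, 1, 7579), (v28, 5, 38500), (v64, 1,
  286), (v54, 5, 5250)]), (233, [(v17, 1, 286), (v59, 5, 750), (v68, 1, 143)], [(v50, 5,
  1680000), (v72, 1, 438438), (v79, 4, 1043900), (v83, 4, 686400), (v58, 1, 1108107)]), (-150,
  [], [(v64, 1, 715), (v72, 1, 429), (v59, 5, 7000)])]))) (.leaf 4800 [(v8, 1, 2152), (v71, 4,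
  2845), (v24, 1, 870), (v65, 4, 9895), (v19, 0, 6400)] [(-550, [(v53, 4, 560), (v70, 1, 31),
  (v35, 1, 4), (v19, 0, 240), (v64, 1, 31)], [(v65, 4, 15), (v71, 4, 5), (v24, 1, 6)]), (1000,
  [], []), (470, [(v65, 4, 20), (v24, 1, 3), (v62, 1, 3)], [(v64, 1, 213), (v72, 1, 6), (v63,
  4, 1988), (v19, 0, 420), (v90, 4, 392)]), (515, [(v78, 1, 4), (v3, 0, 100), (v74, 1, 5),
  (v65, 4, 60)], [(v2, 1, 777), (v39, 0, 5670), (v79, 4, 925), (v83, 4, 135), (v66, 1, 63)]),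
  (-200, [(v84, 1, 570), (v66, 1, 243), (v71, 4, 2460), (v32, 1, 96), (v79, 4, 760)], [(v78, 1,
  21), (v19, 0, 300), (v65, 4, 140), (v3, 0, 150)])])) (.node 5 (-48) (.far 13) (.leaf 10500
  [(v0, 1, 1848), (v83, 4, 1325), (v79, 4, 4635), (v64, 1, 1617), (v12, 5, 65625)] [(-372,
  [(v70, 1, 3), (v64, 1, 9), (v25, 4, 160)], [(v71, 4, 5), (v24, 1, 6), (v65, 4, 15)]), (1000,
  [], []), (470, [(v24, 1, 3), (v65, 4, 20), (v62, 1, 3)], [(v63, 4, 20), (v64, 1, 3), (v25, 4,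
  20)]), (0, [(v78, 1, 9), (v1, 4, 920), (v89, 5, 375), (v25, 4, 120), (v74, 1, 39)], [(v0, 1,
  30), (v64, 1, 3), (v79, 4, 20)]), (-200, [(v84, 1, 1533), (v66, 1, 504), (v83, 4, 1845),
  (v32, 1, 231), (v79, 4, 1675)], [(v64, 1, 75), (v59, 5, 2000), (v70, 1, 9), (v25, 4,
  480)])])))) (.node 6 100 (.node 5 (-118) (.far 13) (.leaf 747648000 [(v66, 1, 151160832),
  (v33, 6, 27582500), (v73, 5, 536008000), (v81, 6, 269463325), (v85, 6, 942364225)] [(-349,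
  [(v33, 6, 678500), (v89, 5, 665000), (v7, 1, 49560), (v19, 6, 447810), (v23, 1, 234997)],
  [(v22, 5, 55000), (v66, 1, 3186), (v2, 1, 3894), (v80, 1, 295)]), (1000, [], []), (470,
  [(v76, 1, 59), (v7, 1, 649), (v73, 5, 5500), (v5, 1, 1121)], [(v66, 1, 7), (v72, 1, 1), (v77,
  6, 70), (v64, 1, 11)]), (-45, [(v33, 6, 5900), (v77, 6, 5310), (v68, 1, 28379), (v89, 5,
  143000)], [(v66, 1, 1239), (v81, 6, 1593), (v85, 6, 1947), (v22, 5, 2200), (v50, 5, 2200)]),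
  (-95, [(v73, 5, 3000), (v66, 1, 1298), (v31, 1, 413), (v33, 6, 1770)], [(v85, 6, 12980),
  (v72, 1, 1357), (v81, 6, 1180), (v64, 1, 4779), (v89, 5, 44000)])])) (.node 4 (-145) (.far 9)
  (.node 5 (-826) (.far 9) (.leaf 574896000 [(v83, 4, 134462475), (v72, 1, 64771616), (v12, 5,
  473686000), (v79, 4, 117591425), (v25, 4, 199850700)] [(0, [(v35, 1, 83839), (v59, 5,
  116000), (v25, 4, 908600), (v9, 4, 330400), (v89, 5, 58000)], [(v34, 5, 20000), (v66, 1,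
  13216), (v2, 1, 26019), (v5, 1, 2065)]), (1000, [], []), (0, [(v62, 1, 1239), (v73, 5, 800),
  (v5, 1, 1652), (v59, 5, 700)], [(v54, 5, 43500), (v72, 1, 90683), (v83, 4, 247800), (v64, 1,
  3422), (v28, 5, 319000)]), (-45, [(v68, 1, 413), (v17, 1, 826), (v59, 5, 1500)], [(v58, 1,
  1329447), (v72, 1, 167678), (v12, 5, 2320000), (v79, 4, 413000)]), (-145, [], [(v72, 1, 177),
  (v64, 1, 295), (v59, 5, 2000)])]))))) (.node 3 514 (.leaf 1904370000 [(v6, 6, 1374487400),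
  (v74, 1, 18223356), (v34, 6, 509523060), (v39, 3, 573420000), (v27, 1, 100594683)] [(-274,
  [(v71, 6, 1028), (v68, 1, 771), (v39, 3, 2400)], [(v69, 3, 11125), (v18, 1, 6939), (v26, 3,
  750), (v91, 3, 500), (v34, 6, 7710)]), (1000, [], []), (407, [(v91, 3, 12500), (v11, 1,
  43947), (v73, 6, 38550), (v84, 1, 18504), (v69, 3, 33250)], [(v86, 3, 32000), (v71, 6,
  15420), (v57, 3, 2000), (v68, 1, 2827)]), (514, [(v74, 1, 131841), (v68, 1, 73245), (v6, 6,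
  113080), (v34, 6, 267280), (v39, 3, 342000)], []), (-95, [(v80, 1, 6168), (v45, 3, 19000),
  (v71, 6, 73245), (v75, 3, 2125), (v65, 6, 30840)], [(v39, 3, 9000), (v34, 6, 30840), (v61, 3,
  322500), (v78, 1, 4883), (v74, 1, 79670)])]) (.node 5 (-169) (.far 9) (.leaf 1038082500
  [(v79, 6, 22200685), (v23, 1, 21176883), (v83, 6, 185574675), (v75, 6, 620696440), (v89, 5,
  330592500)] [(-122, [(v79, 6, 208715), (v89, 5, 840000), (v23, 1, 184548), (v35, 1, 46137),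
  (v83, 6, 44785)], [(v66, 1, 1183), (v2, 1, 1352), (v32, 1, 169), (v34, 5, 7000)]), (1000, [],
  []), (303, [(v73, 5, 1000), (v5, 1, 338), (v70, 1, 169)], [(v54, 5, 46800), (v72, 1, 6591),
  (v83, 6, 16900), (v20, 6, 87880), (v89, 5, 14400)]), (271, [(v68, 1, 5577), (v17, 1, 4056),
  (v71, 6, 3380), (v89, 5, 24000)], [(v66, 1, 15), (v26, 6, 320), (v75, 6, 60), (v5, 1, 18)]),
  (-95, [(v84, 1, 2535), (v66, 1, 4056), (v71, 6, 8450), (v73, 5, 4500), (v79, 6, 3380)],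
  [(v54, 5, 2100), (v72, 1, 2028), (v26, 6, 11830), (v64, 1, 4563), (v89, 5, 37800)])]))))))
  (.node 3 129 (.leaf 441180000 [(v65, 6, 66794652), (v74, 1, 15845715), (v6, 6, 145923768),
  (v57, 3, 412300000), (v34, 6, 74188416)] [(-267, [(v65, 6, 258), (v71, 6, 258), (v57, 3,
  4000), (v68, 1, 387)], [(v5, 1, 80), (v71, 6, 740), (v32, 1, 133), (v34, 6, 364)]), (1000,
  [], []), (417, [(v76, 1, 893), (v11, 1, 1320), (v73, 6, 4060), (v79, 6, 1584), (v70, 1,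
  1092)], [(v86, 3, 64000), (v71, 6, 4644), (v57, 3, 4000), (v68, 1, 1419)]), (564, [(v74, 1,
  7353), (v68, 1, 7353), (v6, 6, 3096), (v34, 6, 14448), (v57, 3, 76000)], [(v66, 1, 5), (v26,
  6, 64), (v75, 6, 12), (v5, 1, 6)]), (-95, [(v80, 1, 58), (v66, 1, 105), (v69, 6, 308), (v79,
  6, 264)], [(v6, 6, 25542), (v78, 1, 7353), (v57, 3, 475000), (v34, 6, 40764), (v74, 1,
  36765)])]) (.far 3)))) (.node 3 60 (.leaf 3000 [(v63, 4, 812), (v25, 4, 3112), (v69, 3,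
  8500), (v65, 4, 2736), (v78, 1, 267)] [(-470, [(v70, 1, 1), (v64, 1, 3), (v25, 4, 32)],
  [(v65, 4, 3), (v71, 4, 1), (v24, 1, 2)]), (1000, [], []), (470, [(v24, 1, 1), (v65, 4, 4),
  (v62, 1, 1)], [(v63, 4, 4), (v64, 1, 1), (v25, 4, 4)]), (530, [(v78, 1, 1), (v65, 4, 4), (v1,
  4, 40)], [(v79, 4, 4), (v64, 1, 1), (v0, 1, 10)]), (-360, [(v84, 1, 190), (v66, 1, 81), (v71,
  4, 492), (v32, 1, 32), (v79, 4, 152)], [(v69, 3, 25), (v78, 1, 9), (v61, 3, 325), (v1, 4,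
  324)])]) (.node 0 (-150) (.node 5 (-36) (.far 0) (.leaf 63000 [(v28, 5, 455000), (v83, 4,
  2430), (v79, 4, 22698), (v12, 5, 140000), (v64, 1, 16947)] [(-45, [(v70, 1, 1), (v64, 1, 3),
  (v25, 4, 32)], [(v24, 1, 2), (v71, 4, 1), (v65, 4, 3)]), (1000, [], []), (470, [(v62, 1, 1),
  (v24, 1, 1), (v65, 4, 4)], [(v63, 4, 4), (v64, 1, 1), (v25, 4, 4)]), (0, [(v78, 1, 1), (v1,
  4, 40), (v65, 4, 4)], [(v0, 1, 10), (v64, 1, 1), (v79, 4, 4)]), (-360, [(v84, 1, 511), (v66,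
  1, 168), (v83, 4, 369), (v32, 1, 77), (v79, 4, 335)], [(v64, 1, 225), (v59, 5, 8000), (v70,
  1, 27), (v25, 4, 864)])])) (.leaf 5400 [(v24, 1, 2808), (v71, 4, 2835), (v65, 4, 4725), (v19,
  0, 5440), (v8, 1, 312)] [(-575, [(v35, 1, 4), (v64, 1, 31), (v53, 4, 336), (v19, 0, 160),
  (v70, 1, 31)], [(v24, 1, 2), (v65, 4, 3), (v71, 4, 1)]), (1000, [], []), (470, [(v65, 4, 4),
  (v24, 1, 1), (v62, 1, 1)], [(v90, 4, 1176), (v72, 1, 30), (v63, 4, 5964), (v64, 1, 1065),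
  (v19, 0, 1400)]), (0, [(v78, 1, 12), (v3, 0, 200), (v74, 1, 15), (v65, 4, 108)], [(v2, 1,
  259), (v39, 0, 1260), (v79, 4, 185), (v83, 4, 27), (v66, 1, 21)]), (-360, [(v80, 1, 73),
  (v66, 1, 168), (v83, 4, 77), (v32, 1, 77), (v79, 4, 627)], [(v78, 1, 21), (v19, 0, 200),
  (v65, 4, 84), (v3, 0, 100)])]))))) (.node 3 60 (.leaf 4512000 [(v78, 1, 570768), (v65, 4,
  3434025), (v61, 3, 32618000), (v25, 4, 1329000), (v71, 4, 469875)] [(-470, [(v70, 1, 47),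
  (v64, 1, 141), (v25, 4, 800)], [(v65, 4, 75), (v71, 4, 25), (v24, 1, 94)]), (1000, [], []),
  (470, [(v62, 1, 47), (v24, 1, 47), (v65, 4, 100)], [(v63, 4, 100), (v64, 1, 47), (v25, 4,
  100)]), (530, [(v78, 1, 47), (v65, 4, 100), (v1, 4, 1000)], [(v0, 1, 470), (v64, 1, 47),
  (v79, 4, 100)]), (-735, [(v84, 1, 8930), (v66, 1, 3807), (v71, 4, 12300), (v32, 1, 1504),
  (v79, 4, 3800)], [(v69, 3, 1175), (v78, 1, 423), (v61, 3, 15275), (v1, 4, 8100)])]) (.node 0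
  (-60) (.node 2 60 (.leaf 789600 [(v79, 4, 5640), (v65, 4, 301560), (v10, 2, 1301900), (v62,
  1, 249711), (v85, 2, 4406250)] [(0, [(v25, 4, 800), (v64, 1, 141), (v70, 1, 47)], [(v65, 4,
  75), (v24, 1, 94), (v71, 4, 25)]), (1000, [], []), (530, [(v24, 1, 47), (v65, 4, 100), (v62,
  1, 47)], [(v64, 1, 47), (v63, 4, 100), (v25, 4, 100)]), (0, [(v78, 1, 47), (v1, 4, 1000),
  (v65, 4, 100)], [(v0, 1, 470), (v64, 1, 47), (v79, 4, 100)]), (-735, [(v84, 1, 8930), (v66,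
  1, 3807), (v71, 4, 12300), (v32, 1, 1504), (v79, 4, 3800)], [(v78, 1, 423), (v85, 2, 18800),
  (v14, 2, 75200), (v82, 1, 1269), (v25, 4, 8400)])]) (.node 5 (-546) (.far 0) (.node 6 (-113)
  (.far 2) (.leaf 207129000 [(v26, 6, 458250000), (v63, 4, 8997625), (v72, 1, 10149321), (v25,
  4, 74184500), (v59, 5, 134766625)] [(0, [(v9, 4, 54600), (v35, 1, 12831), (v25, 4, 81900),
  (v72, 1, 12831), (v89, 5, 47000)], [(v80, 1, 1365), (v2, 1, 18018), (v66, 1, 14742), (v22, 5,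
  55000)]), (1000, [], []), (0, [(v76, 1, 273), (v73, 5, 5500), (v5, 1, 5187), (v7, 1, 3003)],
  [(v72, 1, 3666), (v28, 5, 23500), (v64, 1, 1833), (v63, 4, 27300)]), (0, [(v89, 5, 9400),
  (v53, 4, 2275), (v68, 1, 8554), (v54, 5, 1175)], [(v58, 1, 1161372303), (v72, 1, 165288942),
  (v26, 6, 4105920000), (v79, 4, 231367500), (v50, 5, 849760000)]), (-735, [(v84, 1, 513240),
  (v66, 1, 731367), (v83, 4, 156000), (v73, 5, 258500), (v79, 4, 187200)], [(v72, 1, 117),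
  (v64, 1, 195), (v59, 5, 2000)])])))) (.leaf 2932800 [(v71, 4, 704775), (v49, 0, 6523600),
  (v8, 1, 1372776), (v65, 4, 1815525), (v24, 1, 704154)] [(-530, [(v25, 4, 800), (v64, 1, 141),
  (v70, 1, 47)], [(v24, 1, 94), (v65, 4, 75), (v71, 4, 25)]), (1000, [], []), (470, [(v24, 1,
  47), (v62, 1, 47), (v65, 4, 100)], [(v64, 1, 47), (v25, 4, 100), (v63, 4, 100)]), (0, [(v78,
  1, 47), (v1, 4, 1000), (v65, 4, 100)], [(v0, 1, 470), (v79, 4, 100), (v64, 1, 47)]), (-735,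
  [(v84, 1, 24017), (v66, 1, 7896), (v83, 4, 9225), (v32, 1, 3619), (v79, 4, 8375)], [(v78, 1,
  987), (v19, 0, 23500), (v65, 4, 2100), (v1, 4, 6000)])])))) (.node 4 (-150) (.node 5 (-253)
  (.far 13) (.node 6 143 (.leaf 2604888000 [(v73, 5, 879736000), (v33, 6, 114482500), (v81, 6,
  693033125), (v66, 1, 562537404), (v85, 6, 2213275625)] [(-288, [(v33, 6, 3013000), (v89, 5,
  1820000), (v21, 1, 920920), (v19, 6, 1380000), (v35, 1, 713713)], [(v66, 1, 1771), (v2, 1,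
  2024), (v22, 5, 14000), (v18, 1, 506)]), (1000, [], []), (470, [(v76, 1, 23), (v73, 5, 1000),
  (v5, 1, 437), (v7, 1, 253)], [(v66, 1, 429), (v72, 1, 286), (v77, 6, 1000), (v4, 6, 6000)]),
  (-80, [(v33, 6, 230000), (v77, 6, 207000), (v68, 1, 1582009), (v89, 5, 3718000)], [(v85, 6,
  75900), (v81, 6, 62100), (v50, 5, 57200), (v22, 5, 57200), (v66, 1, 69069)]), (-45, [(v73, 5,
  78000), (v66, 1, 72358), (v31, 1, 23023), (v33, 6, 69000)], [(v85, 6, 506000), (v72, 1,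
  75647), (v81, 6, 46000), (v64, 1, 266409), (v89, 5, 1144000)])]) (.far 9))) (.node 0 (-100)
  (.leaf 72000 [(v0, 1, 40440), (v79, 4, 51840), (v67, 3, 130250), (v64, 1, 13281), (v30, 3,
  212000)] [(-20, [(v64, 1, 9), (v70, 1, 3), (v25, 4, 160)], [(v65, 4, 50), (v32, 1, 9), (v71,
  4, 50), (v34, 3, 50)]), (1000, [], []), (470, [(v73, 3, 10), (v76, 1, 21), (v65, 4, 240),
  (v59, 3, 840)], [(v63, 4, 20), (v25, 4, 20), (v64, 1, 3)]), (-80, [(v82, 1, 27), (v25, 4,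
  5040), (v78, 1, 17), (v74, 1, 896), (v67, 3, 11200)], [(v79, 4, 20), (v64, 1, 3), (v0, 1,
  30)]), (-575, [(v84, 1, 1533), (v66, 1, 504), (v83, 4, 1845), (v32, 1, 231), (v79, 4, 1675)],
  [(v30, 3, 800), (v64, 1, 15), (v70, 1, 21), (v25, 4, 160)])]) (.leaf 95040 [(v32, 1, 4608),
  (v71, 4, 73381), (v34, 3, 65020), (v65, 4, 3487), (v49, 0, 93312)] [(-550, [(v35, 1, 4),
  (v64, 1, 31), (v53, 4, 560), (v19, 0, 240), (v70, 1, 31)], [(v65, 4, 50), (v32, 1, 9), (v71,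
  4, 50), (v34, 3, 50)]), (1000, [], []), (470, [(v73, 3, 10), (v76, 1, 21), (v65, 4, 240),
  (v59, 3, 840)], [(v90, 4, 392), (v19, 0, 420), (v72, 1, 6), (v64, 1, 213), (v63, 4, 1988)]),
  (-80, [(v67, 3, 10), (v3, 0, 4), (v74, 1, 1)], [(v2, 1, 777), (v39, 0, 5670), (v79, 4, 925),
  (v83, 4, 135), (v66, 1, 63)]), (-575, [(v84, 1, 1533), (v66, 1, 504), (v83, 4, 1845), (v32,
  1, 231), (v79, 4, 1675)], [(v78, 1, 7), (v19, 0, 100), (v67, 3, 70), (v3, 0, 78)])]))))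
  (.node 4 (-250) (.node 5 (-199) (.far 13) (.node 6 43 (.leaf 1197980000 [(v29, 1, 278453337),
  (v63, 3, 3290166500), (v25, 3, 569297210), (v81, 6, 614910000), (v50, 5, 769872000)] [(-323,
  [(v7, 1, 7960), (v59, 5, 190000), (v35, 1, 15721), (v33, 3, 113430)], [(v66, 1, 1393), (v2,
  1, 1592), (v22, 5, 14000), (v18, 1, 398)]), (1000, [], []), (470, [(v62, 1, 597), (v73, 5,
  1600), (v5, 1, 796), (v59, 5, 1400)], [(v72, 1, 1), (v71, 3, 10), (v4, 3, 20)]), (-125,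
  [(v33, 3, 19900), (v77, 3, 17910), (v68, 1, 95719), (v89, 5, 286000)], [(v81, 6, 99500),
  (v50, 5, 86000), (v63, 3, 128355), (v58, 1, 77013)]), (-95, [(v73, 5, 1000), (v66, 1, 1393),
  (v65, 3, 7960)], [(v72, 1, 597), (v64, 1, 995), (v59, 5, 28000)])]) (.far 9))) (.leaf 2400
  [(v0, 1, 1754), (v79, 4, 1080), (v28, 3, 8265), (v64, 1, 394), (v30, 3, 1485)] [(-470, [(v64,
  1, 3), (v70, 1, 1), (v25, 4, 32)], [(v65, 4, 10), (v32, 1, 3), (v71, 4, 10), (v34, 3, 10)]),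
  (1000, [], []), (470, [(v73, 3, 2), (v76, 1, 7), (v65, 4, 48), (v59, 3, 168)], [(v63, 4, 4),
  (v25, 4, 4), (v64, 1, 1)]), (-125, [(v27, 1, 1), (v53, 4, 4), (v74, 1, 3), (v67, 3, 30)],
  [(v0, 1, 10), (v64, 1, 1), (v79, 4, 4)]), (-625, [(v84, 1, 511), (v66, 1, 168), (v83, 4,
  369), (v32, 1, 77), (v79, 4, 335)], [(v67, 3, 80), (v64, 1, 11), (v70, 1, 1), (v25, 4,
  32)])]))) (.node 4 (-250) (.node 5 (-258) (.far 13) (.node 6 126 (.leaf 204336000 [(v50, 5,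
  69036000), (v65, 3, 63855000), (v71, 3, 134776620), (v81, 6, 56330000), (v66, 1, 21363561)]
  [(-304, [(v33, 3, 82696740), (v89, 5, 43890000), (v7, 1, 7314300), (v81, 6, 4085000), (v35,
  1, 16993557)], [(v2, 1, 8514), (v22, 5, 55000), (v66, 1, 6966), (v80, 1, 645)]), (1000, [],
  []), (470, [(v62, 1, 387), (v73, 5, 800), (v5, 1, 516), (v59, 5, 700)], [(v72, 1, 3), (v71,
  3, 20), (v4, 3, 40)]), (-200, [(v33, 3, 8600), (v77, 3, 7740), (v68, 1, 62049), (v89, 5,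
  143000)], [(v81, 6, 258000), (v50, 5, 308000), (v71, 3, 198660), (v66, 1, 223041)]), (-95,
  [(v73, 5, 500), (v66, 1, 903), (v65, 3, 3440)], [(v85, 6, 473000), (v72, 1, 62307), (v81, 6,
  43000), (v64, 1, 219429), (v89, 5, 924000)])]) (.far 9))) (.leaf 1200 [(v0, 1, 967), (v79, 4,
  576), (v28, 3, 2755), (v64, 1, 206), (v30, 3, 495)] [(-470, [(v64, 1, 3), (v70, 1, 1), (v25,
  4, 32)], [(v65, 4, 30), (v32, 1, 9), (v71, 4, 30), (v34, 3, 20)]), (1000, [], []), (470,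
  [(v73, 3, 4), (v76, 1, 21), (v65, 4, 144), (v59, 3, 336)], [(v63, 4, 32), (v72, 1, 3), (v64,
  1, 1), (v4, 3, 40)]), (-200, [(v27, 1, 1), (v53, 4, 4), (v74, 1, 3), (v67, 3, 20)], [(v0, 1,
  10), (v64, 1, 1), (v79, 4, 4)]), (-625, [(v84, 1, 511), (v66, 1, 168), (v83, 4, 369), (v32,
  1, 77), (v79, 4, 335)], [(v30, 3, 320), (v64, 1, 15), (v70, 1, 21), (v25, 4, 96)])]))) (.node
  4 (-470) (.node 5 (-154) (.far 13) (.leaf 2730000 [(v50, 5, 5577000), (v77, 3, 371924), (v33,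
  3, 1023960), (v58, 1, 1800162), (v72, 1, 65065)] [(-377, [(v35, 1, 72), (v64, 1, 107), (v77,
  3, 12), (v3, 3, 1112)], [(v71, 3, 466), (v32, 1, 84), (v73, 3, 182), (v5, 1, 43)]), (1000,
  [], []), (470, [(v73, 3, 4), (v5, 1, 2), (v70, 1, 1)], [(v72, 1, 1), (v71, 3, 4), (v4, 3,
  8)]), (-573, [(v27, 1, 8), (v77, 3, 4), (v74, 1, 7), (v67, 3, 32)], [(v50, 5, 6000), (v35, 1,
  275), (v25, 3, 3740), (v77, 3, 352), (v58, 1, 1936)]), (-205, [(v32, 1, 16), (v66, 1, 95),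
  (v6, 3, 56), (v65, 3, 484)], [(v4, 3, 153), (v35, 1, 2), (v70, 1, 38), (v3, 3, 19)])]))
  (.leaf 56400 [(v0, 1, 64249), (v79, 4, 19500), (v64, 1, 14147), (v30, 3, 10857), (v28, 3,
  86997)] [(-470, [(v64, 1, 141), (v70, 1, 47), (v25, 4, 800)], [(v65, 4, 250), (v32, 1, 141),
  (v71, 4, 250), (v34, 3, 188)]), (1000, [], []), (470, [(v73, 3, 188), (v76, 1, 1645), (v65,
  4, 6000), (v59, 3, 15792)], [(v63, 4, 800), (v72, 1, 141), (v64, 1, 47), (v4, 3, 1128)]),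
  (-625, [(v27, 1, 47), (v53, 4, 100), (v74, 1, 141), (v67, 3, 564)], [(v0, 1, 470), (v64, 1,
  47), (v79, 4, 100)]), (-735, [(v84, 1, 24017), (v66, 1, 7896), (v83, 4, 9225), (v32, 1,
  3619), (v79, 4, 8375)], [(v67, 3, 1504), (v64, 1, 517), (v70, 1, 47), (v25, 4, 800)])])))
  (.node 5 (-100) (.node 0 (-199) (.far 4) (.node 3 (-91) (.leaf 1253700 [(v16, 2, 13344940),
  (v33, 0, 972000), (v8, 1, 217308), (v2, 1, 312231), (v12, 2, 1685530)] [(-600, [(v35, 1,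
  995), (v64, 1, 3781), (v33, 0, 19000), (v7, 1, 3184)], [(v9, 0, 14000), (v18, 1, 2189), (v2,
  1, 1791), (v16, 2, 208950)]), (1000, [], []), (-80, [(v76, 1, 13731), (v1, 0, 168000), (v73,
  2, 129350), (v3, 0, 48000)], [(v2, 1, 398), (v33, 0, 1500), (v0, 1, 1393)]), (454, [(v78, 1,
  199), (v3, 0, 16000), (v74, 1, 5174), (v59, 2, 89550)], [(v9, 0, 3500), (v19, 0, 1000), (v2,
  1, 597)]), (-470, [(v9, 0, 28000), (v2, 1, 1791), (v18, 1, 796)], [(v78, 1, 4179), (v19, 0,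
  30000), (v59, 2, 69650), (v3, 0, 25500)])]) (.far 0))) (.node 4 (-150) (.node 0 (-150) (.node
  3 (-166) (.node 5 (-223) (.far 0) (.leaf 56196000 [(v28, 5, 252000000), (v75, 2, 117387200),
  (v13, 1, 37719558), (v58, 1, 14360085), (v79, 2, 23559950)] [(0, [(v17, 1, 4460), (v19, 2,
  11150), (v23, 1, 223), (v59, 5, 5000)], [(v18, 1, 446), (v2, 1, 1784), (v66, 1, 1561), (v22,
  5, 14000)]), (1000, [], []), (0, [], [(v23, 1, 20070), (v9, 2, 245300), (v28, 5, 432000),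
  (v58, 1, 62217), (v75, 2, 11150)]), (417, [(v17, 1, 446), (v59, 5, 3000), (v68, 1, 223)],
  [(v66, 1, 3), (v69, 2, 50)]), (-45, [(v73, 5, 84000), (v58, 1, 102357), (v13, 1, 33450),
  (v79, 2, 55750)], [(v64, 1, 1115), (v72, 1, 669), (v59, 5, 28000)])])) (.far 0)) (.node 3
  (-398) (.leaf 672000 [(v28, 5, 385875), (v69, 2, 978600), (v2, 1, 220476), (v34, 5, 303555),
  (v33, 0, 625540)] [(-570, [(v35, 1, 15), (v64, 1, 57), (v33, 0, 380), (v7, 1, 48)], [(v18, 1,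
  60), (v2, 1, 513), (v34, 5, 1890), (v9, 0, 700), (v47, 0, 420)]), (1000, [], []), (-80, [(v3,
  0, 320), (v1, 0, 1120), (v73, 5, 390), (v76, 1, 69)], [(v0, 1, 7), (v33, 0, 10), (v2, 1,
  2)]), (301, [(v59, 5, 810), (v78, 1, 3), (v74, 1, 78), (v3, 0, 320)], [(v19, 0, 20), (v9, 0,
  70), (v2, 1, 9)]), (-45, [(v2, 1, 27), (v18, 1, 12), (v9, 0, 560)], [(v78, 1, 21), (v19, 0,
  200), (v3, 0, 170), (v59, 5, 210)])]) (.far 13))) (.leaf 12240 [(v28, 5, 17532), (v83, 4,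
  2730), (v64, 1, 783), (v12, 5, 2814), (v61, 2, 46415)] [(-470, [(v70, 1, 3), (v64, 1, 9),
  (v25, 4, 160)], [(v65, 4, 175), (v32, 1, 30), (v18, 1, 3), (v71, 4, 175), (v22, 5, 210)]),
  (1000, [], []), (-80, [(v76, 1, 21), (v65, 4, 400), (v73, 5, 150), (v62, 1, 84)], [(v25, 4,
  20), (v63, 4, 20), (v64, 1, 3)]), (0, [(v27, 1, 21), (v89, 5, 540), (v53, 4, 260), (v74, 1,
  90)], [(v2, 1, 6), (v75, 2, 250), (v66, 1, 9)]), (-575, [(v84, 1, 570), (v66, 1, 243), (v71,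
  4, 2460), (v32, 1, 96), (v79, 4, 760)], [(v64, 1, 5181), (v25, 4, 25120), (v81, 2, 1600),
  (v70, 1, 207), (v89, 5, 21120)])])))) (.node 0 (-150) (.node 5 (-183) (.far 4) (.leaf 4392000
  [(v54, 5, 9000000), (v75, 2, 7177870), (v23, 1, 346602), (v58, 1, 1326567), (v9, 2,
  13064980)] [(-45, [(v23, 1, 34587), (v89, 5, 42000), (v54, 5, 14000), (v19, 2, 67710), (v3,
  2, 219600)], [(v80, 1, 915), (v2, 1, 12078), (v66, 1, 9882), (v22, 5, 110000)]), (1000, [],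
  []), (-125, [(v62, 1, 549), (v73, 5, 1600), (v5, 1, 732), (v59, 5, 1400)], [(v54, 5, 10000),
  (v72, 1, 183), (v9, 2, 12200), (v58, 1, 2562), (v75, 2, 3050)]), (224, [(v89, 5, 1500), (v3,
  2, 915), (v68, 1, 549), (v54, 5, 500)], [(v66, 1, 1), (v69, 2, 10)]), (-470, [(v73, 5,
  77000), (v66, 1, 73017), (v80, 1, 7320), (v79, 2, 161040)], [(v64, 1, 68625), (v72, 1,
  20679), (v81, 2, 51240), (v89, 5, 369600), (v54, 5, 123200)])])) (.leaf 7700 [(v2, 1, 2217),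
  (v33, 0, 8250), (v0, 1, 2317), (v69, 2, 2975), (v16, 2, 53200)] [(-575, [(v35, 1, 15), (v64,
  1, 57), (v33, 0, 380), (v7, 1, 48)], [(v18, 1, 57), (v2, 1, 270), (v9, 0, 1400), (v22, 2,
  1890)]), (1000, [], []), (-125, [(v76, 1, 69), (v1, 0, 1120), (v73, 2, 390), (v3, 0, 320)],
  [(v0, 1, 7), (v2, 1, 2), (v33, 0, 10)]), (0, [(v67, 2, 18), (v74, 1, 3), (v3, 0, 8)], [(v66,
  1, 3), (v75, 2, 50), (v2, 1, 2)]), (-470, [(v18, 1, 12), (v2, 1, 27), (v9, 0, 560)], [(v78,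
  1, 21), (v19, 0, 200), (v67, 2, 126), (v3, 0, 156)])]))) (.node 0 (-250) (.node 5 (-124)
  (.far 4) (.leaf 5022000 [(v58, 1, 2737827), (v54, 5, 16200000), (v75, 2, 1866200), (v79, 2,
  1457000), (v81, 2, 1095540)] [(-95, [(v23, 1, 33), (v64, 1, 27), (v81, 2, 10), (v3, 2, 420)],
  [(v80, 1, 129), (v2, 1, 1638), (v79, 2, 1080), (v22, 2, 8120)]), (1000, [], []), (-200,
  [(v76, 1, 87), (v11, 1, 150), (v73, 2, 700), (v79, 2, 300), (v62, 1, 273)], [(v54, 5, 22500),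
  (v72, 1, 279), (v9, 2, 12400), (v58, 1, 3906), (v75, 2, 3100)]), (199, [(v74, 1, 3), (v67, 2,
  12), (v3, 2, 8)], [(v2, 1, 6), (v66, 1, 9), (v75, 2, 100)]), (-470, [(v80, 1, 174), (v66, 1,
  315), (v69, 2, 1540), (v79, 2, 1320)], [(v78, 1, 150), (v68, 1, 117), (v19, 2, 2320), (v67,
  2, 1380)])])) (.leaf 23100 [(v69, 2, 5250), (v33, 0, 15840), (v2, 1, 7261), (v0, 1, 7406),
  (v16, 2, 112000)] [(-625, [(v27, 1, 7), (v74, 1, 14), (v33, 0, 12), (v23, 1, 14), (v19, 0,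
  88)], [(v18, 1, 19), (v2, 1, 90), (v9, 0, 280), (v22, 2, 420)]), (1000, [], []), (-200,
  [(v76, 1, 69), (v1, 0, 672), (v73, 2, 260), (v3, 0, 192)], [(v33, 0, 6), (v2, 1, 2), (v0, 1,
  7)]), (0, [(v67, 2, 20), (v74, 1, 5), (v3, 0, 8)], [(v66, 1, 9), (v75, 2, 100), (v2, 1, 6)]),
  (-470, [(v2, 1, 9), (v18, 1, 4), (v9, 0, 112)], [(v78, 1, 35), (v19, 0, 200), (v67, 2, 140),
  (v3, 0, 156)])]))) (.node 0 (-250) (.node 5 (-208) (.far 4) (.leaf 90000 [(v75, 2, 18964),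
  (v79, 2, 17696), (v58, 1, 73815), (v54, 5, 234375), (v19, 2, 47384)] [(-95, [(v23, 1, 11),
  (v64, 1, 9), (v81, 2, 2), (v3, 2, 84)], [(v80, 1, 43), (v2, 1, 546), (v79, 2, 216), (v22, 2,
  1624)]), (1000, [], []), (-625, [(v76, 1, 29), (v11, 1, 50), (v73, 2, 140), (v79, 2, 60),
  (v62, 1, 91)], [(v54, 5, 1875), (v72, 1, 39), (v9, 2, 1040), (v58, 1, 546), (v75, 2, 260)]),
  (249, [(v67, 2, 12), (v74, 1, 5), (v3, 2, 8)], [(v2, 1, 2), (v66, 1, 3), (v75, 2, 20)]),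
  (-470, [(v65, 2, 16), (v66, 1, 7), (v73, 2, 4)], [(v78, 1, 50), (v68, 1, 39), (v19, 2, 464),
  (v67, 2, 276)])])) (.leaf 23100 [(v16, 2, 67200), (v33, 0, 21450), (v2, 1, 9131), (v69, 2,
  3150), (v0, 1, 13951)] [(-625, [(v27, 1, 7), (v74, 1, 9), (v33, 0, 12), (v23, 1, 10), (v81,
  2, 20)], [(v80, 1, 1), (v69, 2, 8), (v16, 2, 24)]), (1000, [], []), (-625, [(v76, 1, 29),
  (v11, 1, 50), (v73, 2, 140), (v79, 2, 60), (v62, 1, 91)], [(v33, 0, 6), (v2, 1, 2), (v0, 1,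
  7)]), (0, [(v27, 1, 7), (v33, 0, 12), (v74, 1, 24), (v67, 2, 80)], [(v66, 1, 3), (v75, 2,
  20), (v2, 1, 2)]), (-470, [(v18, 1, 4), (v66, 1, 11), (v69, 2, 14), (v65, 2, 50)], [(v33, 0,
  468), (v78, 1, 511), (v19, 0, 3544), (v67, 2, 2100), (v27, 1, 273)])]))))))))))

theorem t1_ok : treeOK dat t1 (rootIv dat 1) = true := by decide +kernel

end Pool.Agent.Y81.Proj.BlockFive
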