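import Mathlib
import Pool.Agent.Y81.BlockFive

/-! Certificate trees. -/

set_option maxRecDepth 100000

namespace Pool.Agent.Y81.Proj.BlockFive

def t2 : Tree dat :=
.node 4 250 (.node 1 60 (.leaf 151200 [(v83, 2, 3375), (v15, 1, 628000), (v11, 1, 81750), (v81,
  4, 2092), (v12, 4, 136556)] [(205, [(v82, 4, 4), (v51, 2, 13), (v49, 4, 26), (v89, 4, 18)],
  [(v91, 4, 24), (v48, 2, 35), (v16, 4, 1344), (v88, 2, 19)]), (0, [(v81, 4, 4), (v83, 2, 3),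
  (v61, 4, 56)], []), (1000, [], []), (0, [(v89, 4, 36), (v90, 2, 1), (v68, 2, 14)], [(v88, 2,
  9), (v69, 4, 56), (v91, 4, 4)]), (625, [(v48, 2, 24), (v66, 2, 27), (v71, 2, 195), (v69, 4,
  264), (v15, 1, 4400)], [(v82, 4, 520), (v86, 2, 1966), (v44, 2, 97), (v67, 4, 1836), (v90, 2,
  89)])]) (.node 0 150 (.leaf 21000 [(v13, 2, 19031), (v70, 4, 13292), (v41, 4, 36644), (v58,
  2, 3633), (v34, 0, 32500)] [(575, [(v82, 4, 5), (v51, 2, 13), (v81, 4, 13), (v89, 4, 16)],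
  [(v91, 4, 256), (v83, 2, 19), (v48, 2, 44), (v16, 4, 504)]), (-470, [(v81, 4, 4), (v61, 4,
  56), (v83, 2, 3)], [(v62, 4, 4), (v60, 2, 1)]), (1000, [], []), (0, [(v67, 4, 4), (v68, 2,
  1)], [(v88, 2, 9), (v69, 4, 56), (v91, 4, 4)]), (625, [(v41, 4, 48), (v58, 2, 57), (v34, 0,
  140), (v39, 4, 36), (v13, 2, 57)], [(v82, 4, 520), (v86, 2, 1966), (v44, 2, 97), (v67, 4,
  1836), (v90, 2, 89)])]) (.node 5 303 (.leaf 8484000 [(v82, 4, 471468), (v91, 4, 32320), (v38,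
  2, 1217454), (v80, 2, 50399), (v47, 5, 1250000)] [(-74, [(v23, 2, 202), (v19, 5, 2000), (v68,
  2, 505)], [(v2, 2, 303), (v50, 4, 1212), (v16, 4, 9696), (v75, 5, 2500), (v48, 2, 909)]),
  (-388, [(v79, 5, 500), (v85, 2, 909), (v75, 5, 500), (v20, 2, 909)], [(v62, 4, 4), (v60, 2,
  1)]), (0, [(v91, 4, 52520), (v82, 4, 21715), (v38, 2, 27573), (v79, 5, 29250), (v89, 4,
  22220)], []), (260, [(v90, 2, 1), (v68, 2, 14), (v89, 4, 36)], [(v2, 2, 4242), (v45, 5,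
  1000), (v88, 2, 2727), (v75, 5, 27000)]), (625, [(v18, 2, 9696), (v66, 2, 4545), (v75, 5,
  13000), (v79, 5, 12000)], [(v82, 4, 49692), (v19, 5, 546000), (v74, 2, 64337), (v46, 2,
  120796), (v89, 4, 58176)])]) (.far 7)))) (.node 4 150 (.node 3 60 (.leaf 378000 [(v59, 4,
  963900), (v68, 2, 17300), (v5, 3, 1080000), (v38, 2, 12388), (v63, 2, 32003)] [(166, [(v82,
  4, 25), (v51, 2, 39), (v81, 4, 65), (v89, 4, 80)], [(v91, 4, 40), (v48, 2, 35), (v16, 4,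
  2240), (v88, 2, 19)]), (0, [(v81, 4, 20), (v83, 2, 9), (v61, 4, 280)], [(v62, 4, 20), (v60,
  2, 3)]), (1000, [], []), (530, [(v67, 4, 20), (v68, 2, 3)], [(v88, 2, 27), (v69, 4, 280),
  (v91, 4, 20)]), (200, [(v50, 4, 220), (v48, 2, 15), (v71, 2, 357), (v66, 2, 21), (v5, 3,
  5775)], [(v82, 4, 2600), (v86, 2, 5898), (v44, 2, 291), (v67, 4, 9180), (v90, 2, 267)])])
  (.node 0 150 (.leaf 31500 [(v41, 4, 196640), (v70, 4, 6170), (v34, 0, 36000), (v58, 2,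
  10458), (v13, 2, 14691)] [(575, [(v82, 4, 25), (v51, 2, 39), (v81, 4, 65), (v89, 4, 80)],
  [(v66, 2, 567), (v48, 2, 438), (v83, 2, 84), (v50, 0, 6200)]), (0, [(v81, 4, 20), (v61, 4,
  280), (v83, 2, 9)], [(v80, 2, 1), (v82, 4, 20), (v60, 2, 14)]), (1000, [], []), (-470, [(v67,
  4, 20), (v68, 2, 3)], [(v88, 2, 27), (v69, 4, 280), (v91, 4, 20)]), (200, [(v41, 4, 80),
  (v58, 2, 57), (v34, 0, 140), (v39, 4, 60), (v13, 2, 57)], [(v82, 4, 2600), (v86, 2, 5898),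
  (v44, 2, 291), (v67, 4, 9180), (v90, 2, 267)])]) (.node 6 458 (.leaf 82440000 [(v88, 2,
  3029212), (v71, 2, 1337589), (v43, 6, 10000000), (v69, 4, 41233740), (v50, 4, 32261520)]
  [(150, [], [(v66, 2, 153), (v80, 2, 60), (v71, 2, 99), (v50, 4, 1760)]), (46, [(v88, 2,
  10305), (v19, 6, 351000), (v83, 2, 70761), (v42, 2, 8931), (v69, 4, 595400)], [(v80, 2, 916),
  (v82, 6, 2500), (v21, 6, 7000), (v74, 2, 1603)]), (1000, [], []), (60, [], [(v88, 2, 27),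
  (v69, 4, 280), (v91, 4, 20)]), (0, [(v48, 2, 3206), (v66, 2, 13053), (v71, 2, 10305), (v69,
  4, 100760), (v43, 6, 11000)], [])]) (.far 11)))) (.node 4 100 (.node 3 100 (.leaf 700000
  [(v67, 4, 1356250), (v71, 2, 9804), (v5, 3, 1125000), (v38, 2, 69469), (v90, 2, 6411)] [(146,
  [(v7, 3, 1200), (v64, 2, 15), (v51, 2, 362), (v81, 4, 880), (v89, 4, 1260)], [(v76, 3, 35),
  (v2, 2, 7), (v48, 2, 5), (v71, 2, 14), (v50, 4, 110)]), (8, [(v85, 2, 3), (v63, 2, 16), (v75,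
  3, 60), (v81, 4, 10)], [(v8, 2, 8), (v82, 4, 120), (v76, 3, 270), (v74, 2, 119)]), (1000, [],
  []), (550, [(v67, 4, 10), (v68, 2, 1)], [(v2, 2, 7), (v5, 3, 50), (v88, 2, 40), (v69, 3,
  720)]), (125, [(v18, 2, 39), (v42, 2, 4), (v71, 2, 410), (v16, 4, 2050), (v5, 3, 4185)],
  [(v82, 4, 3940), (v85, 2, 1966), (v44, 2, 173), (v67, 4, 3930), (v90, 2, 179)])]) (.node 0
  250 (.leaf 1200 [(v13, 2, 878), (v70, 4, 290), (v22, 0, 1800), (v41, 4, 9680), (v58, 2, 189)]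
  [(625, [(v82, 4, 25), (v51, 2, 26), (v81, 4, 65), (v89, 4, 80)], [(v66, 2, 189), (v48, 2,
  146), (v83, 2, 28), (v50, 0, 1240)]), (0, [(v61, 4, 140), (v83, 2, 3), (v81, 4, 10)], [(v80,
  2, 1), (v82, 4, 30), (v60, 2, 14)]), (1000, [], []), (-450, [(v67, 4, 10), (v68, 2, 1)],
  [(v88, 2, 3), (v16, 0, 16), (v50, 0, 4), (v61, 4, 50)]), (125, [(v22, 0, 32), (v58, 2, 15),
  (v34, 0, 12), (v39, 4, 30), (v13, 2, 23)], [(v70, 4, 50), (v72, 2, 3), (v54, 0, 192), (v41,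
  4, 1040), (v23, 2, 8)])]) (.node 6 211 (.leaf 3038400 [(v88, 2, 86932), (v69, 4, 2217610),
  (v43, 6, 800000), (v71, 2, 20889), (v50, 4, 1409480)] [(250, [], [(v91, 4, 160), (v71, 2,
  18), (v80, 2, 5), (v16, 4, 300)]), (0, [(v69, 4, 384020), (v88, 2, 5908), (v83, 2, 32705),
  (v81, 6, 117000)], [(v80, 2, 844), (v82, 6, 5000), (v21, 6, 14000), (v74, 2, 1477)]), (1000,
  [], []), (100, [], [(v88, 2, 9), (v69, 4, 140), (v91, 4, 10)]), (0, [(v80, 2, 5908), (v66, 2,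
  46631), (v71, 2, 39457), (v69, 4, 557040), (v43, 6, 88000)], [])]) (.far 11)))) (.node 0
  (-250) (.node 0 (-150) (.node 0 (-100) (.node 4 (-450) (.node 4 (-250) (.node 4 (-150) (.node
  0 (-60) (.node 3 250 (.node 1 60 (.leaf 14400 [(v61, 3, 16368), (v6, 2, 703), (v11, 1,
  130000), (v4, 2, 2351), (v69, 3, 2832)] [(470, [(v90, 2, 1), (v70, 3, 2), (v41, 3, 20)],
  [(v40, 2, 60), (v6, 2, 7), (v5, 3, 4), (v91, 3, 48)]), (530, [(v63, 2, 4), (v75, 3, 20),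
  (v77, 2, 1)], [(v62, 3, 16), (v76, 3, 4), (v74, 2, 5)]), (1000, [], []), (625, [(v11, 1,
  750), (v70, 3, 12), (v4, 2, 27), (v27, 1, 50), (v41, 3, 12)], [(v42, 2, 9), (v66, 2, 86),
  (v75, 3, 324), (v91, 3, 68)]), (-25, [(v40, 2, 5), (v71, 2, 11), (v91, 3, 4), (v5, 3, 42)],
  [(v70, 3, 88), (v4, 2, 21), (v41, 3, 40), (v90, 2, 2)])]) (.node 5 73 (.leaf 7008000 [(v9, 5,
  52000000), (v62, 3, 13062036), (v91, 3, 605608), (v60, 2, 1216691), (v44, 2, 521950)] [(470,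
  [(v90, 2, 1), (v70, 3, 2), (v41, 3, 20)], [(v91, 3, 48), (v40, 2, 60), (v5, 3, 4), (v6, 2,
  7)]), (-388, [(v63, 2, 4), (v75, 3, 20), (v77, 2, 1)], [(v62, 3, 16), (v76, 3, 4), (v74, 2,
  5)]), (1000, [], []), (625, [(v70, 3, 438), (v62, 3, 438), (v9, 5, 8500), (v74, 2, 73), (v44,
  2, 146)], [(v42, 2, 9), (v66, 2, 86), (v75, 3, 324), (v91, 3, 68)]), (-25, [(v5, 3, 24),
  (v40, 2, 8), (v69, 3, 4), (v71, 2, 5)], [(v70, 3, 88), (v4, 2, 21), (v41, 3, 40), (v90, 2,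
  2)])]) (.far 1))) (.node 6 (-250) (.node 6 (-150) (.node 6 (-100) (.node 3 150 (.node 0 60
  (.leaf 940500 [(v7, 3, 628981), (v39, 3, 392616), (v5, 3, 387467), (v90, 2, 54378), (v34, 0,
  990000)] [(436, [(v90, 2, 3), (v70, 3, 10), (v41, 3, 100)], [(v91, 3, 240), (v40, 2, 180),
  (v5, 3, 20), (v6, 2, 21)]), (224, [(v63, 2, 12), (v75, 3, 100), (v77, 2, 3)], [(v62, 3, 16),
  (v76, 3, 4), (v74, 2, 3)]), (1000, [], []), (200, [(v7, 3, 220), (v34, 0, 125), (v90, 2, 19),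
  (v68, 2, 38), (v28, 0, 1425)], [(v76, 3, 10), (v88, 2, 36), (v2, 2, 3), (v69, 3, 410)]),
  (-25, [(v40, 2, 15), (v71, 2, 33), (v91, 3, 20), (v5, 3, 210)], [(v70, 3, 440), (v4, 2, 63),
  (v41, 3, 200), (v90, 2, 6)])]) (.node 6 84 (.leaf 13398000 [(v45, 3, 3240370), (v91, 3,
  3214750), (v43, 6, 2388500), (v40, 2, 3362898), (v67, 6, 17356625)] [(60, [], [(v91, 3, 240),
  (v40, 2, 180), (v5, 3, 20), (v6, 2, 21)]), (346, [(v63, 2, 12), (v75, 3, 100), (v77, 2, 3)],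
  [(v62, 3, 16), (v76, 3, 4), (v74, 2, 3)]), (1000, [], []), (200, [(v43, 6, 36750), (v77, 2,
  1155), (v44, 2, 2751), (v67, 6, 30250)], [(v88, 2, 43), (v75, 3, 420), (v42, 2, 7), (v91, 3,
  120)]), (-150, [(v40, 2, 15), (v71, 2, 33), (v91, 3, 20), (v5, 3, 210)], [])]) (.far 11)))
  (.node 3 100 (.node 0 60 (.leaf 836000 [(v7, 3, 763963), (v39, 3, 564528), (v5, 3, 560291),
  (v90, 2, 44080), (v34, 0, 825000)] [(455, [(v90, 2, 1), (v70, 3, 5), (v41, 3, 50)], [(v91, 3,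
  120), (v6, 2, 7), (v5, 3, 10), (v40, 2, 60)]), (199, [(v63, 2, 4), (v75, 3, 50), (v77, 2,
  1)], [(v62, 3, 8), (v76, 3, 2), (v74, 2, 1)]), (1000, [], []), (125, [(v7, 3, 330), (v34, 0,
  125), (v90, 2, 19), (v68, 2, 38), (v28, 0, 1425)], [(v76, 3, 5), (v88, 2, 12), (v2, 2, 1),
  (v69, 3, 205)]), (-25, [(v40, 2, 5), (v71, 2, 11), (v91, 3, 10), (v5, 3, 105)], [(v70, 3,
  220), (v4, 2, 21), (v41, 3, 100), (v90, 2, 2)])]) (.node 6 162 (.leaf 620136000 [(v71, 2,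
  38474271), (v91, 3, 358680960), (v43, 6, 93908000), (v67, 6, 280065500), (v45, 3, 158299920)]
  [(60, [], [(v91, 3, 120), (v6, 2, 7), (v5, 3, 10), (v40, 2, 60)]), (329, [(v20, 2, 1134),
  (v75, 3, 5670), (v83, 2, 405), (v81, 6, 2000)], [(v18, 2, 216), (v82, 6, 500), (v21, 6,
  3000), (v74, 2, 135)]), (1000, [], []), (125, [(v43, 6, 73500), (v77, 2, 4455), (v44, 2,
  10611), (v67, 6, 60500)], [(v88, 2, 43), (v75, 3, 630), (v42, 2, 7), (v91, 3, 180)]), (-150,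
  [(v40, 2, 5), (v71, 2, 11), (v91, 3, 10), (v5, 3, 105)], [])]) (.far 11))) (.node 6 (-60)
  (.node 0 (-30) (.node 3 60 (.node 0 150 (.node 1 (-623) (.leaf 62700 [(v7, 3, 92887), (v39,
  3, 77672), (v5, 3, 72884), (v90, 2, 3306), (v34, 0, 23760)] [(500, [(v90, 2, 12), (v7, 3,
  100), (v51, 2, 3), (v41, 3, 1250), (v28, 0, 40)], [(v88, 2, 28), (v48, 2, 38), (v71, 2, 21),
  (v50, 0, 520)]), (188, [(v61, 3, 50), (v63, 2, 3)], [(v62, 3, 40), (v76, 3, 10), (v74, 2,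
  3)]), (1000, [], []), (80, [(v7, 3, 550), (v90, 2, 19), (v28, 0, 570), (v68, 2, 38), (v34, 0,
  50)], [(v88, 2, 531), (v75, 3, 5550), (v36, 2, 111), (v50, 0, 1800), (v39, 3, 4600)]), (-25,
  [(v5, 3, 112375), (v66, 2, 1653), (v34, 0, 6200), (v83, 2, 1881), (v48, 2, 342)], [(v7, 3,
  125), (v72, 2, 6), (v28, 0, 440), (v41, 3, 100), (v23, 2, 6)])]) (.far 12)) (.node 1 (-427)
  (.node 6 61 (.leaf 13359000 [(v75, 3, 21350), (v40, 2, 2417979), (v5, 3, 5560150), (v3, 6,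
  29565000), (v91, 3, 17198950)] [(150, [], [(v91, 3, 600), (v40, 2, 180), (v5, 3, 50), (v6, 2,
  21)]), (286, [(v20, 2, 3294), (v83, 2, 549), (v75, 3, 15250), (v19, 6, 24000)], [(v80, 2,
  244), (v82, 6, 5000), (v21, 6, 14000), (v74, 2, 427)]), (1000, [], []), (80, [(v43, 6,
  147000), (v77, 2, 3355), (v44, 2, 7991), (v67, 6, 121000)], [(v88, 2, 43), (v75, 3, 1050),
  (v42, 2, 7), (v91, 3, 300)]), (-150, [(v40, 2, 15), (v71, 2, 33), (v91, 3, 50), (v5, 3,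
  525)], [])]) (.far 11)) (.far 1))) (.node 1 (-250) (.node 1 (-150) (.node 1 (-100) (.node 6
  (-30) (.node 1 (-60) (.node 4 (-100) (.node 0 250 (.node 3 (-100) (.node 5 60 (.node 1 514
  (.far 0) (.leaf 1512000 [(v45, 5, 333025), (v68, 2, 295176), (v50, 0, 647184), (v47, 5,
  1419400), (v39, 5, 4134375)] [(478, [(v17, 2, 96), (v68, 2, 15), (v28, 0, 48), (v49, 5, 200),
  (v19, 5, 200)], [(v83, 2, 28), (v66, 2, 189), (v50, 0, 1240), (v48, 2, 146)]), (227, [(v9, 5,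
  1600), (v19, 5, 50), (v26, 0, 396), (v77, 2, 9)], [(v17, 2, 45), (v50, 0, 30), (v68, 2, 3),
  (v39, 5, 25)]), (1000, [], []), (-20, [(v49, 5, 50), (v19, 5, 50), (v28, 0, 12), (v68, 2,
  23), (v12, 0, 106)], [(v58, 2, 369), (v16, 0, 3000), (v72, 2, 21), (v45, 5, 500), (v26, 0,
  360)]), (0, [(v13, 2, 78), (v58, 2, 153), (v34, 0, 168), (v47, 5, 250), (v88, 2, 3)], [(v78,
  2, 43), (v74, 2, 136), (v49, 5, 2250), (v12, 0, 132), (v28, 0, 540)])])) (.node 0 592 (.node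
  5 (-60) (.node 0 733 (.far 10) (.node 1 35 (.node 1 365 (.far 4) (.node 4 (-79) (.leaf
  1554000 [(v21, 1, 23250800), (v51, 2, 446516), (v16, 0, 5723375), (v7, 1, 381100), (v5, 1,
  3030300)] [(662, [(v12, 0, 7000), (v7, 1, 44400), (v51, 2, 4144), (v16, 0, 28875), (v23, 2,
  518)], [(v22, 0, 21875), (v88, 2, 3996), (v2, 2, 7770), (v50, 0, 2250), (v80, 2, 1073)]),
  (200, [(v13, 2, 74), (v51, 2, 74), (v16, 0, 1125)], [(v50, 0, 125), (v17, 2, 666), (v12, 0,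
  125)]), (1000, [], []), (-20, [(v17, 2, 148), (v12, 0, 125)], [(v16, 0, 125), (v13, 2, 37)]),
  (10, [(v22, 0, 125), (v16, 0, 375), (v13, 2, 296)], [(v23, 2, 37), (v17, 2, 111), (v12, 0,
  250)])]) (.far 10))) (.far 12))) (.node 1 138 (.leaf 35742000 [(v90, 2, 4263510), (v16, 0,
  133584000), (v7, 1, 36939875), (v5, 1, 31722875), (v51, 2, 7342428)] [(763, [(v90, 2, 5957),
  (v7, 1, 185000), (v51, 2, 29785), (v16, 0, 301875), (v77, 2, 2553)], [(v71, 2, 777), (v88, 2,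
  1036), (v50, 0, 4875), (v48, 2, 1406)]), (569, [(v26, 0, 20125), (v5, 1, 37000), (v90, 2,
  1702), (v51, 2, 32338), (v16, 0, 388125)], [(v52, 0, 2875), (v68, 2, 1702), (v21, 1,
  37000)]), (1000, [], []), (-20, [(v68, 2, 11063), (v21, 1, 333000), (v51, 2, 2553), (v90, 2,
  4255), (v28, 0, 77625)], [(v88, 2, 45954), (v83, 2, 10212), (v51, 2, 44252), (v26, 0,
  1831375), (v5, 1, 3367000)]), (0, [(v22, 0, 37375), (v88, 2, 17020), (v83, 2, 13616), (v15,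
  1, 481000)], [(v7, 1, 259000), (v86, 2, 38295), (v72, 2, 22977), (v28, 0, 379500), (v51, 2,
  7659)])]) (.far 12))) (.node 1 111 (.leaf 3663000 [(v16, 0, 14358960), (v7, 1, 529375), (v5,
  1, 4934375), (v90, 2, 296703), (v77, 2, 22977)] [(0, [(v77, 2, 333), (v7, 1, 5500), (v5, 1,
  3500)], []), (555, [(v26, 0, 9768), (v5, 1, 40000), (v77, 2, 1887), (v85, 2, 1221), (v16, 0,
  39072)], [(v62, 1, 9000), (v11, 1, 2000), (v18, 2, 222), (v74, 2, 333)]), (1000, [], []),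
  (-20, [(v68, 2, 703), (v21, 1, 30000), (v54, 0, 666), (v90, 2, 407), (v28, 0, 9990)], [(v88,
  2, 999), (v83, 2, 222), (v51, 2, 962), (v26, 0, 94276), (v5, 1, 91000)]), (0, [(v22, 0, 962),
  (v88, 2, 185), (v15, 1, 6500), (v83, 2, 148)], [(v7, 1, 8500), (v86, 2, 814), (v54, 0, 3256),
  (v85, 2, 407), (v77, 2, 111)])]) (.far 1)))) (.leaf 15000 [(v1, 3, 138700), (v16, 0, 8200),
  (v50, 0, 10600), (v58, 2, 2091), (v72, 2, 1274)] [(625, [(v64, 2, 5), (v72, 2, 3), (v3, 3,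
  140)], [(v16, 0, 840), (v88, 2, 12), (v50, 0, 16), (v80, 2, 11)]), (470, [(v36, 2, 1), (v1,
  3, 30)], [(v68, 2, 15), (v37, 3, 320), (v64, 2, 15), (v52, 0, 96)]), (1000, [], []), (-550,
  [(v43, 3, 450), (v90, 2, 31), (v68, 2, 29), (v54, 0, 648)], [(v1, 3, 50), (v16, 0, 100),
  (v58, 2, 9), (v72, 2, 1)]), (0, [(v87, 3, 80), (v66, 2, 75), (v34, 0, 32), (v22, 0, 32),
  (v65, 3, 450)], [(v64, 2, 27), (v43, 3, 70), (v86, 2, 144), (v89, 3, 250)])])) (.node 3 (-60)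
  (.node 1 60 (.node 6 159 (.leaf 1049400 [(v6, 2, 50721), (v5, 1, 1767550), (v67, 6, 825000),
  (v76, 1, 421350)] [(110, [(v43, 6, 322000), (v64, 2, 56763), (v51, 2, 163134), (v49, 6,
  964000), (v4, 2, 66780)], [(v76, 1, 4889250), (v42, 2, 112413), (v18, 2, 240408), (v6, 2,
  669708), (v89, 6, 1435000)]), (0, [(v76, 1, 18550), (v83, 2, 3021), (v81, 6, 18000), (v20, 2,
  11130)], []), (1000, [], []), (0, [(v43, 6, 147000), (v77, 2, 8745), (v44, 2, 20829), (v67,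
  6, 121000)], [(v88, 2, 265), (v5, 1, 667800), (v42, 2, 12667), (v81, 6, 15000), (v20, 2,
  52470)]), (-100, [(v76, 1, 250), (v20, 2, 42), (v15, 1, 1800), (v83, 2, 33)], [])]) (.far 3))
  (.node 5 366 (.node 6 119 (.leaf 685975500 [(v47, 5, 130543000), (v82, 6, 150151500), (v18,
  2, 76371939), (v75, 5, 127657250), (v89, 6, 355752000)] [(110, [(v68, 2, 305), (v23, 2, 122),
  (v19, 5, 1000)], [(v75, 5, 2142000), (v8, 2, 101626), (v44, 2, 21777), (v89, 6, 1647000),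
  (v18, 2, 813008)]), (0, [(v79, 5, 500), (v85, 2, 915), (v61, 5, 1000), (v20, 2, 1464)],
  [(v80, 2, 476), (v82, 6, 5000), (v21, 6, 14000), (v74, 2, 833)]), (1000, [], []), (0, [(v43,
  6, 19825000), (v33, 5, 3927000), (v44, 2, 3462543), (v89, 6, 9394000)], [(v45, 5, 500), (v88,
  2, 1647), (v2, 2, 2562), (v75, 5, 13500)]), (0, [(v45, 5, 16000), (v66, 2, 34587), (v48, 2,
  52704), (v75, 5, 99500), (v79, 5, 58000)], [(v89, 6, 793000), (v78, 2, 283101), (v44, 2,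
  508130), (v49, 5, 2796500), (v21, 6, 14518000)])]) (.far 3)) (.far 1))) (.node 6 239 (.leaf
  66250800 [(v70, 6, 21178500), (v65, 3, 148245725), (v42, 2, 1074066), (v41, 6, 53886000),
  (v73, 3, 13001600)] [(250, [], [(v87, 3, 4250), (v2, 2, 99), (v42, 2, 15), (v73, 3, 425)]),
  (470, [(v42, 2, 173992), (v65, 3, 6524700), (v83, 2, 228723), (v88, 2, 33460), (v81, 6,
  1131000)], [(v82, 6, 5000), (v21, 6, 14000), (v80, 2, 956), (v74, 2, 1673)]), (1000, [], []),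
  (0, [], [(v66, 2, 5019), (v65, 3, 11950), (v42, 2, 2868), (v87, 3, 382400), (v41, 6,
  108000)]), (-100, [(v87, 3, 3400), (v66, 2, 75), (v42, 2, 12), (v65, 3, 950)], [])]) (.far
  3)))) (.node 0 60 (.leaf 15400 [(v47, 4, 12260), (v16, 0, 144375), (v15, 4, 8335), (v86, 2,
  10087), (v37, 4, 19140)] [(530, [(v37, 4, 2), (v86, 2, 1), (v1, 4, 4)], [(v87, 4, 2415), (v2,
  2, 63), (v48, 2, 9), (v20, 2, 168), (v50, 0, 575)]), (470, [(v9, 4, 10), (v10, 2, 1)], [(v84,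
  4, 30), (v11, 4, 40), (v78, 2, 1)]), (1000, [], []), (-470, [(v46, 2, 3), (v14, 2, 26), (v37,
  4, 330)], [(v15, 4, 260), (v47, 4, 30), (v36, 2, 33)]), (-125, [(v87, 4, 650), (v66, 2, 13),
  (v20, 2, 40), (v2, 2, 2), (v47, 4, 50)], [(v78, 2, 39), (v86, 2, 4083), (v14, 2, 132), (v12,
  0, 17500), (v37, 4, 9750)])]) (.node 6 306 (.leaf 38005200 [(v89, 6, 9420500), (v42, 2,
  1523727), (v84, 4, 97291935), (v79, 4, 7773165), (v41, 6, 13878000)] [(0, [(v43, 6, 161000),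
  (v64, 2, 54621), (v51, 2, 156978), (v49, 6, 482000), (v4, 2, 64260)], [(v87, 4, 27540), (v2,
  2, 486), (v42, 2, 171), (v89, 6, 500)]), (470, [(v20, 2, 4284), (v83, 2, 153), (v79, 4,
  1530), (v81, 6, 1000)], [(v82, 6, 2500), (v21, 6, 7000), (v80, 2, 612), (v74, 2, 1071)]),
  (1000, [], []), (60, [], [(v42, 2, 11781), (v49, 6, 11000), (v47, 4, 13770), (v15, 4,
  321300)]), (-125, [(v87, 4, 650), (v66, 2, 13), (v20, 2, 40), (v2, 2, 2), (v47, 4, 50)],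
  [(v64, 2, 35343), (v90, 2, 5508), (v89, 6, 60500), (v49, 6, 17500), (v21, 6, 42000)])]) (.far
  3)))) (.node 3 (-150) (.node 5 113 (.leaf 813600 [(v74, 2, 35482), (v78, 2, 20792), (v59, 1,
  4796850), (v60, 2, 161703), (v45, 5, 800000)] [(345, [(v68, 2, 565), (v23, 2, 226), (v19, 5,
  6000)], [(v75, 5, 17500), (v2, 2, 1695), (v18, 2, 2599), (v22, 1, 39550)]), (0, [], [(v78, 2,
  5311), (v22, 1, 101700), (v45, 5, 100000), (v59, 1, 169500), (v74, 2, 25199)]), (1000, [],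
  []), (-45, [(v19, 5, 400), (v9, 5, 1400), (v74, 2, 339), (v67, 1, 3390)], [(v45, 5, 1000),
  (v88, 2, 1017), (v2, 2, 1582), (v75, 5, 27000)]), (-25, [(v18, 2, 3616), (v66, 2, 1695),
  (v75, 5, 13000), (v79, 5, 12000)], [(v78, 2, 4972), (v74, 2, 8701), (v81, 5, 48000), (v67, 1,
  118650)])]) (.far 12)) (.leaf 184000 [(v72, 2, 605), (v75, 1, 603750), (v0, 2, 45832), (v2,
  2, 6760), (v37, 3, 264960)] [(485, [(v72, 2, 9), (v64, 2, 15), (v3, 3, 280)], [(v66, 2, 3),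
  (v2, 2, 6), (v73, 3, 20)]), (-80, [(v36, 2, 1), (v1, 3, 20)], [(v0, 2, 9), (v37, 3, 20)]),
  (1000, [], []), (-575, [(v43, 3, 2940), (v77, 2, 165), (v44, 2, 393), (v67, 3, 2420)], [(v66,
  2, 3), (v69, 1, 50)]), (-25, [(v87, 3, 1360), (v66, 2, 75), (v42, 2, 12), (v65, 3, 380)],
  [(v64, 2, 81), (v86, 2, 432), (v89, 3, 500), (v43, 3, 140)])]))) (.node 5 60 (.node 0 302
  (.node 1 411 (.far 13) (.node 3 (-451) (.leaf 76104000 [(v68, 2, 14485128), (v47, 5,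
  42521600), (v50, 0, 25320000), (v45, 5, 40086725), (v39, 5, 201120675)] [(545, [(v68, 2,
  2265), (v49, 5, 30200), (v28, 0, 6000), (v17, 2, 14496), (v19, 5, 30200)], [(v88, 2, 1359),
  (v48, 2, 1963), (v83, 2, 302), (v50, 0, 13000)]), (155, [(v26, 0, 49500), (v9, 5, 241600),
  (v19, 5, 7550), (v77, 2, 1359)], [(v17, 2, 6795), (v50, 0, 3750), (v68, 2, 453), (v39, 5,
  3775)]), (1000, [], []), (-196, [(v49, 5, 7550), (v19, 5, 7550), (v28, 0, 1500), (v68, 2,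
  3473), (v12, 0, 13250)], [(v58, 2, 55719), (v45, 5, 75500), (v26, 0, 45000), (v16, 0,
  375000), (v72, 2, 3171)]), (-25, [(v13, 2, 11778), (v58, 2, 23103), (v34, 0, 21000), (v47, 5,
  37750), (v88, 2, 453)], [(v78, 2, 6493), (v74, 2, 20536), (v49, 5, 339750), (v12, 0, 16500),
  (v28, 0, 67500)])]) (.far 13))) (.far 3)) (.node 3 (-60) (.node 0 429 (.node 0 933 (.far 10)
  (.node 1 62 (.leaf 186186000 [(v90, 2, 23220054), (v51, 2, 28779036), (v5, 1, 359412625),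
  (v7, 1, 412036625), (v16, 0, 836504000)] [(681, [(v77, 2, 13299), (v7, 1, 2145000), (v51, 2,
  155155), (v90, 2, 31031), (v16, 0, 2170000)], [(v66, 2, 81081), (v48, 2, 62634), (v83, 2,
  12012), (v50, 0, 310000)]), (531, [(v13, 2, 143), (v51, 2, 143), (v16, 0, 3000)], [(v52, 0,
  31000), (v68, 2, 13299), (v21, 1, 643500)]), (1000, [], []), (0, [(v68, 2, 8866), (v21, 1,
  643500), (v17, 2, 13299), (v90, 2, 4433), (v28, 0, 93000)], [(v16, 0, 2000), (v13, 2, 429)]),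
  (-25, [(v15, 1, 321750), (v88, 2, 5115), (v22, 0, 15500), (v83, 2, 4092)], [(v7, 1, 53625),
  (v12, 0, 31000), (v28, 0, 62000), (v23, 2, 13299)])]) (.far 12))) (.far 11)) (.node 0 489
  (.leaf 1467000 [(v16, 0, 1155000), (v1, 3, 21320400), (v13, 2, 189732), (v50, 0, 550000),
  (v23, 2, 376041)] [(744, [(v12, 0, 59500), (v43, 3, 4075), (v23, 2, 24939), (v28, 0, 8500),
  (v3, 3, 248575)], [(v2, 2, 102690), (v88, 2, 52812), (v50, 0, 36000), (v22, 0, 350000), (v80,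
  2, 14181)]), (450, [(v16, 0, 6000), (v1, 3, 24450), (v51, 2, 489), (v26, 0, 2000)], [(v52, 0,
  245000), (v17, 2, 123228), (v23, 2, 18093), (v43, 3, 489000), (v74, 2, 57213)]), (1000, [],
  []), (-466, [(v17, 2, 99104), (v43, 3, 81500), (v28, 0, 170000), (v68, 2, 7987), (v72, 2,
  489)], [(v13, 2, 489), (v16, 0, 2000)]), (-25, [(v13, 2, 489), (v58, 2, 978), (v22, 0, 1000),
  (v1, 3, 8150)], [(v72, 2, 7335), (v12, 0, 53000), (v43, 3, 24450), (v23, 2, 978), (v28, 0,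
  51000)])]) (.far 11))))) (.node 0 150 (.leaf 400 [(v3, 1, 770), (v17, 2, 275), (v52, 0,
  1000), (v9, 1, 1160), (v23, 2, 3)] [(575, [(v17, 2, 11), (v81, 1, 5), (v67, 1, 10)], [(v2, 2,
  24), (v18, 2, 6), (v66, 2, 21), (v22, 0, 280)]), (-125, [(v10, 2, 22), (v77, 2, 1), (v79, 1,
  35), (v81, 1, 5)], [(v52, 0, 44), (v1, 1, 24), (v17, 2, 9), (v3, 1, 30), (v68, 2, 3)]),
  (1000, [], []), (-470, [(v68, 2, 1), (v67, 1, 10)], [(v75, 1, 50), (v2, 2, 2), (v66, 2, 3)]),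
  (-25, [(v22, 0, 3080), (v66, 2, 1071), (v79, 1, 2970), (v80, 2, 156)], [(v78, 2, 44), (v74,
  2, 77), (v81, 1, 480), (v67, 1, 630)])]) (.node 5 205 (.node 6 156 (.leaf 6939660000 [(v80,
  2, 52108745), (v18, 2, 248954706), (v22, 1, 5713728020), (v45, 5, 1616160000), (v82, 6,
  1104693750)] [(60, [(v17, 2, 246), (v19, 5, 400), (v74, 2, 41)], [(v18, 2, 943), (v2, 2,
  615), (v75, 5, 3500), (v22, 1, 8610)]), (-125, [(v79, 5, 200), (v85, 2, 205), (v61, 5, 400),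
  (v20, 2, 328)], [(v80, 2, 156), (v82, 6, 1250), (v21, 6, 3500), (v74, 2, 273)]), (1000, [],
  []), (-362, [(v43, 6, 2750), (v77, 2, 351), (v74, 2, 2106), (v89, 6, 7250)], [(v45, 5, 200),
  (v88, 2, 369), (v2, 2, 574), (v75, 5, 5400)]), (-25, [(v80, 2, 5781), (v88, 2, 574), (v20, 2,
  22960), (v45, 5, 25200), (v79, 5, 17800)], [(v78, 2, 70889), (v44, 2, 5330), (v89, 6,
  307500), (v19, 5, 982800), (v74, 2, 73021)])]) (.far 3)) (.far 7)))) (.node 0 100 (.leaf 360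
  [(v19, 1, 84), (v1, 1, 2048), (v3, 1, 208), (v52, 0, 1440), (v17, 2, 279)] [(550, [(v17, 2,
  33), (v81, 1, 10), (v67, 1, 20)], [(v80, 2, 15), (v2, 2, 198), (v66, 2, 162), (v22, 1,
  2200)]), (-200, [(v10, 2, 66), (v77, 2, 3), (v79, 1, 70), (v81, 1, 10)], [(v52, 0, 66), (v3,
  1, 20), (v1, 1, 16), (v17, 2, 9), (v68, 2, 3)]), (1000, [], []), (-470, [(v74, 2, 3), (v67,
  1, 12), (v3, 1, 8)], [(v2, 2, 6), (v66, 2, 9), (v75, 1, 100)]), (-25, [(v80, 2, 120), (v66,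
  2, 1197), (v73, 1, 1540), (v79, 1, 1760)], [(v78, 2, 44), (v74, 2, 77), (v81, 1, 320), (v67,
  1, 420)])]) (.node 5 322 (.node 6 189 (.leaf 6288660000 [(v80, 2, 93627135), (v18, 2,
  144395748), (v22, 1, 3523813440), (v45, 5, 910350000), (v82, 6, 927475000)] [(35, [(v17, 2,
  966), (v74, 2, 161), (v19, 5, 1000)], [(v75, 5, 1250), (v2, 2, 345), (v18, 2, 529), (v22, 1,
  3220)]), (-200, [(v79, 5, 500), (v85, 2, 805), (v61, 5, 1000), (v20, 2, 1288)], [(v80, 2,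
  756), (v82, 6, 5000), (v21, 6, 14000), (v74, 2, 1323)]), (1000, [], []), (-346, [(v43, 6,
  391000), (v33, 5, 972000), (v74, 2, 2073519), (v89, 6, 4945000)], [(v45, 5, 500), (v88, 2,
  1449), (v2, 2, 2254), (v75, 5, 13500)]), (-25, [(v18, 2, 22701), (v88, 2, 2254), (v20, 2,
  22057), (v45, 5, 16000), (v79, 5, 21000)], [(v78, 2, 64239), (v44, 2, 4830), (v89, 6,
  230000), (v19, 5, 567000), (v74, 2, 66171)])]) (.far 3)) (.far 7)))) (.node 0 150 (.leaf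
  19800 [(v3, 1, 17232), (v68, 2, 348), (v1, 1, 59880), (v17, 2, 21735), (v52, 0, 71500)]
  [(575, [(v3, 1, 12), (v23, 2, 5), (v81, 1, 14), (v68, 2, 9)], [(v80, 2, 43), (v22, 1, 1624),
  (v79, 1, 216), (v2, 2, 546)]), (-625, [(v10, 2, 22), (v77, 2, 1), (v79, 1, 14), (v81, 1, 2)],
  [(v52, 0, 220), (v3, 1, 60), (v1, 1, 48), (v17, 2, 45), (v68, 2, 15)]), (1000, [], []),
  (-470, [(v74, 2, 5), (v67, 1, 12), (v3, 1, 8)], [(v2, 2, 2), (v66, 2, 3), (v75, 1, 20)]),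
  (-25, [(v65, 1, 16), (v66, 2, 7), (v73, 1, 4)], [(v64, 2, 22), (v74, 2, 11), (v81, 1, 16),
  (v67, 1, 76)])]) (.node 5 322 (.node 6 92 (.leaf 5989200 [(v82, 6, 2770125), (v18, 2,
  602784), (v73, 1, 670174), (v45, 5, 896000), (v22, 1, 200836)] [(60, [(v68, 2, 805), (v23, 2,
  322), (v19, 5, 3000)], [(v75, 5, 1250), (v2, 2, 345), (v18, 2, 529), (v22, 1, 1932)]), (-625,
  [(v61, 5, 5500), (v9, 5, 5000), (v77, 2, 161), (v20, 2, 4830)], [(v80, 2, 115), (v82, 6,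
  250), (v21, 6, 28000), (v8, 2, 644)]), (1000, [], []), (-470, [(v3, 1, 8), (v74, 2, 5), (v67,
  1, 12)], [(v45, 5, 500), (v88, 2, 1449), (v2, 2, 2254), (v75, 5, 13500)]), (-25, [(v79, 5,
  65000), (v66, 2, 12558), (v48, 2, 138138), (v45, 5, 313000), (v6, 2, 96117)], [(v67, 1,
  9660), (v78, 2, 1932), (v19, 5, 16000), (v74, 2, 2093)])]) (.far 11)) (.far 7))))) (.node 1
  60 (.node 6 426 (.leaf 393624000 [(v76, 1, 15549000), (v6, 2, 7504629), (v20, 2, 118312128),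
  (v5, 1, 136770850), (v81, 6, 17490000)] [(-45, [(v43, 6, 161000), (v64, 2, 76041), (v51, 2,
  218538), (v49, 6, 482000), (v4, 2, 89460)], [(v76, 1, 543150), (v42, 2, 1491), (v2, 2,
  40257), (v6, 2, 97767), (v89, 6, 59500)]), (530, [(v20, 2, 84348), (v76, 1, 46150), (v71, 2,
  44517), (v5, 1, 134900), (v81, 6, 33000)], [(v80, 2, 852), (v82, 6, 2500), (v21, 6, 7000),
  (v74, 2, 1491)]), (0, [(v71, 2, 213), (v76, 1, 2130), (v84, 1, 4970), (v19, 6, 200), (v67, 6,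
  500)], []), (-187, [(v43, 6, 73500), (v77, 2, 11715), (v44, 2, 27903), (v67, 6, 60500)],
  [(v88, 2, 355), (v5, 1, 894600), (v42, 2, 16969), (v81, 6, 7500), (v20, 2, 70290)]), (-150,
  [(v83, 2, 3), (v20, 2, 24), (v84, 1, 250), (v5, 1, 150)], [])]) (.far 3)) (.node 5 361 (.node
  6 341 (.leaf 67213146000 [(v89, 6, 5529437000), (v21, 6, 98536574500), (v75, 5, 44226932750),
  (v48, 2, 8355234173), (v82, 6, 3149634750)] [(-45, [(v51, 2, 722), (v49, 5, 6000), (v68, 2,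
  2527)], [(v18, 2, 1477212), (v2, 2, 738606), (v48, 2, 861707), (v75, 5, 7161000), (v89, 6,
  2527000)]), (-351, [(v79, 5, 1000), (v85, 2, 1805), (v61, 5, 2000), (v20, 2, 2888)], [(v18,
  2, 2728), (v82, 6, 3000), (v21, 6, 18000), (v74, 2, 1705)]), (1000, [], []), (-324, [(v43, 6,
  147000), (v77, 2, 18755), (v44, 2, 44671), (v67, 6, 121000)], [(v45, 5, 1000), (v88, 2,
  3249), (v2, 2, 5054), (v75, 5, 27000)]), (-25, [(v45, 5, 32000), (v66, 2, 68229), (v48, 2,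
  103968), (v75, 5, 199000), (v79, 5, 116000)], [(v82, 6, 2166000), (v46, 2, 12802504), (v89,
  6, 9747000), (v49, 5, 39897000), (v74, 2, 11202191)])]) (.far 11)) (.far 7)))) (.node 5 100
  (.node 0 227 (.leaf 719136000 [(v84, 6, 3323722650), (v50, 0, 35322000), (v74, 2, 8266432),
  (v39, 5, 1124099460), (v78, 2, 2857249)] [(613, [(v17, 2, 6), (v74, 2, 1), (v19, 5, 20)],
  [(v88, 2, 23154), (v80, 2, 17252), (v71, 2, 23835), (v50, 0, 314000)]), (-299, [(v79, 5, 50),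
  (v85, 2, 42), (v75, 5, 140), (v83, 2, 3)], [(v78, 2, 908), (v50, 0, 12000), (v76, 6, 306450),
  (v39, 5, 299640), (v74, 2, 79223)]), (1000, [], []), (-450, [(v74, 2, 227), (v19, 5, 4540),
  (v68, 2, 1135), (v12, 0, 7000)], [(v88, 2, 22019), (v75, 5, 388170), (v42, 2, 1589), (v52, 0,
  72000)]), (-25, [(v80, 2, 98745), (v66, 2, 886662), (v34, 0, 924000), (v47, 5, 699160), (v79,
  5, 1822810)], [(v78, 2, 9761), (v74, 2, 30872), (v49, 5, 306450), (v12, 0, 33000), (v28, 0,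
  135000)])]) (.far 11)) (.node 0 710 (.node 1 (-730) (.leaf 187440 [(v17, 2, 74763), (v47, 6,
  239980), (v12, 0, 216040), (v5, 6, 247790), (v23, 2, 40967)] [(710, [(v45, 6, 17750), (v23,
  2, 15052), (v51, 2, 12567), (v12, 0, 96800), (v15, 6, 78100)], []), (135, [(v26, 0, 1400),
  (v47, 6, 3550), (v51, 2, 2201), (v16, 0, 21000)], [(v50, 0, 100), (v12, 0, 100), (v17, 2,
  639)]), (1000, [], []), (-450, [(v17, 2, 71), (v12, 0, 50)], [(v13, 2, 71), (v16, 0, 200)]),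
  (-25, [(v47, 6, 17750), (v58, 2, 10863), (v13, 2, 5538), (v34, 0, 4200), (v88, 2, 213)],
  [(v17, 2, 213), (v23, 2, 71), (v12, 0, 400)])]) (.far 5)) (.node 0 420 (.node 1 (-176) (.leaf
  693000 [(v17, 2, 115731), (v12, 0, 988900), (v15, 6, 695100), (v47, 6, 873600), (v23, 2,
  102795)] [(420, [(v5, 6, 23100), (v23, 2, 4914), (v51, 2, 4641), (v45, 6, 5250), (v12, 0,
  57200)], []), (412, [(v26, 0, 100), (v79, 6, 200), (v85, 2, 45), (v77, 2, 3)], [(v50, 0, 50),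
  (v12, 0, 50), (v17, 2, 189)]), (1000, [], []), (-190, [(v17, 2, 21), (v12, 0, 25)], [(v58, 2,
  2583), (v72, 2, 147), (v45, 6, 3500), (v16, 0, 12500), (v26, 0, 1500)]), (-25, [(v47, 6,
  250), (v58, 2, 153), (v13, 2, 78), (v34, 0, 100), (v88, 2, 3)], [(v12, 0, 200), (v23, 2, 21),
  (v17, 2, 63)])]) (.far 7)) (.far 11))))))) (.node 1 (-60) (.node 0 222 (.leaf 15262500 [(v15,
  6, 9546000), (v45, 6, 8766780), (v23, 2, 1482294), (v47, 6, 4638135), (v28, 0, 31171250)]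
  [(611, [(v5, 6, 11100), (v23, 2, 2886), (v51, 2, 1443), (v45, 6, 7770), (v28, 0, 52000)],
  [(v88, 2, 1036), (v48, 2, 1406), (v71, 2, 777), (v50, 0, 13000)]), (470, [(v83, 2, 9), (v79,
  6, 10), (v75, 6, 910), (v77, 2, 21)], [(v78, 2, 1036), (v28, 0, 36000), (v15, 6, 79920),
  (v72, 2, 555), (v74, 2, 2701)]), (1000, [], []), (-269, [(v17, 2, 333), (v28, 0, 1000), (v15,
  6, 370)], [(v88, 2, 3589), (v52, 0, 12000), (v75, 6, 63270), (v42, 2, 259)]), (-25, [(v87, 6,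
  429200), (v66, 2, 37259), (v71, 2, 4477), (v34, 0, 32000), (v79, 6, 42920)], [(v45, 6, 2220),
  (v23, 2, 2886), (v28, 0, 143000), (v5, 6, 37185), (v72, 2, 2886)])]) (.far 3)) (.node 0 178
  (.leaf 2772000 [(v67, 1, 3652600), (v78, 2, 47883), (v76, 6, 141240), (v15, 6, 6503640),
  (v81, 1, 529950)] [(589, [(v3, 1, 150), (v23, 2, 15), (v81, 1, 175), (v68, 2, 27)], [(v88, 2,
  2492), (v48, 2, 3382), (v71, 2, 1869), (v50, 0, 39000)]), (-530, [(v20, 2, 3), (v85, 2, 3),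
  (v79, 6, 5), (v75, 6, 5)], [(v76, 6, 90), (v67, 1, 700), (v15, 6, 1320), (v78, 2, 26), (v74,
  2, 77)]), (1000, [], []), (-375, [(v68, 2, 3), (v67, 1, 50)], [(v52, 0, 36000), (v88, 2,
  8633), (v42, 2, 623), (v75, 6, 152190)]), (-25, [(v87, 6, 1032400), (v66, 2, 89623), (v71, 2,
  10769), (v34, 0, 96000), (v79, 6, 103240)], [(v67, 1, 280), (v78, 2, 33), (v81, 1, 250), (v3,
  1, 770)])]) (.far 11)))) (.node 0 210 (.leaf 1365000 [(v23, 2, 142233), (v5, 6, 347340),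
  (v28, 0, 3113500), (v15, 6, 1144780), (v45, 6, 423500)] [(605, [(v5, 6, 1400), (v23, 2, 546),
  (v51, 2, 273), (v45, 6, 980), (v28, 0, 10400)], [(v88, 2, 196), (v48, 2, 266), (v71, 2, 147),
  (v50, 0, 2600)]), (0, [(v83, 2, 27), (v79, 6, 20), (v75, 6, 1820), (v77, 2, 63)], [(v72, 2,
  105), (v78, 2, 196), (v15, 6, 10080), (v28, 0, 7200), (v74, 2, 511)]), (1000, [], []), (-375,
  [(v17, 2, 189), (v28, 0, 600), (v15, 6, 140)], [(v76, 6, 60), (v88, 2, 29), (v42, 2, 11),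
  (v75, 6, 360)]), (-25, [(v87, 6, 14560), (v66, 2, 1491), (v71, 2, 273), (v22, 0, 2400), (v79,
  6, 1120)], [(v45, 6, 140), (v23, 2, 273), (v72, 2, 273), (v28, 0, 14300), (v5, 6, 2345)])])
  (.far 11))) (.node 0 274 (.leaf 685000 [(v45, 6, 134260), (v23, 2, 81789), (v28, 0, 1297500),
  (v15, 6, 456484), (v5, 6, 26852)] [(637, [(v5, 6, 5480), (v23, 2, 3562), (v51, 2, 1781),
  (v45, 6, 3836), (v28, 0, 52000)], [(v80, 2, 3973), (v2, 2, 28770), (v88, 2, 14796), (v50, 0,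
  18000), (v22, 0, 175000)]), (0, [(v83, 2, 9), (v79, 6, 4), (v75, 6, 364), (v77, 2, 21)],
  [(v72, 2, 2055), (v78, 2, 3836), (v15, 6, 118368), (v28, 0, 108000), (v74, 2, 10001)]),
  (1000, [], []), (-351, [(v17, 2, 1233), (v28, 0, 3000), (v15, 6, 548)], [(v2, 2, 7), (v5, 6,
  20), (v88, 2, 40), (v69, 6, 288)]), (-25, [(v87, 6, 56992), (v66, 2, 9727), (v71, 2, 1781),
  (v22, 0, 12000), (v79, 6, 4384)], [(v72, 2, 1781), (v23, 2, 1781), (v28, 0, 71500), (v45, 6,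
  548), (v5, 6, 9179)])]) (.far 11)))) (.node 1 149 (.node 3 (-404) (.leaf 88506000 [(v76, 1,
  3240000), (v10, 2, 3672999), (v4, 2, 5962086), (v9, 0, 205120850), (v19, 0, 2622400)] [(-60,
  [], [(v76, 1, 6000), (v6, 2, 1639), (v4, 2, 1043)]), (574, [(v9, 0, 50), (v10, 2, 3)], [(v8,
  2, 1192), (v82, 1, 12000), (v76, 1, 27000), (v74, 2, 17731)]), (0, [(v76, 1, 48000), (v4, 2,
  9983), (v6, 2, 1639), (v1, 0, 655600)], []), (298, [(v21, 1, 1000), (v11, 1, 1500), (v4, 2,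
  149)], [(v10, 2, 447), (v5, 1, 2000), (v20, 2, 298)]), (-25, [(v76, 1, 1000), (v20, 2, 2384),
  (v15, 1, 16000), (v71, 2, 1639)], [(v70, 1, 11000), (v14, 2, 2384), (v77, 2, 149), (v21, 1,
  16000)])]) (.far 3)) (.node 1 (-702) (.node 3 714 (.far 1) (.node 5 338 (.leaf 4056000 [(v75,
  5, 240000), (v37, 0, 642200), (v46, 2, 29744), (v38, 2, 59319), (v44, 2, 4901)] [(-60, [],
  [(v11, 0, 135200), (v18, 2, 8112), (v38, 2, 507), (v75, 5, 48000), (v44, 2, 3549)]), (0,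
  [(v79, 5, 500), (v85, 2, 845), (v61, 5, 1000), (v20, 2, 1352)], [(v8, 2, 2), (v18, 2, 1),
  (v21, 0, 150)]), (0, [(v8, 2, 676), (v11, 0, 84500), (v48, 2, 507), (v75, 5, 12000), (v44, 2,
  845)], []), (13, [(v19, 5, 11000), (v43, 0, 76050), (v44, 2, 8619), (v9, 5, 38500)], [(v45,
  5, 500), (v88, 2, 1521), (v2, 2, 2366), (v75, 5, 13500)]), (-25, [(v45, 5, 16000), (v66, 2,
  31941), (v48, 2, 48672), (v75, 5, 99500), (v79, 5, 58000)], [(v46, 2, 1183), (v78, 2, 507),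
  (v44, 2, 1183), (v81, 5, 4500), (v21, 0, 118300)])]) (.far 7))) (.far 7)))) (.node 0 60
  (.leaf 2100 [(v1, 4, 3976), (v15, 4, 880), (v37, 4, 3068), (v50, 0, 3000), (v86, 2, 1533)]
  [(530, [(v37, 4, 4), (v86, 2, 3), (v1, 4, 8)], [(v36, 2, 3), (v0, 2, 6), (v87, 4, 100)]), (0,
  [(v9, 4, 20), (v10, 2, 3)], [(v84, 4, 60), (v11, 4, 80), (v78, 2, 3)]), (1000, [], []), (0,
  [(v46, 2, 3), (v14, 2, 26), (v37, 4, 220)], [(v15, 4, 520), (v47, 4, 60), (v36, 2, 99)]),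
  (-200, [(v87, 4, 1300), (v66, 2, 39), (v20, 2, 120), (v2, 2, 6), (v47, 4, 100)], [(v12, 0,
  17500), (v86, 2, 4083), (v78, 2, 39), (v14, 2, 132), (v37, 4, 6500)])]) (.node 1 60 (.leaf
  3500 [(v14, 2, 95), (v65, 4, 3780), (v87, 4, 5460), (v62, 1, 17500), (v10, 2, 701)] [(-20,
  [(v1, 4, 8), (v37, 4, 4), (v86, 2, 3)], [(v36, 2, 3), (v87, 4, 100), (v0, 2, 6)]), (530,
  [(v9, 4, 20), (v10, 2, 3)], [(v84, 4, 60), (v11, 4, 80), (v78, 2, 3)]), (1000, [], []), (136,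
  [(v46, 2, 3), (v37, 4, 220), (v14, 2, 26)], [(v36, 2, 99), (v47, 4, 60), (v15, 4, 520)]),
  (-200, [(v87, 4, 1300), (v66, 2, 39), (v20, 2, 120), (v2, 2, 6), (v47, 4, 100)], [(v78, 2,
  3), (v85, 2, 201), (v14, 2, 132), (v82, 1, 700), (v37, 4, 560)])]) (.node 5 165 (.leaf 39600
  [(v61, 5, 36540), (v8, 2, 12507), (v87, 4, 185812), (v84, 4, 43274), (v39, 5, 23640)] [(-20,
  [(v17, 2, 198), (v19, 5, 400), (v74, 2, 33)], [(v87, 4, 100), (v0, 2, 6), (v36, 2, 3)]),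
  (-458, [(v61, 5, 2200), (v9, 5, 2000), (v77, 2, 33), (v20, 2, 990)], [(v84, 4, 60), (v11, 4,
  80), (v78, 2, 3)]), (1000, [], []), (-212, [(v44, 2, 2013), (v4, 2, 3366), (v37, 4, 60060),
  (v19, 5, 10400)], [(v45, 5, 200), (v88, 2, 297), (v2, 2, 462), (v75, 5, 5400)]), (-200,
  [(v45, 5, 6400), (v66, 2, 6237), (v48, 2, 9504), (v75, 5, 39800), (v79, 5, 23200)], [(v46, 2,
  2310), (v19, 5, 11200), (v37, 4, 9240), (v81, 5, 1800), (v78, 2, 99)])]) (.far 7))))) (.node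
  0 60 (.leaf 3500 [(v1, 4, 3892), (v15, 4, 640), (v37, 4, 3686), (v50, 0, 5625), (v86, 2,
  3080)] [(530, [(v37, 4, 4), (v86, 2, 5), (v1, 4, 8)], [(v36, 2, 1), (v0, 2, 2), (v87, 4,
  20)]), (0, [(v9, 4, 4), (v10, 2, 1)], [(v84, 4, 12), (v11, 4, 16), (v78, 2, 1)]), (1000, [],
  []), (0, [(v46, 2, 3), (v14, 2, 26), (v37, 4, 132)], [(v36, 2, 33), (v15, 4, 104), (v47, 4,
  12)]), (-350, [(v87, 4, 260), (v66, 2, 13), (v20, 2, 40), (v2, 2, 2), (v47, 4, 20)], [(v12,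
  0, 17500), (v86, 2, 4083), (v78, 2, 39), (v14, 2, 132), (v37, 4, 3900)])]) (.node 1 30 (.leaf
  3500 [(v10, 2, 785), (v65, 4, 2331), (v14, 2, 88), (v87, 4, 2562), (v62, 1, 39375)] [(-20,
  [(v37, 4, 4), (v86, 2, 5), (v1, 4, 8)], [(v87, 4, 20), (v0, 2, 2), (v36, 2, 1)]), (515, [(v9,
  4, 4), (v10, 2, 1)], [(v84, 4, 12), (v11, 4, 16), (v78, 2, 1)]), (1000, [], []), (0, [(v46,
  2, 3), (v37, 4, 132), (v14, 2, 26)], [(v36, 2, 33), (v47, 4, 12), (v15, 4, 104)]), (-350,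
  [(v87, 4, 260), (v66, 2, 13), (v20, 2, 40), (v2, 2, 2), (v47, 4, 20)], [(v86, 2, 12), (v85,
  2, 9), (v14, 2, 30), (v70, 1, 700), (v37, 4, 48)])]) (.node 5 79 (.leaf 47400 [(v87, 4,
  104912), (v8, 2, 7663), (v84, 4, 24490), (v61, 5, 202500), (v46, 2, 1106)] [(-20, [(v37, 4,
  4), (v86, 2, 5), (v1, 4, 8)], [(v87, 4, 20), (v0, 2, 2), (v36, 2, 1)]), (0, [(v9, 4, 4),
  (v10, 2, 1)], [(v84, 4, 12), (v11, 4, 16), (v78, 2, 1)]), (1000, [], []), (-260, [(v46, 2,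
  3), (v14, 2, 26), (v37, 4, 132)], [(v47, 4, 12), (v36, 2, 33), (v15, 4, 104)]), (-350, [(v87,
  4, 400), (v66, 2, 23), (v20, 2, 50), (v2, 2, 7), (v79, 4, 20)], [(v46, 2, 2291), (v14, 2,
  158), (v37, 4, 6952), (v81, 5, 11000), (v86, 2, 869)])]) (.far 5))))) (.node 0 60 (.leaf 3600
  [(v9, 4, 890), (v37, 4, 3120), (v50, 0, 6100), (v86, 2, 4518), (v12, 0, 4525)] [(530, [(v1,
  4, 8), (v37, 4, 4), (v86, 2, 9)], [(v36, 2, 9), (v0, 2, 18), (v87, 4, 100)]), (0, [(v79, 4,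
  20), (v10, 2, 36), (v85, 2, 27)], [(v84, 4, 60), (v11, 4, 80), (v78, 2, 9)]), (1000, [], []),
  (0, [(v46, 2, 9), (v14, 2, 78), (v37, 4, 220)], [(v36, 2, 297), (v15, 4, 520), (v47, 4,
  60)]), (-725, [(v87, 4, 1300), (v66, 2, 117), (v20, 2, 360), (v2, 2, 18), (v47, 4, 100)],
  [(v12, 0, 52500), (v86, 2, 12249), (v78, 2, 117), (v14, 2, 396), (v37, 4, 6500)])]) (.node 1
  54 (.leaf 630000 [(v62, 1, 5031250), (v14, 2, 72999), (v65, 4, 262710), (v87, 4, 36120),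
  (v10, 2, 91755)] [(-20, [(v1, 4, 8), (v37, 4, 4), (v86, 2, 9)], [(v87, 4, 100), (v0, 2, 18),
  (v36, 2, 9)]), (527, [(v10, 2, 36), (v79, 4, 20), (v85, 2, 27)], [(v84, 4, 60), (v11, 4, 80),
  (v78, 2, 9)]), (1000, [], []), (0, [(v46, 2, 9), (v14, 2, 78), (v37, 4, 220)], [(v36, 2,
  297), (v47, 4, 60), (v15, 4, 520)]), (-725, [(v87, 4, 1300), (v66, 2, 117), (v20, 2, 360),
  (v2, 2, 18), (v47, 4, 100)], [(v78, 2, 27), (v85, 2, 1809), (v14, 2, 1188), (v82, 1, 7000),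
  (v37, 4, 1680)])]) (.node 5 57 (.leaf 1197000 [(v39, 5, 1069500), (v84, 4, 113810), (v87, 4,
  2069290), (v78, 2, 62073), (v61, 5, 7452000)] [(-20, [(v37, 4, 4), (v86, 2, 9), (v1, 4, 8)],
  [(v87, 4, 100), (v0, 2, 18), (v36, 2, 9)]), (0, [(v9, 4, 20), (v10, 2, 9)], [(v84, 4, 60),
  (v11, 4, 80), (v78, 2, 9)]), (1000, [], []), (-292, [(v46, 2, 9), (v14, 2, 78), (v37, 4,
  220)], [(v36, 2, 297), (v47, 4, 60), (v15, 4, 520)]), (-725, [(v87, 4, 1300), (v66, 2, 117),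
  (v20, 2, 360), (v2, 2, 18), (v47, 4, 100)], [(v46, 2, 1197), (v14, 2, 342), (v37, 4, 2090),
  (v49, 5, 16500)])]) (.far 5))))) (.node 5 174 (.node 1 (-801) (.leaf 7308000 [(v75, 5,
  14000000), (v43, 0, 5108640), (v38, 2, 1119951), (v21, 0, 6568500), (v46, 2, 764643)] [(0,
  [], [(v11, 0, 8700), (v8, 2, 464), (v48, 2, 609), (v75, 5, 10000), (v44, 2, 319)]), (99,
  [(v79, 5, 500), (v85, 2, 435), (v61, 5, 1000), (v20, 2, 696)], [(v18, 2, 1), (v21, 0, 90),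
  (v8, 2, 2)]), (1000, [], []), (0, [(v43, 0, 130), (v44, 2, 5), (v4, 2, 22)], [(v45, 5, 500),
  (v88, 2, 783), (v2, 2, 1218), (v75, 5, 13500)]), (-450, [(v45, 5, 16000), (v66, 2, 16443),
  (v48, 2, 25056), (v75, 5, 99500), (v79, 5, 58000)], [(v46, 2, 58), (v43, 0, 58), (v19, 5,
  350), (v21, 0, 377)])]) (.far 5)) (.node 1 101 (.node 3 712 (.far 1) (.leaf 6666000 [(v76, 1,
  600000), (v4, 2, 219372), (v10, 2, 841431), (v9, 0, 2580550), (v19, 0, 2634080)] [(-100, [],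
  [(v76, 1, 6000), (v6, 2, 1111), (v4, 2, 707)]), (550, [(v9, 0, 10), (v10, 2, 1)], [(v8, 2,
  808), (v82, 1, 12000), (v76, 1, 27000), (v74, 2, 12019)]), (0, [(v76, 1, 48000), (v4, 2,
  6767), (v6, 2, 1111), (v1, 0, 266640)], []), (-144, [(v43, 0, 130), (v44, 2, 5), (v4, 2,
  22)], [(v42, 2, 1313), (v5, 1, 22000), (v45, 0, 5050)]), (-450, [(v83, 2, 101), (v20, 2,
  1414), (v15, 1, 6000), (v84, 1, 5000)], [(v82, 1, 11000), (v4, 2, 2121), (v85, 2, 1111),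
  (v77, 2, 404)])])) (.far 5)))) (.node 1 100 (.leaf 2640 [(v76, 1, 360), (v9, 0, 820), (v10,
  2, 219), (v19, 0, 640), (v4, 2, 180)] [(-150, [], [(v76, 1, 60), (v6, 2, 11), (v4, 2, 7)]),
  (550, [(v9, 0, 20), (v10, 2, 3)], [(v8, 2, 2), (v18, 2, 1), (v21, 0, 60)]), (0, [(v76, 1,
  480), (v4, 2, 67), (v6, 2, 11), (v1, 0, 1760)], []), (0, [(v43, 0, 260), (v44, 2, 15), (v4,
  2, 66)], [(v42, 2, 27), (v2, 2, 66), (v45, 0, 340)]), (-450, [(v48, 2, 78), (v20, 2, 168),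
  (v2, 2, 63), (v47, 0, 920)], [(v46, 2, 78), (v4, 2, 63), (v49, 0, 440), (v21, 0, 2240)])])
  (.node 5 224 (.leaf 2520 [(v21, 0, 1120), (v8, 2, 21), (v75, 5, 750), (v46, 2, 111), (v48, 2,
  3)] [(-200, [(v17, 2, 84), (v19, 5, 125), (v74, 2, 14)], [(v11, 0, 1400), (v8, 2, 112), (v48,
  2, 147), (v75, 5, 1875), (v44, 2, 77)]), (0, [(v79, 5, 125), (v85, 2, 140), (v61, 5, 250),
  (v20, 2, 224)], [(v18, 2, 1), (v21, 0, 60), (v8, 2, 2)]), (0, [(v8, 2, 28), (v11, 0, 1400),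
  (v48, 2, 21), (v75, 5, 750), (v44, 2, 35)], []), (-225, [(v43, 0, 260), (v44, 2, 15), (v4, 2,
  66)], [(v45, 5, 125), (v88, 2, 252), (v2, 2, 392), (v75, 5, 3375)]), (-450, [(v45, 5, 4000),
  (v66, 2, 5292), (v48, 2, 8064), (v75, 5, 24875), (v79, 5, 14500)], [(v46, 2, 48), (v43, 0,
  32), (v19, 5, 225), (v21, 0, 208)])]) (.far 5)))) (.node 1 100 (.leaf 2640 [(v6, 2, 77), (v9,
  0, 264), (v10, 2, 66), (v76, 1, 1500), (v4, 2, 373)] [(-625, [(v43, 0, 1288), (v64, 2, 357),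
  (v51, 2, 1026), (v49, 0, 3856), (v4, 2, 420)], [(v76, 1, 60), (v6, 2, 11), (v4, 2, 7)]),
  (100, [(v9, 0, 4), (v10, 2, 1)], []), (0, [(v76, 1, 480), (v4, 2, 67), (v6, 2, 11), (v1, 0,
  1056)], []), (0, [(v43, 0, 52), (v44, 2, 5), (v4, 2, 22)], [(v42, 2, 9), (v45, 0, 68), (v2,
  2, 22)]), (-450, [(v47, 0, 52), (v48, 2, 11), (v20, 2, 56), (v5, 0, 42)], [(v46, 2, 26), (v4,
  2, 21), (v49, 0, 88), (v21, 0, 448)])]) (.node 5 324 (.leaf 972000 [(v44, 2, 14400), (v11, 0,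
  315468), (v8, 2, 180567), (v75, 5, 250000), (v21, 0, 151200)] [(-250, [], [(v11, 0, 3240),
  (v8, 2, 432), (v48, 2, 567), (v75, 5, 5000), (v44, 2, 297)]), (-269, [(v79, 5, 250), (v85, 2,
  405), (v61, 5, 500), (v20, 2, 648)], [(v8, 2, 1), (v11, 0, 4)]), (0, [(v8, 2, 324), (v11, 0,
  6480), (v38, 2, 405), (v75, 5, 4000), (v44, 2, 243)], []), (-275, [(v43, 0, 52), (v44, 2, 5),
  (v4, 2, 22)], [(v45, 5, 250), (v88, 2, 729), (v2, 2, 1134), (v75, 5, 6750)]), (-450, [(v45,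
  5, 8000), (v66, 2, 15309), (v48, 2, 23328), (v75, 5, 49750), (v79, 5, 29000)], [(v46, 2,
  270), (v43, 0, 108), (v19, 5, 875), (v21, 0, 702)])]) (.far 5))))))

theorem t2_ok : treeOK dat t2 (rootIv dat 2) = true := by decide +kernel

def t3 : Tree dat :=
.node 4 (-250) (.node 4 (-150) (.node 4 (-100) (.node 0 250 (.node 4 150 (.leaf 14400 [(v35, 3,
  579), (v38, 0, 1488), (v40, 0, 50160), (v67, 4, 52000), (v29, 3, 12333)] [(625, [(v67, 4,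
  760), (v6, 0, 96), (v29, 3, 171), (v35, 3, 21)], [(v45, 3, 12), (v56, 0, 764), (v26, 3, 165),
  (v91, 3, 66), (v34, 0, 64)]), (0, [(v39, 3, 53), (v45, 3, 3), (v6, 0, 192)], [(v38, 0, 53),
  (v7, 3, 12), (v44, 0, 3)]), (0, [(v5, 3, 19), (v34, 0, 48), (v7, 3, 11)], [(v35, 3, 3), (v6,
  0, 11), (v4, 0, 19)]), (1000, [], []), (575, [(v5, 3, 1), (v40, 0, 104), (v45, 3, 2)], [(v4,
  0, 4), (v7, 3, 1)])]) (.node 6 (-133) (.far 2) (.leaf 52668000 [(v57, 3, 2634065), (v35, 3,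
  557137), (v7, 3, 4002768), (v44, 0, 15509928), (v65, 6, 79200000)] [(0, [(v65, 6, 19500),
  (v44, 0, 2492), (v35, 3, 1092), (v41, 3, 8099), (v4, 0, 1792)], []), (343, [(v39, 3, 53),
  (v45, 3, 3), (v6, 0, 192)], [(v38, 0, 53), (v7, 3, 12), (v44, 0, 3)]), (349, [(v7, 3, 11),
  (v5, 3, 19), (v34, 0, 48)], [(v35, 3, 3), (v6, 0, 11), (v4, 0, 19)]), (1000, [], []), (25,
  [(v55, 3, 13), (v6, 0, 72), (v56, 0, 156), (v45, 3, 16)], [(v4, 0, 4), (v7, 3, 1)])])))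
  (.node 0 150 (.node 4 100 (.node 1 (-250) (.leaf 54720 [(v29, 3, 35397), (v6, 0, 18400),
  (v35, 3, 363), (v67, 4, 209760), (v40, 0, 228000)] [(150, [(v6, 0, 160), (v67, 4, 1140),
  (v29, 3, 171), (v35, 3, 21)], []), (375, [(v39, 3, 53), (v45, 3, 3), (v6, 0, 320)], [(v38, 0,
  265), (v7, 3, 36), (v44, 0, 15)]), (0, [(v5, 3, 19), (v34, 0, 80), (v7, 3, 11)], [(v35, 3,
  9), (v6, 0, 55), (v4, 0, 95)]), (1000, [], []), (550, [(v5, 3, 3), (v40, 0, 520), (v45, 3,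
  6)], [(v4, 0, 10), (v41, 3, 39), (v44, 0, 20)])]) (.leaf 57000 [(v7, 3, 1428), (v44, 0,
  4525), (v35, 3, 786), (v3, 1, 34200), (v38, 0, 64235)] [(200, [(v3, 1, 84), (v70, 3, 5),
  (v72, 3, 7), (v4, 1, 20)], [(v66, 3, 32), (v5, 3, 5), (v2, 3, 63), (v34, 1, 160)]), (0, [],
  [(v38, 0, 265), (v7, 3, 36), (v44, 0, 15)]), (-62, [(v7, 3, 11), (v76, 3, 1), (v5, 3, 19),
  (v73, 1, 44)], [(v2, 3, 7), (v72, 3, 48), (v63, 1, 416), (v4, 1, 396)]), (1000, [], []),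
  (550, [(v65, 1, 16), (v66, 3, 7), (v73, 1, 4)], [(v4, 1, 153), (v35, 3, 2), (v70, 3, 38),
  (v3, 1, 19)])])) (.node 2 (-401) (.node 6 (-66) (.far 2) (.leaf 7524000 [(v57, 3, 431737),
  (v65, 6, 22800000), (v7, 3, 534996), (v44, 0, 3840280), (v35, 3, 96473)] [(0, [(v65, 6,
  185250), (v44, 0, 19580), (v35, 3, 5148), (v41, 3, 38181), (v4, 0, 14080)], []), (349, [(v39,
  3, 53), (v45, 3, 3), (v6, 0, 320)], [(v38, 0, 265), (v7, 3, 36), (v44, 0, 15)]), (299, [(v7,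
  3, 11), (v5, 3, 19), (v34, 0, 80)], [(v35, 3, 9), (v6, 0, 55), (v4, 0, 95)]), (1000, [], []),
  (0, [(v55, 3, 13), (v6, 0, 120), (v56, 0, 260), (v45, 3, 16)], [(v4, 0, 20), (v7, 3, 3)])]))
  (.far 2))) (.node 0 100 (.node 4 250 (.leaf 320 [(v40, 0, 1800), (v29, 3, 207), (v67, 4,
  480), (v38, 0, 280), (v35, 3, 1)] [(125, [(v6, 0, 80), (v67, 4, 152), (v29, 3, 57), (v35, 3,
  7)], [(v66, 3, 4), (v56, 0, 80), (v2, 3, 3), (v5, 3, 1), (v16, 4, 192)]), (0, [(v85, 4, 583),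
  (v67, 4, 106), (v45, 3, 44), (v81, 4, 53), (v6, 0, 1210)], [(v35, 3, 9), (v38, 0, 4180), (v7,
  3, 348), (v54, 4, 228)]), (0, [(v12, 4, 132), (v5, 3, 39), (v56, 0, 55), (v34, 0, 35), (v59,
  4, 132)], [(v35, 3, 7), (v6, 0, 80), (v30, 4, 76)]), (1000, [], []), (625, [(v5, 3, 1), (v40,
  0, 260), (v45, 3, 2)], [(v54, 4, 116), (v35, 3, 9), (v86, 3, 58), (v70, 3, 17), (v67, 4,
  100)])]) (.node 1 60 (.leaf 6000 [(v6, 0, 6080), (v30, 0, 11755), (v39, 3, 786), (v27, 1,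
  28125), (v34, 0, 200)] [(125, [(v57, 3, 38), (v27, 1, 950), (v6, 0, 175), (v35, 3, 7), (v4,
  0, 95)], [(v45, 3, 12), (v56, 0, 1910), (v26, 3, 165), (v91, 3, 66), (v34, 0, 160)]), (530,
  [(v39, 3, 53), (v45, 3, 3), (v6, 0, 480)], [(v38, 0, 265), (v44, 0, 15), (v7, 3, 24)]), (103,
  [(v34, 0, 120), (v5, 3, 19), (v7, 3, 11)], [(v35, 3, 6), (v6, 0, 55), (v4, 0, 95)]), (1000,
  [], []), (75, [(v55, 3, 13), (v6, 0, 180), (v56, 0, 390), (v45, 3, 16)], [(v4, 0, 10), (v7,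
  3, 1)])]) (.node 5 236 (.node 6 (-236) (.far 8) (.leaf 303732000 [(v70, 3, 79840098), (v77,
  5, 57070500), (v34, 6, 51647500), (v53, 5, 144800625), (v56, 6, 214924625)] [(125, [(v70, 3,
  59), (v64, 3, 177), (v53, 5, 2000), (v41, 3, 944)], [(v55, 3, 826), (v56, 6, 20250), (v26, 3,
  4543), (v91, 3, 1770), (v73, 6, 2000)]), (-227, [(v63, 5, 200), (v75, 3, 59), (v77, 5, 50)],
  [(v64, 3, 2183), (v56, 6, 74000), (v90, 5, 12000), (v70, 3, 20237)]), (267, [(v91, 3, 18821),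
  (v7, 3, 27258), (v87, 6, 831000), (v45, 3, 7847), (v73, 6, 46250)], [(v58, 3, 1416), (v72, 3,
  649), (v77, 5, 6250), (v0, 3, 7080)]), (1000, [], []), (75, [(v87, 6, 37000), (v66, 3, 2183),
  (v71, 6, 5750), (v69, 3, 708), (v45, 3, 236)], [(v34, 6, 2000), (v64, 3, 1121), (v70, 3,
  2183), (v77, 5, 3000)])])) (.far 8)))) (.node 4 (-60) (.node 2 250 (.node 1 60 (.leaf 6300
  [(v6, 2, 5733), (v4, 2, 1089), (v91, 3, 445), (v27, 1, 56875), (v69, 3, 1058)] [(-450, [(v90,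
  2, 12), (v7, 3, 1), (v41, 3, 19), (v74, 2, 2)], [(v5, 3, 1), (v40, 2, 240), (v91, 3, 12),
  (v6, 2, 28)]), (530, [(v63, 2, 16), (v75, 3, 5), (v77, 2, 4)], [(v62, 3, 4), (v76, 3, 1),
  (v74, 2, 20)]), (625, [(v91, 3, 7), (v11, 1, 150), (v6, 2, 36), (v69, 3, 14), (v27, 1, 500)],
  [(v40, 2, 476), (v72, 3, 183), (v63, 2, 1348), (v42, 3, 7), (v4, 2, 1480)]), (1000, [], []),
  (470, [(v5, 3, 21), (v71, 2, 88), (v91, 3, 2), (v40, 2, 40)], [(v4, 2, 42), (v41, 3, 5),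
  (v70, 3, 11), (v90, 2, 4)])]) (.node 5 373 (.leaf 15666000 [(v25, 5, 14000000), (v38, 2,
  3561031), (v91, 3, 1093636), (v44, 2, 2075745), (v60, 2, 8996760)] [(-291, [(v53, 5, 40000),
  (v70, 3, 9698), (v72, 3, 1865), (v41, 3, 29840), (v77, 5, 7000)], [(v79, 5, 500), (v83, 5,
  4500), (v6, 2, 20888), (v91, 3, 23499), (v40, 2, 490868)]), (60, [], [(v62, 3, 4), (v76, 3,
  1), (v74, 2, 20)]), (0, [(v91, 3, 2238), (v44, 2, 1865), (v76, 3, 746), (v25, 5, 22000),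
  (v38, 2, 4103)], []), (1000, [], []), (470, [(v5, 3, 425593), (v83, 5, 495000), (v38, 2,
  459536), (v76, 3, 78330), (v79, 5, 55000)], [(v4, 2, 11936), (v77, 5, 1000), (v70, 3,
  4103)])]) (.far 1))) (.node 2 150 (.node 1 60 (.leaf 12600 [(v91, 3, 550), (v4, 2, 4055),
  (v69, 3, 1436), (v27, 1, 84000), (v6, 2, 16135)] [(-450, [(v90, 2, 60), (v7, 3, 3), (v41, 3,
  57), (v74, 2, 10)], [(v5, 3, 3), (v40, 2, 1200), (v91, 3, 36), (v6, 2, 140)]), (530, [(v63,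
  2, 16), (v75, 3, 3), (v77, 2, 4)], [(v62, 3, 12), (v76, 3, 3), (v74, 2, 100)]), (200, [(v91,
  3, 7), (v11, 1, 150), (v6, 2, 60), (v69, 3, 14), (v27, 1, 500)], [(v40, 2, 2380), (v72, 3,
  549), (v63, 2, 6740), (v42, 3, 21), (v4, 2, 7400)]), (1000, [], []), (470, [(v40, 2, 200),
  (v71, 2, 440), (v91, 3, 6), (v5, 3, 63)], [(v4, 2, 210), (v41, 3, 15), (v70, 3, 33), (v90, 2,
  20)])]) (.node 5 306 (.leaf 3213000 [(v91, 3, 230571), (v25, 5, 3500000), (v44, 2, 598825),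
  (v74, 2, 885700), (v38, 2, 2590035)] [(-332, [(v53, 5, 20000), (v70, 3, 3978), (v72, 3, 765),
  (v41, 3, 12240), (v77, 5, 3500)], [(v63, 5, 1000), (v38, 2, 1020), (v91, 3, 153)]), (60, [],
  [(v62, 3, 12), (v76, 3, 3), (v74, 2, 100)]), (0, [(v91, 3, 918), (v76, 3, 306), (v38, 2,
  2805), (v25, 5, 11000), (v44, 2, 1275)], []), (1000, [], []), (470, [(v5, 3, 174573), (v83,
  5, 247500), (v38, 2, 314160), (v76, 3, 32130), (v79, 5, 27500)], [(v4, 2, 8160), (v77, 5,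
  500), (v70, 3, 1683)])]) (.far 1))) (.node 2 100 (.node 1 100 (.leaf 1260 [(v69, 3, 136),
  (v91, 3, 47), (v4, 2, 618), (v27, 1, 4725), (v6, 2, 2352)] [(-450, [(v90, 2, 140), (v27, 1,
  80), (v64, 3, 3), (v41, 3, 102)], [(v5, 3, 1), (v40, 2, 600), (v91, 3, 12), (v6, 2, 70)]),
  (550, [(v63, 2, 8), (v75, 3, 1), (v77, 2, 2)], [(v62, 3, 4), (v76, 3, 1), (v74, 1, 50)]),
  (125, [(v91, 3, 7), (v11, 1, 90), (v6, 2, 90), (v69, 3, 14), (v27, 1, 300)], [(v40, 2, 1190),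
  (v72, 3, 183), (v63, 2, 3370), (v42, 3, 7), (v4, 2, 3700)]), (1000, [], []), (470, [(v5, 3,
  21), (v71, 2, 220), (v91, 3, 2), (v40, 2, 100)], [(v4, 2, 2550), (v35, 3, 7), (v57, 3, 38),
  (v70, 3, 228), (v27, 1, 570)])]) (.node 5 233 (.leaf 19572000 [(v91, 3, 1384952), (v38, 2,
  20628655), (v44, 2, 6483225), (v25, 5, 28000000), (v60, 2, 14492600)] [(-371, [(v53, 5,
  8000), (v70, 3, 233), (v64, 3, 699), (v41, 3, 3728)], [(v63, 5, 2000), (v38, 2, 2330), (v91,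
  3, 233)]), (100, [], [(v62, 3, 4), (v76, 3, 1), (v74, 2, 50)]), (0, [(v91, 3, 2796), (v76, 3,
  932), (v38, 2, 12815), (v25, 5, 44000), (v44, 2, 5825)], []), (1000, [], []), (470, [(v5, 3,
  1165), (v76, 3, 466), (v63, 5, 22000)], [(v4, 2, 18640), (v70, 3, 2563), (v77, 5, 1000)])])
  (.far 1))) (.node 2 60 (.node 5 100 (.node 0 (-150) (.node 1 (-250) (.leaf 495000 [(v91, 3,
  8604), (v25, 5, 1650000), (v44, 2, 351625), (v76, 3, 7521), (v38, 2, 463375)] [(-25, [(v53,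
  5, 400), (v70, 3, 26), (v72, 3, 5), (v41, 3, 80), (v77, 5, 70)], [(v63, 5, 60), (v38, 2, 50),
  (v91, 3, 3)]), (252, [(v63, 5, 8), (v77, 5, 2), (v75, 3, 1)], [(v62, 3, 12), (v76, 3, 3),
  (v74, 2, 250)]), (0, [(v91, 3, 36), (v76, 3, 12), (v38, 2, 275), (v25, 5, 1320), (v44, 2,
  125)], []), (1000, [], []), (470, [(v5, 3, 3423), (v83, 5, 14850), (v38, 2, 15400), (v76, 3,
  630), (v79, 5, 1650)], [(v4, 2, 400), (v77, 5, 30), (v70, 3, 33)])]) (.node 5 556 (.leaf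
  150120000 [(v73, 1, 20890588), (v24, 3, 24703080), (v76, 3, 10730105), (v59, 1, 110895312),
  (v90, 5, 54000000)] [(-25, [(v33, 5, 4750), (v70, 3, 5421), (v35, 3, 1807), (v77, 5, 2000)],
  [(v73, 1, 36140), (v63, 5, 117000), (v76, 3, 5977), (v32, 3, 16680)]), (0, [], [(v24, 3,
  695), (v28, 1, 2780), (v76, 3, 278), (v62, 3, 278), (v90, 5, 1000)]), (80, [(v59, 1, 13344),
  (v76, 3, 3475), (v25, 5, 15000), (v73, 1, 6116)], [(v90, 5, 250), (v36, 3, 139), (v64, 3,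
  139)]), (1000, [], []), (489, [(v5, 3, 695), (v76, 3, 278), (v63, 5, 5500)], [(v67, 1, 2224),
  (v64, 3, 556), (v70, 3, 417), (v77, 5, 250)])]) (.far 1))) (.leaf 14025000 [(v44, 2,
  2148375), (v63, 5, 64178400), (v43, 0, 5992570), (v52, 3, 3120843), (v3, 0, 3945040)] [(-575,
  [(v27, 0, 400), (v35, 3, 21), (v33, 0, 420), (v41, 3, 240), (v64, 3, 75)], [(v37, 0, 100),
  (v52, 3, 30), (v63, 5, 480), (v91, 3, 3)]), (236, [(v25, 0, 20), (v26, 3, 3)], [(v24, 3, 3),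
  (v27, 0, 20)]), (80, [(v91, 3, 3), (v37, 0, 20), (v63, 5, 30), (v1, 0, 40)], [(v0, 3, 120),
  (v72, 3, 11), (v58, 3, 24), (v77, 5, 250)]), (1000, [], []), (470, [(v37, 0, 1760), (v66, 3,
  33), (v76, 3, 315), (v5, 3, 1200), (v83, 5, 6600)], [(v4, 2, 150), (v3, 0, 20), (v70, 3, 9),
  (v64, 3, 3)])])) (.node 1 206 (.leaf 2472000 [(v60, 1, 793000), (v4, 2, 2263425), (v6, 2,
  5992025), (v27, 1, 4000000), (v69, 3, 371006)] [(-351, [(v39, 3, 2781), (v90, 2, 5150), (v68,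
  1, 7500)], [(v69, 3, 103), (v60, 1, 1000)]), (603, [(v63, 2, 40), (v75, 3, 3), (v77, 2, 10)],
  [(v62, 3, 412), (v76, 3, 103), (v74, 1, 2500)]), (0, [(v60, 1, 500), (v69, 3, 103), (v27, 1,
  500)], []), (1000, [], []), (470, [(v80, 1, 24000), (v45, 3, 9064), (v71, 2, 293550), (v75,
  3, 2575), (v84, 1, 72000)], [(v4, 2, 20600), (v74, 1, 1500), (v70, 3, 927), (v41, 3,
  2472)])]) (.far 1))) (.node 0 60 (.node 6 (-187) (.node 1 (-861) (.node 4 389 (.leaf 186720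
  [(v67, 4, 160000), (v29, 3, 143541), (v40, 0, 2243752), (v30, 4, 85720), (v38, 0, 130704)]
  [(0, [(v30, 4, 1000), (v67, 4, 1000), (v29, 3, 1167)], []), (69, [(v45, 3, 5446), (v55, 3,
  20617), (v30, 4, 159000), (v6, 0, 77800)], [(v29, 3, 389), (v31, 3, 1167), (v54, 4, 2000)]),
  (-461, [(v31, 3, 389), (v28, 4, 1000)], [(v29, 3, 389), (v30, 4, 1000)]), (1000, [], []),
  (694, [(v28, 4, 3000), (v40, 0, 38900), (v55, 3, 1167)], [(v54, 4, 29000), (v35, 3, 3501),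
  (v86, 3, 22562), (v70, 3, 6613), (v67, 4, 25000)])]) (.far 2)) (.far 8)) (.node 1 (-150)
  (.leaf 55426800 [(v35, 3, 3121404), (v4, 0, 64215800), (v44, 0, 41523350), (v65, 6,
  59280000), (v41, 3, 517803)] [(0, [(v65, 6, 1111500), (v44, 0, 832150), (v35, 3, 87516),
  (v41, 3, 649077), (v4, 0, 598400)], []), (425, [(v61, 3, 561), (v39, 3, 374), (v71, 6,
  3000)], [(v56, 6, 1007000), (v7, 3, 222156), (v35, 3, 9911), (v44, 0, 355300)]), (-470,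
  [(v91, 3, 59653), (v7, 3, 86394), (v87, 6, 3324000), (v45, 3, 24871), (v73, 6, 185000)],
  [(v72, 3, 561), (v71, 6, 3000), (v4, 0, 18700)]), (1000, [], []), (470, [(v87, 6, 148000),
  (v66, 3, 6919), (v71, 6, 23000), (v69, 3, 2244), (v45, 3, 748)], [(v4, 0, 50), (v7, 3, 3)])])
  (.leaf 5049000 [(v3, 1, 3077646), (v72, 3, 219351), (v77, 1, 425425), (v67, 1, 2838099),
  (v56, 6, 4500000)] [(80, [(v33, 1, 2880), (v7, 3, 699), (v72, 3, 234), (v4, 1, 2140)], [(v55,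
  3, 2618), (v56, 6, 81000), (v26, 3, 14399), (v91, 3, 5610), (v73, 6, 8000)]), (0, [], [(v56,
  6, 312000), (v3, 1, 52360), (v72, 3, 5049), (v70, 3, 57783), (v4, 1, 44880)]), (-470, [(v91,
  3, 2244), (v87, 6, 60000), (v73, 6, 72000), (v5, 3, 24871), (v7, 3, 14399)], [(v40, 6,
  18000), (v72, 3, 561), (v77, 1, 2380), (v86, 3, 3366), (v4, 1, 4080)]), (1000, [], []), (533,
  [(v87, 6, 148000), (v66, 3, 6919), (v71, 6, 23000), (v69, 3, 2244), (v45, 3, 748)], [(v4, 1,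
  765), (v35, 3, 6), (v70, 3, 114), (v3, 1, 95)])]))) (.node 1 (-250) (.node 1 (-150) (.node 1
  (-100) (.node 1 (-60) (.node 0 (-470) (.node 6 250 (.node 4 187 (.leaf 1683000 [(v90, 6,
  795124), (v68, 6, 44132), (v66, 3, 89199), (v27, 6, 276012), (v12, 4, 2493000)] [(60, [],
  [(v66, 3, 561), (v68, 6, 748), (v12, 4, 8000)]), (470, [(v42, 3, 2618), (v88, 3, 935), (v90,
  6, 74052), (v75, 3, 23562), (v16, 4, 378000)], [(v62, 3, 4), (v76, 3, 1), (v74, 6, 20)]),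
  (-470, [(v27, 6, 748), (v31, 3, 561), (v12, 4, 4000)], [(v64, 3, 1), (v90, 6, 4), (v36, 3,
  1)]), (1000, [], []), (593, [(v27, 6, 2244), (v66, 3, 1122), (v90, 6, 1496), (v12, 4, 16000),
  (v55, 3, 561)], [(v4, 6, 153), (v35, 3, 2), (v70, 3, 38), (v3, 6, 19)])]) (.far 2)) (.node 6
  150 (.node 0 (-250) (.node 4 332 (.leaf 10458000 [(v90, 6, 8444420), (v27, 6, 4555040), (v88,
  3, 480321), (v12, 4, 10258500), (v68, 6, 302120)] [(60, [], [(v66, 3, 747), (v68, 6, 1660),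
  (v12, 4, 6000)]), (470, [(v42, 3, 83), (v88, 3, 83), (v90, 6, 3320), (v75, 3, 747), (v12, 4,
  3000)], [(v78, 4, 1500), (v27, 6, 19920), (v76, 3, 747), (v74, 6, 8300)]), (-470, [(v27, 6,
  1660), (v31, 3, 747), (v12, 4, 3000)], [(v68, 6, 33200), (v72, 3, 29133), (v90, 6, 215800),
  (v58, 3, 150147), (v14, 4, 607500)]), (1000, [], []), (666, [(v27, 6, 4980), (v66, 3, 1494),
  (v90, 6, 3320), (v12, 4, 12000), (v55, 3, 747)], [(v54, 4, 7250), (v35, 3, 747), (v86, 3,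
  4814), (v70, 3, 1411), (v67, 4, 6250)])]) (.far 2)) (.node 4 112 (.leaf 15600 [(v2, 3, 299),
  (v1, 0, 11024), (v25, 0, 6864), (v44, 6, 4240), (v4, 6, 6020)] [(-360, [(v33, 0, 84), (v27,
  0, 80), (v35, 3, 7), (v41, 3, 80), (v64, 3, 25)], [(v12, 4, 4875), (v1, 0, 9296), (v2, 3,
  698), (v32, 3, 54), (v44, 6, 280)]), (470, [(v26, 3, 1), (v25, 0, 4)], [(v27, 0, 4), (v24, 3,
  1)]), (-470, [(v37, 0, 8), (v52, 3, 5), (v1, 0, 56)], [(v0, 3, 38), (v86, 3, 30), (v51, 0,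
  140), (v36, 3, 29), (v4, 6, 200)]), (1000, [], []), (0, [(v1, 0, 16), (v2, 3, 1)], [])])
  (.far 2))) (.node 6 100 (.node 0 (-250) (.node 4 294 (.leaf 88200 [(v88, 3, 2394), (v28, 4,
  81450), (v68, 6, 2254), (v27, 6, 28077), (v90, 6, 72212)] [(-95, [(v33, 6, 19110), (v27, 6,
  14700), (v35, 3, 3087), (v41, 3, 5880), (v67, 4, 12500)], [(v66, 3, 49), (v28, 4, 500), (v31,
  3, 49)]), (470, [(v42, 3, 49), (v88, 3, 679), (v90, 6, 10080), (v75, 3, 2205), (v28, 4,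
  12000)], [(v78, 4, 1000), (v27, 6, 17640), (v76, 3, 441), (v74, 6, 7350)]), (-470, [(v28, 4,
  500), (v31, 3, 147)], [(v68, 6, 9800), (v72, 3, 5733), (v90, 6, 63700), (v58, 3, 29547),
  (v14, 4, 135000)]), (1000, [], []), (294, [(v27, 6, 15190), (v66, 3, 3822), (v90, 6, 4900),
  (v28, 4, 44000), (v55, 3, 4263)], [])]) (.far 2)) (.node 4 74 (.leaf 15600 [(v2, 3, 299),
  (v1, 0, 11024), (v25, 0, 6864), (v44, 6, 6360), (v4, 6, 9030)] [(-360, [(v33, 0, 84), (v27,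
  0, 80), (v35, 3, 7), (v41, 3, 80), (v64, 3, 25)], [(v52, 3, 25), (v1, 0, 704), (v2, 3, 32),
  (v44, 6, 60), (v26, 3, 7)]), (470, [(v26, 3, 1), (v25, 0, 4)], [(v24, 3, 1), (v27, 0, 4)]),
  (-470, [(v37, 0, 8), (v52, 3, 5), (v1, 0, 56)], [(v0, 3, 7), (v53, 0, 10), (v36, 3, 1)]),
  (1000, [], []), (0, [(v1, 0, 16), (v2, 3, 1)], [])]) (.far 2))) (.node 0 (-250) (.node 6 60
  (.node 1 60 (.node 4 264 (.leaf 4851000 [(v80, 1, 180950), (v90, 6, 6806250), (v28, 4,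
  4034625), (v88, 3, 44649), (v53, 6, 365750)] [(-95, [(v53, 6, 24200), (v29, 3, 3267), (v35,
  3, 1089), (v81, 4, 500), (v67, 4, 12000)], [(v66, 3, 9), (v80, 1, 20), (v12, 4, 100)]), (530,
  [(v28, 4, 125), (v55, 3, 66), (v30, 4, 375)], [(v46, 4, 250), (v27, 1, 2200), (v76, 3, 15),
  (v5, 3, 54), (v60, 1, 550)]), (-470, [(v28, 4, 125), (v31, 3, 33)], [(v30, 4, 2500), (v72, 3,
  297), (v90, 6, 5500), (v58, 3, 1683), (v14, 4, 6250)]), (1000, [], []), (264, [(v80, 1,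
  7700), (v88, 3, 990), (v90, 6, 11000), (v28, 4, 44625), (v55, 3, 6237)], [])]) (.far 2))
  (.node 4 499 (.leaf 395208000 [(v53, 6, 522577750), (v68, 6, 711623900), (v28, 4, 173052000),
  (v31, 3, 5070339), (v88, 3, 9080802)] [(60, [], [(v31, 3, 499), (v66, 3, 499), (v28, 4,
  3000)]), (0, [(v55, 3, 499), (v30, 4, 1500), (v28, 4, 500)], [(v31, 3, 1497), (v29, 3, 499),
  (v54, 4, 2000)]), (-441, [(v31, 3, 499), (v28, 4, 1000)], [(v30, 4, 1000), (v29, 3, 499)]),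
  (1000, [], []), (499, [(v27, 6, 773450), (v66, 3, 116766), (v90, 6, 249500), (v28, 4,
  792000), (v55, 3, 130239)], [])]) (.far 2))) (.node 4 (-30) (.node 6 30 (.node 1 150 (.node 4
  242 (.leaf 7260000 [(v45, 3, 1000186), (v30, 4, 26323500), (v55, 3, 840829), (v60, 1,
  20158600), (v68, 1, 4728680)] [(-95, [(v81, 4, 75), (v27, 1, 484), (v17, 1, 1452), (v85, 4,
  225)], [(v66, 3, 33), (v80, 1, 110), (v16, 4, 1500)]), (575, [(v80, 1, 4840), (v30, 4,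
  229500), (v55, 3, 17061), (v60, 1, 24200), (v45, 3, 5082)], [(v62, 3, 12), (v76, 3, 3), (v74,
  1, 100)]), (-470, [(v5, 3, 2541), (v11, 1, 15730), (v84, 1, 31460), (v45, 3, 363), (v12, 4,
  48750)], [(v17, 1, 2420), (v29, 3, 363), (v14, 4, 1500)]), (1000, [], []), (621, [(v80, 1,
  4840), (v55, 3, 1089), (v30, 4, 31500), (v45, 3, 2178), (v60, 1, 24200)], [(v30, 4, 29000),
  (v35, 3, 726), (v70, 3, 2541), (v67, 4, 3500)])]) (.far 2)) (.node 2 (-150) (.node 4 454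
  (.node 5 79 (.leaf 28692800 [(v54, 4, 25665125), (v63, 5, 102490500), (v59, 4, 3258750),
  (v31, 3, 22631446), (v53, 5, 25934750)] [(-95, [(v35, 3, 591789), (v81, 4, 158000), (v53, 5,
  9988000), (v29, 3, 1775367), (v67, 4, 3792000)], [(v31, 3, 227), (v66, 3, 227), (v28, 4,
  1500)]), (45, [(v45, 3, 179330), (v63, 5, 4767000), (v75, 3, 17933), (v14, 4, 711000), (v30,
  4, 711000)], [(v29, 3, 227), (v31, 3, 681), (v54, 4, 1000)]), (-150, [(v31, 3, 227), (v28, 4,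
  500)], []), (1000, [], []), (700, [(v66, 3, 35866), (v31, 3, 197263), (v28, 4, 355500), (v63,
  5, 1362000)], [(v54, 4, 14500), (v35, 3, 2043), (v86, 3, 13166), (v70, 3, 3859), (v67, 4,
  12500)])]) (.far 5)) (.far 2)) (.node 4 559 (.leaf 7826000 [(v88, 3, 1050361), (v87, 2,
  10587460), (v1, 2, 8076432), (v30, 4, 7350000), (v37, 2, 9248096)] [(-95, [(v3, 2, 17888),
  (v67, 4, 2200), (v35, 3, 1677), (v30, 4, 1000)], [(v87, 2, 55900), (v66, 3, 6708), (v12, 4,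
  15000), (v2, 3, 1677), (v28, 4, 15000)]), (45, [(v88, 3, 45279), (v65, 2, 950300), (v55, 3,
  6708), (v45, 3, 109005), (v14, 4, 870000)], [(v32, 3, 50310), (v37, 2, 4396535), (v66, 3,
  70434), (v5, 3, 412542), (v46, 4, 816750)]), (-575, [(v76, 3, 559), (v87, 2, 122980), (v12,
  4, 33000), (v5, 3, 10621), (v59, 4, 11000)], [(v30, 4, 1000), (v29, 3, 559)]), (1000, [],
  []), (779, [(v87, 2, 4472), (v66, 3, 1677), (v28, 4, 1200), (v12, 4, 1200), (v65, 2, 6708)],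
  [(v30, 4, 58000), (v35, 3, 3354), (v70, 3, 11739), (v67, 4, 7000)])]) (.far 2)))) (.node 0
  (-150) (.node 4 250 (.node 2 (-60) (.node 1 100 (.leaf 1500 [(v60, 1, 100), (v68, 1, 2845),
  (v30, 4, 474), (v28, 4, 3474), (v55, 3, 408)] [(-45, [(v81, 4, 1), (v27, 1, 10), (v17, 1,
  30), (v85, 4, 3)], [(v66, 3, 15), (v80, 1, 20), (v12, 4, 176)]), (0, [(v28, 4, 2), (v55, 3,
  1), (v30, 4, 6)], []), (0, [(v11, 1, 5), (v31, 3, 1), (v12, 4, 6)], [(v29, 3, 1), (v14, 4,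
  4), (v17, 1, 10)]), (1000, [], []), (544, [(v80, 1, 10), (v55, 3, 21), (v30, 4, 60), (v28, 4,
  72), (v60, 1, 50)], [(v30, 4, 232), (v35, 3, 6), (v70, 3, 21), (v67, 4, 28)])]) (.node 5 207
  (.leaf 34155000 [(v76, 3, 68103), (v63, 5, 40194000), (v5, 3, 10786770), (v54, 4, 45540000),
  (v90, 5, 11000000)] [(-45, [(v35, 3, 1725), (v67, 4, 10488), (v53, 5, 19000), (v41, 3, 7866),
  (v7, 3, 276)], [(v76, 3, 828), (v63, 5, 26000), (v32, 3, 621), (v28, 4, 10764)]), (0, [(v63,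
  5, 800), (v77, 5, 200), (v75, 3, 207)], [(v46, 4, 5060), (v54, 4, 10120), (v90, 5, 11000),
  (v76, 3, 1587), (v5, 3, 2070)]), (0, [(v76, 3, 207), (v5, 3, 6210), (v28, 4, 45540), (v63, 5,
  11000)], [(v90, 5, 38000), (v72, 3, 6831), (v66, 3, 12627), (v0, 3, 1242), (v14, 4,
  157320)]), (1000, [], []), (564, [(v63, 5, 22000), (v76, 3, 414), (v5, 3, 1035)], [(v54, 4,
  24), (v72, 3, 1), (v57, 3, 2), (v70, 3, 2), (v67, 4, 4)])]) (.far 5))) (.leaf 2400 [(v87, 2,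
  10150), (v58, 3, 999), (v30, 4, 4896), (v1, 2, 15720), (v37, 2, 2210)] [(-45, [(v1, 2, 200),
  (v30, 4, 4), (v35, 3, 3), (v67, 4, 16)], [(v87, 2, 250), (v66, 3, 12), (v12, 4, 60), (v2, 3,
  3), (v28, 4, 60)]), (470, [(v88, 3, 81), (v65, 2, 4250), (v55, 3, 12), (v45, 3, 195), (v14,
  4, 3480)], [(v66, 3, 99), (v37, 2, 7150), (v5, 3, 162), (v76, 3, 45), (v46, 4, 1188)]),
  (-530, [(v5, 3, 3), (v87, 2, 50), (v12, 4, 12), (v28, 4, 12)], [(v29, 3, 1), (v30, 4, 4)]),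
  (1000, [], []), (625, [(v87, 2, 100), (v66, 3, 15), (v65, 2, 150), (v28, 4, 24), (v12, 4,
  24)], [(v30, 4, 232), (v35, 3, 6), (v70, 3, 21), (v67, 4, 28)])])) (.node 5 60 (.node 6
  (-205) (.far 10) (.leaf 8856000 [(v73, 6, 676500), (v77, 5, 9900475), (v56, 6, 4000500),
  (v70, 3, 1230984), (v53, 5, 7112475)] [(0, [(v70, 3, 3), (v64, 3, 9), (v53, 5, 400), (v41, 3,
  48)], [(v45, 3, 492), (v56, 6, 38200), (v26, 3, 6765), (v91, 3, 2706), (v34, 6, 3200)]),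
  (348, [(v61, 3, 123), (v39, 3, 82), (v71, 6, 600)], [(v64, 3, 1517), (v56, 6, 59200), (v90,
  5, 32800), (v70, 3, 14063)]), (-387, [(v91, 3, 2747), (v7, 3, 1722), (v87, 6, 173400), (v61,
  3, 5453), (v73, 6, 600)], [(v71, 6, 12600), (v72, 3, 1230), (v77, 5, 28700), (v64, 3,
  4059)]), (1000, [], []), (110, [(v87, 6, 29600), (v66, 3, 1517), (v71, 6, 4600), (v69, 3,
  492), (v45, 3, 164)], [(v64, 3, 779), (v34, 6, 1600), (v70, 3, 1517), (v77, 5, 8200)])]))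
  (.node 1 533 (.node 6 (-93) (.far 2) (.leaf 18836220 [(v74, 1, 11308800), (v6, 6, 18655000),
  (v61, 3, 9104173), (v27, 1, 3298400), (v34, 6, 2665000)] [(-150, [(v61, 3, 533), (v68, 1,
  500)], []), (0, [(v61, 3, 16523), (v68, 1, 3875), (v71, 6, 66625)], []), (-470, [(v91, 3,
  826150), (v11, 1, 10602000), (v73, 6, 7995000), (v84, 1, 4464000), (v69, 3, 2197559)], [(v68,
  1, 1000), (v61, 3, 533), (v26, 3, 533)]), (1000, [], []), (110, [(v80, 1, 2976000), (v45, 3,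
  2511496), (v71, 6, 30381000), (v75, 3, 280891), (v65, 6, 12792000)], [(v61, 3, 2132), (v69,
  3, 533), (v74, 1, 3000)])])) (.node 1 67 (.node 6 (-379) (.far 8) (.leaf 2742444 [(v74, 1,
  7098670), (v6, 6, 872340), (v68, 1, 2452130), (v57, 3, 533253), (v73, 6, 218420)] [(-150,
  [(v27, 1, 379000), (v68, 1, 663250), (v71, 6, 50250), (v57, 3, 76179)], []), (300, [(v61, 3,
  1137), (v39, 3, 758), (v71, 6, 3000)], [(v56, 6, 14740000), (v27, 1, 3411000), (v35, 3,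
  330109), (v70, 3, 6856110), (v74, 1, 29562000)]), (-470, [(v91, 3, 4548), (v87, 6, 60000),
  (v73, 6, 72000), (v5, 3, 50407), (v7, 3, 29183)], [(v68, 1, 1042250), (v57, 3, 25393), (v71,
  6, 150750), (v86, 3, 406288)]), (1000, [], []), (110, [(v87, 6, 148000), (v66, 3, 14023),
  (v71, 6, 23000), (v69, 3, 4548), (v45, 3, 1516)], [(v34, 6, 737000), (v86, 3, 2285370), (v57,
  3, 736397), (v70, 3, 228537), (v74, 1, 12507000)])])) (.far 8))))) (.node 4 60 (.leaf 360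
  [(v1, 0, 264), (v30, 4, 290), (v53, 0, 334), (v54, 4, 755), (v2, 3, 24)] [(-200, [(v27, 0,
  20), (v64, 3, 9), (v53, 0, 140), (v41, 3, 54)], [(v1, 0, 560), (v2, 3, 24), (v32, 3, 3),
  (v28, 4, 350)]), (470, [(v25, 0, 20), (v26, 3, 3)], [(v24, 3, 3), (v27, 0, 20)]), (-470,
  [(v37, 0, 8), (v52, 3, 3), (v1, 0, 56)], [(v0, 3, 21), (v53, 0, 50), (v36, 3, 3)]), (1000,
  [], []), (0, [(v1, 0, 80), (v2, 3, 3)], [])]) (.node 6 (-213) (.far 2) (.leaf 1065000 [(v64,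
  3, 227910), (v33, 0, 613511), (v40, 6, 1941000), (v27, 0, 251695), (v34, 6, 266400)] [(-200,
  [(v27, 0, 20), (v64, 3, 9), (v53, 0, 140), (v41, 3, 54)], [(v45, 3, 2556), (v56, 6, 191000),
  (v26, 3, 35145), (v91, 3, 14058), (v34, 6, 16000)]), (470, [(v61, 3, 213), (v39, 3, 142),
  (v71, 6, 1000)], [(v64, 3, 2769), (v56, 6, 32000), (v70, 3, 6603), (v27, 0, 34080)]), (-470,
  [(v73, 6, 1000), (v5, 3, 426), (v70, 3, 213)], [(v40, 6, 7000), (v64, 3, 213), (v53, 0,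
  2840), (v86, 3, 2343)]), (1000, [], []), (15, [(v87, 6, 148000), (v66, 3, 7881), (v71, 6,
  23000), (v69, 3, 2556), (v45, 3, 852)], [(v3, 0, 45440), (v64, 3, 10863), (v34, 6, 8000),
  (v70, 3, 213)])]))))) (.node 1 60 (.node 6 (-333) (.far 2) (.leaf 999000 [(v73, 6, 98500),
  (v71, 6, 77000), (v74, 1, 3837825), (v57, 3, 228771), (v6, 6, 373000)] [(-250, [(v27, 1,
  3700), (v68, 1, 6475), (v71, 6, 500), (v57, 3, 666)], []), (530, [(v61, 3, 333), (v39, 3,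
  222), (v71, 6, 1000)], [(v56, 6, 220000), (v27, 1, 49950), (v35, 3, 4329), (v70, 3, 89910),
  (v74, 1, 432900)]), (-441, [(v91, 3, 1332), (v87, 6, 20000), (v73, 6, 24000), (v5, 3, 14763),
  (v7, 3, 8547)], [(v71, 6, 1500), (v68, 1, 10175), (v57, 3, 222), (v86, 3, 3552)]), (1000, [],
  []), (-45, [(v87, 6, 148000), (v66, 3, 12321), (v71, 6, 23000), (v69, 3, 3996), (v45, 3,
  1332)], [(v34, 6, 11000), (v86, 3, 29970), (v57, 3, 9657), (v70, 3, 2997), (v74, 1,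
  183150)])])) (.node 5 469 (.node 6 (-646) (.far 2) (.leaf 29994426000 [(v56, 6, 7195573875),
  (v70, 3, 6804644553), (v77, 5, 4691817250), (v53, 5, 2243477250), (v73, 6, 1032679375)]
  [(-117, [(v70, 3, 109746), (v72, 3, 30485), (v33, 5, 120000), (v77, 5, 43000)], [(v55, 3,
  969), (v56, 6, 8000), (v26, 3, 4845), (v91, 3, 1938), (v34, 6, 1000)]), (0, [(v83, 6,
  7621250), (v33, 5, 1615000), (v61, 3, 37417289), (v77, 5, 1453500)], [(v64, 3, 5605019),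
  (v56, 6, 69412000), (v90, 5, 15504000), (v70, 3, 51960041)]), (-206, [(v91, 3, 3876), (v87,
  6, 30000), (v73, 6, 36000), (v5, 3, 42959), (v7, 3, 24871)], [(v71, 6, 1641500), (v86, 3,
  6059480), (v90, 5, 2584000), (v64, 3, 1666357)]), (1000, [], []), (-45, [(v87, 6, 74000),
  (v66, 3, 11951), (v71, 6, 11500), (v69, 3, 3876), (v45, 3, 1292)], [(v34, 6, 1876000), (v64,
  3, 2878253), (v70, 3, 5605019), (v77, 5, 3876000)])])) (.far 8))))) (.node 2 (-60) (.node 1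
  60 (.leaf 7200 [(v60, 1, 43550), (v52, 3, 671), (v26, 3, 1943), (v3, 0, 7800), (v80, 1,
  1550)] [(-360, [(v27, 0, 4), (v64, 3, 3), (v53, 0, 28), (v41, 3, 18)], [(v1, 0, 72), (v80, 1,
  50), (v26, 3, 11), (v52, 3, 11), (v3, 0, 24)]), (530, [(v25, 0, 4), (v26, 3, 1)], [(v24, 3,
  1), (v27, 0, 4)]), (0, [(v37, 0, 8), (v52, 3, 5), (v1, 0, 56)], [(v0, 3, 7), (v53, 0, 10),
  (v36, 3, 1)]), (1000, [], []), (265, [(v2, 3, 1), (v1, 0, 16)], [(v0, 3, 1), (v3, 0, 1)])])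
  (.node 5 536 (.leaf 331650 [(v77, 5, 24150), (v52, 3, 66531), (v63, 5, 175850), (v24, 3,
  23383), (v43, 0, 109344)] [(-360, [(v70, 3, 15678), (v72, 3, 4355), (v33, 5, 15000), (v77, 5,
  5375)], [(v63, 5, 2000), (v52, 3, 670), (v91, 3, 67), (v37, 0, 1340)]), (0, [(v26, 3, 871),
  (v63, 5, 1250), (v75, 3, 402), (v33, 5, 375)], [(v24, 3, 1), (v27, 0, 4)]), (0, [(v91, 3,
  67), (v37, 0, 268), (v63, 5, 125), (v25, 5, 125)], [(v0, 3, 134), (v86, 3, 201), (v63, 5,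
  50), (v90, 5, 75)]), (1000, [], []), (280, [(v83, 5, 24750), (v5, 3, 24589), (v27, 0, 11792),
  (v37, 0, 11792), (v76, 3, 6298)], [(v24, 3, 7370), (v77, 5, 11625), (v91, 3, 3417), (v62, 3,
  23584), (v43, 0, 4020)])]) (.far 5))) (.leaf 586500 [(v2, 3, 54453), (v0, 3, 298605), (v53,
  0, 717876), (v73, 2, 578000), (v42, 3, 2829)] [(-360, [(v27, 0, 4), (v64, 3, 3), (v53, 0,
  28), (v41, 3, 18)], [(v1, 0, 40), (v2, 3, 7), (v73, 2, 25)]), (470, [(v25, 0, 4), (v26, 3,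
  1)], [(v24, 3, 1), (v27, 0, 4)]), (-530, [(v37, 0, 8), (v52, 3, 5), (v1, 0, 56)], [(v0, 3,
  7), (v36, 3, 1), (v53, 0, 10)]), (1000, [], []), (470, [(v1, 0, 16), (v2, 3, 1)], [(v0, 3,
  1), (v3, 0, 1)])])))))) (.node 4 60 (.leaf 169200 [(v2, 3, 41454), (v53, 0, 2900), (v27, 0,
  46250), (v1, 0, 296400), (v30, 4, 1223175)] [(-735, [(v27, 0, 100), (v64, 3, 141), (v53, 0,
  700), (v41, 3, 846)], [(v1, 0, 8400), (v2, 3, 1128), (v32, 3, 141), (v28, 4, 16450)]), (470,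
  [(v25, 0, 100), (v26, 3, 47)], [(v24, 3, 47), (v27, 0, 100)]), (-470, [(v37, 0, 40), (v52, 3,
  47), (v1, 0, 280)], [(v53, 0, 250), (v36, 3, 47), (v0, 3, 329)]), (1000, [], []), (0, [(v2,
  3, 47), (v1, 0, 400)], [])]) (.node 1 60 (.leaf 84600 [(v26, 3, 35391), (v52, 3, 7191), (v60,
  1, 815450), (v0, 3, 26508), (v3, 0, 60000)] [(-735, [(v27, 0, 100), (v64, 3, 141), (v53, 0,
  700), (v41, 3, 846)], [(v1, 0, 1800), (v80, 1, 2350), (v26, 3, 517), (v52, 3, 517), (v3, 0,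
  600)]), (530, [(v26, 3, 47), (v25, 0, 100)], [(v24, 3, 47), (v27, 0, 100)]), (-470, [(v37, 0,
  40), (v52, 3, 47), (v1, 0, 280)], [(v0, 3, 329), (v53, 0, 250), (v36, 3, 47)]), (1000, [],
  []), (0, [(v2, 3, 47), (v1, 0, 400)], [(v0, 3, 47), (v3, 0, 25)])]) (.node 5 233 (.leaf
  433659600 [(v52, 3, 92021253), (v24, 3, 97825283), (v43, 0, 77309400), (v77, 5, 123741600),
  (v63, 5, 540180400)] [(-735, [(v27, 0, 100), (v64, 3, 141), (v53, 0, 700), (v41, 3, 846)],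
  [(v83, 5, 1997500), (v52, 3, 2420171), (v43, 0, 285425), (v3, 0, 279600), (v37, 0,
  1485375)]), (0, [(v26, 3, 47), (v25, 0, 100)], [(v24, 3, 47), (v27, 0, 100)]), (-470, [(v37,
  0, 40), (v52, 3, 47), (v1, 0, 280)], [(v0, 3, 1226512), (v86, 3, 492795), (v51, 0, 582500),
  (v36, 3, 175216), (v77, 5, 705000)]), (1000, [], []), (0, [(v83, 5, 10340000), (v5, 3,
  4380400), (v66, 3, 120461), (v37, 0, 2050400), (v76, 3, 1149855)], [(v0, 3, 47), (v3, 0,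
  25)])]) (.far 1))))) (.node 2 (-150) (.node 5 253 (.leaf 296010000 [(v90, 5, 234000000),
  (v32, 3, 15979227), (v76, 3, 9734934), (v62, 3, 53459406), (v34, 1, 441877150)] [(-422,
  [(v70, 3, 253), (v64, 3, 759), (v53, 5, 8000), (v41, 3, 4048)], [(v63, 5, 234000), (v32, 3,
  14421), (v76, 3, 6072), (v34, 1, 164450)]), (0, [], [(v24, 3, 3795), (v28, 1, 63250), (v76,
  3, 1518), (v62, 3, 1518), (v90, 5, 12000)]), (0, [(v76, 3, 5313), (v73, 1, 63250), (v25, 5,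
  60000), (v62, 3, 6072)], [(v90, 5, 1000), (v36, 3, 253), (v64, 3, 253)]), (1000, [], []),
  (470, [(v5, 3, 115), (v76, 3, 46), (v63, 5, 2000)], [(v28, 1, 63250), (v24, 3, 3795), (v62,
  3, 18216), (v77, 5, 12000)])]) (.far 1)) (.leaf 2880 [(v71, 1, 5040), (v6, 1, 905), (v4, 1,
  3505), (v37, 2, 3840), (v0, 3, 1116)] [(-470, [(v3, 2, 840), (v89, 2, 200), (v72, 3, 57),
  (v86, 3, 30)], [(v87, 2, 1700), (v2, 3, 99), (v42, 3, 15), (v73, 2, 170)]), (0, [], [(v0, 3,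
  9), (v37, 2, 20)]), (-575, [(v91, 3, 66), (v87, 2, 720), (v73, 2, 160), (v45, 3, 21), (v37,
  2, 660)], [(v72, 3, 3), (v71, 1, 50), (v4, 1, 100)]), (1000, [], []), (470, [(v87, 2, 1360),
  (v66, 3, 75), (v42, 3, 12), (v65, 2, 380)], [(v43, 2, 80), (v86, 3, 204), (v64, 3, 57), (v67,
  2, 500)])]))) (.node 2 (-250) (.node 5 226 (.leaf 8701000 [(v24, 3, 2223162), (v34, 1,
  6306530), (v59, 1, 6403710), (v90, 5, 7700000), (v76, 3, 551779)] [(-446, [(v70, 3, 113),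
  (v64, 3, 339), (v53, 5, 4000), (v41, 3, 1808)], [(v76, 3, 4859), (v73, 1, 73450), (v32, 3,
  13560), (v63, 5, 234000)]), (0, [], [(v24, 3, 565), (v28, 1, 5650), (v76, 3, 226), (v62, 3,
  226), (v90, 5, 2000)]), (-95, [(v76, 3, 791), (v73, 1, 5650), (v25, 5, 10000), (v62, 3,
  904)], [(v90, 5, 500), (v36, 3, 113), (v64, 3, 113)]), (1000, [], []), (470, [(v5, 3, 565),
  (v76, 3, 226), (v63, 5, 11000)], [(v30, 1, 9040), (v77, 5, 500), (v70, 3, 678), (v64, 3,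
  113)])]) (.far 1)) (.leaf 20800 [(v71, 1, 16830), (v2, 3, 1944), (v4, 1, 25420), (v37, 2,
  16640), (v72, 3, 67)] [(-470, [(v3, 2, 168), (v89, 2, 40), (v72, 3, 19), (v86, 3, 10)],
  [(v87, 2, 340), (v2, 3, 33), (v42, 3, 5), (v73, 2, 34)]), (0, [], [(v0, 3, 3), (v37, 2, 4)]),
  (-625, [(v91, 3, 22), (v87, 2, 144), (v73, 2, 32), (v45, 3, 7), (v37, 2, 132)], [(v72, 3, 1),
  (v71, 1, 10), (v4, 1, 20)]), (1000, [], []), (470, [(v87, 2, 272), (v66, 3, 25), (v42, 3, 4),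
  (v65, 2, 76)], [(v43, 2, 16), (v86, 3, 68), (v64, 3, 19), (v67, 2, 100)])]))) (.node 2 (-470)
  (.node 5 129 (.leaf 5959800 [(v59, 1, 2451860), (v34, 1, 2860360), (v90, 5, 9240000), (v24,
  3, 1628367), (v76, 3, 346107)] [(-470, [(v33, 1, 3360), (v70, 3, 699), (v72, 3, 273), (v4, 1,
  1720)], [(v65, 1, 380), (v34, 1, 100), (v32, 3, 57), (v6, 1, 320)]), (0, [], [(v24, 3, 645),
  (v28, 1, 4300), (v76, 3, 258), (v62, 3, 258), (v90, 5, 4000)]), (-205, [(v76, 3, 3), (v73, 1,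
  220), (v5, 3, 57), (v7, 3, 33)], [(v72, 3, 3), (v71, 1, 20), (v4, 1, 40)]), (1000, [], []),
  (470, [(v65, 1, 80), (v66, 3, 21), (v73, 1, 20)], [(v4, 1, 765), (v35, 3, 6), (v70, 3, 114),
  (v3, 1, 95)])]) (.far 1)) (.leaf 744480 [(v4, 1, 282658), (v0, 3, 437382), (v77, 1, 65189),
  (v37, 2, 380160), (v71, 1, 598169)] [(-470, [(v3, 2, 6600), (v43, 2, 1000), (v86, 3, 7990),
  (v72, 3, 799)], [(v87, 2, 8500), (v2, 3, 1551), (v42, 3, 235), (v73, 2, 850)]), (-200, [(v36,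
  3, 47), (v1, 2, 300)], [(v0, 3, 141), (v37, 2, 100)]), (-735, [(v91, 3, 1034), (v87, 2,
  3600), (v73, 2, 800), (v45, 3, 329), (v37, 2, 3300)], [(v72, 3, 3), (v71, 1, 20), (v4, 1,
  40)]), (1000, [], []), (470, [(v87, 2, 6800), (v66, 3, 1175), (v65, 2, 1900), (v42, 3, 188)],
  [(v43, 2, 400), (v86, 3, 3196), (v64, 3, 893), (v67, 2, 2500)])]))) (.node 2 (-470) (.node 5
  229 (.leaf 35724000 [(v28, 1, 75270468), (v76, 3, 4994032), (v34, 1, 1452776), (v32, 3,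
  2688689), (v90, 5, 50700000)] [(-468, [(v33, 1, 672), (v70, 3, 233), (v72, 3, 91), (v4, 1,
  344)], [(v65, 1, 76), (v34, 1, 20), (v32, 3, 19), (v6, 1, 64)]), (-625, [(v26, 3, 13), (v63,
  1, 40), (v75, 3, 6), (v33, 1, 12)], [(v24, 3, 1145), (v28, 1, 4580), (v76, 3, 458), (v62, 3,
  458), (v90, 5, 4000)]), (-205, [(v76, 3, 1), (v73, 1, 44), (v5, 3, 19), (v7, 3, 11)], [(v72,
  3, 1), (v71, 1, 4), (v4, 1, 8)]), (1000, [], []), (470, [(v65, 1, 16), (v66, 3, 7), (v73, 1,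
  4)], [(v4, 1, 153), (v35, 3, 2), (v70, 3, 38), (v3, 1, 19)])]) (.far 1)) (.leaf 2481600 [(v4,
  1, 1284416), (v37, 2, 1716000), (v2, 3, 522687), (v77, 1, 239136), (v6, 1, 150964)] [(-470,
  [(v3, 2, 6600), (v43, 2, 1000), (v86, 3, 7990), (v72, 3, 799)], [(v87, 2, 8500), (v73, 2,
  850), (v2, 3, 1551), (v42, 3, 235)]), (-625, [(v36, 3, 47), (v1, 2, 300)], [(v0, 3, 141),
  (v37, 2, 100)]), (-735, [(v91, 3, 1034), (v87, 2, 3600), (v73, 2, 800), (v45, 3, 329), (v37,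
  2, 3300)], [(v72, 3, 1), (v71, 1, 4), (v4, 1, 8)]), (1000, [], []), (470, [(v87, 2, 6800),
  (v66, 3, 1175), (v65, 2, 1900), (v42, 3, 188)], [(v43, 2, 400), (v86, 3, 3196), (v64, 3,
  893), (v67, 2, 2500)])])))))))) (.node 0 (-250) (.node 1 349 (.leaf 24000 [(v25, 4, 7200),
  (v65, 4, 250), (v69, 3, 1047), (v63, 4, 27200)] [(-75, [(v68, 1, 500), (v61, 3, 349)], [(v60,
  1, 2000), (v69, 3, 349)]), (349, [(v63, 4, 50), (v61, 3, 3)], []), (59, [(v27, 1, 1000),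
  (v60, 1, 1000), (v69, 3, 349)], [(v68, 1, 1000), (v61, 3, 349), (v26, 3, 349)]), (0, [(v61,
  3, 1047), (v1, 4, 34900), (v74, 1, 6000), (v69, 3, 1047)], []), (0, [], [(v61, 3, 1396),
  (v69, 3, 349), (v74, 1, 3000)])]) (.node 5 134 (.node 6 (-134) (.far 8) (.leaf 107937000
  [(v34, 6, 33370000), (v27, 4, 206782100), (v77, 5, 46950000), (v56, 6, 72524000), (v70, 3,
  18990279)] [(-75, [(v70, 3, 2613), (v35, 3, 871), (v33, 5, 9500), (v77, 5, 4000)], [(v45, 3,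
  804), (v56, 6, 95500), (v26, 3, 11055), (v91, 3, 4422), (v34, 6, 8000)]), (0, [(v63, 5, 400),
  (v75, 3, 67), (v77, 5, 100)], [(v56, 6, 148000), (v64, 3, 2479), (v70, 3, 22981), (v90, 5,
  24000)]), (222, [(v91, 3, 804), (v87, 6, 30000), (v73, 6, 36000), (v5, 3, 8911), (v7, 3,
  5159)], [(v58, 3, 1608), (v72, 3, 737), (v77, 5, 12500), (v0, 3, 8040)]), (1000, [], []),
  (-80, [(v87, 6, 74000), (v66, 3, 2479), (v71, 6, 11500), (v69, 3, 804), (v45, 3, 268)],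
  [(v34, 6, 4000), (v64, 3, 1273), (v70, 3, 2479), (v77, 5, 6000)])])) (.far 8))) (.leaf 90000
  [(v38, 4, 406250), (v3, 0, 129600), (v36, 3, 6177), (v0, 3, 49194), (v52, 3, 11250)] [(-625,
  [(v27, 0, 4), (v64, 3, 3), (v53, 0, 28), (v41, 3, 18)], [(v1, 0, 96), (v56, 4, 150), (v26, 3,
  8), (v52, 3, 11)]), (239, [(v26, 3, 1), (v25, 0, 4)], [(v24, 3, 1), (v27, 0, 4)]), (0, [(v37,
  0, 8), (v52, 3, 5), (v1, 0, 56)], [(v36, 3, 1), (v0, 3, 7), (v53, 0, 10)]), (1000, [], []),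
  (-80, [(v2, 3, 1), (v1, 0, 16)], [(v0, 3, 1), (v3, 0, 1)])])))))) (.node 5 150 (.node 0 604
  (.far 10) (.node 1 (-486) (.leaf 42000 [(v38, 4, 17544), (v77, 5, 28000), (v91, 3, 5825),
  (v27, 4, 122236), (v87, 4, 26646)] [(-198, [(v70, 3, 117), (v35, 3, 39), (v33, 5, 380), (v77,
  5, 160)], [(v63, 5, 240), (v56, 4, 150), (v52, 3, 5), (v91, 3, 16)]), (257, [(v63, 5, 16),
  (v75, 3, 3), (v77, 5, 4)], [(v62, 3, 1), (v60, 4, 10)]), (0, [(v91, 3, 3), (v37, 4, 12),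
  (v25, 5, 28), (v87, 4, 90)], [(v90, 5, 96), (v72, 3, 147), (v77, 5, 2044), (v88, 3, 72), (v0,
  3, 1512)]), (1000, [], []), (0, [], [(v24, 3, 5), (v77, 5, 40), (v91, 3, 4), (v62, 3, 22),
  (v27, 4, 50)])]) (.far 12))) (.node 1 242 (.leaf 24000 [(v71, 4, 18630), (v61, 3, 2168),
  (v69, 3, 779)] [(-175, [(v53, 4, 1210), (v68, 1, 1000), (v57, 3, 363)], [(v69, 3, 121), (v60,
  1, 1000)]), (621, [(v26, 3, 1), (v25, 4, 10)], [(v62, 3, 484), (v76, 3, 121), (v74, 1,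
  2500)]), (0, [(v91, 3, 968), (v27, 1, 6000), (v65, 4, 10890), (v69, 3, 121)], [(v68, 1, 500),
  (v90, 4, 242), (v63, 4, 2178), (v86, 3, 1089)]), (0, [(v61, 3, 121), (v1, 4, 2420), (v74, 1,
  1000), (v69, 3, 121)], []), (0, [], [(v61, 3, 484), (v69, 3, 121), (v74, 1, 1500)])]) (.far
  12)))) (.node 0 (-100) (.node 0 601 (.far 2) (.node 1 (-113) (.node 2 (-401) (.node 6 (-66)
  (.far 2) (.leaf 16632000 [(v57, 3, 2305809), (v90, 4, 10646680), (v27, 4, 25189780), (v64, 3,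
  2378178), (v34, 6, 25200000)] [(250, [(v27, 4, 160), (v64, 3, 9), (v90, 4, 280), (v41, 3,
  306)], [(v65, 4, 80), (v56, 4, 340), (v26, 3, 49), (v91, 3, 22)]), (443, [(v26, 3, 3), (v25,
  4, 20)], [(v62, 3, 3), (v60, 4, 20)]), (299, [(v91, 3, 3), (v37, 4, 20), (v65, 4, 20)],
  [(v36, 3, 3), (v64, 3, 3), (v90, 4, 20)]), (1000, [], []), (-200, [(v87, 4, 2960), (v66, 3,
  111), (v71, 4, 460), (v69, 3, 36), (v45, 3, 12)], [(v34, 6, 500), (v86, 3, 510), (v57, 3, 3),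
  (v70, 3, 18), (v27, 4, 880)])])) (.far 2)) (.far 8))) (.node 1 (-443) (.leaf 54000 [(v0, 3,
  44196), (v38, 4, 93000), (v26, 3, 5245), (v3, 0, 216000), (v52, 3, 4891)] [(-550, [(v27, 4,
  160), (v64, 3, 9), (v90, 4, 280), (v41, 3, 306)], [(v65, 4, 80), (v56, 4, 340), (v26, 3, 49),
  (v91, 3, 22)]), (278, [(v26, 3, 3), (v25, 4, 20)], [(v24, 3, 3), (v27, 4, 20)]), (0, [(v91,
  3, 27), (v70, 3, 3), (v87, 4, 2000), (v39, 3, 33)], [(v64, 3, 3), (v90, 4, 20), (v36, 3,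
  3)]), (1000, [], []), (-200, [(v87, 4, 2960), (v66, 3, 111), (v71, 4, 460), (v69, 3, 36),
  (v45, 3, 12)], [(v0, 3, 2), (v3, 0, 5)])]) (.far 12)))) (.node 0 (-150) (.node 6 (-133) (.far
  2) (.leaf 28728000 [(v57, 3, 5290683), (v90, 4, 12670264), (v34, 6, 28368000), (v27, 4,
  30471364), (v64, 3, 6311838)] [(175, [(v27, 4, 32), (v64, 3, 3), (v90, 4, 56), (v41, 3,
  102)], [(v65, 4, 48), (v56, 4, 204), (v26, 3, 49), (v91, 3, 22)]), (493, [(v26, 3, 1), (v25,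
  4, 4)], [(v24, 3, 1), (v27, 4, 4)]), (349, [(v91, 3, 1), (v37, 4, 4), (v65, 4, 4)], [(v36, 3,
  1), (v64, 3, 1), (v90, 4, 4)]), (1000, [], []), (-576, [(v87, 4, 592), (v66, 3, 37), (v71, 4,
  92), (v69, 3, 12), (v45, 3, 4)], [(v34, 6, 11000), (v86, 3, 22610), (v57, 3, 133), (v70, 3,
  798), (v27, 4, 23408)])])) (.leaf 36000 [(v0, 3, 48948), (v52, 3, 3333), (v26, 3, 4035),
  (v38, 4, 37800), (v3, 0, 130000)] [(-575, [(v27, 4, 32), (v64, 3, 3), (v90, 4, 56), (v41, 3,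
  102)], [(v65, 4, 48), (v56, 4, 204), (v26, 3, 49), (v91, 3, 22)]), (321, [(v26, 3, 1), (v25,
  4, 4)], [(v24, 3, 1), (v27, 4, 4)]), (0, [(v91, 3, 9), (v70, 3, 1), (v87, 4, 400), (v39, 3,
  11)], [(v64, 3, 1), (v90, 4, 4), (v36, 3, 1)]), (1000, [], []), (-625, [(v87, 4, 592), (v66,
  3, 37), (v71, 4, 92), (v69, 3, 12), (v45, 3, 4)], [(v0, 3, 3), (v3, 0, 5)])]))

theorem t3_ok : treeOK dat t3 (rootIv dat 3) = true := by decide +kernel

end Pool.Agent.Y81.Proj.BlockFive
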