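import Mathlib
import Pool.Agent.Y81.BlockFive

/-! Certificate trees. -/

set_option maxRecDepth 100000

namespace Pool.Agent.Y81.Proj.BlockFive

def t4 : Tree dat :=
.node 0 (-250) (.node 0 (-150) (.node 0 (-100) (.node 1 250 (.node 3 250 (.leaf 480 [(v45, 3,
  392), (v30, 4, 441), (v68, 1, 232), (v60, 1, 904), (v55, 3, 188)] [(450, [(v27, 1, 16), (v17,
  1, 48), (v81, 4, 1), (v85, 4, 3)], [(v16, 4, 3), (v80, 1, 2), (v69, 4, 1)]), (625, [(v80, 1,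
  8), (v30, 4, 153), (v60, 1, 40), (v45, 3, 56), (v55, 3, 188)], [(v78, 4, 11), (v82, 4, 1),
  (v84, 1, 224), (v27, 1, 112)]), (0, [(v12, 4, 2), (v84, 1, 12), (v61, 4, 1)], [(v85, 4, 3),
  (v68, 1, 4), (v10, 4, 4), (v17, 1, 40)]), (625, [(v27, 1, 4), (v30, 4, 1)], [(v55, 3, 12),
  (v26, 4, 4), (v52, 4, 1)]), (1000, [], [])]) (.node 5 (-166) (.far 13) (.leaf 9960000 [(v13,
  1, 5620096), (v85, 4, 1232799), (v87, 5, 15000000), (v29, 1, 282864), (v81, 4, 212563)]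
  [(450, [(v67, 4, 2), (v17, 1, 88), (v81, 4, 1)], [(v80, 1, 2), (v69, 4, 1), (v16, 4, 3)]),
  (250, [(v26, 4, 4316), (v87, 5, 96000), (v13, 1, 15936), (v81, 4, 415), (v85, 4, 4731)], []),
  (12, [(v11, 1, 8), (v16, 4, 7), (v15, 1, 4)], [(v85, 4, 3), (v68, 1, 4), (v10, 4, 4), (v17,
  1, 40)]), (-76, [(v68, 1, 4), (v67, 4, 1)], [(v31, 1, 4), (v26, 4, 1)]), (0, [(v87, 5, 3000),
  (v58, 1, 332), (v85, 4, 83), (v26, 4, 83), (v29, 1, 332)], [])]))) (.node 1 150 (.node 3 150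
  (.leaf 1440 [(v60, 1, 3840), (v68, 1, 1200), (v55, 3, 20), (v30, 4, 837), (v45, 3, 1640)]
  [(450, [(v27, 1, 40), (v17, 1, 280), (v81, 4, 3), (v30, 4, 6)], [(v16, 4, 9), (v80, 1, 10),
  (v69, 4, 3)]), (200, [(v80, 1, 40), (v30, 4, 459), (v60, 1, 200), (v45, 3, 280), (v55, 3,
  940)], [(v78, 4, 33), (v82, 4, 3), (v84, 1, 1120), (v27, 1, 560)]), (0, [(v11, 1, 40), (v84,
  1, 60), (v61, 4, 3), (v16, 4, 24)], [(v85, 4, 9), (v68, 1, 20), (v10, 4, 12), (v17, 1,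
  200)]), (575, [(v27, 1, 20), (v30, 4, 3)], [(v55, 3, 20), (v26, 4, 4), (v52, 4, 1)]), (1000,
  [], [])]) (.node 5 (-166) (.far 13) (.leaf 29880000 [(v87, 5, 27000000), (v85, 4, 2404593),
  (v13, 1, 23558720), (v29, 1, 4362480), (v81, 4, 574941)] [(450, [(v27, 5, 2000), (v17, 1,
  6640), (v81, 4, 83), (v85, 4, 249)], [(v91, 4, 166), (v26, 4, 249), (v56, 5, 4500), (v69, 4,
  332)]), (150, [(v26, 4, 83), (v87, 5, 6000), (v29, 1, 1660), (v61, 4, 166), (v85, 4, 498)],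
  []), (0, [(v91, 4, 3071), (v11, 5, 21000), (v89, 4, 249), (v87, 5, 168000), (v61, 4, 5810)],
  [(v60, 5, 1500), (v85, 4, 747), (v13, 1, 3320)]), (-166, [(v27, 5, 500), (v30, 4, 83)],
  [(v66, 1, 20), (v69, 4, 3)]), (0, [(v87, 5, 9000), (v58, 1, 1660), (v85, 4, 249), (v26, 4,
  249), (v29, 1, 1660)], [])]))) (.node 1 100 (.node 3 150 (.node 0 60 (.leaf 65400 [(v55, 3,
  34970), (v81, 4, 1198), (v17, 1, 20310), (v27, 1, 160615), (v6, 0, 150200)] [(530, [(v27, 1,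
  20), (v17, 1, 140), (v81, 4, 1), (v30, 4, 2)], [(v80, 1, 15), (v66, 3, 20), (v16, 4, 33)]),
  (125, [(v45, 3, 1600), (v81, 4, 265), (v85, 4, 477), (v26, 4, 212), (v6, 0, 21600)], [(v78,
  4, 11), (v82, 4, 1), (v84, 1, 560), (v27, 1, 280)]), (0, [(v5, 3, 56), (v11, 1, 78), (v84, 1,
  156), (v45, 3, 8), (v12, 4, 39)], [(v58, 3, 20), (v85, 4, 3), (v14, 4, 3), (v17, 1, 90)]),
  (575, [(v27, 1, 10), (v30, 4, 1)], [(v55, 3, 20), (v26, 4, 4), (v52, 4, 1)]), (1000, [],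
  [])]) (.leaf 2400 [(v30, 4, 921), (v55, 3, 8000), (v60, 1, 8160), (v28, 4, 1224), (v27, 1,
  1290)] [(-20, [(v27, 1, 20), (v17, 1, 140), (v81, 4, 1), (v30, 4, 2)], [(v16, 4, 33), (v66,
  3, 20), (v80, 1, 15)]), (0, [(v30, 4, 9), (v28, 4, 3), (v55, 3, 40)], []), (0, [(v5, 3, 56),
  (v11, 1, 78), (v84, 1, 156), (v45, 3, 8), (v12, 4, 39)], [(v85, 4, 3), (v68, 1, 6), (v58, 3,
  8), (v17, 1, 12)]), (575, [(v27, 1, 10), (v30, 4, 1)], [(v55, 3, 20), (v26, 4, 4), (v52, 4,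
  1)]), (1000, [], [])])) (.node 3 (-521) (.node 5 (-108) (.far 13) (.leaf 189000 [(v13, 1,
  237600), (v81, 4, 3537), (v85, 4, 9450), (v87, 5, 175000), (v58, 1, 9990)] [(450, [(v27, 5,
  1000), (v17, 1, 3240), (v81, 4, 27), (v85, 4, 81)], [(v91, 4, 6), (v26, 4, 9), (v56, 5, 250),
  (v69, 4, 12)]), (100, [(v26, 4, 9), (v87, 5, 1000), (v29, 1, 270), (v61, 4, 18), (v85, 4,
  54)], []), (0, [(v91, 4, 333), (v11, 5, 3500), (v87, 5, 28000), (v61, 4, 630), (v89, 4, 27)],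
  [(v13, 1, 540), (v85, 4, 81), (v60, 5, 250)]), (-186, [(v27, 5, 250), (v30, 4, 27)], [(v66,
  1, 10), (v69, 4, 1)]), (0, [(v87, 5, 7000), (v58, 1, 2430), (v13, 1, 90), (v10, 4, 189),
  (v81, 4, 9)], [])])) (.far 9))) (.node 0 (-60) (.node 1 60 (.node 2 100 (.leaf 25200 [(v15,
  1, 68240), (v11, 1, 60390), (v12, 4, 1561), (v81, 4, 272), (v83, 2, 9000)] [(470, [(v82, 4,
  2), (v51, 2, 260), (v49, 4, 13), (v89, 4, 9)], [(v16, 4, 36), (v91, 4, 2), (v48, 2, 180),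
  (v69, 4, 19)]), (0, [(v61, 4, 14), (v81, 4, 1), (v83, 2, 30)], []), (550, [(v11, 1, 100),
  (v15, 1, 50), (v16, 4, 21)], [(v64, 4, 5), (v86, 4, 1), (v88, 2, 5), (v10, 4, 7), (v90, 2,
  45)]), (223, [(v89, 4, 9), (v90, 2, 10), (v68, 2, 140)], [(v88, 2, 90), (v69, 4, 14), (v91,
  4, 1)]), (1000, [], [])]) (.node 3 301 (.leaf 54180 [(v60, 1, 183610), (v55, 3, 90000), (v68,
  1, 21070), (v67, 4, 2709), (v30, 4, 35217)] [(470, [(v67, 4, 301), (v29, 3, 3000), (v30, 4,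
  301)], [(v12, 4, 9933), (v80, 1, 7525), (v66, 3, 11250)]), (0, [(v28, 4, 301), (v55, 3,
  2000), (v30, 4, 903)], []), (-450, [(v28, 4, 301), (v31, 3, 1000)], [(v29, 3, 1000), (v30, 4,
  301)]), (0, [(v68, 1, 50), (v67, 4, 3)], []), (1000, [], [])]) (.node 0 60 (.node 3 (-398)
  (.node 5 (-185) (.far 13) (.leaf 1198800 [(v87, 5, 1464228), (v81, 4, 27084), (v6, 0,
  2437671), (v13, 1, 2838677), (v29, 1, 4397265)] [(530, [(v27, 5, 12000), (v13, 1, 29600),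
  (v81, 4, 333), (v85, 4, 1665)], [(v91, 4, 74), (v26, 4, 111), (v56, 5, 1800), (v69, 4,
  148)]), (80, [(v61, 4, 6179), (v87, 5, 8400), (v29, 1, 48100), (v81, 4, 925), (v6, 0,
  99900)], [(v78, 4, 407), (v82, 4, 37), (v84, 5, 11200), (v27, 5, 5600)]), (-450, [(v12, 4,
  74), (v84, 5, 600), (v61, 4, 37)], [(v60, 5, 600), (v85, 4, 333), (v13, 1, 3700)]), (-49,
  [(v30, 4, 37), (v27, 5, 200)], [(v61, 4, 37), (v84, 5, 600), (v29, 1, 1850), (v26, 4, 185)]),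
  (1000, [], [])])) (.far 13)) (.node 5 (-204) (.far 9) (.node 6 305 (.leaf 11199600 [(v26, 4,
  4965156), (v53, 6, 4673300), (v56, 5, 4481975), (v51, 6, 1874080), (v84, 5, 19044200)] [(0,
  [(v27, 6, 200), (v41, 4, 1098), (v51, 6, 400), (v53, 6, 400), (v30, 4, 183)], [(v91, 4, 34),
  (v26, 4, 51), (v56, 5, 750), (v69, 4, 68)]), (80, [(v26, 4, 9333), (v87, 5, 30500), (v53, 6,
  17000), (v69, 4, 2074)], [(v24, 4, 61), (v27, 6, 200)]), (-479, [(v91, 4, 1037), (v43, 6,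
  30600), (v16, 4, 186660), (v84, 5, 549000), (v69, 4, 23851)], [(v8, 4, 854), (v17, 6, 2800),
  (v90, 6, 2200), (v36, 4, 610), (v86, 4, 2013)]), (0, [(v27, 6, 800), (v53, 6, 200), (v54, 4,
  183)], [(v84, 5, 76250), (v23, 6, 6800), (v26, 4, 18666), (v51, 6, 6800), (v69, 4, 3111)]),
  (1000, [], [])]) (.far 3)))))) (.node 2 250 (.node 6 60 (.leaf 1965600 [(v83, 2, 110286),
  (v43, 6, 1820000), (v88, 2, 642264), (v69, 4, 135135), (v80, 2, 66222)] [(470, [(v82, 4, 5),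
  (v51, 2, 208), (v81, 4, 13), (v89, 4, 16)], [(v91, 4, 2), (v40, 2, 72), (v69, 4, 1)]), (-470,
  [(v81, 4, 1), (v83, 2, 12), (v61, 4, 14)], [(v80, 2, 4), (v82, 4, 3), (v60, 2, 56)]), (0,
  [(v91, 4, 13), (v43, 6, 150), (v66, 2, 18), (v69, 4, 11), (v71, 2, 54)], []), (0, [(v90, 2,
  4), (v68, 2, 56), (v89, 4, 9)], [(v88, 2, 36), (v69, 4, 14), (v91, 4, 1)]), (1000, [], [])])
  (.node 0 175 (.node 3 (-227) (.leaf 245000 [(v58, 2, 11368), (v13, 2, 1095416), (v34, 0,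
  325000), (v70, 4, 32627), (v41, 4, 64134)] [(587, [(v82, 4, 5), (v51, 2, 208), (v81, 4, 13),
  (v89, 4, 16)], [(v80, 2, 2), (v69, 4, 1), (v16, 4, 3)]), (-470, [(v81, 4, 1), (v61, 4, 14),
  (v83, 2, 12)], [(v80, 2, 4), (v82, 4, 3), (v60, 2, 56)]), (625, [(v70, 4, 77), (v13, 2, 896),
  (v34, 0, 600), (v58, 2, 588), (v41, 4, 224)], [(v36, 4, 1), (v64, 4, 1), (v90, 2, 4)]), (386,
  [(v67, 4, 1), (v68, 2, 4)], [(v88, 2, 36), (v69, 4, 14), (v91, 4, 1)]), (1000, [], [])])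
  (.far 3)) (.far 11))) (.node 2 150 (.node 6 60 (.leaf 64800 [(v83, 2, 5744), (v43, 6, 60000),
  (v66, 2, 64564), (v69, 4, 4455), (v40, 2, 44128)] [(470, [(v70, 4, 54), (v81, 4, 15), (v17,
  2, 600), (v90, 2, 320)], [(v91, 4, 96), (v83, 2, 190), (v48, 2, 440), (v16, 4, 189)]), (-470,
  [(v63, 2, 20), (v61, 4, 3)], [(v80, 2, 20), (v82, 4, 9), (v60, 2, 280)]), (0, [(v91, 4, 13),
  (v43, 6, 150), (v66, 2, 30), (v69, 4, 11), (v71, 2, 90)], []), (0, [(v90, 2, 20), (v68, 2,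
  280), (v89, 4, 27)], [(v88, 2, 60), (v69, 4, 14), (v91, 4, 1)]), (1000, [], [])]) (.node 0
  559 (.leaf 105651000 [(v41, 4, 38896338), (v13, 2, 532827620), (v70, 4, 6250179), (v17, 2,
  306153120), (v34, 0, 32400000)] [(779, [(v82, 4, 15), (v51, 2, 1040), (v81, 4, 39), (v89, 4,
  48)], [(v91, 4, 1118), (v26, 4, 1677), (v56, 0, 9000), (v69, 4, 2236)]), (-470, [(v6, 0,
  147000), (v13, 2, 212420), (v39, 4, 116831), (v58, 2, 212420), (v34, 0, 21000)], [(v38, 0,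
  3200), (v68, 2, 2236), (v70, 4, 1677)]), (200, [(v70, 4, 18447), (v13, 2, 357760), (v34, 0,
  45000), (v58, 2, 234780), (v41, 4, 53664)], [(v40, 0, 3000), (v38, 0, 3000), (v90, 2, 11180),
  (v86, 4, 18447)]), (353, [(v90, 2, 20), (v68, 2, 280), (v89, 4, 27)], [(v88, 2, 60), (v69, 4,
  14), (v91, 4, 1)]), (1000, [], [])]) (.node 3 294 (.leaf 2778300 [(v63, 2, 2999486), (v38, 2,
  993916), (v68, 2, 466970), (v5, 3, 1620000), (v59, 4, 138915)] [(338, [(v70, 4, 54), (v81, 4,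
  15), (v17, 2, 600), (v90, 2, 320)], [(v66, 3, 50), (v48, 2, 28), (v40, 2, 392), (v50, 4,
  21)]), (-470, [(v61, 4, 3), (v63, 2, 20)], [(v80, 2, 20), (v82, 4, 9), (v60, 2, 280)]), (200,
  [(v12, 4, 147), (v5, 3, 500), (v40, 2, 980), (v59, 4, 147)], [(v58, 3, 30150), (v72, 3,
  5850), (v90, 2, 12740), (v14, 4, 11907), (v68, 2, 1960)]), (0, [(v67, 4, 3), (v68, 2, 20)],
  []), (1000, [], [])]) (.far 3)))) (.node 2 100 (.node 0 100 (.node 1 (-60) (.node 3 60 (.leaf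
  1287000 [(v5, 3, 2759800), (v67, 4, 9669), (v34, 0, 397395), (v90, 2, 1237230), (v56, 0,
  105825)] [(550, [(v82, 4, 2), (v51, 2, 260), (v49, 4, 13), (v89, 4, 9)], [(v91, 4, 2), (v26,
  4, 3), (v56, 0, 90), (v69, 4, 4)]), (0, [(v61, 4, 14), (v83, 2, 30), (v81, 4, 1)], [(v62, 4,
  1), (v60, 2, 10)]), (125, [(v12, 4, 33), (v5, 3, 650), (v56, 0, 55), (v34, 0, 35), (v59, 4,
  33)], [(v64, 4, 5), (v86, 4, 1), (v88, 2, 5), (v10, 4, 7), (v90, 2, 45)]), (530, [(v67, 4,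
  1), (v68, 2, 10)], [(v66, 2, 10), (v69, 4, 1)]), (1000, [], [])]) (.node 0 239 (.node 5
  (-309) (.far 13) (.leaf 595731400 [(v13, 2, 846283226), (v84, 5, 625224000), (v39, 4,
  122321873), (v58, 2, 496574124), (v6, 0, 429201000)] [(619, [(v27, 5, 28000), (v86, 4, 7416),
  (v51, 2, 24720), (v81, 4, 1545), (v85, 4, 2781)], [(v91, 4, 206), (v26, 4, 309), (v56, 5,
  3000), (v69, 4, 412)]), (0, [(v6, 0, 8652000), (v88, 2, 738510), (v84, 5, 1673000), (v39, 4,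
  2486317), (v61, 4, 147702)], [(v78, 4, 3399), (v82, 4, 309), (v84, 5, 56000), (v27, 5,
  28000)]), (125, [(v12, 4, 206), (v84, 5, 1000), (v61, 4, 103)], [(v60, 5, 47800), (v86, 4,
  664659), (v27, 5, 430200), (v51, 2, 147702), (v6, 0, 370800)]), (-236, [(v27, 5, 1000), (v30,
  4, 309)], [(v88, 2, 6180), (v39, 4, 618), (v26, 4, 2884), (v61, 4, 515), (v84, 5, 7000)]),
  (1000, [], [])])) (.far 3))) (.leaf 3360 [(v13, 2, 1616), (v82, 4, 15), (v60, 2, 2896), (v79,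
  1, 2250), (v66, 2, 1944)] [(550, [(v82, 4, 2), (v51, 2, 260), (v49, 4, 13), (v89, 4, 9)],
  [(v91, 4, 2), (v26, 4, 3), (v56, 0, 90), (v69, 4, 4)]), (0, [], [(v80, 2, 10), (v82, 4, 3),
  (v60, 2, 140)]), (125, [(v91, 4, 54), (v56, 0, 450), (v62, 4, 231), (v65, 1, 2750)], [(v8, 4,
  32), (v85, 4, 103), (v51, 2, 280), (v88, 2, 50), (v40, 0, 390)]), (0, [(v67, 4, 1), (v68, 2,
  10)], [(v88, 2, 90), (v69, 4, 14), (v91, 4, 1)]), (1000, [], [])])) (.node 3 (-67) (.node 6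
  44 (.leaf 3108600 [(v43, 6, 3925000), (v88, 2, 206140), (v80, 2, 782595), (v16, 4, 67353),
  (v71, 2, 1817805)] [(100, [], [(v91, 4, 32), (v83, 2, 95), (v48, 2, 220), (v16, 4, 63)]),
  (-470, [(v81, 4, 1), (v83, 2, 30), (v61, 4, 14)], [(v80, 2, 10), (v82, 4, 3), (v60, 2,
  140)]), (0, [(v91, 4, 143), (v43, 6, 2250), (v66, 2, 495), (v69, 4, 121), (v71, 2, 1485)],
  []), (1000, [], [(v88, 2, 90), (v69, 4, 14), (v91, 4, 1)]), (1000, [], [])]) (.far 11)) (.far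
  3))) (.node 2 60 (.node 1 (-250) (.node 3 100 (.leaf 5400 [(v63, 2, 18265), (v90, 2, 835),
  (v31, 3, 19440), (v38, 2, 875), (v67, 4, 297)] [(470, [(v82, 4, 6), (v51, 2, 1300), (v49, 4,
  39), (v89, 4, 27)], [(v48, 2, 10), (v40, 2, 140), (v66, 3, 21), (v50, 4, 3)]), (-95, [(v81,
  4, 1), (v83, 2, 50), (v61, 4, 14)], [(v62, 4, 3), (v60, 2, 50)]), (80, [(v12, 4, 3), (v5, 3,
  30), (v40, 2, 50), (v59, 4, 3)], [(v58, 3, 1809), (v72, 3, 351), (v90, 2, 650), (v14, 4,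
  243), (v68, 2, 100)]), (0, [(v90, 2, 50), (v68, 2, 700), (v89, 4, 27)], []), (1000, [], [])])
  (.node 0 571 (.node 5 (-330) (.far 0) (.leaf 2110416000 [(v6, 0, 1324323000), (v11, 5,
  2044579700), (v57, 4, 478819473), (v86, 4, 2425753605), (v84, 5, 4293120600)] [(785, [(v27,
  5, 399700), (v86, 4, 244959), (v11, 5, 171300), (v57, 4, 75372), (v6, 0, 99000)], [(v91, 4,
  1142), (v26, 4, 1713), (v56, 0, 9000), (v69, 4, 2284)]), (-95, [(v39, 4, 25124), (v84, 5,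
  57100), (v20, 0, 33000), (v57, 4, 18843), (v6, 0, 66000)], [(v18, 0, 88000), (v82, 4, 18843),
  (v27, 5, 228400), (v78, 4, 6281)]), (80, [(v12, 4, 22), (v84, 5, 100), (v61, 4, 11)], [(v27,
  5, 57100), (v11, 5, 57100), (v86, 4, 131901), (v6, 0, 33000)]), (-304, [(v27, 5, 100), (v30,
  4, 33)], [(v86, 4, 282645), (v57, 4, 75372), (v42, 0, 33000), (v20, 0, 792000), (v84, 5,
  1084900)]), (1000, [], [])])) (.node 0 142 (.node 6 428 (.leaf 478611000 [(v53, 6, 58149000),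
  (v51, 6, 166024625), (v27, 6, 344421000), (v69, 4, 226914793), (v48, 0, 497469750)] [(356,
  [(v17, 6, 4000), (v67, 4, 214), (v57, 4, 321), (v53, 6, 250)], [(v91, 4, 142), (v26, 4, 213),
  (v56, 0, 4500), (v69, 4, 284)]), (-95, [(v6, 0, 642000), (v51, 6, 35500), (v26, 4, 174731),
  (v69, 4, 212716), (v53, 6, 479250)], [(v24, 4, 107), (v27, 6, 250)]), (80, [(v91, 4, 7597),
  (v56, 0, 240750), (v27, 6, 292875), (v69, 4, 83567)], [(v0, 4, 1498), (v86, 4, 1605), (v90,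
  6, 1250), (v36, 4, 214)]), (-186, [(v27, 6, 8750), (v90, 6, 1250), (v54, 4, 2247), (v89, 4,
  321)], [(v48, 0, 481500), (v17, 6, 1917000), (v69, 4, 311477), (v91, 4, 7597)]), (1000, [],
  [])]) (.far 3)) (.far 3)))) (.leaf 4200 [(v82, 4, 12), (v65, 1, 1236), (v68, 2, 1025), (v9,
  1, 2064), (v66, 2, 7725)] [(470, [(v64, 4, 3), (v25, 1, 32), (v70, 4, 1)], [(v71, 1, 1),
  (v24, 4, 2), (v65, 1, 3)]), (0, [], [(v62, 4, 3), (v60, 2, 50)]), (80, [(v24, 4, 1), (v62, 4,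
  1), (v65, 1, 4)], [(v64, 4, 1), (v25, 1, 4), (v63, 1, 4)]), (0, [(v78, 4, 1), (v65, 1, 4),
  (v1, 1, 40)], [(v0, 4, 10), (v64, 4, 1), (v79, 1, 4)]), (1000, [], [])])) (.node 3 (-250)
  (.node 3 (-150) (.node 3 (-100) (.node 3 (-60) (.node 2 (-470) (.node 2 (-250) (.node 2
  (-150) (.node 6 (-250) (.node 2 (-100) (.node 0 (-30) (.node 1 (-470) (.node 5 250 (.node 3
  155 (.leaf 111600000 [(v90, 5, 25756908), (v54, 4, 24163570), (v63, 5, 129843252), (v5, 3,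
  231624000), (v46, 4, 1349585)] [(276, [(v51, 5, 1240), (v82, 4, 28), (v49, 4, 146), (v67, 4,
  189)], [(v76, 3, 119600), (v52, 4, 7967), (v46, 4, 8990), (v83, 5, 58032), (v28, 4, 35619)]),
  (-205, [(v79, 5, 11), (v83, 5, 1), (v85, 4, 14), (v26, 4, 7)], [(v90, 5, 2108), (v54, 4,
  2170), (v46, 4, 1085), (v5, 3, 24000), (v63, 5, 2852)]), (0, [(v76, 3, 600), (v5, 3, 48800),
  (v54, 4, 341), (v83, 5, 1364), (v28, 4, 12958)], [(v46, 4, 19), (v86, 4, 178), (v58, 5, 196),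
  (v10, 4, 44), (v90, 5, 172)]), (577, [(v5, 3, 1200), (v53, 5, 124), (v90, 5, 248), (v54, 4,
  279)], [(v55, 5, 12), (v26, 4, 4), (v52, 4, 1)]), (1000, [], [])]) (.far 13)) (.node 0 30
  (.node 5 (-375) (.node 6 (-150) (.node 6 (-100) (.node 3 (-30) (.node 3 30 (.node 1 (-250)
  (.node 6 150 (.node 5 (-100) (.node 0 526 (.far 6) (.node 3 75 (.leaf 9000 [(v66, 3, 14950),
  (v53, 6, 9050), (v16, 4, 4803), (v27, 6, 8950), (v68, 6, 2005)] [(526, [], [(v66, 3, 10),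
  (v68, 6, 5), (v16, 4, 6)]), (-95, [(v26, 4, 12), (v55, 3, 30), (v53, 6, 55), (v16, 4, 18)],
  [(v27, 6, 20), (v24, 4, 3)]), (-100, [(v27, 6, 5), (v31, 3, 10), (v16, 4, 3)], []), (537,
  [(v68, 6, 20), (v67, 4, 3)], [(v55, 3, 40), (v26, 4, 4), (v52, 4, 1)]), (1000, [], [])])
  (.far 13))) (.leaf 324000 [(v51, 6, 27320), (v84, 5, 828000), (v56, 5, 153270), (v53, 6,
  278080), (v26, 4, 49221)] [(366, [(v86, 4, 144), (v81, 4, 3), (v53, 6, 640), (v17, 6, 120),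
  (v70, 4, 54)], [(v91, 4, 2), (v26, 4, 3), (v56, 5, 90), (v69, 4, 4)]), (-95, [(v26, 4, 27),
  (v87, 5, 180), (v53, 6, 100), (v69, 4, 6)], [(v24, 4, 3), (v27, 6, 20)]), (0, [(v91, 4, 7),
  (v84, 5, 60), (v87, 5, 600), (v69, 4, 11), (v43, 6, 20)], [(v78, 4, 18), (v86, 4, 171), (v17,
  6, 3080), (v10, 4, 282), (v90, 6, 500)]), (413, [(v27, 6, 80), (v53, 6, 20), (v54, 4, 9)],
  [(v84, 5, 30), (v17, 6, 40), (v26, 4, 4), (v69, 4, 1)]), (1000, [], [])])) (.node 0 78 (.node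
  0 809 (.far 6) (.node 3 204 (.leaf 1591200 [(v29, 3, 5290350), (v55, 3, 459875), (v67, 4,
  554268), (v40, 0, 15772600), (v56, 0, 141950)] [(443, [(v29, 3, 250), (v30, 4, 17), (v67, 4,
  17)], [(v66, 3, 13975), (v2, 3, 3900), (v56, 0, 51000), (v16, 4, 17238), (v50, 4, 1326)]),
  (-95, [(v45, 3, 260000), (v81, 4, 58565), (v85, 4, 105417), (v26, 4, 46852), (v6, 0,
  3672000)], [(v38, 0, 15300), (v89, 4, 153), (v29, 3, 2275), (v82, 4, 255), (v35, 3, 325)]),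
  (-20, [(v12, 4, 1989), (v5, 3, 3250), (v56, 0, 4250), (v31, 3, 11375), (v59, 4, 1989)],
  [(v29, 3, 250), (v30, 4, 51)]), (602, [(v35, 3, 325), (v29, 3, 5525), (v30, 4, 221), (v38, 0,
  6800), (v67, 4, 884)], [(v55, 3, 250), (v26, 4, 68), (v52, 4, 17)]), (1000, [], [])]) (.far
  13))) (.far 11))) (.node 0 474 (.leaf 34128000 [(v18, 0, 10880000), (v64, 4, 556713), (v25,
  1, 2115936), (v70, 4, 1516563), (v9, 1, 41469312)] [(0, [(v64, 4, 3), (v25, 1, 32), (v70, 4,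
  1)], []), (-360, [(v20, 0, 7500), (v6, 0, 5000), (v57, 4, 711), (v79, 1, 948), (v39, 4,
  2528)], [(v48, 0, 24000), (v38, 0, 104000), (v33, 1, 22752), (v70, 4, 59013), (v64, 4,
  6399)]), (-20, [(v91, 4, 1422), (v56, 0, 2500), (v62, 4, 6083), (v65, 1, 17380)], [(v64, 4,
  79), (v25, 1, 1106), (v48, 0, 500), (v86, 4, 2607), (v33, 1, 474)]), (394, [(v44, 0, 375),
  (v82, 4, 158), (v33, 1, 1264), (v38, 0, 1625), (v89, 4, 158)], [(v2, 0, 39000), (v57, 4,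
  8058), (v86, 4, 4029), (v79, 1, 16116), (v42, 0, 500)]), (1000, [], [])]) (.leaf 843000
  [(v82, 4, 9798), (v1, 1, 1389360), (v48, 0, 2037900), (v25, 1, 58047), (v29, 3, 2930825)]
  [(252, [(v64, 4, 3), (v25, 1, 32), (v70, 4, 1)], [(v65, 1, 3), (v24, 4, 2), (v71, 1, 1)]),
  (-360, [(v61, 4, 1), (v63, 1, 4)], [(v48, 0, 22400), (v78, 4, 123), (v25, 1, 4368), (v82, 4,
  393), (v29, 3, 5600)]), (-20, [(v24, 4, 1), (v62, 4, 1), (v65, 1, 4)], [(v64, 4, 1), (v25, 1,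
  4), (v63, 1, 4)]), (461, [(v65, 1, 4), (v78, 4, 1), (v1, 1, 40)], [(v0, 4, 10), (v64, 4, 1),
  (v79, 1, 4)]), (1000, [], [])]))) (.node 0 458 (.node 1 (-203) (.far 0) (.node 5 (-108) (.far
  0) (.leaf 13388256000 [(v25, 1, 2852424000), (v70, 4, 602889903), (v18, 0, 4342576000), (v64,
  4, 3033695133), (v9, 1, 46356928000)] [(658, [(v25, 1, 8000), (v64, 4, 609), (v70, 4, 203)],
  [(v91, 4, 458), (v26, 4, 687), (v56, 0, 4500), (v69, 4, 916)]), (-337, [(v20, 0, 4567500),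
  (v39, 4, 1487584), (v79, 1, 687000), (v57, 4, 418383), (v6, 0, 3045000)], [(v38, 0, 288000),
  (v27, 5, 458000), (v70, 4, 105111), (v64, 4, 18549)]), (-20, [(v91, 4, 836766), (v56, 0,
  1522500), (v62, 4, 3579499), (v65, 1, 12595000)], [(v38, 0, 304500), (v64, 4, 46487), (v25,
  1, 1145000), (v86, 4, 697305)]), (0, [(v82, 4, 92974), (v38, 0, 989625), (v33, 1, 916000),
  (v44, 0, 228375), (v89, 4, 92974)], [(v2, 0, 7917000), (v57, 4, 1580558), (v86, 4, 790279),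
  (v79, 1, 3893000), (v42, 0, 101500)]), (1000, [], [])]))) (.node 0 59 (.node 1 (-59) (.far
  13) (.node 6 469 (.leaf 2490390000 [(v79, 1, 1947489000), (v48, 0, 1836537000), (v52, 4,
  242287276), (v17, 6, 2397996000), (v91, 4, 4605245)] [(258, [(v27, 6, 140000), (v64, 4,
  9849), (v51, 6, 86000), (v49, 4, 42210), (v30, 4, 39396)], [(v91, 4, 118), (v26, 4, 177),
  (v56, 0, 9000), (v69, 4, 236)]), (-265, [(v26, 4, 221368), (v71, 1, 1407000), (v53, 6,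
  472000), (v69, 4, 193697)], [(v24, 4, 469), (v27, 6, 1000)]), (0, [(v91, 4, 55342), (v27, 6,
  177000), (v65, 1, 891100), (v79, 1, 46900), (v16, 4, 27671)], [(v86, 4, 1407), (v17, 6,
  1000), (v0, 4, 1407), (v10, 4, 469), (v90, 6, 1000)]), (0, [(v27, 6, 35000), (v90, 6, 5000),
  (v54, 4, 9849), (v89, 4, 1407)], [(v26, 4, 1023827), (v91, 4, 166026), (v17, 6, 6372000),
  (v52, 4, 525749), (v79, 1, 2814000)]), (1000, [], [])]) (.far 3))) (.far 3)))) (.node 0 104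
  (.node 1 (-119) (.far 13) (.node 6 183 (.leaf 20579265000 [(v48, 0, 6168335250), (v52, 4,
  1707520052), (v79, 1, 7590108000), (v17, 6, 61148031000), (v91, 4, 130916065)] [(451, [(v27,
  6, 51000), (v70, 4, 3843), (v51, 6, 56000), (v81, 4, 4026), (v30, 4, 9333)], [(v65, 1,
  13000), (v52, 4, 4641), (v56, 0, 14875), (v71, 1, 13000)]), (-295, [(v83, 1, 45750), (v79, 1,
  137250), (v26, 4, 283101), (v33, 6, 238000)], [(v24, 4, 183), (v27, 6, 1000)]), (-20, [(v91,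
  4, 1284843), (v27, 6, 7616000), (v65, 1, 11309400), (v79, 1, 219600), (v43, 6, 357000)],
  [(v86, 4, 549), (v17, 6, 1000), (v0, 4, 549), (v10, 4, 183), (v90, 6, 1000)]), (-45, [(v27,
  6, 4000), (v53, 6, 1000), (v54, 4, 549)], [(v26, 4, 7259), (v52, 4, 7259), (v23, 6, 9520),
  (v17, 6, 85680), (v79, 1, 14640)]), (1000, [], [])]) (.far 13))) (.far 3))) (.node 0 239
  (.node 0 941 (.far 6) (.node 3 91 (.leaf 948256400 [(v87, 6, 1609022090), (v38, 0,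
  429156000), (v35, 3, 875218000), (v89, 4, 37448671), (v65, 6, 1456250900)] [(590, [(v65, 6,
  2479386), (v35, 3, 3059200), (v67, 4, 413231), (v6, 0, 145600)], [(v91, 4, 478), (v26, 4,
  717), (v56, 0, 9000), (v69, 4, 956)]), (-205, [(v55, 6, 4780), (v61, 4, 1434), (v47, 6,
  2390), (v39, 4, 5975), (v6, 0, 24000)], [(v35, 3, 956000), (v38, 0, 3367000), (v84, 6,
  1522430), (v82, 4, 170646), (v89, 4, 71939)]), (-20, [(v91, 4, 41), (v84, 6, 1960), (v12, 4,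
  70), (v79, 6, 140), (v89, 4, 23)], [(v35, 3, 2868), (v6, 0, 1001), (v4, 0, 1729)]), (545,
  [(v35, 3, 3059200), (v87, 6, 4001816), (v65, 6, 1435434), (v38, 0, 2839200), (v67, 4,
  891709)], [(v55, 6, 11950), (v26, 4, 1195), (v2, 0, 2000), (v69, 4, 478)]), (1000, [], [])])
  (.far 13))) (.far 11))) (.node 0 271 (.node 3 112 (.leaf 1240638000 [(v35, 3, 984441375),
  (v87, 6, 1343851060), (v38, 0, 507297000), (v89, 4, 55160424), (v65, 6, 1320393300)] [(627,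
  [(v65, 6, 796740), (v35, 3, 1084000), (v67, 4, 168833), (v4, 0, 56000)], [(v91, 4, 542),
  (v26, 4, 813), (v56, 0, 9000), (v69, 4, 1084)]), (-205, [(v61, 4, 4878), (v6, 0, 72000),
  (v39, 4, 20325), (v55, 6, 10840), (v47, 6, 5420)], [(v35, 3, 2642250), (v38, 0, 10101000),
  (v84, 6, 3452540), (v82, 4, 580482), (v89, 4, 244713)]), (-20, [(v91, 4, 123), (v84, 6,
  3920), (v12, 4, 210), (v79, 6, 280), (v89, 4, 69)], [(v35, 3, 813), (v6, 0, 308), (v4, 0,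
  532)]), (556, [(v35, 3, 650400), (v87, 6, 698096), (v65, 6, 250404), (v38, 0, 655200), (v67,
  4, 233331)], [(v26, 4, 4), (v55, 6, 20), (v52, 4, 1)]), (1000, [], [])]) (.far 13)) (.far
  11))) (.node 0 68 (.leaf 5712000 [(v86, 4, 3944085), (v11, 5, 6757432), (v6, 0, 20060250),
  (v57, 4, 531777), (v84, 5, 3497104)] [(534, [(v27, 5, 952), (v86, 4, 663), (v11, 5, 408),
  (v57, 4, 204), (v6, 0, 2250)], [(v91, 4, 2), (v26, 4, 3), (v56, 5, 24), (v69, 4, 4)]), (-205,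
  [(v61, 4, 357), (v84, 5, 1496), (v36, 4, 34), (v57, 4, 918), (v6, 0, 16500)], [(v78, 4, 33),
  (v82, 4, 3), (v84, 5, 448), (v27, 5, 224)]), (-20, [(v12, 4, 2), (v84, 5, 8), (v61, 4, 1)],
  [(v11, 5, 136), (v6, 0, 750), (v86, 4, 357), (v27, 5, 136)]), (336, [(v30, 4, 3), (v27, 5,
  8)], [(v6, 0, 2500), (v86, 4, 1037), (v26, 4, 272), (v39, 4, 153), (v84, 5, 2040)]), (1000,
  [], [])]) (.far 7))) (.node 3 69 (.node 6 225 (.leaf 1366200 [(v31, 3, 3531225), (v16, 4,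
  1582515), (v68, 6, 1304790), (v53, 6, 738691), (v88, 3, 1288350)] [(30, [], [(v66, 3, 375),
  (v68, 6, 115), (v16, 4, 207)]), (-205, [(v26, 4, 414), (v55, 3, 1125), (v53, 6, 1265), (v16,
  4, 621)], [(v27, 6, 40), (v24, 4, 9)]), (-100, [(v27, 6, 230), (v31, 3, 750), (v16, 4, 207)],
  []), (534, [(v68, 6, 40), (v67, 4, 9)], [(v55, 3, 1000), (v26, 4, 92), (v52, 4, 23)]), (1000,
  [], [])]) (.far 11)) (.far 3)))) (.node 0 60 (.leaf 23462400 [(v9, 1, 13132800), (v48, 0,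
  52188800), (v64, 4, 2978907), (v70, 4, 3410649), (v25, 1, 15698400)] [(530, [(v70, 4, 47),
  (v64, 4, 141), (v25, 1, 800)], [(v24, 4, 94), (v71, 1, 25), (v65, 1, 75)]), (-735, [(v61, 4,
  47), (v63, 1, 100)], [(v48, 0, 526400), (v78, 4, 5499), (v82, 4, 4089), (v70, 4, 47376),
  (v25, 1, 109200)]), (-20, [(v24, 4, 47), (v62, 4, 47), (v65, 1, 100)], [(v64, 4, 47), (v25,
  1, 100), (v63, 1, 100)]), (470, [(v65, 1, 100), (v78, 4, 47), (v1, 1, 1000)], [(v64, 4, 47),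
  (v0, 4, 470), (v79, 1, 100)]), (1000, [], [])]) (.node 5 49 (.leaf 564000 [(v13, 5, 4230000),
  (v62, 4, 14899), (v24, 4, 149084), (v78, 4, 32289), (v65, 1, 494400)] [(15, [(v70, 4, 47),
  (v64, 4, 141), (v25, 1, 800)], [(v24, 4, 94), (v71, 1, 25), (v65, 1, 75)]), (-470, [], [(v78,
  4, 27636), (v65, 1, 205800), (v58, 5, 705000), (v62, 4, 80605), (v13, 5, 940000)]), (-100,
  [(v62, 4, 47), (v24, 4, 47), (v65, 1, 100)], []), (470, [(v78, 4, 47), (v65, 1, 100), (v1, 1,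
  1000)], [(v0, 4, 470), (v64, 4, 47), (v79, 1, 100)]), (1000, [], [])]) (.far 7)))) (.node 1
  (-470) (.node 3 149 (.node 6 149 (.leaf 178800 [(v66, 3, 153525), (v68, 6, 140475), (v31, 3,
  360000), (v90, 6, 106000), (v12, 4, 107131)] [(0, [], [(v66, 3, 375), (v68, 6, 125), (v12, 4,
  149)]), (-205, [(v26, 4, 298), (v55, 3, 375), (v53, 6, 1375), (v16, 4, 447)], [(v24, 4, 149),
  (v27, 6, 1000)]), (-100, [(v16, 4, 149), (v31, 3, 250), (v27, 6, 250)], []), (574, [(v68, 6,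
  1000), (v67, 4, 149)], [(v26, 4, 596), (v55, 3, 3000), (v52, 4, 149)]), (1000, [], [])])
  (.far 3)) (.far 3)) (.node 5 189 (.leaf 88830000 [(v8, 4, 55909602), (v65, 1, 80740800),
  (v58, 5, 19223000), (v62, 4, 8216775), (v13, 5, 153502000)] [(-45, [(v70, 4, 180621), (v64,
  4, 233919), (v13, 5, 1504000), (v57, 4, 47376), (v33, 1, 453600)], [(v24, 4, 94), (v71, 1,
  25), (v65, 1, 75)]), (-470, [], [(v29, 5, 940000), (v65, 1, 453600), (v82, 4, 19035), (v78,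
  4, 67257)]), (-100, [(v65, 1, 100), (v62, 4, 47), (v24, 4, 47)], []), (486, [(v78, 4, 47),
  (v1, 1, 1000), (v65, 1, 100)], [(v88, 5, 200), (v26, 4, 441), (v55, 5, 1400), (v91, 4, 63)]),
  (1000, [], [])]) (.far 7)))) (.node 0 60 (.leaf 4770 [(v38, 0, 13250), (v15, 2, 4239), (v37,
  2, 987), (v9, 2, 4086)] [(0, [(v86, 4, 1), (v37, 2, 2), (v1, 2, 4)], []), (-470, [(v9, 2,
  10), (v10, 4, 1)], [(v84, 2, 30), (v11, 2, 40), (v78, 4, 1)]), (0, [], [(v40, 0, 25), (v37,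
  2, 3), (v1, 2, 6), (v86, 4, 3)]), (470, [(v46, 4, 3), (v37, 2, 330), (v14, 4, 26)], [(v15, 2,
  260), (v36, 4, 33), (v47, 2, 30)]), (1000, [], [])]) (.node 1 (-250) (.node 3 69 (.node 6 69
  (.leaf 5796000 [(v14, 4, 397992), (v87, 2, 25491360), (v88, 3, 4856000), (v68, 6, 3314500),
  (v65, 2, 2951475)] [(0, [(v43, 2, 4830), (v57, 4, 1518), (v51, 6, 13000), (v85, 4, 1725),
  (v86, 4, 138)], [(v87, 2, 50), (v0, 4, 2), (v36, 4, 1)]), (-95, [(v10, 4, 4), (v79, 2, 10),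
  (v85, 4, 3)], [(v11, 2, 40), (v78, 4, 1), (v84, 2, 30)]), (-125, [(v91, 4, 49), (v11, 2,
  540), (v87, 2, 1720), (v79, 2, 100), (v89, 4, 11)], [(v78, 4, 2691), (v86, 4, 49473), (v66,
  3, 77000), (v10, 4, 15594), (v90, 6, 201000)]), (534, [(v43, 2, 4140), (v68, 6, 8000), (v54,
  4, 207), (v30, 4, 2139)], [(v88, 3, 13000), (v45, 2, 2760), (v26, 4, 8073), (v5, 2, 28290)]),
  (1000, [], [])]) (.far 3)) (.far 3)) (.leaf 2240 [(v64, 4, 35), (v15, 2, 492), (v63, 1,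
  2520), (v11, 2, 312), (v84, 2, 4550)] [(0, [(v70, 4, 1), (v64, 4, 3), (v25, 1, 32)], [(v65,
  1, 3), (v24, 4, 2), (v71, 1, 1)]), (0, [], [(v84, 2, 30), (v11, 2, 40), (v78, 4, 1)]), (-125,
  [(v91, 4, 42), (v84, 2, 1050), (v73, 1, 60), (v65, 1, 380), (v62, 4, 133)], [(v63, 1, 4),
  (v25, 1, 4), (v64, 4, 1)]), (470, [(v46, 4, 14), (v37, 2, 240), (v25, 1, 156), (v54, 4, 13)],
  [(v36, 4, 147), (v79, 1, 25), (v0, 4, 14), (v83, 1, 15), (v5, 2, 1050)]), (1000, [], [])]))))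
  (.node 0 573 (.leaf 453816000 [(v47, 6, 133944480), (v57, 4, 7393419), (v55, 6, 364086492),
  (v15, 6, 127563552), (v44, 0, 73568000)] [(573, [(v31, 6, 41256), (v44, 0, 16000), (v55, 6,
  25212), (v57, 4, 12033), (v47, 6, 27504)], []), (-470, [(v55, 6, 1528), (v61, 4, 1146), (v47,
  6, 764), (v39, 4, 4775), (v6, 0, 8000)], [(v31, 6, 13752), (v38, 0, 3625), (v15, 6, 13752),
  (v70, 4, 3438), (v44, 0, 3375)]), (-45, [(v91, 4, 3247), (v70, 4, 12415), (v34, 0, 35000),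
  (v15, 6, 192528), (v41, 4, 31897)], [(v44, 0, 119000), (v57, 4, 97983), (v79, 6, 87096),
  (v88, 6, 254412), (v85, 4, 8595)]), (-60, [(v15, 6, 13752), (v47, 6, 22920), (v44, 0, 11000),
  (v41, 4, 18909)], []), (1000, [], [])]) (.node 0 146 (.node 3 385 (.leaf 173250 [(v56, 6,
  40634), (v89, 4, 2937), (v87, 6, 420816), (v35, 3, 20450), (v40, 6, 128898)] [(0, [(v65, 6,
  924), (v35, 3, 600), (v67, 4, 308), (v30, 4, 77)], []), (-470, [(v83, 6, 1), (v79, 6, 11),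
  (v26, 4, 7), (v85, 4, 14)], [(v35, 3, 3400), (v56, 6, 6028), (v84, 6, 45540), (v78, 4, 1353),
  (v89, 4, 1782)]), (-45, [(v5, 3, 1800), (v84, 6, 1232), (v12, 4, 1463), (v87, 6, 3080), (v89,
  4, 77)], [(v40, 6, 2464), (v35, 3, 1800), (v71, 6, 2464), (v14, 4, 616), (v30, 4, 1309)]),
  (692, [(v35, 3, 200), (v87, 6, 924), (v40, 6, 924), (v56, 6, 308), (v67, 4, 231)], [(v88, 3,
  120), (v26, 4, 539), (v55, 3, 840), (v91, 4, 77)]), (1000, [], [])]) (.far 3)) (.far 11))))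
  (.node 0 60 (.leaf 2385 [(v38, 0, 6625), (v15, 2, 1413), (v37, 2, 329), (v9, 2, 1362)] [(0,
  [(v86, 4, 3), (v37, 2, 4), (v1, 2, 8)], []), (-470, [(v9, 2, 20), (v10, 4, 3)], [(v84, 2,
  60), (v11, 2, 80), (v78, 4, 3)]), (0, [], [(v40, 0, 25), (v37, 2, 2), (v1, 2, 4), (v86, 4,
  3)]), (470, [(v46, 4, 3), (v37, 2, 220), (v14, 4, 26)], [(v15, 2, 520), (v36, 4, 99), (v47,
  2, 60)]), (1000, [], [])]) (.node 1 (-150) (.node 3 36 (.node 6 36 (.leaf 72000 [(v87, 2,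
  147360), (v66, 3, 149375), (v10, 4, 8316), (v68, 6, 150625), (v65, 2, 38880)] [(0, [(v86, 4,
  3), (v37, 2, 4), (v1, 2, 8)], [(v87, 2, 100), (v0, 4, 6), (v36, 4, 3)]), (-45, [(v10, 4, 12),
  (v79, 2, 20), (v85, 4, 9)], [(v84, 2, 60), (v11, 2, 80), (v78, 4, 3)]), (-200, [(v91, 4,
  147), (v11, 2, 1080), (v87, 2, 3440), (v79, 2, 200), (v89, 4, 33)], [(v0, 4, 630), (v86, 4,
  693), (v90, 6, 6000), (v88, 3, 250), (v10, 4, 126)]), (518, [(v46, 4, 3), (v14, 4, 26), (v37,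
  2, 220)], [(v36, 4, 99), (v15, 2, 520), (v47, 2, 60)]), (1000, [], [])]) (.far 3)) (.far 3))
  (.leaf 120 [(v64, 4, 3), (v15, 2, 24), (v63, 1, 240), (v11, 2, 24), (v84, 2, 140)] [(0,
  [(v86, 4, 102), (v37, 2, 160), (v57, 4, 3), (v25, 1, 140)], [(v87, 2, 120), (v24, 4, 3),
  (v71, 1, 40), (v52, 4, 9)]), (0, [], [(v84, 2, 60), (v11, 2, 80), (v78, 4, 3)]), (-200,
  [(v91, 4, 147), (v11, 2, 1080), (v87, 2, 3440), (v79, 1, 200), (v89, 4, 33)], [(v25, 1, 20),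
  (v63, 1, 20), (v64, 4, 3)]), (470, [(v46, 4, 3), (v37, 2, 220), (v14, 4, 26)], [(v36, 4, 99),
  (v47, 2, 60), (v15, 2, 520)]), (1000, [], [])])))) (.node 0 60 (.leaf 11925 [(v38, 0, 33125),
  (v15, 2, 4239), (v37, 2, 987), (v9, 2, 4086)] [(0, [(v1, 2, 8), (v37, 2, 4), (v86, 4, 5)],
  []), (-470, [(v9, 2, 4), (v10, 4, 1)], [(v84, 2, 12), (v11, 2, 16), (v78, 4, 1)]), (0, [],
  [(v40, 0, 125), (v37, 2, 6), (v1, 2, 12), (v86, 4, 15)]), (470, [(v46, 4, 3), (v37, 2, 132),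
  (v14, 4, 26)], [(v15, 2, 104), (v36, 4, 33), (v47, 2, 12)]), (1000, [], [])]) (.node 3 30
  (.leaf 92400 [(v46, 4, 705), (v37, 2, 45804), (v66, 3, 523600), (v14, 4, 15042), (v87, 2,
  181104)] [(0, [(v1, 2, 8), (v37, 2, 4), (v86, 4, 5)], [(v87, 2, 20), (v0, 4, 2), (v36, 4,
  1)]), (-470, [(v9, 2, 4), (v10, 4, 1)], [(v84, 2, 12), (v11, 2, 16), (v78, 4, 1)]), (-360,
  [(v91, 4, 49), (v11, 2, 216), (v87, 2, 688), (v79, 2, 40), (v89, 4, 11)], [(v64, 4, 9), (v37,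
  2, 288), (v58, 3, 5600), (v85, 4, 141), (v14, 4, 78)]), (515, [(v46, 4, 3), (v37, 2, 132),
  (v14, 4, 26)], [(v36, 4, 33), (v47, 2, 12), (v15, 2, 104)]), (1000, [], [])]) (.node 6 576
  (.leaf 64800 [(v87, 2, 137376), (v15, 2, 36576), (v68, 6, 17625), (v17, 6, 29750), (v26, 4,
  27360)] [(0, [(v27, 6, 8750), (v64, 4, 756), (v51, 6, 5375), (v49, 4, 3240), (v30, 4, 3024)],
  [(v87, 2, 1728), (v52, 4, 72), (v68, 6, 125), (v26, 4, 216)]), (-470, [(v53, 6, 8750), (v65,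
  2, 12096), (v79, 2, 5184), (v26, 4, 34920), (v33, 6, 5625)], [(v24, 4, 72), (v27, 6, 125)]),
  (-360, [(v91, 4, 13320), (v43, 6, 5875), (v87, 2, 183744), (v79, 2, 10080), (v16, 4, 11664)],
  [(v0, 4, 1008), (v86, 4, 1080), (v90, 6, 625), (v36, 4, 144)]), (30, [], [(v17, 6, 125),
  (v26, 4, 144), (v15, 2, 288)]), (1000, [], [])]) (.far 3))))) (.node 0 60 (.leaf 22419 [(v38,
  0, 62275), (v15, 2, 4239), (v37, 2, 987), (v9, 2, 4086)] [(0, [(v1, 2, 40), (v37, 2, 20),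
  (v86, 4, 47)], []), (-470, [(v10, 4, 188), (v79, 2, 100), (v85, 4, 141)], [(v84, 2, 300),
  (v11, 2, 400), (v78, 4, 47)]), (0, [], [(v40, 0, 1175), (v37, 2, 30), (v1, 2, 60), (v86, 4,
  141)]), (470, [(v46, 4, 141), (v37, 2, 3300), (v14, 4, 1222)], [(v15, 2, 2600), (v36, 4,
  1551), (v47, 2, 300)]), (1000, [], [])]) (.node 3 60 (.leaf 17371200 [(v46, 4, 141), (v37, 2,
  6679200), (v14, 4, 4394688), (v87, 2, 12912900), (v66, 3, 62789650)] [(0, [(v37, 2, 20),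
  (v86, 4, 47), (v1, 2, 40)], [(v87, 2, 500), (v0, 4, 94), (v36, 4, 47)]), (-470, [(v10, 4,
  188), (v79, 2, 100), (v85, 4, 141)], [(v84, 2, 300), (v11, 2, 400), (v78, 4, 47)]), (-735,
  [(v91, 4, 2303), (v11, 2, 5400), (v87, 2, 17200), (v79, 2, 1000), (v89, 4, 517)], [(v37, 2,
  900), (v86, 4, 423), (v58, 3, 16450), (v14, 4, 564), (v85, 4, 564)]), (530, [(v46, 4, 141),
  (v37, 2, 3300), (v14, 4, 1222)], [(v36, 4, 1551), (v47, 2, 300), (v15, 2, 2600)]), (1000, [],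
  [])]) (.node 6 193 (.leaf 76196400 [(v87, 2, 133227900), (v68, 6, 23453000), (v36, 4,
  22233021), (v17, 6, 248677000), (v15, 2, 10055300)] [(0, [(v86, 4, 47), (v37, 2, 20), (v1, 2,
  40)], [(v87, 2, 500), (v0, 4, 94), (v36, 4, 47)]), (-470, [(v9, 2, 100), (v10, 4, 47)],
  [(v84, 2, 300), (v11, 2, 400), (v78, 4, 47)]), (-735, [(v91, 4, 2303), (v11, 2, 5400), (v87,
  2, 17200), (v79, 2, 1000), (v89, 4, 517)], [(v86, 4, 579), (v17, 6, 1000), (v0, 4, 579),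
  (v10, 4, 193), (v90, 6, 1000)]), (60, [], [(v36, 4, 1551), (v47, 2, 300), (v15, 2, 2600)]),
  (1000, [], [])]) (.far 3))))) (.node 1 (-250) (.node 5 (-258) (.far 13) (.leaf 180600 [(v39,
  4, 7224), (v90, 3, 367650), (v36, 4, 38442), (v86, 4, 17415), (v84, 5, 350000)] [(470, [(v86,
  4, 1032), (v27, 5, 3500), (v57, 4, 645), (v90, 3, 4300)], [(v91, 4, 86), (v26, 4, 129), (v56,
  5, 1500), (v69, 4, 172)]), (-250, [(v63, 3, 50), (v61, 4, 3)], []), (-470, [(v91, 4, 7611),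
  (v11, 5, 7000), (v87, 5, 301000), (v39, 4, 9030), (v89, 4, 129)], [(v38, 5, 500), (v86, 4,
  1161), (v90, 3, 1720), (v63, 3, 430)]), (0, [], [(v84, 5, 2250), (v63, 3, 1075), (v26, 4,
  387), (v25, 3, 2150), (v86, 4, 774)]), (1000, [], [])])) (.leaf 14400 [(v79, 1, 5760), (v68,
  3, 24950), (v60, 3, 47600), (v64, 4, 3249), (v24, 4, 2232)] [(470, [(v25, 1, 32), (v64, 4,
  3), (v70, 4, 1)], [(v65, 1, 3), (v24, 4, 2), (v71, 1, 1)]), (-625, [(v83, 1, 1), (v79, 1,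
  11), (v26, 4, 7), (v85, 4, 14)], [(v62, 4, 3), (v60, 3, 50)]), (-470, [(v24, 4, 1), (v65, 1,
  4), (v62, 4, 1)], [(v63, 1, 4), (v64, 4, 1), (v25, 1, 4)]), (0, [], [(v64, 4, 1), (v0, 4,
  10), (v79, 1, 4)]), (1000, [], [])]))) (.node 0 250 (.leaf 1440 [(v25, 3, 6448), (v53, 3,
  1594), (v2, 0, 2160), (v57, 4, 135), (v37, 3, 1976)] [(625, [(v64, 4, 12), (v27, 3, 490),
  (v57, 4, 51), (v90, 3, 220)], [(v91, 4, 2), (v26, 4, 3), (v56, 0, 36), (v69, 4, 4)]), (-470,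
  [(v20, 0, 12), (v61, 4, 1), (v25, 3, 10)], [(v64, 4, 9), (v38, 0, 256), (v27, 3, 240), (v70,
  4, 51)]), (-470, [(v91, 4, 7), (v70, 4, 2), (v87, 3, 350), (v1, 3, 220)], [(v40, 0, 4), (v38,
  0, 4), (v90, 3, 10), (v86, 4, 11)]), (-125, [(v27, 3, 150), (v90, 3, 20), (v54, 4, 9), (v67,
  4, 2)], [(v2, 0, 12), (v39, 4, 1), (v61, 4, 1), (v25, 3, 10), (v1, 3, 60)]), (1000, [], [])])
  (.node 6 99 (.leaf 396000 [(v17, 6, 4000000), (v52, 4, 38808), (v71, 3, 349470), (v69, 4,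
  36927), (v87, 3, 1631520)] [(250, [], [(v91, 4, 2), (v26, 4, 3), (v56, 3, 90), (v69, 4, 4)]),
  (-470, [(v63, 3, 10), (v61, 4, 1)], [(v62, 4, 1), (v60, 3, 10)]), (-470, [(v91, 4, 9), (v70,
  4, 1), (v87, 3, 1000), (v39, 4, 11)], [(v86, 4, 27), (v68, 3, 10), (v40, 3, 90), (v90, 3,
  20)]), (0, [], [(v91, 4, 11), (v17, 6, 2000), (v40, 3, 990), (v69, 4, 55)]), (1000, [], [])])
  (.far 3)))) (.node 0 150 (.leaf 2160 [(v25, 3, 8078), (v53, 3, 1394), (v2, 0, 5760), (v41, 4,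
  837), (v37, 3, 1336)] [(575, [(v27, 3, 980), (v64, 4, 36), (v90, 3, 440), (v57, 4, 153)],
  [(v91, 4, 2), (v26, 4, 3), (v56, 0, 60), (v69, 4, 4)]), (-470, [(v63, 3, 20), (v61, 4, 3)],
  [(v24, 4, 3), (v27, 3, 20)]), (-470, [(v91, 4, 21), (v70, 4, 6), (v87, 3, 700), (v1, 3,
  440)], [(v36, 4, 3), (v64, 4, 3), (v90, 3, 20)]), (-200, [(v27, 3, 80), (v53, 3, 20), (v54,
  4, 9)], [(v2, 0, 60), (v39, 4, 3), (v61, 4, 3), (v25, 3, 20), (v1, 3, 120)]), (1000, [],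
  [])]) (.node 6 283 (.leaf 10188000 [(v87, 3, 29794240), (v52, 4, 1179544), (v71, 3, 6673140),
  (v17, 6, 36000000), (v69, 4, 938711)] [(150, [], [(v91, 4, 2), (v26, 4, 3), (v56, 3, 60),
  (v69, 4, 4)]), (-470, [(v26, 4, 4528), (v65, 3, 5660), (v53, 6, 8000), (v69, 4, 849)], [(v24,
  4, 283), (v27, 6, 1000)]), (-470, [(v91, 4, 283), (v27, 6, 3000), (v87, 3, 16980), (v69, 4,
  566)], [(v86, 4, 849), (v17, 6, 1000), (v0, 4, 849), (v10, 4, 283), (v90, 6, 1000)]), (0, [],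
  [(v91, 4, 283), (v17, 6, 18000), (v40, 3, 16980), (v69, 4, 1415)]), (1000, [], [])]) (.far
  3)))) (.node 0 150 (.leaf 1800 [(v25, 3, 6003), (v27, 3, 1521), (v1, 3, 372), (v2, 0, 6500),
  (v39, 4, 360)] [(575, [(v64, 4, 12), (v27, 3, 196), (v57, 4, 51), (v90, 3, 88)], [(v91, 4,
  2), (v26, 4, 3), (v56, 3, 36), (v69, 4, 4)]), (-470, [(v63, 3, 4), (v61, 4, 1)], [(v24, 4,
  1), (v27, 3, 4)]), (-470, [(v91, 4, 7), (v70, 4, 2), (v87, 3, 140), (v1, 3, 88)], [(v36, 4,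
  1), (v64, 4, 1), (v90, 3, 4)]), (-625, [(v27, 3, 16), (v53, 3, 4), (v54, 4, 3)], [(v2, 0,
  20), (v39, 4, 1), (v61, 4, 1), (v25, 3, 4), (v1, 3, 24)]), (1000, [], [])]) (.node 6 383
  (.leaf 72387000 [(v65, 3, 32888976), (v91, 4, 4650386), (v26, 4, 12871481), (v56, 3,
  25406688), (v17, 6, 189000000)] [(150, [], [(v91, 4, 2), (v26, 4, 3), (v56, 3, 36), (v69, 4,
  4)]), (-494, [(v26, 4, 6128), (v65, 3, 4596), (v53, 6, 8000), (v69, 4, 1149)], [(v24, 4,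
  383), (v27, 6, 1000)]), (-537, [(v91, 4, 383), (v27, 6, 3000), (v87, 3, 13788), (v69, 4,
  766)], [(v8, 4, 5362), (v17, 6, 14000), (v90, 6, 11000), (v36, 4, 3830), (v86, 4, 12639)]),
  (0, [], [(v17, 6, 72000), (v69, 4, 383), (v26, 4, 9192), (v65, 3, 13788), (v91, 4, 3064)]),
  (1000, [], [])]) (.far 3))))))))) (.node 6 206 (.node 3 100 (.leaf 9733500 [(v68, 6,
  4469500), (v16, 4, 11180547), (v88, 3, 11114730), (v27, 6, 14931000), (v90, 6, 2288000)] [(0,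
  [], [(v66, 3, 515), (v68, 6, 250), (v16, 4, 412)]), (-450, [(v26, 4, 824), (v16, 4, 1236),
  (v55, 3, 1545), (v53, 6, 2750)], [(v27, 6, 500), (v24, 4, 103)]), (-52, [(v27, 6, 250), (v31,
  3, 515), (v16, 4, 206)], [(v90, 6, 5500), (v17, 6, 7000), (v36, 4, 1030), (v8, 4, 1442),
  (v86, 4, 3399)]), (550, [(v68, 6, 500), (v67, 4, 103)], [(v52, 4, 1), (v26, 4, 4), (v55, 3,
  30)]), (1000, [], [])]) (.node 1 (-450) (.node 2 (-244) (.far 3) (.node 6 496 (.leaf 22692000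
  [(v87, 2, 76725000), (v15, 2, 3363500), (v68, 6, 3888750), (v17, 6, 32901875), (v26, 4,
  11262796)] [(-80, [(v27, 6, 8750), (v64, 4, 651), (v51, 6, 5375), (v49, 4, 2790), (v30, 4,
  2604)], [(v87, 2, 93000), (v52, 4, 3782), (v68, 6, 7625), (v26, 4, 11346)]), (-175, [(v53, 6,
  106750), (v65, 2, 130200), (v79, 2, 55800), (v26, 4, 366854), (v33, 6, 68625)], [(v24, 4,
  62), (v27, 6, 125)]), (-622, [(v91, 4, 699670), (v43, 6, 358375), (v87, 2, 9889000), (v79, 2,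
  542500), (v16, 4, 612684)], [(v86, 4, 186), (v17, 6, 125), (v0, 4, 186), (v10, 4, 62), (v90,
  6, 125)]), (100, [], [(v17, 6, 7625), (v26, 4, 7564), (v15, 2, 15500)]), (1000, [], [])])
  (.far 3))) (.node 6 313 (.leaf 236628000 [(v52, 4, 68516952), (v79, 1, 17168363), (v27, 6,
  118309800), (v17, 6, 634334400), (v83, 1, 20623257)] [(0, [], [(v65, 1, 1565), (v52, 4,
  1878), (v68, 6, 1500), (v71, 1, 1565)]), (-725, [(v83, 1, 5), (v79, 1, 55), (v26, 4, 63),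
  (v85, 4, 126)], [(v24, 4, 313), (v27, 6, 1000)]), (-485, [(v91, 4, 11268), (v65, 1, 31300),
  (v62, 4, 2817), (v27, 6, 45000)], [(v64, 4, 2817), (v17, 6, 27000), (v63, 1, 10642), (v86, 4,
  8451), (v77, 1, 1878)]), (-244, [(v27, 6, 23250), (v33, 1, 1565), (v68, 6, 3000), (v54, 4,
  5634)], [(v52, 4, 131460), (v23, 6, 252000), (v26, 4, 72303), (v83, 1, 14085), (v79, 1,
  67295)]), (1000, [], [])]) (.far 3)))) (.node 2 2 (.far 11) (.node 3 207 (.leaf 6900 [(v28,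
  4, 3243), (v37, 0, 10350), (v25, 0, 3335), (v66, 3, 12000), (v1, 0, 19780)] [(-80, [(v29, 3,
  8250), (v35, 3, 2750), (v53, 0, 12650), (v81, 4, 69), (v67, 4, 1656)], [(v37, 0, 690), (v2,
  3, 40), (v28, 4, 207), (v66, 3, 860), (v12, 4, 207)]), (-450, [(v26, 4, 3), (v25, 0, 50)],
  [(v66, 3, 1525), (v2, 3, 350), (v76, 3, 1875), (v46, 4, 828), (v27, 0, 44850)]), (-499, [(v5,
  3, 600), (v37, 0, 2070), (v12, 4, 621), (v66, 3, 200), (v31, 3, 800)], [(v53, 0, 1150), (v72,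
  3, 200), (v14, 4, 138), (v58, 3, 1800), (v30, 4, 345)]), (0, [(v27, 0, 50), (v30, 4, 3)],
  []), (1000, [], [])]) (.far 3)))))))) (.node 2 (-100) (.node 3 66 (.node 6 177 (.leaf
  11682000 [(v66, 3, 15030250), (v47, 0, 10620000), (v15, 0, 1757610), (v68, 6, 16395500),
  (v16, 4, 11855283)] [(0, [], [(v66, 3, 7375), (v68, 6, 2750), (v16, 4, 3894)]), (0, [(v26, 4,
  2301), (v16, 4, 1062), (v9, 0, 10620), (v53, 6, 5000)], [(v24, 4, 177), (v27, 6, 1000)]),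
  (363, [(v27, 6, 15400), (v50, 4, 1947), (v15, 0, 14868), (v47, 0, 5310)], [(v86, 4, 531),
  (v17, 6, 1000), (v0, 4, 531), (v10, 4, 177), (v90, 6, 1000)]), (533, [(v68, 6, 1000), (v67,
  4, 177)], [(v55, 0, 30), (v26, 4, 4), (v52, 4, 1)]), (1000, [], [])]) (.far 11)) (.far 3))
  (.node 3 (-534) (.leaf 400 [(v10, 4, 155), (v17, 0, 64), (v13, 0, 1518), (v87, 2, 4000)] [(0,
  [], [(v87, 2, 50), (v0, 4, 2), (v36, 4, 1)]), (0, [(v10, 4, 4), (v79, 2, 10), (v85, 4, 3)],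
  [(v8, 4, 44), (v84, 2, 230), (v82, 4, 1), (v27, 0, 280)]), (-550, [(v91, 4, 49), (v11, 0,
  540), (v87, 2, 1720), (v79, 2, 100), (v89, 4, 11)], [(v36, 4, 3), (v13, 0, 280), (v51, 0,
  10), (v14, 4, 18)]), (233, [(v27, 0, 10), (v30, 4, 1)], [(v26, 4, 1), (v31, 0, 10)]), (1000,
  [], [])]) (.far 3)))) (.node 2 (-250) (.node 3 33 (.node 6 122 (.leaf 1372500 [(v26, 4,
  59109), (v68, 6, 3750000), (v55, 0, 374540), (v16, 4, 1365912), (v47, 0, 763720)] [(0, [],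
  [(v55, 0, 8540), (v26, 4, 3843), (v68, 6, 31500), (v47, 0, 2440), (v50, 4, 2196)]), (0,
  [(v10, 4, 3), (v9, 0, 20)], [(v27, 0, 20), (v24, 4, 3)]), (244, [(v11, 0, 40), (v16, 4, 21),
  (v15, 0, 20)], [(v14, 4, 12), (v10, 4, 3), (v13, 0, 140)]), (1000, [], [(v55, 0, 20), (v26,
  4, 4), (v52, 4, 1)]), (1000, [], [])]) (.far 11)) (.far 3)) (.leaf 189000 [(v14, 4, 2214),
  (v87, 2, 869400), (v13, 0, 251720), (v51, 0, 40580), (v36, 4, 46611)] [(-150, [], [(v87, 2,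
  20), (v0, 4, 2), (v36, 4, 1)]), (0, [(v10, 4, 4), (v79, 2, 4), (v85, 4, 3)], [(v78, 4, 1),
  (v11, 2, 16), (v84, 2, 12)]), (-250, [], [(v14, 4, 12), (v46, 4, 9), (v51, 0, 220), (v10, 4,
  66)]), (266, [(v46, 4, 3), (v37, 2, 132), (v14, 4, 26)], [(v36, 4, 33), (v47, 2, 12), (v15,
  2, 104)]), (1000, [], [])]))) (.node 2 (-250) (.node 3 166 (.node 6 277 (.leaf 34486500
  [(v66, 3, 20913500), (v68, 6, 28967000), (v47, 0, 7173192), (v16, 4, 31428697), (v9, 0,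
  14760222)] [(0, [], [(v66, 3, 34625), (v68, 6, 20750), (v16, 4, 45982)]), (0, [(v26, 4, 1),
  (v25, 0, 4)], [(v27, 6, 1000), (v24, 4, 277)]), (156, [(v11, 0, 47), (v50, 4, 7), (v15, 0,
  20), (v9, 0, 21)], [(v8, 4, 3878), (v17, 6, 14000), (v90, 6, 11000), (v36, 4, 2770), (v86, 4,
  9141)]), (583, [(v27, 6, 1000), (v30, 4, 277)], [(v52, 4, 1), (v26, 4, 4), (v55, 0, 12)]),
  (1000, [], [])]) (.far 11)) (.far 3)) (.leaf 4000 [(v10, 4, 1625), (v17, 0, 4656), (v13, 0,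
  4172), (v87, 2, 16000)] [(0, [], [(v87, 2, 20), (v0, 4, 2), (v36, 4, 1)]), (0, [(v26, 4, 1),
  (v25, 0, 4)], [(v8, 4, 44), (v84, 2, 92), (v82, 4, 1), (v27, 0, 112)]), (-625, [(v91, 4, 49),
  (v11, 0, 216), (v87, 2, 688), (v79, 2, 40), (v89, 4, 11)], [(v14, 4, 4), (v46, 4, 3), (v51,
  0, 44), (v10, 4, 22)]), (333, [(v53, 0, 4), (v27, 0, 16), (v54, 4, 3)], [(v55, 0, 12), (v26,
  4, 4), (v52, 4, 1)]), (1000, [], [])]))

theorem t4_ok : treeOK dat t4 (rootIv dat 4) = true := by decide +kernel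

def t5 : Tree dat :=
.node 1 250 (.node 0 (-365) (.node 2 236 (.node 3 9 (.leaf 25488000 [(v82, 1, 273642), (v44, 2,
  2848000), (v84, 1, 3776826), (v75, 5, 1975615), (v9, 5, 1329978)] [(-47, [(v27, 1, 7616),
  (v72, 5, 293), (v77, 5, 267), (v49, 5, 696), (v78, 1, 16)], [(v76, 1, 708), (v38, 2, 6750),
  (v75, 5, 1475), (v44, 2, 1250)]), (250, [(v79, 5, 1), (v77, 5, 1), (v61, 5, 2), (v26, 5, 6)],
  []), (236, [(v81, 5, 1062), (v44, 2, 28000), (v76, 1, 24780), (v79, 5, 4602), (v75, 5,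
  2065)], []), (0, [(v44, 2, 1500), (v21, 1, 6372), (v19, 5, 59), (v9, 5, 1003)], []), (-146,
  [(v84, 1, 126), (v80, 1, 18), (v20, 5, 84), (v55, 5, 14), (v79, 5, 5)], [(v82, 1, 86848),
  (v44, 2, 112000), (v81, 5, 9971), (v85, 5, 83839), (v33, 5, 4956)])]) (.far 0)) (.far 4))
  (.leaf 365000 [(v26, 5, 335800), (v43, 0, 169800), (v18, 1, 187172), (v20, 5, 12921), (v10,
  5, 6278)] [(-683, [(v43, 0, 8000), (v72, 5, 3285), (v77, 5, 1679), (v19, 5, 6424), (v85, 5,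
  2336)], [(v43, 0, 1400), (v32, 1, 292), (v18, 1, 3504), (v37, 0, 4200), (v26, 5, 5621)]),
  (250, [(v75, 5, 61), (v83, 5, 12), (v33, 5, 10), (v85, 5, 53)], []), (237, [(v32, 1, 292),
  (v37, 0, 3000), (v26, 5, 1679), (v43, 0, 200)], [(v74, 1, 180), (v72, 5, 26), (v58, 5, 24),
  (v10, 5, 120), (v77, 5, 25)]), (267, [(v8, 1, 1460), (v43, 0, 7200), (v10, 5, 11169), (v18,
  1, 4672)], [(v88, 5, 6), (v55, 5, 67), (v26, 5, 145), (v76, 1, 40)]), (-173, [(v15, 0, 8400),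
  (v80, 1, 1460), (v20, 5, 7154), (v83, 5, 146), (v79, 5, 365)], [(v24, 1, 56064), (v85, 5,
  16863), (v43, 0, 9600), (v26, 5, 2044), (v81, 5, 803)])])) (.node 1 150 (.node 2 182 (.leaf
  2457000 [(v75, 5, 176540), (v79, 5, 108693), (v76, 1, 833560), (v44, 2, 1170500), (v81, 5,
  4797)] [(-319, [(v27, 1, 56420), (v35, 5, 7371), (v53, 5, 10920), (v19, 5, 27300), (v74, 2,
  93000)], [(v76, 1, 364), (v38, 2, 2700), (v75, 5, 455), (v44, 2, 500)]), (150, [(v79, 5, 1),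
  (v77, 5, 1), (v61, 5, 2), (v26, 5, 6)], []), (591, [(v84, 1, 103740), (v44, 2, 20000), (v75,
  5, 8554), (v79, 5, 1001), (v62, 1, 32760)], [(v8, 2, 1000), (v13, 5, 1092), (v63, 5, 273),
  (v85, 5, 1365), (v74, 2, 1000)]), (217, [(v21, 1, 16380), (v19, 5, 91), (v44, 2, 3000), (v9,
  5, 1547)], [(v88, 5, 204), (v26, 5, 975), (v45, 5, 252), (v32, 1, 820)]), (-87, [(v75, 5,
  1911), (v88, 5, 637), (v20, 5, 2548), (v47, 5, 2912), (v48, 2, 16500)], [(v44, 2, 6000),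
  (v46, 2, 17000), (v19, 5, 5733), (v82, 1, 4550), (v74, 2, 6250)])]) (.node 0 (-319) (.far 4)
  (.node 3 42 (.leaf 258390000 [(v18, 1, 162256160), (v43, 0, 83376000), (v10, 5, 168432),
  (v26, 5, 165192555), (v24, 1, 35632300)] [(-660, [(v43, 0, 183000), (v72, 5, 61567), (v77, 5,
  44660), (v53, 5, 3828), (v49, 5, 90915)], [(v37, 0, 63000), (v43, 0, 21000), (v18, 1, 76560),
  (v32, 1, 6380), (v26, 5, 73689)]), (150, [(v75, 5, 61), (v83, 5, 12), (v33, 5, 10), (v85, 5,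
  53)], []), (0, [(v43, 0, 3000), (v32, 1, 6380), (v26, 5, 22011), (v37, 0, 45000)], [(v8, 1,
  40), (v13, 5, 36), (v63, 5, 9), (v85, 5, 45), (v74, 1, 40)]), (0, [(v8, 1, 31900), (v43, 0,
  12000), (v20, 5, 15312), (v10, 5, 8613)], []), (-224, [(v15, 0, 126000), (v80, 1, 31900),
  (v20, 5, 93786), (v83, 5, 1914), (v79, 5, 4785)], [(v85, 5, 194271), (v78, 1, 408320), (v81,
  5, 29667), (v26, 5, 348348), (v43, 0, 336000)])]) (.far 0)))) (.node 1 100 (.node 2 250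
  (.leaf 1512000 [(v75, 5, 98413), (v79, 5, 67734), (v76, 1, 810390), (v44, 2, 511616), (v81,
  5, 2682)] [(-296, [(v68, 2, 220), (v35, 5, 9), (v33, 5, 7), (v49, 5, 40)], [(v76, 1, 30),
  (v38, 2, 108), (v75, 5, 25), (v44, 2, 20)]), (100, [(v79, 5, 1), (v77, 5, 1), (v61, 5, 2),
  (v26, 5, 6)], []), (625, [(v76, 1, 1050), (v81, 5, 18), (v44, 2, 448), (v79, 5, 78), (v75, 5,
  35)], [(v44, 2, 2884), (v72, 5, 1289), (v80, 2, 192), (v10, 5, 6798), (v90, 5, 1993)]), (192,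
  [(v21, 1, 270), (v19, 5, 1), (v44, 2, 24), (v9, 5, 17)], [(v55, 5, 17), (v42, 5, 3), (v2, 2,
  52), (v75, 5, 17)]), (-58, [(v55, 5, 30), (v26, 5, 30), (v75, 5, 1), (v79, 5, 19), (v18, 2,
  216)], [(v82, 1, 30), (v78, 2, 20), (v44, 2, 40), (v19, 5, 27), (v21, 1, 30)])]) (.node 0
  (-608) (.node 0 (-216) (.far 4) (.node 3 291 (.leaf 32010000 [(v43, 0, 8972500), (v63, 5,
  2032635), (v91, 3, 1348000), (v77, 5, 2224113), (v52, 3, 24640000)] [(-412, [(v33, 5, 11640),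
  (v72, 5, 6305), (v77, 5, 4171), (v70, 3, 78000)], [(v52, 3, 162000), (v83, 5, 10476), (v37,
  0, 36375), (v91, 3, 9000), (v43, 0, 24250)]), (125, [(v77, 5, 4), (v61, 5, 119), (v83, 5,
  15), (v9, 5, 10)], [(v24, 3, 72), (v27, 0, 97)]), (15, [(v91, 3, 13104000), (v79, 5, 447849),
  (v43, 0, 6790000), (v83, 5, 694035), (v25, 5, 219996)], [(v0, 3, 266000), (v72, 5, 3395),
  (v88, 5, 3686), (v85, 5, 49567), (v90, 5, 20564)]), (645, [(v24, 3, 232500), (v43, 0,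
  303125), (v77, 5, 60237), (v63, 5, 27063), (v52, 3, 427500)], [(v88, 5, 19788), (v26, 5,
  94575), (v45, 5, 24444), (v32, 3, 41000)]), (-292, [(v88, 5, 54417), (v11, 0, 945750), (v83,
  5, 118437), (v47, 5, 64311), (v76, 3, 338000)], [(v24, 3, 78000), (v85, 5, 81189), (v91, 3,
  10800), (v62, 3, 82200), (v43, 0, 48500)])]) (.far 0))) (.leaf 3420000 [(v18, 1, 3639640),
  (v26, 5, 2749680), (v20, 5, 1300512), (v43, 0, 1008375), (v8, 1, 4370000)] [(-804, [(v43, 0,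
  1250), (v72, 5, 855), (v77, 5, 437), (v19, 5, 1672), (v85, 5, 608)], [(v43, 0, 125), (v32, 1,
  760), (v37, 0, 375), (v26, 5, 380), (v20, 5, 912)]), (125, [(v75, 5, 61), (v83, 5, 12), (v33,
  5, 10), (v85, 5, 53)], [(v8, 1, 608), (v21, 0, 100), (v32, 1, 152), (v27, 0, 175)]), (0,
  [(v43, 0, 125), (v32, 1, 760), (v37, 0, 1875), (v26, 5, 1748)], [(v17, 0, 250), (v27, 0,
  125), (v10, 5, 152)]), (449, [(v8, 1, 950), (v43, 0, 125), (v20, 5, 304), (v10, 5, 171)],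
  [(v88, 5, 76), (v55, 5, 152), (v26, 5, 1140), (v5, 0, 625)]), (-183, [(v11, 0, 250), (v20, 5,
  532), (v15, 0, 125)], [(v8, 1, 950), (v43, 0, 125), (v10, 5, 741), (v21, 0, 1375)])])))
  (.node 0 250 (.node 1 (-450) (.node 2 204 (.leaf 51408000 [(v74, 2, 42392000), (v45, 5,
  1576563), (v19, 5, 2558160), (v39, 5, 3888189), (v50, 0, 1875168)] [(581, [(v53, 5, 357),
  (v35, 5, 153), (v49, 5, 918), (v68, 2, 5750)], [(v52, 0, 116), (v20, 5, 33), (v56, 0, 84),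
  (v79, 5, 3), (v22, 0, 20)]), (-175, [(v79, 5, 1), (v77, 5, 1), (v61, 5, 2), (v26, 5, 6)],
  [(v52, 0, 3264), (v50, 0, 1632), (v45, 5, 561), (v39, 5, 1071), (v74, 2, 16000)]), (204,
  [(v50, 0, 12240), (v49, 5, 459), (v74, 2, 56000), (v45, 5, 4641), (v12, 0, 42840)], []), (0,
  [(v19, 5, 68), (v74, 2, 1000), (v9, 5, 85), (v12, 0, 612)], [(v55, 5, 3), (v26, 5, 4), (v52,
  0, 4)]), (0, [(v26, 5, 13), (v88, 5, 88), (v83, 5, 164), (v45, 5, 702), (v56, 0, 6396)],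
  [(v78, 2, 10750), (v74, 2, 34000), (v49, 5, 6885), (v12, 0, 6732), (v28, 0, 27540)])]) (.far
  4)) (.leaf 2205000 [(v13, 5, 73962), (v67, 1, 2116100), (v32, 0, 345204), (v29, 5, 1653813),
  (v18, 0, 871236)] [(250, [(v67, 1, 434), (v23, 5, 378), (v3, 1, 496), (v57, 5, 63), (v33, 5,
  9)], []), (-725, [(v85, 5, 53), (v83, 5, 12), (v75, 5, 61), (v33, 5, 10)], [(v32, 0, 72),
  (v18, 0, 240), (v29, 5, 285), (v67, 1, 400), (v35, 5, 9)]), (299, [(v55, 5, 21), (v18, 0,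
  24), (v32, 0, 9), (v59, 1, 35), (v67, 1, 35)], [(v4, 1, 18200), (v72, 5, 3276), (v88, 5,
  519), (v83, 5, 813), (v51, 5, 429)]), (0, [(v67, 1, 920), (v29, 5, 54), (v18, 0, 216), (v48,
  0, 216), (v13, 5, 477)], [(v55, 5, 3), (v26, 5, 4), (v52, 0, 4)]), (0, [(v73, 1, 450), (v88,
  5, 651), (v65, 1, 1450), (v55, 5, 252), (v48, 0, 420)], [(v8, 0, 192), (v35, 5, 13), (v86, 5,
  18), (v57, 5, 5), (v67, 1, 120)])])) (.node 0 150 (.node 2 239 (.leaf 240912000 [(v50, 0,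
  158504800), (v74, 2, 306656000), (v9, 5, 2156736), (v39, 5, 24725745), (v45, 5, 17942447)]
  [(150, [(v53, 5, 1673), (v35, 5, 717), (v49, 5, 4302), (v68, 2, 23000)], []), (-450, [(v79,
  5, 1), (v77, 5, 1), (v61, 5, 2), (v26, 5, 6)], [(v52, 0, 76480), (v50, 0, 38240), (v45, 5,
  7887), (v39, 5, 15057), (v74, 2, 192000)]), (619, [(v49, 5, 2151), (v74, 2, 112000), (v45, 5,
  8365), (v9, 5, 10038), (v50, 0, 95600)], [(v8, 2, 2000), (v13, 5, 2868), (v63, 5, 717), (v85,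
  5, 3585), (v74, 2, 2000)]), (0, [(v19, 5, 956), (v74, 2, 12000), (v9, 5, 1195), (v12, 0,
  14340)], [(v2, 2, 2000), (v26, 5, 717), (v55, 5, 717), (v75, 5, 478)]), (0, [(v45, 5, 80304),
  (v88, 5, 26290), (v48, 2, 891000), (v42, 5, 28441), (v79, 5, 78870)], [(v28, 0, 43020), (v78,
  2, 8600), (v49, 5, 6453), (v12, 0, 10516), (v74, 2, 27200)])]) (.node 1 (-309) (.far 4)
  (.leaf 4326000 [(v29, 5, 1223331), (v24, 0, 756020), (v18, 0, 2080600), (v67, 1, 3114000),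
  (v23, 5, 190344)] [(150, [(v67, 1, 7000), (v35, 5, 2163), (v3, 1, 8000), (v33, 5, 309)], []),
  (-309, [], [(v32, 0, 12360), (v18, 0, 41200), (v29, 5, 29355), (v67, 1, 60000), (v35, 5,
  927)]), (0, [(v32, 0, 6180), (v18, 0, 16480), (v59, 1, 84000), (v55, 5, 8652), (v29, 5,
  6489)], [(v90, 5, 1133), (v23, 5, 2678), (v86, 5, 8343), (v58, 5, 6798), (v4, 1, 20000)]),
  (240, [(v67, 1, 46000), (v29, 5, 1854), (v18, 0, 12360), (v48, 0, 12360), (v13, 5, 16377)],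
  [(v32, 0, 20), (v26, 5, 27), (v55, 5, 20), (v75, 5, 4)]), (0, [(v48, 0, 72100), (v88, 5,
  67053), (v73, 1, 67500), (v55, 5, 25956), (v65, 1, 217500)], [(v8, 0, 32960), (v35, 5, 1339),
  (v86, 5, 1854), (v57, 5, 515), (v67, 1, 18000)])]))) (.node 3 (-250) (.node 3 (-150) (.node 2
  (-250) (.node 2 (-150) (.node 0 100 (.node 1 (-250) (.node 2 244 (.leaf 5124000 [(v49, 5,
  83631), (v45, 5, 121695), (v50, 0, 1518900), (v74, 2, 1897000), (v9, 5, 57218)] [(100, [(v53,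
  5, 427), (v35, 5, 183), (v49, 5, 1098), (v68, 2, 5750)], []), (-75, [(v79, 5, 1), (v77, 5,
  1), (v61, 5, 2), (v26, 5, 6)], [(v78, 2, 2000), (v50, 0, 14640), (v45, 5, 1647), (v39, 5,
  1281), (v74, 2, 26000)]), (244, [(v50, 0, 73200), (v74, 2, 88000), (v22, 0, 58560), (v45, 5,
  7625), (v39, 5, 6039)], []), (0, [(v19, 5, 244), (v74, 2, 3000), (v9, 5, 305), (v12, 0,
  5490)], [(v2, 2, 500), (v26, 5, 183), (v55, 5, 183), (v75, 5, 122)]), (0, [(v45, 5, 20496),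
  (v88, 5, 6710), (v48, 2, 222750), (v42, 5, 7259), (v79, 5, 20130)], [(v78, 2, 625), (v19, 5,
  549), (v12, 0, 3660), (v74, 2, 1375)])]) (.far 4)) (.node 2 150 (.node 1 (-625) (.leaf 5724
  [(v78, 2, 129), (v74, 2, 3586), (v32, 0, 279), (v55, 5, 1032), (v59, 1, 9531)] [(125, [(v67,
  1, 28), (v35, 5, 7), (v3, 1, 32), (v33, 5, 1)], [(v16, 1, 720), (v88, 5, 9), (v18, 2, 190),
  (v55, 5, 3), (v22, 1, 18)]), (0, [], [(v32, 0, 45), (v59, 1, 414), (v55, 5, 69), (v78, 2,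
  55), (v74, 2, 245)]), (575, [(v55, 5, 345), (v60, 2, 1150), (v32, 0, 450), (v73, 1, 12),
  (v59, 1, 2898)], [(v74, 2, 1900), (v72, 5, 51), (v90, 5, 120), (v58, 5, 684), (v85, 5,
  1440)]), (425, [(v67, 1, 3), (v68, 2, 5)], [(v75, 5, 6), (v26, 5, 9), (v55, 5, 9), (v2, 2,
  40)]), (0, [(v48, 2, 3900), (v55, 5, 2912), (v83, 5, 290), (v88, 5, 31), (v73, 1, 1820)],
  [(v86, 5, 234), (v78, 2, 640), (v57, 5, 121), (v67, 1, 2232), (v35, 5, 113)])]) (.leaf 108000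
  [(v29, 5, 5805), (v32, 0, 8550), (v55, 5, 16770), (v74, 2, 66200), (v59, 1, 74736)] [(125,
  [(v67, 1, 868), (v23, 5, 1050), (v3, 1, 992), (v57, 5, 175), (v33, 5, 25)], [(v18, 2, 950),
  (v16, 1, 1440), (v22, 1, 36), (v88, 5, 45), (v55, 5, 15)]), (0, [], [(v32, 0, 450), (v59, 1,
  864), (v55, 5, 30), (v29, 5, 495), (v74, 2, 800)]), (575, [(v32, 0, 2250), (v55, 5, 1725),
  (v74, 2, 2875), (v73, 1, 162), (v59, 1, 4968)], [(v90, 5, 685), (v72, 5, 1120), (v85, 5,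
  1190), (v88, 5, 1045), (v4, 1, 6384)]), (425, [(v67, 1, 6), (v68, 2, 25)], [(v69, 1, 8),
  (v58, 5, 15), (v16, 1, 16)]), (0, [(v58, 5, 35), (v73, 1, 6), (v65, 1, 10)], [(v78, 2, 250),
  (v35, 5, 95), (v86, 5, 135), (v57, 5, 40), (v59, 1, 1116)])])) (.node 1 (-336) (.far 4)
  (.leaf 315000 [(v29, 5, 105840), (v59, 1, 611875), (v23, 5, 25949), (v18, 0, 279930), (v13,
  5, 17815)] [(100, [(v67, 1, 875), (v35, 5, 294), (v3, 1, 1000), (v33, 5, 42)], []), (-336,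
  [], [(v32, 0, 120), (v18, 0, 600), (v29, 5, 315), (v59, 1, 1250), (v35, 5, 21)]), (0, [(v29,
  5, 483), (v32, 0, 210), (v73, 1, 100), (v59, 1, 1150)], [(v51, 5, 63), (v72, 5, 13), (v88, 5,
  44), (v4, 1, 500), (v86, 5, 271)]), (425, [(v59, 1, 2875), (v29, 5, 42), (v18, 0, 420), (v48,
  0, 420), (v13, 5, 693)], [(v55, 5, 189), (v88, 5, 1302), (v32, 0, 1050), (v69, 1, 6875)]),
  (0, [(v58, 5, 1176), (v73, 1, 375), (v65, 1, 625)], [(v24, 0, 1050), (v72, 5, 126), (v8, 0,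
  1050), (v86, 5, 105), (v59, 1, 2875)])])))) (.node 3 (-100) (.node 1 60 (.node 0 (-100)
  (.node 2 345 (.node 3 (-11) (.leaf 29808000 [(v75, 5, 2247123), (v9, 5, 1195218), (v44, 2,
  2249600), (v84, 1, 51596475), (v82, 1, 1488675)] [(0, [(v53, 5, 69), (v57, 5, 207), (v68, 2,
  400)], [(v76, 1, 138), (v38, 2, 216), (v75, 5, 69), (v44, 2, 40)]), (80, [(v79, 5, 1), (v77,
  5, 1), (v61, 5, 2), (v26, 5, 6)], [(v8, 2, 32), (v82, 1, 276), (v76, 1, 621), (v74, 2,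
  476)]), (345, [(v76, 1, 120750), (v81, 5, 1242), (v44, 2, 22400), (v79, 5, 5382), (v75, 5,
  2415)], []), (-11, [(v19, 5, 184), (v11, 1, 10350), (v44, 2, 800), (v9, 5, 437)], []), (-35,
  [(v55, 5, 1564), (v20, 5, 1518), (v48, 2, 4800), (v75, 5, 1035), (v79, 5, 529)], [(v82, 1,
  3450), (v78, 2, 1000), (v19, 5, 1863), (v21, 1, 3450), (v44, 2, 2000)])]) (.far 0)) (.far 4))
  (.node 2 425 (.leaf 168300 [(v8, 2, 17336), (v38, 2, 59070), (v44, 2, 17602), (v43, 0,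
  44472), (v75, 5, 30855)] [(-550, [(v53, 5, 119), (v49, 5, 306), (v35, 5, 51), (v68, 2, 920)],
  [(v11, 0, 255), (v48, 2, 42), (v75, 5, 51), (v8, 2, 32), (v44, 2, 22)]), (100, [], [(v8, 2,
  8), (v18, 2, 4), (v21, 0, 153)]), (0, [(v8, 2, 220), (v43, 0, 425), (v44, 2, 30), (v48, 2,
  110), (v75, 5, 187)], []), (450, [(v19, 5, 22), (v43, 0, 270), (v44, 2, 120), (v9, 5, 77)],
  [(v2, 2, 80), (v26, 5, 51), (v55, 5, 51), (v75, 5, 34)]), (-44, [(v55, 5, 1156), (v20, 5,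
  1122), (v48, 2, 2880), (v75, 5, 765), (v79, 5, 391)], [(v44, 2, 40), (v19, 5, 153), (v46, 2,
  280), (v21, 0, 2550)])]) (.node 3 250 (.leaf 495000 [(v91, 3, 39728), (v77, 5, 24072), (v43,
  0, 333750), (v63, 5, 99495), (v52, 3, 476080)] [(-550, [(v53, 5, 1320), (v72, 5, 185), (v77,
  5, 211), (v49, 5, 240), (v70, 3, 4392)], [(v52, 3, 20), (v63, 5, 8), (v37, 0, 25), (v91, 3,
  2)]), (60, [(v85, 5, 53), (v83, 5, 12), (v75, 5, 61), (v33, 5, 10)], []), (137, [(v91, 3, 4),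
  (v37, 0, 10), (v63, 5, 1), (v25, 5, 1)], [(v0, 3, 1064), (v72, 5, 17), (v90, 5, 78), (v10, 5,
  76), (v85, 5, 81)]), (625, [(v24, 3, 310), (v43, 0, 750), (v77, 5, 69), (v63, 5, 31), (v52,
  3, 570)], [(v42, 5, 51), (v55, 5, 172), (v75, 5, 29), (v91, 3, 156)]), (-131, [(v27, 0, 220),
  (v5, 3, 734), (v83, 5, 99), (v76, 3, 188), (v37, 0, 220)], [(v24, 3, 440), (v77, 5, 93),
  (v91, 3, 204), (v62, 3, 1408), (v43, 0, 150)])]) (.node 0 (-414) (.far 0) (.node 4 (-136)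
  (.far 13) (.leaf 46920000 [(v10, 5, 13475424), (v21, 0, 105876000), (v43, 0, 10081000), (v56,
  4, 61625625), (v26, 5, 31219395)] [(-707, [(v43, 0, 20000), (v72, 5, 9315), (v77, 5, 4761),
  (v19, 5, 18216), (v85, 5, 6624)], [(v21, 0, 34000), (v56, 4, 25875), (v26, 5, 10557), (v87,
  4, 51750)]), (80, [(v83, 5, 1), (v79, 5, 11), (v26, 5, 28), (v85, 5, 56)], [(v36, 5, 1173),
  (v38, 4, 8625), (v21, 0, 17000)]), (137, [(v21, 0, 17000), (v87, 4, 51750), (v26, 5, 3519)],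
  [(v58, 5, 102), (v51, 5, 17), (v77, 5, 51), (v86, 5, 765), (v60, 4, 1250)]), (75, [(v43, 0,
  1700), (v38, 4, 5175), (v21, 0, 3400), (v10, 5, 3519)], [(v88, 5, 2691), (v26, 5, 24219),
  (v45, 5, 828), (v5, 0, 20500)]), (-568, [(v87, 4, 143750), (v56, 4, 28750), (v20, 5, 79373),
  (v15, 0, 110500), (v83, 5, 4692)], [(v38, 4, 25875), (v43, 0, 8500), (v10, 5, 49266), (v21,
  0, 170000)])])))))) (.node 2 (-100) (.node 4 250 (.node 3 150 (.node 1 (-250) (.leaf 18000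
  [(v76, 3, 13340), (v54, 4, 3420), (v25, 5, 1205), (v63, 5, 8611), (v59, 4, 1920)] [(-450,
  [(v33, 5, 1120), (v72, 5, 663), (v77, 5, 345), (v49, 5, 104), (v82, 4, 2288)], [(v28, 4,
  1638), (v83, 5, 195), (v54, 4, 780), (v32, 3, 730), (v76, 3, 1580)]), (-95, [(v79, 5, 1),
  (v77, 5, 1), (v61, 5, 2), (v26, 5, 6)], [(v82, 4, 15), (v54, 4, 1820), (v76, 3, 2940), (v90,
  5, 546), (v78, 4, 305)]), (450, [(v63, 5, 6), (v76, 3, 40), (v25, 5, 15), (v28, 4, 60)],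
  [(v46, 4, 536), (v72, 5, 104), (v88, 5, 21), (v10, 5, 678), (v90, 5, 277)]), (0, [(v76, 3,
  280), (v89, 4, 108), (v90, 5, 87), (v54, 4, 336)], []), (625, [(v5, 3, 50), (v76, 3, 20),
  (v63, 5, 33)], [(v82, 4, 276), (v35, 5, 119), (v54, 4, 2604), (v86, 5, 98), (v81, 5, 61)])])
  (.leaf 126000 [(v78, 4, 16680), (v51, 5, 10476), (v73, 1, 73071), (v13, 5, 57120), (v76, 3,
  46355)] [(-415, [(v82, 4, 8380), (v72, 5, 3892), (v33, 5, 7504), (v81, 5, 655), (v46, 4,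
  8176)], [(v24, 4, 6), (v88, 5, 1), (v8, 4, 4), (v73, 1, 2), (v34, 1, 2)]), (-625, [(v85, 5,
  53), (v83, 5, 12), (v75, 5, 61), (v33, 5, 10)], [(v78, 4, 270), (v73, 1, 429), (v76, 3, 545),
  (v82, 4, 90), (v51, 5, 234)]), (450, [(v76, 3, 815), (v82, 4, 1980), (v73, 1, 6567), (v5, 3,
  20160), (v47, 5, 198)], [(v46, 4, 536), (v72, 5, 104), (v88, 5, 21), (v10, 5, 678), (v90, 5,
  277)]), (575, [(v46, 4, 520), (v82, 4, 204), (v51, 5, 377), (v73, 1, 728), (v89, 4, 372)],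
  [(v55, 5, 21), (v26, 5, 35), (v88, 5, 3), (v91, 4, 20)]), (625, [(v58, 5, 7), (v73, 1, 3),
  (v65, 1, 5)], [(v82, 4, 276), (v35, 5, 119), (v54, 4, 2604), (v86, 5, 98), (v81, 5, 61)])]))
  (.node 1 (-207) (.far 13) (.leaf 43470000 [(v82, 4, 2106225), (v29, 5, 4817925), (v73, 1,
  20188000), (v78, 4, 13455), (v58, 5, 16546131)] [(-347, [(v82, 4, 8380), (v72, 5, 3892),
  (v33, 5, 7504), (v81, 5, 655), (v46, 4, 8176)], [(v34, 1, 500), (v73, 1, 500), (v88, 5, 207),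
  (v24, 4, 1242), (v8, 4, 828)]), (0, [], [(v78, 4, 1035), (v82, 4, 621), (v73, 1, 3500), (v62,
  4, 2898), (v13, 5, 4347)]), (450, [(v29, 5, 31878), (v65, 1, 2000), (v73, 1, 53000), (v55, 5,
  4347), (v82, 4, 17388)], [(v46, 4, 536), (v72, 5, 104), (v88, 5, 21), (v10, 5, 678), (v90, 5,
  277)]), (25, [(v46, 4, 107640), (v82, 4, 42228), (v51, 5, 78039), (v73, 1, 182000), (v89, 4,
  77004)], [(v55, 5, 21), (v26, 5, 35), (v88, 5, 3), (v91, 4, 20)]), (620, [(v58, 5, 1449),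
  (v73, 1, 750), (v65, 1, 1250)], [(v82, 4, 276), (v35, 5, 119), (v54, 4, 2604), (v86, 5, 98),
  (v81, 5, 61)])]))) (.node 4 150 (.node 3 100 (.node 1 (-250) (.node 0 (-150) (.node 2 49
  (.leaf 21609000 [(v9, 5, 2618119), (v89, 4, 7311290), (v76, 3, 5172440), (v60, 2, 75440500),
  (v38, 2, 2746500)] [(-25, [(v82, 4, 16740), (v72, 5, 9828), (v33, 5, 10920), (v81, 5, 507),
  (v89, 4, 40880)], [(v50, 4, 177380), (v83, 5, 13377), (v52, 4, 205800), (v76, 3, 92610),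
  (v48, 2, 411000)]), (-95, [(v79, 5, 1), (v77, 5, 1), (v61, 5, 2), (v26, 5, 6)], [(v78, 4,
  35), (v82, 4, 315), (v76, 3, 147), (v60, 2, 7800)]), (524, [(v59, 4, 142100), (v76, 3,
  58800), (v38, 2, 108000), (v79, 5, 2401), (v9, 5, 2450)], [(v8, 4, 3800), (v72, 5, 42), (v58,
  5, 513), (v85, 5, 1035), (v90, 5, 300)]), (550, [(v51, 5, 273), (v60, 2, 19500), (v82, 4,
  70), (v89, 4, 3500)], [(v88, 5, 108), (v26, 5, 357), (v45, 5, 90), (v52, 4, 820)]), (200,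
  [(v76, 3, 89180), (v88, 5, 9604), (v80, 2, 117000), (v83, 5, 7301), (v79, 5, 10192)], [(v86,
  5, 1206), (v35, 5, 471), (v19, 5, 732), (v82, 4, 2200), (v54, 4, 18900)])]) (.far 0)) (.leaf
  2760 [(v12, 4, 2760), (v83, 5, 24), (v24, 4, 637), (v27, 0, 2597), (v11, 0, 1520)] [(0, [],
  [(v8, 4, 2010), (v83, 5, 243), (v50, 4, 1240), (v11, 0, 6210), (v52, 4, 5600)]), (-95, [(v79,
  5, 1), (v77, 5, 1), (v61, 5, 2), (v26, 5, 6)], [(v27, 0, 1), (v24, 4, 1)]), (450, [(v91, 4,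
  60), (v11, 0, 880), (v15, 0, 160), (v79, 5, 9), (v50, 4, 380)], [(v8, 4, 3800), (v72, 5, 42),
  (v58, 5, 513), (v85, 5, 1035), (v90, 5, 300)]), (550, [(v43, 0, 30), (v77, 5, 6), (v27, 0,
  445), (v54, 4, 295)], [(v88, 5, 108), (v26, 5, 357), (v45, 5, 90), (v52, 4, 820)]), (200,
  [(v52, 4, 3640), (v88, 5, 57), (v83, 5, 771), (v50, 4, 780), (v15, 0, 21840)], [(v86, 5,
  1206), (v35, 5, 471), (v19, 5, 732), (v82, 4, 2200), (v54, 4, 18900)])])) (.leaf 270000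
  [(v76, 3, 24445), (v13, 5, 101712), (v78, 4, 28200), (v73, 1, 107798), (v82, 4, 14960)]
  [(-433, [(v67, 1, 5022), (v23, 5, 2274), (v82, 4, 1240), (v57, 5, 441), (v33, 5, 807)],
  [(v34, 1, 21), (v58, 5, 6), (v88, 5, 3), (v24, 4, 55), (v8, 4, 20)]), (0, [], [(v78, 4, 225),
  (v82, 4, 205), (v76, 3, 35), (v13, 5, 546), (v73, 1, 364)]), (450, [(v29, 5, 154), (v82, 4,
  140), (v73, 1, 212), (v65, 1, 8), (v55, 5, 21)], [(v78, 4, 820), (v86, 5, 585), (v13, 5,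
  1470), (v36, 5, 423), (v77, 5, 318)]), (550, [(v78, 4, 1825), (v82, 4, 1200), (v51, 5, 1680),
  (v73, 1, 3066), (v59, 1, 7749)], [(v88, 5, 108), (v26, 5, 357), (v45, 5, 90), (v52, 4,
  820)]), (200, [(v73, 1, 3), (v58, 5, 7), (v65, 1, 5)], [(v78, 4, 2080), (v72, 5, 483), (v86,
  5, 3360), (v82, 4, 800), (v67, 1, 11844)])])) (.node 1 (-171) (.far 13) (.leaf 71820000
  [(v82, 4, 3056625), (v73, 1, 35854000), (v24, 4, 24283140), (v29, 5, 28119924), (v78, 4,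
  7576155)] [(-374, [(v82, 4, 23560), (v23, 5, 43206), (v33, 5, 15333), (v57, 5, 8379), (v67,
  1, 139500)], [(v34, 1, 500), (v73, 1, 500), (v88, 5, 171), (v24, 4, 1710), (v8, 4, 1140)]),
  (-171, [], [(v78, 4, 1425), (v73, 1, 3500), (v58, 5, 171), (v82, 4, 1425), (v13, 5, 3420)]),
  (450, [(v29, 5, 26334), (v65, 1, 2000), (v73, 1, 53000), (v55, 5, 3591), (v82, 4, 23940)],
  [(v90, 5, 300), (v72, 5, 42), (v58, 5, 513), (v8, 4, 3800), (v85, 5, 1035)]), (0, [(v46, 4,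
  368220), (v82, 4, 143640), (v51, 5, 71649), (v73, 1, 322000), (v53, 5, 74214)], [(v88, 5,
  108), (v26, 5, 357), (v45, 5, 90), (v52, 4, 820)]), (200, [(v58, 5, 1197), (v73, 1, 750),
  (v65, 1, 1250)], [(v67, 1, 329000), (v78, 4, 39520), (v86, 5, 63840), (v82, 4, 15200), (v72,
  5, 9177)])]))) (.node 0 60 (.node 2 150 (.node 1 (-100) (.node 2 361 (.node 3 (-91) (.leaf
  51984000 [(v39, 5, 7105563), (v50, 0, 59059600), (v74, 2, 27568000), (v45, 5, 2072501), (v12,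
  0, 51984000)] [(60, [(v53, 5, 361), (v57, 5, 1083), (v68, 2, 2000)], []), (-20, [(v79, 5, 1),
  (v77, 5, 1), (v61, 5, 2), (v26, 5, 6)], [(v78, 2, 8000), (v50, 0, 144400), (v45, 5, 9747),
  (v39, 5, 7581), (v74, 2, 104000)]), (680, [(v50, 0, 722000), (v74, 2, 352000), (v22, 0,
  577600), (v45, 5, 45125), (v39, 5, 35739)], [(v8, 2, 2000), (v13, 5, 4332), (v63, 5, 1083),
  (v85, 5, 5415), (v74, 2, 2000)]), (-91, [(v19, 5, 1444), (v9, 5, 1805), (v74, 2, 12000),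
  (v12, 0, 54150)], []), (-425, [(v45, 5, 121296), (v88, 5, 39710), (v48, 2, 891000), (v42, 5,
  42959), (v79, 5, 119130)], [(v78, 2, 2500), (v19, 5, 3249), (v12, 0, 36100), (v74, 2,
  5500)])]) (.far 0)) (.far 4)) (.node 1 (-550) (.node 2 575 (.leaf 2898000 [(v45, 5, 358064),
  (v74, 2, 1291640), (v12, 1, 2541270), (v59, 1, 12009105), (v78, 2, 198420)] [(80, [(v53, 5,
  7), (v49, 5, 18), (v35, 5, 3), (v68, 2, 40)], [(v18, 2, 136), (v22, 1, 414), (v75, 5, 69),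
  (v8, 2, 80)]), (-325, [(v79, 5, 1), (v77, 5, 1), (v61, 5, 2), (v26, 5, 6)], [(v78, 2, 94),
  (v22, 1, 621), (v45, 5, 115), (v59, 1, 1035), (v74, 2, 446)]), (787, [(v78, 2, 160), (v74, 2,
  580), (v73, 1, 1311), (v45, 5, 276), (v59, 1, 2484)], [(v44, 2, 28840), (v72, 5, 29647),
  (v80, 2, 1920), (v10, 5, 156354), (v90, 5, 45839)]), (425, [(v19, 5, 23), (v9, 5, 46), (v74,
  2, 180), (v59, 1, 1035)], [(v55, 5, 391), (v42, 5, 69), (v2, 2, 520), (v75, 5, 391)]), (-425,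
  [(v48, 2, 2160), (v83, 5, 207), (v75, 5, 184), (v45, 5, 782), (v79, 5, 161)], [(v74, 2, 340),
  (v19, 5, 437), (v78, 2, 260), (v59, 1, 3450)])]) (.leaf 9000 [(v45, 5, 651), (v78, 2, 1700),
  (v59, 1, 29745), (v74, 2, 12090), (v39, 5, 324)] [(60, [(v53, 5, 21), (v35, 5, 9), (v49, 5,
  54), (v68, 2, 460)], []), (-325, [(v81, 5, 1), (v9, 5, 96), (v77, 5, 9), (v26, 5, 98)],
  [(v18, 2, 18), (v59, 1, 135), (v45, 5, 6), (v78, 2, 17), (v74, 2, 73)]), (362, [(v78, 2, 80),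
  (v74, 2, 290), (v73, 1, 171), (v45, 5, 36), (v59, 1, 324)], [(v8, 2, 40), (v13, 5, 36), (v63,
  5, 9), (v85, 5, 45), (v74, 2, 40)]), (450, [(v19, 5, 2), (v9, 5, 7), (v74, 2, 100), (v67, 1,
  90)], [(v2, 2, 40), (v26, 5, 9), (v55, 5, 9), (v75, 5, 6)]), (-401, [(v80, 2, 940), (v88, 5,
  14), (v20, 5, 560), (v45, 5, 126), (v79, 5, 89)], [(v78, 2, 120), (v19, 5, 48), (v67, 1,
  225), (v74, 2, 130)])])) (.leaf 34650 [(v55, 5, 12705), (v78, 2, 11132), (v12, 1, 666), (v74,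
  2, 32109), (v59, 1, 43875)] [(80, [(v67, 1, 434), (v23, 5, 462), (v3, 1, 496), (v57, 5, 77),
  (v33, 5, 11)], [(v55, 5, 231), (v2, 2, 13200), (v18, 2, 4070), (v88, 5, 693), (v22, 1,
  5670)]), (-550, [], [(v8, 2, 220), (v59, 1, 90), (v55, 5, 33), (v74, 2, 110)]), (550, [(v78,
  2, 220), (v55, 5, 297), (v60, 2, 440), (v73, 1, 60), (v59, 1, 720)], [(v90, 5, 1012), (v72,
  5, 1540), (v10, 5, 1309), (v88, 5, 1133), (v4, 1, 9380)]), (300, [(v67, 1, 3), (v68, 2, 11)],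
  [(v69, 1, 20), (v58, 5, 33), (v16, 1, 40)]), (-344, [(v58, 5, 77), (v73, 1, 15), (v65, 1,
  25)], [(v78, 2, 550), (v35, 5, 209), (v86, 5, 297), (v57, 5, 88), (v59, 1, 2790)])]))) (.node
  1 (-292) (.far 4) (.node 6 (-98) (.far 6) (.leaf 2146200000 [(v59, 1, 4574640000), (v84, 6,
  3077962875), (v32, 6, 340435500), (v80, 6, 597751375), (v23, 5, 460202512)] [(80, [(v3, 1,
  2000), (v35, 5, 511), (v33, 5, 73), (v67, 1, 1750)], [(v22, 1, 3009825), (v88, 5, 275429),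
  (v42, 5, 50078), (v32, 6, 1642500), (v18, 6, 2923650)]), (-646, [(v85, 5, 53), (v83, 5, 12),
  (v75, 5, 61), (v33, 5, 10)], [(v59, 1, 857500), (v84, 6, 173375), (v76, 6, 237250), (v23, 5,
  100156), (v80, 6, 228125)]), (25, [(v76, 6, 565750), (v84, 6, 2847000), (v73, 1, 162925),
  (v45, 5, 42924), (v59, 1, 970200)], [(v90, 5, 6716), (v72, 5, 10220), (v10, 5, 8687), (v88,
  5, 7519), (v4, 1, 117250)]), (450, [(v23, 5, 14308), (v84, 6, 109500), (v51, 5, 14308), (v80,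
  6, 54750), (v59, 1, 385875)], [(v88, 5, 3332), (v26, 5, 15925), (v45, 5, 4116), (v32, 6,
  20500)]), (-246, [(v84, 6, 401500), (v88, 5, 157388), (v80, 6, 36500), (v73, 1, 140875),
  (v65, 1, 496125)], [(v72, 5, 39347), (v32, 6, 91250), (v28, 1, 214375), (v59, 1,
  747250)])])))) (.node 2 (-60) (.node 3 (-60) (.node 4 100 (.node 2 150 (.leaf 393120 [(v50,
  4, 40612), (v82, 4, 86090), (v38, 2, 509600), (v89, 4, 79708), (v79, 5, 1755)] [(-450, [(v53,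
  5, 189), (v35, 5, 20), (v74, 2, 720), (v57, 5, 211), (v82, 4, 120)], [(v50, 4, 345), (v48, 2,
  270), (v26, 5, 21), (v75, 5, 42), (v18, 2, 140)]), (-470, [(v79, 5, 1), (v77, 5, 1), (v61, 5,
  2), (v26, 5, 6)], [(v80, 2, 2), (v82, 4, 9), (v60, 2, 28)]), (0, [(v91, 4, 5200), (v82, 4,
  2150), (v38, 2, 7280), (v79, 5, 351), (v89, 4, 2200)], []), (470, [(v82, 4, 340), (v33, 5,
  143), (v74, 2, 10920), (v25, 5, 663), (v89, 4, 7120)], [(v2, 2, 40), (v26, 5, 9), (v55, 5,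
  9), (v75, 5, 6)]), (125, [(v55, 5, 68), (v20, 5, 66), (v48, 2, 480), (v75, 5, 45), (v79, 5,
  23)], [(v44, 2, 100), (v78, 2, 1330), (v19, 5, 567), (v89, 4, 1350), (v74, 2, 1370)])])
  (.node 0 (-100) (.node 1 (-199) (.far 0) (.leaf 96117000 [(v13, 5, 34391777), (v82, 4,
  29160465), (v73, 1, 50232000), (v78, 4, 29864925), (v51, 5, 6551279)] [(-20, [(v67, 1,
  418500), (v23, 5, 150842), (v82, 4, 123380), (v57, 5, 29253), (v33, 5, 53531)], [(v34, 1,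
  3500), (v58, 5, 796), (v88, 5, 398), (v24, 4, 10945), (v8, 4, 3980)]), (-600, [(v85, 5, 53),
  (v83, 5, 12), (v75, 5, 61), (v33, 5, 10)], [(v78, 4, 36815), (v24, 4, 27860), (v82, 4,
  38805), (v73, 1, 56000), (v13, 5, 66864)]), (45, [(v55, 5, 4179), (v29, 5, 30646), (v73, 1,
  53000), (v65, 1, 2000), (v82, 4, 41790)], [(v4, 1, 469000), (v72, 5, 27860), (v88, 5, 20497),
  (v10, 5, 23681), (v90, 5, 18308)]), (470, [(v78, 4, 72635), (v51, 5, 44576), (v59, 1,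
  258300), (v73, 1, 102200), (v82, 4, 47760)], [(v55, 5, 21), (v26, 5, 35), (v88, 5, 3), (v91,
  4, 50)]), (125, [(v58, 5, 1393), (v73, 1, 750), (v65, 1, 1250)], [(v82, 4, 79600), (v72, 5,
  32039), (v78, 4, 206960), (v86, 5, 222880), (v67, 1, 987000)])])) (.leaf 13800 [(v24, 4,
  3753), (v50, 4, 2653), (v27, 0, 30935), (v83, 5, 75), (v46, 4, 4149)] [(0, [], [(v37, 0,
  230), (v83, 5, 9), (v12, 4, 60), (v52, 4, 455), (v24, 4, 5)]), (-470, [(v79, 5, 1), (v77, 5,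
  1), (v61, 5, 2), (v26, 5, 6)], [(v27, 0, 1), (v24, 4, 1)]), (45, [(v91, 4, 30), (v11, 0,
  440), (v15, 0, 80), (v79, 5, 3), (v50, 4, 190)], [(v46, 4, 1340), (v72, 5, 104), (v88, 5,
  21), (v10, 5, 678), (v90, 5, 277)]), (470, [(v43, 0, 30), (v77, 5, 4), (v27, 0, 445), (v54,
  4, 295)], [(v55, 5, 21), (v26, 5, 35), (v88, 5, 3), (v91, 4, 50)]), (125, [(v52, 4, 1820),
  (v88, 5, 19), (v83, 5, 257), (v50, 4, 390), (v15, 0, 10920)], [(v82, 4, 1100), (v35, 5, 157),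
  (v54, 4, 9450), (v86, 5, 402), (v19, 5, 244)])]))) (.node 1 (-150) (.node 0 30 (.node 3 60
  (.node 2 270 (.leaf 437400 [(v19, 5, 927), (v44, 2, 137900), (v91, 3, 190350), (v62, 3,
  2207250), (v9, 5, 168930)] [(45, [(v53, 5, 189), (v35, 5, 81), (v49, 5, 486), (v68, 2,
  2300)], [(v44, 2, 25), (v38, 2, 315), (v75, 5, 54), (v91, 3, 270)]), (-45, [(v79, 5, 1),
  (v77, 5, 1), (v61, 5, 2), (v26, 5, 6)], [(v62, 3, 36), (v76, 3, 9), (v74, 2, 10)]), (635,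
  [(v91, 3, 3375), (v74, 2, 650), (v9, 5, 567), (v44, 2, 50)], [(v8, 2, 200), (v13, 5, 324),
  (v63, 5, 81), (v85, 5, 405), (v74, 2, 200)]), (530, [(v44, 2, 200), (v19, 5, 9), (v74, 2,
  150), (v62, 3, 2025), (v9, 5, 234)], [(v2, 2, 200), (v26, 5, 81), (v55, 5, 81), (v75, 5,
  54)]), (-450, [(v55, 5, 204), (v20, 5, 198), (v48, 2, 800), (v75, 5, 135), (v79, 5, 69)],
  [(v62, 3, 20250), (v78, 2, 950), (v19, 5, 1539), (v74, 2, 550), (v44, 2, 2000)])]) (.far 4))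
  (.node 2 744 (.node 4 (-489) (.far 0) (.leaf 1273356000 [(v84, 4, 538501000), (v46, 2,
  196781750), (v87, 4, 1184138000), (v61, 5, 160018404), (v81, 5, 50676537)] [(45, [(v68, 2,
  4625), (v23, 5, 1116), (v33, 5, 372), (v49, 5, 2604)], [(v26, 5, 955017), (v2, 2, 183375),
  (v8, 2, 713125), (v87, 4, 5859000), (v18, 2, 81500)]), (-65, [(v75, 5, 14), (v9, 5, 20),
  (v85, 5, 27), (v83, 5, 3)], [(v84, 4, 744), (v11, 4, 992), (v78, 2, 163)]), (872, [(v8, 2,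
  40750), (v84, 4, 31000), (v87, 4, 248000), (v61, 5, 45477)], [(v44, 2, 77000), (v72, 5,
  219387), (v80, 2, 53500), (v10, 5, 540144), (v77, 5, 185349)]), (0, [(v44, 2, 3565625), (v37,
  4, 9765000), (v33, 5, 515406), (v87, 4, 7378000), (v19, 5, 1940352)], [(v55, 5, 1581), (v42,
  5, 279), (v2, 2, 1625), (v75, 5, 1581)]), (-745, [(v18, 2, 15750), (v45, 5, 310), (v88, 5,
  2790), (v75, 5, 4247), (v79, 5, 4123)], [(v46, 2, 2934000), (v44, 2, 61125), (v37, 4,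
  1767000), (v81, 5, 879222), (v27, 4, 1798000)])])) (.far 0))) (.node 2 100 (.node 3 250
  (.leaf 2100 [(v38, 2, 665), (v74, 2, 125), (v25, 5, 385), (v91, 3, 944), (v44, 2, 575)]
  [(-485, [(v53, 5, 1320), (v72, 5, 185), (v77, 5, 211), (v49, 5, 240), (v70, 3, 4392)], [(v63,
  5, 1), (v91, 3, 2), (v38, 2, 5)]), (0, [(v79, 5, 1), (v77, 5, 1), (v61, 5, 2), (v26, 5, 6)],
  [(v62, 3, 8), (v76, 3, 2), (v74, 2, 25)]), (550, [(v91, 3, 4), (v62, 3, 4), (v38, 2, 10),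
  (v25, 5, 3)], [(v85, 5, 81), (v72, 5, 17), (v0, 3, 1064), (v10, 5, 76), (v90, 5, 78)]), (0,
  [(v44, 2, 30), (v62, 3, 34), (v25, 5, 16), (v60, 2, 35), (v91, 3, 4)], []), (-450, [(v38, 2,
  3080), (v5, 3, 4564), (v83, 5, 495), (v76, 3, 840), (v79, 5, 55)], [(v85, 5, 611), (v44, 2,
  1600), (v81, 5, 39), (v33, 5, 76), (v62, 3, 4416)])]) (.node 4 (-150) (.node 6 113 (.leaf
  7051200 [(v75, 5, 453921), (v82, 6, 126000), (v89, 6, 2647000), (v43, 6, 169000), (v18, 2,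
  7227480)] [(-485, [(v43, 6, 1464000), (v72, 5, 185207), (v77, 5, 115825), (v53, 5, 10848),
  (v81, 5, 128820)], [(v18, 2, 88140), (v26, 5, 1808), (v75, 5, 7119), (v82, 6, 1000), (v89, 6,
  20000)]), (-45, [(v79, 5, 1), (v77, 5, 1), (v61, 5, 2), (v26, 5, 6)], [(v18, 2, 1469), (v82,
  6, 600), (v27, 6, 900), (v74, 6, 700)]), (100, [(v75, 5, 41132), (v82, 6, 111000), (v80, 2,
  176280), (v79, 5, 10283), (v89, 6, 168000)], []), (250, [], [(v55, 5, 17), (v42, 5, 3), (v2,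
  2, 130), (v75, 5, 17)]), (-25, [(v80, 2, 270), (v45, 5, 2), (v88, 5, 18), (v75, 5, 40), (v79,
  5, 23)], [(v82, 6, 110000), (v35, 5, 17741), (v54, 6, 945000), (v86, 5, 45426), (v19, 5,
  27572)])]) (.far 9)) (.leaf 480 [(v8, 2, 716), (v87, 4, 2464), (v61, 5, 135), (v46, 2, 280),
  (v78, 2, 26)] [(-485, [(v27, 4, 80), (v72, 5, 2), (v77, 5, 1), (v19, 5, 6), (v85, 5, 3)],
  [(v87, 4, 280), (v84, 4, 40), (v56, 4, 20), (v26, 5, 21), (v8, 2, 120)]), (-45, [(v26, 5, 6),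
  (v79, 5, 1), (v61, 5, 2), (v77, 5, 1)], [(v84, 4, 6), (v11, 4, 8), (v78, 2, 3)]), (550, [(v8,
  2, 60), (v84, 4, 20), (v87, 4, 160), (v61, 5, 9)], [(v72, 5, 108), (v80, 4, 380), (v85, 5,
  927), (v90, 5, 120)]), (95, [(v44, 2, 2625), (v19, 5, 192), (v33, 5, 51), (v37, 4, 3150),
  (v87, 4, 2380)], [(v0, 2, 780), (v55, 5, 50), (v42, 5, 18), (v84, 4, 260), (v75, 5, 37)]),
  (-575, [(v87, 4, 5020), (v48, 4, 260), (v20, 5, 684), (v55, 5, 246), (v83, 5, 3)], [(v46, 2,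
  2160), (v44, 2, 45), (v37, 4, 570), (v81, 5, 87), (v27, 4, 580)])]))) (.node 3 150 (.node 0
  (-112) (.far 4) (.leaf 20790000 [(v63, 5, 1121757), (v43, 0, 12971250), (v52, 3, 39358200),
  (v77, 5, 1549863), (v24, 3, 4177600)] [(-556, [(v33, 5, 120), (v72, 5, 65), (v77, 5, 43),
  (v70, 3, 1560)], [(v52, 3, 5040), (v83, 5, 168), (v37, 0, 1125), (v91, 3, 280), (v43, 0,
  750)]), (-45, [(v85, 5, 53), (v83, 5, 12), (v75, 5, 61), (v33, 5, 10)], [(v24, 3, 56), (v27,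
  0, 75)]), (20, [(v91, 3, 29120), (v79, 5, 513), (v83, 5, 795), (v25, 5, 252), (v43, 0,
  15000)], [(v0, 3, 3800), (v72, 5, 21), (v58, 5, 114), (v85, 5, 375), (v90, 5, 150)]), (575,
  [(v24, 3, 21700), (v43, 0, 28125), (v77, 5, 2898), (v63, 5, 1302), (v52, 3, 39900)], [(v88,
  5, 108), (v26, 5, 357), (v45, 5, 90), (v52, 3, 820)]), (-450, [(v11, 0, 263250), (v88, 5,
  9996), (v83, 5, 16023), (v76, 3, 94640), (v79, 5, 4641)], [(v24, 3, 3640), (v85, 5, 1953),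
  (v91, 3, 504), (v62, 3, 3836), (v43, 0, 2250)])])) (.node 0 (-524) (.far 0) (.node 4 (-116)
  (.far 13) (.leaf 91176000 [(v26, 5, 53698865), (v56, 4, 151730750), (v43, 0, 12223500), (v10,
  5, 29358672), (v21, 0, 184324000)] [(-762, [(v43, 0, 30000), (v72, 5, 16637), (v77, 5,
  10087), (v19, 5, 34584), (v86, 5, 25152)], [(v21, 0, 29000), (v26, 5, 11397), (v56, 4,
  32750), (v87, 4, 65500)]), (-45, [(v83, 5, 1), (v79, 5, 11), (v26, 5, 28), (v85, 5, 56)],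
  [(v48, 4, 32750), (v21, 0, 101500), (v10, 5, 7598), (v36, 5, 3799)]), (20, [(v26, 5, 3799),
  (v87, 4, 65500), (v21, 0, 14500)], [(v80, 4, 32750), (v10, 5, 30392), (v85, 5, 102573), (v17,
  0, 406000)]), (45, [(v21, 0, 2900), (v43, 0, 1450), (v38, 4, 6550), (v10, 5, 3799)], [(v88,
  5, 1703), (v26, 5, 15327), (v45, 5, 524), (v5, 0, 10250)]), (-558, [(v11, 0, 500), (v20, 5,
  917), (v15, 0, 250)], [(v38, 4, 16375), (v43, 0, 3625), (v10, 5, 26593), (v21, 0,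
  72500)])])))))) (.node 0 (-470) (.node 2 250 (.leaf 630 [(v12, 1, 76), (v74, 2, 308), (v45,
  5, 28), (v59, 1, 1149), (v78, 2, 60)] [(-205, [(v53, 5, 7), (v35, 5, 3), (v49, 5, 18), (v68,
  2, 92)], [(v75, 5, 35), (v2, 2, 120), (v18, 2, 184), (v22, 1, 280)]), (-150, [], [(v78, 2,
  47), (v22, 1, 90), (v45, 5, 25), (v59, 1, 150), (v74, 2, 223)]), (250, [(v78, 2, 8), (v74, 2,
  29), (v73, 1, 19), (v45, 5, 6), (v59, 1, 36)], []), (470, [(v19, 5, 2), (v67, 1, 60), (v9, 5,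
  7), (v74, 2, 60)], [(v55, 5, 17), (v42, 5, 3), (v2, 2, 52), (v75, 5, 17)]), (-450, [(v18, 2,
  1512), (v45, 5, 10), (v88, 5, 90), (v75, 5, 137), (v79, 5, 133)], [(v81, 5, 12), (v74, 2,
  77), (v78, 2, 44), (v67, 1, 105)])]) (.node 3 250 (.leaf 300 [(v24, 3, 112), (v76, 3, 6),
  (v28, 1, 250), (v62, 3, 128), (v90, 5, 9)] [(-205, [(v53, 5, 1320), (v72, 5, 185), (v77, 5,
  211), (v49, 5, 240), (v70, 3, 4392)], [(v63, 5, 117), (v76, 3, 48), (v32, 3, 114), (v34, 1,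
  130)]), (-150, [], [(v24, 3, 15), (v28, 1, 25), (v76, 3, 6), (v62, 3, 6), (v90, 5, 3)]), (95,
  [(v76, 3, 21), (v73, 1, 25), (v25, 5, 15), (v62, 3, 24)], [(v0, 3, 1064), (v72, 5, 17), (v90,
  5, 78), (v10, 5, 76), (v85, 5, 81)]), (0, [(v24, 3, 15), (v62, 3, 24), (v28, 1, 125), (v90,
  5, 9), (v76, 3, 12)], []), (-450, [(v76, 3, 4), (v5, 3, 10), (v63, 5, 11)], [(v64, 3, 48),
  (v70, 3, 36), (v77, 5, 3), (v67, 1, 80)])]) (.node 4 (-150) (.node 0 (-100) (.node 6 (-60)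
  (.node 2 60 (.node 1 (-624) (.far 4) (.leaf 546000 [(v29, 5, 527982), (v78, 2, 161200), (v59,
  1, 377000), (v74, 2, 1492400), (v12, 1, 509375)] [(-20, [(v3, 1, 6200), (v23, 5, 6552), (v33,
  5, 156), (v57, 5, 1092), (v67, 1, 5425)], [(v22, 1, 675), (v8, 2, 5200), (v18, 2, 260), (v58,
  5, 702)]), (-812, [(v85, 5, 53), (v83, 5, 12), (v75, 5, 61), (v33, 5, 10)], [(v22, 1, 250),
  (v59, 1, 17625), (v80, 2, 6500), (v29, 5, 11388), (v8, 2, 49400)]), (155, [(v12, 1, 125),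
  (v8, 2, 1300), (v73, 1, 50), (v29, 5, 468), (v59, 1, 450)], [(v51, 5, 137), (v72, 5, 110),
  (v85, 5, 271), (v88, 5, 143), (v4, 1, 875)]), (95, [(v13, 5, 312), (v73, 1, 25), (v74, 2,
  1300), (v59, 1, 600)], [(v69, 1, 125), (v58, 5, 234), (v16, 1, 250)]), (-12, [(v58, 5, 2184),
  (v73, 1, 375), (v65, 1, 625)], [(v72, 5, 312), (v12, 1, 625), (v8, 2, 6500), (v59, 1,
  3000)])])) (.node 3 (-30) (.node 0 (-47) (.far 10) (.node 1 (-877) (.far 6) (.leaf 123657000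
  [(v34, 1, 1627375), (v12, 1, 611000), (v21, 0, 2539792000), (v28, 1, 135941625), (v58, 5,
  125264541)] [(-74, [(v3, 1, 44400), (v23, 5, 67529), (v33, 5, 877), (v49, 5, 6139), (v67, 1,
  38850)], [(v58, 5, 123657), (v28, 1, 70500), (v12, 1, 94000), (v27, 0, 438500)]), (-939,
  [(v85, 5, 53), (v83, 5, 12), (v75, 5, 61), (v33, 5, 10)], [(v58, 5, 41219), (v28, 1, 47000),
  (v21, 0, 877000)]), (16, [(v29, 5, 41219), (v11, 0, 438500), (v12, 1, 70500)], [(v51, 5,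
  55251), (v72, 5, 11401), (v86, 5, 237667), (v88, 5, 38588), (v4, 1, 168000)]), (22, [(v28, 1,
  70500), (v27, 0, 438500), (v13, 5, 41219)], [(v58, 5, 2631), (v69, 1, 1000), (v16, 1,
  2000)]), (66, [(v73, 1, 750), (v58, 5, 6139), (v65, 1, 1250)], [(v72, 5, 41219), (v59, 1,
  47000), (v28, 1, 188000), (v12, 1, 94000), (v21, 0, 1754000)])]))) (.node 0 (-38) (.far 6)
  (.node 1 (-924) (.far 4) (.leaf 8778000 [(v27, 0, 7103250), (v28, 1, 8761375), (v12, 1,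
  1054500), (v58, 5, 9050118), (v21, 0, 209055000)] [(-69, [(v3, 1, 7400), (v23, 5, 11858),
  (v33, 5, 154), (v49, 5, 1078), (v67, 1, 6475)], [(v58, 5, 13167), (v28, 1, 9500), (v11, 0,
  57750), (v12, 1, 7125)]), (-962, [(v85, 5, 53), (v83, 5, 12), (v75, 5, 61), (v33, 5, 10)],
  [(v21, 0, 115500), (v58, 5, 4389), (v28, 1, 4750)]), (18, [(v21, 0, 346500), (v22, 1, 4750),
  (v29, 5, 13167), (v12, 1, 9500)], [(v51, 5, 693), (v72, 5, 143), (v86, 5, 2981), (v88, 5,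
  484), (v4, 1, 2000)]), (-45, [(v13, 5, 1463), (v27, 0, 19250), (v28, 1, 2375)], [(v69, 1,
  250), (v58, 5, 693), (v16, 1, 500)]), (57, [(v58, 5, 3234), (v73, 1, 375), (v65, 1, 625)],
  [(v28, 1, 19000), (v59, 1, 4750), (v12, 1, 9500), (v72, 5, 4389), (v21, 0, 231000)])])))))
  (.node 1 (-549) (.far 0) (.leaf 6148800 [(v76, 6, 2516250), (v59, 1, 3920000), (v84, 6,
  11163000), (v72, 5, 280539), (v80, 6, 3037800)] [(-100, [(v3, 1, 24800), (v23, 5, 23058),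
  (v33, 5, 549), (v57, 5, 3843), (v67, 1, 21700)], []), (-775, [(v85, 5, 53), (v83, 5, 12),
  (v75, 5, 61), (v33, 5, 10)], [(v32, 6, 237900), (v59, 1, 320000), (v84, 6, 1413675), (v23, 5,
  70272), (v80, 6, 150975)]), (250, [], [(v90, 5, 25071), (v72, 5, 40992), (v85, 5, 43554),
  (v88, 5, 38247), (v4, 1, 266000)]), (95, [(v13, 5, 366), (v80, 6, 305), (v59, 1, 900)],
  [(v69, 1, 1000), (v58, 5, 1647), (v16, 1, 2000)]), (-25, [(v58, 5, 3843), (v73, 1, 750),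
  (v65, 1, 1250)], [(v28, 1, 17500), (v72, 5, 6039), (v32, 6, 22875), (v59, 1, 61000)])])))
  (.node 1 (-303) (.far 0) (.leaf 303000 [(v58, 5, 35451), (v27, 0, 53025), (v88, 5, 62115),
  (v28, 1, 864500), (v21, 0, 2672460)] [(-285, [(v3, 1, 36800), (v35, 5, 9393), (v53, 5, 3333),
  (v49, 5, 606), (v67, 1, 32200)], [(v21, 0, 49995), (v12, 1, 5000), (v28, 1, 24000), (v88, 5,
  2727), (v22, 1, 2500)]), (-652, [(v85, 5, 53), (v83, 5, 12), (v75, 5, 61), (v33, 5, 10)],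
  [(v58, 5, 303), (v28, 1, 1000), (v21, 0, 3030)]), (95, [(v11, 0, 2424), (v22, 1, 2400), (v5,
  0, 5555), (v7, 0, 2323)], [(v90, 5, 1111), (v23, 5, 2626), (v86, 5, 8181), (v58, 5, 6666),
  (v4, 1, 20000)]), (95, [(v30, 1, 100), (v27, 0, 303)], [(v69, 1, 1000), (v58, 5, 909), (v16,
  1, 2000)]), (-25, [(v58, 5, 2121), (v73, 1, 750), (v65, 1, 1250)], [(v59, 1, 3000), (v72, 5,
  909), (v28, 1, 20000), (v7, 0, 7575)])]))) (.leaf 5760 [(v86, 5, 6624), (v80, 4, 821), (v12,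
  1, 15408), (v27, 4, 12916), (v84, 4, 7785)] [(-205, [(v27, 4, 7940), (v72, 5, 186), (v33, 5,
  135), (v49, 5, 300), (v85, 5, 732)], [(v84, 4, 15), (v80, 4, 5), (v26, 5, 3), (v16, 1, 60)]),
  (-575, [(v85, 5, 53), (v83, 5, 12), (v75, 5, 61), (v33, 5, 10)], [(v80, 4, 25), (v12, 1,
  240), (v84, 4, 285), (v86, 5, 144), (v27, 4, 260)]), (95, [(v84, 4, 60), (v12, 1, 40), (v61,
  5, 3)], [(v60, 4, 1900), (v72, 5, 54), (v58, 5, 171), (v85, 5, 720), (v90, 5, 60)]), (95,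
  [(v30, 1, 1), (v27, 4, 1)], [(v84, 4, 2320), (v35, 5, 30), (v26, 5, 609), (v55, 5, 129),
  (v39, 5, 18)]), (-575, [(v87, 4, 5020), (v48, 4, 260), (v20, 5, 684), (v55, 5, 246), (v83, 5,
  3)], [(v80, 4, 5), (v27, 4, 100), (v86, 5, 108), (v84, 4, 105), (v59, 1, 240)])])))) (.node 2
  802 (.far 5) (.node 3 916 (.far 1) (.leaf 2115000 [(v28, 1, 832605), (v42, 5, 512253), (v12,
  1, 7569820), (v27, 0, 5483775), (v21, 0, 3077100)] [(-735, [(v43, 0, 4000), (v72, 5, 2115),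
  (v77, 5, 1081), (v19, 5, 4136), (v85, 5, 1504)], [(v11, 0, 6000), (v27, 0, 3150), (v28, 1,
  8225), (v34, 1, 705), (v42, 5, 846)]), (-476, [(v83, 5, 1), (v85, 5, 56), (v79, 5, 11), (v26,
  5, 28)], [(v28, 1, 1175), (v22, 1, 470), (v42, 5, 282), (v21, 0, 2850), (v27, 0, 2625)]),
  (371, [(v11, 0, 120), (v22, 1, 1128), (v5, 0, 275), (v7, 0, 115)], [(v17, 0, 100), (v10, 5,
  47), (v27, 0, 50)]), (428, [(v27, 0, 15), (v30, 1, 47)], [(v88, 5, 611), (v26, 5, 5499),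
  (v45, 5, 188), (v5, 0, 4100)]), (-450, [(v83, 5, 21432), (v88, 5, 26790), (v20, 5, 56823),
  (v34, 1, 122200), (v15, 0, 269100)], [(v86, 5, 141), (v21, 0, 300), (v30, 1, 235), (v28, 1,
  235)])])))))) (.node 4 100 (.node 1 (-288) (.far 13) (.leaf 15000 [(v73, 1, 3375), (v24, 4,
  11700), (v62, 4, 19650), (v58, 5, 4077), (v27, 3, 13000)] [(-362, [(v3, 1, 1000), (v35, 5,
  252), (v33, 5, 36), (v67, 1, 875)], [(v24, 4, 3960), (v34, 1, 875), (v8, 4, 1440), (v88, 5,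
  144), (v58, 5, 288)]), (-288, [], [(v24, 4, 3), (v27, 3, 5)]), (470, [(v29, 5, 2268), (v27,
  3, 600), (v55, 5, 396), (v82, 4, 3240), (v73, 1, 2875)], [(v90, 5, 3312), (v72, 5, 5040),
  (v10, 5, 4284), (v88, 5, 3708), (v4, 1, 58625)]), (-80, [(v51, 5, 96), (v27, 3, 1600), (v73,
  1, 25), (v74, 3, 3000), (v59, 1, 2100)], [(v55, 5, 21), (v26, 5, 35), (v88, 5, 3), (v91, 4,
  50)]), (100, [(v65, 1, 625), (v58, 5, 1008), (v73, 1, 375)], [])])) (.node 1 (-30) (.node 4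
  (-201) (.far 13) (.leaf 2412000 [(v54, 3, 1182550), (v26, 5, 285219), (v84, 4, 5378000),
  (v28, 3, 12080100), (v86, 5, 1307706)] [(-507, [(v27, 4, 16000), (v72, 5, 469), (v77, 5,
  335), (v19, 5, 1608), (v86, 5, 1608)], [(v84, 4, 900), (v80, 4, 100), (v26, 5, 201), (v28, 3,
  2010)]), (0, [(v83, 5, 1), (v79, 5, 11), (v26, 5, 28), (v85, 5, 56)], [(v80, 4, 125), (v54,
  3, 5025), (v84, 4, 5625), (v86, 5, 1809), (v27, 4, 1000)]), (507, [(v61, 5, 134), (v84, 4,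
  2000), (v26, 5, 67), (v28, 3, 3350)], [(v80, 4, 1500), (v13, 5, 3417), (v77, 5, 1206), (v86,
  5, 16884), (v60, 4, 8500)]), (-60, [], [(v88, 5, 1608), (v35, 5, 1005), (v26, 5, 43215),
  (v55, 5, 3216), (v15, 4, 100000)]), (-601, [(v87, 4, 251000), (v48, 4, 13000), (v20, 5,
  45828), (v55, 5, 16482), (v83, 5, 201)], [(v57, 5, 603), (v11, 4, 6000), (v84, 4, 4000),
  (v86, 5, 4422), (v54, 3, 23450)])])) (.node 6 (-250) (.node 0 30 (.node 1 (-173) (.far 4)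
  (.node 2 90 (.node 4 (-685) (.leaf 224208000 [(v45, 5, 6565869), (v39, 5, 6064515), (v37, 3,
  628820400), (v8, 2, 763691200), (v12, 1, 162000000)] [(45, [(v43, 3, 795800), (v35, 5,
  303615), (v53, 5, 421947), (v49, 5, 150510), (v67, 1, 2277000)], [(v55, 5, 10899), (v2, 2,
  1038000), (v18, 2, 320050), (v88, 5, 32697), (v22, 1, 850500)]), (-587, [(v85, 5, 53), (v83,
  5, 12), (v75, 5, 61), (v33, 5, 10)], [(v12, 1, 6750), (v37, 3, 77850), (v55, 5, 1557), (v8,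
  2, 99475)]), (545, [(v12, 1, 87750), (v55, 5, 6228), (v37, 3, 77850), (v8, 2, 47575)], [(v74,
  2, 13300), (v72, 5, 783), (v83, 5, 342), (v85, 5, 4626), (v90, 5, 72)]), (-80, [(v27, 3,
  8650), (v53, 5, 519), (v74, 2, 17300), (v67, 1, 9000)], [(v0, 2, 17300), (v26, 5, 1557),
  (v55, 5, 1557), (v16, 1, 9000)]), (-293, [(v55, 5, 503776), (v88, 5, 5363), (v48, 2,
  1124500), (v73, 1, 455000), (v83, 5, 50170)], [(v86, 5, 121446), (v78, 2, 553600), (v57, 5,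
  62799), (v67, 1, 1674000), (v35, 5, 58647)])]) (.far 10)) (.far 4))) (.node 2 470 (.node 0
  (-422) (.leaf 1692000 [(v59, 3, 468825), (v43, 3, 576925), (v8, 2, 862800), (v87, 3,
  2008075), (v61, 5, 126759)] [(-196, [(v53, 5, 329), (v49, 5, 846), (v35, 5, 141), (v68, 2,
  2300)], [(v18, 2, 4000), (v8, 2, 3200), (v75, 5, 1833), (v73, 3, 7050)]), (-419, [(v79, 5,
  1), (v77, 5, 1), (v61, 5, 2), (v26, 5, 6)], [(v8, 2, 5200), (v18, 2, 200), (v45, 5, 141),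
  (v37, 3, 21150)]), (0, [(v73, 3, 18800), (v45, 5, 2021), (v87, 3, 808400), (v39, 5, 7755),
  (v8, 2, 35200)], []), (-60, [], [(v55, 5, 799), (v42, 5, 141), (v2, 2, 1300), (v75, 5,
  799)]), (-448, [(v45, 5, 70), (v88, 5, 13), (v48, 2, 300), (v20, 5, 238), (v79, 5, 39)],
  [(v89, 3, 361900), (v78, 2, 227700), (v44, 2, 163800), (v81, 5, 125631), (v43, 3, 658000)])])
  (.leaf 59502000 [(v48, 2, 4415175), (v21, 0, 45543000), (v8, 2, 14063150), (v75, 5, 8369948),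
  (v44, 2, 4826625)] [(-422, [], [(v21, 0, 47000), (v8, 2, 2110), (v48, 2, 17935), (v75, 5,
  19834), (v44, 2, 7385)]), (-268, [(v79, 5, 1), (v77, 5, 1), (v61, 5, 2), (v26, 5, 6)], [(v11,
  0, 235), (v8, 2, 211)]), (0, [(v38, 2, 1255450), (v11, 0, 1222000), (v43, 0, 317250), (v75,
  5, 1001617), (v46, 2, 527500)], []), (-80, [(v43, 0, 3055), (v44, 2, 1055), (v4, 2, 4642)],
  [(v55, 5, 799), (v42, 5, 141), (v2, 2, 1300), (v75, 5, 799)]), (-450, [(v45, 5, 188), (v88,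
  5, 423), (v48, 2, 2700), (v75, 5, 799), (v79, 5, 470)], [(v46, 2, 1097200), (v74, 2, 147700),
  (v43, 0, 188000), (v81, 5, 208257), (v21, 0, 235000)])])) (.node 0 (-150) (.node 1 (-459)
  (.far 4) (.node 4 (-529) (.leaf 2203200 [(v60, 3, 9669600), (v35, 5, 260253), (v27, 3,
  5645700), (v29, 5, 783513), (v12, 1, 4792000)] [(-60, [(v67, 1, 21700), (v23, 5, 19278), (v3,
  1, 24800), (v57, 5, 3213), (v33, 5, 459)], [(v60, 3, 7650), (v58, 5, 1377), (v12, 1, 4000)]),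
  (-730, [(v85, 5, 53), (v83, 5, 12), (v75, 5, 61), (v33, 5, 10)], [(v29, 5, 11475), (v12, 1,
  40000), (v27, 3, 30600), (v35, 5, 1377), (v74, 3, 61200)]), (205, [(v27, 3, 7650), (v29, 5,
  1377), (v12, 1, 4000)], [(v51, 5, 20961), (v72, 5, 16830), (v85, 5, 41463), (v88, 5, 21879),
  (v4, 1, 182000)]), (-60, [], [(v69, 1, 1000), (v58, 5, 1377), (v16, 1, 2000)]), (-215, [(v58,
  5, 3213), (v73, 1, 750), (v65, 1, 1250)], [(v72, 5, 5049), (v12, 1, 40000), (v74, 3, 38250),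
  (v59, 1, 36000)])]) (.far 10))) (.node 4 (-250) (.node 1 (-139) (.far 13) (.leaf 9507600
  [(v38, 3, 33018060), (v88, 5, 245196), (v7, 0, 7954831), (v5, 0, 40727), (v16, 1, 34614000)]
  [(-575, [(v43, 0, 800), (v72, 5, 135), (v77, 5, 69), (v19, 5, 264), (v85, 5, 96)], [(v7, 0,
  83400), (v42, 5, 695), (v38, 3, 1125900), (v88, 5, 20711), (v16, 1, 2196000)]), (-570, [(v85,
  5, 53), (v83, 5, 12), (v75, 5, 61), (v33, 5, 10)], [(v44, 3, 15), (v38, 3, 265), (v7, 0,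
  96)]), (205, [(v5, 0, 417), (v11, 0, 1112), (v22, 1, 150), (v16, 1, 3450)], [(v90, 5, 6255),
  (v72, 5, 8896), (v10, 5, 10425), (v58, 5, 28634), (v4, 1, 235000)]), (-60, [], [(v88, 5, 39),
  (v26, 5, 351), (v45, 5, 12), (v5, 0, 820)]), (-75, [(v11, 0, 1301040), (v88, 5, 239636),
  (v83, 5, 19321), (v73, 1, 676000), (v79, 5, 30719)], [(v30, 1, 750), (v86, 5, 417), (v28, 1,
  750), (v21, 0, 2780)])])) (.leaf 756000 [(v10, 5, 57864), (v7, 0, 1019040), (v28, 3,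
  2112550), (v56, 4, 516096), (v26, 5, 80397)] [(-575, [(v27, 4, 336), (v72, 5, 14), (v77, 5,
  10), (v81, 5, 15), (v85, 5, 3)], [(v7, 0, 40), (v26, 5, 20), (v56, 4, 38), (v87, 4, 92),
  (v28, 3, 25)]), (-449, [(v83, 5, 1), (v79, 5, 11), (v26, 5, 28), (v85, 5, 56)], [(v54, 3,
  100), (v38, 4, 296), (v85, 5, 9), (v7, 0, 440), (v60, 4, 36)]), (205, [(v7, 0, 80), (v87, 4,
  336), (v26, 5, 21), (v28, 3, 50)], [(v80, 4, 6), (v13, 5, 17), (v77, 5, 6), (v86, 5, 84),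
  (v60, 4, 34)]), (-80, [(v85, 5, 3), (v27, 4, 18), (v87, 4, 12), (v54, 3, 25)], [(v88, 5,
  273), (v7, 0, 820), (v26, 5, 2457), (v45, 5, 84), (v15, 4, 3936)]), (-625, [(v87, 4, 132),
  (v88, 5, 4), (v20, 5, 16), (v75, 5, 1), (v47, 5, 1)], [(v21, 0, 200), (v85, 5, 33), (v54, 3,
  200), (v60, 4, 12), (v7, 0, 90)])]))))) (.leaf 45360000 [(v43, 3, 6599425), (v74, 3,
  69014925), (v89, 3, 10330375), (v91, 6, 16597440), (v34, 6, 63504)] [(-392, [(v43, 3, 3050),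
  (v72, 5, 193), (v77, 5, 140), (v53, 5, 12), (v49, 5, 285)], [(v34, 6, 512), (v79, 5, 66),
  (v42, 5, 219), (v91, 6, 2244), (v56, 6, 4792)]), (-515, [(v83, 5, 2), (v25, 5, 10), (v75, 5,
  11), (v85, 5, 13)], [(v52, 6, 4140), (v43, 3, 4900), (v76, 6, 390), (v35, 5, 177), (v74, 3,
  16025)]), (470, [(v91, 6, 8), (v87, 6, 76), (v84, 6, 4), (v49, 5, 1)], [(v80, 6, 32), (v51,
  5, 17), (v77, 5, 15), (v86, 5, 261)]), (-80, [(v43, 3, 4800), (v77, 5, 117), (v74, 3, 4450),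
  (v54, 3, 11600)], [(v88, 5, 68), (v26, 5, 325), (v45, 5, 84), (v32, 6, 164)]), (-493, [(v87,
  6, 132), (v88, 5, 4), (v20, 5, 16), (v75, 5, 1), (v47, 5, 1)], [(v54, 3, 200), (v35, 5, 2),
  (v57, 5, 7), (v52, 6, 12), (v27, 3, 100)])]))))) (.node 0 (-100) (.node 1 (-309) (.far 4)
  (.node 6 (-74) (.far 6) (.leaf 114330000 [(v59, 1, 157065000), (v18, 6, 174945500), (v72, 5,
  5392565), (v23, 5, 1699706), (v21, 2, 566886250)] [(-100, [(v3, 1, 8000), (v35, 5, 2163),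
  (v33, 5, 309), (v67, 1, 7000)], []), (-655, [(v85, 5, 53), (v83, 5, 12), (v75, 5, 61), (v33,
  5, 10)], [(v80, 6, 1931250), (v59, 1, 1295000), (v21, 2, 8003100), (v82, 2, 1810225), (v23,
  5, 160062)]), (-60, [], [(v51, 5, 14111), (v72, 5, 11330), (v85, 5, 27913), (v88, 5, 14729),
  (v4, 1, 182000)]), (450, [(v13, 5, 3811), (v80, 6, 2575), (v59, 1, 16650)], [(v69, 1, 1000),
  (v58, 5, 927), (v16, 1, 2000)]), (-272, [(v58, 5, 2163), (v73, 1, 750), (v65, 1, 1250)],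
  [(v28, 1, 647500), (v72, 5, 125763), (v32, 6, 386250), (v59, 1, 2257000)])]))) (.node 3 250
  (.leaf 6120000 [(v73, 2, 1418750), (v63, 5, 115788), (v77, 5, 81597), (v24, 3, 7727520),
  (v43, 0, 1483200)] [(-550, [(v53, 5, 1320), (v72, 5, 185), (v77, 5, 211), (v49, 5, 240),
  (v70, 3, 4392)], [(v91, 3, 2), (v63, 5, 8), (v52, 3, 20), (v37, 0, 25)]), (-412, [(v83, 5,
  1), (v85, 5, 23), (v9, 5, 44), (v26, 5, 28)], [(v24, 3, 2), (v27, 0, 5)]), (-80, [(v91, 3,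
  4), (v63, 5, 1), (v25, 5, 1), (v37, 0, 10)], [(v0, 3, 1344), (v86, 5, 239), (v51, 5, 51),
  (v88, 5, 16), (v77, 5, 53)]), (0, [(v24, 3, 9792), (v43, 0, 6480), (v77, 5, 561), (v73, 2,
  2150), (v59, 2, 4200)], []), (-425, [(v27, 0, 220), (v5, 3, 734), (v83, 5, 99), (v76, 3,
  188), (v37, 0, 220)], [(v24, 3, 520), (v77, 5, 72), (v89, 2, 500), (v85, 5, 15), (v62, 3,
  1628)])]) (.node 1 (-250) (.node 0 (-466) (.far 4) (.leaf 25164000 [(v42, 5, 1667115), (v27,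
  0, 43722000), (v36, 5, 7400313), (v12, 2, 56292800), (v50, 2, 28332800)] [(-733, [(v43, 0,
  732000), (v72, 5, 381887), (v77, 5, 238825), (v53, 5, 22368), (v81, 5, 265620)], [(v20, 5,
  71298), (v11, 0, 63000), (v42, 5, 18873), (v50, 2, 291250), (v27, 0, 210000)]), (-95, [(v83,
  5, 1), (v79, 5, 11), (v26, 5, 28), (v85, 5, 56)], [(v36, 5, 4893), (v50, 2, 23300), (v42, 5,
  2097), (v21, 0, 18000), (v27, 0, 42000)]), (-60, [], [(v27, 0, 250), (v17, 0, 500), (v10, 5,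
  233)]), (75, [(v10, 5, 2097), (v27, 0, 6000), (v12, 2, 11650)], [(v88, 5, 3029), (v26, 5,
  27261), (v45, 5, 932), (v5, 0, 20500)]), (-468, [(v11, 0, 1000), (v20, 5, 1631), (v15, 0,
  500)], [(v10, 5, 6291), (v12, 2, 11650), (v21, 0, 18000), (v27, 0, 6000)])])) (.node 1 (-625)
  (.node 0 (-122) (.far 4) (.leaf 183000 [(v88, 5, 8357), (v21, 0, 838000), (v58, 5, 149389),
  (v28, 1, 815204), (v7, 0, 75000)] [(-561, [(v43, 0, 15500), (v23, 5, 26047), (v33, 5, 5978),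
  (v57, 5, 9699), (v67, 1, 62403)], [(v34, 1, 5673), (v88, 5, 9150), (v28, 1, 125721), (v76, 2,
  24400), (v27, 0, 18750)]), (-438, [(v85, 5, 53), (v83, 5, 12), (v75, 5, 61), (v33, 5, 10)],
  [(v21, 0, 500), (v28, 1, 244), (v58, 5, 61)]), (-80, [(v16, 1, 1403), (v22, 1, 61), (v5, 0,
  375), (v11, 0, 1000)], [(v90, 5, 11), (v23, 5, 26), (v86, 5, 81), (v58, 5, 66), (v4, 1,
  240)]), (75, [(v30, 1, 61), (v27, 0, 125)], [(v88, 5, 427), (v7, 0, 2500), (v26, 5, 1525),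
  (v55, 5, 854), (v16, 1, 9760)]), (-425, [(v11, 0, 13000), (v88, 5, 4636), (v83, 5, 61), (v73,
  1, 5551), (v65, 1, 13481)], [(v28, 1, 4880), (v59, 1, 732), (v72, 5, 183), (v7, 0, 1250)])]))
  (.leaf 115000 [(v28, 1, 254872), (v58, 5, 145475), (v7, 0, 49800), (v21, 0, 1030250), (v12,
  1, 1448)] [(-452, [(v67, 1, 868), (v23, 5, 1050), (v3, 1, 992), (v57, 5, 175), (v33, 5, 25)],
  [(v34, 1, 1), (v21, 0, 50), (v58, 5, 15), (v12, 1, 8), (v28, 1, 15)]), (-813, [(v85, 5, 53),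
  (v83, 5, 12), (v75, 5, 61), (v33, 5, 10)], [(v58, 5, 5), (v28, 1, 8), (v21, 0, 50)]), (-60,
  [], [(v51, 5, 315), (v72, 5, 65), (v86, 5, 1355), (v88, 5, 220), (v4, 1, 1344)]), (75, [(v28,
  1, 12), (v13, 5, 5), (v27, 0, 25)], [(v69, 1, 8), (v58, 5, 15), (v16, 1, 16)]), (-386, [(v58,
  5, 35), (v73, 1, 6), (v65, 1, 10)], [(v28, 1, 160), (v59, 1, 24), (v72, 5, 15), (v7, 0,
  125)])]))))))))) (.node 1 (-100) (.node 0 (-324) (.far 4) (.leaf 1944000 [(v27, 0, 5164000),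
  (v50, 2, 69660), (v42, 5, 260982), (v10, 5, 201933), (v12, 2, 6548850)] [(-662, [(v43, 0,
  122000), (v72, 5, 44253), (v77, 5, 27675), (v53, 5, 2592), (v81, 5, 30780)], [(v27, 0,
  55000), (v11, 0, 16500), (v22, 2, 27540), (v50, 2, 12150), (v42, 5, 4617)]), (-20, [(v83, 5,
  1), (v85, 5, 23), (v9, 5, 44), (v26, 5, 28)], [(v36, 5, 243), (v50, 2, 180), (v42, 5, 27),
  (v91, 2, 360), (v27, 0, 2000)]), (-125, [(v50, 2, 28350), (v11, 0, 27250), (v22, 2, 17010),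
  (v15, 0, 9250), (v75, 5, 1701)], [(v27, 0, 125), (v17, 0, 250), (v10, 5, 81)]), (474, [(v10,
  5, 243), (v27, 0, 1000), (v12, 2, 810)], [(v88, 5, 1053), (v26, 5, 9477), (v45, 5, 324), (v5,
  0, 10250)]), (-125, [(v20, 5, 567), (v15, 0, 250), (v11, 0, 500)], [(v10, 5, 729), (v12, 2,
  810), (v21, 0, 3000), (v27, 0, 1000)])])) (.node 1 (-550) (.node 3 150 (.leaf 378000 [(v87,
  2, 1049850), (v24, 3, 757610), (v90, 5, 22461), (v37, 2, 245820), (v28, 1, 543375)] [(-456,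
  [(v33, 5, 120), (v72, 5, 65), (v77, 5, 43), (v70, 3, 1560)], [(v34, 1, 207), (v87, 2, 1530),
  (v83, 5, 24), (v91, 3, 140), (v32, 3, 334)]), (-325, [(v85, 5, 53), (v83, 5, 12), (v75, 5,
  61), (v33, 5, 10)], [(v90, 5, 2), (v37, 2, 135), (v51, 5, 1), (v24, 3, 240), (v43, 2, 15)]),
  (-100, [], [(v90, 5, 212), (v72, 5, 35), (v85, 5, 511), (v88, 5, 38), (v0, 3, 5320)]), (575,
  [(v0, 3, 520), (v43, 2, 120), (v30, 1, 5), (v90, 5, 16), (v28, 1, 585)], [(v88, 5, 108),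
  (v26, 5, 357), (v45, 5, 90), (v52, 3, 820)]), (0, [(v87, 2, 3510), (v88, 5, 60), (v83, 5,
  48), (v76, 3, 260), (v47, 5, 39)], [(v89, 2, 960), (v64, 3, 1040), (v85, 5, 48), (v70, 3,
  980), (v77, 5, 45)])]) (.node 0 (-266) (.far 4) (.leaf 228000 [(v28, 1, 469680), (v27, 0,
  616000), (v42, 5, 25137), (v36, 5, 17043), (v91, 2, 126160)] [(-633, [(v43, 0, 91500), (v72,
  5, 25669), (v77, 5, 18620), (v53, 5, 1596), (v49, 5, 37905)], [(v88, 5, 380), (v27, 0,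
  40500), (v42, 5, 2261), (v91, 2, 8550), (v34, 1, 11970)]), (-325, [(v85, 5, 53), (v83, 5,
  12), (v75, 5, 61), (v33, 5, 10)], [(v36, 5, 2261), (v42, 5, 399), (v91, 2, 5320), (v28, 1,
  3990), (v27, 0, 26500)]), (-125, [(v50, 2, 46550), (v11, 0, 54500), (v22, 1, 27930), (v15, 0,
  18500), (v75, 5, 2793)], [(v27, 0, 250), (v17, 0, 500), (v10, 5, 133)]), (25, [(v27, 0, 50),
  (v30, 1, 133)], [(v88, 5, 1729), (v26, 5, 15561), (v45, 5, 532), (v5, 0, 20500)]), (-358,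
  [(v34, 1, 172900), (v88, 5, 25270), (v20, 5, 53599), (v15, 0, 448500), (v83, 5, 20216)],
  [(v86, 5, 266), (v21, 0, 1000), (v28, 1, 665), (v30, 1, 665)])]))) (.node 0 (-913) (.leaf
  825000 [(v28, 1, 2069500), (v76, 2, 30030), (v58, 5, 536360), (v84, 2, 4057570), (v23, 5,
  199111)] [(-407, [(v67, 1, 434), (v23, 5, 462), (v3, 1, 496), (v57, 5, 77), (v33, 5, 11)],
  [(v34, 1, 7), (v58, 5, 55), (v76, 2, 22), (v28, 1, 89)]), (-775, [(v85, 5, 53), (v83, 5, 12),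
  (v75, 5, 61), (v33, 5, 10)], [(v58, 5, 110), (v28, 1, 500), (v84, 2, 1045), (v76, 2, 55),
  (v23, 5, 66)]), (-100, [], [(v51, 5, 693), (v72, 5, 143), (v86, 5, 2981), (v88, 5, 484), (v4,
  1, 3360)]), (450, [(v28, 1, 80), (v11, 2, 110), (v13, 5, 33)], [(v69, 1, 20), (v58, 5, 33),
  (v16, 1, 40)]), (0, [(v58, 5, 77), (v73, 1, 15), (v65, 1, 25)], [(v28, 1, 1400), (v72, 5,
  154), (v12, 1, 100), (v82, 2, 275), (v59, 1, 530)])]) (.far 5)))))) (.node 1 (-100) (.node 4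
  (-166) (.far 13) (.leaf 996000 [(v54, 3, 223270), (v26, 5, 116283), (v84, 4, 2581000), (v28,
  3, 2898360), (v86, 5, 536014)] [(-475, [(v27, 4, 6000), (v72, 5, 166), (v77, 5, 83), (v19, 5,
  498), (v85, 5, 249)], [(v84, 4, 450), (v80, 4, 50), (v26, 5, 83), (v28, 3, 498)]), (0, [(v26,
  5, 6), (v79, 5, 1), (v61, 5, 2), (v77, 5, 1)], [(v44, 3, 830), (v54, 3, 1660), (v84, 4,
  7500), (v86, 5, 1743), (v11, 4, 1000)]), (474, [(v26, 5, 83), (v28, 3, 2490), (v84, 4, 3000),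
  (v61, 5, 166)], [(v80, 4, 750), (v13, 5, 1411), (v77, 5, 498), (v86, 5, 6972), (v60, 4,
  4250)]), (-100, [], [(v84, 4, 58000), (v35, 5, 830), (v26, 5, 16849), (v55, 5, 3569), (v39,
  5, 498)]), (-583, [(v87, 4, 125500), (v48, 4, 6500), (v20, 5, 18924), (v55, 5, 6806), (v83,
  5, 83)], [(v57, 5, 249), (v11, 4, 3000), (v84, 4, 2000), (v86, 5, 1826), (v54, 3, 5810)])]))
  (.node 2 250 (.leaf 18000 [(v87, 3, 89340), (v8, 2, 25018), (v37, 3, 1410), (v45, 5, 529),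
  (v12, 1, 9165)] [(-450, [(v68, 2, 220), (v35, 5, 9), (v33, 5, 7), (v49, 5, 40)], [(v75, 5,
  15), (v8, 2, 40), (v18, 2, 68), (v22, 1, 90)]), (-550, [(v79, 5, 1), (v77, 5, 1), (v61, 5,
  2), (v26, 5, 6)], [(v8, 2, 208), (v37, 3, 270), (v45, 5, 3), (v18, 2, 8)]), (250, [(v45, 5,
  4), (v37, 3, 60), (v8, 2, 58), (v87, 3, 240), (v12, 1, 165)], []), (-100, [], [(v55, 5, 17),
  (v42, 5, 3), (v2, 2, 52), (v75, 5, 17)]), (-130, [(v18, 2, 1512), (v45, 5, 10), (v88, 5, 90),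
  (v75, 5, 137), (v79, 5, 133)], [(v78, 2, 266), (v44, 2, 20), (v89, 3, 450), (v19, 5, 189),
  (v74, 2, 274)])]) (.node 0 (-450) (.node 1 (-266) (.far 0) (.leaf 2280000 [(v58, 5, 372552),
  (v27, 3, 5190800), (v72, 5, 132563), (v74, 3, 2674250), (v16, 1, 11280000)] [(-175, [(v43, 3,
  122360), (v35, 5, 77805), (v53, 5, 108129), (v49, 5, 38570), (v67, 1, 379500)], [(v58, 5,
  133), (v60, 3, 1330), (v16, 1, 2000)]), (-633, [(v85, 5, 53), (v83, 5, 12), (v75, 5, 61),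
  (v33, 5, 10)], [(v29, 5, 1330), (v16, 1, 30000), (v27, 3, 11970), (v35, 5, 399), (v74, 3,
  10640)]), (50, [(v29, 5, 133), (v27, 3, 1330), (v16, 1, 2000)], [(v90, 5, 1748), (v72, 5,
  2660), (v10, 5, 2261), (v88, 5, 1957), (v4, 1, 33500)]), (-100, [], [(v69, 1, 500), (v58, 5,
  399), (v16, 1, 1000)]), (-183, [(v87, 3, 1330), (v88, 5, 133), (v65, 1, 375), (v73, 1, 125)],
  [(v72, 5, 1463), (v12, 1, 20000), (v74, 3, 6650), (v59, 1, 18000)])])) (.leaf 126000 [(v56,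
  3, 185400), (v21, 0, 281640), (v12, 1, 197775), (v11, 0, 4810), (v42, 5, 9882)] [(-725,
  [(v43, 0, 1220), (v72, 5, 579), (v77, 5, 420), (v53, 5, 36), (v49, 5, 855)], [(v21, 0, 440),
  (v42, 5, 162), (v56, 3, 1800), (v11, 0, 1410), (v12, 1, 4275)]), (-550, [(v75, 5, 61), (v83,
  5, 12), (v33, 5, 10), (v85, 5, 53)], [(v44, 3, 9), (v38, 3, 159), (v7, 0, 32)]), (50, [(v5,
  0, 6), (v11, 0, 16), (v22, 1, 9), (v16, 1, 207)], [(v44, 3, 360), (v17, 0, 4240), (v63, 5,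
  63), (v10, 5, 522), (v85, 5, 405)]), (-100, [], [(v88, 5, 117), (v26, 5, 1053), (v45, 5, 36),
  (v5, 0, 820)]), (-240, [(v11, 0, 40), (v20, 5, 63), (v15, 0, 20)], [(v21, 0, 260), (v85, 5,
  117), (v54, 3, 390), (v44, 3, 30), (v7, 0, 105)])])))))) (.node 0 (-250) (.node 1 (-227)
  (.far 4) (.leaf 810390000 [(v58, 5, 273992859), (v76, 2, 137453040), (v82, 2, 49744780),
  (v11, 2, 1837937280), (v30, 1, 2100588000)] [(-50, [(v43, 2, 140740), (v23, 5, 290787), (v33,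
  5, 66738), (v57, 5, 108279), (v67, 1, 767250)], [(v34, 1, 1275), (v84, 2, 11350), (v88, 5,
  3405), (v76, 2, 2724), (v28, 1, 56925)]), (-614, [(v85, 5, 53), (v83, 5, 12), (v75, 5, 61),
  (v33, 5, 10)], [(v58, 5, 3405), (v30, 1, 112500), (v84, 2, 123715), (v76, 2, 12485), (v23, 5,
  5448)]), (-150, [], [(v13, 5, 9988), (v86, 5, 3859), (v85, 5, 1135), (v42, 5, 227), (v4, 1,
  18000)]), (425, [(v30, 1, 4000), (v11, 2, 4540), (v13, 5, 227)], [(v88, 5, 18), (v26, 5,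
  435), (v55, 5, 201), (v76, 2, 200)]), (0, [(v87, 2, 885300), (v73, 1, 65000), (v83, 5, 7945),
  (v55, 5, 41314), (v88, 5, 34277)], [(v30, 1, 416000), (v72, 5, 10215), (v86, 5, 21792), (v82,
  2, 72640), (v67, 1, 95000)])])) (.node 1 (-250) (.leaf 105000 [(v42, 5, 8931), (v27, 0,
  359940), (v20, 5, 25071), (v50, 2, 64100), (v10, 5, 27489)] [(-625, [(v43, 0, 5856), (v72, 5,
  1639), (v77, 5, 1025), (v53, 5, 96), (v81, 5, 1140)], [(v27, 0, 5640), (v83, 5, 42), (v22, 2,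
  1280), (v91, 2, 1100), (v42, 5, 267)]), (-75, [(v83, 5, 1), (v85, 5, 23), (v9, 5, 44), (v26,
  5, 28)], [(v36, 5, 81), (v50, 2, 40), (v42, 5, 9), (v91, 2, 80), (v27, 0, 864)]), (-200,
  [(v50, 2, 700), (v11, 0, 1308), (v22, 2, 420), (v15, 0, 444), (v75, 5, 63)], [(v27, 0, 370),
  (v23, 5, 11), (v63, 5, 12), (v42, 5, 15), (v85, 5, 63)]), (425, [(v10, 5, 9), (v27, 0, 48),
  (v12, 2, 20)], [(v88, 5, 13), (v26, 5, 117), (v45, 5, 4), (v5, 0, 164)]), (-46, [(v87, 2,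
  1300), (v15, 0, 468), (v20, 5, 273), (v83, 5, 12), (v88, 5, 15)], [(v86, 5, 21), (v85, 5,
  21), (v91, 2, 30), (v89, 2, 10), (v27, 0, 84)])]) (.leaf 2680 [(v76, 2, 1000), (v27, 0,
  3239), (v28, 1, 3953), (v30, 1, 4636), (v88, 5, 425)] [(-625, [(v43, 0, 732), (v72, 5, 193),
  (v77, 5, 140), (v53, 5, 12), (v49, 5, 285)], [(v34, 1, 93), (v27, 0, 150), (v88, 5, 150),
  (v76, 2, 160), (v28, 1, 2061)]), (-625, [(v85, 5, 53), (v83, 5, 12), (v75, 5, 61), (v33, 5,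
  10)], [(v62, 2, 8), (v58, 5, 9), (v76, 2, 12), (v30, 1, 54), (v27, 0, 30)]), (-200, [(v11, 0,
  2), (v15, 0, 1), (v16, 1, 7)], [(v51, 5, 63), (v72, 5, 13), (v86, 5, 271), (v88, 5, 44), (v4,
  1, 672)]), (425, [(v30, 1, 1), (v27, 0, 1)], [(v88, 5, 13), (v26, 5, 117), (v45, 5, 4), (v5,
  0, 164)]), (0, [(v15, 0, 14040), (v73, 1, 2860), (v83, 5, 745), (v55, 5, 364), (v88, 5,
  1292)], [(v28, 1, 1), (v30, 1, 1), (v86, 5, 1), (v21, 0, 4)])])))) (.node 1 (-250) (.node 0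
  (-312) (.far 4) (.leaf 12870000 [(v22, 2, 2091648), (v27, 0, 42597500), (v42, 5, 1519011),
  (v10, 5, 5734872), (v50, 2, 2417220)] [(-656, [(v43, 0, 7625), (v72, 5, 2509), (v77, 5,
  1820), (v53, 5, 156), (v49, 5, 3705)], [(v27, 0, 58750), (v83, 5, 546), (v22, 2, 9984), (v91,
  2, 8580), (v42, 5, 3471)]), (-75, [(v83, 5, 2), (v25, 5, 10), (v75, 5, 11), (v85, 5, 13)],
  [(v36, 5, 351), (v50, 2, 104), (v42, 5, 39), (v91, 2, 208), (v27, 0, 3000)]), (-625, [(v91,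
  2, 1248), (v11, 0, 3000), (v73, 2, 468), (v79, 5, 52), (v75, 5, 91)], [(v27, 0, 125), (v17,
  0, 250), (v10, 5, 78)]), (437, [(v10, 5, 117), (v27, 0, 500), (v12, 2, 156)], [(v88, 5, 75),
  (v26, 5, 224), (v45, 5, 42), (v91, 2, 164)]), (-62, [(v87, 2, 60), (v20, 5, 10), (v55, 5, 2),
  (v88, 5, 1)], [(v86, 5, 273), (v85, 5, 273), (v91, 2, 234), (v89, 2, 78), (v27, 0, 875)])]))
  (.leaf 10000 [(v30, 1, 30600), (v76, 2, 1184), (v58, 5, 2345), (v84, 2, 19596), (v23, 5,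
  702)] [(-425, [(v43, 2, 5856), (v72, 5, 1639), (v77, 5, 1025), (v53, 5, 96), (v81, 5, 1140)],
  [(v84, 2, 100), (v76, 2, 24), (v88, 5, 50), (v34, 1, 17), (v28, 1, 759)]), (-625, [(v85, 5,
  53), (v83, 5, 12), (v75, 5, 61), (v33, 5, 10)], [(v58, 5, 5), (v30, 1, 150), (v84, 2, 109),
  (v76, 2, 11), (v23, 5, 8)]), (-250, [], [(v90, 5, 15), (v72, 5, 19), (v36, 5, 15), (v58, 5,
  56), (v4, 1, 280)]), (425, [(v30, 1, 16), (v11, 2, 12), (v13, 5, 1)], [(v88, 5, 75), (v26, 5,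
  224), (v45, 5, 42), (v91, 2, 164)]), (0, [(v87, 2, 60), (v20, 5, 10), (v55, 5, 2), (v88, 5,
  1)], [(v30, 1, 10320), (v23, 5, 316), (v85, 5, 1575), (v82, 2, 1724), (v43, 2, 464)])])))
  (.node 1 (-150) (.node 4 (-166) (.far 13) (.leaf 6972000 [(v36, 5, 736542), (v57, 5, 80925),
  (v84, 4, 18942000), (v28, 3, 14931700), (v86, 5, 3340584)] [(-462, [(v86, 5, 996), (v72, 5,
  2075), (v77, 5, 1909), (v27, 4, 84000), (v49, 5, 4980)], [(v84, 4, 450), (v80, 4, 50), (v26,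
  5, 83), (v28, 3, 332)]), (-25, [(v85, 5, 53), (v83, 5, 12), (v75, 5, 61), (v33, 5, 10)],
  [(v44, 3, 1660), (v54, 3, 3320), (v84, 4, 22500), (v86, 5, 5229), (v11, 4, 3000)]), (462,
  [(v26, 5, 83), (v28, 3, 1660), (v84, 4, 3000), (v61, 5, 166)], [(v90, 5, 1660), (v72, 5,
  1494), (v58, 5, 4731), (v60, 4, 47500), (v85, 5, 19920)]), (-200, [(v89, 3, 996), (v77, 5,
  249), (v27, 4, 21750), (v54, 3, 11122)], [(v84, 4, 58000), (v35, 5, 830), (v26, 5, 16849),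
  (v55, 5, 3569), (v39, 5, 498)]), (-583, [(v87, 4, 125500), (v48, 4, 6500), (v20, 5, 18924),
  (v55, 5, 6806), (v83, 5, 83)], [(v57, 5, 747), (v11, 4, 9000), (v84, 4, 6000), (v86, 5,
  5478), (v54, 3, 11620)])])) (.node 2 100 (.leaf 22800 [(v0, 2, 154416), (v37, 3, 17228),
  (v87, 3, 59480), (v45, 5, 423), (v16, 1, 44360)] [(-425, [(v43, 3, 1220), (v72, 5, 193),
  (v77, 5, 140), (v53, 5, 12), (v49, 5, 285)], [(v55, 5, 153), (v2, 2, 2400), (v56, 3, 2900),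
  (v88, 5, 24), (v16, 1, 15200)]), (-575, [(v85, 5, 53), (v83, 5, 12), (v75, 5, 61), (v33, 5,
  10)], [(v0, 2, 9), (v37, 3, 2)]), (550, [(v45, 5, 3), (v37, 3, 92), (v0, 2, 264), (v87, 3,
  120), (v16, 1, 320)], [(v44, 3, 340), (v72, 5, 93), (v38, 3, 120), (v10, 5, 486), (v90, 5,
  141)]), (-150, [], [(v55, 5, 3), (v26, 5, 3), (v2, 2, 20), (v75, 5, 2)]), (-145, [(v87, 3,
  160), (v20, 5, 24), (v55, 5, 9), (v56, 3, 20)], [(v78, 2, 2640), (v35, 5, 126), (v54, 3,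
  10340), (v57, 5, 1467), (v43, 3, 1200)])]) (.node 0 (-425) (.node 1 (-416) (.far 0) (.leaf
  7800000 [(v35, 5, 627861), (v16, 1, 21103125), (v74, 3, 7827040), (v58, 5, 728520), (v27, 3,
  6231420)] [(-138, [(v3, 1, 4600), (v35, 5, 1612), (v53, 5, 572), (v49, 5, 104), (v67, 1,
  4025)], [(v58, 5, 39), (v60, 3, 260), (v16, 1, 375)]), (-708, [(v85, 5, 53), (v83, 5, 12),
  (v75, 5, 61), (v33, 5, 10)], [(v29, 5, 390), (v16, 1, 5625), (v27, 3, 2340), (v35, 5, 117),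
  (v74, 3, 2080)]), (-268, [(v29, 5, 39), (v27, 3, 260), (v16, 1, 375)], [(v51, 5, 819), (v72,
  5, 169), (v86, 5, 3523), (v88, 5, 572), (v4, 1, 5250)]), (-150, [], [(v69, 1, 125), (v58, 5,
  156), (v16, 1, 250)]), (-237, [(v65, 1, 5625), (v73, 1, 1875), (v88, 5, 2496), (v55, 5,
  1092), (v56, 3, 5200)], [(v12, 1, 3750), (v72, 5, 429), (v59, 1, 3375), (v74, 3, 1300)])]))
  (.leaf 85272000 [(v12, 1, 37377560), (v7, 0, 26017200), (v38, 3, 108530125), (v42, 5,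
  3090141), (v44, 3, 6657455)] [(-713, [(v43, 0, 58560), (v72, 5, 27863), (v77, 5, 17425),
  (v53, 5, 1632), (v81, 5, 19380)], [(v7, 0, 1025), (v42, 5, 357), (v56, 3, 13260), (v5, 0,
  1345), (v16, 1, 39100)]), (-575, [(v85, 5, 53), (v83, 5, 12), (v75, 5, 61), (v33, 5, 10)],
  [(v44, 3, 51), (v38, 3, 901), (v7, 0, 288)]), (-450, [(v11, 0, 48), (v22, 1, 17), (v5, 0,
  18), (v16, 1, 391)], [(v44, 3, 740), (v13, 5, 1452), (v63, 5, 198), (v42, 5, 15), (v85, 5,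
  1320)]), (-150, [], [(v88, 5, 221), (v26, 5, 1989), (v45, 5, 68), (v5, 0, 1640)]), (-260,
  [(v34, 1, 8500), (v15, 0, 119880), (v20, 5, 68391), (v83, 5, 5814), (v56, 3, 32300)], [(v21,
  0, 4680), (v85, 5, 1989), (v54, 3, 4420), (v44, 3, 340), (v7, 0, 1890)])]))))) (.node 4
  (-195) (.node 1 (-225) (.far 13) (.leaf 180000 [(v16, 1, 1386400), (v60, 3, 144420), (v58, 5,
  67491), (v72, 5, 11034), (v27, 3, 165360)] [(-425, [(v43, 3, 5856), (v72, 5, 1639), (v77, 5,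
  1025), (v53, 5, 96), (v81, 5, 1140)], [(v58, 5, 9), (v60, 3, 36), (v16, 1, 160)]), (-613,
  [(v85, 5, 53), (v83, 5, 12), (v75, 5, 61), (v33, 5, 10)], [(v29, 5, 30), (v16, 1, 800), (v27,
  3, 108), (v35, 5, 9), (v74, 3, 96)]), (76, [(v29, 5, 9), (v27, 3, 36), (v16, 1, 160)], [(v44,
  3, 148), (v13, 5, 484), (v63, 5, 66), (v42, 5, 5), (v85, 5, 440)]), (-625, [(v43, 3, 988),
  (v77, 5, 99), (v44, 3, 864), (v89, 3, 484)], [(v88, 5, 72), (v35, 5, 45), (v26, 5, 135),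
  (v55, 5, 144), (v16, 1, 4000)]), (0, [(v87, 3, 32), (v20, 5, 8), (v55, 5, 3), (v56, 3, 4)],
  [(v12, 1, 3520), (v35, 5, 210), (v57, 5, 69), (v43, 3, 144), (v54, 3, 1188)])])) (.leaf
  156000 [(v26, 5, 28119), (v84, 4, 456400), (v36, 5, 4056), (v86, 5, 115986), (v54, 3, 86892)]
  [(-425, [(v43, 3, 5856), (v72, 5, 1639), (v77, 5, 1025), (v53, 5, 96), (v81, 5, 1140)],
  [(v84, 4, 900), (v80, 4, 100), (v26, 5, 195), (v28, 3, 468)]), (-450, [(v85, 5, 53), (v83, 5,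
  12), (v75, 5, 61), (v33, 5, 10)], [(v44, 3, 65), (v89, 3, 39), (v84, 4, 1050), (v86, 5, 273),
  (v74, 3, 26)]), (0, [(v61, 5, 26), (v84, 4, 400), (v26, 5, 13), (v28, 3, 156)], [(v44, 3,
  148), (v13, 5, 484), (v63, 5, 66), (v42, 5, 5), (v85, 5, 440)]), (-625, [(v43, 3, 384), (v77,
  5, 39), (v74, 3, 356), (v54, 3, 928)], [(v88, 5, 312), (v35, 5, 195), (v26, 5, 8385), (v55,
  5, 624), (v15, 4, 20000)]), (-598, [(v87, 3, 32), (v20, 5, 8), (v55, 5, 3), (v56, 3, 4)],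
  [(v57, 5, 91), (v35, 5, 26), (v84, 4, 800), (v86, 5, 156), (v54, 3, 780)])])))))))

theorem t5_ok : treeOK dat t5 (rootIv dat 5) = true := by decide +kernel

end Pool.Agent.Y81.Proj.BlockFive
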