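import Mathlib
import Pool.Agent.Y81.BlockFive

/-! Certificate trees. -/

set_option maxRecDepth 100000

namespace Pool.Agent.Y81.Proj.BlockFive

def t6 : Tree dat :=
.node 4 (-250) (.node 0 250 (.node 3 (-150) (.node 1 60 (.node 4 137 (.leaf 78912000 [(v31, 1,
  228632450), (v33, 6, 1705239), (v53, 6, 6126640), (v6, 0, 12915264), (v69, 4, 49340000)]
  [(625, [(v23, 6, 206), (v64, 6, 33), (v77, 6, 63), (v81, 6, 101), (v27, 6, 504)], [(v32, 0,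
  411), (v56, 0, 2877), (v69, 4, 3875), (v22, 0, 274)]), (530, [(v20, 0, 1644), (v53, 6, 137),
  (v69, 4, 1000)], [(v18, 0, 52), (v82, 6, 6), (v27, 6, 9), (v74, 6, 7)]), (340, [(v50, 0,
  127684), (v43, 6, 11919), (v22, 0, 111792), (v15, 1, 1356300), (v69, 4, 88000)], [(v44, 6,
  30), (v86, 6, 517), (v17, 6, 858), (v42, 0, 172), (v77, 6, 55)]), (0, [(v43, 6, 96), (v77, 6,
  39), (v74, 6, 89), (v54, 6, 232)], [(v31, 1, 383600), (v20, 0, 9864), (v42, 0, 14796), (v69,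
  4, 42000), (v51, 6, 411)]), (568, [(v69, 4, 3000), (v40, 0, 4932), (v6, 0, 8631), (v31, 1,
  34250), (v15, 1, 34250)], [(v64, 6, 72), (v35, 6, 28), (v54, 6, 303), (v57, 6, 161), (v21, 6,
  360)])]) (.far 2)) (.node 4 372 (.leaf 1953000 [(v69, 4, 1431500), (v17, 6, 1077498), (v53,
  6, 48453), (v27, 6, 640305), (v48, 0, 524520)] [(564, [(v23, 6, 206), (v64, 6, 33), (v77, 6,
  63), (v81, 6, 101), (v27, 6, 504)], [(v26, 4, 375), (v56, 0, 1674), (v69, 4, 500), (v91, 4,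
  250)]), (-470, [(v6, 0, 4464), (v51, 6, 186), (v26, 4, 5750), (v69, 4, 7000), (v53, 6,
  2511)], [(v24, 4, 250), (v27, 6, 93)]), (372, [(v91, 4, 500), (v27, 6, 3069), (v56, 0, 3348),
  (v69, 4, 5500)], [(v74, 6, 1302), (v23, 6, 434), (v90, 6, 1457), (v36, 4, 6000), (v86, 6,
  6975)]), (0, [(v43, 6, 147), (v77, 6, 55), (v44, 6, 131), (v67, 6, 121)], [(v48, 0, 1674),
  (v17, 6, 5022), (v69, 4, 5125), (v91, 4, 125)]), (686, [(v48, 0, 4464), (v51, 6, 1581), (v40,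
  0, 23436), (v69, 4, 14000), (v27, 6, 3906)], [(v4, 6, 814), (v35, 6, 33), (v19, 6, 76), (v70,
  6, 760), (v27, 6, 133)])]) (.far 2))) (.leaf 90000 [(v41, 6, 11730), (v35, 6, 6567), (v65, 3,
  104000), (v26, 0, 40020), (v32, 0, 6696)] [(625, [(v23, 6, 206), (v64, 6, 33), (v77, 6, 63),
  (v81, 6, 101), (v27, 6, 504)], [(v16, 0, 144), (v65, 3, 50), (v2, 0, 48), (v52, 0, 9), (v56,
  0, 27)]), (0, [(v26, 0, 476), (v65, 3, 800), (v42, 0, 248), (v57, 6, 45), (v33, 6, 62)],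
  [(v18, 0, 52), (v82, 6, 6), (v27, 6, 9), (v74, 6, 7)]), (0, [(v7, 6, 21), (v87, 3, 410),
  (v52, 0, 88), (v65, 3, 190), (v50, 0, 14)], [(v44, 6, 66), (v72, 6, 161), (v48, 0, 96), (v42,
  0, 264), (v77, 6, 151)]), (-575, [(v43, 6, 96), (v77, 6, 39), (v74, 6, 89), (v54, 6, 232)],
  [(v32, 0, 3228), (v35, 6, 771), (v42, 0, 2520), (v65, 3, 20000), (v41, 6, 4290)]), (375,
  [(v2, 0, 3675), (v23, 6, 153), (v42, 0, 36), (v35, 6, 153), (v65, 3, 9860)], [(v64, 6, 72),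
  (v35, 6, 28), (v54, 6, 303), (v57, 6, 161), (v21, 6, 360)])])) (.node 0 150 (.node 4 60
  (.node 3 (-250) (.node 1 100 (.leaf 126000 [(v20, 0, 1540), (v16, 0, 37380), (v15, 1, 29960),
  (v19, 6, 1394), (v3, 6, 2195)] [(150, [(v23, 6, 206), (v64, 6, 33), (v77, 6, 63), (v81, 6,
  101), (v27, 6, 504)], []), (100, [(v20, 0, 14000), (v31, 1, 3150), (v33, 6, 69), (v19, 6,
  240), (v34, 0, 280)], []), (239, [(v50, 0, 4760), (v43, 6, 270), (v22, 0, 6800), (v5, 1,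
  16830), (v3, 6, 99)], [(v44, 6, 133), (v72, 6, 485), (v2, 0, 8360), (v85, 6, 4212), (v90, 6,
  1339)]), (0, [(v43, 6, 96), (v77, 6, 39), (v74, 6, 89), (v54, 6, 232)], [(v31, 1, 3), (v26,
  0, 2)]), (0, [(v22, 0, 2), (v6, 0, 9), (v15, 1, 3), (v31, 1, 30)], [])]) (.node 4 187 (.leaf
  47124000 [(v53, 6, 502469), (v48, 0, 24826120), (v69, 4, 59920000), (v27, 6, 12095347), (v17,
  6, 20496696)] [(200, [(v23, 6, 206), (v64, 6, 33), (v77, 6, 63), (v81, 6, 101), (v27, 6,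
  504)], [(v52, 4, 50), (v56, 0, 187), (v69, 4, 100)]), (-450, [(v20, 0, 3740), (v69, 4, 1000),
  (v53, 6, 187)], [(v18, 0, 260), (v82, 6, 18), (v27, 6, 27), (v74, 6, 21)]), (209, [(v91, 4,
  2000), (v27, 6, 6171), (v56, 0, 11220), (v69, 4, 22000)], [(v78, 6, 1122), (v23, 6, 1870),
  (v90, 6, 5797), (v36, 4, 36000), (v86, 6, 8415)]), (0, [(v43, 6, 96), (v77, 6, 39), (v74, 6,
  89), (v54, 6, 232)], [(v48, 0, 2805), (v17, 6, 5049), (v69, 4, 10250), (v91, 4, 250)]), (593,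
  [(v48, 0, 7480), (v17, 6, 4488), (v53, 6, 935), (v69, 4, 16000), (v27, 6, 1309)], [(v4, 6,
  814), (v35, 6, 33), (v19, 6, 76), (v70, 6, 760), (v27, 6, 133)])]) (.far 2))) (.leaf 228000
  [(v2, 0, 131100), (v35, 6, 9558), (v7, 6, 4149), (v26, 0, 95000), (v65, 3, 162336)] [(200,
  [(v23, 6, 206), (v64, 6, 33), (v77, 6, 63), (v81, 6, 101), (v27, 6, 504)], [(v2, 0, 100),
  (v26, 0, 65), (v34, 3, 15), (v71, 3, 3), (v87, 3, 156)]), (0, [(v26, 0, 40), (v65, 3, 13),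
  (v71, 3, 31), (v57, 6, 8)], [(v38, 3, 304), (v27, 6, 6), (v17, 6, 18), (v70, 6, 69), (v74, 6,
  9)]), (0, [(v7, 6, 21), (v87, 3, 192), (v52, 0, 160), (v65, 3, 114), (v73, 3, 6)], [(v44, 6,
  19), (v72, 6, 44), (v71, 3, 228), (v85, 6, 156), (v90, 6, 13)]), (-250, [], [(v32, 0, 5380),
  (v35, 6, 771), (v42, 0, 4200), (v65, 3, 12000), (v41, 6, 4290)]), (530, [(v2, 0, 160), (v71,
  3, 3), (v35, 6, 6), (v65, 3, 153)], [(v70, 6, 66), (v35, 6, 27), (v54, 6, 167), (v86, 6, 54),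
  (v19, 6, 40)])])) (.node 3 (-119) (.far 2) (.leaf 101745000 [(v32, 0, 13204240), (v7, 6,
  3448263), (v65, 3, 71877000), (v41, 6, 12107655), (v35, 6, 61404)] [(150, [(v23, 6, 206),
  (v64, 6, 33), (v77, 6, 63), (v81, 6, 101), (v27, 6, 504)], []), (0, [(v20, 0, 1696940), (v65,
  3, 279000), (v23, 6, 2856), (v57, 6, 41055), (v33, 6, 4284)], [(v18, 0, 260), (v82, 6, 18),
  (v27, 6, 27), (v74, 6, 21)]), (527, [(v7, 6, 7497), (v87, 3, 184500), (v52, 0, 52360), (v65,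
  3, 85500), (v50, 0, 8330)], [(v44, 6, 66), (v72, 6, 161), (v48, 0, 160), (v42, 0, 440), (v77,
  6, 151)]), (-119, [], [(v35, 6, 2142), (v65, 3, 57000), (v26, 0, 56525), (v32, 0, 11305),
  (v7, 6, 1428)]), (0, [(v2, 0, 42875), (v23, 6, 1071), (v42, 0, 420), (v35, 6, 1071), (v65, 3,
  87000)], [(v70, 6, 66), (v35, 6, 27), (v54, 6, 167), (v86, 6, 54), (v19, 6, 40)])]))) (.node
  4 (-150) (.node 0 100 (.node 1 250 (.leaf 56000 [(v3, 6, 815), (v20, 0, 1680), (v5, 1, 364),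
  (v19, 6, 1448), (v16, 0, 36960)] [(125, [(v23, 6, 206), (v64, 6, 33), (v77, 6, 63), (v81, 6,
  101), (v27, 6, 504)], [(v76, 1, 92), (v26, 0, 2135), (v31, 1, 192), (v34, 0, 555), (v18, 1,
  488)]), (250, [(v20, 0, 7000), (v31, 1, 420), (v33, 6, 23), (v19, 6, 80), (v34, 0, 140)],
  []), (257, [(v76, 1, 20), (v67, 6, 1), (v84, 1, 240), (v3, 6, 14), (v16, 0, 1200)], [(v66, 1,
  3192), (v72, 6, 124), (v90, 6, 788), (v85, 6, 3015), (v78, 6, 209)]), (0, [(v43, 6, 96),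
  (v77, 6, 39), (v74, 6, 89), (v54, 6, 232)], [(v26, 0, 5), (v31, 1, 2)]), (-150, [(v6, 0, 5),
  (v20, 0, 10), (v15, 1, 4)], [])]) (.node 3 (-100) (.node 4 212 (.leaf 1908000 [(v27, 6,
  487865), (v48, 0, 1739460), (v69, 4, 2386000), (v17, 6, 808356), (v53, 6, 44467)] [(125,
  [(v23, 6, 206), (v64, 6, 33), (v77, 6, 63), (v81, 6, 101), (v27, 6, 504)], [(v91, 4, 50),
  (v26, 4, 75), (v56, 0, 477), (v69, 4, 100)]), (-375, [(v6, 0, 6360), (v51, 6, 106), (v26, 4,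
  5750), (v69, 4, 7000), (v53, 6, 1431)], [(v24, 4, 250), (v27, 6, 53)]), (231, [(v91, 4, 500),
  (v27, 6, 1749), (v56, 0, 4770), (v69, 4, 5500)], [(v64, 6, 53), (v90, 6, 53), (v36, 4,
  250)]), (0, [(v43, 6, 147), (v77, 6, 55), (v44, 6, 131), (v67, 6, 121)], [(v48, 0, 2385),
  (v17, 6, 2862), (v69, 4, 5125), (v91, 4, 125)]), (606, [(v48, 0, 3180), (v17, 6, 1272), (v53,
  6, 265), (v69, 4, 4000), (v27, 6, 371)], [(v4, 6, 814), (v35, 6, 33), (v19, 6, 76), (v70, 6,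
  760), (v27, 6, 133)])]) (.far 2)) (.node 4 425 (.leaf 128520 [(v17, 6, 65943), (v48, 0,
  23715), (v69, 4, 25420), (v91, 4, 13220)] [(125, [(v23, 6, 206), (v64, 6, 33), (v77, 6, 63),
  (v81, 6, 101), (v27, 6, 504)], [(v91, 4, 8), (v26, 4, 12), (v56, 0, 153), (v69, 4, 16)]),
  (-375, [(v26, 4, 160), (v71, 3, 255), (v53, 6, 68), (v69, 4, 140)], [(v24, 4, 40), (v27, 6,
  17)]), (0, [(v91, 4, 160), (v69, 4, 20), (v27, 6, 102), (v65, 3, 765)], [(v74, 6, 1190),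
  (v72, 6, 1241), (v90, 6, 1819), (v36, 4, 8760), (v4, 6, 2142)]), (-550, [(v43, 6, 11), (v77,
  6, 9), (v74, 6, 54), (v89, 6, 29)], [(v17, 6, 918), (v69, 4, 820), (v48, 0, 765), (v91, 4,
  20)]), (0, [(v91, 4, 320), (v48, 0, 12240), (v69, 4, 6820), (v17, 6, 10404), (v65, 3,
  16065)], [])]) (.node 2 100 (.leaf 32200 [(v87, 3, 20523), (v52, 0, 31416), (v65, 3, 31222),
  (v7, 6, 2464), (v88, 2, 14041)] [(100, [(v23, 6, 206), (v64, 6, 33), (v77, 6, 63), (v81, 6,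
  101), (v27, 6, 504)], []), (-375, [(v26, 0, 19370), (v65, 3, 5460), (v83, 2, 4630), (v88, 2,
  1400), (v19, 6, 1443)], [(v80, 2, 130), (v82, 6, 18), (v27, 6, 14), (v74, 6, 21)]), (550,
  [(v7, 6, 21), (v65, 3, 285), (v50, 0, 35), (v87, 3, 615), (v52, 0, 220)], [(v40, 0, 1125),
  (v23, 6, 1253), (v83, 2, 920), (v42, 0, 695), (v4, 6, 1140)]), (-550, [(v43, 6, 96), (v77, 6,
  39), (v74, 6, 89), (v54, 6, 232)], [(v88, 2, 40), (v41, 6, 3), (v49, 6, 1), (v16, 0, 180)]),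
  (137, [(v87, 3, 56), (v66, 2, 39), (v20, 0, 40), (v52, 0, 8), (v65, 3, 33)], [(v4, 6, 814),
  (v35, 6, 33), (v19, 6, 76), (v70, 6, 760), (v27, 6, 133)])]) (.node 3 (-416) (.far 2) (.leaf
  29640000 [(v35, 6, 878852), (v7, 6, 446511), (v2, 0, 24811150), (v57, 6, 202540), (v65, 3,
  5396000)] [(125, [(v23, 6, 206), (v64, 6, 33), (v77, 6, 63), (v81, 6, 101), (v27, 6, 504)],
  [(v65, 3, 12375), (v32, 0, 37752), (v56, 3, 8500), (v42, 0, 12480), (v34, 3, 4025)]), (-375,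
  [(v26, 0, 12480), (v65, 3, 1625), (v71, 3, 3875), (v57, 6, 1664)], [(v38, 3, 4625), (v27, 6,
  234), (v23, 6, 78), (v70, 6, 1716), (v74, 6, 234)]), (-218, [(v52, 0, 1040), (v65, 3, 125),
  (v87, 3, 1375), (v41, 6, 364)], [(v64, 6, 156), (v17, 6, 5824), (v71, 3, 1875), (v86, 6,
  5824), (v4, 6, 832)]), (-416, [], [(v32, 0, 3770), (v35, 6, 416), (v26, 0, 13650), (v65, 3,
  3125), (v41, 6, 1040)]), (206, [(v2, 0, 16640), (v71, 3, 125), (v35, 6, 416), (v65, 3,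
  6375)], [(v4, 6, 814), (v35, 6, 33), (v19, 6, 76), (v70, 6, 760), (v27, 6, 133)])]))))))
  (.node 4 (-100) (.node 3 250 (.node 4 60 (.node 0 (-250) (.node 1 100 (.leaf 110000 [(v26, 3,
  14972), (v33, 6, 5813), (v69, 3, 9240), (v80, 1, 47100), (v75, 3, 51584)] [(0, [(v23, 6,
  206), (v64, 6, 33), (v77, 6, 63), (v81, 6, 101), (v27, 6, 504)], [(v69, 3, 44), (v80, 1, 40),
  (v67, 6, 3)]), (550, [(v80, 1, 65), (v33, 6, 3), (v75, 3, 286), (v77, 6, 17)], [(v78, 6, 1),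
  (v21, 6, 18), (v76, 3, 12), (v74, 6, 10)]), (78, [(v69, 3, 44), (v84, 1, 330), (v80, 1, 10),
  (v67, 6, 9)], [(v90, 6, 66), (v72, 6, 10), (v85, 6, 241), (v88, 3, 152), (v78, 6, 19)]),
  (250, [(v43, 6, 96), (v77, 6, 39), (v74, 6, 89), (v54, 6, 232)], []), (530, [(v45, 3, 880),
  (v26, 3, 708), (v80, 1, 3600), (v75, 3, 2176), (v33, 6, 207)], [(v4, 6, 814), (v35, 6, 33),
  (v19, 6, 76), (v70, 6, 760), (v27, 6, 133)])]) (.node 4 162 (.leaf 21384000 [(v53, 6,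
  434079), (v31, 3, 14829156), (v68, 6, 3100518), (v16, 4, 64856000), (v88, 3, 787320)] [(100,
  [], [(v66, 3, 324), (v68, 6, 81), (v16, 4, 4000)]), (-450, [(v42, 3, 168), (v88, 3, 60),
  (v90, 6, 297), (v75, 3, 1512), (v16, 4, 7000)], [(v78, 6, 1), (v21, 6, 18), (v76, 3, 12),
  (v74, 6, 10)]), (0, [(v27, 6, 81), (v31, 3, 324), (v16, 4, 2000)], [(v90, 6, 66), (v72, 6,
  10), (v85, 6, 241), (v88, 3, 152), (v78, 6, 19)]), (250, [(v43, 6, 11), (v77, 6, 9), (v74, 6,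
  54), (v89, 6, 29)], []), (581, [(v27, 6, 324), (v66, 3, 2268), (v68, 6, 81), (v16, 4, 16000),
  (v53, 6, 324)], [(v4, 6, 814), (v35, 6, 33), (v19, 6, 76), (v70, 6, 760), (v27, 6, 133)])])
  (.far 2))) (.leaf 2100 [(v32, 3, 750), (v2, 3, 786), (v44, 6, 181), (v47, 0, 422), (v9, 0,
  5202)] [(-625, [(v23, 6, 206), (v64, 6, 33), (v77, 6, 63), (v81, 6, 101), (v27, 6, 504)],
  [(v9, 0, 1120), (v54, 6, 49), (v2, 3, 240), (v44, 6, 14), (v32, 3, 156)]), (0, [(v26, 3, 32),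
  (v9, 0, 32), (v75, 3, 4), (v77, 6, 1)], [(v32, 3, 52), (v82, 6, 5), (v27, 6, 53), (v74, 6,
  21)]), (0, [(v37, 0, 2), (v52, 3, 5), (v1, 0, 14)], [(v66, 3, 292), (v74, 6, 33), (v90, 6,
  64), (v86, 6, 584), (v4, 6, 74)]), (250, [(v43, 6, 11), (v77, 6, 9), (v74, 6, 54), (v89, 6,
  29)], []), (530, [(v32, 3, 24), (v74, 6, 14), (v44, 6, 91), (v2, 3, 738), (v47, 0, 1036)],
  [(v4, 6, 814), (v35, 6, 33), (v19, 6, 76), (v70, 6, 760), (v27, 6, 133)])])) (.node 0 (-127)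
  (.far 2) (.leaf 49530000 [(v4, 6, 1817370), (v9, 0, 73450000), (v32, 3, 4378452), (v44, 6,
  15748), (v54, 6, 1639443)] [(-127, [], [(v9, 0, 308000), (v2, 3, 33528), (v52, 3, 37338),
  (v32, 3, 6858), (v44, 6, 4445)]), (368, [(v26, 3, 33020), (v9, 0, 52000), (v33, 6, 381),
  (v77, 6, 508)], [(v32, 3, 52), (v82, 6, 5), (v27, 6, 53), (v74, 6, 21)]), (127, [(v91, 3,
  44704), (v27, 6, 9017), (v32, 3, 24384), (v1, 0, 822000), (v44, 6, 1524)], [(v90, 6, 66),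
  (v72, 6, 10), (v85, 6, 241), (v88, 3, 152), (v78, 6, 19)]), (250, [(v43, 6, 96), (v77, 6,
  39), (v74, 6, 89), (v54, 6, 232)], []), (0, [(v74, 6, 2667), (v2, 3, 41910), (v44, 6, 889),
  (v32, 3, 4572), (v9, 0, 259000)], [(v4, 6, 814), (v35, 6, 33), (v19, 6, 76), (v70, 6, 760),
  (v27, 6, 133)])]))) (.node 3 150 (.node 4 450 (.leaf 47520 [(v31, 3, 25260), (v68, 6, 3294),
  (v53, 6, 3339), (v16, 4, 49280), (v88, 3, 9000)] [(100, [], [(v66, 3, 60), (v68, 6, 9), (v16,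
  4, 160)]), (0, [(v26, 4, 320), (v55, 3, 180), (v53, 6, 99), (v16, 4, 480)], [(v24, 4, 20),
  (v27, 6, 9)]), (0, [(v27, 6, 9), (v31, 3, 60), (v16, 4, 80)], [(v90, 6, 31), (v23, 6, 10),
  (v36, 4, 80), (v78, 6, 6), (v86, 6, 45)]), (200, [(v43, 6, 11), (v77, 6, 9), (v74, 6, 54),
  (v89, 6, 29)], [(v52, 4, 1), (v26, 4, 4), (v55, 3, 9)]), (450, [(v27, 6, 567), (v66, 3,
  3720), (v90, 6, 234), (v16, 4, 7040), (v55, 3, 900)], [])]) (.node 2 100 (.leaf 4200 [(v91,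
  3, 1088), (v89, 6, 75), (v71, 2, 1602), (v40, 2, 6066)] [(-450, [(v23, 6, 206), (v64, 6, 33),
  (v77, 6, 63), (v81, 6, 101), (v27, 6, 504)], [(v71, 2, 3), (v40, 2, 30), (v91, 3, 4)]), (182,
  [(v83, 2, 780), (v33, 6, 12), (v75, 3, 4940), (v77, 6, 159)], [(v78, 6, 1), (v21, 6, 18),
  (v76, 3, 20), (v74, 6, 10)]), (100, [(v91, 3, 7590), (v43, 6, 497), (v71, 2, 10395), (v45, 3,
  1470), (v89, 6, 110)], []), (150, [(v43, 6, 147), (v77, 6, 55), (v44, 6, 131), (v67, 6,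
  121)], []), (-100, [(v5, 3, 12), (v40, 2, 24), (v69, 3, 2), (v71, 2, 15)], [])]) (.node 0
  (-556) (.node 0 (-112) (.far 2) (.leaf 3120000 [(v52, 3, 465920), (v9, 0, 7117500), (v2, 3,
  1428180), (v4, 6, 18807), (v44, 6, 66552)] [(-112, [], [(v9, 0, 550), (v2, 3, 88), (v52, 3,
  98), (v32, 3, 18), (v44, 6, 7)]), (173, [(v75, 3, 140), (v9, 0, 1500), (v77, 6, 21), (v26, 3,
  1120)], [(v32, 3, 260), (v82, 6, 15), (v27, 6, 159), (v74, 6, 63)]), (0, [(v91, 3, 19600),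
  (v27, 6, 3549), (v32, 3, 5460), (v9, 0, 102750), (v44, 6, 924)], [(v90, 6, 198), (v72, 6,
  30), (v85, 6, 723), (v88, 3, 760), (v78, 6, 57)]), (150, [(v43, 6, 96), (v77, 6, 39), (v74,
  6, 89), (v54, 6, 232)], []), (228, [(v74, 6, 28), (v2, 3, 2460), (v44, 6, 182), (v32, 3, 80),
  (v47, 0, 4625)], [(v4, 6, 814), (v35, 6, 33), (v19, 6, 76), (v70, 6, 760), (v27, 6, 133)])]))
  (.leaf 61924500 [(v52, 3, 3368665), (v47, 0, 12907125), (v2, 3, 37425750), (v26, 3,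
  26916655), (v44, 6, 4737537)] [(-556, [], [(v52, 3, 63662), (v26, 3, 11954), (v2, 3, 26688),
  (v47, 0, 19800), (v44, 6, 6255)]), (62, [(v42, 3, 15290), (v26, 3, 61160), (v47, 0, 38625),
  (v85, 6, 9174), (v14, 6, 32526)], [(v46, 6, 973), (v15, 0, 2250), (v11, 0, 2750)]), (-450,
  [(v54, 6, 10703), (v52, 3, 30580), (v15, 0, 18000), (v47, 0, 8000)], [(v17, 6, 139), (v29, 0,
  375), (v86, 6, 139), (v4, 6, 139)]), (200, [(v43, 6, 96), (v77, 6, 39), (v74, 6, 89), (v54,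
  6, 232)], [(v2, 3, 278), (v26, 3, 3336), (v55, 0, 300), (v5, 0, 225)]), (175, [(v2, 3,
  61160), (v44, 6, 4587), (v15, 0, 1500), (v47, 0, 21750)], [(v4, 6, 814), (v35, 6, 33), (v19,
  6, 76), (v70, 6, 760), (v27, 6, 133)])])))) (.node 3 100 (.node 2 250 (.leaf 142560 [(v89, 6,
  2629), (v40, 2, 6048), (v6, 2, 864), (v43, 6, 595), (v76, 3, 10890)] [(0, [(v23, 6, 206),
  (v64, 6, 33), (v77, 6, 63), (v81, 6, 101), (v27, 6, 504)], [(v91, 3, 10), (v40, 2, 36), (v69,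
  3, 5)]), (0, [(v20, 2, 28), (v75, 3, 35), (v83, 2, 10), (v81, 6, 2)], [(v18, 2, 52), (v82, 6,
  6), (v27, 6, 9), (v74, 6, 7)]), (250, [(v91, 3, 11385), (v43, 6, 497), (v71, 2, 4158), (v45,
  3, 2205), (v89, 6, 110)], []), (100, [(v43, 6, 147), (v77, 6, 55), (v44, 6, 131), (v67, 6,
  121)], []), (-100, [(v5, 3, 30), (v40, 2, 16), (v69, 3, 5), (v71, 2, 10)], [])]) (.node 4 250
  (.node 0 (-450) (.leaf 5040 [(v88, 3, 3510), (v68, 6, 266), (v90, 6, 31), (v53, 6, 420),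
  (v16, 4, 9072)] [(100, [], [(v66, 3, 10), (v68, 6, 1), (v16, 4, 32)]), (0, [(v26, 4, 64),
  (v55, 3, 30), (v53, 6, 11), (v16, 4, 96)], [(v24, 4, 4), (v27, 6, 1)]), (-375, [(v27, 6, 1),
  (v31, 3, 10), (v16, 4, 16)], [(v44, 6, 133), (v72, 6, 188), (v36, 4, 2508), (v85, 6, 252),
  (v90, 6, 382)]), (100, [(v43, 6, 11), (v77, 6, 9), (v74, 6, 54), (v89, 6, 29)], []), (625,
  [(v27, 6, 63), (v66, 3, 620), (v90, 6, 26), (v16, 4, 1408), (v55, 3, 150)], [(v70, 6, 66),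
  (v35, 6, 27), (v54, 6, 167), (v86, 6, 54), (v19, 6, 40)])]) (.leaf 1260 [(v50, 4, 123), (v74,
  6, 189), (v26, 4, 987), (v31, 0, 35), (v47, 0, 95)] [(-450, [], [(v50, 4, 96), (v31, 0, 70),
  (v74, 6, 63), (v47, 0, 40), (v26, 4, 294)]), (0, [(v77, 6, 9), (v26, 4, 504), (v9, 0, 320),
  (v85, 6, 27)], [(v52, 4, 504), (v11, 0, 1600), (v15, 0, 240), (v78, 6, 105), (v74, 6, 105)]),
  (-375, [(v11, 0, 5), (v15, 0, 20), (v12, 4, 63)], [(v44, 6, 133), (v72, 6, 188), (v36, 4,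
  2508), (v85, 6, 252), (v90, 6, 382)]), (125, [(v43, 6, 11), (v77, 6, 9), (v74, 6, 54), (v89,
  6, 29)], [(v55, 0, 5), (v26, 4, 12), (v52, 4, 3)]), (0, [(v47, 0, 300), (v15, 0, 290), (v74,
  6, 297), (v16, 4, 990), (v26, 4, 1584)], [])])) (.node 0 (-199) (.far 2) (.leaf 465660000
  [(v32, 3, 120217890), (v54, 6, 2837939), (v47, 0, 162760000), (v4, 6, 19414440), (v44, 6,
  10014874)] [(-199, [], [(v26, 3, 8557), (v2, 3, 19104), (v52, 3, 45571), (v47, 0, 26400),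
  (v44, 6, 2985)]), (156, [(v47, 0, 176000), (v26, 3, 481580), (v4, 6, 28656), (v85, 6, 32835),
  (v77, 6, 1393)], [(v78, 6, 23681), (v44, 6, 10547), (v15, 0, 756000), (v89, 6, 19701), (v74,
  6, 35422)]), (0, [(v54, 6, 15323), (v15, 0, 72000), (v47, 0, 32000), (v52, 3, 65670)], [(v90,
  6, 66), (v72, 6, 10), (v85, 6, 241), (v88, 3, 380), (v78, 6, 19)]), (100, [(v43, 6, 96),
  (v77, 6, 39), (v74, 6, 89), (v54, 6, 232)], []), (75, [(v2, 3, 43780), (v44, 6, 2189), (v15,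
  0, 2000), (v47, 0, 29000)], [(v4, 6, 814), (v35, 6, 33), (v19, 6, 76), (v70, 6, 760), (v27,
  6, 133)])])))) (.node 0 60 (.node 2 (-150) (.node 4 (-60) (.node 3 (-450) (.node 4 150 (.node
  2 150 (.leaf 15120 [(v88, 2, 3980), (v91, 4, 800), (v43, 6, 483), (v16, 4, 25200), (v69, 4,
  4900)] [(100, [], [(v91, 4, 16), (v71, 2, 18), (v80, 2, 5), (v16, 4, 30)]), (0, [(v69, 4,
  3640), (v88, 2, 560), (v83, 2, 3100), (v26, 4, 2340), (v19, 6, 1053)], [(v80, 2, 260), (v82,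
  6, 54), (v27, 6, 42), (v74, 6, 63)]), (575, [(v91, 4, 620), (v43, 6, 63), (v71, 2, 630),
  (v88, 2, 120), (v69, 4, 490)], [(v44, 6, 19), (v72, 6, 20), (v66, 2, 380), (v85, 6, 216),
  (v90, 6, 37)]), (-175, [(v43, 6, 96), (v77, 6, 39), (v74, 6, 89), (v54, 6, 232)], [(v88, 2,
  9), (v69, 4, 14), (v91, 4, 1)]), (0, [(v43, 6, 93), (v66, 2, 1500), (v48, 2, 460), (v69, 4,
  1860), (v83, 2, 360)], [])]) (.node 1 (-60) (.node 4 226 (.node 5 (-88) (.far 4) (.leaf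
  268488000 [(v53, 6, 44112827), (v56, 5, 61994625), (v51, 6, 2108128), (v26, 4, 547272000),
  (v84, 5, 1130226000)] [(80, [(v23, 6, 206), (v64, 6, 33), (v77, 6, 63), (v81, 6, 101), (v27,
  6, 504)], [(v91, 4, 88), (v26, 4, 132), (v56, 5, 1017), (v69, 4, 176)]), (437, [(v26, 4,
  9900), (v87, 5, 16950), (v53, 6, 1243), (v69, 4, 2200)], [(v24, 4, 500), (v27, 6, 113)]), (0,
  [(v91, 4, 38500), (v43, 6, 3729), (v87, 5, 847500), (v84, 5, 84750), (v69, 4, 60500)], [(v64,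
  6, 113), (v90, 6, 113), (v36, 4, 500)]), (-175, [(v43, 6, 147), (v77, 6, 55), (v44, 6, 131),
  (v67, 6, 121)], [(v84, 5, 42375), (v26, 4, 22000), (v17, 6, 7458), (v69, 4, 5500)]), (613,
  [(v26, 4, 770000), (v51, 6, 39776), (v80, 5, 14125), (v87, 5, 3390000), (v84, 5, 974625)],
  [(v4, 6, 814), (v35, 6, 33), (v19, 6, 76), (v70, 6, 760), (v27, 6, 133)])])) (.far 10))
  (.node 4 412 (.leaf 10815000 [(v91, 4, 1216875), (v48, 0, 8654575), (v17, 6, 5141451), (v52,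
  4, 1407000), (v79, 1, 5580025)] [(80, [(v23, 6, 206), (v64, 6, 33), (v77, 6, 63), (v81, 6,
  101), (v27, 6, 504)], [(v91, 4, 10), (v26, 4, 15), (v56, 0, 309), (v69, 4, 20)]), (-530,
  [(v26, 4, 1000), (v71, 1, 2575), (v53, 6, 412), (v69, 4, 875)], [(v24, 4, 250), (v27, 6,
  103)]), (0, [(v91, 4, 1500), (v27, 6, 927), (v65, 1, 9785), (v79, 1, 515), (v16, 4, 750)],
  [(v74, 6, 7210), (v72, 6, 7519), (v90, 6, 11021), (v36, 4, 54750), (v4, 6, 12978)]), (-175,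
  [(v43, 6, 11), (v77, 6, 9), (v74, 6, 54), (v89, 6, 29)], [(v52, 4, 2375), (v17, 6, 5562),
  (v26, 4, 4625), (v79, 1, 5150), (v91, 4, 750)]), (706, [(v26, 4, 8125), (v17, 6, 16068),
  (v48, 0, 46350), (v79, 1, 41200), (v52, 4, 10375)], [(v4, 6, 814), (v35, 6, 33), (v19, 6,
  76), (v70, 6, 760), (v27, 6, 133)])]) (.far 2)))) (.node 2 254 (.leaf 233172000 [(v3, 6,
  7394067), (v16, 0, 590378550), (v88, 2, 15368000), (v43, 6, 1738376), (v22, 0, 8096250)]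
  [(80, [(v23, 6, 206), (v64, 6, 33), (v77, 6, 63), (v81, 6, 101), (v27, 6, 504)], [(v66, 2,
  567), (v48, 2, 438), (v83, 2, 84), (v50, 0, 3937)]), (144, [(v42, 2, 55250), (v88, 2,
  203750), (v83, 2, 335250), (v19, 6, 252603), (v16, 0, 7429500)], [(v80, 2, 6500), (v82, 6,
  2286), (v27, 6, 1778), (v74, 6, 2667)]), (254, [(v7, 6, 2286), (v43, 6, 635), (v22, 0,
  76200), (v88, 2, 8000), (v49, 6, 381)], []), (100, [], [(v88, 2, 1400), (v16, 0, 17780),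
  (v50, 0, 1270), (v49, 6, 127)]), (45, [(v43, 6, 21463), (v88, 2, 722500), (v22, 0, 2806700),
  (v3, 6, 74295), (v83, 2, 25500)], [(v64, 6, 72), (v35, 6, 28), (v54, 6, 303), (v57, 6, 161),
  (v21, 6, 360)])]) (.far 10))) (.node 4 100 (.leaf 5040 [(v56, 3, 100), (v26, 4, 2520), (v91,
  4, 3060), (v65, 3, 1160), (v35, 6, 189)] [(100, [], [(v52, 4, 3), (v56, 3, 2), (v69, 4, 6)]),
  (0, [(v69, 4, 135), (v65, 3, 10), (v71, 3, 100), (v57, 6, 36)], [(v38, 3, 1480), (v27, 6,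
  81), (v23, 6, 27), (v70, 6, 594), (v74, 6, 81)]), (425, [(v91, 4, 720), (v7, 6, 63), (v87, 3,
  800), (v65, 3, 190), (v73, 3, 10)], [(v64, 6, 9), (v17, 6, 336), (v71, 3, 100), (v86, 6,
  336), (v4, 6, 48)]), (-450, [], [(v40, 3, 1080), (v35, 6, 171), (v26, 4, 4170), (v65, 3,
  680), (v91, 4, 1740)]), (0, [(v52, 4, 26), (v35, 6, 3), (v71, 3, 12), (v69, 4, 34), (v87, 3,
  72)], [])]) (.leaf 118800 [(v57, 6, 2977), (v35, 6, 4571), (v52, 0, 261800), (v42, 0, 4100),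
  (v65, 3, 38720)] [(80, [(v23, 6, 206), (v64, 6, 33), (v77, 6, 63), (v81, 6, 101), (v27, 6,
  504)], [(v52, 0, 55), (v26, 0, 40), (v56, 3, 6), (v65, 3, 4)]), (0, [(v26, 0, 900), (v65, 3,
  65), (v71, 3, 155), (v57, 6, 72)], [(v23, 6, 27), (v38, 3, 1480), (v27, 6, 81), (v70, 6,
  594), (v74, 6, 81)]), (425, [(v52, 0, 300), (v41, 6, 63), (v87, 3, 220), (v65, 3, 20)],
  [(v44, 6, 57), (v72, 6, 132), (v71, 3, 380), (v85, 6, 468), (v90, 6, 39)]), (-450, [], [(v32,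
  0, 40350), (v35, 6, 2313), (v42, 0, 31500), (v65, 3, 20000), (v41, 6, 12870)]), (20, [(v2, 0,
  1200), (v71, 3, 5), (v35, 6, 18), (v65, 3, 255)], [(v70, 6, 66), (v35, 6, 27), (v54, 6, 167),
  (v86, 6, 54), (v19, 6, 40)])]))) (.node 2 62 (.node 3 (-159) (.far 2) (.leaf 7155000 [(v41,
  6, 1217781), (v52, 0, 10252850), (v65, 3, 2706000), (v55, 4, 7453125), (v26, 0, 3364175)]
  [(80, [(v23, 6, 206), (v64, 6, 33), (v77, 6, 63), (v81, 6, 101), (v27, 6, 504)], [(v2, 2,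
  1113), (v73, 3, 93), (v65, 3, 155)]), (0, [(v26, 0, 7950), (v65, 3, 1625), (v71, 3, 3875),
  (v57, 6, 636)], [(v72, 6, 689), (v56, 3, 88000), (v27, 6, 848), (v70, 6, 17172), (v74, 6,
  4823)]), (531, [(v41, 6, 159), (v87, 3, 1000), (v31, 4, 37100), (v73, 3, 4000), (v70, 6,
  795)], [(v44, 6, 1007), (v72, 6, 2332), (v71, 3, 19000), (v85, 6, 8268), (v90, 6, 689)]),
  (-580, [(v43, 6, 147), (v77, 6, 55), (v44, 6, 131), (v67, 6, 121)], [(v55, 4, 3), (v26, 0,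
  4), (v52, 0, 1)]), (-80, [(v2, 2, 318), (v65, 3, 310), (v66, 2, 477)], [(v70, 6, 66), (v35,
  6, 27), (v54, 6, 167), (v86, 6, 54), (v19, 6, 40)])])) (.far 10))) (.node 1 662 (.far 4)
  (.node 4 94 (.leaf 8883000 [(v15, 2, 4494140), (v48, 0, 111625), (v51, 6, 241392), (v26, 4,
  16107000), (v40, 0, 1735475)] [(60, [(v23, 6, 206), (v64, 6, 33), (v77, 6, 63), (v81, 6,
  101), (v27, 6, 504)], []), (0, [(v26, 4, 18000), (v79, 2, 1880), (v75, 2, 4700), (v77, 6,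
  423)], [(v78, 6, 1), (v21, 6, 18), (v76, 2, 20), (v74, 6, 10)]), (-150, [], [(v86, 6, 10011),
  (v51, 6, 1175), (v68, 6, 2632), (v36, 4, 36000), (v77, 6, 705)]), (-450, [(v43, 6, 147),
  (v77, 6, 55), (v44, 6, 131), (v67, 6, 121)], [(v17, 6, 141), (v26, 4, 3000), (v15, 2, 940)]),
  (94, [(v48, 0, 232650), (v17, 6, 10857), (v26, 4, 231000), (v15, 2, 32900), (v47, 2,
  109980)], [])]) (.far 10)))) (.node 4 (-60) (.node 2 (-250) (.node 2 (-150) (.node 0 (-470)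
  (.node 4 150 (.node 3 (-250) (.node 2 250 (.leaf 113400 [(v69, 4, 3500), (v43, 6, 1575),
  (v91, 4, 1420), (v88, 2, 1368), (v16, 4, 65520)] [(60, [], [(v71, 2, 9), (v50, 4, 40), (v80,
  2, 24), (v69, 4, 85)]), (0, [(v69, 4, 3640), (v88, 2, 336), (v83, 2, 1860), (v81, 6, 351)],
  [(v80, 2, 52), (v82, 6, 18), (v27, 6, 14), (v74, 6, 21)]), (250, [(v91, 4, 620), (v43, 6,
  63), (v71, 2, 378), (v88, 2, 72), (v69, 4, 490)], []), (100, [], [(v88, 2, 27), (v69, 4, 70),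
  (v91, 4, 5)]), (0, [(v43, 6, 3), (v66, 2, 32), (v40, 2, 92), (v69, 4, 60), (v83, 2, 4)],
  [])]) (.node 0 (-205) (.node 1 100 (.leaf 420 [(v69, 4, 60), (v53, 6, 7), (v16, 4, 40), (v80,
  1, 10)] [(0, [(v23, 6, 206), (v64, 6, 33), (v77, 6, 63), (v81, 6, 101), (v27, 6, 504)],
  [(v16, 4, 12), (v80, 1, 3), (v69, 4, 4)]), (100, [(v80, 1, 15), (v16, 4, 60), (v53, 6, 21),
  (v69, 4, 90), (v26, 4, 140)], []), (50, [(v91, 4, 20), (v43, 6, 27), (v84, 1, 1170), (v15, 1,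
  1380), (v16, 4, 5440)], [(v44, 6, 133), (v72, 6, 188), (v36, 4, 4180), (v85, 6, 252), (v90,
  6, 382)]), (0, [(v43, 6, 147), (v77, 6, 55), (v44, 6, 131), (v67, 6, 121)], [(v31, 1, 3),
  (v26, 4, 2)]), (0, [(v15, 1, 330), (v66, 1, 120), (v80, 1, 225), (v69, 4, 550), (v53, 6,
  66)], [])]) (.node 1 (-100) (.node 5 (-60) (.node 2 60 (.node 4 207 (.leaf 186300 [(v91, 4,
  4000), (v27, 6, 3726), (v71, 2, 15525), (v69, 4, 6500)] [(0, [(v23, 6, 206), (v64, 6, 33),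
  (v77, 6, 63), (v81, 6, 101), (v27, 6, 504)], [(v16, 4, 360), (v91, 4, 20), (v48, 2, 621),
  (v69, 4, 190)]), (0, [(v26, 4, 4000), (v71, 2, 5175), (v53, 6, 828), (v69, 4, 3500)], [(v24,
  4, 1000), (v27, 6, 207)]), (60, [(v91, 4, 4000), (v27, 6, 3726), (v71, 2, 15525), (v69, 4,
  6500)], []), (0, [(v43, 6, 11), (v77, 6, 9), (v74, 6, 54), (v89, 6, 29)], [(v88, 2, 621),
  (v69, 4, 280), (v91, 4, 20)]), (0, [(v27, 6, 828), (v66, 2, 4945), (v40, 2, 15640), (v69, 4,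
  2500), (v83, 2, 920)], [])]) (.far 2)) (.node 1 (-60) (.node 4 552 (.node 0 (-43) (.far 4)
  (.node 4 767 (.far 13) (.leaf 249228000 [(v52, 4, 1865125), (v26, 4, 6713375), (v68, 6,
  3572268), (v47, 0, 23598000), (v16, 4, 17866500)] [(-43, [], [(v31, 0, 1449000), (v68, 6,
  124614), (v47, 0, 414000), (v26, 4, 263375), (v50, 4, 118250)]), (20, [(v26, 4, 317125),
  (v47, 0, 414000), (v53, 6, 91977), (v16, 4, 258000)], [(v24, 4, 125), (v27, 6, 69)]), (0,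
  [(v27, 6, 2967), (v15, 0, 69000), (v16, 4, 26875)], [(v78, 6, 138), (v23, 6, 230), (v90, 6,
  713), (v36, 4, 1500), (v86, 6, 1035)]), (7, [(v43, 6, 11), (v77, 6, 9), (v74, 6, 54), (v89,
  6, 29)], [(v52, 4, 43), (v26, 4, 172), (v55, 0, 1656)]), (0, [(v68, 6, 195822), (v15, 0,
  2415000), (v47, 0, 1242000), (v26, 4, 473000), (v16, 4, 650375)], [])]))) (.node 0 (-119)
  (.far 6) (.node 3 83 (.far 2) (.node 4 338 (.leaf 1990989000 [(v15, 0, 158606500), (v47, 0,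
  30420000), (v26, 4, 161661500), (v68, 6, 78975897), (v16, 4, 853795250)] [(-119, [], [(v31,
  0, 1774500), (v68, 6, 422331), (v47, 0, 507000), (v26, 4, 1457750), (v50, 4, 654500)]), (20,
  [(v26, 4, 3510500), (v16, 4, 2856000), (v47, 0, 1014000), (v53, 6, 623441)], [(v24, 4, 500),
  (v27, 6, 169)]), (0, [(v27, 6, 20111), (v15, 0, 169000), (v16, 4, 297500)], [(v44, 6, 22477),
  (v72, 6, 31772), (v36, 4, 313500), (v85, 6, 42588), (v90, 6, 64558)]), (83, [], [(v55, 0,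
  1014), (v26, 4, 476), (v52, 4, 119)]), (0, [(v50, 4, 386750), (v68, 6, 422331), (v26, 4,
  1457750), (v31, 0, 1774500), (v47, 0, 1267500)], [])]) (.far 10))))) (.node 0 (-6) (.far 4)
  (.node 4 342 (.leaf 44118000 [(v17, 6, 10099431), (v52, 4, 12276500), (v79, 1, 13829625),
  (v71, 1, 29997675), (v27, 6, 1483425)] [(0, [], [(v52, 4, 4000), (v71, 1, 12825), (v27, 6,
  684), (v65, 1, 4275)]), (-60, [], [(v24, 4, 500), (v27, 6, 171)]), (0, [(v91, 4, 1000), (v65,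
  1, 5415), (v16, 4, 500), (v79, 1, 285), (v27, 6, 513)], [(v68, 6, 190), (v72, 6, 171), (v90,
  6, 209), (v36, 4, 1500), (v4, 6, 342)]), (-75, [(v43, 6, 11), (v77, 6, 9), (v74, 6, 54),
  (v89, 6, 29)], [(v52, 4, 3500), (v69, 4, 750), (v26, 4, 3500), (v17, 6, 4617), (v79, 1,
  4275)]), (342, [(v27, 6, 13680), (v17, 6, 68229), (v71, 1, 269325), (v52, 4, 86000), (v79, 1,
  106875)], [])]) (.far 2))))) (.node 4 223 (.leaf 8028000 [(v56, 5, 2553350), (v84, 5,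
  19178000), (v53, 6, 239725), (v26, 4, 4908000), (v51, 6, 15164)] [(-73, [(v23, 6, 206), (v64,
  6, 33), (v77, 6, 63), (v81, 6, 101), (v27, 6, 504)], [(v91, 4, 40), (v26, 4, 60), (v56, 5,
  669), (v69, 4, 80)]), (0, [(v26, 4, 1800), (v87, 5, 4460), (v53, 6, 223), (v69, 4, 400)],
  [(v24, 4, 1000), (v27, 6, 223)]), (50, [(v91, 4, 1000), (v87, 5, 33450), (v27, 6, 669), (v69,
  4, 2000)], [(v44, 6, 29659), (v72, 6, 41924), (v36, 4, 627000), (v85, 6, 56196), (v90, 6,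
  85186)]), (-75, [(v43, 6, 11), (v77, 6, 9), (v74, 6, 54), (v89, 6, 29)], [(v84, 5, 5575),
  (v17, 6, 669), (v26, 4, 2000), (v69, 4, 500)]), (223, [(v87, 5, 1338000), (v80, 5, 5575),
  (v51, 6, 10704), (v26, 4, 210000), (v84, 5, 384675)], [])]) (.far 8))) (.node 4 257 (.leaf
  647640000 [(v83, 1, 17659755), (v52, 4, 114380000), (v27, 6, 19468778), (v17, 6, 22840104),
  (v79, 1, 22200945)] [(-73, [(v23, 6, 206), (v64, 6, 33), (v77, 6, 63), (v81, 6, 101), (v27,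
  6, 504)], [(v68, 6, 257), (v52, 4, 4000), (v71, 1, 3855), (v65, 1, 3855)]), (-100, [], [(v24,
  4, 1000), (v27, 6, 257)]), (50, [(v91, 4, 59000), (v65, 1, 158826), (v43, 6, 771), (v79, 1,
  3084), (v27, 6, 16448)], [(v68, 6, 2570), (v72, 6, 2313), (v90, 6, 2827), (v36, 4, 27000),
  (v4, 6, 4626)]), (-75, [(v43, 6, 11), (v77, 6, 9), (v74, 6, 54), (v89, 6, 29)], [(v52, 4,
  12500), (v23, 6, 771), (v26, 4, 12500), (v17, 6, 6939), (v79, 1, 7710)]), (0, [(v27, 6,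
  20560), (v17, 6, 102543), (v71, 1, 242865), (v52, 4, 172000), (v79, 1, 96375)], [])]) (.far
  2)))) (.leaf 2435400 [(v47, 0, 147600), (v15, 0, 681900), (v16, 4, 2836790), (v26, 4,
  1794980), (v74, 6, 166419)] [(-205, [], [(v31, 0, 6300), (v74, 6, 2583), (v47, 0, 3600),
  (v26, 4, 20090), (v50, 4, 6560)]), (0, [(v26, 4, 11480), (v9, 0, 9600), (v85, 6, 369), (v77,
  6, 123)], [(v52, 4, 29848), (v27, 6, 2460), (v15, 0, 18720), (v82, 6, 1107), (v74, 6,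
  8487)]), (50, [(v27, 6, 123), (v15, 0, 600), (v16, 4, 4100)], [(v44, 6, 133), (v72, 6, 188),
  (v36, 4, 4180), (v85, 6, 252), (v90, 6, 382)]), (-75, [(v43, 6, 11), (v77, 6, 9), (v74, 6,
  54), (v89, 6, 29)], [(v55, 0, 90), (v26, 4, 164), (v52, 4, 41)]), (0, [(v16, 4, 2460), (v74,
  6, 2583), (v26, 4, 17015), (v52, 4, 5945), (v47, 0, 8100)], [])]))) (.node 4 948 (.far 3)
  (.leaf 10800 [(v35, 6, 225), (v91, 4, 2840), (v52, 4, 1180), (v69, 4, 180), (v65, 3, 3348)]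
  [(60, [], [(v52, 4, 5), (v56, 3, 9), (v69, 4, 10)]), (0, [(v26, 4, 40), (v65, 3, 13), (v71,
  3, 31), (v57, 6, 8)], [(v38, 3, 296), (v27, 6, 9), (v23, 6, 3), (v70, 6, 66), (v74, 6, 9)]),
  (425, [(v91, 4, 160), (v7, 6, 21), (v87, 3, 480), (v65, 3, 114), (v73, 3, 6)], [(v44, 6, 19),
  (v72, 6, 44), (v71, 3, 228), (v85, 6, 156), (v90, 6, 13)]), (-250, [], [(v52, 4, 20), (v87,
  3, 144), (v35, 6, 9), (v40, 3, 216), (v69, 4, 160)]), (0, [(v87, 3, 1944), (v52, 4, 260),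
  (v71, 3, 324), (v69, 4, 340), (v35, 6, 45)], [])]))) (.node 3 60 (.node 0 (-250) (.node 2 289
  (.leaf 104040000 [(v3, 6, 1863183), (v71, 2, 7185000), (v5, 3, 14666750), (v67, 6, 2675562),
  (v75, 3, 69576750)] [(60, [], [(v91, 3, 3468), (v5, 3, 289), (v40, 2, 3600), (v6, 2, 420)]),
  (381, [(v20, 2, 21000), (v75, 3, 50575), (v83, 2, 7500), (v81, 6, 1734)], [(v80, 2, 13000),
  (v82, 6, 5202), (v27, 6, 4046), (v74, 6, 6069)]), (289, [(v91, 3, 5483775), (v43, 6, 143633),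
  (v71, 2, 1039500), (v45, 3, 1062075), (v89, 6, 31790)], []), (60, [(v43, 6, 147), (v77, 6,
  55), (v44, 6, 131), (v67, 6, 121)], []), (-60, [(v5, 3, 1734), (v40, 2, 480), (v69, 3, 289),
  (v71, 2, 300)], [])]) (.far 2)) (.leaf 21000 [(v44, 6, 78), (v2, 3, 2650), (v52, 3, 14500),
  (v54, 6, 1525), (v47, 0, 6328)] [(0, [], [(v47, 0, 1584), (v44, 6, 225), (v2, 3, 2400), (v52,
  3, 5725), (v26, 3, 1075)]), (326, [(v42, 3, 275), (v26, 3, 1100), (v47, 0, 618), (v85, 6,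
  66), (v14, 6, 234)], [(v78, 6, 119), (v44, 6, 53), (v15, 0, 3024), (v89, 6, 99), (v74, 6,
  178)]), (425, [(v54, 6, 77), (v15, 0, 288), (v47, 0, 128), (v52, 3, 550)], [(v29, 0, 6),
  (v17, 6, 1), (v86, 6, 1), (v4, 6, 1)]), (60, [(v43, 6, 96), (v77, 6, 39), (v74, 6, 89), (v54,
  6, 232)], []), (45, [(v2, 3, 1100), (v44, 6, 33), (v15, 0, 24), (v47, 0, 348)], [(v4, 6,
  814), (v35, 6, 33), (v19, 6, 76), (v70, 6, 760), (v27, 6, 133)])])) (.node 2 (-100) (.node 2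
  (-60) (.node 3 (-150) (.node 5 250 (.node 1 (-611) (.node 2 58 (.leaf 203580000 [(v89, 6,
  874205), (v82, 6, 279009), (v75, 5, 59038200), (v18, 2, 204399000), (v43, 6, 183599)] [(-205,
  [(v23, 6, 206), (v64, 6, 33), (v77, 6, 63), (v81, 6, 101), (v27, 6, 504)], [(v89, 6, 580),
  (v75, 5, 7308), (v26, 5, 1856), (v82, 6, 29), (v18, 2, 39000)]), (0, [(v79, 5, 2), (v85, 6,
  3), (v75, 5, 2), (v20, 5, 12)], [(v80, 2, 6500), (v82, 6, 522), (v27, 6, 406), (v74, 6,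
  609)]), (58, [(v75, 5, 42224), (v82, 6, 3567), (v48, 2, 156000), (v79, 5, 10556), (v89, 6,
  4176)], []), (-150, [(v43, 6, 11), (v77, 6, 9), (v74, 6, 54), (v89, 6, 29)], []), (45, [(v48,
  2, 23625), (v79, 5, 899), (v83, 5, 783), (v45, 5, 3451), (v26, 5, 1218)], [(v64, 6, 459),
  (v35, 6, 98), (v54, 6, 1026), (v81, 6, 161), (v21, 6, 1490)])]) (.far 10)) (.far 8)) (.node 0
  (-150) (.node 1 112 (.node 2 174 (.leaf 964656000 [(v71, 2, 1655500), (v81, 6, 3114426),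
  (v20, 2, 476630000), (v76, 1, 22369875), (v67, 6, 2604693)] [(-45, [(v23, 6, 206), (v64, 6,
  33), (v77, 6, 63), (v81, 6, 101), (v27, 6, 504)], [(v76, 1, 97875), (v20, 2, 494900), (v18,
  2, 63700), (v6, 2, 71400), (v89, 6, 8526)]), (112, [(v76, 1, 10875), (v83, 2, 19000), (v81,
  6, 3132), (v20, 2, 70000)], []), (0, [(v76, 1, 184875), (v84, 1, 1881375), (v20, 2, 1540000),
  (v19, 6, 21924), (v67, 6, 73080)], []), (-45, [(v43, 6, 147), (v77, 6, 55), (v44, 6, 131),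
  (v67, 6, 121)], [(v83, 2, 100), (v5, 1, 13050), (v42, 2, 2800), (v81, 6, 87), (v20, 2,
  8400)]), (-60, [(v76, 1, 87), (v20, 2, 896), (v15, 1, 1392), (v71, 2, 616)], [])]) (.far 2))
  (.far 8)) (.node 1 100 (.leaf 1108800 [(v32, 1, 522450), (v18, 1, 30720), (v67, 6, 6804),
  (v30, 6, 287721), (v47, 0, 908320)] [(-150, [], [(v67, 6, 21), (v32, 1, 540), (v18, 1, 600),
  (v47, 0, 560), (v30, 6, 210)]), (550, [(v45, 0, 22), (v47, 0, 102), (v14, 6, 39), (v2, 1,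
  66)], [(v32, 1, 20), (v84, 1, 10), (v21, 6, 24), (v74, 6, 5)]), (470, [(v32, 1, 300), (v84,
  1, 795), (v80, 1, 15), (v47, 0, 320), (v89, 6, 48)], [(v44, 6, 25), (v17, 6, 242), (v66, 1,
  860), (v86, 6, 567), (v77, 6, 53)]), (-45, [(v43, 6, 247), (v77, 6, 99), (v44, 6, 216), (v89,
  6, 121)], [(v14, 6, 27), (v2, 1, 330), (v47, 0, 30), (v45, 0, 110)]), (45, [(v2, 1, 165),
  (v14, 6, 21), (v18, 1, 330), (v47, 0, 280)], [(v70, 6, 66), (v35, 6, 27), (v54, 6, 167),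
  (v86, 6, 54), (v19, 6, 40)])]) (.node 0 (-174) (.far 8) (.node 2 576 (.far 12) (.node 3 (-31)
  (.far 8) (.node 5 53 (.leaf 1286469000 [(v26, 5, 1924197125), (v34, 3, 171951875), (v54, 6,
  190397412), (v15, 0, 2091949750), (v20, 5, 9195871000)] [(-322, [(v23, 6, 206), (v64, 6, 33),
  (v77, 6, 63), (v81, 6, 101), (v27, 6, 504)], [(v54, 6, 236698), (v15, 0, 2226000), (v42, 5,
  319000), (v46, 6, 13833), (v20, 5, 12122000)]), (26, [(v20, 5, 957000), (v26, 5, 957000),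
  (v14, 6, 82998), (v47, 0, 371000), (v85, 6, 50721)], [(v78, 6, 3451), (v44, 6, 1537), (v15,
  0, 126000), (v89, 6, 2871), (v74, 6, 5162)]), (280, [(v54, 6, 95294), (v34, 3, 960625), (v26,
  5, 2809375), (v15, 0, 2053750), (v89, 6, 47647)], [(v44, 6, 957), (v86, 6, 9135), (v29, 0,
  62000), (v14, 6, 3306), (v77, 6, 1131)]), (-91, [(v43, 6, 96), (v77, 6, 39), (v74, 6, 89),
  (v54, 6, 232)], [(v55, 0, 265), (v26, 5, 2610), (v42, 5, 348), (v5, 0, 424)]), (90, [(v54, 6,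
  689), (v15, 0, 23850), (v20, 5, 101700), (v83, 5, 7800), (v44, 6, 53)], [(v64, 6, 459), (v35,
  6, 98), (v54, 6, 1026), (v81, 6, 161), (v21, 6, 1490)])]) (.far 8)))))))) (.node 2 150 (.leaf
  540 [(v66, 2, 41), (v2, 2, 82), (v73, 3, 41)] [(-205, [(v23, 6, 206), (v64, 6, 33), (v77, 6,
  63), (v81, 6, 101), (v27, 6, 504)], [(v66, 2, 1), (v2, 2, 2), (v73, 3, 1)]), (0, [(v42, 2,
  14560), (v65, 3, 32760), (v83, 2, 19140), (v88, 2, 2800), (v81, 6, 3393)], [(v18, 2, 260),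
  (v82, 6, 18), (v27, 6, 27), (v74, 6, 21)]), (0, [(v73, 3, 10), (v41, 6, 27), (v66, 2, 10),
  (v87, 3, 180), (v2, 2, 20)], []), (0, [], [(v70, 6, 6), (v66, 2, 35), (v42, 2, 20), (v65, 3,
  45), (v41, 6, 3)]), (0, [(v87, 3, 68), (v66, 2, 25), (v42, 2, 4), (v65, 3, 19)], [(v70, 6,
  66), (v35, 6, 27), (v54, 6, 167), (v86, 6, 54), (v19, 6, 40)])]) (.node 0 (-150) (.node 1
  (-100) (.node 3 (-166) (.far 2) (.node 5 (-105) (.far 6) (.leaf 134211000 [(v71, 3,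
  108228750), (v86, 6, 1889412), (v91, 5, 11467280), (v76, 5, 26970020), (v57, 6, 12460707)]
  [(-45, [(v23, 6, 206), (v64, 6, 33), (v77, 6, 63), (v81, 6, 101), (v27, 6, 504)], [(v71, 3,
  1890), (v52, 5, 830), (v91, 5, 2656), (v56, 3, 1575)]), (450, [(v91, 5, 66400), (v65, 3,
  32375), (v71, 3, 300125), (v57, 6, 42994)], [(v23, 6, 1079), (v56, 3, 55500), (v27, 6, 166),
  (v70, 6, 11454), (v74, 6, 3237)]), (45, [(v91, 5, 132800), (v7, 6, 12201), (v87, 3, 420000),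
  (v65, 3, 99750), (v73, 3, 5250)], [(v44, 6, 1577), (v72, 6, 3652), (v71, 3, 28500), (v85, 6,
  12948), (v90, 6, 1079)]), (-166, [], [(v32, 5, 680600), (v35, 6, 60424), (v71, 3, 3412500),
  (v76, 5, 1411000), (v57, 6, 415415)]), (45, [(v76, 5, 16600), (v35, 6, 1162), (v71, 3,
  32375), (v65, 3, 16625)], [(v70, 6, 66), (v35, 6, 27), (v54, 6, 167), (v86, 6, 54), (v19, 6,
  40)])]))) (.node 3 (-533) (.far 2) (.leaf 23985000 [(v56, 3, 9627500), (v70, 6, 2782260),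
  (v75, 1, 38599860), (v26, 1, 12784005), (v35, 6, 979654)] [(-45, [(v23, 6, 206), (v64, 6,
  33), (v77, 6, 63), (v81, 6, 101), (v27, 6, 504)], [(v70, 6, 533), (v64, 6, 533), (v56, 3,
  8000), (v69, 1, 31980)]), (-550, [(v26, 1, 15990), (v65, 3, 1625), (v71, 3, 3875), (v57, 6,
  2132)], [(v23, 6, 1599), (v38, 3, 74000), (v27, 6, 4797), (v70, 6, 35178), (v74, 6, 4797)]),
  (45, [(v70, 6, 4797), (v56, 3, 4000), (v87, 3, 64000), (v69, 1, 58630)], [(v44, 6, 10127),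
  (v72, 6, 23452), (v71, 3, 57000), (v85, 6, 83148), (v90, 6, 6929)]), (-767, [(v43, 6, 147),
  (v77, 6, 55), (v44, 6, 131), (v67, 6, 121)], [(v72, 6, 3731), (v70, 6, 1599), (v75, 1,
  122590), (v56, 3, 24000), (v69, 1, 69290)]), (45, [(v87, 3, 90000), (v56, 3, 29000), (v71, 3,
  9000), (v75, 1, 175890), (v35, 6, 5863)], [(v64, 6, 459), (v35, 6, 98), (v54, 6, 1026), (v81,
  6, 161), (v21, 6, 1490)])]))) (.leaf 2223000 [(v64, 6, 393471), (v5, 0, 1260175), (v34, 3,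
  691080), (v45, 0, 655500), (v6, 3, 1827865)] [(-310, [(v23, 6, 206), (v64, 6, 33), (v77, 6,
  63), (v81, 6, 101), (v27, 6, 504)], [(v5, 0, 950), (v64, 6, 171), (v6, 3, 890), (v34, 3,
  480)]), (0, [(v85, 6, 15105), (v45, 0, 30400), (v6, 3, 113280), (v81, 6, 3021), (v34, 3,
  4240)], [(v78, 6, 123), (v56, 3, 1960), (v15, 0, 1680), (v82, 6, 15), (v21, 6, 1638)]), (45,
  [(v5, 0, 40), (v73, 3, 20), (v70, 6, 3)], [(v44, 6, 19), (v72, 6, 44), (v71, 3, 380), (v85,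
  6, 156), (v90, 6, 13)]), (-575, [(v43, 6, 147), (v77, 6, 55), (v44, 6, 131), (v67, 6, 121)],
  [(v64, 6, 171), (v55, 0, 380), (v6, 3, 540), (v34, 3, 240), (v45, 0, 380)]), (45, [(v5, 0,
  1), (v45, 0, 2), (v40, 3, 26)], [(v64, 6, 459), (v35, 6, 98), (v54, 6, 1026), (v81, 6, 161),
  (v21, 6, 1490)])])))) (.node 3 (-250) (.node 0 (-219) (.far 10) (.leaf 46975500 [(v50, 2,
  28066675), (v22, 2, 21305050), (v44, 6, 279882), (v4, 6, 6887331), (v55, 0, 43972500)]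
  [(-219, [], [(v55, 0, 968000), (v44, 6, 58035), (v22, 2, 715400), (v14, 6, 43362), (v50, 2,
  813950)]), (444, [(v55, 0, 22000), (v16, 2, 120450), (v47, 0, 14000), (v14, 6, 11169)],
  [(v78, 6, 8687), (v44, 6, 3869), (v15, 0, 252000), (v89, 6, 7227), (v74, 6, 12994)]), (-60,
  [], [(v44, 6, 2409), (v86, 6, 22995), (v29, 0, 124000), (v14, 6, 8322), (v77, 6, 2847)]),
  (-95, [(v43, 6, 96), (v77, 6, 39), (v74, 6, 89), (v54, 6, 232)], [(v46, 6, 4161), (v55, 0,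
  154000), (v14, 6, 18396), (v50, 2, 120450)]), (45, [(v73, 2, 189800), (v44, 6, 20148), (v22,
  2, 189800), (v55, 0, 572000), (v4, 6, 24309)], [(v64, 6, 459), (v35, 6, 98), (v54, 6, 1026),
  (v81, 6, 161), (v21, 6, 1490)])])) (.leaf 403200 [(v64, 6, 9081), (v72, 6, 8481), (v40, 3,
  788928), (v69, 2, 935900), (v5, 2, 360500)] [(-205, [(v23, 6, 206), (v64, 6, 33), (v77, 6,
  63), (v81, 6, 101), (v27, 6, 504)], [(v91, 2, 300), (v40, 3, 360), (v5, 2, 25), (v6, 3,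
  42)]), (0, [(v69, 2, 25), (v65, 3, 2), (v71, 3, 20), (v57, 6, 4)], [(v72, 6, 3), (v38, 3,
  704), (v27, 6, 24), (v70, 6, 156), (v74, 6, 21)]), (-60, [], [(v44, 6, 19), (v72, 6, 44),
  (v71, 3, 228), (v85, 6, 156), (v90, 6, 13)]), (-625, [(v43, 6, 147), (v77, 6, 55), (v44, 6,
  131), (v67, 6, 121)], [(v64, 6, 18), (v76, 2, 175), (v72, 6, 15), (v40, 3, 1008), (v75, 2,
  1575)]), (45, [(v40, 3, 60), (v71, 3, 132), (v91, 2, 50), (v5, 2, 525)], [(v64, 6, 459),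
  (v35, 6, 98), (v54, 6, 1026), (v81, 6, 161), (v21, 6, 1490)])]))) (.node 0 (-250) (.node 3
  (-235) (.far 10) (.leaf 6862000 [(v75, 2, 521935), (v5, 2, 6350170), (v91, 2, 2719420), (v86,
  6, 2463458), (v71, 3, 3058700)] [(-95, [(v23, 6, 206), (v64, 6, 33), (v77, 6, 63), (v81, 6,
  101), (v27, 6, 504)], [(v91, 2, 564), (v40, 3, 1200), (v5, 2, 47), (v6, 3, 140)]), (0, [(v69,
  2, 3055), (v75, 2, 3760), (v71, 3, 8100), (v57, 6, 752), (v49, 6, 376)], [(v38, 3, 15200),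
  (v27, 6, 282), (v17, 6, 846), (v70, 6, 3243), (v74, 6, 423)]), (-100, [], [(v44, 6, 893),
  (v72, 6, 2068), (v71, 3, 11400), (v85, 6, 7332), (v90, 6, 611)]), (-618, [(v43, 6, 11), (v77,
  6, 9), (v74, 6, 54), (v89, 6, 29)], [(v76, 2, 470), (v86, 6, 987), (v69, 2, 940), (v40, 3,
  4200), (v45, 2, 940)]), (45, [(v40, 3, 200), (v71, 3, 440), (v91, 2, 94), (v5, 2, 987)],
  [(v70, 6, 66), (v35, 6, 27), (v54, 6, 167), (v86, 6, 54), (v19, 6, 40)])])) (.leaf 138600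
  [(v22, 2, 20790), (v46, 6, 3886), (v14, 6, 14931), (v50, 2, 31020), (v55, 0, 104104)] [(0,
  [], [(v22, 2, 1820), (v55, 0, 4576), (v44, 6, 305), (v4, 6, 198), (v50, 2, 2990)]), (0,
  [(v55, 0, 88), (v16, 2, 330), (v47, 0, 56), (v14, 6, 51)], [(v78, 6, 119), (v44, 6, 53),
  (v15, 0, 3024), (v89, 6, 99), (v74, 6, 178)]), (-100, [], [(v44, 6, 11), (v86, 6, 105), (v29,
  0, 496), (v14, 6, 38), (v77, 6, 13)]), (-470, [(v43, 6, 96), (v77, 6, 39), (v74, 6, 89),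
  (v54, 6, 232)], [(v55, 0, 616), (v46, 6, 19), (v50, 2, 330), (v14, 6, 84)]), (45, [(v73, 2,
  520), (v22, 2, 520), (v4, 6, 111), (v55, 0, 2288), (v44, 6, 92)], [(v70, 6, 66), (v35, 6,
  27), (v54, 6, 167), (v86, 6, 54), (v19, 6, 40)])]))))) (.node 5 150 (.leaf 4653000 [(v54, 6,
  1044857), (v46, 6, 8836), (v26, 5, 4508240), (v20, 5, 23978460), (v15, 0, 4967100)] [(-470,
  [], [(v54, 6, 5029), (v15, 0, 21600), (v26, 5, 23500), (v44, 6, 658), (v20, 5, 97760)]), (0,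
  [(v20, 5, 10340), (v26, 5, 10340), (v47, 0, 4200), (v85, 6, 1551), (v14, 6, 2538)], [(v15, 0,
  900), (v11, 0, 1100), (v46, 6, 329)]), (349, [(v54, 6, 517), (v15, 0, 1440), (v47, 0, 200),
  (v26, 5, 2068)], [(v44, 6, 799), (v29, 0, 14300), (v4, 6, 94), (v85, 6, 6721), (v90, 6,
  611)]), (-394, [(v43, 6, 147), (v77, 6, 55), (v44, 6, 131), (v67, 6, 121)], [(v55, 0, 75),
  (v42, 5, 94), (v5, 0, 120), (v26, 5, 705)]), (303, [(v54, 6, 611), (v44, 6, 47), (v20, 5,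
  31866), (v15, 0, 7830), (v83, 5, 2444)], [(v64, 6, 459), (v35, 6, 98), (v54, 6, 1026), (v81,
  6, 161), (v21, 6, 1490)])]) (.node 1 100 (.node 3 (-521) (.node 4 406 (.far 3) (.leaf
  43428000 [(v30, 6, 18734247), (v18, 1, 5681360), (v47, 0, 15755600), (v32, 1, 26156910), (v2,
  1, 35515080)] [(-664, [(v23, 6, 206), (v64, 6, 33), (v77, 6, 63), (v81, 6, 101), (v27, 6,
  504)], [(v54, 6, 1316), (v32, 1, 15510), (v18, 1, 15040), (v47, 0, 5600), (v30, 6, 4935)]),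
  (550, [(v2, 1, 1034), (v47, 0, 510), (v45, 0, 110), (v14, 6, 611)], [(v46, 6, 329), (v15, 0,
  900), (v11, 0, 1100)]), (189, [(v47, 0, 35000), (v15, 0, 54000), (v32, 1, 77550), (v54, 6,
  25333), (v89, 6, 6204)], [(v44, 6, 517), (v29, 0, 12400), (v14, 6, 1786), (v86, 6, 4935),
  (v77, 6, 611)]), (-211, [(v43, 6, 247), (v77, 6, 99), (v44, 6, 216), (v89, 6, 121)], [(v14,
  6, 423), (v2, 1, 5170), (v47, 0, 150), (v45, 0, 550)]), (-60, [(v2, 1, 2585), (v14, 6, 329),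
  (v18, 1, 5170), (v47, 0, 1400)], [])])) (.far 3)) (.node 3 (-100) (.node 1 (-106) (.node 2 77
  (.far 5) (.node 4 66 (.node 4 434 (.far 11) (.leaf 415800 [(v31, 0, 225225), (v44, 6, 32571),
  (v47, 0, 54450), (v26, 4, 781375), (v50, 4, 270250)] [(-470, [], [(v31, 0, 225225), (v44, 6,
  32571), (v47, 0, 54450), (v26, 4, 781375), (v50, 4, 270250)]), (0, [(v26, 4, 5875), (v47, 0,
  850), (v55, 0, 275), (v14, 6, 846)], [(v46, 6, 329), (v15, 0, 900), (v11, 0, 1100)]), (0,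
  [(v54, 6, 517), (v47, 0, 200), (v15, 0, 2100), (v16, 4, 23500)], [(v17, 6, 47), (v29, 0,
  150), (v86, 6, 47), (v4, 6, 47)]), (0, [(v43, 6, 11), (v77, 6, 9), (v74, 6, 54), (v89, 6,
  29)], [(v52, 4, 235), (v26, 4, 940), (v55, 0, 99)]), (0, [(v44, 6, 1551), (v55, 0, 4675),
  (v26, 4, 11750), (v52, 4, 17625), (v47, 0, 4400)], [])])) (.far 12))) (.far 5)) (.node 3
  (-676) (.node 4 307 (.far 11) (.leaf 6965400 [(v34, 3, 2417680), (v6, 3, 2500024), (v46, 6,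
  545623), (v31, 0, 2600720), (v45, 0, 293740)] [(-470, [], [(v5, 0, 46550), (v46, 6, 23218),
  (v6, 3, 223015), (v45, 0, 19000), (v34, 3, 73320)]), (-134, [(v14, 6, 7473), (v45, 0, 3850),
  (v47, 0, 2650), (v6, 3, 15510)], [(v46, 6, 329), (v15, 0, 900), (v11, 0, 1100)]), (14, [(v5,
  0, 18000), (v34, 3, 18330), (v45, 0, 2200), (v54, 6, 6721)], [(v44, 6, 799), (v29, 0, 14300),
  (v4, 6, 94), (v85, 6, 6721), (v90, 6, 611)]), (0, [], [(v55, 0, 150), (v45, 0, 3400), (v6, 3,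
  11280), (v56, 3, 2115), (v46, 6, 1786)]), (-60, [(v45, 0, 10), (v5, 0, 5), (v40, 3, 611)],
  [])])) (.far 11)))))) (.node 4 250 (.leaf 9000 [(v68, 6, 469), (v17, 6, 1968), (v26, 4,
  16352), (v84, 2, 14440), (v87, 2, 15000)] [(-397, [(v23, 6, 206), (v64, 6, 33), (v77, 6, 63),
  (v81, 6, 101), (v27, 6, 504)], [(v87, 2, 40), (v52, 4, 4), (v68, 6, 1), (v26, 4, 12)]), (0,
  [(v77, 6, 21), (v79, 2, 260), (v26, 4, 1716), (v33, 6, 45)], [(v24, 4, 4), (v27, 6, 1)]),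
  (-150, [], [(v44, 6, 133), (v72, 6, 188), (v36, 4, 2508), (v85, 6, 252), (v90, 6, 382)]),
  (-450, [(v43, 6, 147), (v77, 6, 55), (v44, 6, 131), (v67, 6, 121)], [(v17, 6, 3), (v26, 4,
  24), (v15, 2, 20)]), (250, [(v87, 2, 1020), (v68, 6, 26), (v90, 6, 13), (v26, 4, 480), (v15,
  2, 360)], [])]) (.node 3 (-250) (.node 0 (-192) (.far 10) (.leaf 26136000 [(v22, 2, 6104000),
  (v50, 2, 373520), (v44, 6, 792372), (v14, 6, 1040688), (v55, 0, 15351875)] [(-192, [], [(v50,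
  2, 4460), (v14, 6, 594), (v44, 6, 795), (v55, 0, 15125), (v22, 2, 3920)]), (17, [(v55, 0,
  1375), (v65, 2, 660), (v77, 6, 18), (v75, 2, 1540), (v4, 6, 342)], [(v78, 6, 1), (v21, 6, 6),
  (v84, 2, 40), (v74, 6, 1)]), (-150, [], [(v44, 6, 66), (v86, 6, 630), (v29, 0, 3875), (v14,
  6, 228), (v77, 6, 78)]), (100, [], [(v55, 0, 9625), (v46, 6, 228), (v50, 2, 2640), (v14, 6,
  1008)]), (95, [(v44, 6, 552), (v22, 2, 2080), (v73, 2, 2080), (v55, 0, 17875), (v4, 6, 666)],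
  [(v70, 6, 66), (v35, 6, 27), (v54, 6, 167), (v86, 6, 54), (v19, 6, 40)])])) (.leaf 2016000
  [(v64, 6, 87939), (v72, 6, 35787), (v40, 3, 5554752), (v69, 2, 2207240), (v5, 2, 905240)]
  [(-432, [(v23, 6, 206), (v64, 6, 33), (v77, 6, 63), (v81, 6, 101), (v27, 6, 504)], [(v91, 2,
  60), (v40, 3, 180), (v5, 2, 5), (v6, 3, 21)]), (0, [(v75, 2, 440), (v81, 6, 15), (v71, 3,
  576), (v57, 6, 48), (v85, 6, 21)], [(v72, 6, 3), (v38, 3, 704), (v27, 6, 24), (v70, 6, 156),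
  (v74, 6, 21)]), (-150, [], [(v44, 6, 19), (v72, 6, 44), (v71, 3, 228), (v85, 6, 156), (v90,
  6, 13)]), (-625, [(v43, 6, 11), (v77, 6, 9), (v74, 6, 54), (v89, 6, 29)], [(v76, 2, 20),
  (v86, 6, 63), (v69, 2, 40), (v40, 3, 252), (v45, 2, 40)]), (95, [(v40, 3, 30), (v71, 3, 66),
  (v91, 2, 10), (v5, 2, 105)], [(v70, 6, 66), (v35, 6, 27), (v54, 6, 167), (v86, 6, 54), (v19,
  6, 40)])])))) (.node 4 150 (.leaf 50 [(v26, 4, 115), (v84, 2, 10), (v68, 6, 7), (v15, 2, 2),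
  (v87, 2, 30)] [(-470, [(v23, 6, 206), (v64, 6, 33), (v77, 6, 63), (v81, 6, 101), (v27, 6,
  504)], [(v87, 2, 60), (v52, 4, 10), (v84, 2, 12), (v26, 4, 70), (v74, 6, 3)]), (0, [(v26, 4,
  80), (v79, 2, 8), (v75, 2, 20), (v77, 6, 3)], [(v78, 6, 1), (v21, 6, 18), (v76, 2, 12), (v74,
  6, 10)]), (-625, [(v91, 2, 1884), (v84, 2, 2278), (v73, 2, 472), (v79, 2, 418), (v43, 6,
  133)], [(v44, 6, 133), (v72, 6, 188), (v36, 4, 4180), (v85, 6, 252), (v90, 6, 382)]), (0,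
  [(v43, 6, 96), (v77, 6, 39), (v74, 6, 89), (v54, 6, 232)], [(v17, 6, 3), (v26, 4, 40), (v15,
  2, 12)]), (150, [(v87, 2, 612), (v68, 6, 26), (v90, 6, 13), (v26, 4, 800), (v15, 2, 216)],
  [])]) (.node 0 (-250) (.node 3 (-407) (.far 10) (.leaf 22792000 [(v86, 6, 3256444), (v72, 6,
  881525), (v45, 2, 1944572), (v91, 2, 5175412), (v6, 3, 7490000)] [(-102, [(v23, 6, 206),
  (v64, 6, 33), (v77, 6, 63), (v81, 6, 101), (v27, 6, 504)], [(v91, 2, 4884), (v40, 3, 15000),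
  (v5, 2, 407), (v6, 3, 1750)]), (0, [(v85, 6, 2849), (v75, 2, 35816), (v71, 3, 48000), (v57,
  6, 6512), (v81, 6, 2035)], [(v72, 6, 111), (v38, 3, 16000), (v27, 6, 888), (v70, 6, 5772),
  (v74, 6, 777)]), (-510, [(v91, 2, 259666), (v7, 6, 94017), (v87, 3, 1662000), (v45, 2,
  108262), (v73, 3, 92500)], [(v44, 6, 7733), (v72, 6, 17908), (v71, 3, 57000), (v85, 6,
  63492), (v90, 6, 5291)]), (-704, [(v43, 6, 11), (v77, 6, 9), (v74, 6, 54), (v89, 6, 29)],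
  [(v76, 2, 1628), (v86, 6, 8547), (v69, 2, 3256), (v40, 3, 21000), (v45, 2, 3256)]), (45,
  [(v40, 3, 2500), (v71, 3, 5500), (v91, 2, 814), (v5, 2, 8547)], [(v70, 6, 66), (v35, 6, 27),
  (v54, 6, 167), (v86, 6, 54), (v19, 6, 40)])])) (.leaf 117000 [(v55, 0, 93860), (v44, 6,
  2109), (v4, 6, 13905), (v22, 2, 10608), (v46, 6, 4433)] [(-250, [], [(v50, 2, 892), (v14, 6,
  198), (v44, 6, 265), (v55, 0, 3872), (v22, 2, 784)]), (0, [(v55, 0, 176), (v65, 2, 66), (v77,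
  6, 3), (v75, 2, 154), (v4, 6, 57)], [(v78, 6, 1), (v82, 6, 9), (v76, 2, 84), (v74, 6, 91)]),
  (-625, [(v91, 2, 1884), (v84, 2, 2278), (v73, 2, 472), (v79, 2, 418), (v43, 6, 133)], [(v44,
  6, 11), (v86, 6, 105), (v29, 0, 496), (v14, 6, 38), (v77, 6, 13)]), (0, [(v43, 6, 96), (v77,
  6, 39), (v74, 6, 89), (v54, 6, 232)], [(v46, 6, 19), (v55, 0, 616), (v14, 6, 84), (v50, 2,
  132)]), (45, [(v73, 2, 208), (v44, 6, 92), (v22, 2, 208), (v55, 0, 2288), (v4, 6, 111)],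
  [(v70, 6, 66), (v35, 6, 27), (v54, 6, 167), (v86, 6, 54), (v19, 6, 40)])])))) (.node 2 (-250)
  (.node 2 375 (.node 0 (-250) (.leaf 140400 [(v87, 4, 713700), (v47, 4, 5850), (v42, 2, 7280),
  (v82, 6, 1917), (v89, 6, 1509)] [(-95, [(v23, 6, 206), (v64, 6, 33), (v77, 6, 63), (v81, 6,
  101), (v27, 6, 504)], [(v2, 2, 432), (v87, 4, 15300), (v42, 2, 152), (v89, 6, 51)]), (0,
  [(v20, 2, 112), (v83, 2, 4), (v79, 4, 25), (v81, 6, 3)], [(v82, 6, 54), (v27, 6, 42), (v80,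
  2, 104), (v74, 6, 63)]), (375, [(v41, 6, 729), (v84, 4, 45450), (v42, 2, 736), (v79, 4, 900),
  (v89, 6, 507)], []), (0, [(v43, 6, 147), (v77, 6, 55), (v44, 6, 131), (v67, 6, 121)], [(v15,
  4, 650), (v42, 2, 44), (v47, 4, 75), (v41, 6, 33)]), (-80, [(v2, 2, 628), (v66, 2, 32), (v83,
  2, 260), (v47, 4, 3000), (v84, 4, 9125)], [(v64, 6, 72), (v35, 6, 28), (v54, 6, 303), (v57,
  6, 161), (v21, 6, 360)])]) (.leaf 86940 [(v47, 0, 2484), (v89, 6, 2415), (v2, 2, 8400), (v48,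
  2, 2672), (v20, 2, 4368)] [(-250, [], [(v5, 0, 504), (v48, 2, 256), (v47, 0, 72), (v42, 2,
  168), (v89, 6, 105)]), (0, [(v47, 0, 3696), (v81, 6, 915), (v67, 6, 378), (v83, 2, 1496),
  (v20, 2, 34496)], [(v18, 2, 104), (v82, 6, 18), (v27, 6, 27), (v74, 6, 21)]), (0, [(v42, 2,
  608), (v5, 0, 9225), (v18, 2, 1008), (v6, 2, 1578), (v89, 6, 1230)], []), (100, [], [(v42, 2,
  18), (v2, 2, 44), (v45, 0, 51)]), (-100, [(v48, 2, 12), (v20, 2, 28), (v45, 0, 7), (v47, 0,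
  13)], [])])) (.node 0 (-150) (.node 3 (-296) (.far 2) (.leaf 333000 [(v86, 6, 69597), (v34,
  3, 67750), (v57, 6, 7178), (v66, 4, 895400), (v41, 6, 103119)] [(-45, [(v23, 6, 206), (v64,
  6, 33), (v77, 6, 63), (v81, 6, 101), (v27, 6, 504)], [(v31, 4, 1850), (v64, 6, 333), (v66, 4,
  7400), (v34, 3, 1125)]), (0, [(v55, 4, 35150), (v6, 3, 27000), (v57, 6, 7733), (v34, 3,
  2500)], [(v72, 6, 111), (v38, 3, 22000), (v27, 6, 888), (v70, 6, 5772), (v74, 6, 777)]), (62,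
  [(v31, 4, 103600), (v65, 3, 375), (v73, 3, 6000), (v70, 6, 2331)], [(v44, 6, 703), (v72, 6,
  1628), (v71, 3, 7125), (v85, 6, 5772), (v90, 6, 481)]), (-648, [(v43, 6, 147), (v77, 6, 55),
  (v44, 6, 131), (v67, 6, 121)], [(v64, 6, 444), (v55, 4, 24050), (v66, 4, 3700), (v34, 3,
  1875), (v86, 6, 3774)]), (-80, [(v87, 3, 1710), (v66, 4, 2812), (v6, 3, 510), (v34, 3, 195),
  (v55, 4, 4218)], [(v64, 6, 459), (v35, 6, 98), (v54, 6, 1026), (v81, 6, 161), (v21, 6,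
  1490)])])) (.node 3 (-250) (.node 1 100 (.node 0 (-184) (.far 2) (.leaf 255024000 [(v14, 6,
  14407200), (v71, 4, 149624200), (v30, 6, 57235431), (v32, 1, 169325310), (v47, 0, 157590000)]
  [(-592, [(v23, 6, 206), (v64, 6, 33), (v77, 6, 63), (v81, 6, 101), (v27, 6, 504)], [(v18, 1,
  4600), (v32, 1, 4140), (v30, 6, 1610), (v47, 0, 3500), (v67, 6, 161)]), (550, [(v2, 1, 1012),
  (v47, 0, 1275), (v45, 0, 275), (v14, 6, 598)], [(v44, 6, 1219), (v89, 6, 2277), (v15, 0,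
  94500), (v78, 6, 2737), (v74, 6, 4094)]), (62, [(v32, 1, 3795), (v15, 0, 3750), (v18, 1,
  2530), (v47, 0, 3500), (v89, 6, 759)], [(v44, 6, 19), (v72, 6, 20), (v66, 1, 570), (v85, 6,
  216), (v90, 6, 37)]), (-75, [(v43, 6, 247), (v77, 6, 99), (v44, 6, 216), (v89, 6, 121)],
  [(v47, 0, 375), (v2, 1, 5060), (v45, 0, 1375), (v14, 6, 414)]), (-80, [(v47, 0, 2450), (v18,
  1, 3220), (v71, 4, 3220), (v32, 1, 276), (v2, 1, 1725)], [(v70, 6, 66), (v35, 6, 27), (v54,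
  6, 167), (v86, 6, 54), (v19, 6, 40)])])) (.node 0 (-409) (.far 2) (.node 5 68 (.leaf
  1101355200 [(v15, 0, 536112000), (v56, 4, 1434056250), (v47, 0, 4148000), (v26, 5,
  4001860500), (v54, 6, 139428509)] [(-705, [(v23, 6, 206), (v64, 6, 33), (v77, 6, 63), (v81,
  6, 101), (v27, 6, 504)], [(v47, 0, 136000), (v15, 0, 3672000), (v26, 5, 26994000), (v54, 6,
  994279), (v56, 4, 11472450)]), (0, [(v55, 0, 93500), (v26, 5, 1687125), (v47, 0, 289000),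
  (v14, 6, 250308)], [(v46, 6, 2863), (v15, 0, 9000), (v11, 0, 11000)]), (0, [(v26, 5, 674850),
  (v15, 0, 244800), (v47, 0, 34000), (v54, 6, 76483)], [(v44, 6, 6953), (v29, 0, 143000), (v4,
  6, 818), (v85, 6, 58487), (v90, 6, 5317)]), (-75, [(v43, 6, 247), (v77, 6, 99), (v44, 6,
  216), (v89, 6, 121)], [(v42, 5, 818), (v55, 0, 340), (v26, 5, 6135), (v5, 0, 544)]), (-80,
  [(v48, 4, 76483), (v20, 5, 472395), (v15, 0, 21420), (v47, 0, 13260)], [(v64, 6, 459), (v35,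
  6, 98), (v54, 6, 1026), (v81, 6, 161), (v21, 6, 1490)])]) (.far 12)))) (.leaf 9405000 [(v45,
  0, 5473900), (v64, 6, 2213937), (v6, 3, 2697948), (v56, 3, 3197320), (v34, 3, 2445716)]
  [(-552, [(v23, 6, 206), (v64, 6, 33), (v77, 6, 63), (v81, 6, 101), (v27, 6, 504)], [(v5, 0,
  950), (v64, 6, 171), (v6, 3, 534), (v34, 3, 288)]), (0, [(v45, 0, 760), (v6, 3, 4752), (v57,
  6, 1007), (v34, 3, 212)], [(v72, 6, 3), (v38, 3, 704), (v27, 6, 24), (v70, 6, 156), (v74, 6,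
  21)]), (62, [(v73, 3, 12), (v5, 0, 40), (v70, 6, 3)], [(v44, 6, 19), (v72, 6, 44), (v71, 3,
  228), (v85, 6, 156), (v90, 6, 13)]), (-625, [(v43, 6, 147), (v77, 6, 55), (v44, 6, 131),
  (v67, 6, 121)], [(v64, 6, 171), (v55, 0, 380), (v6, 3, 324), (v34, 3, 144), (v45, 0, 380)]),
  (-80, [(v55, 0, 65), (v6, 3, 54), (v56, 3, 117), (v45, 0, 80)], [(v64, 6, 459), (v35, 6, 98),
  (v54, 6, 1026), (v81, 6, 161), (v21, 6, 1490)])])))) (.node 0 (-118) (.far 10) (.leaf 42000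
  [(v88, 4, 17275), (v40, 4, 7175), (v83, 4, 8575), (v86, 6, 14805), (v91, 2, 1968)] [(-118,
  [], [(v91, 2, 96), (v80, 4, 125), (v16, 2, 180), (v71, 4, 450)]), (0, [(v83, 4, 150), (v79,
  2, 4), (v75, 2, 364), (v77, 6, 21)], [(v78, 6, 1), (v82, 6, 9), (v76, 2, 84), (v74, 6, 91)]),
  (-625, [(v91, 2, 1884), (v84, 2, 2278), (v73, 2, 472), (v79, 2, 418), (v43, 6, 133)], [(v44,
  6, 19), (v72, 6, 20), (v66, 4, 950), (v85, 6, 216), (v90, 6, 37)]), (-450, [(v43, 6, 96),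
  (v77, 6, 39), (v74, 6, 89), (v54, 6, 232)], [(v66, 4, 25), (v69, 2, 6)]), (-80, [(v73, 2,
  1062), (v40, 4, 153400), (v71, 4, 7375), (v22, 2, 2832), (v55, 0, 36000)], [(v70, 6, 66),
  (v35, 6, 27), (v54, 6, 167), (v86, 6, 54), (v19, 6, 40)])])))))))) (.node 2 250 (.leaf 159120
  [(v2, 2, 14976), (v87, 4, 1173510), (v42, 2, 30316), (v82, 6, 3825), (v89, 6, 3842)] [(-450,
  [(v23, 6, 206), (v64, 6, 33), (v77, 6, 63), (v81, 6, 101), (v27, 6, 504)], [(v2, 2, 216),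
  (v87, 4, 3060), (v42, 2, 76), (v89, 6, 17)]), (0, [(v20, 2, 56), (v83, 2, 2), (v79, 4, 5),
  (v81, 6, 1)], [(v82, 6, 18), (v27, 6, 14), (v80, 2, 52), (v74, 6, 21)]), (625, [(v41, 6,
  243), (v84, 4, 9090), (v42, 2, 368), (v79, 4, 180), (v89, 6, 169)], [(v44, 6, 19), (v72, 6,
  20), (v66, 2, 228), (v85, 6, 216), (v90, 6, 37)]), (0, [(v43, 6, 147), (v77, 6, 55), (v44, 6,
  131), (v67, 6, 121)], [(v49, 6, 11), (v42, 2, 154), (v15, 4, 1050), (v47, 4, 45)]), (-125,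
  [(v87, 4, 325), (v66, 2, 26), (v20, 2, 80), (v2, 2, 4), (v47, 4, 25)], [(v64, 6, 72), (v35,
  6, 28), (v54, 6, 303), (v57, 6, 161), (v21, 6, 360)])]) (.node 3 (-250) (.node 0 (-287) (.far
  2) (.leaf 9471000 [(v45, 0, 2161500), (v48, 4, 3754575), (v46, 6, 237472), (v14, 6, 542430),
  (v54, 6, 906059)] [(-287, [], [(v45, 0, 176000), (v46, 6, 34440), (v56, 4, 662970), (v14, 6,
  20664), (v54, 6, 53669)]), (156, [(v14, 6, 34440), (v30, 6, 9471), (v71, 4, 94710), (v45, 0,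
  38500), (v47, 0, 14500)], [(v78, 6, 4879), (v44, 6, 2173), (v15, 0, 108000), (v89, 6, 4059),
  (v74, 6, 7298)]), (0, [(v5, 0, 72000), (v56, 4, 111930), (v45, 0, 40000), (v54, 6, 41041)],
  [(v44, 6, 4879), (v29, 0, 143000), (v4, 6, 574), (v85, 6, 41041), (v90, 6, 3731)]), (0,
  [(v43, 6, 147), (v77, 6, 55), (v44, 6, 131), (v67, 6, 121)], [(v46, 6, 1066), (v14, 6, 1722),
  (v48, 4, 6765), (v45, 0, 5500)]), (-125, [(v55, 0, 100), (v40, 4, 10332), (v56, 4, 861),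
  (v45, 0, 400)], [(v64, 6, 459), (v35, 6, 98), (v54, 6, 1026), (v81, 6, 161), (v21, 6,
  1490)])])) (.leaf 40320 [(v34, 3, 15904), (v64, 6, 3685), (v88, 4, 48480), (v70, 6, 679),
  (v57, 6, 3392)] [(-450, [(v23, 6, 206), (v64, 6, 33), (v77, 6, 63), (v81, 6, 101), (v27, 6,
  504)], [(v66, 4, 40), (v64, 6, 3), (v31, 4, 10), (v34, 3, 12)]), (0, [(v55, 4, 570), (v6, 3,
  864), (v57, 6, 209), (v34, 3, 80)], [(v38, 3, 304), (v27, 6, 6), (v17, 6, 18), (v70, 6, 69),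
  (v74, 6, 9)]), (0, [(v31, 4, 290), (v15, 4, 20), (v73, 3, 36), (v41, 6, 2), (v70, 6, 11)],
  [(v44, 6, 19), (v72, 6, 44), (v71, 3, 228), (v85, 6, 156), (v90, 6, 13)]), (-625, [(v43, 6,
  147), (v77, 6, 55), (v44, 6, 131), (v67, 6, 121)], [(v64, 6, 2), (v55, 4, 65), (v66, 4, 10),
  (v34, 3, 10), (v86, 6, 17)]), (-125, [(v87, 3, 228), (v66, 4, 190), (v6, 3, 68), (v34, 3,
  26), (v55, 4, 285)], [(v64, 6, 459), (v35, 6, 98), (v54, 6, 1026), (v81, 6, 161), (v21, 6,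
  1490)])]))))) (.node 3 (-250) (.node 2 100 (.leaf 189000 [(v87, 4, 156930), (v65, 4, 13950),
  (v84, 4, 346500), (v42, 2, 108955), (v89, 6, 12563)] [(-481, [(v23, 6, 206), (v64, 6, 33),
  (v77, 6, 63), (v81, 6, 101), (v27, 6, 504)], [(v2, 2, 540), (v87, 4, 2040), (v42, 2, 190),
  (v89, 6, 17)]), (239, [(v42, 2, 840), (v65, 4, 840), (v83, 4, 740), (v79, 4, 120), (v81, 6,
  123)], [(v82, 6, 54), (v27, 6, 42), (v80, 4, 260), (v74, 6, 63)]), (550, [(v41, 6, 243),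
  (v84, 4, 6060), (v42, 2, 920), (v79, 4, 120), (v89, 6, 169)], [(v44, 6, 19), (v72, 6, 20),
  (v66, 4, 380), (v85, 6, 216), (v90, 6, 37)]), (0, [(v43, 6, 147), (v77, 6, 55), (v44, 6,
  131), (v67, 6, 121)], [(v15, 4, 260), (v42, 2, 165), (v47, 4, 30), (v41, 6, 33)]), (-150, [],
  [(v70, 6, 66), (v35, 6, 27), (v54, 6, 167), (v86, 6, 54), (v19, 6, 40)])]) (.node 0 (-412)
  (.far 2) (.leaf 23793000 [(v30, 6, 6091008), (v14, 6, 2039709), (v45, 0, 6131125), (v46, 6,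
  1812182), (v48, 4, 12950190)] [(-706, [(v23, 6, 206), (v64, 6, 33), (v77, 6, 63), (v81, 6,
  101), (v27, 6, 504)], [(v45, 0, 44000), (v46, 6, 12360), (v56, 4, 158620), (v14, 6, 7416),
  (v54, 6, 19261)]), (187, [(v14, 6, 12360), (v30, 6, 3399), (v71, 4, 22660), (v45, 0, 9625),
  (v47, 0, 3625)], [(v46, 6, 721), (v15, 0, 2250), (v11, 0, 2750)]), (-450, [(v5, 0, 18000),
  (v56, 4, 26780), (v45, 0, 10000), (v54, 6, 14729)], [(v44, 6, 1751), (v29, 0, 35750), (v4, 6,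
  206), (v85, 6, 14729), (v90, 6, 1339)]), (0, [(v43, 6, 147), (v77, 6, 55), (v44, 6, 131),
  (v67, 6, 121)], [(v14, 6, 4326), (v46, 6, 2678), (v48, 4, 11330), (v45, 0, 9625)]), (-200,
  [(v47, 0, 25), (v48, 4, 206), (v40, 4, 4326), (v45, 0, 175)], [(v64, 6, 459), (v35, 6, 98),
  (v54, 6, 1026), (v81, 6, 161), (v21, 6, 1490)])]))) (.leaf 26880 [(v34, 3, 10080), (v64, 6,
  2589), (v88, 4, 19840), (v70, 6, 399), (v57, 6, 2304)] [(-425, [(v23, 6, 206), (v64, 6, 33),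
  (v77, 6, 63), (v81, 6, 101), (v27, 6, 504)], [(v31, 4, 20), (v64, 6, 9), (v66, 4, 80), (v34,
  3, 36)]), (0, [(v55, 4, 380), (v6, 3, 864), (v57, 6, 209), (v34, 3, 80)], [(v23, 6, 3), (v38,
  3, 296), (v27, 6, 9), (v70, 6, 66), (v74, 6, 9)]), (0, [(v31, 4, 580), (v15, 4, 40), (v73, 3,
  108), (v41, 6, 6), (v70, 6, 33)], [(v44, 6, 19), (v72, 6, 44), (v71, 3, 228), (v85, 6, 156),
  (v90, 6, 13)]), (-625, [(v43, 6, 147), (v77, 6, 55), (v44, 6, 131), (v67, 6, 121)], [(v70, 6,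
  6), (v55, 4, 170), (v66, 4, 100), (v34, 3, 54), (v86, 6, 111)]), (-200, [(v87, 3, 342), (v66,
  4, 190), (v6, 3, 102), (v34, 3, 39), (v55, 4, 285)], [(v64, 6, 459), (v35, 6, 98), (v54, 6,
  1026), (v81, 6, 161), (v21, 6, 1490)])]))))) (.node 3 (-150) (.node 0 (-569) (.node 2 136
  (.leaf 1173000 [(v79, 4, 8568), (v42, 2, 261625), (v89, 6, 57647), (v41, 6, 20706), (v84, 4,
  193392)] [(-353, [(v23, 6, 206), (v64, 6, 33), (v77, 6, 63), (v81, 6, 101), (v27, 6, 504)],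
  [(v2, 2, 6750), (v87, 4, 20808), (v42, 2, 2375), (v89, 6, 289)]), (420, [(v42, 2, 3500),
  (v65, 4, 2856), (v83, 4, 2516), (v79, 4, 408), (v81, 6, 697)], [(v82, 6, 18), (v27, 6, 14),
  (v80, 4, 52), (v74, 6, 21)]), (136, [(v41, 6, 4131), (v84, 4, 61812), (v42, 2, 11500), (v79,
  4, 1224), (v89, 6, 2873)], []), (0, [(v43, 6, 147), (v77, 6, 55), (v44, 6, 131), (v67, 6,
  121)], [(v15, 4, 1768), (v42, 2, 1375), (v47, 4, 204), (v41, 6, 374)]), (-466, [(v87, 4,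
  40664), (v66, 4, 8585), (v71, 4, 1615), (v42, 2, 3000), (v79, 4, 1292)], [(v70, 6, 66), (v35,
  6, 27), (v54, 6, 167), (v86, 6, 54), (v19, 6, 40)])]) (.far 2)) (.leaf 450648000 [(v56, 4,
  268961748), (v14, 6, 33675696), (v54, 6, 116085673), (v45, 0, 136444000), (v46, 6, 53347164)]
  [(-785, [(v23, 6, 206), (v64, 6, 33), (v77, 6, 63), (v81, 6, 101), (v27, 6, 504)], [(v45, 0,
  176000), (v46, 6, 68280), (v56, 4, 525756), (v14, 6, 40968), (v54, 6, 106403)]), (312, [(v14,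
  6, 68280), (v30, 6, 18777), (v71, 4, 75108), (v45, 0, 38500), (v47, 0, 14500)], [(v46, 6,
  3983), (v15, 0, 9000), (v11, 0, 11000)]), (137, [(v5, 0, 72000), (v56, 4, 88764), (v45, 0,
  40000), (v54, 6, 81367)], [(v44, 6, 19), (v72, 6, 20), (v66, 4, 228), (v85, 6, 216), (v90, 6,
  37)]), (0, [(v43, 6, 147), (v77, 6, 55), (v44, 6, 131), (v67, 6, 121)], [(v14, 6, 11949),
  (v46, 6, 7397), (v48, 4, 18777), (v45, 0, 19250)]), (-625, [(v47, 0, 250), (v48, 4, 1707),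
  (v40, 4, 35847), (v45, 0, 1750)], [(v64, 6, 459), (v35, 6, 98), (v54, 6, 1026), (v81, 6,
  161), (v21, 6, 1490)])])) (.leaf 18000 [(v88, 4, 3528), (v70, 6, 51), (v64, 6, 2175), (v57,
  6, 1578), (v34, 3, 7360)] [(-277, [(v23, 6, 206), (v64, 6, 33), (v77, 6, 63), (v81, 6, 101),
  (v27, 6, 504)], [(v66, 4, 144), (v64, 6, 21), (v70, 6, 3), (v34, 3, 160)]), (0, [(v86, 6,
  81), (v55, 4, 90), (v83, 4, 108), (v57, 6, 87), (v34, 3, 130)], [(v80, 4, 52), (v82, 6, 18),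
  (v27, 6, 14), (v74, 6, 21)]), (0, [(v70, 6, 2), (v15, 4, 8), (v34, 3, 15), (v31, 4, 17),
  (v41, 6, 2)], [(v44, 6, 19), (v72, 6, 20), (v66, 4, 228), (v85, 6, 216), (v90, 6, 37)]),
  (-575, [(v43, 6, 147), (v77, 6, 55), (v44, 6, 131), (v67, 6, 121)], [(v70, 6, 2), (v55, 4,
  34), (v66, 4, 20), (v34, 3, 30), (v86, 6, 37)]), (-625, [(v87, 4, 6309), (v66, 4, 4689),
  (v83, 4, 312), (v34, 3, 1640), (v47, 4, 1137)], [(v64, 6, 459), (v35, 6, 98), (v54, 6, 1026),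
  (v81, 6, 161), (v21, 6, 1490)])]))

theorem t6_ok : treeOK dat t6 (rootIv dat 6) = true := by decide +kernel

end Pool.Agent.Y81.Proj.BlockFive
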