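import Mathlib
import Pool.Agent.Y81.ProjSpace

namespace Pool.Agent.Y81.Proj

theorem dotR_add_seq (u : List ℤ) : ∀ x y : ℕ → ℝ,
    dotR u (fun k => x k + y k) = dotR u x + dotR u y := by
  induction u with
  | nil => intro x y; simp [dotR]
  | cons a as ih =>
    intro x y
    simp only [dotR]
    rw [ih (fun k => x (k + 1)) (fun k => y (k + 1))]
    ring

/-- extension of a vector by zeros -/
def ext (n : ℕ) (x : Fin n → ℝ) : ℕ → ℝ := fun k => if h : k < n then x ⟨k, h⟩ else 0

/-- the linear map given by the rows -/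
noncomputable def rowMap (d : Data) : (Fin d.n → ℝ) →ₗ[ℝ] (Fin d.G.length → ℝ) where
  toFun x i := hfun d.G (ext d.n x) i
  map_add' x y := by
    funext i
    have h : ext d.n (x + y) = fun k => ext d.n x k + ext d.n y k := by
      funext k
      unfold ext
      split_ifs <;> simp
    simp only [hfun, h, dotR_add_seq, Pi.add_apply]
  map_smul' c x := by
    funext i
    have h : ext d.n (c • x) = fun k => c * ext d.n x k := by
      funext k
      unfold ext
      split_ifs <;> simp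
    simp only [hfun, h, dotR_smul_seq, Pi.smul_apply, smul_eq_mul, RingHom.id_apply]

/-- the block space: the image of the row map with the maximum norm -/
noncomputable abbrev Blk (d : Data) : Submodule ℝ (Fin d.G.length → ℝ) := LinearMap.range (rowMap d)

theorem rowMap_inj (d : Data) (hQ : 0 < d.Q) (hR : rowsOK d = true) (hn : d.n ≤ d.G.length) :
    Function.Injective (rowMap d) := by
  rw [← LinearMap.ker_eq_bot, LinearMap.ker_eq_bot']
  intro x hx
  funext l
  have h1 : rowMap d x ⟨l, by omega⟩ = 0 := by rw [hx]; rfl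
  have h2 : rowMap d x ⟨l, by omega⟩ = hfun d.G (ext d.n x) l := rfl
  rw [h2, rows_sound d hR _ l l.2] at h1
  have h3 : ext d.n x l = x l := by
    unfold ext
    rw [dif_pos l.2]
  rw [h3] at h1
  have hQR : (0 : ℝ) < d.Q := by exact_mod_cast hQ
  rcases mul_eq_zero.mp h1 with h | h
  · exact absurd h hQR.ne'
  · exact h

theorem Blk_finrank (d : Data) (hb : baseOK d = true) : Module.finrank ℝ (Blk d) = d.n := by
  unfold baseOK at hb
  simp only [Bool.and_eq_true, decide_eq_true_eq] at hb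
  obtain ⟨⟨⟨⟨⟨⟨⟨⟨hq, hp⟩, hK⟩, hW⟩, hQ⟩, hR⟩, hc⟩, hG⟩, hn⟩ := hb
  rw [LinearMap.finrank_range_of_inj (rowMap_inj d hQ hR hn)]
  simp

theorem psum_eq_sum (F h : ℕ → ℝ) (m : ℕ) : ∀ l,
    psum F h l m = ∑ k ∈ Finset.range m, F (l + k) * h (l + k) := by
  induction m with
  | zero => intro l; simp [psum]
  | succ m ih =>
    intro l
    rw [Finset.sum_range_succ']
    simp only [psum, ih]
    have : ∀ k, l + 1 + k = l + (k + 1) := by intro k; omega
    simp only [this, Nat.add_zero]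
    ring

theorem dotR_eq_sum (w : List ℤ) : ∀ F : ℕ → ℝ,
    dotR w F = ∑ k ∈ Finset.range w.length, ((w.getD k 0 : ℤ) : ℝ) * F k := by
  induction w with
  | nil => intro F; simp [dotR]
  | cons a as ih =>
    intro F
    rw [List.length_cons, Finset.sum_range_succ']
    simp only [dotR, ih]
    simp
    ring

theorem Blk_RG (d : Data) (Ts : List (Tree d)) (hb : baseOK d = true)
    (hT : rootsOK d 0 Ts = true) (hlen : Ts.length = d.G.length) :
    RG (Blk d) (1 + (d.p : ℝ) / d.q) := by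
  have hb' := hb
  unfold baseOK at hb'
  simp only [Bool.and_eq_true, decide_eq_true_eq] at hb'
  obtain ⟨⟨⟨⟨⟨⟨⟨⟨hq, hp⟩, hK⟩, hW⟩, hQ⟩, hR⟩, hc⟩, hG⟩, hn⟩ := hb'
  have hqR : (0 : ℝ) < d.q := by exact_mod_cast hq
  intro f y hfy
  by_contra hlt
  push Not at hlt
  obtain ⟨x0, hx0⟩ : ∃ x0, (rowMap d).rangeRestrict x0 = y :=
    (rowMap d).surjective_rangeRestrict y
  set φ : (Fin d.n → ℝ) →ₗ[ℝ] ℝ := (f : Blk d →ₗ[ℝ] ℝ) ∘ₗ (rowMap d).rangeRestrict with hφ
  set F : ℕ → ℝ := fun l => if h : l < d.n then φ (Pi.single ⟨l, h⟩ 1) else 0 with hF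
  have hφsum : ∀ v : Fin d.n → ℝ, φ v = ∑ l : Fin d.n, v l * F l := by
    intro v
    rw [LinearMap.pi_apply_eq_sum_univ φ v]
    apply Finset.sum_congr rfl
    intro l _
    rw [hF]
    simp only [Fin.is_lt, dif_pos, smul_eq_mul, Fin.eta]
    congr 2
    funext j
    simp [Pi.single_apply, eq_comm]
  have hφv : ∀ v, φ v = f ((rowMap d).rangeRestrict v) := fun v => rfl
  have hF1 : psum F (ext d.n x0) 0 d.n = 1 := by
    rw [psum_eq_sum, Finset.sum_range]
    simp only [Nat.zero_add]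
    rw [← hfy, ← hx0, ← hφv, hφsum]
    apply Finset.sum_congr rfl
    intro l _
    have : ext d.n x0 l = x0 l := by
      unfold ext
      rw [dif_pos l.2]
    rw [this, mul_comm]
  refine core d Ts hb hT hlen F (ext d.n x0) ?_ hF1
  intro wD g hg
  have hok := wD.ok
  unfold vOK at hok
  simp only [Bool.and_eq_true, decide_eq_true_eq] at hok
  obtain ⟨⟨⟨hD, hwl⟩, hrv⟩, hal⟩ := hok
  set w := wD.w with hwdef
  set D := wD.D with hDdef
  have hbd : ∀ g ∈ d.G, -D ≤ dotZ g w ∧ dotZ g w ≤ D := by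
    intro g hg
    obtain ⟨i, hi, hgi⟩ := List.getElem_of_mem hg
    have h1 : (rowVals w d.G)[i]? = some (dotZ g w) := by
      have hgen : ∀ (G : List (List ℤ)) (i : ℕ), G[i]? = some g →
          (rowVals w G)[i]? = some (dotZ g w) := by
        intro G
        induction G with
        | nil => intro i h; simp at h
        | cons a as ih =>
          intro i h
          cases i with
          | zero => simp only [List.getElem?_cons_zero, Option.some.injEq] at h; simp [rowVals, h]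
          | succ i => simpa [rowVals] using ih i (by simpa using h)
      exact hgen d.G i (by rw [List.getElem?_eq_getElem hi, hgi])
    rw [hrv] at h1
    exact allLe_get D wD.dots i _ hal h1
  have hDR : (0 : ℝ) < D := by exact_mod_cast hD
  set wv : Fin d.n → ℝ := fun l => ((w.getD l 0 : ℤ) : ℝ) with hwv
  have hdotw : dotR w F = φ wv := by
    rw [dotR_eq_sum, hφsum, hwl, Finset.sum_range]
  have hext : ext d.n wv = seqOf w := by
    funext k
    unfold ext seqOf
    split_ifs with h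
    · rfl
    · rw [List.getD_eq_getElem?_getD, List.getElem?_eq_none (by omega)]
      simp
  obtain ⟨i, hi, hgi⟩ := List.getElem_of_mem hg
  have hrow : ∀ (j : ℕ) (hj : j < d.G.length), hfun d.G (ext d.n wv) j = (dotZ (d.G[j]) w : ℝ) := by
    intro j hj
    rw [hext]
    unfold hfun
    rw [List.getD_eq_getElem?_getD, List.getElem?_eq_getElem hj]
    simp only [Option.getD_some]
    rw [dotR_seqOf]
  set v : Blk d := (D : ℝ)⁻¹ • (rowMap d).rangeRestrict wv with hv
  have hvn : ‖v‖ ≤ 1 := by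
    rw [← Submodule.norm_coe, pi_norm_le_iff_of_nonneg zero_le_one]
    intro j
    have h1 : (v : Fin d.G.length → ℝ) j = (D : ℝ)⁻¹ * hfun d.G (ext d.n wv) j := rfl
    rw [h1, hrow j j.2, Real.norm_eq_abs, abs_mul, abs_inv, abs_of_pos hDR,
      inv_mul_le_iff₀ hDR, mul_one, abs_le]
    have h2 := hbd (d.G[(j : ℕ)]) (List.getElem_mem j.2)
    exact ⟨by exact_mod_cast h2.1, by exact_mod_cast h2.2⟩
  have h1 := RG_iff_bound f y v
  have h2 : ‖v - f v • y‖ ≤ 1 + (d.p : ℝ) / d.q :=
    (h1.trans (mul_le_of_le_one_right (norm_nonneg _) hvn)).trans hlt.le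
  rw [← Submodule.norm_coe, pi_norm_le_iff_of_nonneg (by
    have : (0 : ℝ) ≤ d.p := by exact_mod_cast hp
    positivity)] at h2
  have h3 := h2 ⟨i, hi⟩
  have h4 : ((v - f v • y : Blk d) : Fin d.G.length → ℝ) ⟨i, hi⟩ =
      (D : ℝ)⁻¹ * hfun d.G (ext d.n wv) i - (D : ℝ)⁻¹ * φ wv * hfun d.G (ext d.n x0) i := by
    have h5 : f v = (D : ℝ)⁻¹ * φ wv := by
      rw [hv, map_smul, smul_eq_mul, hφv]
    rw [h5, ← hx0]
    rfl
  rw [h4, hrow i hi, Real.norm_eq_abs] at h3
  have h6 : hfun d.G (ext d.n x0) i = dotR g (ext d.n x0) := by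
    unfold hfun
    rw [List.getD_eq_getElem?_getD, List.getElem?_eq_getElem hi, hgi]
    simp
  rw [h6, hgi] at h3
  rw [hdotw]
  have h7 : (D : ℝ)⁻¹ * (dotZ g w : ℝ) - (D : ℝ)⁻¹ * φ wv * dotR g (ext d.n x0) =
      (D : ℝ)⁻¹ * ((dotZ g w : ℝ) - φ wv * dotR g (ext d.n x0)) := by ring
  rw [h7, abs_mul, abs_inv, abs_of_pos hDR, inv_mul_le_iff₀ hDR] at h3
  calc (d.q : ℝ) * |(dotZ g w : ℝ) - φ wv * dotR g (ext d.n x0)|
      ≤ (d.q : ℝ) * (D * (1 + (d.p : ℝ) / d.q)) := mul_le_mul_of_nonneg_left h3 hqR.le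
    _ = ((d.q : ℝ) + d.p) * D := by field_simp

end Pool.Agent.Y81.Proj
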