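import Mathlib
import Pool.Agent.Y81.ProjTree

/-! Certificate data of a block: rows, points of the unit ball, relations. -/

set_option maxRecDepth 100000

namespace Pool.Agent.Y81.Proj.BlockFour

/-- the rows of the block -/
def dat : Data where
  n := 4
  Q := 3
  G := [[3, 0, 0, 0], [0, 3, 0, 0], [0, 0, 3, 0], [0, 0, 0, 3], [1, -3, 1, 0], [0, 1, -3, 1], [-1, 0,
  1, -3], [3, -1, 0, 1]]
  circ := [[-1, 3, -1, 0, 3, 0, 0, 0], [1, -3, 1, 0, -3, 0, 0, 0], [-3, 1, 0, -1, 0, 0, 0, 3], [3, -1, 0,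
  1, 0, 0, 0, -3], [1, 0, -1, 3, 0, 0, 3, 0], [-1, 0, 1, -3, 0, 0, -3, 0], [-7, 0, 0, 0, -3, 0,
  3, 9], [7, 0, 0, 0, 3, 0, -3, -9], [0, -1, 3, -1, 0, 3, 0, 0], [0, 1, -3, 1, 0, -3, 0, 0],
  [0, -7, 0, 0, -9, -3, 0, 3], [0, 7, 0, 0, 9, 3, 0, -3], [0, 0, 7, 0, 3, 9, 3, 0], [0, 0, -7,
  0, -3, -9, -3, 0], [0, 0, 0, 7, 0, 3, 9, 3], [0, 0, 0, -7, 0, -3, -9, -3], [1, -3, 8, 0, 0,
  9, 3, 0], [-8, 3, -1, 0, 0, 0, 3, 9], [8, -3, 1, 0, 0, 0, -3, -9], [-3, 8, 0, -1, 9, 3, 0,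
  0], [3, -1, 0, 8, 0, 3, 9, 0], [-7, 21, 0, 0, 24, 9, 3, 0], [-21, 7, 0, 0, 0, 3, 9, 24], [-1,
  0, 8, -3, 3, 9, 0, 0], [-8, 0, 1, -3, -3, 0, 0, 9], [8, 0, -1, 3, 3, 0, 0, -9], [7, 0, 0, 21,
  3, 9, 24, 0], [-21, 0, 0, -7, -9, -3, 0, 24], [21, 0, 0, 7, 9, 3, 0, -24], [0, 3, -2, 3, 3,
  0, 3, 0], [0, 8, -3, 1, 9, 0, 0, -3], [0, 1, -3, 8, 0, 0, 9, 3], [0, -21, 7, 0, -24, 0, 3,
  9], [0, 21, -7, 0, 24, 0, -3, -9], [0, -7, 21, 0, 0, 24, 9, 3], [0, 0, -21, 7, -9, -24, 0,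
  3], [0, 0, 21, -7, 9, 24, 0, -3], [0, 0, -7, 21, -3, 0, 24, 9], [0, 0, 7, -21, 3, 0, -24,
  -9]]
  W := 1000
  p := 3
  q := 100
  K := 1000000

def v0 : Vt dat := ⟨[1, 1, 1, 1], 3, [3, 3, 3, 3, -1, -1, -3, 3], by decide +kernel⟩
def v1 : Vt dat := ⟨[-1, -1, -1, -1], 3, [-3, -3, -3, -3, 1, 1, 3, -3], by decide +kernel⟩
def v2 : Vt dat := ⟨[1, 1, 1, -1], 3, [3, 3, 3, -3, -1, -3, 3, 1], by decide +kernel⟩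
def v3 : Vt dat := ⟨[-1, -1, -1, 1], 3, [-3, -3, -3, 3, 1, 3, -3, -1], by decide +kernel⟩
def v4 : Vt dat := ⟨[1, 1, -1, -1], 3, [3, 3, -3, -3, -3, 3, 1, 1], by decide +kernel⟩
def v5 : Vt dat := ⟨[-1, -1, 1, 1], 3, [-3, -3, 3, 3, 3, -3, -1, -1], by decide +kernel⟩
def v6 : Vt dat := ⟨[1, -1, -1, -1], 3, [3, -3, -3, -3, 3, 1, 1, 3], by decide +kernel⟩
def v7 : Vt dat := ⟨[-1, 1, 1, 1], 3, [-3, 3, 3, 3, -3, -1, -1, -3], by decide +kernel⟩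
def v8 : Vt dat := ⟨[2, 2, -1, 1], 6, [6, 6, -3, 3, -5, 6, -6, 5], by decide +kernel⟩
def v9 : Vt dat := ⟨[-2, -2, 1, -1], 6, [-6, -6, 3, -3, 5, -6, 6, -5], by decide +kernel⟩
def v10 : Vt dat := ⟨[1, 0, 1, 0], 3, [3, 0, 3, 0, 2, -3, 0, 3], by decide +kernel⟩
def v11 : Vt dat := ⟨[-1, 0, -1, 0], 3, [-3, 0, -3, 0, -2, 3, 0, -3], by decide +kernel⟩
def v12 : Vt dat := ⟨[1, 0, -1, 0], 3, [3, 0, -3, 0, 0, 3, -2, 3], by decide +kernel⟩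
def v13 : Vt dat := ⟨[-1, 0, 1, 0], 3, [-3, 0, 3, 0, 0, -3, 2, -3], by decide +kernel⟩
def v14 : Vt dat := ⟨[2, -1, 1, -2], 6, [6, -3, 3, -6, 6, -6, 5, 5], by decide +kernel⟩
def v15 : Vt dat := ⟨[-2, 1, -1, 2], 6, [-6, 3, -3, 6, -6, 6, -5, -5], by decide +kernel⟩
def v16 : Vt dat := ⟨[7, -3, 5, -3], 21, [21, -9, 15, -9, 21, -21, 7, 21], by decide +kernel⟩
def v17 : Vt dat := ⟨[-7, 3, -5, 3], 21, [-21, 9, -15, 9, -21, 21, -7, -21], by decide +kernel⟩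
def v18 : Vt dat := ⟨[7, 3, -5, 3], 21, [21, 9, -15, 9, -7, 21, -21, 21], by decide +kernel⟩
def v19 : Vt dat := ⟨[-7, -3, 5, -3], 21, [-21, -9, 15, -9, 7, -21, 21, -21], by decide +kernel⟩
def v20 : Vt dat := ⟨[-1, 2, 2, -1], 6, [-3, 6, 6, -3, -5, -5, 6, -6], by decide +kernel⟩
def v21 : Vt dat := ⟨[1, -2, -2, 1], 6, [3, -6, -6, 3, 5, 5, -6, 6], by decide +kernel⟩
def v22 : Vt dat := ⟨[0, 1, 0, 1], 3, [0, 3, 0, 3, -3, 2, -3, 0], by decide +kernel⟩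
def v23 : Vt dat := ⟨[0, -1, 0, -1], 3, [0, -3, 0, -3, 3, -2, 3, 0], by decide +kernel⟩
def v24 : Vt dat := ⟨[0, 1, 0, -1], 3, [0, 3, 0, -3, -3, 0, 3, -2], by decide +kernel⟩
def v25 : Vt dat := ⟨[0, -1, 0, 1], 3, [0, -3, 0, 3, 3, 0, -3, 2], by decide +kernel⟩
def v26 : Vt dat := ⟨[3, 7, -3, 5], 21, [9, 21, -9, 15, -21, 21, -21, 7], by decide +kernel⟩
def v27 : Vt dat := ⟨[-3, -7, 3, -5], 21, [-9, -21, 9, -15, 21, -21, 21, -7], by decide +kernel⟩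
def v28 : Vt dat := ⟨[-3, 7, 3, -5], 21, [-9, 21, 9, -15, -21, -7, 21, -21], by decide +kernel⟩
def v29 : Vt dat := ⟨[3, -7, -3, 5], 21, [9, -21, -9, 15, 21, 7, -21, 21], by decide +kernel⟩
def v30 : Vt dat := ⟨[1, -1, 2, 2], 6, [3, -3, 6, 6, 6, -5, -5, 6], by decide +kernel⟩
def v31 : Vt dat := ⟨[-1, 1, -2, -2], 6, [-3, 3, -6, -6, -6, 5, 5, -6], by decide +kernel⟩
def v32 : Vt dat := ⟨[5, -3, 7, 3], 21, [15, -9, 21, 9, 21, -21, -7, 21], by decide +kernel⟩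
def v33 : Vt dat := ⟨[-5, 3, -7, -3], 21, [-15, 9, -21, -9, -21, 21, 7, -21], by decide +kernel⟩
def v34 : Vt dat := ⟨[-5, 3, 7, -3], 21, [-15, 9, 21, -9, -7, -21, 21, -21], by decide +kernel⟩
def v35 : Vt dat := ⟨[5, -3, -7, 3], 21, [15, -9, -21, 9, 7, 21, -21, 21], by decide +kernel⟩
def v36 : Vt dat := ⟨[-3, 5, -3, 7], 21, [-9, 15, -9, 21, -21, 21, -21, -7], by decide +kernel⟩
def v37 : Vt dat := ⟨[3, -5, 3, -7], 21, [9, -15, 9, -21, 21, -21, 21, 7], by decide +kernel⟩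
def v38 : Vt dat := ⟨[3, -5, 3, 7], 21, [9, -15, 9, 21, 21, -7, -21, 21], by decide +kernel⟩
def v39 : Vt dat := ⟨[-3, 5, -3, -7], 21, [-9, 15, -9, -21, -21, 7, 21, -21], by decide +kernel⟩

theorem base : baseOK dat = true := by decide +kernel

end Pool.Agent.Y81.Proj.BlockFour
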