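import Mathlib
import Pool.Agent.Y81.BlockFour

/-! Certificate trees. -/

set_option maxRecDepth 100000

namespace Pool.Agent.Y81.Proj.BlockFour

def t0 : Tree dat :=
.node 1 (-150) (.node 3 150 (.node 1 149 (.leaf 89400 [(v5, 3, 134398), (v3, 3, 312602), (v28,
  1, 75000), (v6, 0, 11175)] [(1000, [], []), (0, [(v6, 0, 3), (v5, 3, 20)], []), (49, [(v4, 0,
  3), (v3, 3, 20)], [(v2, 0, 3), (v5, 3, 20)]), (0, [(v28, 1, 600), (v5, 3, 1192), (v6, 0,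
  447)], [])]) (.far 3)) (.node 1 (-100) (.node 3 100 (.node 1 99 (.leaf 19800 [(v5, 3, 46233),
  (v3, 3, 102267), (v28, 1, 25000), (v6, 0, 2475)] [(1000, [], []), (0, [(v6, 0, 1), (v5, 3,
  10)], []), (33, [(v4, 0, 1), (v3, 3, 10)], [(v2, 0, 1), (v5, 3, 10)]), (0, [(v28, 1, 200),
  (v5, 3, 396), (v6, 0, 99)], [])]) (.far 3)) (.node 2 250 (.node 4 150 (.node 1 517 (.far 0)
  (.node 5 (-127) (.far 23) (.node 7 514 (.leaf 65278000 [(v7, 2, 254975868), (v4, 0,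
  33063307), (v9, 5, 262140000), (v21, 7, 62230000)] [(1000, [], []), (517, [], [(v4, 0, 1),
  (v7, 2, 4)]), (0, [(v4, 0, 359029), (v7, 2, 1175004), (v9, 5, 1028000), (v21, 7, 381000)],
  []), (-450, [(v6, 0, 508), (v34, 2, 508), (v9, 5, 2000), (v4, 0, 635)], [(v8, 0, 257), (v7,
  2, 5397), (v29, 7, 375), (v21, 7, 500)])]) (.far 28)))) (.node 1 266 (.node 7 333 (.leaf
  44289000 [(v7, 1, 41416875), (v28, 1, 26598375), (v13, 2, 225342432), (v21, 7, 133000000)]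
  [(1000, [], []), (633, [(v6, 0, 1), (v5, 2, 4)], [(v4, 0, 133), (v7, 1, 500)]), (0, [(v7, 1,
  333), (v28, 1, 333), (v21, 7, 1064)], []), (-450, [(v28, 1, 500), (v13, 2, 2128), (v6, 0,
  931)], [(v18, 0, 44289), (v7, 1, 832500), (v5, 2, 708624), (v21, 7, 266000)])]) (.far 3))
  (.far 1))) (.node 2 (-375) (.node 2 (-250) (.node 1 (-60) (.node 3 60 (.node 1 59 (.node 6
  (-309) (.far 4) (.leaf 145848000 [(v28, 1, 66589500), (v14, 0, 30391077), (v3, 6, 426540500),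
  (v20, 1, 1068522000)] [(1000, [], []), (59, [(v14, 0, 309), (v5, 3, 2575), (v3, 6, 1500)],
  []), (-250, [(v4, 0, 309), (v3, 6, 1000)], []), (80, [(v14, 0, 6077), (v28, 1, 51500), (v3,
  6, 29500), (v6, 0, 6077)], [(v0, 0, 309), (v3, 6, 1000)])])) (.far 3)) (.node 6 (-100) (.node
  1 60 (.node 3 (-149) (.far 4) (.node 7 333 (.leaf 595404 [(v1, 3, 2482515), (v29, 7, 92380),
  (v38, 7, 72265), (v7, 1, 6499827)] [(1000, [], []), (530, [(v30, 7, 149000), (v14, 0, 49617),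
  (v1, 3, 1748250), (v38, 7, 111750)], [(v0, 0, 149), (v39, 3, 500), (v7, 1, 3725), (v8, 0,
  149)]), (0, [(v8, 0, 49617), (v7, 1, 1929550), (v31, 3, 1221000), (v21, 7, 596000)], [(v30,
  7, 298000), (v7, 1, 1653900), (v2, 0, 148851), (v1, 3, 999000)]), (-575, [(v2, 0, 149), (v1,
  3, 1000)], [(v8, 0, 666), (v7, 1, 58275), (v29, 7, 1500), (v21, 7, 2000)])]) (.far 3)))
  (.node 3 (-149) (.far 4) (.node 4 189 (.node 7 646 (.leaf 9011520 [(v31, 3, 23814000), (v39,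
  3, 1606500), (v5, 4, 57588500), (v8, 0, 3069549)] [(1000, [], []), (0, [(v6, 0, 189), (v5, 4,
  1000)], [(v0, 0, 9387), (v39, 3, 31500), (v5, 4, 74500), (v8, 0, 9387)]), (0, [(v8, 0,
  1299429), (v5, 4, 9625400), (v31, 3, 15697800), (v21, 7, 2413800)], [(v2, 0, 189), (v5, 4,
  1000)]), (-575, [(v2, 0, 149), (v1, 3, 1000)], [(v8, 0, 4764573), (v31, 3, 8721000), (v5, 4,
  48127000), (v21, 7, 1341000)])]) (.far 3)) (.far 1)))) (.node 1 100 (.node 7 561 (.leaf 4000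
  [(v14, 0, 1100), (v20, 1, 17420), (v6, 0, 63), (v3, 6, 45210)] [(1000, [], []), (550, [(v30,
  7, 2000), (v14, 0, 6171), (v20, 1, 16830), (v3, 6, 117810)], [(v4, 0, 1), (v7, 1, 10)]), (0,
  [(v3, 6, 10), (v4, 0, 1)], [(v30, 7, 400), (v20, 1, 3366), (v14, 0, 187), (v3, 6, 2618)]),
  (-129, [(v14, 0, 1), (v28, 1, 5), (v3, 6, 15), (v6, 0, 1)], [(v0, 0, 1), (v3, 6, 10)])])
  (.far 18)) (.node 3 (-317) (.node 4 149 (.leaf 1788000 [(v4, 0, 118902), (v27, 4, 2266000),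
  (v2, 0, 215901), (v36, 6, 3699670)] [(1000, [], []), (100, [], [(v2, 0, 894), (v4, 0, 447),
  (v27, 4, 1000), (v36, 6, 2980)]), (0, [(v3, 6, 10), (v4, 0, 1)], [(v2, 0, 149), (v5, 4,
  1000)]), (-317, [(v2, 0, 447), (v36, 6, 1490), (v27, 4, 2000), (v4, 0, 894)], [])]) (.far 1))
  (.far 5))))) (.node 3 (-59) (.far 3) (.node 4 309 (.leaf 0 [] [(0, [(v39, 3, 154500), (v8, 0,
  18231), (v5, 4, 383500), (v31, 3, 618000)], []), (0, [], [(v0, 0, 6077), (v39, 3, 51500),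
  (v5, 4, 29500), (v8, 0, 6077)]), (0, [(v3, 1, 50), (v4, 0, 3)], [(v2, 0, 309), (v5, 4,
  1000)]), (0, [], [(v8, 0, 309), (v5, 4, 1500), (v3, 1, 2575)])]) (.far 1)))) (.node 7 333
  (.leaf 666000 [(v1, 2, 1748916), (v11, 2, 8460864), (v30, 7, 2626000), (v2, 0, 1011987)]
  [(1000, [], []), (450, [(v30, 7, 2000), (v16, 0, 333), (v1, 2, 6660), (v3, 2, 5328)], [(v0,
  0, 1), (v2, 0, 1), (v11, 2, 8)]), (-313, [(v3, 2, 4), (v4, 0, 1)], [(v30, 7, 2000), (v11, 2,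
  5328), (v2, 0, 999), (v1, 2, 1332)]), (-450, [(v2, 0, 1), (v1, 2, 4)], [(v0, 0, 1), (v3, 2,
  4)])]) (.far 3))) (.node 7 333 (.leaf 166500 [(v1, 2, 374736), (v30, 7, 844000), (v2, 0,
  346653), (v11, 2, 1743144)] [(1000, [], []), (450, [(v30, 7, 2000), (v16, 0, 333), (v1, 2,
  4440), (v3, 2, 3552)], [(v0, 0, 3), (v2, 0, 3), (v11, 2, 16)]), (-688, [(v3, 2, 8), (v4, 0,
  3)], [(v30, 7, 2000), (v11, 2, 3552), (v2, 0, 999), (v1, 2, 888)]), (-450, [(v2, 0, 3), (v1,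
  2, 8)], [(v0, 0, 3), (v3, 2, 8)])]) (.far 3))))) (.node 3 (-99) (.far 3) (.node 7 699 (.leaf
  88000 [(v5, 1, 454520), (v39, 3, 125000), (v0, 0, 22231), (v3, 1, 276540)] [(1000, [], []),
  (-125, [(v14, 0, 1864), (v6, 0, 1165), (v9, 1, 55920), (v29, 7, 3000)], [(v0, 0, 99), (v39,
  3, 200), (v3, 1, 396)]), (-33, [(v3, 1, 10), (v4, 0, 1)], [(v2, 0, 1), (v5, 1, 10)]), (-99,
  [], [(v0, 0, 1), (v3, 1, 10)])]) (.far 3))))) (.node 3 (-149) (.far 3) (.node 7 716 (.leaf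
  1192000 [(v5, 1, 4172000), (v39, 3, 1575000), (v0, 0, 666179), (v3, 1, 3522360)] [(1000, [],
  []), (-575, [(v14, 0, 1432), (v6, 0, 895), (v9, 1, 28640), (v29, 7, 2250)], [(v0, 0, 447),
  (v39, 3, 600), (v3, 1, 1192)]), (-50, [(v3, 1, 20), (v4, 0, 3)], [(v2, 0, 3), (v5, 1, 20)]),
  (-149, [], [(v0, 0, 3), (v3, 1, 20)])]) (.far 3)))

theorem t0_ok : treeOK dat t0 (rootIv dat 0) = true := by decide +kernel

def t1 : Tree dat :=
.node 2 (-150) (.node 0 (-150) (.node 2 (-100) (.node 0 (-100) (.node 3 250 (.node 5 150 (.node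
  2 517 (.far 8) (.node 4 (-514) (.far 21) (.node 6 (-127) (.far 20) (.leaf 65278000 [(v31, 4,
  62230000), (v5, 3, 254975868), (v2, 1, 33063307), (v21, 6, 262140000)] [(450, [(v31, 4, 500),
  (v20, 1, 257), (v5, 3, 5397), (v33, 4, 375)], [(v2, 1, 635), (v4, 1, 508), (v38, 3, 508),
  (v21, 6, 2000)]), (1000, [], []), (517, [], [(v2, 1, 1), (v5, 3, 4)]), (0, [(v2, 1, 359029),
  (v31, 4, 381000), (v5, 3, 1175004), (v21, 6, 1028000)], [])])))) (.node 2 266 (.node 4 (-333)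
  (.far 0) (.leaf 44289000 [(v31, 4, 133000000), (v5, 2, 41416875), (v32, 2, 26598375), (v25,
  3, 225342432)] [(450, [(v31, 4, 266000), (v28, 1, 44289), (v5, 2, 832500), (v3, 3, 708624)],
  [(v4, 1, 931), (v32, 2, 500), (v25, 3, 2128)]), (1000, [], []), (633, [(v3, 3, 4), (v4, 1,
  1)], [(v2, 1, 133), (v5, 2, 500)]), (0, [(v31, 4, 1064), (v5, 2, 333), (v32, 2, 333)], [])]))
  (.far 9))) (.node 3 (-375) (.node 3 (-250) (.node 2 (-60) (.node 0 (-60) (.node 5 100 (.node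
  0 100 (.node 4 (-561) (.far 19) (.leaf 2000 [(v14, 0, 8720), (v20, 1, 550), (v7, 1, 33), (v3,
  5, 22610)] [(550, [(v31, 4, 2000), (v20, 1, 6171), (v14, 0, 16830), (v3, 5, 117810)], [(v6,
  0, 10), (v0, 1, 1)]), (1000, [], []), (128, [(v3, 5, 10), (v4, 1, 1)], [(v16, 0, 5), (v7, 1,
  1), (v20, 1, 1), (v3, 5, 15)]), (0, [(v20, 1, 187), (v31, 4, 400), (v3, 5, 2618), (v14, 0,
  3366)], [(v0, 1, 1), (v3, 5, 10)])])) (.node 2 317 (.far 8) (.node 7 (-149) (.far 2) (.leaf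
  149000 [(v2, 1, 30992), (v0, 1, 26969), (v35, 5, 351640), (v19, 7, 227000)] [(20, [(v1, 7,
  1000), (v7, 1, 149)], [(v2, 1, 894), (v0, 1, 447), (v19, 7, 1000), (v35, 5, 2980)]), (1000,
  [], []), (128, [(v3, 5, 10), (v4, 1, 1)], [(v0, 1, 894), (v19, 7, 2000), (v2, 1, 447), (v35,
  5, 1490)]), (0, [(v2, 1, 149), (v1, 7, 1000)], [(v0, 1, 1), (v3, 5, 10)])])))) (.node 0 60
  (.node 2 149 (.node 4 (-333) (.far 0) (.leaf 1984680 [(v33, 4, 241380), (v17, 4, 306940),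
  (v6, 0, 5110551), (v5, 2, 1618380)] [(530, [(v31, 4, 149000), (v20, 1, 49617), (v5, 2,
  1748250), (v33, 4, 111750)], [(v6, 0, 3725), (v4, 1, 149), (v32, 2, 500), (v8, 1, 149)]), (0,
  [(v6, 0, 149), (v5, 2, 60)], []), (574, [(v8, 1, 666), (v15, 4, 2000), (v17, 4, 1500), (v6,
  0, 58275)], [(v2, 1, 149), (v5, 2, 1000)]), (0, [(v2, 1, 148851), (v31, 4, 298000), (v5, 2,
  999000), (v6, 0, 1653900)], [(v8, 1, 49617), (v15, 4, 596000), (v30, 2, 1221000), (v6, 0,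
  1929550)])])) (.far 9)) (.node 2 149 (.node 4 (-646) (.far 0) (.node 7 (-189) (.far 2) (.leaf
  12516000 [(v8, 1, 4258569), (v32, 2, 2236500), (v1, 7, 79938500), (v30, 2, 33054000)] [(0,
  [(v1, 7, 1000), (v7, 1, 189)], [(v4, 1, 9387), (v8, 1, 9387), (v32, 2, 31500), (v1, 7,
  74500)]), (1000, [], []), (574, [(v8, 1, 4764573), (v15, 4, 1341000), (v1, 7, 48127000),
  (v30, 2, 8721000)], [(v2, 1, 149), (v5, 2, 1000)]), (0, [(v2, 1, 189), (v1, 7, 1000)], [(v8,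
  1, 1299429), (v15, 4, 2413800), (v30, 2, 15697800), (v1, 7, 9625400)])]))) (.far 9)))) (.node
  2 59 (.node 7 (-309) (.far 2) (.leaf 145848000 [(v30, 2, 1068522000), (v32, 2, 66589500),
  (v8, 1, 30391077), (v1, 7, 426540500)] [(-80, [(v1, 7, 1000), (v7, 1, 309)], [(v4, 1, 6077),
  (v8, 1, 6077), (v32, 2, 51500), (v1, 7, 29500)]), (1000, [], []), (59, [(v8, 1, 309), (v3, 0,
  2575), (v1, 7, 1500)], []), (-250, [(v2, 1, 309), (v1, 7, 1000)], [])])) (.far 0))) (.node 0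
  59 (.node 5 309 (.leaf 145848000 [(v20, 1, 30391077), (v16, 0, 66589500), (v14, 0,
  1068522000), (v3, 5, 426540500)] [(59, [(v1, 2, 2575), (v20, 1, 309), (v3, 5, 1500)], []),
  (1000, [], []), (-80, [(v3, 5, 1000), (v4, 1, 309)], [(v16, 0, 51500), (v7, 1, 6077), (v20,
  1, 6077), (v3, 5, 29500)]), (250, [], [(v0, 1, 309), (v3, 5, 1000)])]) (.far 9)) (.far 0)))
  (.node 4 (-333) (.far 0) (.leaf 666000 [(v0, 1, 1011987), (v6, 3, 1748916), (v23, 3,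
  8460864), (v15, 4, 2626000)] [(450, [(v1, 3, 4), (v7, 1, 1)], [(v6, 3, 4), (v0, 1, 1)]),
  (1000, [], []), (450, [(v26, 1, 333), (v15, 4, 2000), (v1, 3, 5328), (v6, 3, 6660)], [(v0, 1,
  1), (v7, 1, 1), (v23, 3, 8)]), (-313, [(v2, 1, 1), (v1, 3, 4)], [(v0, 1, 999), (v15, 4,
  2000), (v23, 3, 5328), (v6, 3, 1332)])]))) (.node 4 (-333) (.far 0) (.leaf 166500 [(v23, 3,
  1743144), (v6, 3, 374736), (v15, 4, 844000), (v0, 1, 346653)] [(450, [(v1, 3, 8), (v7, 1,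
  3)], [(v6, 3, 8), (v0, 1, 3)]), (1000, [], []), (450, [(v26, 1, 333), (v15, 4, 2000), (v1, 3,
  3552), (v6, 3, 4440)], [(v0, 1, 3), (v7, 1, 3), (v23, 3, 16)]), (-688, [(v2, 1, 3), (v1, 3,
  8)], [(v0, 1, 999), (v15, 4, 2000), (v23, 3, 3552), (v6, 3, 888)])])))) (.node 2 99 (.leaf
  39600 [(v3, 0, 3366), (v32, 2, 5000), (v1, 0, 6534), (v4, 1, 2475)] [(-100, [], [(v4, 1, 99),
  (v32, 2, 200), (v3, 0, 396)]), (0, [(v32, 2, 1000), (v4, 1, 99), (v1, 0, 3960), (v3, 0,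
  1980)], []), (0, [(v3, 0, 10), (v4, 1, 1)], []), (33, [(v2, 1, 1), (v1, 0, 10)], [(v0, 1, 1),
  (v3, 0, 10)])]) (.far 0))) (.node 0 99 (.leaf 2000 [(v1, 2, 660), (v7, 1, 99), (v3, 2, 330)]
  [(99, [(v1, 2, 10), (v7, 1, 1)], []), (0, [(v16, 0, 1000), (v1, 2, 1980), (v7, 1, 99), (v3,
  2, 3960)], []), (0, [], [(v16, 0, 200), (v7, 1, 99), (v1, 2, 396)]), (-33, [(v2, 1, 1), (v1,
  2, 10)], [(v0, 1, 1), (v3, 2, 10)])]) (.far 0))) (.node 2 149 (.leaf 357600 [(v3, 0, 30992),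
  (v32, 2, 45000), (v1, 0, 58408), (v4, 1, 33525)] [(-150, [], [(v4, 1, 447), (v32, 2, 600),
  (v3, 0, 1192)]), (0, [(v32, 2, 3000), (v4, 1, 447), (v1, 0, 11920), (v3, 0, 5960)], []), (0,
  [(v3, 0, 20), (v4, 1, 3)], []), (49, [(v2, 1, 3), (v1, 0, 20)], [(v0, 1, 3), (v3, 0, 20)])])
  (.far 0))) (.node 0 149 (.leaf 6000 [(v1, 2, 1980), (v7, 1, 447), (v3, 2, 1000)] [(149, [(v1,
  2, 20), (v7, 1, 3)], []), (0, [(v16, 0, 3000), (v1, 2, 5960), (v7, 1, 447), (v3, 2, 11920)],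
  []), (0, [], [(v16, 0, 600), (v7, 1, 447), (v1, 2, 1192)]), (-50, [(v2, 1, 3), (v1, 2, 20)],
  [(v0, 1, 3), (v3, 2, 20)])]) (.far 0))

theorem t1_ok : treeOK dat t1 (rootIv dat 1) = true := by decide +kernel

def t2 : Tree dat :=
.node 3 (-150) (.node 1 (-150) (.node 3 (-100) (.node 1 (-100) (.node 0 250 (.node 4 150 (.node
  5 (-514) (.far 36) (.node 7 127 (.leaf 8159750 [(v7, 2, 293751), (v21, 7, 642500), (v9, 5,
  3810000), (v4, 0, 8355584)] [(250, [(v4, 0, 1175004), (v7, 2, 359029), (v9, 5, 381000), (v21,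
  7, 1028000)], []), (208, [(v6, 0, 4), (v5, 2, 1)], [(v4, 0, 4), (v7, 2, 1)]), (0, [(v4, 0,
  1436116), (v7, 2, 293751), (v9, 5, 254000), (v21, 7, 1542000)], []), (450, [(v27, 5, 375),
  (v20, 2, 257), (v9, 5, 500), (v4, 0, 5397)], [(v18, 0, 508), (v7, 2, 635), (v5, 2, 508),
  (v21, 7, 2000)])]) (.far 25))) (.node 1 266 (.node 5 (-333) (.far 8) (.leaf 44289000 [(v12,
  0, 225342432), (v26, 1, 26598375), (v4, 1, 41416875), (v9, 5, 133000000)] [(0, [(v4, 1, 333),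
  (v9, 5, 1064), (v26, 1, 333)], []), (633, [(v6, 0, 4), (v5, 2, 1)], [(v4, 1, 500), (v7, 2,
  133)]), (1000, [], []), (450, [(v34, 2, 44289), (v4, 1, 832500), (v9, 5, 266000), (v6, 0,
  708624)], [(v26, 1, 500), (v5, 2, 931), (v12, 0, 2128)])])) (.far 1))) (.node 0 (-375) (.node
  0 (-250) (.node 3 (-60) (.node 1 (-60) (.node 6 100 (.node 1 100 (.node 5 (-561) (.far 16)
  (.leaf 2000 [(v5, 2, 33), (v8, 1, 8720), (v30, 2, 550), (v1, 6, 22610)] [(0, [(v1, 6, 10),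
  (v7, 2, 1)], [(v8, 1, 3366), (v30, 2, 187), (v14, 5, 400), (v1, 6, 2618)]), (550, [(v30, 2,
  6171), (v14, 5, 2000), (v1, 6, 117810), (v8, 1, 16830)], [(v4, 1, 10), (v7, 2, 1)]), (1000,
  [], []), (128, [(v2, 2, 1), (v1, 6, 10)], [(v30, 2, 1), (v26, 1, 5), (v5, 2, 1), (v1, 6,
  15)])])) (.node 3 317 (.far 4) (.node 4 149 (.leaf 149000 [(v0, 2, 30992), (v29, 4, 227000),
  (v7, 2, 26969), (v39, 6, 351640)] [(0, [(v1, 6, 10), (v7, 2, 1)], [(v6, 4, 1000), (v0, 2,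
  149)]), (20, [(v6, 4, 1000), (v5, 2, 149)], [(v0, 2, 894), (v39, 6, 2980), (v7, 2, 447),
  (v29, 4, 1000)]), (1000, [], []), (128, [(v2, 2, 1), (v1, 6, 10)], [(v0, 2, 447), (v7, 2,
  894), (v29, 4, 2000), (v39, 6, 1490)])]) (.far 1)))) (.node 1 60 (.node 3 149 (.node 5 (-333)
  (.far 8) (.leaf 1984680 [(v37, 5, 241380), (v3, 3, 1618380), (v27, 5, 306940), (v4, 1,
  5110551)] [(0, [(v4, 1, 1929550), (v20, 2, 49617), (v9, 5, 596000), (v15, 3, 1221000)], [(v4,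
  1, 1653900), (v0, 2, 148851), (v14, 5, 298000), (v3, 3, 999000)]), (530, [(v30, 2, 49617),
  (v14, 5, 149000), (v37, 5, 111750), (v3, 3, 1748250)], [(v2, 2, 149), (v4, 1, 3725), (v20, 2,
  149), (v36, 3, 500)]), (0, [(v4, 1, 149), (v3, 3, 60)], []), (574, [(v27, 5, 1500), (v20, 2,
  666), (v9, 5, 2000), (v4, 1, 58275)], [(v0, 2, 149), (v3, 3, 1000)])])) (.far 5)) (.node 3
  149 (.node 4 189 (.node 5 (-646) (.far 8) (.leaf 12516000 [(v36, 3, 2236500), (v20, 2,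
  4258569), (v15, 3, 33054000), (v6, 4, 79938500)] [(0, [(v6, 4, 9625400), (v20, 2, 1299429),
  (v9, 5, 2413800), (v15, 3, 15697800)], [(v6, 4, 1000), (v0, 2, 189)]), (0, [(v6, 4, 1000),
  (v5, 2, 189)], [(v2, 2, 9387), (v6, 4, 74500), (v20, 2, 9387), (v36, 3, 31500)]), (1000, [],
  []), (574, [(v20, 2, 4764573), (v15, 3, 8721000), (v9, 5, 1341000), (v6, 4, 48127000)], [(v0,
  2, 149), (v3, 3, 1000)])])) (.far 1)) (.far 5)))) (.node 3 59 (.node 4 309 (.leaf 145848000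
  [(v6, 4, 426540500), (v15, 3, 1068522000), (v36, 3, 66589500), (v20, 2, 30391077)] [(250, [],
  [(v6, 4, 1000), (v0, 2, 309)]), (-80, [(v6, 4, 1000), (v5, 2, 309)], [(v2, 2, 6077), (v6, 4,
  29500), (v20, 2, 6077), (v36, 3, 51500)]), (1000, [], []), (59, [(v6, 4, 1500), (v20, 2,
  309), (v1, 1, 2575)], [])]) (.far 1)) (.far 8))) (.node 1 59 (.node 6 309 (.leaf 145848000
  [(v1, 6, 426540500), (v30, 2, 30391077), (v26, 1, 66589500), (v8, 1, 1068522000)] [(-250,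
  [(v1, 6, 1000), (v7, 2, 309)], []), (59, [(v30, 2, 309), (v6, 3, 2575), (v1, 6, 1500)], []),
  (1000, [], []), (-80, [(v2, 2, 309), (v1, 6, 1000)], [(v30, 2, 6077), (v26, 1, 51500), (v5,
  2, 6077), (v1, 6, 29500)])]) (.far 5)) (.far 8))) (.node 5 (-333) (.far 8) (.leaf 666000
  [(v0, 2, 12987), (v3, 0, 416916), (v14, 5, 626000), (v11, 0, 468864)] [(-313, [(v1, 0, 4),
  (v7, 2, 1)], [(v11, 0, 5328), (v0, 2, 999), (v14, 5, 2000), (v3, 0, 1332)]), (450, [(v32, 2,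
  333), (v14, 5, 2000), (v1, 0, 5328), (v3, 0, 6660)], [(v0, 2, 1), (v11, 0, 8), (v2, 2, 1)]),
  (0, [(v0, 2, 999), (v11, 0, 7992), (v14, 5, 2000), (v3, 0, 1332)], []), (450, [(v2, 2, 1),
  (v1, 0, 4)], [(v0, 2, 1), (v3, 0, 4)])]))) (.node 5 (-333) (.far 8) (.leaf 8880 [(v0, 2,
  999), (v3, 0, 4440), (v14, 5, 10000), (v11, 0, 7104)] [(-375, [], [(v11, 0, 3552), (v0, 2,
  999), (v14, 5, 2000), (v3, 0, 888)]), (450, [(v32, 2, 333), (v14, 5, 2000), (v1, 0, 3552),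
  (v3, 0, 4440)], [(v0, 2, 3), (v11, 0, 16), (v2, 2, 3)]), (0, [(v0, 2, 999), (v11, 0, 5328),
  (v14, 5, 2000), (v3, 0, 888)], []), (450, [(v2, 2, 3), (v1, 0, 8)], [(v0, 2, 3), (v3, 0,
  8)])])))) (.node 3 99 (.leaf 39600 [(v2, 2, 2475), (v1, 1, 3366), (v36, 3, 5000), (v6, 1,
  6534)] [(-33, [(v1, 1, 10), (v7, 2, 1)], [(v6, 1, 10), (v0, 2, 1)]), (-100, [], [(v2, 2, 99),
  (v1, 1, 396), (v36, 3, 200)]), (0, [(v36, 3, 1000), (v1, 1, 1980), (v2, 2, 99), (v6, 1,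
  3960)], []), (0, [(v2, 2, 1), (v1, 1, 10)], [])]) (.far 8))) (.node 1 99 (.leaf 2000 [(v1, 3,
  330), (v6, 3, 660), (v5, 2, 99)] [(33, [(v1, 3, 10), (v7, 2, 1)], [(v6, 3, 10), (v0, 2, 1)]),
  (99, [(v6, 3, 10), (v5, 2, 1)], []), (0, [(v6, 3, 1980), (v26, 1, 1000), (v1, 3, 3960), (v5,
  2, 99)], []), (0, [], [(v26, 1, 200), (v5, 2, 99), (v6, 3, 396)])]) (.far 8))) (.node 3 149
  (.leaf 14304 [(v2, 2, 1341), (v1, 1, 1192), (v36, 3, 1800), (v6, 1, 2384)] [(-50, [(v1, 1,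
  20), (v7, 2, 3)], [(v6, 1, 20), (v0, 2, 3)]), (-150, [], [(v2, 2, 447), (v1, 1, 1192), (v36,
  3, 600)]), (0, [(v36, 3, 3000), (v1, 1, 5960), (v2, 2, 447), (v6, 1, 11920)], []), (0, [(v2,
  2, 3), (v1, 1, 20)], [])]) (.far 8))) (.node 1 149 (.leaf 6000 [(v1, 3, 980), (v6, 3, 2000),
  (v5, 2, 447)] [(49, [(v1, 3, 20), (v7, 2, 3)], [(v6, 3, 20), (v0, 2, 3)]), (149, [(v6, 3,
  20), (v5, 2, 3)], []), (0, [(v6, 3, 5960), (v26, 1, 3000), (v1, 3, 11920), (v5, 2, 447)],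
  []), (0, [], [(v26, 1, 600), (v5, 2, 447), (v6, 3, 1192)])]) (.far 8))

theorem t2_ok : treeOK dat t2 (rootIv dat 2) = true := by decide +kernel

def t3 : Tree dat :=
.node 2 (-150) (.node 0 150 (.node 2 149 (.leaf 357600 [(v4, 0, 30992), (v6, 0, 58408), (v34,
  2, 45000), (v3, 3, 33525)] [(150, [(v4, 0, 1192), (v34, 2, 600), (v3, 3, 447)], []), (49,
  [(v6, 0, 20), (v5, 3, 3)], [(v4, 0, 20), (v7, 3, 3)]), (0, [(v4, 0, 20), (v3, 3, 3)], []),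
  (0, [(v4, 0, 5960), (v3, 3, 447), (v34, 2, 3000), (v6, 0, 11920)], [])]) (.far 4)) (.node 2
  (-100) (.node 0 100 (.node 2 99 (.leaf 39600 [(v4, 0, 3366), (v6, 0, 6534), (v34, 2, 5000),
  (v3, 3, 2475)] [(100, [(v4, 0, 396), (v34, 2, 200), (v3, 3, 99)], []), (33, [(v6, 0, 10),
  (v5, 3, 1)], [(v4, 0, 10), (v7, 3, 1)]), (0, [(v4, 0, 10), (v3, 3, 1)], []), (0, [(v4, 0,
  1980), (v3, 3, 99), (v34, 2, 1000), (v6, 0, 3960)], [])]) (.far 4)) (.node 1 250 (.node 4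
  (-150) (.node 1 517 (.far 0) (.node 2 199 (.node 6 (-433) (.far 29) (.leaf 21541750 [(v21, 6,
  49750000), (v24, 1, 111930933), (v34, 2, 18943750), (v2, 1, 15165392)] [(-301, [(v24, 1,
  3184), (v34, 2, 1000), (v3, 3, 1393)], [(v2, 1, 9093), (v35, 6, 750), (v30, 3, 433), (v21, 6,
  1000)]), (0, [(v2, 1, 86167), (v34, 2, 108250), (v21, 6, 199000)], []), (599, [(v4, 1, 4),
  (v3, 3, 1)], [(v2, 1, 4), (v5, 3, 1)]), (1000, [], [])])) (.far 0))) (.node 6 (-333) (.far 4)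
  (.leaf 44400 [(v2, 1, 83916), (v5, 3, 14541), (v31, 4, 47360), (v21, 6, 62000)] [(-450,
  [(v31, 4, 40), (v28, 1, 12), (v5, 3, 15), (v3, 3, 12)], [(v2, 1, 6660), (v4, 1, 5328), (v38,
  3, 333), (v21, 6, 2000)]), (625, [(v2, 1, 3996), (v31, 4, 2960), (v5, 3, 1221), (v21, 6,
  2000)], [(v4, 1, 4), (v7, 3, 1)]), (450, [(v4, 1, 4), (v3, 3, 1)], [(v2, 1, 4), (v5, 3, 1)]),
  (0, [(v2, 1, 14652), (v31, 4, 13320), (v5, 3, 2997), (v21, 6, 4000)], [])]))) (.node 1 (-375)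
  (.node 1 (-250) (.node 2 (-60) (.node 0 60 (.node 2 59 (.node 7 309 (.leaf 145848000 [(v20,
  2, 1068522000), (v6, 7, 426540500), (v15, 3, 30391077), (v34, 2, 66589500)] [(80, [(v6, 7,
  29500), (v15, 3, 6077), (v34, 2, 51500), (v3, 3, 6077)], [(v6, 7, 1000), (v0, 3, 309)]),
  (-250, [(v6, 7, 1000), (v5, 3, 309)], []), (59, [(v4, 0, 2575), (v15, 3, 309), (v6, 7,
  1500)], []), (1000, [], [])]) (.far 3)) (.far 4)) (.node 7 100 (.node 2 100 (.node 6 (-561)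
  (.far 31) (.leaf 4000 [(v6, 7, 45210), (v3, 3, 63), (v20, 2, 17420), (v15, 3, 1100)] [(-129,
  [(v6, 7, 15), (v15, 3, 1), (v34, 2, 5), (v3, 3, 1)], [(v6, 7, 10), (v0, 3, 1)]), (0, [(v6, 7,
  10), (v5, 3, 1)], [(v8, 6, 400), (v6, 7, 2618), (v20, 2, 3366), (v15, 3, 187)]), (550, [(v8,
  6, 2000), (v15, 3, 6171), (v20, 2, 16830), (v6, 7, 117810)], [(v2, 2, 10), (v5, 3, 1)]),
  (1000, [], [])])) (.node 0 (-317) (.node 5 149 (.leaf 1788000 [(v16, 7, 3699670), (v7, 3,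
  215901), (v33, 5, 2266000), (v5, 3, 118902)] [(-317, [(v16, 7, 1490), (v7, 3, 447), (v5, 3,
  894), (v33, 5, 2000)], []), (0, [(v6, 7, 10), (v5, 3, 1)], [(v4, 5, 1000), (v7, 3, 149)]),
  (100, [], [(v16, 7, 2980), (v7, 3, 894), (v33, 5, 1000), (v5, 3, 447)]), (1000, [], [])])
  (.far 9)) (.far 2))) (.node 2 60 (.node 0 (-149) (.far 3) (.node 6 (-333) (.far 4) (.leaf
  595404 [(v2, 2, 1538127), (v18, 6, 72265), (v1, 0, 484515), (v35, 6, 92380)] [(-575, [(v1, 0,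
  1000), (v7, 3, 149)], [(v2, 2, 58275), (v35, 6, 1500), (v30, 3, 666), (v21, 6, 2000)]), (0,
  [(v30, 3, 49617), (v2, 2, 1929550), (v9, 0, 1221000), (v21, 6, 596000)], [(v2, 2, 1653900),
  (v1, 0, 999000), (v7, 3, 148851), (v8, 6, 298000)]), (530, [(v8, 6, 149000), (v15, 3, 49617),
  (v1, 0, 1748250), (v18, 6, 111750)], [(v0, 3, 149), (v19, 0, 500), (v2, 2, 3725), (v30, 3,
  149)]), (0, [(v2, 2, 149), (v1, 0, 60)], [])]))) (.node 0 (-149) (.far 3) (.node 5 189 (.node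
  6 (-646) (.far 4) (.leaf 9011520 [(v4, 5, 57588500), (v19, 0, 1606500), (v30, 3, 3069549),
  (v9, 0, 23814000)] [(-575, [(v1, 0, 1000), (v7, 3, 149)], [(v4, 5, 48127000), (v30, 3,
  4764573), (v9, 0, 8721000), (v21, 6, 1341000)]), (0, [(v30, 3, 1299429), (v4, 5, 9625400),
  (v9, 0, 15697800), (v21, 6, 2413800)], [(v4, 5, 1000), (v7, 3, 189)]), (0, [(v4, 5, 1000),
  (v3, 3, 189)], [(v0, 3, 9387), (v19, 0, 31500), (v4, 5, 74500), (v30, 3, 9387)]), (1000, [],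
  [])])) (.far 9)))))) (.node 0 (-59) (.far 4) (.node 5 309 (.leaf 145848000 [(v30, 3,
  30391077), (v4, 5, 426540500), (v9, 0, 1068522000), (v19, 0, 66589500)] [(-59, [], [(v6, 2,
  2575), (v4, 5, 1500), (v30, 3, 309)]), (250, [], [(v4, 5, 1000), (v7, 3, 309)]), (-80, [(v4,
  5, 1000), (v3, 3, 309)], [(v0, 3, 6077), (v19, 0, 51500), (v4, 5, 29500), (v30, 3, 6077)]),
  (1000, [], [])]) (.far 9)))) (.node 6 (-333) (.far 4) (.leaf 666000 [(v23, 1, 468864), (v7,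
  3, 12987), (v1, 1, 416916), (v8, 6, 626000)] [(-450, [(v1, 1, 4), (v7, 3, 1)], [(v6, 1, 4),
  (v0, 3, 1)]), (-313, [(v6, 1, 4), (v5, 3, 1)], [(v23, 1, 5328), (v1, 1, 1332), (v7, 3, 999),
  (v8, 6, 2000)]), (450, [(v8, 6, 2000), (v36, 3, 333), (v1, 1, 6660), (v6, 1, 5328)], [(v0, 3,
  1), (v7, 3, 1), (v23, 1, 8)]), (0, [(v8, 6, 2000), (v7, 3, 999), (v23, 1, 7992), (v1, 1,
  1332)], [])]))) (.node 6 (-333) (.far 4) (.leaf 8880 [(v23, 1, 7104), (v7, 3, 999), (v1, 1,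
  4440), (v8, 6, 10000)] [(-450, [(v1, 1, 8), (v7, 3, 3)], [(v6, 1, 8), (v0, 3, 3)]), (-375,
  [], [(v23, 1, 3552), (v1, 1, 888), (v7, 3, 999), (v8, 6, 2000)]), (450, [(v8, 6, 2000), (v36,
  3, 333), (v1, 1, 4440), (v6, 1, 3552)], [(v0, 3, 3), (v7, 3, 3), (v23, 1, 16)]), (0, [(v8, 6,
  2000), (v7, 3, 999), (v23, 1, 5328), (v1, 1, 888)], [])]))))) (.node 0 (-99) (.far 4) (.leaf
  39600 [(v0, 3, 2475), (v4, 2, 6534), (v6, 2, 3366), (v19, 0, 5000)] [(0, [], [(v6, 2, 10),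
  (v0, 3, 1)]), (-33, [(v6, 2, 10), (v5, 3, 1)], [(v4, 2, 10), (v7, 3, 1)]), (-100, [], [(v0,
  3, 99), (v19, 0, 200), (v6, 2, 396)]), (0, [(v0, 3, 99), (v19, 0, 1000), (v6, 2, 1980), (v4,
  2, 3960)], [])])))) (.node 0 (-149) (.far 4) (.leaf 14304 [(v0, 3, 1341), (v6, 2, 1192),
  (v19, 0, 1800), (v4, 2, 2384)] [(0, [], [(v6, 2, 20), (v0, 3, 3)]), (-50, [(v6, 2, 20), (v5,
  3, 3)], [(v4, 2, 20), (v7, 3, 3)]), (-150, [], [(v0, 3, 447), (v19, 0, 600), (v6, 2, 1192)]),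
  (0, [(v0, 3, 447), (v19, 0, 3000), (v6, 2, 5960), (v4, 2, 11920)], [])]))

theorem t3_ok : treeOK dat t3 (rootIv dat 3) = true := by decide +kernel

def t4 : Tree dat :=
.node 0 (-150) (.node 7 60 (.node 6 250 (.node 1 (-428) (.far 11) (.node 2 751 (.far 12) (.leaf
  963000 [(v3, 1, 1656375), (v24, 6, 1658928), (v28, 6, 272850), (v0, 7, 8404850)] [(425, [(v1,
  1, 125), (v28, 6, 214), (v5, 4, 107), (v3, 1, 500)], [(v2, 6, 1926), (v0, 7, 2675), (v21, 1,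
  750)]), (-714, [(v6, 4, 1), (v5, 4, 1)], [(v0, 7, 2675), (v24, 6, 1284), (v3, 1, 375)]), (0,
  [(v18, 7, 2675), (v3, 1, 4875), (v24, 6, 14124), (v21, 1, 2250)], [(v32, 4, 4), (v20, 6, 48),
  (v27, 4, 1), (v5, 4, 5)]), (-475, [(v39, 6, 4), (v37, 4, 1)], [(v0, 7, 107), (v3, 1,
  15)])]))) (.node 2 150 (.node 1 (-428) (.far 11) (.node 3 (-522) (.node 7 133 (.leaf 25615800
  [(v1, 1, 22034775), (v7, 2, 32617452), (v20, 2, 37968308), (v18, 7, 10304100)] [(407, [(v1,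
  1, 75), (v7, 2, 214)], [(v6, 4, 3), (v0, 2, 20)]), (-428, [], [(v20, 2, 227696), (v1, 1,
  69825), (v7, 2, 170772), (v18, 7, 96300)]), (0, [(v7, 2, 56924), (v1, 1, 49875), (v18, 7,
  32100)], []), (239, [(v2, 2, 214), (v1, 1, 75)], [(v0, 2, 214), (v3, 1, 75)])]) (.far 7))
  (.far 38))) (.node 3 250 (.node 1 (-724) (.far 30) (.node 6 (-149) (.far 4) (.node 7 266
  (.leaf 26969000 [(v14, 4, 8980677), (v1, 1, 19053375), (v7, 3, 84844474), (v8, 6, 70771000)]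
  [(-150, [(v1, 1, 125), (v7, 3, 362)], []), (-724, [], [(v14, 4, 53938), (v1, 1, 167625), (v7,
  3, 593318), (v8, 6, 543000)]), (-217, [(v8, 6, 24073000), (v36, 3, 7173754), (v1, 1,
  37156875), (v18, 7, 13484500)], [(v16, 4, 543), (v7, 3, 15204), (v14, 4, 724), (v9, 1,
  1000)]), (0, [(v8, 6, 362000), (v7, 3, 485442), (v14, 4, 80907), (v1, 1, 204875)], [])])
  (.far 25)))) (.node 5 (-100) (.node 0 149 (.node 1 (-814) (.far 11) (.node 2 (-88) (.far 36)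
  (.node 7 566 (.leaf 0 [] [(0, [(v9, 1, 283000), (v0, 7, 610500), (v5, 4, 230362), (v33, 2,
  1308875)], []), (0, [], [(v0, 7, 3638580), (v2, 0, 3685792), (v9, 1, 337336), (v33, 2,
  4680537)]), (0, [], [(v0, 7, 181929), (v2, 0, 230362), (v9, 1, 84334)]), (0, [(v2, 0, 814),
  (v1, 1, 149)], [(v0, 7, 407), (v3, 1, 283)])]) (.far 11)))) (.far 19)) (.node 0 100 (.node 0
  532 (.node 1 (-628) (.far 33) (.node 7 663 (.leaf 8352400 [(v4, 0, 3242050), (v8, 0,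
  5353700), (v34, 5, 16099251), (v3, 1, 8947575)] [(748, [(v4, 0, 7850), (v34, 5, 20881), (v3,
  1, 16625)], [(v6, 4, 663), (v0, 7, 1000)]), (-794, [(v6, 4, 1), (v5, 4, 1)], [(v8, 0, 31400),
  (v4, 0, 23550), (v34, 5, 62643), (v3, 1, 23275)]), (-129, [(v3, 1, 133), (v4, 0, 157)], [(v2,
  0, 250), (v5, 4, 133)]), (-229, [(v2, 0, 157), (v1, 1, 133)], [(v0, 7, 628), (v3, 1, 663)])])
  (.far 7))) (.node 1 (-772) (.far 0) (.node 7 327 (.leaf 0 [] [(0, [(v4, 0, 386), (v34, 5,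
  193), (v3, 1, 125)], []), (0, [], [(v8, 0, 1544), (v4, 0, 1158), (v34, 5, 579), (v3, 1,
  175)]), (0, [(v3, 1, 25), (v4, 0, 193)], [(v0, 7, 19300), (v2, 0, 21037), (v9, 1, 5450)]),
  (0, [(v2, 0, 193), (v1, 1, 25)], [(v0, 7, 772), (v3, 1, 327)])]) (.far 7)))) (.node 1 (-916)
  (.far 0) (.node 2 (-101) (.node 5 (-149) (.far 19) (.node 7 133 (.leaf 217828464 [(v18, 7,
  327015664), (v3, 1, 34659933), (v1, 1, 29487696), (v34, 5, 285930316)] [(-150, [(v1, 1,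
  59451), (v18, 7, 136484), (v34, 5, 243656), (v3, 1, 118902)], []), (-916, [], [(v18, 7,
  136484), (v1, 1, 19817), (v34, 5, 121828), (v3, 1, 19817)]), (-101, [(v18, 7, 272968), (v3,
  1, 59451), (v34, 5, 121828), (v1, 1, 118902)], []), (-34, [(v2, 5, 916), (v1, 1, 149)], [(v0,
  7, 916), (v3, 1, 133)])]) (.far 7))) (.far 0)))))))) (.node 1 (-831) (.far 11) (.node 3
  (-201) (.far 28) (.node 5 (-606) (.far 11) (.node 6 469 (.leaf 1948695000 [(v3, 1,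
  3806404000), (v4, 3, 16557121000), (v20, 6, 3252534000), (v30, 4, 1430731869)] [(-36, [(v39,
  6, 27977), (v28, 6, 27977), (v13, 5, 259826), (v3, 1, 189476)], [(v4, 3, 111908000), (v38, 4,
  5623377), (v2, 5, 46397500), (v21, 1, 13534000)]), (-916, [(v6, 4, 1), (v5, 4, 1)], [(v30, 4,
  389739), (v4, 3, 5332250), (v20, 6, 1246500), (v3, 1, 1055250)]), (297, [(v4, 3, 277), (v3,
  1, 67)], [(v2, 5, 500), (v5, 4, 303)]), (-601, [(v2, 5, 277), (v1, 1, 202)], [(v4, 3,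
  8725500), (v20, 6, 1662000), (v30, 4, 1169217), (v3, 1, 2579500)])]) (.far 7)))))) (.node 1
  (-716) (.far 0) (.node 2 149 (.leaf 447000 [(v0, 2, 1225500), (v2, 2, 1360500), (v17, 0,
  533420), (v6, 4, 241827)] [(-150, [], [(v6, 4, 149), (v0, 2, 1000)]), (-858, [(v6, 4, 1),
  (v5, 4, 1)], [(v2, 2, 12000), (v17, 0, 2980), (v0, 2, 6000), (v6, 4, 447)]), (574, [(v17, 0,
  596), (v6, 4, 447), (v0, 2, 1200)], [(v32, 4, 240039), (v20, 2, 4296000), (v9, 1, 298000),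
  (v5, 4, 133355)]), (49, [(v2, 2, 716), (v1, 1, 149)], [(v0, 2, 716), (v3, 1, 149)])]) (.far
  0)))

theorem t4_ok : treeOK dat t4 (rootIv dat 4) = true := by decide +kernel

def t5 : Tree dat :=
.node 1 (-150) (.node 4 (-60) (.node 0 201 (.node 2 (-831) (.far 12) (.node 6 (-606) (.far 12)
  (.node 7 469 (.leaf 487173750 [(v15, 5, 357390663), (v1, 2, 950956125), (v2, 0, 4137098875),
  (v30, 7, 812718000)] [(600, [(v1, 2, 2579500), (v2, 0, 8725500), (v30, 7, 1662000), (v15, 5,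
  1169217)], [(v6, 2, 202), (v0, 6, 277)]), (-36, [(v32, 7, 27977), (v16, 7, 27977), (v1, 2,
  189476), (v25, 6, 259826)], [(v2, 0, 111908000), (v31, 2, 13534000), (v17, 5, 5623377), (v0,
  6, 46397500)]), (-916, [(v3, 5, 1), (v4, 5, 1)], [(v30, 7, 1246500), (v15, 5, 389739), (v2,
  0, 5332250), (v1, 2, 1055250)]), (297, [(v2, 0, 277), (v1, 2, 67)], [(v0, 6, 500), (v3, 5,
  303)])]) (.far 11)))) (.far 21)) (.node 7 250 (.node 2 (-428) (.far 12) (.node 3 751 (.far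
  14) (.leaf 963000 [(v7, 4, 8396825), (v1, 2, 1655250), (v10, 7, 1658928), (v32, 7, 272850)]
  [(474, [(v1, 2, 15), (v7, 4, 107)], [(v18, 5, 1), (v16, 7, 4)]), (425, [(v32, 7, 214), (v6,
  2, 125), (v1, 2, 500), (v3, 5, 107)], [(v0, 7, 1926), (v31, 2, 750), (v7, 4, 2675)]), (-714,
  [(v3, 5, 1), (v4, 5, 1)], [(v10, 7, 1284), (v7, 4, 2675), (v1, 2, 375)]), (0, [(v28, 4,
  2675), (v31, 2, 2250), (v1, 2, 4875), (v10, 7, 14124)], [(v18, 5, 2), (v36, 5, 7), (v30, 7,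
  96), (v3, 5, 17)])]))) (.node 3 150 (.node 0 522 (.far 28) (.node 2 (-428) (.far 12) (.node 4
  (-133) (.far 11) (.leaf 25615800 [(v28, 4, 10304100), (v6, 2, 22034775), (v5, 3, 32617452),
  (v30, 3, 37968308)] [(-239, [(v1, 2, 75), (v7, 3, 214)], [(v6, 2, 75), (v0, 3, 214)]), (407,
  [(v6, 2, 75), (v5, 3, 214)], [(v4, 5, 3), (v7, 3, 20)]), (-428, [], [(v30, 3, 227696), (v28,
  4, 96300), (v6, 2, 69825), (v5, 3, 170772)]), (0, [(v28, 4, 32100), (v5, 3, 56924), (v6, 2,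
  49875)], [])])))) (.node 0 (-250) (.node 6 (-100) (.node 1 149 (.node 2 (-814) (.far 12)
  (.node 3 (-88) (.far 26) (.node 4 (-566) (.far 12) (.leaf 0 [] [(0, [(v1, 2, 283), (v7, 4,
  407)], [(v6, 2, 149), (v0, 1, 814)]), (0, [(v7, 4, 610500), (v21, 2, 283000), (v37, 3,
  1308875), (v3, 5, 230362)], []), (0, [], [(v0, 1, 3685792), (v7, 4, 3638580), (v37, 3,
  4680537), (v21, 2, 337336)]), (0, [], [(v0, 1, 230362), (v7, 4, 181929), (v21, 2,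
  84334)])])))) (.far 16)) (.node 1 100 (.node 0 60 (.node 2 (-628) (.far 36) (.node 3 (-408)
  (.node 4 (-327) (.far 11) (.leaf 0 [] [(0, [(v1, 2, 327), (v7, 4, 628)], []), (0, [(v16, 0,
  85565), (v1, 2, 98100), (v7, 4, 15700), (v38, 6, 102678)], []), (0, [], [(v7, 4, 15700),
  (v16, 0, 17113), (v1, 2, 3270)]), (0, [(v2, 1, 157), (v1, 2, 25)], [(v0, 1, 17113), (v7, 4,
  15700), (v21, 2, 5450)])])) (.far 15))) (.node 2 (-686) (.far 23) (.node 3 (-254) (.node 4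
  (-385) (.far 19) (.leaf 823200 [(v2, 1, 3467730), (v1, 2, 548350), (v20, 1, 1627192), (v38,
  6, 1326381)] [(-250, [(v1, 2, 55), (v7, 4, 98)], []), (446, [(v2, 1, 686), (v1, 2, 250),
  (v38, 6, 343)], [(v7, 4, 200), (v4, 5, 77)]), (-843, [(v3, 5, 1), (v4, 5, 1)], [(v38, 6,
  147), (v20, 1, 392), (v2, 1, 294), (v1, 2, 50)]), (-52, [(v2, 1, 343), (v1, 2, 50)], [(v0, 1,
  3773), (v7, 4, 2940), (v21, 2, 1100)])])) (.far 5)))) (.node 2 (-916) (.far 8) (.node 3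
  (-101) (.node 4 (-133) (.far 11) (.node 6 (-149) (.far 16) (.leaf 217828464 [(v38, 6,
  285930316), (v28, 4, 327015664), (v1, 2, 34541031), (v6, 2, 29606598)] [(33, [(v1, 2, 133),
  (v7, 4, 916)], [(v6, 2, 149), (v0, 6, 916)]), (-150, [(v6, 2, 59451), (v1, 2, 118902), (v28,
  4, 136484), (v38, 6, 243656)], []), (-916, [], [(v6, 2, 19817), (v38, 6, 121828), (v28, 4,
  136484), (v1, 2, 19817)]), (-101, [(v38, 6, 121828), (v28, 4, 272968), (v1, 2, 59451), (v6,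
  2, 118902)], [])]))) (.far 8))))) (.node 2 (-724) (.far 23) (.node 4 (-266) (.far 19) (.node
  7 (-149) (.far 2) (.leaf 134845000 [(v8, 5, 102913704), (v20, 7, 655039000), (v5, 0,
  920883474), (v6, 2, 284906625)] [(-625, [(v1, 2, 750), (v17, 5, 181), (v13, 0, 5792)], [(v6,
  2, 204875), (v20, 7, 362000), (v5, 0, 485442), (v8, 5, 80907)]), (263, [(v6, 2, 125), (v5, 0,
  362)], [(v28, 4, 500), (v26, 5, 133)]), (-862, [(v3, 5, 1), (v4, 5, 1)], [(v8, 5, 53938),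
  (v20, 7, 543000), (v6, 2, 167625), (v5, 0, 593318)]), (-217, [(v20, 7, 24073000), (v28, 4,
  13484500), (v19, 0, 7173754), (v6, 2, 37156875)], [(v8, 5, 724), (v26, 5, 543), (v5, 0,
  15204), (v21, 2, 1000)])])))))))) (.node 2 (-716) (.far 8) (.node 3 149 (.leaf 447000 [(v4,
  5, 241827), (v7, 3, 1224000), (v0, 3, 1362000), (v27, 1, 533420)] [(-50, [(v1, 2, 149), (v7,
  3, 716)], [(v6, 2, 149), (v0, 3, 716)]), (-150, [], [(v4, 5, 149), (v7, 3, 1000)]), (-858,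
  [(v3, 5, 1), (v4, 5, 1)], [(v0, 3, 12000), (v7, 3, 6000), (v4, 5, 447), (v27, 1, 2980)]),
  (574, [(v7, 3, 1200), (v27, 1, 596), (v4, 5, 447)], [(v21, 2, 298000), (v36, 5, 240039),
  (v30, 3, 4296000), (v3, 5, 133355)])]) (.far 8)))

theorem t5_ok : treeOK dat t5 (rootIv dat 5) = true := by decide +kernel

def t6 : Tree dat :=
.node 0 150 (.node 2 149 (.node 3 (-716) (.far 4) (.leaf 447000 [(v7, 2, 1225500), (v1, 6,
  241827), (v18, 0, 533420), (v5, 2, 1360500)] [(150, [(v1, 6, 149), (v7, 2, 1000)], []), (49,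
  [(v6, 3, 149), (v5, 2, 716)], [(v4, 3, 149), (v7, 2, 716)]), (574, [(v18, 0, 596), (v7, 2,
  1200), (v1, 6, 447)], [(v30, 2, 4296000), (v34, 6, 240039), (v2, 6, 133355), (v14, 3,
  298000)]), (-858, [(v2, 6, 1), (v1, 6, 1)], [(v18, 0, 2980), (v7, 2, 6000), (v5, 2, 12000),
  (v1, 6, 447)])])) (.far 4)) (.node 7 (-60) (.node 1 (-201) (.far 22) (.node 3 (-831) (.far
  14) (.node 4 469 (.node 5 (-606) (.far 14) (.leaf 1948695000 [(v4, 3, 3806404000), (v20, 6,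
  1430731869), (v30, 4, 3252534000), (v3, 1, 16557121000)] [(36, [(v31, 3, 13534000), (v28, 6,
  5623377), (v5, 5, 46397500), (v3, 1, 111908000)], [(v4, 3, 189476), (v38, 4, 27977), (v10, 5,
  259826), (v29, 4, 27977)]), (-601, [(v6, 3, 202), (v5, 5, 277)], [(v30, 4, 1662000), (v4, 3,
  2579500), (v20, 6, 1169217), (v3, 1, 8725500)]), (297, [(v3, 1, 277), (v4, 3, 67)], [(v2, 6,
  303), (v5, 5, 500)]), (-916, [(v2, 6, 1), (v1, 6, 1)], [(v4, 3, 1055250), (v20, 6, 389739),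
  (v30, 4, 1246500), (v3, 1, 5332250)])])) (.far 6)))) (.node 4 250 (.node 2 751 (.far 12)
  (.node 3 (-428) (.far 14) (.leaf 963000 [(v4, 3, 1656375), (v7, 7, 8404850), (v38, 4,
  272850), (v25, 4, 1658928)] [(-425, [(v31, 3, 750), (v7, 7, 2675), (v5, 4, 1926)], [(v4, 3,
  500), (v2, 6, 107), (v6, 3, 125), (v38, 4, 214)]), (-475, [(v27, 6, 1), (v29, 4, 4)], [(v4,
  3, 15), (v7, 7, 107)]), (0, [(v4, 3, 4875), (v17, 7, 2675), (v31, 3, 2250), (v25, 4, 14124)],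
  [(v30, 4, 48), (v34, 6, 4), (v2, 6, 5), (v37, 6, 1)]), (-714, [(v2, 6, 1), (v1, 6, 1)], [(v7,
  7, 2675), (v25, 4, 1284), (v4, 3, 375)])]))) (.node 2 150 (.node 1 (-522) (.node 3 (-428)
  (.far 14) (.node 7 (-133) (.far 6) (.leaf 102463200 [(v0, 2, 277846044), (v6, 3, 194263125),
  (v17, 7, 124130700), (v30, 2, 216994288)] [(-408, [(v1, 6, 3), (v7, 2, 20)], [(v6, 3, 75),
  (v0, 2, 214)]), (239, [(v6, 3, 75), (v5, 2, 214)], [(v4, 3, 75), (v7, 2, 214)]), (575, [(v6,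
  3, 49875), (v0, 2, 56924), (v17, 7, 32100)], [(v30, 2, 160), (v34, 6, 7), (v2, 6, 17), (v27,
  6, 2)]), (-714, [(v2, 6, 1), (v1, 6, 1)], [(v0, 2, 170772), (v17, 7, 96300), (v30, 2,
  227696), (v6, 3, 69825)])]))) (.far 32)) (.node 1 250 (.node 3 (-724) (.far 31) (.node 4
  (-149) (.far 0) (.node 7 (-266) (.far 17) (.leaf 134845000 [(v15, 4, 655039000), (v9, 6,
  102913704), (v6, 3, 284906625), (v0, 1, 920883474)] [(-263, [(v1, 6, 133), (v7, 7, 500)],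
  [(v6, 3, 125), (v0, 1, 362)]), (625, [(v0, 1, 485442), (v6, 3, 204875), (v9, 6, 80907), (v15,
  4, 362000)], [(v28, 6, 181), (v22, 1, 5792), (v4, 3, 750)]), (-217, [(v26, 1, 7173754), (v15,
  4, 24073000), (v17, 7, 13484500), (v6, 3, 37156875)], [(v0, 1, 15204), (v19, 6, 543), (v14,
  3, 1000), (v9, 6, 724)]), (-862, [(v2, 6, 1), (v1, 6, 1)], [(v0, 1, 593318), (v15, 4,
  543000), (v9, 6, 53938), (v6, 3, 167625)])])))) (.node 5 (-100) (.node 0 (-149) (.far 20)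
  (.node 2 (-88) (.far 34) (.node 3 (-814) (.far 14) (.node 7 (-566) (.far 14) (.leaf 0 [] [(0,
  [], [(v2, 6, 230362), (v7, 7, 610500), (v14, 3, 283000), (v35, 2, 1308875)]), (0, [(v6, 3,
  149), (v5, 0, 814)], [(v4, 3, 283), (v7, 7, 407)]), (0, [], [(v7, 7, 181929), (v14, 3,
  84334), (v5, 0, 230362)]), (0, [], [(v14, 3, 337336), (v7, 7, 3638580), (v5, 0, 3685792),
  (v35, 2, 4680537)])]))))) (.node 0 (-100) (.node 2 (-101) (.node 3 (-916) (.far 4) (.node 5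
  (-149) (.far 20) (.node 7 (-133) (.far 6) (.leaf 36304744 [(v4, 3, 10403925), (v17, 7,
  66467708), (v6, 3, 9294173), (v32, 5, 58842924)] [(0, [(v1, 6, 133), (v7, 7, 1000)], [(v4, 3,
  118902), (v17, 7, 136484), (v32, 5, 243656), (v6, 3, 59451)]), (-34, [(v6, 3, 149), (v5, 5,
  916)], [(v4, 3, 133), (v7, 7, 916)]), (24, [(v4, 3, 59451), (v17, 7, 272968), (v6, 3,
  118902), (v32, 5, 121828)], [(v2, 6, 149), (v5, 5, 1000)]), (-958, [(v2, 6, 1), (v1, 6, 1)],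
  [(v4, 3, 19817), (v32, 5, 121828), (v6, 3, 19817), (v17, 7, 136484)])])))) (.far 4)) (.node 0
  (-533) (.node 3 (-772) (.far 4) (.node 7 (-327) (.far 6) (.leaf 0 [] [(0, [], [(v4, 3, 125),
  (v32, 5, 193), (v3, 0, 386)]), (0, [(v6, 3, 25), (v5, 0, 193)], [(v4, 3, 327), (v7, 7,
  772)]), (0, [(v4, 3, 25), (v3, 0, 193)], [(v7, 7, 19300), (v14, 3, 5450), (v5, 0, 21037)]),
  (0, [], [(v4, 3, 175), (v15, 0, 1544), (v32, 5, 579), (v3, 0, 1158)])]))) (.node 3 (-628)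
  (.far 37) (.node 7 (-664) (.far 6) (.leaf 66944800 [(v3, 0, 25967800), (v4, 3, 71781775),
  (v32, 5, 129119783), (v15, 0, 42829600)] [(-749, [(v1, 6, 83), (v7, 7, 125)], [(v4, 3,
  66625), (v32, 5, 83681), (v3, 0, 31400)]), (-229, [(v6, 3, 533), (v5, 0, 628)], [(v4, 3,
  166), (v7, 7, 157)]), (-129, [(v4, 3, 533), (v3, 0, 628)], [(v2, 6, 533), (v5, 0, 1000)]),
  (-794, [(v2, 6, 1), (v1, 6, 1)], [(v4, 3, 93275), (v15, 0, 125600), (v32, 5, 251043), (v3, 0,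
  94200)])]))))))))))

theorem t6_ok : treeOK dat t6 (rootIv dat 6) = true := by decide +kernel

def t7 : Tree dat :=
.node 1 150 (.node 0 716 (.node 3 149 (.leaf 894000 [(v3, 3, 2295000), (v28, 1, 533420), (v5,
  3, 927000), (v6, 7, 80013)] [(716, [(v6, 7, 447), (v28, 1, 2980), (v5, 3, 6000), (v3, 3,
  12000)], []), (0, [(v6, 7, 149), (v5, 3, 1000)], []), (49, [(v4, 0, 149), (v3, 3, 716)],
  [(v2, 0, 149), (v5, 3, 716)]), (0, [(v28, 1, 596), (v5, 3, 1200), (v6, 7, 447)], [])]) (.far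
  2)) (.far 2)) (.node 4 60 (.node 5 250 (.node 0 428 (.node 3 751 (.far 14) (.leaf 963000
  [(v11, 5, 557256), (v2, 0, 1334625), (v5, 4, 6109700), (v17, 5, 272850)] [(428, [(v2, 0,
  375), (v5, 4, 2675), (v11, 5, 1284)], []), (-425, [(v14, 0, 750), (v5, 4, 2675), (v3, 5,
  1926)], [(v2, 0, 500), (v4, 0, 125), (v17, 5, 214), (v0, 7, 107)]), (-475, [(v12, 7, 1),
  (v11, 5, 4)], [(v2, 0, 15), (v5, 4, 107)]), (0, [(v2, 0, 4875), (v11, 5, 14124), (v27, 4,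
  2675), (v14, 0, 2250)], [(v0, 7, 5), (v15, 5, 48), (v38, 7, 4), (v18, 7, 1)])])) (.far 6))
  (.node 3 150 (.node 0 428 (.node 2 (-522) (.node 4 133 (.leaf 12807900 [(v7, 3, 16351419),
  (v4, 0, 11032350), (v27, 4, 5152050), (v15, 3, 18984154)] [(428, [(v4, 0, 69825), (v7, 3,
  170772), (v27, 4, 96300), (v15, 3, 227696)], []), (-408, [(v6, 7, 3), (v5, 3, 20)], [(v4, 0,
  75), (v7, 3, 214)]), (239, [(v4, 0, 75), (v3, 3, 214)], [(v2, 0, 75), (v5, 3, 214)]), (0,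
  [(v7, 3, 56924), (v27, 4, 32100), (v4, 0, 49875)], [])]) (.far 10)) (.far 35)) (.far 6))
  (.node 2 250 (.node 0 724 (.node 4 266 (.node 5 (-149) (.far 8) (.leaf 26969000 [(v9, 5,
  70771000), (v4, 0, 26745500), (v7, 2, 107120868), (v21, 7, 8980677)] [(724, [(v4, 0, 167625),
  (v7, 2, 593318), (v9, 5, 543000), (v21, 7, 53938)], []), (-263, [(v27, 4, 500), (v29, 7,
  133)], [(v4, 0, 125), (v7, 2, 362)]), (0, [(v4, 0, 204875), (v7, 2, 485442), (v9, 5, 362000),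
  (v21, 7, 80907)], []), (-217, [(v27, 4, 13484500), (v34, 2, 7173754), (v9, 5, 24073000), (v4,
  0, 37156875)], [(v8, 0, 1000), (v7, 2, 15204), (v29, 7, 543), (v21, 7, 724)])])) (.far 24))
  (.far 24)) (.node 6 (-100) (.node 0 814 (.node 1 (-149) (.far 17) (.node 3 (-88) (.far 37)
  (.node 4 566 (.leaf 0 [] [(0, [(v39, 3, 4680537), (v8, 0, 337336), (v5, 4, 3638580), (v3, 1,
  3685792)], []), (0, [], [(v0, 7, 230362), (v39, 3, 1308875), (v5, 4, 610500), (v8, 0,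
  283000)]), (0, [(v3, 1, 814), (v4, 0, 149)], [(v2, 0, 283), (v5, 4, 407)]), (0, [], [(v8, 0,
  84334), (v5, 4, 181929), (v3, 1, 230362)])]) (.far 6)))) (.far 6)) (.node 1 (-100) (.node 0
  916 (.node 3 (-101) (.node 4 133 (.node 6 (-149) (.far 17) (.leaf 217828464 [(v2, 0,
  34659933), (v27, 4, 327015664), (v36, 6, 285930316), (v4, 0, 29487696)] [(916, [(v27, 4,
  136484), (v2, 0, 19817), (v36, 6, 121828), (v4, 0, 19817)], []), (150, [], [(v2, 0, 118902),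
  (v4, 0, 59451), (v27, 4, 136484), (v36, 6, 243656)]), (-34, [(v3, 6, 916), (v4, 0, 149)],
  [(v2, 0, 133), (v5, 4, 916)]), (-101, [(v2, 0, 59451), (v36, 6, 121828), (v27, 4, 272968),
  (v4, 0, 118902)], [])])) (.far 10)) (.far 2)) (.far 2)) (.node 0 628 (.node 2 (-708) (.node 3
  (-408) (.node 4 327 (.leaf 94200 [(v1, 1, 87135), (v2, 0, 17800), (v9, 1, 197192), (v36, 6,
  73947)] [(628, [(v1, 1, 942), (v2, 0, 175), (v9, 1, 1256), (v36, 6, 471)], []), (0, [], [(v2,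
  0, 125), (v1, 1, 314), (v36, 6, 157)]), (0, [(v4, 0, 25), (v3, 1, 157)], [(v2, 0, 327), (v5,
  4, 628)]), (-129, [(v2, 0, 25), (v1, 1, 157)], [(v8, 0, 5450), (v5, 4, 15700), (v3, 1,
  17113)])]) (.far 10)) (.far 15)) (.far 13)) (.far 27))))))) (.node 0 831 (.node 2 (-201)
  (.far 32) (.node 5 469 (.node 6 (-606) (.far 6) (.leaf 1948695000 [(v1, 2, 16546456500), (v2,
  0, 3804293500), (v30, 7, 1429952391), (v15, 5, 3250041000)] [(915, [(v1, 2, 5332250), (v2, 0,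
  1055250), (v30, 7, 389739), (v15, 5, 1246500)], [(v6, 7, 1), (v0, 7, 1)]), (36, [(v32, 7,
  5623377), (v14, 0, 13534000), (v1, 2, 111908000), (v3, 6, 46397500)], [(v2, 0, 189476), (v33,
  5, 27977), (v17, 5, 27977), (v22, 6, 259826)]), (-601, [(v4, 0, 202), (v3, 6, 277)], [(v30,
  7, 1169217), (v15, 5, 1662000), (v2, 0, 2579500), (v1, 2, 8725500)]), (297, [(v2, 0, 67),
  (v1, 2, 277)], [(v0, 7, 303), (v3, 6, 500)])])) (.far 10))) (.far 6)))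

theorem t7_ok : treeOK dat t7 (rootIv dat 7) = true := by decide +kernel

end Pool.Agent.Y81.Proj.BlockFour
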