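import Mathlib
import Pool.Agent.Y81.ProjTree

/-! Certificate data of a block: rows, points of the unit ball, relations. -/

set_option maxRecDepth 100000

namespace Pool.Agent.Y81.Proj.BlockThree

def r0 : List ℤ := [5, 2, 3, 4, 0, 0, 0, 0, 0, 0]
def r1 : List ℤ := [-5, -2, -3, -4, 0, 0, 0, 0, 0, 0]
def r2 : List ℤ := [3, 5, 2, 0, 4, 0, 0, 0, 0, 0]
def r3 : List ℤ := [-3, -5, -2, 0, -4, 0, 0, 0, 0, 0]
def r4 : List ℤ := [2, 3, 5, 0, 0, 4, 0, 0, 0, 0]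
def r5 : List ℤ := [-2, -3, -5, 0, 0, -4, 0, 0, 0, 0]
def r6 : List ℤ := [-3, 2, 6, 0, 0, 0, 8, 0, 0, 0]
def r7 : List ℤ := [3, -2, -6, 0, 0, 0, -8, 0, 0, 0]
def r8 : List ℤ := [6, -3, 2, 0, 0, 0, 0, 8, 0, 0]
def r9 : List ℤ := [-6, 3, -2, 0, 0, 0, 0, -8, 0, 0]
def r10 : List ℤ := [2, 6, -3, 0, 0, 0, 0, 0, 8, 0]
def r11 : List ℤ := [-2, -6, 3, 0, 0, 0, 0, 0, -8, 0]
def r12 : List ℤ := [-9, -9, -9, 0, 0, 0, 0, 0, 0, 8]
def r13 : List ℤ := [9, 9, 9, 0, 0, 0, 0, 0, 0, -8]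
def r14 : List ℤ := [-1, 11, 0, -8, 12, 0, 0, 0, 0, 0]
def r15 : List ℤ := [1, -11, 0, 8, -12, 0, 0, 0, 0, 0]
def r16 : List ℤ := [-19, -1, 0, -20, 0, 12, 0, 0, 0, 0]
def r17 : List ℤ := [19, 1, 0, 20, 0, -12, 0, 0, 0, 0]
def r18 : List ℤ := [-13, -2, 0, -8, 0, 0, 8, 0, 0, 0]
def r19 : List ℤ := [13, 2, 0, 8, 0, 0, -8, 0, 0, 0]
def r20 : List ℤ := [8, -13, 0, -8, 0, 0, 0, 24, 0, 0]
def r21 : List ℤ := [-8, 13, 0, 8, 0, 0, 0, -24, 0, 0]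
def r22 : List ℤ := [7, 8, 0, 4, 0, 0, 0, 0, 8, 0]
def r23 : List ℤ := [-7, -8, 0, -4, 0, 0, 0, 0, -8, 0]
def r24 : List ℤ := [6, -3, 0, 12, 0, 0, 0, 0, 0, 8]
def r25 : List ℤ := [-6, 3, 0, -12, 0, 0, 0, 0, 0, -8]
def r26 : List ℤ := [-11, -19, 0, 0, -20, 8, 0, 0, 0, 0]
def r27 : List ℤ := [11, 19, 0, 0, 20, -8, 0, 0, 0, 0]
def r28 : List ℤ := [-12, -13, 0, 0, -12, 0, 8, 0, 0, 0]
def r29 : List ℤ := [12, 13, 0, 0, 12, 0, -8, 0, 0, 0]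
def r30 : List ℤ := [3, -8, 0, 0, -4, 0, 0, 8, 0, 0]
def r31 : List ℤ := [-3, 8, 0, 0, 4, 0, 0, -8, 0, 0]
def r32 : List ℤ := [13, 27, 0, 0, 12, 0, 0, 0, 16, 0]
def r33 : List ℤ := [-13, -27, 0, 0, -12, 0, 0, 0, -16, 0]
def r34 : List ℤ := [9, 27, 0, 0, 36, 0, 0, 0, 0, 16]
def r35 : List ℤ := [-9, -27, 0, 0, -36, 0, 0, 0, 0, -16]
def r36 : List ℤ := [-27, -8, 0, 0, 0, -24, 40, 0, 0, 0]
def r37 : List ℤ := [27, 8, 0, 0, 0, 24, -40, 0, 0, 0]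
def r38 : List ℤ := [26, -21, 0, 0, 0, -8, 0, 40, 0, 0]
def r39 : List ℤ := [-26, 21, 0, 0, 0, 8, 0, -40, 0, 0]
def r40 : List ℤ := [16, 39, 0, 0, 0, 12, 0, 0, 40, 0]
def r41 : List ℤ := [-16, -39, 0, 0, 0, -12, 0, 0, -40, 0]
def r42 : List ℤ := [-27, -18, 0, 0, 0, 36, 0, 0, 0, 40]
def r43 : List ℤ := [27, 18, 0, 0, 0, -36, 0, 0, 0, -40]
def r44 : List ℤ := [21, -11, 0, 0, 0, 0, -8, 24, 0, 0]
def r45 : List ℤ := [-21, 11, 0, 0, 0, 0, 8, -24, 0, 0]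
def r46 : List ℤ := [1, 14, 0, 0, 0, 0, 8, 0, 16, 0]
def r47 : List ℤ := [-1, -14, 0, 0, 0, 0, -8, 0, -16, 0]
def r48 : List ℤ := [-27, -12, 0, 0, 0, 0, 24, 0, 0, 16]
def r49 : List ℤ := [27, 12, 0, 0, 0, 0, -24, 0, 0, -16]
def r50 : List ℤ := [22, 3, 0, 0, 0, 0, 0, 24, 16, 0]
def r51 : List ℤ := [36, -45, 0, 0, 0, 0, 0, 72, 0, 16]
def r52 : List ℤ := [-36, 45, 0, 0, 0, 0, 0, -72, 0, -16]
def r53 : List ℤ := [-15, -27, 0, 0, 0, 0, 0, 0, -24, 8]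
def r54 : List ℤ := [15, 27, 0, 0, 0, 0, 0, 0, 24, -8]
def r55 : List ℤ := [-19, 0, -11, -20, 8, 0, 0, 0, 0, 0]
def r56 : List ℤ := [19, 0, 11, 20, -8, 0, 0, 0, 0, 0]
def r57 : List ℤ := [-11, 0, 1, -12, 0, 8, 0, 0, 0, 0]
def r58 : List ℤ := [11, 0, -1, 12, 0, -8, 0, 0, 0, 0]
def r59 : List ℤ := [-8, 0, 3, -4, 0, 0, 8, 0, 0, 0]
def r60 : List ℤ := [8, 0, -3, 4, 0, 0, -8, 0, 0, 0]
def r61 : List ℤ := [27, 0, 13, 12, 0, 0, 0, 16, 0, 0]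
def r62 : List ℤ := [-27, 0, -13, -12, 0, 0, 0, -16, 0, 0]
def r63 : List ℤ := [-13, 0, -12, -12, 0, 0, 0, 0, 8, 0]
def r64 : List ℤ := [13, 0, 12, 12, 0, 0, 0, 0, -8, 0]
def r65 : List ℤ := [27, 0, 9, 36, 0, 0, 0, 0, 0, 16]
def r66 : List ℤ := [-27, 0, -9, -36, 0, 0, 0, 0, 0, -16]
def r67 : List ℤ := [1, 0, 19, 0, -12, 20, 0, 0, 0, 0]
def r68 : List ℤ := [-1, 0, -19, 0, 12, -20, 0, 0, 0, 0]
def r69 : List ℤ := [-21, 0, 26, 0, -8, 0, 40, 0, 0, 0]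
def r70 : List ℤ := [21, 0, -26, 0, 8, 0, -40, 0, 0, 0]
def r71 : List ℤ := [39, 0, 16, 0, 12, 0, 0, 40, 0, 0]
def r72 : List ℤ := [-39, 0, -16, 0, -12, 0, 0, -40, 0, 0]
def r73 : List ℤ := [-8, 0, -27, 0, -24, 0, 0, 0, 40, 0]
def r74 : List ℤ := [8, 0, 27, 0, 24, 0, 0, 0, -40, 0]
def r75 : List ℤ := [-18, 0, -27, 0, 36, 0, 0, 0, 0, 40]
def r76 : List ℤ := [18, 0, 27, 0, -36, 0, 0, 0, 0, -40]
def r77 : List ℤ := [-13, 0, 8, 0, 0, -8, 24, 0, 0, 0]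
def r78 : List ℤ := [13, 0, -8, 0, 0, 8, -24, 0, 0, 0]
def r79 : List ℤ := [8, 0, 7, 0, 0, 4, 0, 8, 0, 0]
def r80 : List ℤ := [-8, 0, -7, 0, 0, -4, 0, -8, 0, 0]
def r81 : List ℤ := [-2, 0, -13, 0, 0, -8, 0, 0, 8, 0]
def r82 : List ℤ := [2, 0, 13, 0, 0, 8, 0, 0, -8, 0]
def r83 : List ℤ := [-3, 0, 6, 0, 0, 12, 0, 0, 0, 8]
def r84 : List ℤ := [3, 0, -6, 0, 0, -12, 0, 0, 0, -8]
def r85 : List ℤ := [3, 0, 22, 0, 0, 0, 24, 16, 0, 0]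
def r86 : List ℤ := [11, 0, -21, 0, 0, 0, -24, 0, 8, 0]
def r87 : List ℤ := [-11, 0, 21, 0, 0, 0, 24, 0, -8, 0]
def r88 : List ℤ := [-45, 0, 36, 0, 0, 0, 72, 0, 0, 16]
def r89 : List ℤ := [45, 0, -36, 0, 0, 0, -72, 0, 0, -16]
def r90 : List ℤ := [14, 0, 1, 0, 0, 0, 0, 16, 8, 0]
def r91 : List ℤ := [-14, 0, -1, 0, 0, 0, 0, -16, -8, 0]
def r92 : List ℤ := [-27, 0, -15, 0, 0, 0, 0, -24, 0, 8]
def r93 : List ℤ := [27, 0, 15, 0, 0, 0, 0, 24, 0, -8]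
def r94 : List ℤ := [-12, 0, -27, 0, 0, 0, 0, 0, 24, 16]
def r95 : List ℤ := [12, 0, 27, 0, 0, 0, 0, 0, -24, -16]
def r96 : List ℤ := [-35, 0, 0, -38, 2, 22, 0, 0, 0, 0]
def r97 : List ℤ := [35, 0, 0, 38, -2, -22, 0, 0, 0, 0]
def r98 : List ℤ := [-145, 0, 0, -104, 24, 0, 88, 0, 0, 0]
def r99 : List ℤ := [145, 0, 0, 104, -24, 0, -88, 0, 0, 0]
def r100 : List ℤ := [25, 0, 0, -64, 52, 0, 0, 88, 0, 0]
def r101 : List ℤ := [-25, 0, 0, 64, -52, 0, 0, -88, 0, 0]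
def r102 : List ℤ := [85, 0, 0, 108, -96, 0, 0, 0, 88, 0]
def r103 : List ℤ := [-85, 0, 0, -108, 96, 0, 0, 0, -88, 0]
def r104 : List ℤ := [63, 0, 0, 108, 36, 0, 0, 0, 0, 88]
def r105 : List ℤ := [-25, 0, 0, -32, 0, 24, -8, 0, 0, 0]
def r106 : List ℤ := [85, 0, 0, 84, 0, -52, 0, 8, 0, 0]
def r107 : List ℤ := [-85, 0, 0, -84, 0, 52, 0, -8, 0, 0]
def r108 : List ℤ := [-145, 0, 0, -156, 0, 96, 0, 0, 8, 0]
def r109 : List ℤ := [145, 0, 0, 156, 0, -96, 0, 0, -8, 0]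
def r110 : List ℤ := [185, 0, 0, 88, 0, 0, -104, 48, 0, 0]
def r111 : List ℤ := [-185, 0, 0, -88, 0, 0, 104, -48, 0, 0]
def r112 : List ℤ := [-45, 0, 0, -28, 0, 0, 32, 0, 8, 0]
def r113 : List ℤ := [45, 0, 0, 28, 0, 0, -32, 0, -8, 0]
def r114 : List ℤ := [51, 0, 0, 48, 0, 0, -24, 0, 0, 16]
def r115 : List ℤ := [155, 0, 0, -12, 0, 0, 0, 192, 104, 0]
def r116 : List ℤ := [27, 0, 0, 90, 0, 0, 0, -36, 0, 52]
def r117 : List ℤ := [69, 0, 0, 108, 0, 0, 0, 0, 24, 64]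
def r118 : List ℤ := [-69, 0, 0, -108, 0, 0, 0, 0, -24, -64]
def r119 : List ℤ := [-85, 0, 0, 0, 32, -104, 152, 0, 0, 0]
def r120 : List ℤ := [85, 0, 0, 0, -32, 104, -152, 0, 0, 0]
def r121 : List ℤ := [145, 0, 0, 0, 84, -64, 0, 152, 0, 0]
def r122 : List ℤ := [-145, 0, 0, 0, -84, 64, 0, -152, 0, 0]
def r123 : List ℤ := [-25, 0, 0, 0, -156, 108, 0, 0, 152, 0]
def r124 : List ℤ := [25, 0, 0, 0, 156, -108, 0, 0, -152, 0]
def r125 : List ℤ := [-63, 0, 0, 0, 72, 108, 0, 0, 0, 152]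
def r126 : List ℤ := [63, 0, 0, 0, -72, -108, 0, 0, 0, -152]
def r127 : List ℤ := [135, 0, 0, 0, 44, 0, -64, 104, 0, 0]
def r128 : List ℤ := [-135, 0, 0, 0, -44, 0, 64, -104, 0, 0]
def r129 : List ℤ := [-155, 0, 0, 0, -168, 0, 216, 0, 208, 0]
def r130 : List ℤ := [155, 0, 0, 0, 168, 0, -216, 0, -208, 0]
def r131 : List ℤ := [-207, 0, 0, 0, 144, 0, 216, 0, 0, 208]
def r132 : List ℤ := [207, 0, 0, 0, -144, 0, -216, 0, 0, -208]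
def r133 : List ℤ := [185, 0, 0, 0, -12, 0, 0, 216, 128, 0]
def r134 : List ℤ := [-185, 0, 0, 0, 12, 0, 0, -216, -128, 0]
def r135 : List ℤ := [153, 0, 0, 0, 180, 0, 0, 216, 0, 128]
def r136 : List ℤ := [-1, 0, 0, 0, 6, 0, 0, 0, -4, 4]
def r137 : List ℤ := [1, 0, 0, 0, -6, 0, 0, 0, 4, -4]
def r138 : List ℤ := [-185, 0, 0, 0, 0, -168, 312, 0, 64, 0]
def r139 : List ℤ := [185, 0, 0, 0, 0, 168, -312, 0, -64, 0]
def r140 : List ℤ := [-27, 0, 0, 0, 0, -72, 72, 0, 0, -32]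
def r141 : List ℤ := [45, 0, 0, 0, 0, -2, 0, 52, 28, 0]
def r142 : List ℤ := [-45, 0, 0, 0, 0, 2, 0, -52, -28, 0]
def r143 : List ℤ := [-69, 0, 0, 0, 0, 60, 0, -48, 0, 56]
def r144 : List ℤ := [69, 0, 0, 0, 0, -60, 0, 48, 0, -56]
def r145 : List ℤ := [-51, 0, 0, 0, 0, 108, 0, 0, 48, 104]
def r146 : List ℤ := [51, 0, 0, 0, 0, -108, 0, 0, -48, -104]
def r147 : List ℤ := [-549, 0, 0, 0, 0, 0, 360, -288, 0, 176]
def r148 : List ℤ := [549, 0, 0, 0, 0, 0, -360, 288, 0, -176]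
def r149 : List ℤ := [-183, 0, 0, 0, 0, 0, 216, 0, 96, 112]
def r150 : List ℤ := [183, 0, 0, 0, 0, 0, -216, 0, -96, -112]
def r151 : List ℤ := [183, 0, 0, 0, 0, 0, 0, 216, 120, 8]
def r152 : List ℤ := [-183, 0, 0, 0, 0, 0, 0, -216, -120, -8]
def r153 : List ℤ := [0, 19, 1, -12, 20, 0, 0, 0, 0, 0]
def r154 : List ℤ := [0, -19, -1, 12, -20, 0, 0, 0, 0, 0]
def r155 : List ℤ := [0, 11, 19, -8, 0, 20, 0, 0, 0, 0]
def r156 : List ℤ := [0, -11, -19, 8, 0, -20, 0, 0, 0, 0]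
def r157 : List ℤ := [0, 16, 39, 12, 0, 0, 40, 0, 0, 0]
def r158 : List ℤ := [0, -16, -39, -12, 0, 0, -40, 0, 0, 0]
def r159 : List ℤ := [0, -27, -8, -24, 0, 0, 0, 40, 0, 0]
def r160 : List ℤ := [0, 27, 8, 24, 0, 0, 0, -40, 0, 0]
def r161 : List ℤ := [0, 26, -21, -8, 0, 0, 0, 0, 40, 0]
def r162 : List ℤ := [0, -26, 21, 8, 0, 0, 0, 0, -40, 0]
def r163 : List ℤ := [0, -27, -18, 36, 0, 0, 0, 0, 0, 40]
def r164 : List ℤ := [0, 27, 18, -36, 0, 0, 0, 0, 0, -40]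
def r165 : List ℤ := [0, -1, 11, 0, -8, 12, 0, 0, 0, 0]
def r166 : List ℤ := [0, 1, -11, 0, 8, -12, 0, 0, 0, 0]
def r167 : List ℤ := [0, 7, 8, 0, 4, 0, 8, 0, 0, 0]
def r168 : List ℤ := [0, -7, -8, 0, -4, 0, -8, 0, 0, 0]
def r169 : List ℤ := [0, -13, -2, 0, -8, 0, 0, 8, 0, 0]
def r170 : List ℤ := [0, 13, 2, 0, 8, 0, 0, -8, 0, 0]
def r171 : List ℤ := [0, 8, -13, 0, -8, 0, 0, 0, 24, 0]
def r172 : List ℤ := [0, -8, 13, 0, 8, 0, 0, 0, -24, 0]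
def r173 : List ℤ := [0, 6, -3, 0, 12, 0, 0, 0, 0, 8]
def r174 : List ℤ := [0, -6, 3, 0, -12, 0, 0, 0, 0, -8]
def r175 : List ℤ := [0, 13, 27, 0, 0, 12, 16, 0, 0, 0]
def r176 : List ℤ := [0, -13, -27, 0, 0, -12, -16, 0, 0, 0]
def r177 : List ℤ := [0, -12, -13, 0, 0, -12, 0, 8, 0, 0]
def r178 : List ℤ := [0, 12, 13, 0, 0, 12, 0, -8, 0, 0]
def r179 : List ℤ := [0, 3, -8, 0, 0, -4, 0, 0, 8, 0]
def r180 : List ℤ := [0, -3, 8, 0, 0, 4, 0, 0, -8, 0]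
def r181 : List ℤ := [0, 9, 27, 0, 0, 36, 0, 0, 0, 16]
def r182 : List ℤ := [0, -9, -27, 0, 0, -36, 0, 0, 0, -16]
def r183 : List ℤ := [0, 1, 14, 0, 0, 0, 16, 8, 0, 0]
def r184 : List ℤ := [0, -1, -14, 0, 0, 0, -16, -8, 0, 0]
def r185 : List ℤ := [0, 22, 3, 0, 0, 0, 16, 0, 24, 0]
def r186 : List ℤ := [0, -15, -27, 0, 0, 0, -24, 0, 0, 8]
def r187 : List ℤ := [0, 15, 27, 0, 0, 0, 24, 0, 0, -8]
def r188 : List ℤ := [0, 21, -11, 0, 0, 0, 0, -8, 24, 0]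
def r189 : List ℤ := [0, -21, 11, 0, 0, 0, 0, 8, -24, 0]
def r190 : List ℤ := [0, -27, -12, 0, 0, 0, 0, 24, 0, 16]
def r191 : List ℤ := [0, 27, 12, 0, 0, 0, 0, -24, 0, -16]
def r192 : List ℤ := [0, 36, -45, 0, 0, 0, 0, 0, 72, 16]
def r193 : List ℤ := [0, -36, 45, 0, 0, 0, 0, 0, -72, -16]
def r194 : List ℤ := [0, -35, 0, 22, -38, 2, 0, 0, 0, 0]
def r195 : List ℤ := [0, 35, 0, -22, 38, -2, 0, 0, 0, 0]
def r196 : List ℤ := [0, -145, 0, 96, -156, 0, 8, 0, 0, 0]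
def r197 : List ℤ := [0, 145, 0, -96, 156, 0, -8, 0, 0, 0]
def r198 : List ℤ := [0, -25, 0, 24, -32, 0, 0, -8, 0, 0]
def r199 : List ℤ := [0, 85, 0, -52, 84, 0, 0, 0, 8, 0]
def r200 : List ℤ := [0, -85, 0, 52, -84, 0, 0, 0, -8, 0]
def r201 : List ℤ := [0, -25, 0, 108, 0, -156, 152, 0, 0, 0]
def r202 : List ℤ := [0, 25, 0, -108, 0, 156, -152, 0, 0, 0]
def r203 : List ℤ := [0, -85, 0, -104, 0, 32, 0, 152, 0, 0]
def r204 : List ℤ := [0, 85, 0, 104, 0, -32, 0, -152, 0, 0]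
def r205 : List ℤ := [0, 145, 0, -64, 0, 84, 0, 0, 152, 0]
def r206 : List ℤ := [0, -145, 0, 64, 0, -84, 0, 0, -152, 0]
def r207 : List ℤ := [0, -63, 0, 108, 0, 72, 0, 0, 0, 152]
def r208 : List ℤ := [0, 63, 0, -108, 0, -72, 0, 0, 0, -152]
def r209 : List ℤ := [0, -185, 0, -168, 0, 0, 64, 312, 0, 0]
def r210 : List ℤ := [0, 185, 0, 168, 0, 0, -64, -312, 0, 0]
def r211 : List ℤ := [0, 45, 0, -2, 0, 0, 28, 0, 52, 0]
def r212 : List ℤ := [0, -45, 0, 2, 0, 0, -28, 0, -52, 0]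
def r213 : List ℤ := [0, -51, 0, 108, 0, 0, 48, 0, 0, 104]
def r214 : List ℤ := [0, 51, 0, -108, 0, 0, -48, 0, 0, -104]
def r215 : List ℤ := [0, -27, 0, -72, 0, 0, 0, 72, 0, -32]
def r216 : List ℤ := [0, -69, 0, 60, 0, 0, 0, 0, -48, 56]
def r217 : List ℤ := [0, 69, 0, -60, 0, 0, 0, 0, 48, -56]
def r218 : List ℤ := [0, 85, 0, 0, 108, -96, 88, 0, 0, 0]
def r219 : List ℤ := [0, -85, 0, 0, -108, 96, -88, 0, 0, 0]
def r220 : List ℤ := [0, -145, 0, 0, -104, 24, 0, 88, 0, 0]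
def r221 : List ℤ := [0, 145, 0, 0, 104, -24, 0, -88, 0, 0]
def r222 : List ℤ := [0, 25, 0, 0, -64, 52, 0, 0, 88, 0]
def r223 : List ℤ := [0, -25, 0, 0, 64, -52, 0, 0, -88, 0]
def r224 : List ℤ := [0, 63, 0, 0, 108, 36, 0, 0, 0, 88]
def r225 : List ℤ := [0, -45, 0, 0, -28, 0, 8, 32, 0, 0]
def r226 : List ℤ := [0, 45, 0, 0, 28, 0, -8, -32, 0, 0]
def r227 : List ℤ := [0, 155, 0, 0, -12, 0, 104, 0, 192, 0]
def r228 : List ℤ := [0, 69, 0, 0, 108, 0, 24, 0, 0, 64]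
def r229 : List ℤ := [0, -69, 0, 0, -108, 0, -24, 0, 0, -64]
def r230 : List ℤ := [0, 185, 0, 0, 88, 0, 0, -104, 48, 0]
def r231 : List ℤ := [0, -185, 0, 0, -88, 0, 0, 104, -48, 0]
def r232 : List ℤ := [0, 51, 0, 0, 48, 0, 0, -24, 0, 16]
def r233 : List ℤ := [0, 27, 0, 0, 90, 0, 0, 0, -36, 52]
def r234 : List ℤ := [0, -155, 0, 0, 0, -168, 208, 216, 0, 0]
def r235 : List ℤ := [0, 155, 0, 0, 0, 168, -208, -216, 0, 0]
def r236 : List ℤ := [0, 185, 0, 0, 0, -12, 128, 0, 216, 0]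
def r237 : List ℤ := [0, -185, 0, 0, 0, 12, -128, 0, -216, 0]
def r238 : List ℤ := [0, -1, 0, 0, 0, 6, -4, 0, 0, 4]
def r239 : List ℤ := [0, 1, 0, 0, 0, -6, 4, 0, 0, -4]
def r240 : List ℤ := [0, 135, 0, 0, 0, 44, 0, -64, 104, 0]
def r241 : List ℤ := [0, -135, 0, 0, 0, -44, 0, 64, -104, 0]
def r242 : List ℤ := [0, -207, 0, 0, 0, 144, 0, 216, 0, 208]
def r243 : List ℤ := [0, 207, 0, 0, 0, -144, 0, -216, 0, -208]
def r244 : List ℤ := [0, 153, 0, 0, 0, 180, 0, 0, 216, 128]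
def r245 : List ℤ := [0, -183, 0, 0, 0, 0, 96, 216, 0, 112]
def r246 : List ℤ := [0, 183, 0, 0, 0, 0, -96, -216, 0, -112]
def r247 : List ℤ := [0, 183, 0, 0, 0, 0, 120, 0, 216, 8]
def r248 : List ℤ := [0, -549, 0, 0, 0, 0, 0, 360, -288, 176]
def r249 : List ℤ := [0, 549, 0, 0, 0, 0, 0, -360, 288, -176]
def r250 : List ℤ := [0, 0, 35, -2, -22, 38, 0, 0, 0, 0]
def r251 : List ℤ := [0, 0, -35, 2, 22, -38, 0, 0, 0, 0]
def r252 : List ℤ := [0, 0, 145, 84, -64, 0, 152, 0, 0, 0]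
def r253 : List ℤ := [0, 0, -145, -84, 64, 0, -152, 0, 0, 0]
def r254 : List ℤ := [0, 0, -25, -156, 108, 0, 0, 152, 0, 0]
def r255 : List ℤ := [0, 0, 25, 156, -108, 0, 0, -152, 0, 0]
def r256 : List ℤ := [0, 0, -85, 32, -104, 0, 0, 0, 152, 0]
def r257 : List ℤ := [0, 0, 85, -32, 104, 0, 0, 0, -152, 0]
def r258 : List ℤ := [0, 0, -63, 72, 108, 0, 0, 0, 0, 152]
def r259 : List ℤ := [0, 0, 63, -72, -108, 0, 0, 0, 0, -152]
def r260 : List ℤ := [0, 0, 25, 52, 0, -64, 88, 0, 0, 0]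
def r261 : List ℤ := [0, 0, -25, -52, 0, 64, -88, 0, 0, 0]
def r262 : List ℤ := [0, 0, 85, -96, 0, 108, 0, 88, 0, 0]
def r263 : List ℤ := [0, 0, -85, 96, 0, -108, 0, -88, 0, 0]
def r264 : List ℤ := [0, 0, -145, 24, 0, -104, 0, 0, 88, 0]
def r265 : List ℤ := [0, 0, 145, -24, 0, 104, 0, 0, -88, 0]
def r266 : List ℤ := [0, 0, 63, 36, 0, 108, 0, 0, 0, 88]
def r267 : List ℤ := [0, 0, 185, -12, 0, 0, 216, 128, 0, 0]
def r268 : List ℤ := [0, 0, -185, 12, 0, 0, -216, -128, 0, 0]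
def r269 : List ℤ := [0, 0, -135, -44, 0, 0, -104, 0, 64, 0]
def r270 : List ℤ := [0, 0, 135, 44, 0, 0, 104, 0, -64, 0]
def r271 : List ℤ := [0, 0, 153, 180, 0, 0, 216, 0, 0, 128]
def r272 : List ℤ := [0, 0, -155, -168, 0, 0, 0, 208, 216, 0]
def r273 : List ℤ := [0, 0, 155, 168, 0, 0, 0, -208, -216, 0]
def r274 : List ℤ := [0, 0, -1, 6, 0, 0, 0, -4, 0, 4]
def r275 : List ℤ := [0, 0, 1, -6, 0, 0, 0, 4, 0, -4]
def r276 : List ℤ := [0, 0, -207, 144, 0, 0, 0, 0, 216, 208]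
def r277 : List ℤ := [0, 0, 207, -144, 0, 0, 0, 0, -216, -208]
def r278 : List ℤ := [0, 0, 85, 0, -52, 84, 8, 0, 0, 0]
def r279 : List ℤ := [0, 0, -85, 0, 52, -84, -8, 0, 0, 0]
def r280 : List ℤ := [0, 0, -145, 0, 96, -156, 0, 8, 0, 0]
def r281 : List ℤ := [0, 0, 145, 0, -96, 156, 0, -8, 0, 0]
def r282 : List ℤ := [0, 0, -25, 0, 24, -32, 0, 0, -8, 0]
def r283 : List ℤ := [0, 0, 45, 0, -2, 0, 52, 28, 0, 0]
def r284 : List ℤ := [0, 0, -45, 0, 2, 0, -52, -28, 0, 0]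
def r285 : List ℤ := [0, 0, -69, 0, 60, 0, -48, 0, 0, 56]
def r286 : List ℤ := [0, 0, 69, 0, -60, 0, 48, 0, 0, -56]
def r287 : List ℤ := [0, 0, -185, 0, -168, 0, 0, 64, 312, 0]
def r288 : List ℤ := [0, 0, 185, 0, 168, 0, 0, -64, -312, 0]
def r289 : List ℤ := [0, 0, -51, 0, 108, 0, 0, 48, 0, 104]
def r290 : List ℤ := [0, 0, 51, 0, -108, 0, 0, -48, 0, -104]
def r291 : List ℤ := [0, 0, -27, 0, -72, 0, 0, 0, 72, -32]
def r292 : List ℤ := [0, 0, 155, 0, 0, -12, 192, 104, 0, 0]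
def r293 : List ℤ := [0, 0, -185, 0, 0, -88, -48, 0, 104, 0]
def r294 : List ℤ := [0, 0, 185, 0, 0, 88, 48, 0, -104, 0]
def r295 : List ℤ := [0, 0, 27, 0, 0, 90, -36, 0, 0, 52]
def r296 : List ℤ := [0, 0, -45, 0, 0, -28, 0, 8, 32, 0]
def r297 : List ℤ := [0, 0, 45, 0, 0, 28, 0, -8, -32, 0]
def r298 : List ℤ := [0, 0, 69, 0, 0, 108, 0, 24, 0, 64]
def r299 : List ℤ := [0, 0, -69, 0, 0, -108, 0, -24, 0, -64]
def r300 : List ℤ := [0, 0, 51, 0, 0, 48, 0, 0, -24, 16]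
def r301 : List ℤ := [0, 0, 183, 0, 0, 0, 216, 120, 0, 8]
def r302 : List ℤ := [0, 0, -183, 0, 0, 0, -216, -120, 0, -8]
def r303 : List ℤ := [0, 0, -549, 0, 0, 0, -288, 0, 360, 176]
def r304 : List ℤ := [0, 0, 549, 0, 0, 0, 288, 0, -360, -176]
def r305 : List ℤ := [0, 0, -183, 0, 0, 0, 0, 96, 216, 112]
def r306 : List ℤ := [0, 0, 183, 0, 0, 0, 0, -96, -216, -112]
def r307 : List ℤ := [0, 0, 0, 17, 5, -29, 28, 0, 0, 0]
def r308 : List ℤ := [0, 0, 0, -17, -5, 29, -28, 0, 0, 0]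
def r309 : List ℤ := [0, 0, 0, -29, 17, 5, 0, 28, 0, 0]
def r310 : List ℤ := [0, 0, 0, 29, -17, -5, 0, -28, 0, 0]
def r311 : List ℤ := [0, 0, 0, 5, -29, 17, 0, 0, 28, 0]
def r312 : List ℤ := [0, 0, 0, -5, 29, -17, 0, 0, -28, 0]
def r313 : List ℤ := [0, 0, 0, 9, 9, 9, 0, 0, 0, 20]
def r314 : List ℤ := [0, 0, 0, -54, 37, 0, 10, 58, 0, 0]
def r315 : List ℤ := [0, 0, 0, 31, -54, 0, 34, 0, 58, 0]
def r316 : List ℤ := [0, 0, 0, -31, 54, 0, -34, 0, -58, 0]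
def r317 : List ℤ := [0, 0, 0, 207, 153, 0, 126, 0, 0, 290]
def r318 : List ℤ := [0, 0, 0, 37, -31, 0, 0, -34, 10, 0]
def r319 : List ℤ := [0, 0, 0, 153, -54, 0, 0, -126, 0, 50]
def r320 : List ℤ := [0, 0, 0, 54, 207, 0, 0, 0, -126, 170]
def r321 : List ℤ := [0, 0, 0, -54, -207, 0, 0, 0, 126, -170]
def r322 : List ℤ := [0, 0, 0, -31, 0, 37, -34, 10, 0, 0]
def r323 : List ℤ := [0, 0, 0, 37, 0, -54, 58, 0, 10, 0]
def r324 : List ℤ := [0, 0, 0, -54, 0, 153, -126, 0, 0, 50]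
def r325 : List ℤ := [0, 0, 0, -54, 0, 31, 0, 58, 34, 0]
def r326 : List ℤ := [0, 0, 0, 54, 0, -31, 0, -58, -34, 0]
def r327 : List ℤ := [0, 0, 0, 207, 0, 54, 0, -126, 0, 170]
def r328 : List ℤ := [0, 0, 0, -207, 0, -54, 0, 126, 0, -170]
def r329 : List ℤ := [0, 0, 0, 153, 0, 207, 0, 0, 126, 290]
def r330 : List ℤ := [0, 0, 0, -61, 0, 0, 62, 108, 74, 0]
def r331 : List ℤ := [0, 0, 0, 61, 0, 0, 46, 0, 34, 60]
def r332 : List ℤ := [0, 0, 0, -549, 0, 0, 0, 414, 108, -310]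
def r333 : List ℤ := [0, 0, 0, 0, 31, -54, 58, 34, 0, 0]
def r334 : List ℤ := [0, 0, 0, 0, -31, 54, -58, -34, 0, 0]
def r335 : List ℤ := [0, 0, 0, 0, 37, -31, 10, 0, -34, 0]
def r336 : List ℤ := [0, 0, 0, 0, 54, 207, -126, 0, 0, 170]
def r337 : List ℤ := [0, 0, 0, 0, -54, -207, 126, 0, 0, -170]
def r338 : List ℤ := [0, 0, 0, 0, -54, 37, 0, 10, 58, 0]
def r339 : List ℤ := [0, 0, 0, 0, 207, 153, 0, 126, 0, 290]
def r340 : List ℤ := [0, 0, 0, 0, 153, -54, 0, 0, -126, 50]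
def r341 : List ℤ := [0, 0, 0, 0, -61, 0, 74, 62, 108, 0]
def r342 : List ℤ := [0, 0, 0, 0, 61, 0, 34, 46, 0, 60]
def r343 : List ℤ := [0, 0, 0, 0, -549, 0, 108, 0, 414, -310]
def r344 : List ℤ := [0, 0, 0, 0, 0, -61, 108, 74, 62, 0]
def r345 : List ℤ := [0, 0, 0, 0, 0, -549, 414, 108, 0, -310]
def r346 : List ℤ := [0, 0, 0, 0, 0, 61, 0, 34, 46, 60]

/-- the rows of the block -/
def dat : Data where
  n := 3
  Q := 8
  G := [[8, 0, 0], [0, 8, 0], [0, 0, 8], [-10, -4, -6], [-6, -10, -4], [-4, -6, -10], [3, -2, -6],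
  [-6, 3, -2], [-2, -6, 3], [9, 9, 9]]
  circ := [r0, r1, r2, r3, r4, r5, r6, r7, r8, r9, r10, r11, r12, r13, r14, r15, r16, r17, r18, r19, r20,
  r21, r22, r23, r24, r25, r26, r27, r28, r29, r30, r31, r32, r33, r34, r35, r36, r37, r38,
  r39, r40, r41, r42, r43, r44, r45, r46, r47, r48, r49, r50, r51, r52, r53, r54, r55, r56,
  r57, r58, r59, r60, r61, r62, r63, r64, r65, r66, r67, r68, r69, r70, r71, r72, r73, r74,
  r75, r76, r77, r78, r79, r80, r81, r82, r83, r84, r85, r86, r87, r88, r89, r90, r91, r92,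
  r93, r94, r95, r96, r97, r98, r99, r100, r101, r102, r103, r104, r105, r106, r107, r108,
  r109, r110, r111, r112, r113, r114, r115, r116, r117, r118, r119, r120, r121, r122, r123,
  r124, r125, r126, r127, r128, r129, r130, r131, r132, r133, r134, r135, r136, r137, r138,
  r139, r140, r141, r142, r143, r144, r145, r146, r147, r148, r149, r150, r151, r152, r153,
  r154, r155, r156, r157, r158, r159, r160, r161, r162, r163, r164, r165, r166, r167, r168,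
  r169, r170, r171, r172, r173, r174, r175, r176, r177, r178, r179, r180, r181, r182, r183,
  r184, r185, r186, r187, r188, r189, r190, r191, r192, r193, r194, r195, r196, r197, r198,
  r199, r200, r201, r202, r203, r204, r205, r206, r207, r208, r209, r210, r211, r212, r213,
  r214, r215, r216, r217, r218, r219, r220, r221, r222, r223, r224, r225, r226, r227, r228,
  r229, r230, r231, r232, r233, r234, r235, r236, r237, r238, r239, r240, r241, r242, r243,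
  r244, r245, r246, r247, r248, r249, r250, r251, r252, r253, r254, r255, r256, r257, r258,
  r259, r260, r261, r262, r263, r264, r265, r266, r267, r268, r269, r270, r271, r272, r273,
  r274, r275, r276, r277, r278, r279, r280, r281, r282, r283, r284, r285, r286, r287, r288,
  r289, r290, r291, r292, r293, r294, r295, r296, r297, r298, r299, r300, r301, r302, r303,
  r304, r305, r306, r307, r308, r309, r310, r311, r312, r313, r314, r315, r316, r317, r318,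
  r319, r320, r321, r322, r323, r324, r325, r326, r327, r328, r329, r330, r331, r332, r333,
  r334, r335, r336, r337, r338, r339, r340, r341, r342, r343, r344, r345, r346]
  W := 1000
  p := 3
  q := 100
  K := 1000000

def v0 : Vt dat := ⟨[2, -2, -1], 16, [16, -16, -8, -6, 12, 14, 16, -16, 5, -9], by decide +kernel⟩
def v1 : Vt dat := ⟨[-2, 2, 1], 16, [-16, 16, 8, 6, -12, -14, -16, 16, -5, 9], by decide +kernel⟩
def v2 : Vt dat := ⟨[2, 1, -2], 16, [16, 8, -16, -12, -14, 6, 16, -5, -16, 9], by decide +kernel⟩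
def v3 : Vt dat := ⟨[-2, -1, 2], 16, [-16, -8, 16, 12, 14, -6, -16, 5, 16, -9], by decide +kernel⟩
def v4 : Vt dat := ⟨[11, 5, -7], 88, [88, 40, -56, -88, -88, -4, 65, -37, -73, 81], by decide +kernel⟩
def v5 : Vt dat := ⟨[-11, -5, 7], 88, [-88, -40, 56, 88, 88, 4, -65, 37, 73, -81], by decide +kernel⟩
def v6 : Vt dat := ⟨[13, -8, 1], 104, [104, -64, 8, -104, -2, -14, 49, -104, 25, 54], by decide +kernel⟩
def v7 : Vt dat := ⟨[-13, 8, -1], 104, [-104, 64, -8, 104, 2, 14, -49, 104, -25, -54], by decide +kernel⟩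
def v8 : Vt dat := ⟨[9, 5, -8], 72, [72, 40, -64, -62, -72, 14, 65, -23, -72, 54], by decide +kernel⟩
def v9 : Vt dat := ⟨[-9, -5, 8], 72, [-72, -40, 64, 62, 72, -14, -65, 23, 72, -54], by decide +kernel⟩
def v10 : Vt dat := ⟨[-1, 2, -2], 16, [-8, 16, -16, 14, -6, 12, 5, 16, -16, -9], by decide +kernel⟩
def v11 : Vt dat := ⟨[1, -2, 2], 16, [8, -16, 16, -14, 6, -12, -5, -16, 16, 9], by decide +kernel⟩
def v12 : Vt dat := ⟨[-7, 11, 5], 88, [-56, 88, 40, -4, -88, -88, -73, 65, -37, 81], by decide +kernel⟩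
def v13 : Vt dat := ⟨[7, -11, -5], 88, [56, -88, -40, 4, 88, 88, 73, -65, 37, -81], by decide +kernel⟩
def v14 : Vt dat := ⟨[1, 13, -8], 104, [8, 104, -64, -14, -104, -2, 25, 49, -104, 54], by decide +kernel⟩
def v15 : Vt dat := ⟨[-1, -13, 8], 104, [-8, -104, 64, 14, 104, 2, -25, -49, 104, -54], by decide +kernel⟩
def v16 : Vt dat := ⟨[-8, 9, 5], 72, [-64, 72, 40, 14, -62, -72, -72, 65, -23, 54], by decide +kernel⟩
def v17 : Vt dat := ⟨[8, -9, -5], 72, [64, -72, -40, -14, 62, 72, 72, -65, 23, -54], by decide +kernel⟩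
def v18 : Vt dat := ⟨[5, -7, 11], 88, [40, -56, 88, -88, -4, -88, -37, -73, 65, 81], by decide +kernel⟩
def v19 : Vt dat := ⟨[-5, 7, -11], 88, [-40, 56, -88, 88, 4, 88, 37, 73, -65, -81], by decide +kernel⟩
def v20 : Vt dat := ⟨[5, -8, 9], 72, [40, -64, 72, -72, 14, -62, -23, -72, 65, 54], by decide +kernel⟩
def v21 : Vt dat := ⟨[-5, 8, -9], 72, [-40, 64, -72, 72, -14, 62, 23, 72, -65, -54], by decide +kernel⟩
def v22 : Vt dat := ⟨[-8, 1, 13], 104, [-64, 8, 104, -2, -14, -104, -104, 25, 49, 54], by decide +kernel⟩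
def v23 : Vt dat := ⟨[8, -1, -13], 104, [64, -8, -104, 2, 14, 104, 104, -25, -49, -54], by decide +kernel⟩
def v24 : Vt dat := ⟨[-2, -1, 1], 18, [-16, -8, 8, 18, 18, 4, -10, 7, 13, -18], by decide +kernel⟩
def v25 : Vt dat := ⟨[2, 1, -1], 18, [16, 8, -8, -18, -18, -4, 10, -7, -13, 18], by decide +kernel⟩
def v26 : Vt dat := ⟨[-1, 1, -2], 18, [-8, 8, -16, 18, 4, 18, 7, 13, -10, -18], by decide +kernel⟩
def v27 : Vt dat := ⟨[1, -1, 2], 18, [8, -8, 16, -18, -4, -18, -7, -13, 10, 18], by decide +kernel⟩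
def v28 : Vt dat := ⟨[1, -2, -1], 18, [8, -16, -8, 4, 18, 18, 13, -10, 7, -18], by decide +kernel⟩
def v29 : Vt dat := ⟨[-1, 2, 1], 18, [-8, 16, 8, -4, -18, -18, -13, 10, -7, 18], by decide +kernel⟩

theorem base : baseOK dat = true := by decide +kernel

end Pool.Agent.Y81.Proj.BlockThree
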