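import Mathlib
import Pool.Agent.Y81.BlockThree

/-! Certificate trees. -/

set_option maxRecDepth 100000

namespace Pool.Agent.Y81.Proj.BlockThree

def t0 : Tree dat :=
.node 1 250 (.node 1 556 (.far 32) (.node 2 (-499) (.far 0) (.node 3 (-687) (.far 19) (.node 4
  (-604) (.far 29) (.node 6 687 (.node 7 (-312) (.far 90) (.leaf 25449 [(v19, 2, 13500), (v1,
  1, 61377), (v11, 7, 124750)] [(1000, [], []), (0, [(v19, 2, 65000), (v1, 1, 25948), (v11, 7,
  561375)], []), (-750, [(v17, 6, 155688), (v19, 2, 500136), (v11, 7, 1256981)], [(v18, 3,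
  604), (v12, 4, 3435), (v20, 3, 3624)])])) (.far 19)))))) (.node 2 (-30) (.node 1 (-454) (.far
  0) (.node 2 77 (.far 61) (.node 6 471 (.node 8 79 (.node 9 318 (.leaf 128185005 [(v9, 8,
  278087820), (v23, 6, 43469434), (v29, 9, 296406894)] [(1000, [], []), (-454, [], [(v2, 0,
  159), (v29, 9, 1000)]), (-30, [(v23, 6, 192602), (v29, 9, 607747), (v9, 8, 748890)], [])])
  (.far 93)) (.far 64)) (.far 110)))) (.node 1 100 (.node 2 (-399) (.far 0) (.node 3 (-649)
  (.far 19) (.node 4 (-441) (.far 29) (.node 6 649 (.node 7 (-427) (.far 44) (.leaf 20688150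
  [(v19, 2, 14286200), (v1, 1, 121378593), (v11, 7, 75148800)] [(1000, [], []), (0, [(v11, 7,
  153900), (v19, 2, 30500), (v1, 1, 24339)], []), (-658, [(v17, 6, 73017), (v19, 2, 277123),
  (v11, 7, 406923)], [(v18, 3, 441), (v12, 4, 3245), (v20, 3, 2646)])])) (.far 19))))) (.node 9
  (-100) (.node 4 250 (.node 1 (-607) (.far 34) (.node 2 (-482) (.node 2 (-124) (.far 71)
  (.node 3 (-585) (.far 104) (.node 5 218 (.node 6 656 (.leaf 23575500 [(v9, 4, 8352981), (v10,
  2, 182914875), (v27, 3, 30598550)] [(1000, [], []), (-722, [(v13, 1, 1250), (v24, 4, 10319),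
  (v15, 1, 250)], [(v10, 2, 585), (v27, 3, 124)]), (-303, [(v13, 1, 125132), (v23, 6, 66163),
  (v26, 5, 4031694)], [(v27, 3, 35650), (v10, 2, 102375), (v9, 4, 3627)])]) (.far 127)) (.far
  121)))) (.far 75))) (.node 1 60 (.node 2 (-373) (.far 0) (.node 3 (-639) (.far 19) (.node 4
  (-398) (.far 29) (.node 6 639 (.node 7 (-495) (.far 44) (.leaf 6680430 [(v19, 2, 8996790),
  (v12, 4, 2758335), (v11, 7, 35925868)] [(1000, [], []), (0, [(v11, 7, 5047436), (v19, 2,
  1247730), (v12, 4, 61545)], []), (-620, [(v17, 6, 5595), (v19, 2, 22365), (v11, 7, 26483)],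
  [(v18, 3, 21890), (v12, 4, 35145), (v11, 7, 56516)])])) (.far 19))))) (.node 1 30 (.node 2
  (-353) (.far 0) (.node 3 (-632) (.far 19) (.node 4 (-365) (.far 29) (.node 6 632 (.node 7
  (-514) (.far 44) (.leaf 496697475 [(v19, 2, 707946335), (v12, 4, 222538613), (v11, 7,
  2570844285)] [(1000, [], []), (0, [(v11, 7, 6571095), (v19, 2, 1782295), (v12, 4, 90721)],
  []), (-604, [(v17, 6, 272163), (v19, 2, 1136968), (v11, 7, 1227028)], [(v18, 3, 93805), (v12,
  4, 162424), (v11, 7, 230680)])])) (.far 19))))) (.node 8 250 (.node 1 (-681) (.far 10) (.node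
  3 (-768) (.far 102) (.node 5 48 (.node 6 567 (.node 9 124 (.leaf 33945000 [(v9, 8, 6626808),
  (v19, 5, 38064125), (v29, 9, 79833000)] [(1000, [], []), (-716, [(v13, 1, 2504250), (v23, 6,
  624250), (v9, 8, 6564159)], [(v2, 0, 31), (v29, 9, 500)]), (-90, [(v9, 8, 231336), (v23, 6,
  176000), (v19, 5, 1157625)], [(v29, 9, 72000), (v3, 8, 11904), (v27, 3, 19375)])]) (.far
  137)) (.far 86)) (.far 81)))) (.node 9 (-60) (.node 1 (-30) (.node 2 (-579) (.node 2 (-313)
  (.far 0) (.node 3 (-800) (.far 0) (.node 4 (-422) (.far 2) (.node 6 617 (.node 7 (-593) (.far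
  8) (.leaf 1174904970 [(v19, 2, 1882600658), (v12, 4, 431912143), (v11, 7, 5138673744)]
  [(1000, [], []), (-30, [(v11, 7, 13472772), (v19, 2, 4754674), (v12, 4, 185609)], []), (-446,
  [(v17, 6, 556827), (v19, 2, 2561167), (v11, 7, 2124331)], [(v18, 3, 125123), (v12, 4,
  237200), (v11, 7, 337600)])])) (.far 19))))) (.node 3 (-617) (.far 19) (.node 4 (-300) (.far
  29) (.node 5 201 (.node 6 801 (.node 7 (-527) (.far 44) (.leaf 915399000 [(v19, 2,
  771896900), (v12, 4, 513945683), (v11, 7, 4551287400)] [(1000, [], []), (-30, [(v11, 7,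
  347400), (v19, 2, 58900), (v12, 4, 5983)], []), (-712, [(v17, 6, 12931), (v19, 2, 41741),
  (v28, 5, 188947)], [(v18, 3, 158100), (v12, 4, 325159), (v11, 7, 370200)])])) (.far 7)) (.far
  5))))) (.node 5 (-100) (.node 9 (-30) (.node 8 150 (.node 9 249 (.node 1 (-548) (.far 10)
  (.node 2 (-164) (.node 6 534 (.leaf 28809300 [(v9, 8, 28668947), (v23, 6, 7409825), (v29, 9,
  87393550)] [(1000, [], []), (-627, [(v13, 1, 353775), (v23, 6, 75350), (v9, 8, 1243686)],
  [(v2, 0, 249), (v29, 9, 2000)]), (-164, [(v23, 6, 9545), (v29, 9, 43610), (v9, 8, 22161)],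
  [])]) (.far 86)) (.far 94))) (.node 1 (-741) (.node 1 (-615) (.far 54) (.node 2 (-297) (.node
  2 (-74) (.far 95) (.node 3 (-687) (.far 102) (.node 5 121 (.node 6 606 (.leaf 635475 [(v3, 8,
  3660336), (v10, 2, 4046430), (v25, 3, 554630)] [(1000, [], []), (-678, [(v13, 1, 2860), (v26,
  5, 6150), (v9, 8, 8569)], [(v25, 3, 2220), (v10, 2, 6870), (v3, 8, 8473)]), (-186, [(v13, 1,
  207757), (v23, 6, 24805), (v19, 5, 1677105)], [(v25, 3, 50), (v3, 8, 229)])]) (.far 150))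
  (.far 146)))) (.far 73))) (.far 33))) (.node 4 100 (.node 1 (-448) (.far 34) (.node 2 (-578)
  (.node 2 (-162) (.far 74) (.node 3 (-592) (.far 104) (.node 5 164 (.node 6 650 (.leaf 9620
  [(v10, 2, 49950), (v27, 3, 10750), (v9, 4, 8769)] [(1000, [], []), (-565, [(v13, 1, 410),
  (v26, 5, 5712), (v15, 1, 779)], [(v10, 2, 296), (v27, 3, 81)]), (-370, [(v13, 1, 13325),
  (v23, 6, 5248), (v26, 5, 421200)], [(v27, 3, 46575), (v10, 2, 103600), (v9, 4, 11988)])])
  (.far 130)) (.far 124)))) (.far 75))) (.node 8 60 (.node 1 (-615) (.node 1 (-441) (.far 40)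
  (.node 2 (-297) (.node 3 (-747) (.far 102) (.node 6 518 (.node 9 159 (.leaf 127200 [(v9, 8,
  125451), (v21, 2, 235267), (v29, 9, 151990)] [(1000, [], []), (-528, [(v15, 1, 39220), (v23,
  6, 40320), (v9, 8, 277389)], [(v2, 0, 159), (v29, 9, 2000)]), (-164, [(v23, 6, 2910), (v21,
  2, 25382), (v9, 8, 15281)], [(v29, 9, 292824), (v15, 1, 4399), (v18, 3, 12985)])]) (.far
  137)) (.far 78))) (.far 73))) (.far 33)) (.node 8 30 (.node 1 (-410) (.far 40) (.node 2
  (-341) (.node 2 (-55) (.far 82) (.node 3 (-722) (.far 102) (.node 6 526 (.node 9 129 (.leaf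
  16290120 [(v15, 1, 3475131), (v21, 2, 29919873), (v29, 9, 51452335)] [(1000, [], []), (-486,
  [(v13, 1, 11), (v19, 2, 82), (v15, 1, 22)], [(v2, 0, 129), (v29, 9, 2000)]), (-198, [(v13, 1,
  49181), (v23, 6, 4510), (v19, 2, 582282)], [(v29, 9, 1184080), (v15, 1, 15523), (v18, 3,
  44075)])]) (.far 137)) (.far 139)))) (.far 73))) (.node 8 (-30) (.node 1 (-544) (.node 1
  (-348) (.far 40) (.node 2 (-430) (.node 2 (-73) (.far 82) (.node 3 (-673) (.far 102) (.node 6
  532 (.node 9 69 (.leaf 32720352 [(v21, 2, 44218098), (v29, 9, 197410250), (v15, 1, 8504135)]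
  [(1000, [], []), (-446, [(v13, 1, 73), (v19, 2, 348), (v15, 1, 146)], [(v8, 0, 15111), (v10,
  2, 69000), (v29, 9, 1898000)]), (-252, [(v13, 1, 165053), (v23, 6, 12702), (v19, 2,
  1249668)], [(v29, 9, 1873632), (v15, 1, 15479), (v18, 3, 40020)])]) (.far 137)) (.far 139))))
  (.far 73))) (.far 33)) (.node 4 60 (.node 1 (-395) (.far 34) (.node 2 (-394) (.far 74) (.node
  3 (-578) (.far 104) (.node 5 360 (.node 6 793 (.leaf 88815480 [(v10, 2, 181497780), (v27, 3,
  103726410), (v9, 4, 143072629)] [(1000, [], []), (-452, [(v17, 6, 284400), (v26, 5, 3696173),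
  (v15, 1, 1199016)], [(v10, 2, 289), (v27, 3, 197)]), (-513, [(v17, 6, 141840), (v19, 2,
  142740), (v26, 5, 1718431)], [(v27, 3, 135930), (v10, 2, 121380), (v9, 4, 56933)])]) (.far
  130)) (.far 124))))) (.node 9 60 (.node 4 (-100) (.node 1 (-491) (.node 1 (-235) (.far 34)
  (.node 2 (-712) (.node 2 (-251) (.far 74) (.node 3 (-598) (.far 104) (.node 6 668 (.leaf
  22650240 [(v21, 2, 7746540), (v29, 9, 178594783), (v15, 1, 9415512)] [(1000, [], []), (-363,
  [(v17, 6, 3008235), (v19, 2, 9261820), (v15, 1, 18946484)], [(v27, 3, 251), (v10, 2, 598)]),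
  (-482, [(v17, 6, 1061730), (v19, 2, 4434685), (v15, 1, 461087)], [(v29, 9, 56212), (v15, 1,
  598), (v18, 3, 1175)])]) (.far 130)))) (.far 75))) (.far 33)) (.node 8 (-284) (.node 1 (-420)
  (.node 1 (-90) (.far 22) (.node 2 (-629) (.node 2 (-110) (.far 82) (.node 3 (-644) (.far 102)
  (.node 6 545 (.node 7 (-693) (.far 133) (.node 9 115 (.leaf 280500 [(v21, 2, 204510), (v12,
  4, 203511), (v15, 1, 284020)] [(1000, [], []), (-255, [(v17, 6, 10098), (v19, 2, 57879),
  (v15, 1, 135487)], [(v29, 9, 1100), (v8, 0, 23), (v12, 4, 115)]), (-370, [(v17, 6, 14256),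
  (v19, 2, 110853), (v15, 1, 13189)], [(v18, 3, 2475), (v12, 4, 15939), (v11, 7, 4600)])])
  (.far 137))) (.far 139)))) (.far 73))) (.far 33)) (.node 5 60 (.node 5 329 (.node 1 (-269)
  (.node 2 (-824) (.node 2 (-531) (.far 82) (.node 3 (-582) (.far 114) (.node 6 828 (.node 7
  (-555) (.far 44) (.leaf 34693050 [(v26, 5, 137945250), (v12, 4, 48898941), (v11, 7,
  80937290)] [(1000, [], []), (-269, [(v11, 7, 329), (v26, 5, 555)], []), (-678, [(v17, 6,
  58233), (v19, 2, 211876), (v28, 5, 537372)], [(v18, 3, 1850), (v12, 4, 10767), (v11, 7,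
  3880)])])) (.far 139)))) (.far 7)) (.far 33)) (.node 1 (-221) (.node 2 (-646) (.node 2 (-365)
  (.far 82) (.node 3 (-741) (.far 109) (.node 4 (-209) (.far 124) (.node 6 683 (.node 7 (-599)
  (.far 38) (.leaf 913894300 [(v19, 2, 1096798351), (v12, 4, 677549865), (v11, 7, 3470814930)]
  [(1000, [], []), (-221, [(v11, 7, 7781070), (v19, 2, 2378629), (v12, 4, 218635)], []), (-506,
  [(v17, 6, 655905), (v19, 2, 2863819), (v11, 7, 2742245)], [(v18, 3, 6589), (v12, 4, 23361),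
  (v11, 7, 16302)])])) (.far 139))))) (.far 5)) (.far 41))) (.node 1 (-138) (.node 2 (-431)
  (.node 2 (-272) (.far 64) (.node 3 (-907) (.far 109) (.node 4 (-395) (.far 124) (.node 7
  (-653) (.far 38) (.leaf 2104749600 [(v19, 2, 3683569735), (v12, 4, 770675824), (v11, 7,
  7711828320)] [(1000, [], []), (-138, [(v11, 7, 10958880), (v19, 2, 4900765), (v12, 4,
  177616)], []), (-272, [], [(v18, 3, 257935), (v12, 4, 592271), (v11, 7, 716530)])]))))) (.far
  5)) (.far 41))))) (.node 8 (-257) (.node 1 (-449) (.node 1 (-309) (.far 54) (.node 2 (-691)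
  (.node 2 (-497) (.far 76) (.node 3 (-563) (.far 117) (.node 5 458 (.node 6 860 (.leaf
  432307995 [(v21, 2, 665075841), (v18, 3, 452579631), (v15, 1, 173482820)] [(1000, [], []),
  (-379, [(v28, 5, 1030), (v26, 5, 721), (v15, 1, 458)], [(v10, 2, 563), (v27, 3, 497)]),
  (-594, [(v17, 6, 113813), (v19, 2, 98470), (v26, 5, 1175405)], [(v18, 3, 11210829), (v21, 2,
  12525624), (v15, 1, 1399055)])]) (.far 132)) (.far 126)))) (.far 94))) (.far 35)) (.node 1
  (-253) (.node 1 (-169) (.far 49) (.node 2 (-693) (.far 13) (.node 3 (-561) (.far 19) (.node 4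
  (-59) (.far 29) (.node 5 556 (.node 6 958 (.leaf 172747575 [(v21, 2, 13151749), (v12, 4,
  268666398), (v15, 1, 95961789)] [(1000, [], []), (-211, [(v28, 5, 1690), (v26, 5, 1183),
  (v15, 1, 1668)], [(v27, 3, 21), (v10, 2, 17)]), (-735, [(v17, 6, 82566), (v19, 2, 266324),
  (v28, 5, 521631)], [(v18, 3, 9971), (v12, 4, 66924), (v15, 1, 1947)])]) (.far 49)) (.far
  43)))))) (.node 1 (-337) (.node 2 (-750) (.node 2 (-637) (.far 95) (.node 3 (-552) (.far 114)
  (.node 5 528 (.node 6 930 (.leaf 68566680 [(v21, 2, 83911176), (v18, 3, 75240529), (v15, 1,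
  35468160)] [(1000, [], []), (-295, [(v28, 5, 230), (v26, 5, 161), (v15, 1, 144)], [(v27, 3,
  637), (v10, 2, 552)]), (-694, [(v17, 6, 2184), (v19, 2, 7440), (v28, 5, 14105)], [(v18, 3,
  511511), (v21, 2, 437184), (v15, 1, 76440)])]) (.far 150)) (.far 146)))) (.far 7)) (.far
  53))))))))))) (.node 8 (-150) (.node 1 (-431) (.far 54) (.node 2 (-377) (.far 76) (.node 3
  (-569) (.far 117) (.node 4 86 (.node 5 458 (.node 6 820 (.leaf 709543 [(v10, 2, 1663756),
  (v27, 3, 932756), (v9, 4, 792048)] [(1000, [], []), (-540, [(v28, 5, 4310), (v26, 5, 3017),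
  (v15, 1, 1374)], [(v10, 2, 569), (v27, 3, 377)]), (-496, [(v17, 6, 1603), (v23, 6, 229),
  (v26, 5, 26240)], [(v27, 3, 745706), (v10, 2, 685076), (v9, 4, 214513)])]) (.far 132)) (.far
  126)) (.far 137))))) (.node 1 (-441) (.node 1 (-289) (.far 49) (.node 2 (-737) (.node 2
  (-595) (.far 95) (.node 3 (-542) (.far 114) (.node 5 567 (.node 6 929 (.leaf 1069054350
  [(v15, 1, 468179600), (v21, 2, 1414966338), (v18, 3, 1208772845)] [(1000, [], []), (-365,
  [(v28, 5, 2890), (v26, 5, 2023), (v15, 1, 1701)], [(v27, 3, 595), (v10, 2, 542)]), (-666,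
  [(v17, 6, 96390), (v19, 2, 75249), (v26, 5, 868615)], [(v18, 3, 738395), (v21, 2, 663408),
  (v15, 1, 94850)])]) (.far 150)) (.far 146)))) (.far 89))) (.far 53)))) (.node 8 60 (.node 1
  (-434) (.far 22) (.node 2 (-56) (.node 6 511 (.node 9 547 (.leaf 6949600 [(v9, 8, 11446400),
  (v23, 6, 1366300), (v16, 5, 7942473)] [(1000, [], []), (-434, [], [(v2, 0, 547), (v29, 9,
  2000)]), (-56, [(v23, 6, 36300), (v16, 5, 75117), (v9, 8, 163520)], [])]) (.far 84)) (.far
  60)) (.far 81))) (.node 1 (-199) (.far 17) (.node 2 (-43) (.far 64) (.node 6 516 (.node 7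
  (-774) (.far 106) (.node 9 566 (.leaf 4895400 [(v15, 1, 1750900), (v21, 2, 9651500), (v16, 5,
  3089873)] [(1000, [], []), (-321, [(v23, 6, 199), (v19, 2, 2388), (v15, 1, 1548)], [(v2, 0,
  283), (v29, 9, 1000)]), (-122, [(v23, 6, 398), (v19, 2, 6965), (v15, 1, 731)], [(v29, 9,
  387), (v11, 7, 283)])]) (.far 146))) (.far 113))))))) (.node 1 (-632) (.node 1 (-329) (.far
  49) (.node 2 (-724) (.node 2 (-422) (.far 76) (.node 3 (-529) (.far 114) (.leaf 0 [] [(0,
  [(v24, 9, 211), (v10, 2, 15)], []), (0, [], [(v10, 2, 529), (v27, 3, 422)]), (0, [], [(v27,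
  3, 63300), (v10, 2, 47610), (v24, 9, 111619)])]))) (.far 89))) (.far 35))))))) (.node 1
  (-383) (.far 49) (.node 2 (-706) (.node 2 (-253) (.far 93) (.node 3 (-374) (.far 19) (.node 4
  81 (.node 5 443 (.node 6 773 (.leaf 4528953 [(v10, 2, 18391212), (v27, 3, 10727154), (v9, 4,
  5333240)] [(1000, [], []), (-692, [(v28, 5, 3830), (v26, 5, 2681), (v15, 1, 1329)], [(v10, 2,
  34), (v27, 3, 23)]), (-480, [(v17, 6, 3101), (v23, 6, 443), (v26, 5, 49472)], [(v27, 3,
  42849), (v10, 2, 38556), (v9, 4, 8602)])]) (.far 148)) (.far 144)) (.far 132)))) (.far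
  89))))))

theorem t0_ok : treeOK dat t0 (rootIv dat 0) = true := by decide +kernel

def t1 : Tree dat :=
.node 2 250 (.node 0 (-499) (.far 2) (.node 2 556 (.far 175) (.node 4 (-687) (.far 170) (.node
  5 (-604) (.far 178) (.node 7 687 (.node 8 (-312) (.far 46) (.leaf 25449 [(v2, 8, 124750),
  (v5, 0, 13500), (v11, 2, 61377)] [(-750, [(v2, 8, 1256981), (v21, 7, 155688), (v5, 0,
  500136)], [(v8, 4, 3624), (v4, 4, 604), (v18, 5, 3435)]), (1000, [], []), (0, [(v2, 8,
  561375), (v5, 0, 65000), (v11, 2, 25948)], [])])) (.far 170)))))) (.node 0 (-30) (.node 0 77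
  (.far 32) (.node 2 (-454) (.far 2) (.node 6 79 (.node 7 471 (.node 9 318 (.leaf 128185005
  [(v27, 9, 296406894), (v17, 6, 278087820), (v7, 7, 43469434)] [(-30, [(v17, 6, 748890), (v7,
  7, 192602), (v27, 9, 607747)], []), (1000, [], []), (-454, [], [(v27, 9, 1000), (v1, 1,
  159)])]) (.far 54)) (.far 230)) (.far 29)))) (.node 2 100 (.node 0 (-399) (.far 2) (.node 4
  (-649) (.far 170) (.node 5 (-441) (.far 178) (.node 7 649 (.node 8 (-427) (.far 188) (.leaf
  20688150 [(v2, 8, 75148800), (v5, 0, 14286200), (v11, 2, 121378593)] [(-658, [(v2, 8,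
  406923), (v21, 7, 73017), (v5, 0, 277123)], [(v8, 4, 2646), (v4, 4, 441), (v18, 5, 3245)]),
  (1000, [], []), (0, [(v11, 2, 24339), (v2, 8, 153900), (v5, 0, 30500)], [])])) (.far 170)))))
  (.node 9 (-100) (.node 5 250 (.node 0 (-124) (.far 40) (.node 2 (-836) (.node 2 (-607) (.far
  181) (.node 3 218 (.node 4 (-585) (.far 224) (.node 7 656 (.leaf 23575500 [(v25, 4,
  30598550), (v17, 5, 8352981), (v3, 0, 182914875)] [(-303, [(v24, 3, 4031694), (v19, 2,
  125132), (v7, 7, 66163)], [(v17, 5, 3627), (v25, 4, 35650), (v3, 0, 102375)]), (1000, [],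
  []), (-722, [(v23, 2, 250), (v19, 2, 1250), (v28, 5, 10319)], [(v25, 4, 124), (v3, 0,
  585)])]) (.far 240))) (.far 205))) (.far 192))) (.node 2 60 (.node 0 (-373) (.far 2) (.node 4
  (-639) (.far 170) (.node 5 (-398) (.far 178) (.node 7 639 (.node 8 (-495) (.far 188) (.leaf
  6680430 [(v2, 8, 35925868), (v5, 0, 8996790), (v18, 5, 2758335)] [(-620, [(v2, 8, 26483),
  (v21, 7, 5595), (v5, 0, 22365)], [(v2, 8, 56516), (v4, 4, 21890), (v18, 5, 35145)]), (1000,
  [], []), (0, [(v18, 5, 61545), (v2, 8, 5047436), (v5, 0, 1247730)], [])])) (.far 170)))))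
  (.node 2 30 (.node 0 (-353) (.far 2) (.node 4 (-632) (.far 170) (.node 5 (-365) (.far 178)
  (.node 7 632 (.node 8 (-514) (.far 188) (.leaf 496697475 [(v2, 8, 2570844285), (v5, 0,
  707946335), (v18, 5, 222538613)] [(-604, [(v2, 8, 1227028), (v21, 7, 272163), (v5, 0,
  1136968)], [(v2, 8, 230680), (v4, 4, 93805), (v18, 5, 162424)]), (1000, [], []), (0, [(v18,
  5, 90721), (v2, 8, 6571095), (v5, 0, 1782295)], [])])) (.far 170))))) (.node 6 250 (.node 2
  (-681) (.far 6) (.node 3 48 (.node 4 (-768) (.far 218) (.node 7 567 (.node 9 124 (.leaf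
  33945000 [(v27, 9, 79833000), (v17, 6, 6626808), (v5, 3, 38064125)] [(-90, [(v5, 3, 1157625),
  (v17, 6, 231336), (v7, 7, 176000)], [(v0, 6, 11904), (v25, 4, 19375), (v27, 9, 72000)]),
  (1000, [], []), (-716, [(v17, 6, 6564159), (v19, 2, 2504250), (v7, 7, 624250)], [(v27, 9,
  500), (v1, 1, 31)])]) (.far 239)) (.far 45))) (.far 18))) (.node 9 (-60) (.node 2 (-30)
  (.node 0 (-579) (.node 0 (-313) (.far 2) (.node 4 (-800) (.far 2) (.node 5 (-422) (.far 4)
  (.node 7 617 (.node 8 (-593) (.far 10) (.leaf 1174904970 [(v2, 8, 5138673744), (v5, 0,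
  1882600658), (v18, 5, 431912143)] [(-446, [(v2, 8, 2124331), (v21, 7, 556827), (v5, 0,
  2561167)], [(v2, 8, 337600), (v4, 4, 125123), (v18, 5, 237200)]), (1000, [], []), (-30,
  [(v18, 5, 185609), (v2, 8, 13472772), (v5, 0, 4754674)], [])])) (.far 170))))) (.node 3 201
  (.node 4 (-617) (.far 170) (.node 5 (-300) (.far 178) (.node 7 801 (.node 8 (-527) (.far 188)
  (.leaf 915399000 [(v2, 8, 4551287400), (v5, 0, 771896900), (v18, 5, 513945683)] [(-712,
  [(v26, 3, 188947), (v21, 7, 12931), (v5, 0, 41741)], [(v2, 8, 370200), (v4, 4, 158100), (v18,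
  5, 325159)]), (1000, [], []), (-30, [(v18, 5, 5983), (v2, 8, 347400), (v5, 0, 58900)], [])]))
  (.far 9)))) (.far 1))) (.node 3 (-100) (.node 9 (-30) (.node 6 150 (.node 9 249 (.node 0
  (-164) (.node 2 (-548) (.far 6) (.node 7 534 (.leaf 28809300 [(v27, 9, 87393550), (v17, 6,
  28668947), (v7, 7, 7409825)] [(-164, [(v17, 6, 22161), (v7, 7, 9545), (v27, 9, 43610)], []),
  (1000, [], []), (-627, [(v17, 6, 1243686), (v19, 2, 353775), (v7, 7, 75350)], [(v27, 9,
  2000), (v1, 1, 249)])]) (.far 45))) (.far 48)) (.node 0 (-297) (.node 0 (-74) (.far 49)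
  (.node 2 (-741) (.node 2 (-615) (.far 187) (.node 3 121 (.node 4 (-687) (.far 218) (.node 7
  606 (.leaf 635475 [(v29, 4, 554630), (v0, 6, 3660336), (v3, 0, 4046430)] [(-186, [(v5, 3,
  1677105), (v19, 2, 207757), (v7, 7, 24805)], [(v0, 6, 229), (v29, 4, 50)]), (1000, [], []),
  (-678, [(v17, 6, 8569), (v19, 2, 2860), (v24, 3, 6150)], [(v0, 6, 8473), (v29, 4, 2220), (v3,
  0, 6870)])]) (.far 246))) (.far 214))) (.far 176))) (.far 36))) (.node 5 100 (.node 0 (-162)
  (.far 37) (.node 2 (-682) (.node 2 (-448) (.far 181) (.node 3 164 (.node 4 (-592) (.far 224)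
  (.node 7 650 (.leaf 9620 [(v17, 5, 8769), (v3, 0, 49950), (v25, 4, 10750)] [(-370, [(v24, 3,
  421200), (v19, 2, 13325), (v7, 7, 5248)], [(v17, 5, 11988), (v25, 4, 46575), (v3, 0,
  103600)]), (1000, [], []), (-565, [(v23, 2, 779), (v19, 2, 410), (v24, 3, 5712)], [(v25, 4,
  81), (v3, 0, 296)])]) (.far 235))) (.far 202))) (.far 176))) (.node 6 60 (.node 0 (-297)
  (.node 2 (-615) (.node 2 (-441) (.far 157) (.node 4 (-747) (.far 218) (.node 7 518 (.node 9
  159 (.leaf 127200 [(v27, 9, 151990), (v17, 6, 125451), (v9, 0, 235267)] [(-164, [(v17, 6,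
  15281), (v7, 7, 2910), (v9, 0, 25382)], [(v23, 2, 4399), (v4, 4, 12985), (v27, 9, 292824)]),
  (1000, [], []), (-528, [(v17, 6, 277389), (v23, 2, 39220), (v7, 7, 40320)], [(v27, 9, 2000),
  (v1, 1, 159)])]) (.far 239)) (.far 21)))) (.far 176)) (.far 36)) (.node 6 30 (.node 0 (-55)
  (.far 19) (.node 2 (-562) (.node 2 (-410) (.far 157) (.node 4 (-722) (.far 218) (.node 7 526
  (.node 9 129 (.leaf 16290120 [(v27, 9, 51452335), (v23, 2, 3475131), (v9, 0, 29919873)]
  [(-198, [(v5, 0, 582282), (v19, 2, 49181), (v7, 7, 4510)], [(v23, 2, 15523), (v4, 4, 44075),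
  (v27, 9, 1184080)]), (1000, [], []), (-486, [(v23, 2, 22), (v19, 2, 11), (v5, 0, 82)], [(v27,
  9, 2000), (v1, 1, 129)])]) (.far 239)) (.far 210)))) (.far 176))) (.node 6 (-30) (.node 0
  (-430) (.node 0 (-73) (.far 19) (.node 2 (-544) (.node 2 (-348) (.far 157) (.node 4 (-673)
  (.far 218) (.node 7 532 (.node 9 69 (.leaf 32720352 [(v23, 2, 8504135), (v9, 0, 44218098),
  (v27, 9, 197410250)] [(-252, [(v5, 0, 1249668), (v19, 2, 165053), (v7, 7, 12702)], [(v23, 2,
  15479), (v4, 4, 40020), (v27, 9, 1873632)]), (1000, [], []), (-446, [(v23, 2, 146), (v19, 2,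
  73), (v5, 0, 348)], [(v27, 9, 1898000), (v16, 1, 15111), (v3, 0, 69000)])]) (.far 239)) (.far
  210)))) (.far 176))) (.far 36)) (.node 5 60 (.node 0 (-394) (.far 37) (.node 2 (-395) (.far
  181) (.node 3 360 (.node 4 (-578) (.far 224) (.node 7 793 (.leaf 88815480 [(v17, 5,
  143072629), (v3, 0, 181497780), (v25, 4, 103726410)] [(-513, [(v24, 3, 1718431), (v21, 7,
  141840), (v5, 0, 142740)], [(v17, 5, 56933), (v25, 4, 135930), (v3, 0, 121380)]), (1000, [],
  []), (-452, [(v23, 2, 1199016), (v21, 7, 284400), (v24, 3, 3696173)], [(v25, 4, 197), (v3, 0,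
  289)])]) (.far 235))) (.far 202)))) (.node 9 60 (.node 5 (-100) (.node 0 (-712) (.node 0
  (-251) (.far 37) (.node 2 (-491) (.node 2 (-235) (.far 181) (.node 4 (-598) (.far 224) (.node
  7 668 (.leaf 22650240 [(v23, 2, 9415512), (v9, 0, 7746540), (v27, 9, 178594783)] [(-482,
  [(v23, 2, 461087), (v21, 7, 1061730), (v5, 0, 4434685)], [(v23, 2, 598), (v4, 4, 1175), (v27,
  9, 56212)]), (1000, [], []), (-363, [(v23, 2, 18946484), (v21, 7, 3008235), (v5, 0,
  9261820)], [(v25, 4, 251), (v3, 0, 598)])]) (.far 235)))) (.far 176))) (.far 42)) (.node 6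
  (-284) (.node 0 (-629) (.node 0 (-110) (.far 19) (.node 2 (-420) (.node 2 (-90) (.far 167)
  (.node 4 (-644) (.far 218) (.node 7 545 (.node 8 (-693) (.far 236) (.node 9 115 (.leaf 280500
  [(v23, 2, 284020), (v9, 0, 204510), (v18, 5, 203511)] [(-370, [(v23, 2, 13189), (v21, 7,
  14256), (v5, 0, 110853)], [(v2, 8, 4600), (v4, 4, 2475), (v18, 5, 15939)]), (1000, [], []),
  (-255, [(v23, 2, 135487), (v21, 7, 10098), (v5, 0, 57879)], [(v27, 9, 1100), (v16, 1, 23),
  (v18, 5, 115)])]) (.far 239))) (.far 210)))) (.far 176))) (.far 36)) (.node 3 60 (.node 3 329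
  (.node 0 (-824) (.node 0 (-531) (.far 19) (.node 2 (-269) (.node 4 (-582) (.far 232) (.node 7
  828 (.node 8 (-555) (.far 188) (.leaf 34693050 [(v2, 8, 80937290), (v24, 3, 137945250), (v18,
  5, 48898941)] [(-678, [(v26, 3, 537372), (v21, 7, 58233), (v5, 0, 211876)], [(v2, 8, 3880),
  (v4, 4, 1850), (v18, 5, 10767)]), (1000, [], []), (-269, [(v24, 3, 555), (v2, 8, 329)],
  [])])) (.far 210))) (.far 176))) (.far 9)) (.node 0 (-646) (.node 0 (-365) (.far 19) (.node 2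
  (-221) (.node 4 (-741) (.far 197) (.node 5 (-209) (.far 202) (.node 7 683 (.node 8 (-599)
  (.far 161) (.leaf 913894300 [(v2, 8, 3470814930), (v5, 0, 1096798351), (v18, 5, 677549865)]
  [(-506, [(v2, 8, 2742245), (v21, 7, 655905), (v5, 0, 2863819)], [(v2, 8, 16302), (v4, 4,
  6589), (v18, 5, 23361)]), (1000, [], []), (-221, [(v18, 5, 218635), (v2, 8, 7781070), (v5, 0,
  2378629)], [])])) (.far 210)))) (.far 158))) (.far 1))) (.node 0 (-431) (.node 0 (-272) (.far
  29) (.node 2 (-138) (.node 4 (-907) (.far 197) (.node 5 (-395) (.far 202) (.node 8 (-653)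
  (.far 161) (.leaf 2104749600 [(v2, 8, 7711828320), (v5, 0, 3683569735), (v18, 5, 770675824)]
  [(-272, [], [(v2, 8, 716530), (v4, 4, 257935), (v18, 5, 592271)]), (1000, [], []), (-138,
  [(v18, 5, 177616), (v2, 8, 10958880), (v5, 0, 4900765)], [])])))) (.far 158))) (.far 1)))))
  (.node 6 (-257) (.node 0 (-691) (.node 0 (-497) (.far 43) (.node 2 (-449) (.node 2 (-309)
  (.far 187) (.node 3 458 (.node 4 (-563) (.far 228) (.node 7 860 (.leaf 432307995 [(v23, 2,
  173482820), (v9, 0, 665075841), (v4, 4, 452579631)] [(-594, [(v24, 3, 1175405), (v21, 7,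
  113813), (v5, 0, 98470)], [(v23, 2, 1399055), (v4, 4, 11210829), (v9, 0, 12525624)]), (1000,
  [], []), (-379, [(v23, 2, 458), (v26, 3, 1030), (v24, 3, 721)], [(v25, 4, 497), (v3, 0,
  563)])]) (.far 243))) (.far 208))) (.far 182))) (.far 48)) (.node 2 (-253) (.node 0 (-693)
  (.far 13) (.node 2 (-169) (.far 191) (.node 3 556 (.node 4 (-561) (.far 170) (.node 5 (-59)
  (.far 178) (.node 7 958 (.leaf 172747575 [(v23, 2, 95961789), (v9, 0, 13151749), (v18, 5,
  268666398)] [(-735, [(v26, 3, 521631), (v21, 7, 82566), (v5, 0, 266324)], [(v23, 2, 1947),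
  (v4, 4, 9971), (v18, 5, 66924)]), (1000, [], []), (-211, [(v23, 2, 1668), (v26, 3, 1690),
  (v24, 3, 1183)], [(v25, 4, 21), (v3, 0, 17)])]) (.far 191)))) (.far 164)))) (.node 0 (-750)
  (.node 0 (-637) (.far 49) (.node 2 (-337) (.node 3 528 (.node 4 (-552) (.far 232) (.leaf
  188558370 [(v23, 2, 898170), (v4, 4, 106779673), (v9, 0, 92459862)] [(-637, [], [(v23, 2,
  76440), (v4, 4, 511511), (v9, 0, 437184)]), (0, [(v4, 4, 371371), (v23, 2, 382200), (v9, 0,
  528264)], []), (-295, [(v23, 2, 144), (v26, 3, 230), (v24, 3, 161)], [(v25, 4, 637), (v3, 0,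
  552)])])) (.far 214)) (.far 186))) (.far 9))))))))))) (.node 6 (-150) (.node 0 (-377) (.far
  43) (.node 2 (-431) (.far 187) (.node 3 458 (.node 4 (-569) (.far 228) (.node 5 86 (.node 7
  820 (.leaf 709543 [(v17, 5, 792048), (v3, 0, 1663756), (v25, 4, 932756)] [(-496, [(v24, 3,
  26240), (v21, 7, 1603), (v7, 7, 229)], [(v17, 5, 214513), (v25, 4, 745706), (v3, 0,
  685076)]), (1000, [], []), (-540, [(v23, 2, 1374), (v26, 3, 4310), (v24, 3, 3017)], [(v25, 4,
  377), (v3, 0, 569)])]) (.far 243)) (.far 239))) (.far 208)))) (.node 0 (-737) (.node 0 (-595)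
  (.far 49) (.node 2 (-441) (.node 2 (-289) (.far 191) (.node 3 567 (.node 4 (-542) (.far 232)
  (.leaf 213810870 [(v4, 4, 143400355), (v23, 2, 81001900), (v9, 0, 194627322)] [(0, [], [(v23,
  2, 94850), (v4, 4, 738395), (v9, 0, 663408)]), (1000, [], []), (-365, [(v23, 2, 1701), (v26,
  3, 2890), (v24, 3, 2023)], [(v25, 4, 595), (v3, 0, 542)])])) (.far 214))) (.far 186))) (.far
  52)))) (.node 6 60 (.node 0 (-56) (.node 2 (-434) (.far 167) (.node 7 511 (.node 9 547 (.leaf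
  6949600 [(v20, 3, 7942473), (v17, 6, 11446400), (v7, 7, 1366300)] [(-56, [(v17, 6, 163520),
  (v7, 7, 36300), (v20, 3, 75117)], []), (1000, [], []), (-434, [], [(v27, 9, 2000), (v1, 1,
  547)])]) (.far 25)) (.far 31))) (.far 18)) (.node 0 (-43) (.far 29) (.node 2 (-199) (.far
  153) (.node 7 516 (.node 8 (-774) (.far 199) (.node 9 566 (.leaf 4895400 [(v20, 3, 3089873),
  (v23, 2, 1750900), (v9, 0, 9651500)] [(-122, [(v23, 2, 731), (v7, 7, 398), (v5, 0, 6965)],
  [(v2, 8, 283), (v27, 9, 387)]), (1000, [], []), (-321, [(v23, 2, 1548), (v7, 7, 199), (v5, 0,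
  2388)], [(v27, 9, 1000), (v1, 1, 283)])]) (.far 214))) (.far 226))))))) (.node 0 (-724)
  (.node 0 (-422) (.far 43) (.node 2 (-632) (.node 2 (-329) (.far 191) (.node 4 (-529) (.far
  232) (.leaf 0 [] [(0, [], [(v28, 9, 111619), (v25, 4, 63300), (v3, 0, 47610)]), (0, [(v28, 9,
  211), (v3, 0, 15)], []), (0, [], [(v25, 4, 422), (v3, 0, 529)])]))) (.far 182))) (.far
  52))))))) (.node 0 (-706) (.node 0 (-253) (.far 54) (.node 2 (-383) (.far 191) (.node 3 443
  (.node 4 (-374) (.far 170) (.node 5 81 (.node 7 773 (.leaf 4528953 [(v17, 5, 5333240), (v3,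
  0, 18391212), (v25, 4, 10727154)] [(-480, [(v24, 3, 49472), (v21, 7, 3101), (v7, 7, 443)],
  [(v17, 5, 8602), (v25, 4, 42849), (v3, 0, 38556)]), (1000, [], []), (-692, [(v23, 2, 1329),
  (v26, 3, 3830), (v24, 3, 2681)], [(v25, 4, 23), (v3, 0, 34)])]) (.far 249)) (.far 243)))
  (.far 217)))) (.far 52)))))

theorem t1_ok : treeOK dat t1 (rootIv dat 1) = true := by decide +kernel

def t2 : Tree dat :=
.node 0 250 (.node 0 556 (.far 61) (.node 1 (-499) (.far 4) (.node 3 (-604) (.far 64) (.node 5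
  (-687) (.far 82) (.node 6 (-312) (.far 183) (.node 8 687 (.leaf 25449 [(v2, 0, 61377), (v1,
  6, 124750), (v13, 1, 13500)] [(0, [(v2, 0, 25948), (v1, 6, 561375), (v13, 1, 65000)], []),
  (-750, [(v13, 1, 500136), (v1, 6, 1256981), (v9, 8, 155688)], [(v12, 5, 604), (v4, 3, 3435),
  (v16, 5, 3624)]), (1000, [], [])]) (.far 82))))))) (.node 1 (-30) (.node 0 (-454) (.far 4)
  (.node 1 77 (.far 175) (.node 7 79 (.node 8 471 (.node 9 318 (.leaf 128185005 [(v15, 8,
  43469434), (v25, 9, 296406894), (v21, 7, 278087820)] [(-454, [], [(v11, 2, 159), (v25, 9,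
  1000)]), (-30, [(v25, 9, 607747), (v21, 7, 748890), (v15, 8, 192602)], []), (1000, [], [])])
  (.far 187)) (.far 294)) (.far 178)))) (.node 0 100 (.node 1 (-399) (.far 4) (.node 3 (-441)
  (.far 64) (.node 5 (-649) (.far 82) (.node 6 (-427) (.far 87) (.node 8 649 (.leaf 20688150
  [(v2, 0, 121378593), (v1, 6, 75148800), (v13, 1, 14286200)] [(0, [(v13, 1, 30500), (v2, 0,
  24339), (v1, 6, 153900)], []), (-658, [(v13, 1, 277123), (v1, 6, 406923), (v9, 8, 73017)],
  [(v12, 5, 441), (v4, 3, 3245), (v16, 5, 2646)]), (1000, [], [])]) (.far 82)))))) (.node 9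
  (-100) (.node 3 250 (.node 0 (-607) (.far 65) (.node 1 (-482) (.node 1 (-124) (.far 157)
  (.node 4 218 (.node 5 (-585) (.far 266) (.node 8 656 (.leaf 23575500 [(v0, 1, 182914875),
  (v29, 5, 30598550), (v21, 3, 8352981)] [(-722, [(v26, 3, 10319), (v7, 0, 250), (v5, 0,
  1250)], [(v0, 1, 585), (v29, 5, 124)]), (-303, [(v28, 4, 4031694), (v5, 0, 125132), (v15, 8,
  66163)], [(v29, 5, 35650), (v0, 1, 102375), (v21, 3, 3627)]), (1000, [], [])]) (.far 270)))
  (.far 252))) (.far 163))) (.node 0 60 (.node 1 (-373) (.far 4) (.node 3 (-398) (.far 64)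
  (.node 5 (-639) (.far 82) (.node 6 (-495) (.far 87) (.node 8 639 (.leaf 6680430 [(v4, 3,
  2758335), (v1, 6, 35925868), (v13, 1, 8996790)] [(0, [(v13, 1, 1247730), (v4, 3, 61545), (v1,
  6, 5047436)], []), (-620, [(v13, 1, 22365), (v1, 6, 26483), (v9, 8, 5595)], [(v12, 5, 21890),
  (v4, 3, 35145), (v1, 6, 56516)]), (1000, [], [])]) (.far 82)))))) (.node 0 30 (.node 1 (-353)
  (.far 4) (.node 3 (-365) (.far 64) (.node 5 (-632) (.far 82) (.node 6 (-514) (.far 87) (.node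
  8 632 (.leaf 496697475 [(v4, 3, 222538613), (v1, 6, 2570844285), (v13, 1, 707946335)] [(0,
  [(v13, 1, 1782295), (v4, 3, 90721), (v1, 6, 6571095)], []), (-604, [(v13, 1, 1136968), (v1,
  6, 1227028), (v9, 8, 272163)], [(v12, 5, 93805), (v4, 3, 162424), (v1, 6, 230680)]), (1000,
  [], [])]) (.far 82)))))) (.node 7 250 (.node 0 (-681) (.far 8) (.node 4 48 (.node 5 (-768)
  (.far 262) (.node 8 567 (.node 9 124 (.leaf 33945000 [(v13, 4, 38064125), (v25, 9, 79833000),
  (v21, 7, 6626808)] [(-716, [(v15, 8, 624250), (v21, 7, 6564159), (v5, 0, 2504250)], [(v11, 2,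
  31), (v25, 9, 500)]), (-90, [(v13, 4, 1157625), (v21, 7, 231336), (v15, 8, 176000)], [(v29,
  5, 19375), (v25, 9, 72000), (v10, 7, 11904)]), (1000, [], [])]) (.far 275)) (.far 189)))
  (.far 169))) (.node 9 (-60) (.node 0 (-30) (.node 1 (-579) (.node 1 (-313) (.far 4) (.node 3
  (-422) (.far 0) (.node 5 (-800) (.far 4) (.node 6 (-593) (.far 6) (.node 8 617 (.leaf
  1174904970 [(v4, 3, 431912143), (v1, 6, 5138673744), (v13, 1, 1882600658)] [(-30, [(v13, 1,
  4754674), (v4, 3, 185609), (v1, 6, 13472772)], []), (-446, [(v13, 1, 2561167), (v1, 6,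
  2124331), (v9, 8, 556827)], [(v12, 5, 125123), (v4, 3, 237200), (v1, 6, 337600)]), (1000, [],
  [])]) (.far 82)))))) (.node 3 (-300) (.far 64) (.node 4 201 (.node 5 (-617) (.far 82) (.node
  6 (-527) (.far 87) (.node 8 801 (.leaf 915399000 [(v4, 3, 513945683), (v1, 6, 4551287400),
  (v13, 1, 771896900)] [(-30, [(v13, 1, 58900), (v4, 3, 5983), (v1, 6, 347400)], []), (-712,
  [(v13, 1, 41741), (v24, 4, 188947), (v9, 8, 12931)], [(v12, 5, 158100), (v4, 3, 325159), (v1,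
  6, 370200)]), (1000, [], [])]) (.far 11)))) (.far 3)))) (.node 4 (-100) (.node 9 (-30) (.node
  7 150 (.node 9 249 (.node 0 (-548) (.far 8) (.node 1 (-164) (.node 8 534 (.leaf 28809300
  [(v15, 8, 7409825), (v25, 9, 87393550), (v21, 7, 28668947)] [(-627, [(v15, 8, 75350), (v21,
  7, 1243686), (v5, 0, 353775)], [(v11, 2, 249), (v25, 9, 2000)]), (-164, [(v25, 9, 43610),
  (v21, 7, 22161), (v15, 8, 9545)], []), (1000, [], [])]) (.far 189)) (.far 190))) (.node 0
  (-741) (.node 0 (-615) (.far 93) (.node 1 (-297) (.node 1 (-74) (.far 191) (.node 4 121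
  (.node 5 (-687) (.far 262) (.node 8 606 (.leaf 635475 [(v0, 1, 4046430), (v27, 5, 554630),
  (v10, 7, 3660336)] [(-678, [(v28, 4, 6150), (v21, 7, 8569), (v5, 0, 2860)], [(v0, 1, 6870),
  (v10, 7, 8473), (v27, 5, 2220)]), (-186, [(v13, 4, 1677105), (v5, 0, 207757), (v15, 8,
  24805)], [(v27, 5, 50), (v10, 7, 229)]), (1000, [], [])]) (.far 306))) (.far 290))) (.far
  159))) (.far 62))) (.node 3 100 (.node 0 (-448) (.far 65) (.node 1 (-578) (.node 1 (-162)
  (.far 160) (.node 4 164 (.node 5 (-592) (.far 266) (.node 8 650 (.leaf 9620 [(v29, 5, 10750),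
  (v21, 3, 8769), (v0, 1, 49950)] [(-565, [(v28, 4, 5712), (v7, 0, 779), (v5, 0, 410)], [(v0,
  1, 296), (v29, 5, 81)]), (-370, [(v28, 4, 421200), (v5, 0, 13325), (v15, 8, 5248)], [(v29, 5,
  46575), (v0, 1, 103600), (v21, 3, 11988)]), (1000, [], [])]) (.far 273))) (.far 255))) (.far
  163))) (.node 7 60 (.node 0 (-615) (.node 0 (-441) (.far 71) (.node 1 (-297) (.node 5 (-747)
  (.far 262) (.node 8 518 (.node 9 159 (.leaf 127200 [(v17, 1, 235267), (v25, 9, 151990), (v21,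
  7, 125451)] [(-528, [(v15, 8, 40320), (v21, 7, 277389), (v7, 0, 39220)], [(v11, 2, 159),
  (v25, 9, 2000)]), (-164, [(v17, 1, 25382), (v21, 7, 15281), (v15, 8, 2910)], [(v12, 5,
  12985), (v25, 9, 292824), (v7, 0, 4399)]), (1000, [], [])]) (.far 275)) (.far 172))) (.far
  159))) (.far 62)) (.node 7 30 (.node 0 (-410) (.far 71) (.node 1 (-341) (.node 1 (-55) (.far
  170) (.node 5 (-722) (.far 262) (.node 8 526 (.node 9 129 (.leaf 16290120 [(v17, 1,
  29919873), (v25, 9, 51452335), (v7, 0, 3475131)] [(-486, [(v13, 1, 82), (v7, 0, 22), (v5, 0,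
  11)], [(v11, 2, 129), (v25, 9, 2000)]), (-198, [(v13, 1, 582282), (v5, 0, 49181), (v15, 8,
  4510)], [(v12, 5, 44075), (v25, 9, 1184080), (v7, 0, 15523)]), (1000, [], [])]) (.far 275))
  (.far 288)))) (.far 159))) (.node 7 (-30) (.node 0 (-544) (.node 0 (-348) (.far 71) (.node 1
  (-430) (.node 1 (-73) (.far 170) (.node 5 (-673) (.far 262) (.node 8 532 (.node 9 69 (.leaf
  32720352 [(v25, 9, 197410250), (v7, 0, 8504135), (v17, 1, 44218098)] [(-446, [(v13, 1, 348),
  (v7, 0, 146), (v5, 0, 73)], [(v0, 1, 69000), (v25, 9, 1898000), (v20, 2, 15111)]), (-252,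
  [(v13, 1, 1249668), (v5, 0, 165053), (v15, 8, 12702)], [(v12, 5, 40020), (v25, 9, 1873632),
  (v7, 0, 15479)]), (1000, [], [])]) (.far 275)) (.far 288)))) (.far 159))) (.far 62)) (.node 3
  60 (.node 0 (-395) (.far 65) (.node 1 (-394) (.far 160) (.node 4 360 (.node 5 (-578) (.far
  266) (.node 8 793 (.leaf 2220387 [(v0, 1, 2980746), (v29, 5, 849858), (v21, 3, 2846650)]
  [(-452, [(v28, 4, 3696173), (v7, 0, 1199016), (v9, 8, 284400)], [(v0, 1, 289), (v29, 5,
  197)]), (0, [], [(v29, 5, 135930), (v0, 1, 121380), (v21, 3, 56933)]), (1000, [], [])]) (.far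
  273))) (.far 255)))) (.node 9 60 (.node 3 (-100) (.node 0 (-491) (.node 0 (-235) (.far 65)
  (.node 1 (-712) (.node 1 (-251) (.far 160) (.node 5 (-598) (.far 266) (.node 8 668 (.leaf
  22650240 [(v25, 9, 178594783), (v7, 0, 9415512), (v17, 1, 7746540)] [(-363, [(v13, 1,
  9261820), (v7, 0, 18946484), (v9, 8, 3008235)], [(v0, 1, 598), (v29, 5, 251)]), (-482, [(v13,
  1, 4434685), (v7, 0, 461087), (v9, 8, 1061730)], [(v12, 5, 1175), (v25, 9, 56212), (v7, 0,
  598)]), (1000, [], [])]) (.far 273)))) (.far 163))) (.far 62)) (.node 7 (-284) (.node 0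
  (-420) (.node 0 (-90) (.far 79) (.node 1 (-629) (.node 1 (-110) (.far 170) (.node 5 (-644)
  (.far 262) (.node 6 (-693) (.far 267) (.node 8 545 (.node 9 115 (.leaf 280500 [(v4, 3,
  203511), (v7, 0, 284020), (v17, 1, 204510)] [(-255, [(v13, 1, 57879), (v7, 0, 135487), (v9,
  8, 10098)], [(v20, 2, 23), (v4, 3, 115), (v25, 9, 1100)]), (-370, [(v13, 1, 110853), (v7, 0,
  13189), (v9, 8, 14256)], [(v12, 5, 2475), (v4, 3, 15939), (v1, 6, 4600)]), (1000, [], [])])
  (.far 275)) (.far 288))))) (.far 159))) (.far 62)) (.node 4 60 (.node 4 329 (.node 0 (-269)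
  (.node 1 (-824) (.node 1 (-531) (.far 170) (.node 5 (-582) (.far 300) (.node 6 (-555) (.far
  87) (.node 8 828 (.leaf 34693050 [(v4, 3, 48898941), (v1, 6, 80937290), (v28, 4, 137945250)]
  [(-269, [(v28, 4, 555), (v1, 6, 329)], []), (-678, [(v13, 1, 211876), (v24, 4, 537372), (v9,
  8, 58233)], [(v12, 5, 1850), (v4, 3, 10767), (v1, 6, 3880)]), (1000, [], [])]) (.far 288)))))
  (.far 11)) (.far 62)) (.node 0 (-221) (.node 1 (-646) (.node 1 (-365) (.far 170) (.node 3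
  (-209) (.far 255) (.node 5 (-741) (.far 281) (.node 6 (-599) (.far 69) (.node 8 683 (.leaf
  913894300 [(v4, 3, 677549865), (v1, 6, 3470814930), (v13, 1, 1096798351)] [(-221, [(v13, 1,
  2378629), (v4, 3, 218635), (v1, 6, 7781070)], []), (-506, [(v13, 1, 2863819), (v1, 6,
  2742245), (v9, 8, 655905)], [(v12, 5, 6589), (v4, 3, 23361), (v1, 6, 16302)]), (1000, [],
  [])]) (.far 288)))))) (.far 3)) (.far 72))) (.node 0 (-138) (.node 1 (-431) (.node 1 (-272)
  (.far 178) (.node 3 (-395) (.far 255) (.node 5 (-907) (.far 281) (.node 6 (-653) (.far 69)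
  (.leaf 2104749600 [(v4, 3, 770675824), (v1, 6, 7711828320), (v13, 1, 3683569735)] [(-138,
  [(v13, 1, 4900765), (v4, 3, 177616), (v1, 6, 10958880)], []), (-272, [], [(v12, 5, 257935),
  (v4, 3, 592271), (v1, 6, 716530)]), (1000, [], [])]))))) (.far 3)) (.far 72))))) (.node 7
  (-257) (.node 0 (-449) (.node 0 (-309) (.far 93) (.node 1 (-691) (.node 1 (-497) (.far 164)
  (.node 4 458 (.node 5 (-563) (.far 298) (.leaf 5620003935 [(v17, 1, 6165912381), (v12, 5,
  3663791061), (v7, 0, 1978263770)] [(-379, [(v28, 4, 721), (v7, 0, 458), (v24, 4, 1030)],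
  [(v0, 1, 563), (v29, 5, 497)]), (0, [], [(v12, 5, 11210829), (v17, 1, 12525624), (v7, 0,
  1399055)]), (1000, [], [])])) (.far 259))) (.far 190))) (.far 66)) (.node 0 (-253) (.node 0
  (-169) (.far 95) (.node 1 (-693) (.far 13) (.node 3 (-59) (.far 64) (.node 4 556 (.node 5
  (-561) (.far 82) (.node 8 958 (.leaf 172747575 [(v4, 3, 268666398), (v7, 0, 95961789), (v17,
  1, 13151749)] [(-211, [(v28, 4, 1183), (v7, 0, 1668), (v24, 4, 1690)], [(v0, 1, 17), (v29, 5,
  21)]), (-735, [(v13, 1, 266324), (v24, 4, 521631), (v9, 8, 82566)], [(v12, 5, 9971), (v4, 3,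
  66924), (v7, 0, 1947)]), (1000, [], [])]) (.far 95))) (.far 76))))) (.node 0 (-337) (.node 1
  (-750) (.node 1 (-637) (.far 191) (.node 4 528 (.node 5 (-552) (.far 300) (.leaf 188558370
  [(v7, 0, 898170), (v12, 5, 106779673), (v17, 1, 92459862)] [(-295, [(v28, 4, 161), (v7, 0,
  144), (v24, 4, 230)], [(v0, 1, 552), (v29, 5, 637)]), (-637, [], [(v12, 5, 511511), (v17, 1,
  437184), (v7, 0, 76440)]), (0, [(v17, 1, 528264), (v12, 5, 371371), (v7, 0, 382200)], [])]))
  (.far 290))) (.far 11)) (.far 92))))))))))) (.node 7 (-150) (.node 0 (-431) (.far 93) (.node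
  1 (-377) (.far 164) (.node 3 86 (.node 4 458 (.node 5 (-569) (.far 298) (.node 8 820 (.leaf
  709543 [(v29, 5, 932756), (v21, 3, 792048), (v0, 1, 1663756)] [(-540, [(v28, 4, 3017), (v7,
  0, 1374), (v24, 4, 4310)], [(v0, 1, 569), (v29, 5, 377)]), (-496, [(v15, 8, 229), (v28, 4,
  26240), (v9, 8, 1603)], [(v29, 5, 745706), (v0, 1, 685076), (v21, 3, 214513)]), (1000, [],
  [])]) (.far 277))) (.far 259)) (.far 275)))) (.node 0 (-441) (.node 0 (-289) (.far 95) (.node
  1 (-737) (.node 1 (-595) (.far 191) (.node 4 567 (.node 5 (-542) (.far 300) (.leaf 213810870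
  [(v17, 1, 194627322), (v12, 5, 143400355), (v7, 0, 81001900)] [(-365, [(v28, 4, 2023), (v7,
  0, 1701), (v24, 4, 2890)], [(v0, 1, 542), (v29, 5, 595)]), (0, [], [(v12, 5, 738395), (v17,
  1, 663408), (v7, 0, 94850)]), (1000, [], [])])) (.far 290))) (.far 193))) (.far 92)))) (.node
  7 60 (.node 0 (-434) (.far 79) (.node 1 (-56) (.node 8 511 (.node 9 547 (.leaf 6949600 [(v15,
  8, 1366300), (v8, 4, 7942473), (v21, 7, 11446400)] [(-434, [], [(v11, 2, 547), (v25, 9,
  2000)]), (-56, [(v8, 4, 75117), (v21, 7, 163520), (v15, 8, 36300)], []), (1000, [], [])])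
  (.far 174)) (.far 180)) (.far 169))) (.node 0 (-199) (.far 67) (.node 1 (-43) (.far 178)
  (.node 6 (-774) (.far 278) (.node 8 516 (.node 9 566 (.leaf 4895400 [(v17, 1, 9651500), (v8,
  4, 3089873), (v7, 0, 1750900)] [(-321, [(v13, 1, 2388), (v7, 0, 1548), (v15, 8, 199)], [(v11,
  2, 283), (v25, 9, 1000)]), (-122, [(v13, 1, 6965), (v7, 0, 731), (v15, 8, 398)], [(v25, 9,
  387), (v1, 6, 283)]), (1000, [], [])]) (.far 290)) (.far 297)))))))) (.node 0 (-632) (.node 0
  (-329) (.far 95) (.node 1 (-724) (.node 1 (-422) (.far 164) (.node 4 501 (.node 5 (-529)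
  (.far 300) (.leaf 16742850 [(v26, 9, 23551609), (v29, 5, 28579950), (v0, 1, 29129385)]
  [(-481, [(v28, 4, 2303), (v7, 0, 1503), (v24, 4, 3290)], [(v0, 1, 529), (v29, 5, 422)]),
  (-422, [], [(v29, 5, 63300), (v0, 1, 47610), (v26, 9, 111619)]), (0, [(v0, 1, 15), (v26, 9,
  211)], [])])) (.far 259))) (.far 193))) (.far 66))))))) (.node 0 (-383) (.far 95) (.node 1
  (-706) (.node 1 (-253) (.far 187) (.node 3 81 (.node 4 443 (.node 5 (-374) (.far 82) (.node 8
  773 (.leaf 4528953 [(v29, 5, 10727154), (v21, 3, 5333240), (v0, 1, 18391212)] [(-692, [(v28,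
  4, 2681), (v7, 0, 1329), (v24, 4, 3830)], [(v0, 1, 34), (v29, 5, 23)]), (-480, [(v15, 8,
  443), (v28, 4, 49472), (v9, 8, 3101)], [(v29, 5, 42849), (v0, 1, 38556), (v21, 3, 8602)]),
  (1000, [], [])]) (.far 304))) (.far 286)) (.far 277))) (.far 193))))))

theorem t2_ok : treeOK dat t2 (rootIv dat 2) = true := by decide +kernel

def t9 : Tree dat :=
.node 0 (-250) (.node 7 250 (.node 0 (-13) (.far 135) (.node 1 570 (.node 1 825 (.far 34)
  (.node 2 156 (.node 2 551 (.far 298) (.node 3 (-335) (.far 104) (.node 6 (-308) (.far 342)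
  (.leaf 14445200 [(v21, 7, 6299139), (v3, 6, 20033000), (v6, 3, 5470850)] [(-250, [(v6, 3,
  5390), (v21, 7, 15477), (v3, 6, 53600)], []), (570, [(v6, 3, 3850), (v21, 7, 5159), (v3, 6,
  16750)], []), (0, [(v6, 3, 80850), (v21, 7, 149611), (v3, 6, 268000)], [])])))) (.far 289)))
  (.far 242))) (.node 2 (-250) (.node 6 250 (.node 0 570 (.node 0 825 (.far 65) (.node 1 156
  (.node 1 551 (.far 228) (.node 2 (-13) (.far 271) (.node 5 (-335) (.far 266) (.node 8 (-308)
  (.far 331) (.leaf 14445200 [(v10, 8, 20033000), (v22, 5, 5470850), (v17, 6, 6299139)] [(570,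
  [(v17, 6, 5159), (v10, 8, 16750), (v22, 5, 3850)], []), (0, [(v17, 6, 149611), (v10, 8,
  268000), (v22, 5, 80850)], []), (-250, [(v17, 6, 15477), (v10, 8, 53600), (v22, 5, 5390)],
  [])]))))) (.far 213))) (.far 131)) (.node 1 (-250) (.node 8 250 (.node 0 156 (.node 0 551
  (.far 117) (.node 1 (-13) (.far 244) (.node 2 570 (.node 2 825 (.far 181) (.node 3 (-748)
  (.far 329) (.node 4 (-335) (.far 224) (.node 5 (-814) (.far 329) (.node 7 (-308) (.far 346)
  (.leaf 9028250 [(v9, 8, 820281), (v0, 7, 402000), (v14, 4, 565950)] [(156, [(v0, 7, 268000),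
  (v14, 4, 80850), (v9, 8, 149611)], []), (-132, [(v0, 7, 53600), (v14, 4, 5390), (v9, 8,
  15477)], [(v4, 3, 12395), (v14, 4, 3256), (v12, 5, 18090)]), (0, [(v0, 7, 16750), (v14, 4,
  3850), (v9, 8, 5159)], [])])))))) (.far 276)))) (.far 145)) (.node 2 (-100) (.node 1 (-100)
  (.node 0 (-100) (.node 0 (-60) (.node 1 (-60) (.node 2 (-60) (.node 7 150 (.node 2 232 (.node
  0 35 (.far 93) (.node 1 547 (.node 1 712 (.far 191) (.node 2 402 (.far 93) (.node 3 (-459)
  (.far 116) (.node 6 (-316) (.far 301) (.leaf 26446356 [(v6, 3, 10716824), (v10, 1, 40999104),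
  (v3, 6, 63186705)] [(-60, [(v6, 3, 172852), (v10, 1, 1087830), (v3, 6, 1757511)], []), (547,
  [(v6, 3, 345704), (v10, 1, 1353744), (v3, 6, 2092275)], []), (0, [(v6, 3, 432130), (v10, 1,
  2103138), (v3, 6, 2259657)], [])]))))) (.far 51))) (.node 0 129 (.far 135) (.node 1 622
  (.node 1 746 (.far 232) (.node 2 62 (.node 3 (-461) (.far 274) (.node 4 (-920) (.far 289)
  (.node 6 (-173) (.far 342) (.leaf 843308222 [(v6, 3, 7962844), (v10, 1, 44262915), (v3, 6,
  148532356)] [(37, [(v6, 3, 215212), (v10, 1, 1196295), (v3, 6, 4014388)], [(v6, 3, 23000),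
  (v4, 4, 57625), (v27, 9, 180251)]), (0, [(v6, 3, 322818), (v10, 1, 1116542), (v3, 6,
  3584275)], []), (0, [(v6, 3, 538030), (v10, 1, 2312837), (v3, 6, 5161356)], [])])))) (.far
  289))) (.far 190)))) (.node 0 (-30) (.node 6 150 (.node 1 232 (.node 0 547 (.node 0 712 (.far
  49) (.node 1 402 (.far 187) (.node 2 35 (.far 187) (.node 5 (-459) (.far 295) (.node 8 (-316)
  (.far 247) (.leaf 26446356 [(v0, 0, 40999104), (v10, 8, 63186705), (v22, 5, 10716824)] [(547,
  [(v0, 0, 1353744), (v10, 8, 2092275), (v22, 5, 345704)], []), (0, [(v0, 0, 2103138), (v10, 8,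
  2259657), (v22, 5, 432130)], []), (-60, [(v0, 0, 1087830), (v10, 8, 1757511), (v22, 5,
  172852)], [])])))))) (.far 88)) (.node 0 622 (.node 0 746 (.far 114) (.node 1 62 (.node 2
  (-55) (.node 2 129 (.far 271) (.node 5 (-461) (.far 238) (.node 8 (-173) (.far 331) (.leaf
  843308222 [(v0, 0, 1323182023), (v10, 8, 4238046760), (v22, 5, 389748932)] [(622, [(v0, 0,
  1116542), (v10, 8, 3584275), (v22, 5, 322818)], []), (0, [(v0, 0, 2312837), (v10, 8,
  5161356), (v22, 5, 538030)], []), (-55, [(v0, 0, 1196295), (v10, 8, 4014388), (v22, 5,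
  215212)], [])])))) (.far 186)) (.far 213))) (.far 48))) (.node 2 (-30) (.node 8 150 (.node 0
  232 (.node 0 402 (.far 54) (.node 1 35 (.far 54) (.node 2 547 (.node 2 712 (.far 95) (.node 4
  (-459) (.far 233) (.node 7 (-316) (.far 151) (.leaf 337191039 [(v3, 2, 211329108), (v0, 7,
  209394882), (v14, 4, 44941520)] [(232, [(v0, 7, 2259657), (v14, 4, 432130), (v3, 2,
  2103138)], []), (-60, [(v0, 7, 1757511), (v14, 4, 172852), (v3, 2, 1087830)], []), (0, [(v0,
  7, 2092275), (v14, 4, 345704), (v3, 2, 1353744)], [])])))) (.far 192)))) (.node 0 62 (.node 1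
  (-55) (.node 1 129 (.far 244) (.node 2 622 (.node 2 746 (.far 300) (.node 4 (-461) (.far 136)
  (.node 7 (-173) (.far 346) (.leaf 4874614 [(v3, 2, 448553), (v0, 7, 573484), (v14, 4,
  124400)] [(62, [(v0, 7, 5161356), (v14, 4, 538030), (v3, 2, 2312837)], []), (-55, [(v0, 7,
  4014388), (v14, 4, 215212), (v3, 2, 1196295)], []), (0, [(v0, 7, 3584275), (v14, 4, 322818),
  (v3, 2, 1116542)], [])])))) (.far 94))) (.far 53)) (.far 145))) (.node 1 (-30) (.node 0 30
  (.node 7 100 (.node 2 167 (.node 0 115 (.far 93) (.node 1 539 (.node 1 652 (.far 191) (.node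
  2 320 (.far 93) (.node 3 (-526) (.far 116) (.node 6 (-234) (.far 301) (.leaf 93984891 [(v6,
  3, 630630), (v10, 1, 4615650), (v3, 6, 9922990)] [(30, [(v6, 3, 63063), (v10, 1, 461565),
  (v3, 6, 992299)], []), (0, [(v6, 3, 54054), (v10, 1, 246168), (v3, 6, 506275)], []), (0,
  [(v6, 3, 35035), (v10, 1, 198302), (v3, 6, 283514)], [])]))))) (.far 51))) (.node 0 70 (.node
  1 607 (.node 1 699 (.far 232) (.node 2 15 (.node 6 (-105) (.far 342) (.leaf 7891 [(v0, 0,
  1214), (v10, 1, 350), (v3, 6, 2428)] [(70, [(v0, 0, 607), (v10, 1, 175), (v3, 6, 1214)], []),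
  (0, [(v0, 0, 5463), (v10, 1, 210), (v3, 6, 3035)], []), (0, [(v0, 0, 9105), (v10, 1, 1260),
  (v3, 6, 2428)], [])])) (.far 289))) (.far 190)) (.far 92))) (.node 2 60 (.node 6 100 (.node 0
  563 (.node 1 15 (.node 1 266 (.far 187) (.node 2 199 (.far 271) (.node 8 (-105) (.far 331)
  (.leaf 2730 [(v0, 0, 420), (v10, 8, 5630), (v3, 2, 11823)] [(563, [(v0, 0, 420), (v10, 8,
  5630), (v3, 2, 11823)], []), (0, [(v0, 0, 2520), (v10, 8, 4504), (v3, 2, 19705)], []), (0,
  [(v0, 0, 1050), (v10, 8, 6756), (v3, 2, 3941)], [])])))) (.far 213)) (.far 88)) (.node 1 60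
  (.node 6 (-30) (.node 0 355 (.node 0 655 (.far 49) (.node 1 474 (.far 187) (.node 2 290 (.far
  187) (.node 8 (-71) (.far 247) (.leaf 26 [(v0, 0, 4), (v10, 8, 50), (v3, 2, 71)] [(355, [(v0,
  0, 4), (v10, 8, 50), (v3, 2, 71)], []), (0, [(v0, 0, 72), (v10, 8, 120), (v3, 2, 355)], []),
  (0, [(v0, 0, 30), (v10, 8, 180), (v3, 2, 71)], [])]))))) (.far 88)) (.node 7 (-250) (.node 0
  231 (.node 0 433 (.far 148) (.node 1 140 (.node 1 598 (.far 13) (.node 2 518 (.far 93) (.leaf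
  260 [(v0, 0, 40), (v10, 1, 165), (v3, 2, 462)] [(231, [(v0, 0, 40), (v10, 1, 165), (v3, 2,
  462)], []), (0, [(v0, 0, 120), (v10, 1, 66), (v3, 2, 385)], []), (0, [(v0, 0, 50), (v10, 1,
  99), (v3, 2, 77)], [])]))) (.far 51))) (.node 8 (-30) (.node 1 77 (.node 1 307 (.far 54)
  (.node 2 463 (.node 2 699 (.far 300) (.node 7 (-45) (.far 151) (.leaf 1390389 [(v0, 7,
  142604), (v10, 1, 208350), (v3, 2, 41580)] [(30, [(v0, 7, 71302), (v10, 1, 104175), (v3, 2,
  20790)], []), (0, [(v0, 7, 71302), (v10, 1, 13890), (v3, 2, 5775)], []), (0, [(v0, 7, 35651),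
  (v10, 1, 25002), (v3, 2, 1386)], [])]))) (.far 94))) (.far 248)) (.node 6 (-294) (.node 0 75
  (.node 1 225 (.node 2 433 (.far 88) (.node 6 (-107) (.far 88) (.leaf 4173 [(v0, 0, 642),
  (v10, 1, 535), (v3, 6, 1350)] [(75, [(v0, 0, 642), (v10, 1, 535), (v3, 6, 1350)], []), (0,
  [(v0, 0, 1926), (v10, 1, 214), (v3, 6, 1125)], []), (0, [(v0, 0, 535), (v10, 1, 214), (v3, 6,
  150)], [])]))) (.far 48)) (.far 147)) (.node 1 385 (.node 1 576 (.far 246) (.node 2 474 (.far
  13) (.node 3 (-546) (.far 116) (.leaf 17017 [(v6, 3, 110), (v10, 1, 1170), (v3, 6, 1430)]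
  [(30, [(v6, 3, 11), (v10, 1, 117), (v3, 6, 143)], []), (0, [(v6, 3, 2310), (v10, 1, 15288),
  (v3, 6, 17875)], []), (0, [(v6, 3, 1925), (v10, 1, 15834), (v3, 6, 12870)], [])])))) (.node 7
  (-150) (.node 1 237 (.node 2 343 (.node 2 553 (.far 95) (.node 3 (-585) (.far 24) (.leaf
  2566473 [(v6, 3, 15484), (v10, 1, 286650), (v3, 2, 184860)] [(30, [(v6, 3, 7742), (v10, 1,
  143325), (v3, 2, 92430)], []), (0, [(v6, 3, 54194), (v10, 1, 624260), (v3, 2, 385125)], []),
  (0, [(v6, 3, 27097), (v10, 1, 387933), (v3, 2, 166374)], [])]))) (.far 186)) (.far 248))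
  (.node 0 153 (.node 1 194 (.node 2 401 (.leaf 1011322 [(v0, 0, 155588), (v10, 1, 306765),
  (v3, 2, 178092)] [(153, [(v0, 0, 155588), (v10, 1, 306765), (v3, 2, 178092)], []), (0, [(v0,
  0, 77794), (v10, 1, 20451), (v3, 2, 24735)], []), (0, [(v0, 0, 194485), (v10, 1, 184059),
  (v3, 2, 29682)], [])]) (.far 302)) (.far 53)) (.far 152))))))) (.node 0 153 (.node 0 540
  (.far 49) (.node 1 302 (.far 246) (.node 2 155 (.node 2 658 (.far 306) (.leaf 201500 [(v0, 7,
  18972), (v10, 1, 197625), (v3, 2, 91800)] [(153, [(v0, 7, 372), (v10, 1, 3875), (v3, 2,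
  1800)], []), (0, [(v0, 7, 558), (v10, 1, 775), (v3, 2, 750)], []), (0, [(v0, 7, 31), (v10, 1,
  155), (v3, 2, 20)], [])])) (.far 302)))) (.far 152)))) (.node 6 (-100) (.node 2 288 (.node 0
  477 (.node 0 631 (.far 13) (.node 2 402 (.far 187) (.node 4 (-551) (.far 228) (.leaf 47659296
  [(v0, 0, 47994304), (v14, 4, 11829600), (v3, 2, 130274583)] [(477, [(v0, 0, 317376), (v14, 4,
  76320), (v3, 2, 846887)], []), (-30, [(v0, 0, 246848), (v14, 4, 30528), (v3, 2, 438045)],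
  []), (0, [(v0, 0, 110200), (v14, 4, 22896), (v3, 2, 204421)], [])])))) (.far 48)) (.node 0
  540 (.node 0 675 (.far 114) (.node 2 174 (.node 4 (-579) (.far 173) (.leaf 856341 [(v0, 0,
  867535), (v14, 4, 229680), (v3, 2, 4403295)] [(540, [(v0, 0, 193), (v14, 4, 50), (v3, 2,
  965)], []), (-30, [(v0, 0, 39179), (v14, 4, 5220), (v3, 2, 130275)], []), (0, [(v0, 0,
  27985), (v14, 4, 6264), (v3, 2, 97272)], [])])) (.far 186))) (.far 12))) (.node 0 185 (.node
  0 518 (.far 49) (.node 2 351 (.node 2 644 (.far 193) (.node 4 (-508) (.far 233) (.node 7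
  (-277) (.far 248) (.leaf 839652372 [(v0, 7, 518876280), (v14, 4, 84101355), (v3, 2,
  691619140)] [(185, [(v0, 7, 3209544), (v14, 4, 486135), (v3, 2, 4080764)], []), (-30, [(v0,
  7, 416052), (v14, 4, 32409), (v3, 2, 351790)], []), (0, [(v0, 7, 2228850), (v14, 4, 291681),
  (v3, 2, 1970024)], [])])))) (.far 186))) (.far 53))))) (.node 7 (-100) (.node 0 288 (.node 0
  402 (.far 93) (.node 1 477 (.node 1 631 (.far 13) (.node 5 (-551) (.far 298) (.leaf 23829648
  [(v0, 0, 37058607), (v10, 1, 19924160), (v22, 5, 4243392)] [(288, [(v0, 0, 204421), (v10, 1,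
  110200), (v22, 5, 22896)], []), (0, [(v0, 0, 846887), (v10, 1, 317376), (v22, 5, 76320)],
  []), (-30, [(v0, 0, 438045), (v10, 1, 246848), (v22, 5, 30528)], [])]))) (.far 190))) (.node
  0 174 (.node 1 540 (.node 1 675 (.far 232) (.node 5 (-579) (.far 83) (.leaf 1712682 [(v0, 0,
  2560338), (v10, 1, 733207), (v22, 5, 171216)] [(174, [(v0, 0, 97272), (v10, 1, 27985), (v22,
  5, 6264)], []), (0, [(v0, 0, 965), (v10, 1, 193), (v22, 5, 50)], []), (-30, [(v0, 0, 130275),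
  (v10, 1, 39179), (v22, 5, 5220)], [])]))) (.far 12)) (.far 92))) (.node 0 351 (.node 0 644
  (.far 89) (.node 1 185 (.node 1 518 (.far 191) (.node 5 (-508) (.far 295) (.node 8 (-277)
  (.far 303) (.leaf 46647354 [(v0, 0, 73313036), (v10, 8, 82764630), (v22, 5, 11051469)] [(351,
  [(v0, 0, 1970024), (v10, 8, 2228850), (v22, 5, 291681)], []), (0, [(v0, 0, 4080764), (v10, 8,
  3209544), (v22, 5, 486135)], []), (-30, [(v0, 0, 351790), (v10, 8, 416052), (v22, 5, 32409)],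
  [])])))) (.far 186))) (.far 92))))) (.node 8 (-60) (.node 1 177 (.node 1 367 (.far 54) (.node
  2 525 (.node 2 682 (.far 83) (.node 3 (-560) (.far 117) (.leaf 280840 [(v6, 3, 29559), (v10,
  1, 420560), (v3, 2, 126024)] [(-30, [(v6, 3, 885), (v10, 1, 21000), (v3, 2, 6608)], []),
  (177, [(v6, 3, 531), (v10, 1, 7840), (v3, 2, 2360)], []), (0, [(v6, 3, 4425), (v10, 1,
  81200), (v3, 2, 16992)], [])]))) (.far 94))) (.far 42)) (.node 1 332 (.node 1 620 (.far 52)
  (.node 2 239 (.node 2 553 (.far 95) (.node 3 (-508) (.far 116) (.node 6 (-323) (.far 147)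
  (.leaf 115761262 [(v6, 3, 25897494), (v10, 1, 181435883), (v3, 6, 166126160)] [(-30, [(v6, 3,
  53618), (v10, 1, 615315), (v3, 6, 590296)], []), (332, [(v6, 3, 80427), (v10, 1, 574294),
  (v3, 6, 527050)], []), (0, [(v6, 3, 134045), (v10, 1, 1189609), (v3, 6, 758952)], [])]))))
  (.far 92))) (.far 53)))) (.node 0 347 (.node 0 652 (.far 24) (.node 2 267 (.node 2 572 (.far
  193) (.node 4 (-499) (.far 233) (.node 7 (-414) (.far 248) (.leaf 3064359 [(v0, 7, 2353783),
  (v14, 4, 583395), (v3, 2, 6186103)] [(347, [(v0, 7, 133233), (v14, 4, 30705), (v3, 2,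
  332833)], []), (-60, [(v0, 7, 310877), (v14, 4, 36846), (v3, 2, 516465)], []), (0, [(v0, 7,
  1110275), (v14, 4, 221076), (v3, 2, 1928136)], [])])))) (.far 163))) (.far 53)))) (.node 0
  267 (.node 0 572 (.far 89) (.node 1 347 (.node 1 652 (.far 173) (.node 5 (-499) (.far 295)
  (.node 8 (-414) (.far 303) (.leaf 104188206 [(v0, 0, 150945504), (v10, 8, 86379395), (v22, 5,
  18201924)] [(267, [(v0, 0, 1928136), (v10, 8, 1110275), (v22, 5, 221076)], []), (0, [(v0, 0,
  332833), (v10, 8, 133233), (v22, 5, 30705)], []), (-60, [(v0, 0, 516465), (v10, 8, 310877),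
  (v22, 5, 36846)], [])])))) (.far 186))) (.far 75)))) (.node 1 267 (.node 1 572 (.far 52)
  (.node 2 347 (.node 2 652 (.far 83) (.node 3 (-499) (.far 116) (.node 6 (-414) (.far 147)
  (.leaf 104188206 [(v6, 3, 18201924), (v10, 1, 150945504), (v3, 6, 86379395)] [(-60, [(v6, 3,
  36846), (v10, 1, 516465), (v3, 6, 310877)], []), (267, [(v6, 3, 221076), (v10, 1, 1928136),
  (v3, 6, 1110275)], []), (0, [(v6, 3, 30705), (v10, 1, 332833), (v3, 6, 133233)], [])]))))
  (.far 92))) (.far 42)))) (.node 7 (-250) (.node 0 312 (.node 0 575 (.far 93) (.node 1 397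
  (.node 1 637 (.far 173) (.node 5 (-473) (.far 298) (.node 8 (-458) (.far 305) (.leaf 4352374
  [(v0, 0, 5937741), (v10, 8, 3577600), (v22, 5, 905008)] [(312, [(v0, 0, 758219), (v10, 8,
  461175), (v22, 5, 107172)], []), (0, [(v0, 0, 3141193), (v10, 8, 1328184), (v22, 5, 357240)],
  []), (-100, [(v0, 0, 541585), (v10, 8, 344344), (v22, 5, 47632)], [])])))) (.far 190))) (.far
  75)) (.node 0 551 (.node 1 241 (.node 1 415 (.far 191) (.node 5 (-447) (.far 295) (.node 8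
  (-380) (.far 303) (.leaf 16748196 [(v0, 0, 24903264), (v10, 8, 32083425), (v22, 5, 6845624)]
  [(551, [(v0, 0, 16688), (v10, 8, 21605), (v22, 5, 4408)], []), (0, [(v0, 0, 4470), (v10, 8,
  4023), (v22, 5, 950)], []), (-100, [(v0, 0, 67050), (v10, 8, 90741), (v22, 5, 11020)],
  [])])))) (.far 186)) (.far 92)))) (.node 6 (-250) (.node 0 397 (.node 0 637 (.far 24) (.node
  2 312 (.node 2 575 (.far 187) (.node 4 (-473) (.far 228) (.node 7 (-458) (.far 245) (.leaf
  33794904 [(v0, 7, 24940344), (v14, 4, 7502040), (v3, 2, 63798713)] [(397, [(v0, 7, 1328184),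
  (v14, 4, 357240), (v3, 2, 3141193)], []), (-100, [(v0, 7, 344344), (v14, 4, 47632), (v3, 2,
  541585)], []), (0, [(v0, 7, 461175), (v14, 4, 107172), (v3, 2, 758219)], [])])))) (.far
  163))) (.far 48)) (.node 0 241 (.node 0 415 (.far 49) (.node 2 551 (.node 4 (-447) (.far 233)
  (.node 7 (-380) (.far 248) (.leaf 13956830 [(v3, 2, 8178610), (v0, 7, 6347549), (v14, 4,
  1845850)] [(241, [(v0, 7, 4023), (v14, 4, 950), (v3, 2, 4470)], []), (-100, [(v0, 7, 90741),
  (v14, 4, 11020), (v3, 2, 67050)], []), (0, [(v0, 7, 21605), (v14, 4, 4408), (v3, 2, 16688)],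
  [])]))) (.far 186))) (.far 53)))) (.node 8 (-250) (.node 1 312 (.node 1 575 (.far 54) (.node
  2 397 (.node 2 637 (.far 83) (.node 3 (-473) (.far 117) (.node 6 (-458) (.far 149) (.leaf
  4352374 [(v6, 3, 905008), (v10, 1, 5937741), (v3, 6, 3577600)] [(-100, [(v6, 3, 47632), (v10,
  1, 541585), (v3, 6, 344344)], []), (312, [(v6, 3, 107172), (v10, 1, 758219), (v3, 6,
  461175)], []), (0, [(v6, 3, 357240), (v10, 1, 3141193), (v3, 6, 1328184)], [])])))) (.far
  94))) (.far 42)) (.node 1 551 (.node 2 241 (.node 2 415 (.far 95) (.node 3 (-447) (.far 116)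
  (.node 6 (-380) (.far 147) (.leaf 16748196 [(v6, 3, 6845624), (v10, 1, 24903264), (v3, 6,
  32083425)] [(-100, [(v6, 3, 11020), (v10, 1, 67050), (v3, 6, 90741)], []), (551, [(v6, 3,
  4408), (v10, 1, 16688), (v3, 6, 21605)], []), (0, [(v6, 3, 950), (v10, 1, 4470), (v3, 6,
  4023)], [])])))) (.far 92)) (.far 53)))) (.node 0 (-232) (.node 1 372 (.node 1 676 (.far 52)
  (.node 2 313 (.node 2 617 (.far 83) (.node 3 (-408) (.far 327) (.node 6 (-441) (.far 147)
  (.leaf 232407 [(v10, 1, 254898), (v3, 6, 187612), (v6, 3, 59241)] [(-232, [(v6, 3, 651),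
  (v10, 1, 5355), (v3, 6, 4216)], []), (372, [(v6, 3, 13671), (v10, 1, 69972), (v3, 6, 52700)],
  []), (0, [(v6, 3, 7595), (v10, 1, 48314), (v3, 6, 25296)], [])])))) (.far 92))) (.far 42))
  (.far 143))) (.node 0 313 (.node 0 617 (.far 24) (.node 1 (-232) (.node 2 372 (.node 2 676
  (.far 193) (.node 4 (-408) (.far 320) (.node 7 (-441) (.far 248) (.leaf 31607352 [(v3, 2,
  27973806), (v0, 7, 10059376), (v14, 4, 5017257)] [(313, [(v0, 7, 25296), (v14, 4, 7595), (v3,
  2, 48314)], []), (-232, [(v0, 7, 4216), (v14, 4, 651), (v3, 2, 5355)], []), (0, [(v0, 7,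
  52700), (v14, 4, 13671), (v3, 2, 69972)], [])])))) (.far 163)) (.far 216))) (.far 53)))
  (.node 0 372 (.node 0 676 (.far 89) (.node 1 313 (.node 1 617 (.far 173) (.node 2 (-232)
  (.node 5 (-408) (.far 336) (.node 8 (-441) (.far 303) (.leaf 232407 [(v10, 8, 187612), (v22,
  5, 59241), (v0, 0, 254898)] [(372, [(v0, 0, 69972), (v10, 8, 52700), (v22, 5, 13671)], []),
  (0, [(v0, 0, 48314), (v10, 8, 25296), (v22, 5, 7595)], []), (-232, [(v0, 0, 5355), (v10, 8,
  4216), (v22, 5, 651)], [])]))) (.far 285))) (.far 186))) (.far 75)))) (.node 0 314 (.node 0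
  542 (.far 24) (.node 1 (-445) (.node 2 597 (.node 4 (-222) (.far 313) (.node 8 276 (.leaf
  1041624000 [(v14, 4, 431842250), (v9, 8, 176670375), (v13, 1, 195988704)] [(0, [(v13, 1,
  326784), (v14, 4, 649750), (v9, 8, 707625)], []), (-445, [(v13, 1, 326784), (v14, 4, 63250),
  (v9, 8, 235875)], []), (597, [(v13, 1, 285936), (v14, 4, 385250), (v9, 8, 235875)], [])])
  (.far 216))) (.far 163)) (.far 207))) (.far 42)))) (.node 0 597 (.node 1 314 (.node 1 542
  (.far 173) (.node 2 (-445) (.node 5 (-222) (.far 313) (.node 6 276 (.leaf 1041624000 [(v19,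
  2, 195988704), (v22, 5, 431842250), (v17, 6, 176670375)] [(597, [(v17, 6, 235875), (v19, 2,
  285936), (v22, 5, 385250)], []), (0, [(v17, 6, 707625), (v19, 2, 326784), (v22, 5, 649750)],
  []), (-445, [(v17, 6, 235875), (v19, 2, 326784), (v22, 5, 63250)], [])]) (.far 285))) (.far
  258))) (.far 163)) (.far 75)))) (.node 0 (-445) (.node 1 597 (.node 2 314 (.node 2 542 (.far
  83) (.node 3 (-222) (.far 313) (.node 7 276 (.leaf 1041624000 [(v21, 7, 176670375), (v5, 0,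
  195988704), (v6, 3, 431842250)] [(-445, [(v6, 3, 63250), (v21, 7, 235875), (v5, 0, 326784)],
  []), (597, [(v6, 3, 385250), (v21, 7, 235875), (v5, 0, 285936)], []), (0, [(v6, 3, 649750),
  (v21, 7, 707625), (v5, 0, 326784)], [])]) (.far 143)))) (.far 75)) (.far 42)) (.far 125))

theorem t9_ok : treeOK dat t9 (rootIv dat 9) = true := by decide +kernel

end Pool.Agent.Y81.Proj.BlockThree
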