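import Mathlib
import Pool.Agent.Y81.BlockThree

/-! Certificate trees. -/

set_option maxRecDepth 100000

namespace Pool.Agent.Y81.Proj.BlockThree

def t3 : Tree dat :=
.node 4 (-150) (.node 6 250 (.node 4 150 (.node 0 (-541) (.node 1 313 (.node 5 853 (.node 8
  (-367) (.far 331) (.node 9 (-901) (.far 317) (.leaf 14060210400 [(v8, 8, 6438676050), (v15,
  4, 18400840877), (v12, 1, 5283038400)] [(-493, [(v24, 3, 64), (v21, 3, 7), (v7, 3, 1)], [(v8,
  8, 7183350), (v12, 1, 3523200), (v15, 4, 12980423)]), (418, [(v17, 5, 1200), (v13, 5, 200),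
  (v5, 3, 853)], [(v15, 4, 1263581), (v8, 8, 2394450), (v12, 1, 3523200)]), (-814, [(v17, 5,
  2703000), (v19, 3, 5379871), (v28, 9, 9383000)], [(v8, 8, 2394450), (v12, 1, 3082800), (v15,
  4, 7696357)])]))) (.far 307)) (.far 213)) (.far 98)) (.node 0 (-591) (.node 0 (-448) (.far
  97) (.node 1 514 (.node 5 801 (.node 8 (-541) (.far 315) (.leaf 24466400 [(v0, 6, 213462144),
  (v3, 0, 31026325), (v12, 1, 18401600)] [(-520, [(v24, 3, 64), (v21, 3, 7), (v7, 3, 1)], [(v0,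
  6, 1554336), (v12, 1, 140000), (v3, 0, 32125)]), (678, [(v17, 5, 1200), (v13, 5, 200), (v5,
  3, 801)], [(v8, 8, 192750), (v12, 1, 473375), (v0, 6, 1529407)]), (-888, [(v17, 5, 2000),
  (v19, 3, 801), (v26, 3, 8811)], [(v0, 6, 208684), (v12, 1, 21000), (v3, 0, 32125)])])) (.far
  307)) (.far 196))) (.far 98))) (.node 4 (-100) (.node 1 (-250) (.node 2 250 (.node 1 (-150)
  (.node 0 (-889) (.far 0) (.node 2 434 (.far 0) (.node 4 468 (.node 5 70 (.node 6 (-483) (.far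
  157) (.node 7 548 (.node 9 (-703) (.far 65) (.leaf 4075750 [(v18, 2, 3464867), (v10, 7,
  5890500), (v23, 5, 4908025)] [(-945, [(v24, 3, 64), (v21, 3, 7), (v7, 3, 1)], [(v18, 2,
  26852), (v23, 5, 27400), (v10, 7, 44625)]), (-12, [(v15, 4, 89281), (v28, 9, 3803904), (v9,
  0, 329004)], [(v18, 2, 55622), (v23, 5, 6850), (v10, 7, 133875)]), (342, [(v13, 4, 1250),
  (v21, 3, 702), (v19, 3, 117)], [(v18, 2, 308798), (v10, 7, 221375), (v16, 6, 68500)])]))
  (.far 160))) (.far 17)) (.far 56)))) (.node 0 (-849) (.far 0) (.node 2 501 (.far 0) (.node 4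
  720 (.node 6 (-443) (.far 157) (.node 7 481 (.node 9 (-806) (.far 24) (.leaf 245310 [(v18, 2,
  334776), (v10, 7, 921750), (v0, 1, 839345)] [(-925, [(v24, 3, 64), (v21, 3, 7), (v7, 3, 1)],
  [(v18, 2, 4329), (v0, 1, 9620), (v10, 7, 10875)]), (-200, [(v28, 9, 364500), (v5, 3, 25389),
  (v15, 4, 20150)], [(v18, 2, 1443), (v0, 1, 481), (v10, 7, 4050)]), (375, [(v13, 4, 125),
  (v21, 3, 108), (v19, 3, 18)], [(v18, 2, 1491581), (v10, 7, 1218250), (v16, 6, 360750)])]))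
  (.far 160))) (.far 15))))) (.node 1 (-150) (.node 1 (-100) (.node 2 150 (.node 1 30 (.node 0
  (-901) (.far 0) (.node 5 93 (.node 6 (-458) (.far 157) (.node 7 650 (.node 9 (-646) (.far 65)
  (.leaf 2055300 [(v18, 2, 2577991), (v23, 5, 1745250), (v10, 7, 1965183)] [(-951, [(v24, 3,
  64), (v21, 3, 7), (v7, 3, 1)], [(v23, 5, 2600), (v10, 7, 4743), (v18, 2, 5642)]), (153,
  [(v28, 9, 53), (v3, 0, 19)], [(v18, 2, 11687), (v23, 5, 650), (v10, 7, 14229)]), (200, [(v10,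
  7, 323), (v28, 9, 325)], [(v18, 2, 20839), (v10, 7, 7557), (v16, 6, 2925)])])) (.far 160)))
  (.far 58))) (.node 0 (-849) (.far 0) (.node 4 558 (.node 5 145 (.node 6 (-406) (.far 157)
  (.node 9 (-767) (.far 163) (.leaf 8282400 [(v16, 6, 2189175), (v23, 5, 8621130), (v18, 2,
  6151712)] [(-906, [(v24, 3, 64), (v21, 3, 7), (v7, 3, 1)], [(v23, 5, 14070), (v16, 6, 3825),
  (v18, 2, 11368)]), (-35, [(v15, 4, 217061), (v28, 9, 10106496), (v9, 0, 998634)], [(v18, 2,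
  12992), (v23, 5, 23730), (v16, 6, 11475)]), (200, [(v13, 4, 2500), (v21, 3, 1674), (v19, 3,
  279)], [(v18, 2, 12992), (v23, 5, 2310), (v16, 6, 3825)])]))) (.far 156)) (.far 154))))
  (.node 8 250 (.node 0 (-908) (.node 0 (-742) (.far 22) (.node 2 (-29) (.node 4 550 (.node 5
  233 (.node 6 (-232) (.far 211) (.node 9 (-802) (.far 276) (.leaf 0 [] [(0, [], [(v23, 5,
  29000), (v16, 6, 29125), (v11, 8, 108112)]), (0, [(v28, 9, 445500), (v5, 3, 30877), (v15, 4,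
  32080)], [(v11, 8, 59648), (v23, 5, 21000), (v16, 6, 29125)]), (0, [(v13, 4, 100), (v21, 3,
  66), (v19, 3, 11)], [(v11, 8, 1729792), (v23, 5, 203000), (v16, 6, 436875)])]))) (.far 264))
  (.far 256)) (.far 161))) (.far 63)) (.node 1 (-60) (.node 2 100 (.node 1 177 (.node 0 (-930)
  (.far 0) (.node 4 262 (.node 6 (-468) (.far 157) (.node 7 739 (.node 9 (-618) (.far 65)
  (.leaf 2956342500 [(v14, 1, 1451519300), (v20, 2, 2874747447), (v13, 4, 631721850)] [(-965,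
  [(v24, 3, 64), (v21, 3, 7), (v7, 3, 1)], [(v13, 4, 469050), (v14, 1, 1820900), (v20, 2,
  3547611)]), (264, [(v28, 9, 310), (v3, 0, 103)], [(v18, 2, 135759), (v14, 1, 146900), (v16,
  6, 25075)]), (100, [(v10, 7, 618), (v28, 9, 739)], [])])) (.far 160))) (.far 56))) (.node 0
  (-861) (.far 64) (.node 5 160 (.node 6 (-399) (.far 270) (.node 7 622 (.node 9 (-713) (.far
  163) (.leaf 86822400 [(v18, 2, 93921408), (v23, 5, 73501785), (v16, 6, 19407200)] [(-911,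
  [(v24, 3, 64), (v21, 3, 7), (v7, 3, 1)], [(v23, 5, 44555), (v16, 6, 13600), (v18, 2,
  59584)]), (90, [(v28, 9, 1722), (v3, 0, 713)], [(v18, 2, 68096), (v23, 5, 75145), (v16, 6,
  40800)]), (125, [(v10, 7, 713), (v28, 9, 622)], [(v18, 2, 68096), (v23, 5, 7315), (v16, 6,
  13600)])])) (.far 273))) (.far 156)))) (.node 1 (-30) (.node 8 150 (.node 5 380 (.node 0
  (-817) (.node 0 (-708) (.far 22) (.node 1 65 (.far 205) (.node 2 (-133) (.node 4 539 (.node 6
  (-158) (.far 211) (.node 9 (-863) (.far 329) (.leaf 0 [] [(0, [], [(v23, 5, 1185), (v16, 6,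
  2850), (v11, 8, 12008)]), (0, [(v28, 9, 43659000), (v5, 3, 3256099), (v15, 4, 3452000)],
  [(v11, 8, 192128), (v23, 5, 24885), (v16, 6, 82650)]), (0, [(v28, 9, 64600), (v23, 5, 8630),
  (v19, 3, 16397)], [(v23, 5, 8295), (v16, 6, 42750), (v11, 8, 192128)])]))) (.far 311)) (.far
  161)))) (.far 108)) (.node 1 30 (.node 0 (-924) (.node 0 (-814) (.far 17) (.node 2 (-17)
  (.node 5 218 (.node 6 (-309) (.far 323) (.node 9 (-748) (.far 276) (.leaf 94306800 [(v16, 6,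
  58876350), (v23, 5, 86357775), (v11, 8, 512579912)] [(-869, [(v24, 3, 64), (v21, 3, 7), (v7,
  3, 1)], [(v23, 5, 7725), (v16, 6, 5450), (v11, 8, 44908)]), (94, [(v28, 9, 37), (v3, 0, 17)],
  [(v11, 8, 718528), (v23, 5, 162225), (v16, 6, 158050)]), (0, [(v23, 5, 1100), (v19, 3, 1199),
  (v28, 9, 5450)], [(v23, 5, 54075), (v16, 6, 81750), (v11, 8, 718528)])]))) (.far 264)) (.far
  264))) (.far 63)) (.node 0 (-811) (.far 17) (.node 2 3 (.node 4 566 (.node 5 288 (.node 6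
  (-315) (.far 201) (.node 8 182 (.node 9 (-834) (.far 163) (.leaf 14676480 [(v16, 6, 9489376),
  (v23, 5, 10564645), (v11, 8, 65548800)] [(-842, [(v24, 3, 64), (v21, 3, 7), (v7, 3, 1)],
  [(v23, 5, 455), (v16, 6, 416), (v11, 8, 2880)]), (0, [(v15, 4, 338187), (v28, 9, 14688832),
  (v9, 0, 1652154)], [(v11, 8, 46080), (v23, 5, 9555), (v16, 6, 12064)]), (51, [(v23, 5, 3475),
  (v19, 3, 5004), (v28, 9, 20400)], [(v23, 5, 637), (v16, 6, 1248), (v11, 8, 9216)])])) (.far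
  206))) (.far 156)) (.far 154)) (.far 156))))) (.node 2 60 (.node 0 (-886) (.far 64) (.node 1
  125 (.node 5 112 (.node 6 (-408) (.far 270) (.node 7 696 (.node 9 (-596) (.far 65) (.leaf
  21210000 [(v14, 1, 10686816), (v18, 2, 24873100), (v17, 5, 12503625)] [(-943, [(v24, 3, 64),
  (v21, 3, 7), (v7, 3, 1)], [(v17, 5, 32625), (v14, 1, 45024), (v18, 2, 95900)]), (268, [(v28,
  9, 443), (v3, 0, 149)], [(v18, 2, 2950), (v14, 1, 2712), (v16, 6, 375)]), (60, [(v10, 7,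
  149), (v28, 9, 174)], [])])) (.far 273))) (.far 58)) (.far 162))) (.node 1 30 (.node 8 100
  (.node 5 380 (.node 5 455 (.node 0 (-719) (.far 22) (.node 2 (-154) (.node 2 (-75) (.far 155)
  (.node 4 535 (.node 9 (-895) (.far 329) (.leaf 2804100 [(v2, 2, 12783820), (v11, 8, 9303141),
  (v1, 0, 527700)] [(-745, [(v24, 3, 64), (v21, 3, 7), (v7, 3, 1)], [(v2, 2, 5752), (v1, 0,
  200), (v11, 8, 3595)]), (51, [(v15, 4, 143200), (v28, 9, 1733400), (v5, 3, 134071)], [(v11,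
  8, 2157), (v2, 2, 7190), (v1, 0, 900)]), (-115, [(v28, 9, 61880), (v23, 5, 7160), (v19, 3,
  16289)], [(v2, 2, 2876), (v1, 0, 750), (v11, 8, 6471)])])) (.far 311))) (.far 161))) (.node 0
  (-819) (.node 0 (-766) (.far 17) (.node 2 (-101) (.node 4 491 (.node 6 (-231) (.far 323)
  (.node 9 (-842) (.far 329) (.leaf 49156800 [(v16, 6, 39818300), (v23, 5, 24343935), (v11, 8,
  385599984)] [(-793, [(v24, 3, 64), (v21, 3, 7), (v7, 3, 1)], [(v23, 5, 1155), (v16, 6, 1900),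
  (v11, 8, 17556)]), (73, [(v15, 4, 322486), (v28, 9, 12035392), (v9, 0, 1446977)], [(v11, 8,
  280896), (v23, 5, 24255), (v16, 6, 55100)]), (-58, [(v23, 5, 4210), (v19, 3, 7999), (v28, 9,
  32300)], [(v23, 5, 2695), (v16, 6, 9500), (v11, 8, 93632)])]))) (.far 311)) (.far 264)))
  (.far 108))) (.node 0 (-917) (.node 0 (-815) (.far 109) (.node 1 63 (.node 2 (-47) (.node 5
  231 (.node 6 (-301) (.far 323) (.node 9 (-736) (.far 276) (.leaf 6583500 [(v14, 1, 7476700),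
  (v23, 5, 999000), (v11, 8, 33841269)] [(-866, [(v24, 3, 64), (v21, 3, 7), (v7, 3, 1)], [(v23,
  5, 3000), (v14, 1, 30800), (v11, 8, 122661)]), (133, [(v28, 9, 815), (v3, 0, 368)], [(v11, 8,
  53277), (v14, 1, 30100), (v16, 6, 3000)]), (0, [(v23, 5, 18400), (v19, 3, 21252), (v28, 9,
  98175)], [(v14, 1, 30100), (v16, 6, 13500), (v11, 8, 306117)])]))) (.far 264)) (.far 264))
  (.far 206))) (.far 63))) (.node 2 30 (.node 8 60 (.node 0 (-889) (.far 64) (.node 1 178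
  (.node 5 197 (.node 7 726 (.node 9 (-694) (.far 276) (.leaf 64433775 [(v14, 1, 30572430),
  (v11, 8, 470620786), (v17, 5, 16080075)] [(-916, [(v24, 3, 64), (v21, 3, 7), (v7, 3, 1)],
  [(v17, 5, 53400), (v14, 1, 165480), (v11, 8, 2402021)]), (221, [(v28, 9, 889), (v3, 0, 347)],
  [(v11, 8, 1513), (v14, 1, 190), (v12, 1, 100)]), (45, [(v10, 7, 347), (v28, 9, 363)], [(v11,
  8, 1513), (v14, 1, 15), (v12, 1, 75)])])) (.far 273)) (.far 264)) (.far 162))) (.node 8 (-60)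
  (.node 2 45 (.node 0 (-927) (.far 64) (.node 1 251 (.node 5 117 (.node 6 (-444) (.far 270)
  (.node 7 778 (.node 9 (-587) (.far 65) (.leaf 30101175 [(v14, 1, 8041995), (v20, 2,
  57653947), (v17, 5, 14985955)] [(-964, [(v24, 3, 64), (v21, 3, 7), (v7, 3, 1)], [(v17, 5,
  66515), (v14, 1, 70785), (v20, 2, 447031)]), (342, [(v28, 9, 1854), (v3, 0, 587)], [(v18, 2,
  37148), (v14, 1, 19980), (v22, 6, 3765)]), (52, [(v10, 7, 587), (v28, 9, 778)], [(v18, 2,
  65009), (v14, 1, 5661), (v22, 6, 4518)])])) (.far 273))) (.far 58)) (.far 162))) (.node 2 37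
  (.node 0 (-920) (.far 64) (.node 1 245 (.node 5 119 (.node 6 (-434) (.far 270) (.node 7 772
  (.node 9 (-586) (.far 117) (.leaf 3716650 [(v14, 1, 1016279), (v20, 2, 8724205), (v17, 5,
  1790985)] [(-960, [(v24, 3, 64), (v21, 3, 7), (v7, 3, 1)], [(v17, 5, 68635), (v14, 1, 76109),
  (v20, 2, 570605)]), (340, [(v28, 9, 920), (v3, 0, 293)], [(v18, 2, 15190), (v14, 1, 6882),
  (v22, 6, 1295)]), (41, [(v10, 7, 293), (v28, 9, 386)], [(v18, 2, 265825), (v14, 1, 19499),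
  (v22, 6, 15540)])])) (.far 273))) (.far 58)) (.far 162))) (.node 8 30 (.node 0 (-939) (.node
  0 (-913) (.far 64) (.node 1 239 (.node 1 292 (.far 161) (.node 5 204 (.node 6 (-425) (.far
  270) (.node 7 767 (.node 9 (-686) (.far 276) (.leaf 369326700 [(v14, 1, 95651520), (v18, 2,
  873528748), (v17, 5, 115261335)] [(-926, [(v24, 3, 64), (v21, 3, 7), (v7, 3, 1)], [(v17, 5,
  103965), (v14, 1, 136680), (v18, 2, 1113262)]), (265, [(v28, 9, 913), (v3, 0, 343)], [(v18,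
  2, 20315), (v14, 1, 7650), (v22, 6, 1434)]), (33, [(v10, 7, 686), (v28, 9, 767)], [(v18, 2,
  711025), (v14, 1, 43350), (v22, 6, 34416)])])) (.far 273))) (.far 264))) (.far 162))) (.far
  63)) (.node 2 33 (.node 0 (-935) (.far 64) (.node 1 288 (.node 1 430 (.far 161) (.node 5 128
  (.node 6 (-447) (.far 270) (.node 7 801 (.node 9 (-593) (.far 276) (.leaf 15586560 [(v14, 1,
  3576188), (v20, 2, 41114496), (v17, 5, 7057809)] [(-965, [(v24, 3, 64), (v21, 3, 7), (v7, 3,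
  1)], [(v17, 5, 5247), (v14, 1, 5324), (v20, 2, 52608)]), (359, [(v28, 9, 1870), (v3, 0,
  593)], [(v18, 2, 4768), (v14, 1, 1639), (v22, 6, 352)]), (35, [(v10, 7, 593), (v28, 9, 801)],
  [(v18, 2, 500640), (v14, 1, 27863), (v22, 6, 25344)])])) (.far 273))) (.far 264))) (.far
  162))) (.node 5 174 (.node 0 (-962) (.node 0 (-932) (.far 64) (.node 1 285 (.node 1 360 (.far
  155) (.node 6 (-443) (.far 270) (.node 7 798 (.node 9 (-644) (.far 266) (.leaf 178350 [(v14,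
  1, 42108), (v20, 2, 518317), (v17, 5, 56860)] [(-947, [(v24, 3, 64), (v21, 3, 7), (v7, 3,
  1)], [(v17, 5, 5035), (v14, 1, 7018), (v20, 2, 75487)]), (322, [(v28, 9, 466), (v3, 0, 161)],
  [(v18, 2, 8417), (v14, 1, 2658), (v22, 6, 570)]), (31, [(v10, 7, 46), (v28, 9, 57)], [(v18,
  2, 294595), (v14, 1, 15062), (v22, 6, 13680)])])) (.far 273)))) (.far 162))) (.far 57))
  (.node 1 390 (.node 0 (-973) (.far 0) (.node 1 427 (.far 161) (.node 5 133 (.node 6 (-485)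
  (.far 157) (.node 7 869 (.node 9 (-597) (.far 276) (.leaf 21266700 [(v14, 1, 3487127), (v20,
  2, 61644037), (v17, 5, 9659130)] [(-982, [(v24, 3, 64), (v21, 3, 7), (v7, 3, 1)], [(v17, 5,
  20670), (v14, 1, 16093), (v20, 2, 236873)]), (408, [(v28, 9, 1946), (v3, 0, 597)], [(v20, 2,
  64311), (v14, 1, 13289), (v22, 6, 3822)]), (31, [(v10, 7, 597), (v28, 9, 869)], [(v20, 2,
  132405), (v14, 1, 5723), (v22, 6, 5694)])])) (.far 160))) (.far 264)))) (.node 0 (-976)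
  (.node 0 (-961) (.far 58) (.node 1 353 (.node 5 154 (.node 6 (-472) (.far 260) (.node 7 845
  (.node 9 (-621) (.far 163) (.leaf 15920300 [(v14, 1, 2958010), (v20, 2, 46320307), (v17, 5,
  6034535)] [(-969, [(v24, 3, 64), (v21, 3, 7), (v7, 3, 1)], [(v17, 5, 280635), (v14, 1,
  279510), (v20, 2, 3723797)]), (371, [(v28, 9, 1922), (v3, 0, 621)], [(v20, 2, 1416236), (v14,
  1, 323320), (v22, 6, 86485)]), (31, [(v10, 7, 621), (v28, 9, 845)], [(v20, 2, 583156), (v14,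
  1, 27848), (v22, 6, 25769)])])) (.far 263))) (.far 156)) (.far 156))) (.far 1)))))))) (.node
  0 (-987) (.far 64) (.node 1 424 (.node 5 119 (.node 6 (-498) (.far 270) (.node 7 892 (.node 9
  (-579) (.far 65) (.leaf 582624 [(v8, 8, 961520), (v22, 6, 119833), (v17, 5, 564414)] [(-994,
  [(v24, 3, 64), (v21, 3, 7), (v7, 3, 1)], [(v8, 8, 553112), (v22, 6, 57715), (v17, 5,
  181770)]), (440, [(v28, 9, 658), (v3, 0, 193)], [(v22, 6, 1280), (v8, 8, 8466), (v14, 1,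
  1245)]), (37, [(v10, 7, 579), (v28, 9, 892)], [(v17, 5, 17430), (v8, 8, 45152), (v22, 6,
  10285)])])) (.far 273))) (.far 109)) (.far 162))))) (.node 4 (-60) (.node 6 150 (.node 4 150
  (.node 0 (-602) (.node 0 (-509) (.far 114) (.node 1 219 (.node 2 (-776) (.node 5 756 (.node 8
  (-232) (.far 331) (.node 9 (-858) (.far 317) (.leaf 1036483200 [(v8, 8, 734082525), (v15, 4,
  1251290956), (v12, 1, 501491200)] [(-556, [(v24, 3, 64), (v21, 3, 7), (v7, 3, 1)], [(v8, 8,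
  837675), (v12, 1, 371200), (v15, 4, 956884)]), (367, [(v17, 5, 300), (v13, 5, 50), (v5, 3,
  189)], [(v15, 4, 93148), (v8, 8, 279225), (v12, 1, 371200)]), (-664, [(v23, 5, 7150), (v19,
  3, 27027), (v28, 9, 107100)], [(v15, 4, 567356), (v8, 8, 279225), (v12, 1, 324800)])])))
  (.far 307)) (.far 253)) (.far 213))) (.far 98)) (.node 4 100 (.node 0 (-610) (.node 0 (-540)
  (.far 99) (.node 1 508 (.node 1 569 (.far 197) (.node 2 (-798) (.node 5 748 (.node 8 (-482)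
  (.far 315) (.node 9 (-831) (.far 317) (.leaf 832510400 [(v8, 8, 286607250), (v15, 4,
  1605979897), (v12, 1, 169856800)] [(-575, [(v24, 3, 64), (v21, 3, 7), (v7, 3, 1)], [(v8, 8,
  971550), (v12, 1, 385600), (v15, 4, 3458591)]), (538, [(v17, 5, 300), (v13, 5, 50), (v5, 3,
  187)], [(v8, 8, 323850), (v12, 1, 385600), (v15, 4, 336677)]), (-734, [(v17, 5, 623250),
  (v19, 3, 1087779), (v28, 9, 2057000)], [(v8, 8, 323850), (v12, 1, 337400), (v15, 4,
  2050669)])]))) (.far 307)) (.far 253))) (.far 196))) (.far 98)) (.node 4 (-30) (.node 6 200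
  (.node 0 (-601) (.node 0 (-548) (.far 99) (.node 1 565 (.node 2 (-855) (.node 5 774 (.node 8
  (-558) (.far 315) (.leaf 52635400 [(v0, 6, 560056137), (v3, 0, 50205900), (v12, 1, 35077480)]
  [(-575, [(v24, 3, 64), (v21, 3, 7), (v7, 3, 1)], [(v0, 6, 417987), (v12, 1, 27400), (v3, 0,
  5650)]), (637, [(v17, 5, 600), (v13, 5, 100), (v5, 3, 387)], [(v8, 8, 11300), (v12, 1,
  26040), (v0, 6, 115599)]), (-800, [(v17, 5, 1000), (v19, 3, 387), (v26, 3, 4257)], [(v0, 6,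
  448949), (v12, 1, 32880), (v3, 0, 45200)])])) (.far 307)) (.far 253)) (.far 196))) (.far 98))
  (.node 8 (-605) (.node 0 (-624) (.node 0 (-579) (.far 99) (.node 1 562 (.node 1 651 (.far
  211) (.node 2 (-767) (.node 5 734 (.node 8 (-529) (.far 315) (.leaf 19903511 [(v17, 5,
  27116500), (v3, 0, 26813020), (v12, 1, 29536527)] [(-602, [(v24, 3, 64), (v21, 3, 7), (v7, 3,
  1)], [(v17, 5, 4392873), (v12, 1, 4887339), (v3, 0, 2062540)]), (606, [(v17, 5, 600), (v13,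
  5, 100), (v5, 3, 367)], [(v8, 8, 1031270), (v12, 1, 3688717), (v17, 5, 1635139)]), (-730,
  [(v17, 5, 1000), (v19, 3, 367), (v26, 3, 4037)], [(v17, 5, 4718271), (v12, 1, 5524818), (v3,
  0, 5156350)])])) (.far 323)) (.far 269))) (.far 196))) (.far 112)) (.node 0 (-632) (.node 0
  (-587) (.far 113) (.node 1 619 (.node 2 (-803) (.node 5 725 (.leaf 1317154625 [(v17, 5,
  1870541244), (v3, 0, 1831002000), (v12, 1, 1822312150)] [(-610, [(v24, 3, 64), (v21, 3, 7),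
  (v7, 3, 1)], [(v17, 5, 9810531), (v12, 1, 9788225), (v3, 0, 4487750)]), (662, [(v17, 5, 48),
  (v13, 5, 8), (v5, 3, 29)], [(v8, 8, 448775), (v12, 1, 1666775), (v17, 5, 823889)]), (-766,
  [(v17, 5, 80), (v19, 3, 29), (v26, 3, 319)], [(v17, 5, 363353), (v12, 1, 381550), (v3, 0,
  386875)])]) (.far 307)) (.far 253)) (.far 212))) (.far 98)))) (.node 0 (-637) (.node 0 (-570)
  (.far 99) (.node 1 702 (.node 2 (-868) (.node 5 720 (.node 8 (-650) (.far 315) (.leaf 414960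
  [(v17, 5, 607373), (v3, 0, 621296), (v12, 1, 516800)] [(-604, [(v24, 3, 64), (v21, 3, 7),
  (v7, 3, 1)], [(v17, 5, 20007), (v12, 1, 17480), (v3, 0, 9360)]), (721, [(v17, 5, 30), (v13,
  5, 5), (v5, 3, 18)], [(v8, 8, 216), (v12, 1, 760), (v17, 5, 429)]), (-809, [(v17, 5, 25),
  (v19, 3, 9), (v26, 3, 99)], [(v17, 5, 1653), (v12, 1, 1520), (v3, 0, 1800)])])) (.far 307))
  (.far 253)) (.far 196))) (.far 98))))) (.node 4 (-30) (.node 8 60 (.node 2 (-60) (.node 0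
  (-914) (.node 0 (-806) (.far 64) (.node 1 105 (.node 5 239 (.node 6 (-283) (.far 270) (.node
  9 (-724) (.far 276) (.leaf 878325 [(v14, 1, 713176), (v17, 5, 141300), (v11, 8, 6838507)]
  [(-860, [(v24, 3, 64), (v21, 3, 7), (v7, 3, 1)], [(v17, 5, 600), (v14, 1, 3824), (v11, 8,
  32743)]), (172, [(v28, 9, 403), (v3, 0, 181)], [(v11, 8, 16697), (v14, 1, 3396), (v16, 6,
  600)]), (-60, [(v23, 5, 36200), (v19, 3, 43259), (v28, 9, 203150)], [])]))) (.far 264)) (.far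
  162))) (.far 63)) (.node 0 (-674) (.far 22) (.node 2 (-230) (.node 4 444 (.node 5 365 (.node
  9 (-814) (.far 276) (.leaf 262860 [(v2, 2, 1455166), (v11, 8, 1495943), (v1, 0, 49290)]
  [(-753, [(v24, 3, 64), (v21, 3, 7), (v7, 3, 1)], [(v2, 2, 2022), (v1, 0, 60), (v11, 8,
  1685)]), (98, [(v15, 4, 11000), (v28, 9, 121500), (v5, 3, 8547)], [(v11, 8, 674), (v2, 2,
  1685), (v1, 0, 180)]), (-145, [(v23, 5, 16280), (v19, 3, 29711), (v28, 9, 124100)], [(v2, 2,
  337), (v1, 0, 75), (v11, 8, 1011)])])) (.far 264)) (.far 256)) (.far 161)))) (.node 2 (-60)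
  (.node 8 (-60) (.node 5 252 (.node 1 262 (.node 0 (-913) (.node 0 (-868) (.far 0) (.node 1
  359 (.far 205) (.node 6 (-346) (.far 157) (.node 9 (-681) (.far 329) (.leaf 298944 [(v14, 1,
  215904), (v17, 5, 397727), (v22, 6, 213882)] [(-891, [(v24, 3, 64), (v21, 3, 7), (v7, 3, 1)],
  [(v17, 5, 1337117), (v14, 1, 813792), (v22, 6, 753774)]), (310, [(v28, 9, 1736), (v3, 0,
  681)], [(v17, 5, 385271), (v14, 1, 465024), (v22, 6, 324618)]), (-28, [(v23, 5, 11350), (v19,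
  3, 14301), (v28, 9, 71400)], [(v17, 5, 113315), (v14, 1, 66432), (v22, 6, 88818)])])))))
  (.far 108)) (.node 5 309 (.node 1 214 (.node 0 (-872) (.node 0 (-849) (.far 0) (.node 6
  (-327) (.far 157) (.node 9 (-748) (.far 207) (.leaf 1556870544 [(v14, 1, 1414871448), (v17,
  5, 1689723777), (v22, 6, 1200043627)] [(-861, [(v24, 3, 64), (v21, 3, 7), (v7, 3, 1)], [(v14,
  1, 1886136), (v22, 6, 1509877), (v17, 5, 2064351)]), (238, [(v28, 9, 849), (v3, 0, 374)],
  [(v22, 6, 650239), (v17, 5, 594813), (v14, 1, 1077792)]), (-44, [(v23, 5, 2200), (v19, 3,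
  3399), (v28, 9, 15450)], [(v17, 5, 1224615), (v14, 1, 1077792), (v22, 6, 1245373)])]))))
  (.far 16)) (.node 4 421 (.node 0 (-858) (.node 0 (-830) (.far 64) (.node 1 166 (.node 5 325
  (.node 8 43 (.node 9 (-785) (.far 320) (.leaf 113672650 [(v14, 1, 56445025), (v17, 5,
  13619304), (v11, 8, 1189759350)] [(-844, [(v24, 3, 64), (v21, 3, 7), (v7, 3, 1)], [(v17, 5,
  7138), (v14, 1, 39130), (v11, 8, 739115)]), (179, [(v28, 9, 332), (v3, 0, 157)], [(v11, 8,
  8466), (v14, 1, 817), (v12, 1, 430)]), (-46, [(v23, 5, 1256), (v19, 3, 2041), (v28, 9,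
  8840)], [(v14, 1, 43), (v12, 1, 215), (v11, 8, 5644)])])) (.far 257)) (.far 312)) (.far
  162))) (.far 103)) (.node 6 (-340) (.node 8 43 (.node 0 (-840) (.far 56) (.node 1 190 (.node
  5 327 (.node 9 (-780) (.far 331) (.leaf 218179850 [(v14, 1, 93538459), (v17, 5, 26511650),
  (v11, 8, 2281579280)] [(-849, [(v24, 3, 64), (v21, 3, 7), (v7, 3, 1)], [(v17, 5, 40850),
  (v14, 1, 196854), (v11, 8, 4255905)]), (198, [(v28, 9, 28), (v3, 0, 13)], [(v11, 8, 9690),
  (v14, 1, 817), (v12, 1, 430)]), (-49, [(v23, 5, 2600), (v19, 3, 4251), (v28, 9, 18530)],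
  [(v14, 1, 43), (v12, 1, 215), (v11, 8, 6460)])])) (.far 323)) (.far 196))) (.node 0 (-858)
  (.node 0 (-841) (.far 64) (.node 1 193 (.node 2 (-43) (.far 270) (.node 5 326 (.node 6 (-318)
  (.far 252) (.node 9 (-776) (.far 213) (.leaf 89154480 [(v22, 6, 34491289), (v2, 2,
  1108418256), (v17, 5, 26151525)] [(-850, [(v24, 3, 64), (v21, 3, 7), (v7, 3, 1)], [(v2, 2,
  5805408), (v22, 6, 161207), (v17, 5, 102555)]), (203, [(v28, 9, 841), (v3, 0, 388)], [(v22,
  6, 58093), (v2, 2, 1565037), (v14, 1, 68370)]), (-52, [(v23, 5, 9700), (v19, 3, 15811), (v28,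
  9, 69275)], [(v17, 5, 34185), (v2, 2, 1658688), (v22, 6, 91117)])]))) (.far 201))) (.far
  162))) (.far 18))) (.node 0 (-869) (.node 0 (-853) (.far 99) (.node 1 190 (.node 8 36 (.node
  9 (-768) (.far 207) (.leaf 43151850 [(v14, 1, 18629919), (v17, 5, 5776950), (v11, 8,
  537039940)] [(-861, [(v24, 3, 64), (v21, 3, 7), (v7, 3, 1)], [(v17, 5, 11400), (v14, 1,
  51912), (v11, 8, 1340545)]), (202, [(v28, 9, 853), (v3, 0, 384)], [(v11, 8, 27455), (v14, 1,
  2958), (v22, 6, 570)]), (-33, [(v23, 5, 6400), (v19, 3, 9888), (v28, 9, 43775)], [(v14, 1,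
  306), (v22, 6, 171), (v11, 8, 11305)])])) (.far 212)) (.far 200))) (.far 16))))) (.node 2
  (-30) (.node 8 36 (.node 1 228 (.node 0 (-908) (.node 0 (-873) (.far 0) (.node 6 (-361) (.far
  157) (.node 9 (-723) (.far 329) (.leaf 1173060 [(v14, 1, 417333), (v17, 5, 214320), (v11, 8,
  14388206)] [(-891, [(v24, 3, 64), (v21, 3, 7), (v7, 3, 1)], [(v17, 5, 190), (v14, 1, 588),
  (v11, 8, 18221)]), (243, [(v28, 9, 582), (v3, 0, 241)], [(v11, 8, 6137), (v14, 1, 551), (v22,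
  6, 120)]), (-4, [(v23, 5, 12050), (v19, 3, 15183), (v28, 9, 71400)], [(v14, 1, 57), (v22, 6,
  36), (v11, 8, 2527)])])))) (.far 16)) (.node 0 (-901) (.node 0 (-867) (.far 109) (.node 1 199
  (.node 5 259 (.node 6 (-357) (.far 260) (.node 9 (-739) (.far 216) (.leaf 12627545 [(v14, 1,
  5264952), (v17, 5, 2162135), (v11, 8, 156530017)] [(-884, [(v24, 3, 64), (v21, 3, 7), (v7, 3,
  1)], [(v17, 5, 71640), (v14, 1, 261072), (v11, 8, 7061117)]), (213, [(v28, 9, 1734), (v3, 0,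
  739)], [(v11, 8, 402577), (v14, 1, 41412), (v22, 6, 7960)]), (-7, [(v23, 5, 147800), (v19, 3,
  191401), (v28, 9, 880600)], [(v14, 1, 4284), (v22, 6, 2388), (v11, 8, 165767)])]))) (.far
  206)) (.far 206))) (.far 23))) (.node 5 278 (.node 0 (-891) (.node 0 (-873) (.far 64) (.node
  1 228 (.node 6 (-361) (.far 270) (.node 9 (-733) (.far 207) (.leaf 8128998 [(v14, 1,
  6969599), (v17, 5, 9870462), (v22, 6, 5668698)] [(-882, [(v24, 3, 64), (v21, 3, 7), (v7, 3,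
  1)], [(v17, 5, 191691), (v14, 1, 147896), (v22, 6, 114258)]), (245, [(v28, 9, 1746), (v3, 0,
  733)], [(v17, 5, 55233), (v14, 1, 84512), (v22, 6, 49206)]), (-21, [(v23, 5, 73300), (v19, 3,
  101887), (v28, 9, 472600)], [(v17, 5, 113715), (v14, 1, 84512), (v22, 6, 94242)])]))) (.far
  162))) (.far 16)) (.node 0 (-908) (.node 0 (-889) (.far 109) (.node 1 242 (.node 6 (-382)
  (.far 201) (.node 9 (-721) (.far 207) (.leaf 52415748 [(v14, 1, 42685062), (v17, 5,
  70881437), (v22, 6, 34720224)] [(-899, [(v24, 3, 64), (v21, 3, 7), (v7, 3, 1)], [(v17, 5,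
  1363549), (v14, 1, 898464), (v22, 6, 696234)]), (252, [(v28, 9, 254), (v3, 0, 103)], [(v17,
  5, 392887), (v14, 1, 513408), (v22, 6, 299838)]), (-9, [(v23, 5, 5150), (v19, 3, 6489), (v28,
  9, 30600)], [(v17, 5, 115555), (v14, 1, 73344), (v22, 6, 82038)])]))) (.far 206))) (.far
  16)))) (.node 1 239 (.node 0 (-887) (.node 0 (-870) (.far 17) (.node 5 284 (.node 6 (-350)
  (.far 201) (.node 9 (-736) (.far 163) (.leaf 427618800 [(v22, 6, 312602918), (v14, 1,
  352870000), (v17, 5, 513569175)] [(-879, [(v24, 3, 64), (v21, 3, 7), (v7, 3, 1)], [(v14, 1,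
  5566400), (v22, 6, 4649506), (v17, 5, 7403025)]), (250, [(v28, 9, 435), (v3, 0, 184)], [(v22,
  6, 2002342), (v17, 5, 2133075), (v14, 1, 3180800)]), (-43, [(v23, 5, 4600), (v19, 3, 6532),
  (v28, 9, 30175)], [(v17, 5, 4391625), (v14, 1, 3180800), (v22, 6, 3834994)])]))) (.far 156)))
  (.far 1)) (.node 0 (-878) (.node 0 (-868) (.far 58) (.node 1 217 (.node 5 297 (.node 6 (-354)
  (.far 201) (.node 9 (-752) (.far 163) (.leaf 9280656 [(v14, 1, 8469648), (v17, 5, 10616942),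
  (v22, 6, 6695535)] [(-873, [(v24, 3, 64), (v21, 3, 7), (v7, 3, 1)], [(v14, 1, 186912), (v22,
  6, 140151), (v17, 5, 215822)]), (228, [(v28, 9, 217), (v3, 0, 94)], [(v22, 6, 7161), (v17, 5,
  7378), (v14, 1, 12672)]), (-37, [(v23, 5, 18800), (v19, 3, 27918), (v28, 9, 126225)], [(v17,
  5, 896210), (v14, 1, 747648), (v22, 6, 809193)])]))) (.far 156)) (.far 156))) (.far 1))))))
  (.node 2 (-30) (.node 1 328 (.node 5 193 (.node 1 360 (.node 0 (-952) (.node 0 (-925) (.far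
  0) (.node 6 (-414) (.far 157) (.node 7 836 (.node 9 (-639) (.far 329) (.leaf 57529440 [(v14,
  1, 30238468), (v17, 5, 102173130), (v22, 6, 34607795)] [(-939, [(v24, 3, 64), (v21, 3, 7),
  (v7, 3, 1)], [(v14, 1, 124292), (v22, 6, 132205), (v17, 5, 366390)]), (376, [(v28, 9, 1850),
  (v3, 0, 639)], [(v17, 5, 105570), (v14, 1, 71024), (v22, 6, 56935)]), (-10, [(v10, 7, 639),
  (v28, 9, 836)], [(v17, 5, 217350), (v14, 1, 71024), (v22, 6, 109045)])])) (.far 160)))) (.far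
  108)) (.node 0 (-950) (.node 0 (-913) (.far 0) (.node 6 (-401) (.far 157) (.node 7 815 (.node
  9 (-652) (.far 207) (.leaf 1370784816 [(v14, 1, 797457472), (v17, 5, 2425458525), (v22, 6,
  850655413)] [(-932, [(v24, 3, 64), (v21, 3, 7), (v7, 3, 1)], [(v17, 5, 2910057), (v14, 1,
  1083502), (v22, 6, 1084081)]), (344, [(v28, 9, 913), (v3, 0, 326)], [(v17, 5, 838491), (v14,
  1, 619144), (v22, 6, 466867)]), (-1, [(v10, 7, 4), (v28, 9, 5)], [(v17, 5, 1726305), (v14, 1,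
  619144), (v22, 6, 894169)])])) (.far 160)))) (.far 16))) (.node 1 376 (.node 8 (-44) (.node 5
  172 (.node 0 (-965) (.node 0 (-950) (.far 17) (.node 1 388 (.far 205) (.node 6 (-451) (.far
  211) (.node 7 853 (.node 9 (-631) (.far 329) (.leaf 1575021888 [(v14, 1, 796509296), (v22, 6,
  868747060), (v17, 5, 3156848013)] [(-958, [(v24, 3, 64), (v21, 3, 7), (v7, 3, 1)], [(v14, 1,
  1086008), (v22, 6, 1107508), (v17, 5, 3751869)]), (382, [(v28, 9, 1900), (v3, 0, 631)],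
  [(v17, 5, 1081047), (v14, 1, 620576), (v22, 6, 476956)]), (11, [(v10, 7, 631), (v28, 9,
  853)], [(v17, 5, 2225685), (v14, 1, 620576), (v22, 6, 913492)])])) (.far 204))))) (.far 108))
  (.node 5 161 (.node 0 (-972) (.node 0 (-963) (.far 17) (.node 1 395 (.far 205) (.node 2 15
  (.node 6 (-470) (.far 323) (.node 7 858 (.node 9 (-623) (.far 329) (.leaf 726432 [(v14, 1,
  368368), (v22, 6, 384307), (v17, 5, 1560306)] [(-968, [(v24, 3, 64), (v21, 3, 7), (v7, 3,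
  1)], [(v17, 5, 83190), (v14, 1, 22540), (v22, 6, 22057)]), (385, [(v28, 9, 1926), (v3, 0,
  623)], [(v17, 5, 23970), (v14, 1, 12880), (v22, 6, 9499)]), (22, [(v10, 7, 623), (v28, 9,
  858)], [(v17, 5, 7050), (v14, 1, 1840), (v22, 6, 2599)])])) (.far 204))) (.far 264)))) (.far
  108)) (.node 4 226 (.node 6 (-484) (.node 0 (-974) (.node 0 (-971) (.far 58) (.node 1 382
  (.node 1 393 (.far 195) (.node 2 24 (.node 5 157 (.node 6 (-480) (.far 307) (.node 7 864
  (.node 9 (-622) (.far 317) (.leaf 6218104320 [(v14, 1, 3107846400), (v22, 6, 3221113579),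
  (v17, 5, 13719820320)] [(-973, [(v24, 3, 64), (v21, 3, 7), (v7, 3, 1)], [(v14, 1, 4220160),
  (v22, 6, 4108219), (v17, 5, 16227360)]), (387, [(v28, 9, 971), (v3, 0, 311)], [(v17, 5,
  4675680), (v14, 1, 2411520), (v22, 6, 1769233)]), (27, [(v10, 7, 311), (v28, 9, 432)], [(v17,
  5, 9626400), (v14, 1, 2411520), (v22, 6, 3388531)])])) (.far 263))) (.far 307)) (.far 251)))
  (.far 156))) (.far 98)) (.node 0 (-975) (.node 0 (-972) (.far 60) (.node 1 386 (.node 1 393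
  (.far 195) (.node 2 27 (.node 5 155 (.node 7 867 (.node 9 (-621) (.far 258) (.leaf 6254867520
  [(v14, 1, 3090824000), (v22, 6, 3210567545), (v17, 5, 13976210028)] [(-974, [(v24, 3, 64),
  (v21, 3, 7), (v7, 3, 1)], [(v17, 5, 16533924), (v14, 1, 4201120), (v22, 6, 4098355)]), (389,
  [(v28, 9, 72), (v3, 0, 23)], [(v17, 5, 4764012), (v14, 1, 2400640), (v22, 6, 1764985)]), (28,
  [(v10, 7, 207), (v28, 9, 289)], [(v17, 5, 1961652), (v14, 1, 480128), (v22, 6, 676079)])]))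
  (.far 268)) (.far 251)) (.far 253))) (.far 158))) (.far 55))) (.node 0 (-978) (.node 0 (-971)
  (.far 58) (.node 1 392 (.node 1 400 (.far 161) (.node 2 23 (.node 5 151 (.node 6 (-480) (.far
  323) (.node 7 869 (.node 8 (-39) (.far 256) (.node 9 (-616) (.far 276) (.leaf 153773568 [(v8,
  8, 397151744), (v22, 6, 32941103), (v17, 5, 113429472)] [(-975, [(v24, 3, 64), (v21, 3, 7),
  (v7, 3, 1)], [(v8, 8, 2705920), (v22, 6, 190411), (v17, 5, 455520)]), (396, [(v28, 9, 971),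
  (v3, 0, 308)], [(v8, 8, 99960), (v14, 1, 10335), (v22, 6, 10192)]), (26, [(v10, 7, 56), (v28,
  9, 79)], [(v17, 5, 305760), (v8, 8, 1546240), (v22, 6, 237523)])]))) (.far 310))) (.far 264))
  (.far 264))) (.far 154))) (.far 63))))) (.node 0 (-950) (.far 17) (.node 1 425 (.far 161)
  (.node 2 (-10) (.node 5 138 (.node 6 (-447) (.far 323) (.node 7 853 (.node 9 (-600) (.far
  276) (.leaf 184564512 [(v8, 8, 426291384), (v17, 5, 150684743), (v22, 6, 43714858)] [(-969,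
  [(v24, 3, 64), (v21, 3, 7), (v7, 3, 1)], [(v8, 8, 575736), (v22, 6, 49082), (v17, 5,
  119647)]), (400, [(v28, 9, 19), (v3, 0, 6)], [(v22, 6, 264704), (v8, 8, 2142918), (v14, 1,
  260601)]), (0, [(v10, 7, 600), (v28, 9, 853)], [(v17, 5, 80311), (v8, 8, 328992), (v22, 6,
  61226)])])) (.far 204))) (.far 264)) (.far 264))))) (.node 1 352 (.node 5 178 (.node 0 (-961)
  (.node 0 (-949) (.far 17) (.node 6 (-450) (.far 201) (.node 7 840 (.node 9 (-638) (.far 207)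
  (.leaf 63439200 [(v14, 1, 34503075), (v22, 6, 35134352), (v17, 5, 122839200)] [(-955, [(v24,
  3, 64), (v21, 3, 7), (v7, 3, 1)], [(v17, 5, 438075), (v14, 1, 140175), (v22, 6, 134123)]),
  (364, [(v28, 9, 949), (v3, 0, 319)], [(v17, 5, 126225), (v14, 1, 80100), (v22, 6, 57761)]),
  (15, [(v10, 7, 319), (v28, 9, 420)], [(v17, 5, 259875), (v14, 1, 80100), (v22, 6,
  110627)])])) (.far 204)))) (.far 16)) (.node 1 364 (.node 0 (-969) (.node 0 (-959) (.far 17)
  (.node 2 15 (.node 5 164 (.node 6 (-465) (.far 201) (.node 7 850 (.node 9 (-632) (.far 163)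
  (.leaf 53534520 [(v14, 1, 28216200), (v22, 6, 28715908), (v17, 5, 112926645)] [(-964, [(v24,
  3, 64), (v21, 3, 7), (v7, 3, 1)], [(v17, 5, 1069965), (v14, 1, 305040), (v22, 6, 292084)]),
  (370, [(v28, 9, 959), (v3, 0, 316)], [(v17, 5, 2158065), (v14, 1, 1220160), (v22, 6,
  880516)]), (22, [(v10, 7, 316), (v28, 9, 425)], [(v17, 5, 4443075), (v14, 1, 1220160), (v22,
  6, 1686412)])])) (.far 204))) (.far 156)) (.far 156))) (.far 1)) (.node 0 (-964) (.node 0
  (-958) (.far 17) (.node 2 22 (.node 5 171 (.node 6 (-467) (.far 201) (.node 7 843 (.node 9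
  (-640) (.far 163) (.leaf 252986976 [(v14, 1, 138179229), (v22, 6, 134926638), (v17, 5,
  510648622)] [(-961, [(v24, 3, 64), (v21, 3, 7), (v7, 3, 1)], [(v17, 5, 606166), (v14, 1,
  186333), (v22, 6, 171798)]), (358, [(v28, 9, 479), (v3, 0, 160)], [(v17, 5, 87329), (v14, 1,
  53238), (v22, 6, 36993)]), (26, [(v10, 7, 640), (v28, 9, 843)], [(v17, 5, 179795), (v14, 1,
  53238), (v22, 6, 70851)])])) (.far 204))) (.far 156)) (.far 156))) (.far 1)))) (.node 0
  (-959) (.node 0 (-947) (.far 17) (.node 2 14 (.node 5 177 (.node 6 (-454) (.far 201) (.node 7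
  826 (.node 9 (-648) (.far 163) (.leaf 158144544 [(v14, 1, 93268852), (v22, 6, 87096095),
  (v17, 5, 308229226)] [(-953, [(v24, 3, 64), (v21, 3, 7), (v7, 3, 1)], [(v17, 5, 18614), (v14,
  1, 6356), (v22, 6, 5617)]), (340, [(v28, 9, 947), (v3, 0, 324)], [(v17, 5, 316438), (v14, 1,
  214288), (v22, 6, 142721)]), (22, [(v10, 7, 324), (v28, 9, 413)], [(v17, 5, 651490), (v14, 1,
  214288), (v22, 6, 273347)])])) (.far 204))) (.far 156)) (.far 156))) (.far 1))))) (.node 1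
  280 (.node 6 (-430) (.node 0 (-931) (.node 0 (-908) (.far 17) (.node 5 220 (.node 6 (-399)
  (.far 260) (.node 7 787 (.node 9 (-679) (.far 213) (.leaf 18960480 [(v14, 1, 13161984), (v17,
  5, 29519217), (v22, 6, 11966020)] [(-920, [(v24, 3, 64), (v21, 3, 7), (v7, 3, 1)], [(v17, 5,
  70623), (v14, 1, 35112), (v22, 6, 30140)]), (304, [(v28, 9, 1816), (v3, 0, 679)], [(v17, 5,
  20349), (v14, 1, 20064), (v22, 6, 12980)]), (-6, [(v10, 7, 679), (v28, 9, 787)], [(v17, 5,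
  41895), (v14, 1, 20064), (v22, 6, 24860)])])) (.far 204))) (.far 201))) (.far 18)) (.node 1
  304 (.node 0 (-950) (.node 0 (-926) (.far 19) (.node 2 (-2) (.node 5 191 (.node 7 806 (.node
  9 (-665) (.far 163) (.leaf 33706152 [(v14, 1, 21542699), (v22, 6, 19647406), (v17, 5,
  60637740)] [(-938, [(v24, 3, 64), (v21, 3, 7), (v7, 3, 1)], [(v17, 5, 1446090), (v14, 1,
  574910), (v22, 6, 497173)]), (316, [(v28, 9, 1852), (v3, 0, 665)], [(v17, 5, 416670), (v14,
  1, 328520), (v22, 6, 214111)]), (14, [(v10, 7, 665), (v28, 9, 806)], [(v17, 5, 857850), (v14,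
  1, 328520), (v22, 6, 410077)])])) (.far 210)) (.far 156)) (.far 158))) (.far 1)) (.node 0
  (-940) (.node 0 (-923) (.far 19) (.node 2 8 (.node 5 204 (.node 7 792 (.node 9 (-681) (.far
  163) (.leaf 14736960 [(v14, 1, 10292480), (v22, 6, 8592514), (v17, 5, 24761765)] [(-932,
  [(v24, 3, 64), (v21, 3, 7), (v7, 3, 1)], [(v17, 5, 12685), (v14, 1, 5848), (v22, 6, 4658)]),
  (292, [(v28, 9, 1846), (v3, 0, 681)], [(v17, 5, 1505), (v14, 1, 1376), (v22, 6, 826)]), (19,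
  [(v10, 7, 227), (v28, 9, 264)], [(v17, 5, 52675), (v14, 1, 23392), (v22, 6, 26894)])])) (.far
  210)) (.far 156)) (.far 158))) (.far 1)))) (.node 1 256 (.node 2 11 (.node 0 (-931) (.node 0
  (-908) (.far 0) (.node 5 217 (.node 6 (-413) (.far 157) (.node 7 774 (.node 9 (-697) (.far
  163) (.leaf 11061792 [(v14, 1, 8462783), (v22, 6, 6694016), (v17, 5, 17354496)] [(-920,
  [(v24, 3, 64), (v21, 3, 7), (v7, 3, 1)], [(v17, 5, 167088), (v14, 1, 89621), (v22, 6,
  67952)]), (268, [(v28, 9, 1816), (v3, 0, 697)], [(v17, 5, 204), (v14, 1, 217), (v22, 6,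
  124)]), (20, [(v10, 7, 697), (v28, 9, 774)], [(v17, 5, 24780), (v14, 1, 12803), (v22, 6,
  14012)])])) (.far 160))) (.far 156))) (.far 1)) (.node 0 (-919) (.node 0 (-906) (.far 17)
  (.node 5 235 (.node 6 (-405) (.far 201) (.node 7 774 (.node 9 (-706) (.far 163) (.leaf
  1624320 [(v14, 1, 1249965), (v17, 5, 2366928), (v22, 6, 1014448)] [(-913, [(v24, 3, 64),
  (v21, 3, 7), (v7, 3, 1)], [(v17, 5, 229392), (v14, 1, 133245), (v22, 6, 103024)]), (268,
  [(v28, 9, 906), (v3, 0, 353)], [(v17, 5, 16524), (v14, 1, 19035), (v22, 6, 11092)]), (0,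
  [(v10, 7, 353), (v28, 9, 387)], [(v17, 5, 34020), (v14, 1, 19035), (v22, 6, 21244)])])) (.far
  204))) (.far 156))) (.far 1))) (.node 0 (-921) (.node 0 (-905) (.far 109) (.node 1 232 (.node
  5 230 (.node 6 (-409) (.far 201) (.node 7 761 (.node 8 37 (.node 9 (-713) (.far 163) (.leaf
  24185420 [(v14, 1, 8643607), (v11, 8, 289880868), (v17, 5, 5081728)] [(-913, [(v24, 3, 64),
  (v21, 3, 7), (v7, 3, 1)], [(v17, 5, 2146), (v14, 1, 5957), (v11, 8, 182758)]), (244, [(v28,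
  9, 1810), (v3, 0, 713)], [(v11, 8, 166872), (v14, 1, 15133), (v22, 6, 2960)]), (18, [(v10, 7,
  713), (v28, 9, 761)], [(v14, 1, 15133), (v22, 6, 8584), (v11, 8, 664216)])])) (.far 206))
  (.far 326))) (.far 156)) (.far 206))) (.far 1))))) (.node 0 (-933) (.node 0 (-910) (.far 58)
  (.node 1 320 (.node 5 221 (.node 6 (-392) (.far 323) (.node 7 810 (.node 9 (-659) (.far 276)
  (.leaf 62375040 [(v14, 1, 37728236), (v17, 5, 97837320), (v22, 6, 40669525)] [(-922, [(v24,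
  3, 64), (v21, 3, 7), (v7, 3, 1)], [(v17, 5, 346920), (v14, 1, 151606), (v22, 6, 151385)]),
  (348, [(v28, 9, 1820), (v3, 0, 659)], [(v17, 5, 5880), (v14, 1, 5096), (v22, 6, 3835)]),
  (-41, [(v10, 7, 659), (v28, 9, 810)], [(v17, 5, 205800), (v14, 1, 86632), (v22, 6,
  124865)])])) (.far 263))) (.far 264)) (.far 156))) (.far 63)))) (.node 0 (-904) (.far 64)
  (.node 1 351 (.node 5 121 (.node 6 (-382) (.far 270) (.node 7 825 (.node 9 (-528) (.far 65)
  (.leaf 5143248 [(v8, 8, 8135072), (v17, 5, 4958742), (v22, 6, 1405965)] [(-952, [(v24, 3,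
  64), (v21, 3, 7), (v7, 3, 1)], [(v8, 8, 1294216), (v22, 6, 176055), (v17, 5, 418290)]), (471,
  [(v28, 9, 113), (v3, 0, 33)], [(v22, 6, 38610), (v8, 8, 1139697), (v12, 1, 202460)]), (-15,
  [(v10, 7, 16), (v28, 9, 25)], [(v17, 5, 280770), (v8, 8, 739552), (v22, 6, 219615)])])) (.far
  273))) (.far 58)) (.far 162)))) (.node 6 (-250) (.node 6 (-150) (.node 8 30 (.node 0 (-724)
  (.node 0 (-648) (.far 117) (.node 2 (-278) (.node 2 (-181) (.far 270) (.node 4 511 (.node 5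
  529 (.node 9 (-918) (.far 331) (.leaf 6064767 [(v2, 2, 49923459), (v15, 4, 3264516), (v1, 0,
  9447295)] [(-686, [(v24, 3, 64), (v21, 3, 7), (v7, 3, 1)], [(v2, 2, 533484), (v1, 0, 92491),
  (v15, 4, 32580)]), (67, [(v28, 9, 766500), (v5, 3, 60809), (v15, 4, 68000)], [(v15, 4,
  117288), (v2, 2, 2483460), (v1, 0, 647437)]), (-230, [(v28, 9, 52900), (v23, 5, 5400), (v19,
  3, 14283)], [(v2, 2, 9271584), (v1, 0, 2312275), (v15, 4, 703728)])])) (.far 323)) (.far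
  315))) (.far 276))) (.far 112)) (.node 8 (-30) (.node 0 (-735) (.node 0 (-627) (.far 117)
  (.node 2 (-341) (.node 2 (-196) (.far 270) (.node 4 447 (.node 5 518 (.node 9 (-884) (.far
  331) (.leaf 155642718 [(v2, 2, 1200765819), (v15, 4, 98497938), (v1, 0, 255724826)] [(-681,
  [(v24, 3, 64), (v21, 3, 7), (v7, 3, 1)], [(v2, 2, 2709267), (v1, 0, 525672), (v15, 4,
  204820)]), (105, [(v15, 4, 884000), (v28, 9, 9051750), (v5, 3, 691509)], [(v15, 4, 81928),
  (v2, 2, 1401345), (v1, 0, 408856)]), (-269, [(v28, 9, 12950), (v23, 5, 1300), (v19, 3,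
  3367)], [(v15, 4, 8778), (v2, 2, 93423), (v1, 0, 26075)])])) (.far 323)) (.far 315))) (.far
  276))) (.far 112)) (.node 1 390 (.node 4 150 (.node 0 (-784) (.node 0 (-583) (.far 19) (.node
  2 (-671) (.node 5 467 (.node 8 (-218) (.far 211) (.node 9 (-727) (.far 317) (.leaf 173440800
  [(v8, 8, 128638575), (v15, 4, 195944177), (v12, 1, 38228480)] [(-684, [(v24, 3, 64), (v21, 3,
  7), (v7, 3, 1)], [(v8, 8, 149175), (v12, 1, 34880), (v15, 4, 160121)]), (449, [(v28, 9,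
  1166), (v3, 0, 727)], [(v15, 4, 15587), (v8, 8, 49725), (v12, 1, 34880)]), (-492, [(v28, 9,
  1587800), (v23, 5, 145400), (v19, 3, 339509)], [(v8, 8, 49725), (v12, 1, 30520), (v15, 4,
  94939)])]))) (.far 307)) (.far 253))) (.far 98)) (.node 6 (-100) (.node 2 (-579) (.node 4 100
  (.node 0 (-762) (.node 0 (-654) (.far 56) (.node 1 495 (.node 5 506 (.node 8 (-336) (.far
  315) (.node 9 (-723) (.far 317) (.leaf 113097600 [(v12, 1, 18753280), (v8, 8, 54402975),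
  (v15, 4, 194613804)] [(-708, [(v24, 3, 64), (v21, 3, 7), (v7, 3, 1)], [(v8, 8, 126225), (v12,
  1, 35840), (v15, 4, 313236)]), (526, [(v28, 9, 436), (v3, 0, 241)], [(v8, 8, 42075), (v12, 1,
  35840), (v15, 4, 30492)]), (-494, [(v28, 9, 860200), (v23, 5, 72300), (v19, 3, 182919)],
  [(v8, 8, 42075), (v12, 1, 31360), (v15, 4, 185724)])]))) (.far 307)) (.far 196))) (.far 98))
  (.node 6 30 (.node 0 (-688) (.node 0 (-675) (.far 56) (.node 1 556 (.node 5 627 (.node 8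
  (-458) (.far 315) (.node 9 (-764) (.far 271) (.leaf 1663830 [(v17, 5, 2482818), (v3, 0,
  1690240), (v12, 1, 2322009)] [(-682, [(v24, 3, 64), (v21, 3, 7), (v7, 3, 1)], [(v17, 5,
  675540), (v12, 1, 648945), (v3, 0, 232408)]), (571, [(v17, 5, 764000), (v28, 9, 156750), (v5,
  3, 359271)], [(v8, 8, 79230), (v12, 1, 248007), (v17, 5, 127324)]), (-573, [(v23, 5, 38200),
  (v19, 3, 119757), (v28, 9, 532950)], [(v17, 5, 72558), (v12, 1, 73359), (v3, 0, 58102)])])))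
  (.far 260)) (.far 196))) (.far 59)) (.node 5 558 (.node 1 622 (.node 0 (-737) (.node 0 (-701)
  (.far 0) (.node 8 (-480) (.far 205) (.node 9 (-687) (.far 313) (.leaf 4257754830 [(v12, 1,
  5274178893), (v17, 5, 7154684998), (v3, 0, 4217841090)] [(-719, [(v24, 3, 64), (v21, 3, 7),
  (v7, 3, 1)], [(v17, 5, 654033), (v12, 1, 499813), (v3, 0, 192820)]), (658, [(v28, 9, 1402),
  (v3, 0, 687)], [(v8, 8, 28923), (v12, 1, 84816), (v17, 5, 54736)]), (-553, [(v17, 5, 114500),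
  (v19, 3, 149079), (v28, 9, 341000)], [(v17, 5, 6322319), (v12, 1, 5085054), (v3, 0,
  4338450)])])))) (.far 96)) (.node 6 (-9) (.node 0 (-717) (.node 0 (-682) (.far 99) (.node 1
  553 (.node 5 583 (.node 8 (-436) (.far 315) (.node 9 (-729) (.far 213) (.leaf 139921166 [(v3,
  0, 139129823), (v12, 1, 194682356), (v17, 5, 223270432)] [(-700, [(v24, 3, 64), (v21, 3, 7),
  (v7, 3, 1)], [(v12, 1, 415679), (v3, 0, 146545), (v17, 5, 462861)]), (587, [(v28, 9, 1364),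
  (v3, 0, 729)], [(v8, 8, 146545), (v12, 1, 439052), (v17, 5, 241108)]), (-552, [(v23, 5,
  145800), (v19, 3, 425007), (v28, 9, 1982200)], [(v17, 5, 994294), (v12, 1, 939796), (v3, 0,
  732725)])]))) (.far 201)) (.far 196))) (.far 18)) (.node 8 (-454) (.node 0 (-732) (.node 0
  (-706) (.far 99) (.node 1 551 (.node 2 (-535) (.node 8 (-413) (.far 311) (.node 9 (-728)
  (.far 329) (.leaf 1266214530 [(v3, 0, 1168596615), (v12, 1, 1730679222), (v17, 5,
  2068928411)] [(-719, [(v24, 3, 64), (v21, 3, 7), (v7, 3, 1)], [(v12, 1, 503378), (v3, 0,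
  170810), (v17, 5, 583509)]), (573, [(v28, 9, 353), (v3, 0, 182)], [(v8, 8, 80910), (v12, 1,
  230454), (v17, 5, 131747)]), (-510, [(v28, 9, 118575), (v23, 5, 9100), (v19, 3, 25389)],
  [(v12, 1, 5121324), (v3, 0, 3843225), (v17, 5, 5640587)])]))) (.far 269)) (.far 194))) (.far
  108)) (.node 0 (-733) (.node 0 (-709) (.far 113) (.node 1 574 (.node 2 (-554) (.node 9 (-717)
  (.far 207) (.leaf 3974022990 [(v3, 0, 3763431000), (v12, 1, 5306675697), (v17, 5,
  6613807949)] [(-721, [(v24, 3, 64), (v21, 3, 7), (v7, 3, 1)], [(v12, 1, 505517), (v3, 0,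
  177940), (v17, 5, 610449)]), (598, [(v28, 9, 1418), (v3, 0, 717)], [(v8, 8, 400365), (v12, 1,
  1203327), (v17, 5, 716639)]), (-532, [(v23, 5, 23900), (v19, 3, 66681), (v28, 9, 316200)],
  [(v17, 5, 5901007), (v12, 1, 5143086), (v3, 0, 4003650)])])) (.far 158)) (.far 212))) (.far
  16))))) (.node 8 (-466) (.node 5 524 (.node 8 (-430) (.node 0 (-753) (.node 0 (-729) (.far
  97) (.node 1 549 (.node 1 589 (.far 205) (.node 2 (-496) (.node 8 (-393) (.far 311) (.node 9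
  (-714) (.far 329) (.leaf 815561460 [(v3, 0, 704966020), (v12, 1, 1099342044), (v17, 5,
  1397171511)] [(-741, [(v24, 3, 64), (v21, 3, 7), (v7, 3, 1)], [(v17, 5, 1200663), (v12, 1,
  976212), (v3, 0, 319640)]), (569, [(v28, 9, 243), (v3, 0, 119)], [(v8, 8, 3660), (v12, 1,
  9956), (v17, 5, 6039)]), (-472, [(v28, 9, 13100), (v23, 5, 1050), (v19, 3, 2751)], [(v17, 5,
  1289601), (v12, 1, 1103544), (v3, 0, 799100)])]))) (.far 264))) (.far 194))) (.far 108))
  (.node 0 (-755) (.node 0 (-730) (.far 109) (.node 1 568 (.node 1 627 (.far 205) (.node 2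
  (-518) (.node 9 (-699) (.far 329) (.leaf 190112440 [(v3, 0, 169575832), (v12, 1, 252243251),
  (v17, 5, 332002248)] [(-743, [(v24, 3, 64), (v21, 3, 7), (v7, 3, 1)], [(v12, 1, 219949), (v3,
  0, 74408), (v17, 5, 279882)]), (597, [(v28, 9, 1460), (v3, 0, 699)], [(v8, 8, 37204), (v12,
  1, 107027), (v17, 5, 67166)]), (-495, [(v28, 9, 445400), (v23, 5, 34950), (v19, 3, 91569)],
  [(v17, 5, 150307), (v12, 1, 124319), (v3, 0, 93010)])])) (.far 264))) (.far 206))) (.far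
  108))) (.node 1 597 (.node 0 (-777) (.node 0 (-753) (.far 17) (.node 1 646 (.far 211) (.node
  2 (-494) (.node 5 491 (.node 6 (-69) (.far 323) (.node 8 (-424) (.far 211) (.node 9 (-675)
  (.far 331) (.leaf 732599496 [(v8, 8, 161230161), (v17, 5, 204583551), (v22, 6, 1555108457)]
  [(-765, [(v24, 3, 64), (v21, 3, 7), (v7, 3, 1)], [(v8, 8, 474306), (v22, 6, 2524231), (v17,
  5, 266961)]), (621, [(v28, 9, 502), (v3, 0, 225)], [(v8, 8, 700281), (v12, 1, 516856), (v22,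
  6, 928136)]), (-472, [(v28, 9, 66776), (v23, 5, 5400), (v19, 3, 13257)], [(v17, 5, 179193),
  (v8, 8, 271032), (v22, 6, 3148783)])])))) (.far 323)) (.far 264)))) (.far 112)) (.node 0
  (-769) (.node 0 (-750) (.far 97) (.node 1 548 (.node 2 (-477) (.node 5 499 (.node 6 (-74)
  (.far 201) (.node 8 (-382) (.far 315) (.node 9 (-699) (.far 213) (.leaf 959189776 [(v22, 6,
  1871010979), (v8, 8, 238689664), (v17, 5, 254510938)] [(-760, [(v24, 3, 64), (v21, 3, 7),
  (v7, 3, 1)], [(v8, 8, 2067856), (v22, 6, 9244973), (v17, 5, 1031782)]), (572, [(v28, 9, 500),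
  (v3, 0, 233)], [(v8, 8, 517038), (v12, 1, 374551), (v22, 6, 575674)]), (-454, [(v28, 9,
  1696600), (v23, 5, 139800), (v19, 3, 348801)], [(v17, 5, 692566), (v8, 8, 1181632), (v22, 6,
  11532389)])])))) (.far 201)) (.far 156)) (.far 196))) (.far 18)))) (.node 0 (-758) (.node 0
  (-732) (.far 109) (.node 1 606 (.node 1 694 (.far 153) (.node 2 (-568) (.node 5 518 (.node 9
  (-672) (.far 104) (.leaf 213507686 [(v8, 8, 426399211), (v17, 5, 47172947), (v3, 0,
  1246406938)] [(-745, [(v24, 3, 64), (v21, 3, 7), (v7, 3, 1)], [(v8, 8, 2180262), (v3, 0,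
  5853659), (v17, 5, 170556)]), (650, [(v28, 9, 61), (v3, 0, 28)], [(v8, 8, 147864), (v12, 1,
  56852), (v3, 0, 258863)]), (-529, [(v17, 5, 18000), (v19, 3, 21756), (v28, 9, 50875)], [(v17,
  5, 85278), (v8, 8, 2464644), (v3, 0, 7301987)])])) (.far 109)) (.far 251))) (.far 206)))
  (.node 0 (-783) (.node 1 629 (.node 2 (-531) (.node 5 484 (.node 9 (-654) (.far 317) (.leaf
  619738526 [(v8, 8, 1227783007), (v17, 5, 148444067), (v3, 0, 3460606171)] [(-771, [(v24, 3,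
  64), (v21, 3, 7), (v7, 3, 1)], [(v8, 8, 1054757), (v3, 0, 2734721), (v17, 5, 88307)]), (660,
  [(v28, 9, 758), (v3, 0, 327)], [(v8, 8, 953564), (v12, 1, 353228), (v3, 0, 1612127)]), (-500,
  [(v23, 5, 16350), (v19, 3, 39567), (v28, 9, 205700)], [(v17, 5, 88307), (v8, 8, 2384668),
  (v3, 0, 6822706)])])) (.far 307)) (.far 55)) (.far 23)) (.far 98))))))) (.node 4 100 (.node 0
  (-676) (.node 0 (-601) (.far 99) (.node 1 504 (.node 2 (-693) (.node 5 643 (.node 8 (-431)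
  (.far 256) (.node 9 (-784) (.far 258) (.leaf 138480300 [(v8, 8, 53335800), (v15, 4,
  257220369), (v12, 1, 26269450)] [(-639, [(v24, 3, 64), (v21, 3, 7), (v7, 3, 1)], [(v8, 8,
  963900), (v12, 1, 344800), (v15, 4, 3068289)]), (533, [(v17, 5, 392000), (v28, 9, 80375),
  (v5, 3, 189042)], [(v8, 8, 321300), (v12, 1, 344800), (v15, 4, 298683)]), (-636, [(v23, 5,
  19600), (v19, 3, 63014), (v28, 9, 273275)], [(v8, 8, 45900), (v12, 1, 43100), (v15, 4,
  259893)])]))) (.far 251)) (.far 253)) (.far 154))) (.far 55)) (.node 6 30 (.node 2 (-665)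
  (.node 1 627 (.node 0 (-705) (.node 0 (-651) (.far 0) (.node 5 609 (.node 8 (-520) (.far 211)
  (.node 9 (-710) (.far 317) (.leaf 46033295 [(v3, 0, 52215515), (v12, 1, 58726276), (v17, 5,
  73264532)] [(-678, [(v24, 3, 64), (v21, 3, 7), (v7, 3, 1)], [(v17, 5, 174933), (v12, 1,
  144739), (v3, 0, 60610)]), (663, [(v17, 5, 1200), (v13, 5, 200), (v5, 3, 609)], [(v8, 8,
  6699), (v12, 1, 21112), (v17, 5, 12584)]), (-630, [(v17, 5, 71000), (v19, 3, 100891), (v28,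
  9, 223300)], [(v17, 5, 6479), (v12, 1, 5642), (v3, 0, 5225)])]))) (.far 307))) (.far 98))
  (.node 2 (-622) (.node 0 (-694) (.node 0 (-650) (.far 56) (.node 1 556 (.node 5 621 (.node 8
  (-465) (.far 256) (.node 9 (-744) (.far 213) (.leaf 3021165 [(v17, 5, 4616051), (v3, 0,
  3280122), (v12, 1, 4274964)] [(-672, [(v24, 3, 64), (v21, 3, 7), (v7, 3, 1)], [(v17, 5,
  36140), (v12, 1, 34385), (v3, 0, 12788)]), (591, [(v17, 5, 124000), (v28, 9, 25875), (v5, 3,
  57753)], [(v8, 8, 115092), (v12, 1, 365769), (v17, 5, 189596)]), (-601, [(v17, 5, 31000),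
  (v19, 3, 44919), (v28, 9, 94875)], [(v17, 5, 104806), (v12, 1, 104949), (v3, 0, 86319)])])))
  (.far 201)) (.far 154))) (.far 18)) (.node 0 (-678) (.node 0 (-625) (.far 56) (.node 1 559
  (.node 5 646 (.node 8 (-489) (.far 256) (.node 9 (-756) (.far 163) (.leaf 112848125 [(v17, 5,
  169237250), (v3, 0, 131987167), (v12, 1, 162549750)] [(-652, [(v24, 3, 64), (v21, 3, 7), (v7,
  3, 1)], [(v17, 5, 1886625), (v12, 1, 1857250), (v3, 0, 722228)]), (593, [(v17, 5, 600), (v13,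
  5, 100), (v5, 3, 323)], [(v8, 8, 1805570), (v12, 1, 6001986), (v17, 5, 3006861)]), (-644,
  [(v17, 5, 283500), (v19, 3, 427329), (v28, 9, 888250)], [(v17, 5, 31175), (v12, 1, 32300),
  (v3, 0, 27778)])]))) (.far 156)) (.far 154))) (.far 1)))) (.node 1 632 (.node 0 (-681) (.node
  0 (-620) (.far 19) (.node 1 703 (.far 197) (.node 2 (-750) (.node 5 647 (.node 8 (-559) (.far
  161) (.leaf 63380120 [(v17, 5, 99194296), (v3, 0, 80451862), (v12, 1, 84179229)] [(-651,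
  [(v24, 3, 64), (v21, 3, 7), (v7, 3, 1)], [(v17, 5, 528984), (v12, 1, 461311), (v3, 0,
  204452)]), (667, [(v17, 5, 1200), (v13, 5, 200), (v5, 3, 647)], [(v8, 8, 2044520), (v12, 1,
  6871787), (v17, 5, 3886168)]), (-708, [(v17, 5, 2000), (v19, 3, 647), (v26, 3, 7117)], [(v17,
  5, 284084), (v12, 1, 260741), (v3, 0, 255565)])])) (.far 251)) (.far 253)))) (.far 55))
  (.node 0 (-654) (.node 0 (-609) (.far 99) (.node 1 561 (.node 2 (-721) (.node 5 684 (.node 8
  (-513) (.far 256) (.node 9 (-772) (.far 163) (.leaf 908786340 [(v17, 5, 1320169697), (v3, 0,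
  1135183500), (v12, 1, 1341217752)] [(-632, [(v24, 3, 64), (v21, 3, 7), (v7, 3, 1)], [(v17, 5,
  341649), (v12, 1, 354844), (v3, 0, 142120)]), (596, [(v17, 5, 300), (v13, 5, 50), (v5, 3,
  171)], [(v8, 8, 3740), (v12, 1, 12996), (v17, 5, 6171)]), (-693, [(v17, 5, 48250), (v19, 3,
  77007), (v28, 9, 156750)], [(v17, 5, 1100869), (v12, 1, 1203384), (v3, 0, 1065900)])])))
  (.far 156)) (.far 158)) (.far 154))) (.far 1)))) (.node 1 641 (.node 0 (-731) (.node 0 (-695)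
  (.far 19) (.node 2 (-625) (.node 5 568 (.node 8 (-520) (.far 161) (.node 9 (-692) (.far 258)
  (.leaf 1771288120 [(v12, 1, 2213577224), (v17, 5, 3032306267), (v3, 0, 1858669240)] [(-713,
  [(v24, 3, 64), (v21, 3, 7), (v7, 3, 1)], [(v17, 5, 2405673), (v12, 1, 1815896), (v3, 0,
  728176)]), (669, [(v28, 9, 695), (v3, 0, 346)], [(v8, 8, 45511), (v12, 1, 140296), (v17, 5,
  91663)]), (-602, [(v17, 5, 64875), (v19, 3, 85981), (v28, 9, 195250)], [(v17, 5, 2583871),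
  (v12, 1, 2052752), (v3, 0, 1820440)])]))) (.far 251)) (.far 253))) (.far 55)) (.node 0 (-710)
  (.node 0 (-687) (.far 60) (.node 1 586 (.node 2 (-602) (.node 5 597 (.node 8 (-485) (.far
  269) (.node 9 (-727) (.far 163) (.leaf 560796726 [(v3, 0, 579105124), (v12, 1, 759167289),
  (v17, 5, 900710128)] [(-699, [(v24, 3, 64), (v21, 3, 7), (v7, 3, 1)], [(v17, 5, 3623238),
  (v12, 1, 3144399), (v3, 0, 1166140)]), (613, [(v17, 5, 2908000), (v28, 9, 597000), (v5, 3,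
  1302057)], [(v8, 8, 349842), (v12, 1, 1100271), (v17, 5, 625262)]), (-591, [(v17, 5, 727000),
  (v19, 3, 1012711), (v28, 9, 2189000)], [(v17, 5, 1945813), (v12, 1, 1777269), (v3, 0,
  1457675)])]))) (.far 156)) (.far 158)) (.far 158))) (.far 1)))))) (.node 0 (-753) (.far 99)
  (.node 1 492 (.node 2 (-488) (.node 5 436 (.node 8 (-306) (.far 315) (.node 9 (-632) (.far
  317) (.leaf 13608432 [(v8, 8, 4199552), (v17, 5, 4176135), (v22, 6, 19328643)] [(-784, [(v24,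
  3, 64), (v21, 3, 7), (v7, 3, 1)], [(v8, 8, 610400), (v22, 6, 1617669), (v17, 5, 279225)]),
  (590, [(v28, 9, 753), (v3, 0, 316)], [(v22, 6, 1353), (v8, 8, 2050), (v12, 1, 1325)]), (-422,
  [(v28, 9, 46325), (v23, 5, 3950), (v19, 3, 8611)], [(v17, 5, 187425), (v8, 8, 348800), (v22,
  6, 2017917)])]))) (.far 307)) (.far 253)) (.far 196))))) (.node 1 234 (.node 0 (-768) (.node
  0 (-559) (.far 19) (.node 2 (-622) (.node 2 (-249) (.far 157) (.node 4 245 (.node 5 483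
  (.node 9 (-777) (.far 213) (.leaf 364016835 [(v2, 2, 1243602360), (v15, 4, 284765364), (v12,
  1, 187936070)] [(-664, [(v24, 3, 64), (v21, 3, 7), (v7, 3, 1)], [(v2, 2, 162435), (v12, 1,
  20335), (v15, 4, 29133)]), (312, [(v28, 9, 1118), (v3, 0, 777)], [(v15, 4, 38844), (v2, 2,
  487305), (v12, 1, 142345)]), (-436, [(v28, 9, 78200), (v23, 5, 7400), (v19, 3, 17871)], [(v2,
  2, 1949220), (v12, 1, 508375), (v15, 4, 563238)])])) (.far 201)) (.far 196))) (.far 158)))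
  (.far 18)) (.node 2 (-391) (.node 0 (-744) (.node 0 (-610) (.far 65) (.node 2 (-224) (.far
  270) (.node 4 390 (.node 5 508 (.node 9 (-854) (.far 213) (.leaf 45296160 [(v2, 2,
  308282715), (v15, 4, 33620272), (v1, 0, 77322336)] [(-677, [(v24, 3, 64), (v21, 3, 7), (v7,
  3, 1)], [(v2, 2, 344955), (v1, 0, 78624), (v15, 4, 34160)]), (156, [(v15, 4, 170800), (v28,
  9, 1579500), (v5, 3, 116571)], [(v15, 4, 13664), (v2, 2, 178425), (v1, 0, 61152)]), (-308,
  [(v28, 9, 215900), (v23, 5, 21350), (v19, 3, 54229)], [(v15, 4, 488), (v2, 2, 3965), (v1, 0,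
  1300)])])) (.far 201)) (.far 196)))) (.far 18)) (.node 0 (-660) (.node 2 (-558) (.node 4 397
  (.node 5 642 (.node 7 597 (.node 9 (-917) (.far 163) (.leaf 525132941 [(v2, 2, 2238708011),
  (v15, 4, 431373096), (v1, 7, 1055388373)] [(-608, [(v24, 3, 64), (v21, 3, 7), (v7, 3, 1)],
  [(v2, 2, 2291087), (v1, 7, 931362), (v15, 4, 389045)]), (173, [(v15, 4, 3668000), (v28, 9,
  32157000), (v5, 3, 2548343)], [(v15, 4, 466854), (v2, 2, 3555135), (v1, 7, 2173178)]), (-475,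
  [(v28, 9, 1091400), (v23, 5, 91700), (v19, 3, 294357)], [(v15, 4, 1400562), (v2, 2, 6636252),
  (v1, 7, 3880675)])])) (.far 274)) (.far 156)) (.far 154)) (.far 158)) (.far 1))))))) (.node 1
  377 (.node 0 (-765) (.far 19) (.node 2 (-436) (.node 5 339 (.node 8 (-153) (.far 211) (.node
  9 (-589) (.far 317) (.leaf 4610400 [(v8, 8, 2892800), (v17, 5, 1729750), (v22, 6, 4078283)]
  [(-820, [(v24, 3, 64), (v21, 3, 7), (v7, 3, 1)], [(v8, 8, 632800), (v22, 6, 559011), (v17, 5,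
  186150)]), (532, [(v28, 9, 1530), (v3, 0, 589)], [(v22, 6, 4147), (v8, 8, 18850), (v12, 1,
  7950)]), (-321, [(v23, 5, 117800), (v19, 3, 199671), (v28, 9, 1152600)], [(v17, 5, 124950),
  (v8, 8, 361600), (v22, 6, 697323)])]))) (.far 307)) (.far 253))) (.node 0 (-828) (.node 0
  (-718) (.far 113) (.node 1 68 (.node 2 (-309) (.node 2 (-104) (.far 270) (.node 5 388 (.node
  9 (-738) (.far 213) (.leaf 4656000 [(v2, 2, 26713800), (v17, 5, 1075875), (v22, 6, 4414082)]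
  [(-773, [(v24, 3, 64), (v21, 3, 7), (v7, 3, 1)], [(v2, 2, 407400), (v22, 6, 58006), (v17, 5,
  14625)]), (68, [(v28, 9, 718), (v3, 0, 369)], []), (-207, [(v28, 9, 164900), (v23, 5, 18450),
  (v19, 3, 35793)], [(v17, 5, 4875), (v2, 2, 116400), (v22, 6, 32786)])])) (.far 201))) (.far
  158)) (.far 212))) (.far 18)))) (.node 4 226 (.node 5 333 (.node 0 (-864) (.node 0 (-789)
  (.far 113) (.node 1 130 (.node 2 (-218) (.node 9 (-701) (.far 313) (.leaf 13320000 [(v22, 6,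
  7001991), (v2, 2, 117060600), (v17, 5, 4118750)] [(-827, [(v24, 3, 64), (v21, 3, 7), (v7, 3,
  1)], [(v2, 2, 51800), (v22, 6, 2553), (v17, 5, 1250)]), (268, [(v28, 9, 1578), (v3, 0, 701)],
  [(v22, 6, 104), (v2, 2, 5525), (v12, 1, 500)]), (-139, [(v23, 5, 140200), (v19, 3, 233433),
  (v28, 9, 1132200)], [(v17, 5, 1250), (v2, 2, 44400), (v22, 6, 4329)])])) (.far 253)) (.far
  212))) (.far 96)) (.node 0 (-923) (.node 0 (-854) (.far 58) (.node 1 225 (.node 2 (-163)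
  (.node 5 238 (.node 6 (-302) (.far 307) (.node 9 (-659) (.far 258) (.leaf 338240 [(v22, 6,
  150325), (v2, 2, 3052616), (v17, 5, 156285)] [(-889, [(v24, 3, 64), (v21, 3, 7), (v7, 3, 1)],
  [(v2, 2, 1006264), (v22, 6, 41055), (v17, 5, 33975)]), (314, [(v28, 9, 1708), (v3, 0, 659)],
  [(v22, 6, 360), (v2, 2, 23103), (v12, 1, 1208)]), (-112, [(v23, 5, 65900), (v19, 3, 78421),
  (v28, 9, 404600)], [(v17, 5, 11325), (v2, 2, 287504), (v22, 6, 23205)])]))) (.far 251)) (.far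
  251)) (.far 156))) (.far 55))) (.node 0 (-831) (.far 99) (.node 1 396 (.node 2 (-331) (.node
  5 132 (.node 8 (-89) (.far 256) (.node 9 (-519) (.far 116) (.leaf 599148000 [(v8, 8,
  665808000), (v17, 5, 583984625), (v22, 6, 300590202)] [(-916, [(v24, 3, 64), (v21, 3, 7),
  (v7, 3, 1)], [(v8, 8, 1848000), (v22, 6, 569778), (v17, 5, 812125)]), (538, [(v28, 9, 554),
  (v3, 0, 173)], [(v22, 6, 193842), (v8, 8, 2524500), (v12, 1, 589625)]), (-196, [(v14, 1,
  8650), (v19, 3, 17127), (v28, 9, 158400)], [(v17, 5, 545125), (v8, 8, 1056000), (v22, 6,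
  710754)])]))) (.far 58)) (.far 253)) (.far 154))))))) (.node 6 (-100) (.node 6 60 (.node 0
  (-691) (.node 0 (-631) (.far 99) (.node 1 697 (.node 2 (-764) (.node 5 633 (.node 8 (-597)
  (.far 315) (.leaf 9743924085 [(v3, 0, 12327155940), (v12, 1, 11729855241), (v17, 5,
  15645254411)] [(-661, [(v24, 3, 64), (v21, 3, 7), (v7, 3, 1)], [(v17, 5, 3958263), (v12, 1,
  3062243), (v3, 0, 1470670)]), (716, [(v17, 5, 1200), (v13, 5, 200), (v5, 3, 633)], [(v8, 8,
  735335), (v12, 1, 2393373), (v17, 5, 1525733)]), (-710, [(v17, 5, 2000), (v19, 3, 633), (v26,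
  3, 6963)], [(v17, 5, 12754403), (v12, 1, 10384998), (v3, 0, 11030025)])])) (.far 307)) (.far
  253)) (.far 196))) (.far 98)) (.node 2 (-578) (.node 0 (-788) (.node 0 (-730) (.far 56)
  (.node 1 688 (.node 2 (-487) (.far 252) (.node 5 479 (.node 8 (-503) (.far 315) (.node 9
  (-638) (.far 317) (.leaf 5100636290 [(v8, 8, 9466615910), (v17, 5, 1272313350), (v3, 0,
  30040747971)] [(-759, [(v24, 3, 64), (v21, 3, 7), (v7, 3, 1)], [(v17, 5, 734380), (v8, 8,
  8042410), (v3, 0, 23370889)]), (707, [(v28, 9, 730), (v3, 0, 319)], [(v8, 8, 502240), (v12,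
  1, 183595), (v3, 0, 951676)]), (-533, [(v23, 2, 63800), (v19, 3, 155353), (v28, 9, 827900)],
  [(v17, 5, 367190), (v8, 8, 9091420), (v3, 0, 29153377)])]))) (.far 307))) (.far 196))) (.far
  98)) (.node 0 (-744) (.node 0 (-685) (.far 99) (.node 1 693 (.node 1 730 (.far 197) (.node 2
  (-669) (.node 5 550 (.node 8 (-554) (.far 256) (.node 9 (-670) (.far 258) (.leaf 55026050
  [(v8, 8, 97280275), (v17, 5, 11991884), (v3, 0, 363839500)] [(-715, [(v24, 3, 64), (v21, 3,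
  7), (v7, 3, 1)], [(v17, 5, 75898), (v8, 8, 866525), (v3, 0, 2955590)]), (711, [(v17, 5,
  5360), (v28, 9, 1100), (v5, 3, 2211)], [(v8, 8, 949410), (v12, 1, 379490), (v3, 0,
  2111571)]), (-624, [(v17, 5, 4020), (v19, 3, 5159), (v28, 9, 12100)], [(v17, 5, 37949), (v8,
  8, 979550), (v3, 0, 3686870)])]))) (.far 251)) (.far 253))) (.far 154))) (.far 55)))) (.node
  0 (-782) (.far 99) (.node 1 678 (.node 2 (-501) (.node 5 301 (.node 8 (-392) (.far 318)
  (.node 9 (-572) (.far 319) (.leaf 6877248 [(v8, 8, 1603040), (v17, 5, 3297700), (v22, 6,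
  9774373)] [(-840, [(v24, 3, 64), (v21, 3, 7), (v7, 3, 1)], [(v8, 8, 8600), (v22, 6, 29197),
  (v17, 5, 7300)]), (700, [(v28, 9, 391), (v3, 0, 143)], [(v8, 8, 432225), (v12, 1, 259700),
  (v22, 6, 365442)]), (-395, [(v2, 8, 10725), (v19, 3, 7007), (v28, 9, 46550)], [(v17, 5,
  34300), (v8, 8, 34400), (v22, 6, 254947)])]))) (.far 310)) (.far 253)) (.far 198)))))) (.node
  6 150 (.node 0 (-643) (.node 0 (-575) (.far 99) (.node 1 734 (.node 2 (-886) (.node 2 (-763)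
  (.far 252) (.node 5 713 (.node 8 (-678) (.far 315) (.leaf 91584850 [(v17, 5, 137008440), (v3,
  0, 138844908), (v12, 1, 110169195)] [(-609, [(v24, 3, 64), (v21, 3, 7), (v7, 3, 1)], [(v17,
  5, 99090), (v12, 1, 81995), (v3, 0, 45508)]), (759, [(v17, 5, 1200), (v13, 5, 200), (v5, 3,
  713)], [(v8, 8, 1308355), (v12, 1, 4592433), (v17, 5, 2737086)]), (-825, [(v17, 5, 667625),
  (v23, 2, 89125), (v26, 3, 4352152)], [(v17, 5, 10643), (v12, 1, 9269), (v3, 0, 11377)])]))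
  (.far 307))) (.far 253)) (.far 196))) (.far 98)) (.node 6 60 (.node 0 (-698) (.node 0 (-636)
  (.far 99) (.node 1 729 (.node 2 (-781) (.node 5 626 (.node 8 (-625) (.far 315) (.leaf 2239515
  [(v3, 0, 2873340), (v12, 1, 2604473), (v17, 5, 3681963)] [(-667, [(v24, 3, 64), (v21, 3, 7),
  (v7, 3, 1)], [(v17, 5, 1043199), (v12, 1, 763094), (v3, 0, 380295)]), (753, [(v17, 5, 600),
  (v13, 5, 100), (v5, 3, 313)], [(v8, 8, 456354), (v12, 1, 1486750), (v17, 5, 1002375)]),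
  (-725, [(v17, 5, 1000), (v19, 3, 313), (v26, 3, 3443)], [(v17, 5, 2240946), (v12, 1,
  1725256), (v3, 0, 1901475)])])) (.far 307)) (.far 253)) (.far 196))) (.far 98)) (.node 6
  (-30) (.node 0 (-753) (.node 0 (-690) (.far 99) (.node 1 724 (.node 1 773 (.far 197) (.node 2
  (-687) (.node 5 539 (.node 8 (-572) (.far 315) (.node 9 (-647) (.far 317) (.leaf 140210070
  [(v8, 8, 241099110), (v17, 5, 32031870), (v3, 0, 926136211)] [(-722, [(v24, 3, 64), (v21, 3,
  7), (v7, 3, 1)], [(v17, 5, 35880), (v8, 8, 388815), (v3, 0, 1359358)]), (748, [(v17, 5,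
  2588000), (v28, 9, 539000), (v5, 3, 1046199)], [(v8, 8, 124890), (v12, 1, 49335), (v3, 0,
  284713)]), (-631, [(v17, 5, 1941000), (v19, 3, 2441131), (v28, 9, 5929000)], [(v17, 5, 690),
  (v8, 8, 16905), (v3, 0, 65219)])]))) (.far 307)) (.far 253))) (.far 196))) (.far 98)) (.node
  2 (-506) (.node 0 (-784) (.far 56) (.node 1 716 (.node 5 403 (.node 6 (-95) (.far 252) (.node
  8 (-485) (.far 318) (.node 9 (-604) (.far 319) (.leaf 1515167160 [(v8, 8, 282145136), (v17,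
  5, 554991805), (v22, 6, 2359962761)] [(-810, [(v24, 3, 64), (v21, 3, 7), (v7, 3, 1)], [(v8,
  8, 857584), (v22, 6, 3791827), (v17, 5, 672695)]), (729, [(v28, 9, 392), (v3, 0, 151)], [(v8,
  8, 693804), (v12, 1, 488395), (v22, 6, 763972)]), (-463, [(v28, 9, 92150), (v2, 8, 18120),
  (v19, 3, 14647)], [(v17, 5, 451535), (v8, 8, 490048), (v22, 6, 4730011)])])))) (.far 310))
  (.far 198))) (.node 0 (-794) (.node 0 (-745) (.far 99) (.node 1 721 (.node 2 (-593) (.node 5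
  472 (.node 8 (-534) (.far 256) (.node 9 (-626) (.far 274) (.leaf 45379142 [(v8, 8, 80701380),
  (v17, 5, 11868595), (v3, 0, 266929334)] [(-770, [(v24, 3, 64), (v21, 3, 7), (v7, 3, 1)],
  [(v17, 5, 198915), (v8, 8, 2021930), (v3, 0, 6112164)]), (745, [(v28, 9, 745), (v3, 0, 313)],
  [(v8, 8, 1074290), (v12, 1, 397830), (v3, 0, 2117577)]), (-550, [(v28, 9, 430100), (v23, 2,
  31300), (v19, 3, 79189)], [(v17, 5, 198915), (v8, 8, 4571320), (v3, 0, 15248904)])]))) (.far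
  263)) (.far 253)) (.far 154))) (.far 62))))))))) (.node 2 (-163) (.node 0 (-690) (.far 0)
  (.node 2 (-58) (.far 162) (.node 4 574 (.node 8 94 (.node 9 (-905) (.far 216) (.leaf 0 []
  [(0, [], [(v2, 2, 97290), (v1, 0, 2726), (v11, 8, 50025)]), (0, [(v15, 4, 362000), (v28, 9,
  4649400), (v5, 3, 363629)], [(v11, 8, 6670), (v2, 2, 27025), (v1, 0, 2726)]), (0, [], [(v2,
  2, 6486), (v1, 0, 1363), (v11, 8, 12006)])])) (.far 162)) (.far 200)))) (.node 0 (-651) (.far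
  24) (.node 2 (-268) (.node 4 579 (.node 8 40 (.node 9 (-953) (.far 163) (.leaf 0 [] [(0, [],
  [(v2, 2, 31248), (v1, 0, 2608), (v11, 8, 106113)]), (0, [(v28, 9, 46899000), (v5, 3,
  3862509), (v15, 4, 3812000)], [(v11, 8, 35371), (v2, 2, 21700), (v1, 0, 6520)]), (0, [],
  [(v2, 2, 26040), (v1, 0, 16300), (v11, 8, 318339)])])) (.far 216)) (.far 154)) (.far
  163))))))) (.node 2 (-100) (.node 0 (-823) (.node 0 (-715) (.far 0) (.node 5 361 (.node 6
  (-178) (.far 157) (.node 8 166 (.node 9 (-894) (.far 216) (.leaf 0 [] [(0, [], [(v23, 5,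
  14774), (v16, 6, 29963), (v11, 8, 128516)]), (0, [], [(v11, 8, 2056256), (v23, 5, 310254),
  (v16, 6, 868927)]), (0, [(v23, 5, 89400), (v19, 3, 161367), (v28, 9, 613700)], [(v23, 5,
  103418), (v16, 6, 449445), (v11, 8, 2056256)])])) (.far 162))) (.far 206))) (.far 23)) (.node
  0 (-681) (.far 24) (.node 8 126 (.leaf 0 [] [(0, [], [(v2, 2, 42903), (v1, 0, 2100), (v11, 8,
  28375)]), (0, [], [(v11, 8, 4540), (v2, 2, 14301), (v1, 0, 2520)]), (0, [], [(v2, 2, 4767),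
  (v1, 0, 1750), (v11, 8, 11350)])]) (.far 216)))))) (.node 0 (-789) (.node 0 (-696) (.far 24)
  (.node 2 (-133) (.node 5 413 (.node 8 169 (.node 9 (-931) (.far 216) (.leaf 0 [] [(0, [],
  [(v23, 5, 176436), (v1, 0, 488579), (v11, 8, 1796550)]), (0, [], [(v11, 8, 178416), (v23, 5,
  20280), (v1, 0, 69797)]), (0, [(v28, 9, 200600), (v23, 5, 26600), (v19, 3, 54929)], [(v23, 5,
  78416), (v1, 0, 348985), (v11, 8, 1341424)])])) (.far 216)) (.far 206)) (.far 163))) (.far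
  23))))) (.node 2 30 (.node 0 (-911) (.node 4 682 (.node 5 217 (.node 6 (-269) (.far 157)
  (.node 8 280 (.node 9 (-854) (.far 163) (.leaf 32688880 [(v11, 8, 96365484), (v16, 6,
  26991545), (v23, 5, 33620965)] [(-834, [(v24, 3, 64), (v21, 3, 7), (v7, 3, 1)], [(v23, 5,
  2690), (v16, 6, 2170), (v11, 8, 8339)]), (-125, [(v28, 9, 13810500), (v5, 3, 1019249), (v15,
  4, 854000)], [(v11, 8, 66712), (v23, 5, 28245), (v16, 6, 31465)]), (140, [(v13, 4, 2500),
  (v21, 3, 2046), (v19, 3, 341)], [(v11, 8, 66712), (v23, 5, 9415), (v16, 6, 16275)])])) (.far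
  162))) (.far 156)) (.far 154)) (.far 1)) (.node 0 (-716) (.far 24) (.node 2 (-73) (.node 5
  426 (.node 8 227 (.node 9 (-953) (.far 163) (.leaf 0 [] [(0, [], [(v23, 5, 40633), (v1, 0,
  112819), (v11, 8, 317725)]), (0, [], [(v11, 8, 2745144), (v23, 5, 406330), (v1, 0,
  1402179)]), (0, [(v28, 9, 724200), (v23, 5, 95300), (v19, 3, 202989)], [(v23, 5, 162532),
  (v1, 0, 725265), (v11, 8, 2135112)])])) (.far 216)) (.far 156)) (.far 163))))) (.node 0
  (-891) (.node 2 2 (.node 4 729 (.node 5 244 (.node 6 (-242) (.far 213) (.node 8 298 (.node 9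
  (-888) (.far 163) (.leaf 246348256 [(v11, 8, 709520768), (v16, 6, 243203462), (v23, 5,
  235873407)] [(-816, [(v24, 3, 64), (v21, 3, 7), (v7, 3, 1)], [(v23, 5, 18029), (v16, 6,
  18178), (v11, 8, 59048)]), (-200, [(v28, 9, 2460375), (v5, 3, 188811), (v15, 4, 148000)],
  [(v11, 8, 944768), (v23, 5, 378609), (v16, 6, 527162)]), (126, [(v13, 4, 5000), (v21, 3,
  4374), (v19, 3, 729)], [(v11, 8, 944768), (v23, 5, 126203), (v16, 6, 272670)])])) (.far
  216))) (.far 156)) (.far 154)) (.far 163)) (.far 1)))) (.node 2 394 (.node 1 (-455) (.node 4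
  812 (.node 6 (-519) (.far 271) (.node 7 388 (.leaf 162426500 [(v18, 2, 154011750), (v10, 7,
  852394375), (v0, 1, 358714148)] [(-936, [(v24, 3, 64), (v21, 3, 7), (v7, 3, 1)], [(v0, 1,
  305744), (v10, 7, 714125), (v18, 2, 145500)]), (-353, [(v13, 4, 6750), (v5, 3, 3451), (v15,
  4, 500)], [(v0, 1, 38218), (v10, 7, 664875), (v18, 2, 121250)]), (515, [(v13, 4, 1250), (v21,
  3, 1218), (v19, 3, 203)], [(v18, 2, 234934), (v10, 7, 374891), (v16, 6, 76436)])]) (.far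
  319))) (.far 15)) (.far 15)) (.node 0 (-937) (.node 1 (-411) (.node 2 152 (.node 4 817 (.node
  5 163 (.node 6 (-348) (.far 213) (.node 9 (-891) (.far 163) (.leaf 18321852 [(v18, 2,
  14842780), (v16, 6, 8055297), (v23, 5, 20686744)] [(-864, [(v24, 3, 64), (v21, 3, 7), (v7, 3,
  1)], [(v23, 5, 147668), (v16, 6, 52649), (v18, 2, 132356)]), (-331, [(v28, 9, 817000), (v5,
  3, 62909), (v15, 4, 44000)], [(v18, 2, 151264), (v23, 5, 249052), (v16, 6, 157947)]), (273,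
  [(v13, 4, 5000), (v21, 3, 4902), (v19, 3, 817)], [(v18, 2, 151264), (v23, 5, 24244), (v16, 6,
  52649)])]))) (.far 156)) (.far 154)) (.far 163)) (.far 163)) (.far 1)))) (.node 2 (-750)
  (.node 0 (-753) (.node 0 (-660) (.far 56) (.node 1 767 (.node 1 815 (.far 160) (.node 2
  (-591) (.far 255) (.node 5 539 (.node 8 (-609) (.far 318) (.node 9 (-647) (.far 319) (.leaf
  200200 [(v25, 4, 2229997), (v17, 5, 32700), (v3, 0, 337470)] [(-707, [(v24, 3, 64), (v21, 3,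
  7), (v7, 3, 1)], [(v17, 5, 300), (v25, 4, 37191), (v3, 0, 3430)]), (791, [(v17, 5, 2588000),
  (v28, 9, 539000), (v5, 3, 1046199)], [(v8, 8, 76700), (v12, 1, 142100), (v25, 4, 1712711)]),
  (-671, [(v28, 9, 2009400), (v23, 2, 129400), (v19, 3, 382377)], [(v25, 4, 33), (v3, 0,
  5)])]))) (.far 310)))) (.far 198))) (.far 101)) (.node 0 (-676) (.node 0 (-582) (.far 99)
  (.node 1 776 (.node 1 838 (.far 197) (.node 2 (-908) (.node 5 664 (.node 8 (-698) (.far 256)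
  (.leaf 2254280 [(v12, 1, 2587857), (v17, 5, 3666212), (v3, 0, 3436200)] [(-629, [(v24, 3,
  64), (v21, 3, 7), (v7, 3, 1)], [(v17, 5, 7857), (v12, 1, 5727), (v3, 0, 3320)]), (807, [(v17,
  5, 150), (v13, 5, 25), (v5, 3, 83)], [(v8, 8, 161020), (v12, 1, 550373), (v17, 5, 372383)]),
  (-829, [(v17, 5, 2625), (v23, 2, 332), (v26, 3, 15936)], [(v17, 5, 8439), (v12, 1, 6474),
  (v3, 0, 8300)])])) (.far 263)) (.far 253))) (.far 154))) (.far 62))))) (.node 0 (-536) (.far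
  56) (.node 1 831 (.node 2 (-807) (.far 255) (.node 5 709 (.node 8 (-764) (.far 318) (.leaf
  123507800 [(v25, 4, 1012858966), (v17, 5, 15497100), (v3, 0, 297124175)] [(-593, [(v24, 3,
  64), (v21, 3, 7), (v7, 3, 1)], [(v17, 5, 20100), (v25, 4, 2185138), (v3, 0, 372225)]), (860,
  [(v17, 5, 1200), (v13, 5, 200), (v5, 3, 709)], [(v25, 4, 1163954), (v8, 8, 62325), (v12, 1,
  133700)]), (-904, [(v17, 5, 706125), (v23, 2, 88625), (v26, 3, 4577304)], [(v25, 4, 268),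
  (v3, 0, 75)])])) (.far 310))) (.far 198)))

theorem t3_ok : treeOK dat t3 (rootIv dat 3) = true := by decide +kernel

end Pool.Agent.Y81.Proj.BlockThree
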