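import Mathlib
import Pool.Agent.Y81.BlockThree

/-! Certificate trees. -/

set_option maxRecDepth 100000

namespace Pool.Agent.Y81.Proj.BlockThree

def t4 : Tree dat :=
.node 5 (-150) (.node 7 250 (.node 5 150 (.node 1 (-541) (.node 2 313 (.node 3 853 (.node 6
  (-367) (.far 342) (.node 9 (-901) (.far 339) (.leaf 14060210400 [(v18, 2, 5283038400), (v16,
  6, 6438676050), (v23, 5, 18400840877)] [(-814, [(v26, 9, 9383000), (v21, 3, 2703000), (v5, 4,
  5379871)], [(v23, 5, 7696357), (v16, 6, 2394450), (v18, 2, 3082800)]), (-493, [(v13, 4, 5),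
  (v24, 4, 17), (v15, 4, 1)], [(v18, 2, 3523200), (v23, 5, 12980423), (v16, 6, 7183350)]),
  (418, [(v13, 4, 853), (v21, 3, 1200), (v19, 3, 200)], [(v18, 2, 3523200), (v23, 5, 1263581),
  (v16, 6, 2394450)])]))) (.far 309)) (.far 289)) (.far 220)) (.node 1 (-591) (.node 1 (-448)
  (.far 195) (.node 2 514 (.node 3 801 (.node 6 (-541) (.far 333) (.leaf 24466400 [(v18, 2,
  18401600), (v10, 7, 213462144), (v0, 1, 31026325)] [(-888, [(v24, 4, 8811), (v21, 3, 2000),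
  (v5, 4, 801)], [(v0, 1, 32125), (v10, 7, 208684), (v18, 2, 21000)]), (-520, [(v13, 4, 5),
  (v24, 4, 17), (v15, 4, 1)], [(v0, 1, 32125), (v10, 7, 1554336), (v18, 2, 140000)]), (678,
  [(v21, 3, 1200), (v19, 3, 200), (v13, 4, 801)], [(v10, 7, 1529407), (v16, 6, 192750), (v18,
  2, 473375)])])) (.far 309)) (.far 280))) (.far 220))) (.node 5 (-100) (.node 2 (-250) (.node
  0 250 (.node 2 (-150) (.node 0 434 (.far 2) (.node 1 (-889) (.far 2) (.node 3 70 (.node 5 468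
  (.node 7 (-483) (.far 71) (.node 8 548 (.node 9 (-703) (.far 34) (.leaf 4075750 [(v7, 3,
  4908025), (v4, 0, 3464867), (v3, 8, 5890500)] [(342, [(v5, 4, 117), (v19, 5, 1250), (v9, 4,
  702)], [(v20, 7, 68500), (v4, 0, 308798), (v3, 8, 221375)]), (-945, [(v13, 4, 27), (v5, 4,
  17), (v15, 4, 2)], [(v3, 8, 44625), (v4, 0, 26852), (v7, 3, 27400)]), (-12, [(v17, 1,
  329004), (v23, 5, 89281), (v26, 9, 3803904)], [(v4, 0, 55622), (v7, 3, 6850), (v3, 8,
  133875)])])) (.far 74))) (.far 27)) (.far 153)))) (.node 0 501 (.far 2) (.node 1 (-849) (.far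
  2) (.node 5 720 (.node 7 (-443) (.far 71) (.node 8 481 (.node 9 (-806) (.far 173) (.leaf
  245310 [(v10, 2, 839345), (v4, 0, 334776), (v3, 8, 921750)] [(375, [(v5, 4, 18), (v19, 5,
  125), (v9, 4, 108)], [(v20, 7, 360750), (v4, 0, 1491581), (v3, 8, 1218250)]), (-925, [(v13,
  4, 27), (v5, 4, 17), (v15, 4, 2)], [(v3, 8, 10875), (v4, 0, 4329), (v10, 2, 9620)]), (-200,
  [(v13, 4, 25389), (v23, 5, 20150), (v26, 9, 364500)], [(v4, 0, 1443), (v10, 2, 481), (v3, 8,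
  4050)])])) (.far 74))) (.far 166))))) (.node 2 (-150) (.node 2 (-100) (.node 0 150 (.node 2
  30 (.node 1 (-901) (.far 2) (.node 3 93 (.node 7 (-458) (.far 71) (.node 8 650 (.node 9
  (-646) (.far 34) (.leaf 2055300 [(v3, 8, 1965183), (v4, 0, 2577991), (v7, 3, 1745250)] [(200,
  [(v26, 9, 325), (v3, 8, 323)], [(v20, 7, 2925), (v4, 0, 20839), (v3, 8, 7557)]), (-951,
  [(v13, 4, 5), (v24, 4, 17), (v15, 4, 1)], [(v3, 8, 4743), (v4, 0, 5642), (v7, 3, 2600)]),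
  (153, [(v0, 1, 19), (v26, 9, 53)], [(v3, 8, 14229), (v4, 0, 11687), (v7, 3, 650)])])) (.far
  74))) (.far 14))) (.node 1 (-849) (.far 2) (.node 3 145 (.node 5 558 (.node 7 (-406) (.far
  71) (.node 9 (-767) (.far 75) (.leaf 8282400 [(v4, 0, 6151712), (v20, 7, 2189175), (v7, 3,
  8621130)] [(200, [(v5, 4, 279), (v19, 5, 2500), (v9, 4, 1674)], [(v20, 7, 3825), (v4, 0,
  12992), (v7, 3, 2310)]), (-906, [(v13, 4, 27), (v5, 4, 17), (v15, 4, 2)], [(v20, 7, 3825),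
  (v4, 0, 11368), (v7, 3, 14070)]), (-35, [(v17, 1, 998634), (v23, 5, 217061), (v26, 9,
  10106496)], [(v20, 7, 11475), (v4, 0, 12992), (v7, 3, 23730)])]))) (.far 68)) (.far 55))))
  (.node 6 250 (.node 0 (-29) (.node 1 (-908) (.node 1 (-742) (.far 167) (.node 3 233 (.node 5
  550 (.node 7 (-232) (.far 283) (.node 9 (-802) (.far 131) (.leaf 0 [] [(0, [(v5, 4, 11),
  (v19, 5, 100), (v9, 4, 66)], [(v20, 7, 436875), (v2, 6, 1729792), (v7, 3, 203000)]), (0, [],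
  [(v20, 7, 29125), (v2, 6, 108112), (v7, 3, 29000)]), (0, [(v13, 4, 30877), (v23, 5, 32080),
  (v26, 9, 445500)], [(v20, 7, 29125), (v2, 6, 59648), (v7, 3, 21000)])]))) (.far 119)) (.far
  98))) (.far 28)) (.far 69)) (.node 2 (-60) (.node 0 100 (.node 2 177 (.node 1 (-930) (.far 2)
  (.node 5 262 (.node 7 (-468) (.far 71) (.node 8 739 (.node 9 (-618) (.far 34) (.leaf
  2956342500 [(v19, 5, 631721850), (v22, 2, 1451519300), (v8, 0, 2874747447)] [(100, [(v26, 9,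
  739), (v3, 8, 618)], []), (-965, [(v13, 4, 5), (v24, 4, 17), (v15, 4, 1)], [(v22, 2,
  1820900), (v8, 0, 3547611), (v19, 5, 469050)]), (264, [(v0, 1, 103), (v26, 9, 310)], [(v20,
  7, 25075), (v4, 0, 135759), (v22, 2, 146900)])])) (.far 74))) (.far 27))) (.node 1 (-861)
  (.far 29) (.node 3 160 (.node 7 (-399) (.far 127) (.node 8 622 (.node 9 (-713) (.far 75)
  (.leaf 86822400 [(v20, 7, 19407200), (v4, 0, 93921408), (v7, 3, 73501785)] [(125, [(v26, 9,
  622), (v3, 8, 713)], [(v20, 7, 13600), (v4, 0, 68096), (v7, 3, 7315)]), (-911, [(v13, 4, 5),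
  (v24, 4, 17), (v15, 4, 1)], [(v20, 7, 13600), (v4, 0, 59584), (v7, 3, 44555)]), (90, [(v0, 1,
  713), (v26, 9, 1722)], [(v20, 7, 40800), (v4, 0, 68096), (v7, 3, 75145)])])) (.far 130)))
  (.far 55)))) (.node 2 (-30) (.node 6 150 (.node 3 380 (.node 0 (-133) (.node 1 (-817) (.node
  1 (-708) (.far 167) (.node 2 65 (.far 252) (.node 5 539 (.node 7 (-158) (.far 283) (.node 9
  (-863) (.far 317) (.leaf 0 [] [(0, [(v5, 4, 16397), (v26, 9, 64600), (v7, 3, 8630)], [(v2, 6,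
  192128), (v7, 3, 8295), (v20, 7, 42750)]), (0, [], [(v20, 7, 2850), (v2, 6, 12008), (v7, 3,
  1185)]), (0, [(v13, 4, 3256099), (v23, 5, 3452000), (v26, 9, 43659000)], [(v20, 7, 82650),
  (v2, 6, 192128), (v7, 3, 24885)])]))) (.far 307)))) (.far 196)) (.far 69)) (.node 2 30 (.node
  0 (-17) (.node 1 (-924) (.node 1 (-814) (.far 153) (.node 3 218 (.node 7 (-309) (.far 314)
  (.node 9 (-748) (.far 131) (.leaf 94306800 [(v2, 6, 512579912), (v20, 7, 58876350), (v7, 3,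
  86357775)] [(0, [(v26, 9, 5450), (v7, 3, 1100), (v5, 4, 1199)], [(v2, 6, 718528), (v7, 3,
  54075), (v20, 7, 81750)]), (-869, [(v13, 4, 5), (v24, 4, 17), (v15, 4, 1)], [(v20, 7, 5450),
  (v2, 6, 44908), (v7, 3, 7725)]), (94, [(v0, 1, 17), (v26, 9, 37)], [(v20, 7, 158050), (v2, 6,
  718528), (v7, 3, 162225)])]))) (.far 98))) (.far 28)) (.far 98)) (.node 0 3 (.node 1 (-811)
  (.far 153) (.node 3 288 (.node 5 566 (.node 6 182 (.node 7 (-315) (.far 254) (.node 9 (-834)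
  (.far 75) (.leaf 14676480 [(v2, 6, 65548800), (v20, 7, 9489376), (v7, 3, 10564645)] [(51,
  [(v26, 9, 20400), (v7, 3, 3475), (v5, 4, 5004)], [(v2, 6, 9216), (v7, 3, 637), (v20, 7,
  1248)]), (-842, [(v13, 4, 27), (v5, 4, 17), (v15, 4, 2)], [(v20, 7, 416), (v2, 6, 2880), (v7,
  3, 455)]), (0, [(v17, 1, 1652154), (v23, 5, 338187), (v26, 9, 14688832)], [(v20, 7, 12064),
  (v2, 6, 46080), (v7, 3, 9555)])]))) (.far 253)) (.far 68)) (.far 55))) (.far 55)))) (.node 0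
  60 (.node 1 (-886) (.far 29) (.node 2 125 (.node 3 112 (.node 7 (-408) (.far 127) (.node 8
  696 (.node 9 (-596) (.far 34) (.leaf 21210000 [(v21, 3, 12503625), (v22, 2, 10686816), (v4,
  0, 24873100)] [(60, [(v26, 9, 174), (v3, 8, 149)], []), (-943, [(v13, 4, 5), (v24, 4, 17),
  (v15, 4, 1)], [(v22, 2, 45024), (v4, 0, 95900), (v21, 3, 32625)]), (268, [(v0, 1, 149), (v26,
  9, 443)], [(v20, 7, 375), (v4, 0, 2950), (v22, 2, 2712)])])) (.far 130))) (.far 14)) (.far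
  70))) (.node 2 30 (.node 6 100 (.node 3 380 (.node 3 455 (.node 0 (-75) (.far 56) (.node 1
  (-770) (.node 1 (-719) (.far 167) (.node 5 535 (.node 9 (-895) (.far 317) (.leaf 2804100
  [(v11, 1, 527700), (v1, 0, 12783820), (v2, 6, 9303141)] [(-115, [(v5, 4, 16289), (v26, 9,
  61880), (v7, 3, 7160)], [(v2, 6, 6471), (v1, 0, 2876), (v11, 1, 750)]), (-745, [(v13, 4, 5),
  (v24, 4, 17), (v15, 4, 1)], [(v11, 1, 200), (v2, 6, 3595), (v1, 0, 5752)]), (51, [(v13, 4,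
  134071), (v23, 5, 143200), (v26, 9, 1733400)], [(v11, 1, 900), (v2, 6, 2157), (v1, 0,
  7190)])])) (.far 307))) (.far 196))) (.node 0 (-101) (.node 1 (-819) (.node 1 (-766) (.far
  153) (.node 5 491 (.node 7 (-231) (.far 314) (.node 9 (-842) (.far 317) (.leaf 49156800 [(v2,
  6, 385599984), (v20, 7, 39818300), (v7, 3, 24343935)] [(-58, [(v26, 9, 32300), (v7, 3, 4210),
  (v5, 4, 7999)], [(v2, 6, 93632), (v7, 3, 2695), (v20, 7, 9500)]), (-793, [(v13, 4, 27), (v5,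
  4, 17), (v15, 4, 2)], [(v20, 7, 1900), (v2, 6, 17556), (v7, 3, 1155)]), (73, [(v17, 1,
  1446977), (v23, 5, 322486), (v26, 9, 12035392)], [(v20, 7, 55100), (v2, 6, 280896), (v7, 3,
  24255)])]))) (.far 307))) (.far 196)) (.far 98))) (.node 0 (-47) (.node 1 (-917) (.node 1
  (-815) (.far 197) (.node 2 63 (.node 3 231 (.node 7 (-301) (.far 314) (.node 9 (-736) (.far
  131) (.leaf 6583500 [(v2, 6, 33841269), (v22, 2, 7476700), (v7, 3, 999000)] [(0, [(v26, 9,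
  98175), (v7, 3, 18400), (v5, 4, 21252)], [(v2, 6, 306117), (v22, 2, 30100), (v20, 7,
  13500)]), (-866, [(v13, 4, 5), (v24, 4, 17), (v15, 4, 1)], [(v22, 2, 30800), (v2, 6, 122661),
  (v7, 3, 3000)]), (133, [(v0, 1, 368), (v26, 9, 815)], [(v20, 7, 3000), (v2, 6, 53277), (v22,
  2, 30100)])]))) (.far 98)) (.far 253))) (.far 28)) (.far 98))) (.node 0 30 (.node 6 60 (.node
  1 (-889) (.far 29) (.node 2 178 (.node 3 197 (.node 8 726 (.node 9 (-694) (.far 131) (.leaf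
  64433775 [(v21, 3, 16080075), (v22, 2, 30572430), (v2, 6, 470620786)] [(45, [(v26, 9, 363),
  (v3, 8, 347)], [(v18, 2, 75), (v2, 6, 1513), (v22, 2, 15)]), (-916, [(v13, 4, 5), (v24, 4,
  17), (v15, 4, 1)], [(v22, 2, 165480), (v2, 6, 2402021), (v21, 3, 53400)]), (221, [(v0, 1,
  347), (v26, 9, 889)], [(v18, 2, 100), (v2, 6, 1513), (v22, 2, 190)])])) (.far 130)) (.far
  98)) (.far 70))) (.node 6 (-60) (.node 0 45 (.node 1 (-927) (.far 29) (.node 2 251 (.node 3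
  117 (.node 7 (-444) (.far 127) (.node 8 778 (.node 9 (-587) (.far 34) (.leaf 30101175 [(v21,
  3, 14985955), (v22, 2, 8041995), (v8, 0, 57653947)] [(52, [(v26, 9, 778), (v3, 8, 587)],
  [(v6, 7, 4518), (v4, 0, 65009), (v22, 2, 5661)]), (-964, [(v13, 4, 5), (v24, 4, 17), (v15, 4,
  1)], [(v22, 2, 70785), (v8, 0, 447031), (v21, 3, 66515)]), (342, [(v0, 1, 587), (v26, 9,
  1854)], [(v6, 7, 3765), (v4, 0, 37148), (v22, 2, 19980)])])) (.far 130))) (.far 14)) (.far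
  70))) (.node 0 37 (.node 1 (-920) (.far 29) (.node 2 245 (.node 3 119 (.node 7 (-434) (.far
  127) (.node 8 772 (.node 9 (-586) (.far 228) (.leaf 3716650 [(v21, 3, 1790985), (v22, 2,
  1016279), (v8, 0, 8724205)] [(41, [(v26, 9, 386), (v3, 8, 293)], [(v6, 7, 15540), (v4, 0,
  265825), (v22, 2, 19499)]), (-960, [(v13, 4, 5), (v24, 4, 17), (v15, 4, 1)], [(v22, 2,
  76109), (v8, 0, 570605), (v21, 3, 68635)]), (340, [(v0, 1, 293), (v26, 9, 920)], [(v6, 7,
  1295), (v4, 0, 15190), (v22, 2, 6882)])])) (.far 130))) (.far 14)) (.far 70))) (.node 6 30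
  (.node 1 (-939) (.node 1 (-913) (.far 29) (.node 2 239 (.node 2 292 (.far 69) (.node 3 204
  (.node 7 (-425) (.far 127) (.node 8 767 (.node 9 (-686) (.far 131) (.leaf 369326700 [(v21, 3,
  115261335), (v22, 2, 95651520), (v4, 0, 873528748)] [(33, [(v26, 9, 767), (v3, 8, 686)],
  [(v6, 7, 34416), (v4, 0, 711025), (v22, 2, 43350)]), (-926, [(v13, 4, 5), (v24, 4, 17), (v15,
  4, 1)], [(v22, 2, 136680), (v4, 0, 1113262), (v21, 3, 103965)]), (265, [(v0, 1, 343), (v26,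
  9, 913)], [(v6, 7, 1434), (v4, 0, 20315), (v22, 2, 7650)])])) (.far 130))) (.far 98))) (.far
  70))) (.far 28)) (.node 0 33 (.node 1 (-935) (.far 29) (.node 2 288 (.node 2 430 (.far 69)
  (.node 3 128 (.node 7 (-447) (.far 127) (.node 8 801 (.node 9 (-593) (.far 131) (.leaf
  15586560 [(v21, 3, 7057809), (v22, 2, 3576188), (v8, 0, 41114496)] [(35, [(v26, 9, 801), (v3,
  8, 593)], [(v6, 7, 25344), (v4, 0, 500640), (v22, 2, 27863)]), (-965, [(v13, 4, 5), (v24, 4,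
  17), (v15, 4, 1)], [(v22, 2, 5324), (v8, 0, 52608), (v21, 3, 5247)]), (359, [(v0, 1, 593),
  (v26, 9, 1870)], [(v6, 7, 352), (v4, 0, 4768), (v22, 2, 1639)])])) (.far 130))) (.far 98)))
  (.far 70))) (.node 3 174 (.node 1 (-962) (.node 1 (-932) (.far 29) (.node 2 285 (.node 2 360
  (.far 56) (.node 7 (-443) (.far 127) (.node 8 798 (.node 9 (-644) (.far 104) (.leaf 178350
  [(v21, 3, 56860), (v22, 2, 42108), (v8, 0, 518317)] [(31, [(v26, 9, 57), (v3, 8, 46)], [(v6,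
  7, 13680), (v4, 0, 294595), (v22, 2, 15062)]), (-947, [(v13, 4, 5), (v24, 4, 17), (v15, 4,
  1)], [(v22, 2, 7018), (v8, 0, 75487), (v21, 3, 5035)]), (322, [(v0, 1, 161), (v26, 9, 466)],
  [(v6, 7, 570), (v4, 0, 8417), (v22, 2, 2658)])])) (.far 130)))) (.far 70))) (.far 15)) (.node
  2 390 (.node 1 (-973) (.far 2) (.node 2 427 (.far 69) (.node 3 133 (.node 7 (-485) (.far 71)
  (.node 8 869 (.node 9 (-597) (.far 131) (.leaf 21266700 [(v21, 3, 9659130), (v22, 2,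
  3487127), (v8, 0, 61644037)] [(31, [(v26, 9, 869), (v3, 8, 597)], [(v6, 7, 5694), (v8, 0,
  132405), (v22, 2, 5723)]), (-982, [(v13, 4, 5), (v24, 4, 17), (v15, 4, 1)], [(v22, 2, 16093),
  (v8, 0, 236873), (v21, 3, 20670)]), (408, [(v0, 1, 597), (v26, 9, 1946)], [(v6, 7, 3822),
  (v8, 0, 64311), (v22, 2, 13289)])])) (.far 74))) (.far 98)))) (.node 1 (-976) (.node 1 (-961)
  (.far 14) (.node 2 353 (.node 3 154 (.node 7 (-472) (.far 100) (.node 8 845 (.node 9 (-621)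
  (.far 75) (.leaf 15920300 [(v21, 3, 6034535), (v22, 2, 2958010), (v8, 0, 46320307)] [(31,
  [(v26, 9, 845), (v3, 8, 621)], [(v6, 7, 25769), (v8, 0, 583156), (v22, 2, 27848)]), (-969,
  [(v13, 4, 5), (v24, 4, 17), (v15, 4, 1)], [(v22, 2, 279510), (v8, 0, 3723797), (v21, 3,
  280635)]), (371, [(v0, 1, 621), (v26, 9, 1922)], [(v6, 7, 86485), (v8, 0, 1416236), (v22, 2,
  323320)])])) (.far 103))) (.far 55)) (.far 55))) (.far 3)))))))) (.node 1 (-987) (.far 29)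
  (.node 2 424 (.node 3 119 (.node 7 (-498) (.far 127) (.node 8 892 (.node 9 (-579) (.far 34)
  (.leaf 582624 [(v21, 3, 564414), (v16, 6, 961520), (v6, 7, 119833)] [(37, [(v26, 9, 892),
  (v3, 8, 579)], [(v6, 7, 10285), (v21, 3, 17430), (v16, 6, 45152)]), (-994, [(v13, 4, 5),
  (v24, 4, 17), (v15, 4, 1)], [(v6, 7, 57715), (v21, 3, 181770), (v16, 6, 553112)]), (440,
  [(v0, 1, 193), (v26, 9, 658)], [(v22, 2, 1245), (v6, 7, 1280), (v16, 6, 8466)])])) (.far
  130))) (.far 197)) (.far 70))))) (.node 5 (-60) (.node 7 150 (.node 5 150 (.node 0 (-776)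
  (.node 1 (-602) (.node 1 (-509) (.far 232) (.node 2 219 (.node 3 756 (.node 6 (-232) (.far
  342) (.node 9 (-858) (.far 339) (.leaf 1036483200 [(v18, 2, 501491200), (v16, 6, 734082525),
  (v23, 5, 1251290956)] [(-664, [(v26, 9, 107100), (v7, 3, 7150), (v5, 4, 27027)], [(v18, 2,
  324800), (v23, 5, 567356), (v16, 6, 279225)]), (-556, [(v13, 4, 5), (v24, 4, 17), (v15, 4,
  1)], [(v18, 2, 371200), (v23, 5, 956884), (v16, 6, 837675)]), (367, [(v21, 3, 300), (v19, 3,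
  50), (v13, 4, 189)], [(v18, 2, 371200), (v23, 5, 93148), (v16, 6, 279225)])]))) (.far 309))
  (.far 289))) (.far 220)) (.far 122)) (.node 5 100 (.node 0 (-798) (.node 1 (-610) (.node 1
  (-540) (.far 221) (.node 2 508 (.node 2 569 (.far 281) (.node 3 748 (.node 6 (-482) (.far
  333) (.node 9 (-831) (.far 339) (.leaf 832510400 [(v18, 2, 169856800), (v16, 6, 286607250),
  (v23, 5, 1605979897)] [(-734, [(v26, 9, 2057000), (v21, 3, 623250), (v5, 4, 1087779)], [(v23,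
  5, 2050669), (v16, 6, 323850), (v18, 2, 337400)]), (-575, [(v13, 4, 5), (v24, 4, 17), (v15,
  4, 1)], [(v18, 2, 385600), (v23, 5, 3458591), (v16, 6, 971550)]), (538, [(v21, 3, 300), (v19,
  3, 50), (v13, 4, 187)], [(v23, 5, 336677), (v16, 6, 323850), (v18, 2, 385600)])]))) (.far
  309))) (.far 280))) (.far 220)) (.far 122)) (.node 5 (-30) (.node 7 200 (.node 0 (-855)
  (.node 1 (-601) (.node 1 (-548) (.far 221) (.node 2 565 (.node 3 774 (.node 6 (-558) (.far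
  333) (.leaf 52635400 [(v18, 2, 35077480), (v10, 7, 560056137), (v0, 1, 50205900)] [(-800,
  [(v24, 4, 4257), (v21, 3, 1000), (v5, 4, 387)], [(v0, 1, 45200), (v10, 7, 448949), (v18, 2,
  32880)]), (-575, [(v13, 4, 5), (v24, 4, 17), (v15, 4, 1)], [(v0, 1, 5650), (v10, 7, 417987),
  (v18, 2, 27400)]), (637, [(v21, 3, 600), (v19, 3, 100), (v13, 4, 387)], [(v10, 7, 115599),
  (v16, 6, 11300), (v18, 2, 26040)])])) (.far 309)) (.far 280))) (.far 220)) (.far 122)) (.node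
  6 (-605) (.node 0 (-767) (.node 1 (-624) (.node 1 (-579) (.far 221) (.node 2 562 (.node 2 651
  (.far 283) (.node 3 734 (.node 6 (-529) (.far 333) (.leaf 19903511 [(v18, 2, 29536527), (v21,
  3, 27116500), (v0, 1, 26813020)] [(-730, [(v24, 4, 4037), (v21, 3, 1000), (v5, 4, 367)],
  [(v0, 1, 5156350), (v21, 3, 4718271), (v18, 2, 5524818)]), (-602, [(v13, 4, 5), (v24, 4, 17),
  (v15, 4, 1)], [(v0, 1, 2062540), (v21, 3, 4392873), (v18, 2, 4887339)]), (606, [(v21, 3,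
  600), (v19, 3, 100), (v13, 4, 367)], [(v21, 3, 1635139), (v16, 6, 1031270), (v18, 2,
  3688717)])])) (.far 314))) (.far 280))) (.far 225)) (.far 128)) (.node 0 (-803) (.node 1
  (-632) (.node 1 (-587) (.far 226) (.node 2 619 (.node 3 725 (.leaf 1317154625 [(v18, 2,
  1822312150), (v21, 3, 1870541244), (v0, 1, 1831002000)] [(-766, [(v24, 4, 319), (v21, 3, 80),
  (v5, 4, 29)], [(v0, 1, 386875), (v21, 3, 363353), (v18, 2, 381550)]), (-610, [(v13, 4, 5),
  (v24, 4, 17), (v15, 4, 1)], [(v0, 1, 4487750), (v21, 3, 9810531), (v18, 2, 9788225)]), (662,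
  [(v21, 3, 48), (v19, 3, 8), (v13, 4, 29)], [(v21, 3, 823889), (v16, 6, 448775), (v18, 2,
  1666775)])]) (.far 309)) (.far 284))) (.far 220)) (.far 122)))) (.node 0 (-868) (.node 1
  (-637) (.node 1 (-570) (.far 221) (.node 2 702 (.node 3 720 (.node 6 (-650) (.far 333) (.leaf
  414960 [(v18, 2, 516800), (v21, 3, 607373), (v0, 1, 621296)] [(-809, [(v24, 4, 99), (v21, 3,
  25), (v5, 4, 9)], [(v0, 1, 1800), (v21, 3, 1653), (v18, 2, 1520)]), (-604, [(v13, 4, 5),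
  (v24, 4, 17), (v15, 4, 1)], [(v0, 1, 9360), (v21, 3, 20007), (v18, 2, 17480)]), (721, [(v21,
  3, 30), (v19, 3, 5), (v13, 4, 18)], [(v21, 3, 429), (v16, 6, 216), (v18, 2, 760)])])) (.far
  309)) (.far 280))) (.far 220)) (.far 122))))) (.node 5 (-30) (.node 6 60 (.node 0 (-60)
  (.node 1 (-914) (.node 1 (-806) (.far 29) (.node 2 105 (.node 3 239 (.node 7 (-283) (.far
  127) (.node 9 (-724) (.far 131) (.leaf 878325 [(v2, 6, 6838507), (v22, 2, 713176), (v21, 3,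
  141300)] [(-60, [(v26, 9, 203150), (v7, 3, 36200), (v5, 4, 43259)], []), (-860, [(v13, 4, 5),
  (v24, 4, 17), (v15, 4, 1)], [(v22, 2, 3824), (v2, 6, 32743), (v21, 3, 600)]), (172, [(v0, 1,
  181), (v26, 9, 403)], [(v20, 7, 600), (v2, 6, 16697), (v22, 2, 3396)])]))) (.far 98)) (.far
  70))) (.far 28)) (.node 0 (-230) (.node 1 (-674) (.far 167) (.node 3 365 (.node 5 444 (.node
  9 (-814) (.far 131) (.leaf 262860 [(v11, 1, 49290), (v1, 0, 1455166), (v2, 6, 1495943)]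
  [(-145, [(v26, 9, 124100), (v7, 3, 16280), (v5, 4, 29711)], [(v2, 6, 1011), (v1, 0, 337),
  (v11, 1, 75)]), (-753, [(v13, 4, 27), (v5, 4, 17), (v15, 4, 2)], [(v11, 1, 60), (v2, 6,
  1685), (v1, 0, 2022)]), (98, [(v13, 4, 8547), (v23, 5, 11000), (v26, 9, 121500)], [(v11, 1,
  180), (v2, 6, 674), (v1, 0, 1685)])])) (.far 119)) (.far 98))) (.far 69))) (.node 0 (-60)
  (.node 6 (-60) (.node 3 252 (.node 2 262 (.node 1 (-913) (.node 1 (-868) (.far 2) (.node 2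
  359 (.far 252) (.node 7 (-346) (.far 71) (.node 9 (-681) (.far 317) (.leaf 298944 [(v6, 7,
  213882), (v22, 2, 215904), (v21, 3, 397727)] [(-28, [(v26, 9, 71400), (v7, 3, 11350), (v5, 4,
  14301)], [(v6, 7, 88818), (v21, 3, 113315), (v22, 2, 66432)]), (-891, [(v13, 4, 5), (v24, 4,
  17), (v15, 4, 1)], [(v22, 2, 813792), (v6, 7, 753774), (v21, 3, 1337117)]), (310, [(v0, 1,
  681), (v26, 9, 1736)], [(v6, 7, 324618), (v21, 3, 385271), (v22, 2, 465024)])]))))) (.far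
  196)) (.node 3 309 (.node 2 214 (.node 1 (-872) (.node 1 (-849) (.far 2) (.node 7 (-327)
  (.far 71) (.node 9 (-748) (.far 258) (.leaf 1556870544 [(v6, 7, 1200043627), (v22, 2,
  1414871448), (v21, 3, 1689723777)] [(-44, [(v26, 9, 15450), (v7, 3, 2200), (v5, 4, 3399)],
  [(v6, 7, 1245373), (v21, 3, 1224615), (v22, 2, 1077792)]), (-861, [(v13, 4, 5), (v24, 4, 17),
  (v15, 4, 1)], [(v6, 7, 1509877), (v21, 3, 2064351), (v22, 2, 1886136)]), (238, [(v0, 1, 374),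
  (v26, 9, 849)], [(v22, 2, 1077792), (v6, 7, 650239), (v21, 3, 594813)])])))) (.far 15))
  (.node 5 421 (.node 1 (-858) (.node 1 (-830) (.far 29) (.node 2 166 (.node 3 325 (.node 6 43
  (.node 9 (-785) (.far 336) (.leaf 113672650 [(v2, 6, 1189759350), (v22, 2, 56445025), (v21,
  3, 13619304)] [(-46, [(v26, 9, 8840), (v7, 3, 1256), (v5, 4, 2041)], [(v2, 6, 5644), (v22, 2,
  43), (v18, 2, 215)]), (-844, [(v13, 4, 5), (v24, 4, 17), (v15, 4, 1)], [(v22, 2, 39130), (v2,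
  6, 739115), (v21, 3, 7138)]), (179, [(v0, 1, 157), (v26, 9, 332)], [(v18, 2, 430), (v2, 6,
  8466), (v22, 2, 817)])])) (.far 120)) (.far 308)) (.far 70))) (.far 219)) (.node 7 (-340)
  (.node 6 43 (.node 1 (-840) (.far 27) (.node 2 190 (.node 3 327 (.node 9 (-780) (.far 342)
  (.leaf 218179850 [(v2, 6, 2281579280), (v22, 2, 93538459), (v21, 3, 26511650)] [(-49, [(v26,
  9, 18530), (v7, 3, 2600), (v5, 4, 4251)], [(v2, 6, 6460), (v22, 2, 43), (v18, 2, 215)]),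
  (-849, [(v13, 4, 5), (v24, 4, 17), (v15, 4, 1)], [(v22, 2, 196854), (v2, 6, 4255905), (v21,
  3, 40850)]), (198, [(v0, 1, 13), (v26, 9, 28)], [(v18, 2, 430), (v2, 6, 9690), (v22, 2,
  817)])])) (.far 314)) (.far 279))) (.node 0 (-43) (.far 127) (.node 1 (-858) (.node 1 (-841)
  (.far 29) (.node 2 193 (.node 3 326 (.node 7 (-318) (.far 121) (.node 9 (-776) (.far 289)
  (.leaf 89154480 [(v21, 3, 26151525), (v6, 7, 34491289), (v1, 0, 1108418256)] [(-52, [(v26, 9,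
  69275), (v7, 3, 9700), (v5, 4, 15811)], [(v6, 7, 91117), (v21, 3, 34185), (v1, 0, 1658688)]),
  (-850, [(v13, 4, 5), (v24, 4, 17), (v15, 4, 1)], [(v6, 7, 161207), (v21, 3, 102555), (v1, 0,
  5805408)]), (203, [(v0, 1, 388), (v26, 9, 841)], [(v22, 2, 68370), (v6, 7, 58093), (v1, 0,
  1565037)])]))) (.far 254)) (.far 70))) (.far 169)))) (.node 1 (-869) (.node 1 (-853) (.far
  221) (.node 2 190 (.node 6 36 (.node 9 (-768) (.far 258) (.leaf 43151850 [(v2, 6, 537039940),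
  (v22, 2, 18629919), (v21, 3, 5776950)] [(-33, [(v26, 9, 43775), (v7, 3, 6400), (v5, 4,
  9888)], [(v2, 6, 11305), (v22, 2, 306), (v6, 7, 171)]), (-861, [(v13, 4, 5), (v24, 4, 17),
  (v15, 4, 1)], [(v22, 2, 51912), (v2, 6, 1340545), (v21, 3, 11400)]), (202, [(v0, 1, 384),
  (v26, 9, 853)], [(v6, 7, 570), (v2, 6, 27455), (v22, 2, 2958)])])) (.far 284)) (.far 279)))
  (.far 154))))) (.node 0 (-30) (.node 6 36 (.node 2 228 (.node 1 (-908) (.node 1 (-873) (.far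
  2) (.node 7 (-361) (.far 71) (.node 9 (-723) (.far 317) (.leaf 1173060 [(v2, 6, 14388206),
  (v22, 2, 417333), (v21, 3, 214320)] [(-4, [(v26, 9, 71400), (v7, 3, 12050), (v5, 4, 15183)],
  [(v2, 6, 2527), (v22, 2, 57), (v6, 7, 36)]), (-891, [(v13, 4, 5), (v24, 4, 17), (v15, 4, 1)],
  [(v22, 2, 588), (v2, 6, 18221), (v21, 3, 190)]), (243, [(v0, 1, 241), (v26, 9, 582)], [(v6,
  7, 120), (v2, 6, 6137), (v22, 2, 551)])])))) (.far 154)) (.node 1 (-901) (.node 1 (-867)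
  (.far 197) (.node 2 199 (.node 3 259 (.node 7 (-357) (.far 100) (.node 9 (-739) (.far 285)
  (.leaf 12627545 [(v2, 6, 156530017), (v22, 2, 5264952), (v21, 3, 2162135)] [(-7, [(v26, 9,
  880600), (v7, 3, 147800), (v5, 4, 191401)], [(v2, 6, 165767), (v22, 2, 4284), (v6, 7,
  2388)]), (-884, [(v13, 4, 5), (v24, 4, 17), (v15, 4, 1)], [(v22, 2, 261072), (v2, 6,
  7061117), (v21, 3, 71640)]), (213, [(v0, 1, 739), (v26, 9, 1734)], [(v6, 7, 7960), (v2, 6,
  402577), (v22, 2, 41412)])]))) (.far 253)) (.far 253))) (.far 168))) (.node 3 278 (.node 1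
  (-891) (.node 1 (-873) (.far 29) (.node 2 228 (.node 7 (-361) (.far 127) (.node 9 (-733)
  (.far 258) (.leaf 8128998 [(v6, 7, 5668698), (v22, 2, 6969599), (v21, 3, 9870462)] [(-21,
  [(v26, 9, 472600), (v7, 3, 73300), (v5, 4, 101887)], [(v6, 7, 94242), (v21, 3, 113715), (v22,
  2, 84512)]), (-882, [(v13, 4, 5), (v24, 4, 17), (v15, 4, 1)], [(v22, 2, 147896), (v6, 7,
  114258), (v21, 3, 191691)]), (245, [(v0, 1, 733), (v26, 9, 1746)], [(v6, 7, 49206), (v21, 3,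
  55233), (v22, 2, 84512)])]))) (.far 70))) (.far 154)) (.node 1 (-908) (.node 1 (-889) (.far
  197) (.node 2 242 (.node 7 (-382) (.far 254) (.node 9 (-721) (.far 258) (.leaf 52415748 [(v6,
  7, 34720224), (v22, 2, 42685062), (v21, 3, 70881437)] [(-9, [(v26, 9, 30600), (v7, 3, 5150),
  (v5, 4, 6489)], [(v6, 7, 82038), (v21, 3, 115555), (v22, 2, 73344)]), (-899, [(v13, 4, 5),
  (v24, 4, 17), (v15, 4, 1)], [(v22, 2, 898464), (v6, 7, 696234), (v21, 3, 1363549)]), (252,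
  [(v0, 1, 103), (v26, 9, 254)], [(v6, 7, 299838), (v21, 3, 392887), (v22, 2, 513408)])])))
  (.far 253))) (.far 154)))) (.node 2 239 (.node 1 (-887) (.node 1 (-870) (.far 153) (.node 3
  284 (.node 7 (-350) (.far 254) (.node 9 (-736) (.far 75) (.leaf 427618800 [(v21, 3,
  513569175), (v6, 7, 312602918), (v22, 2, 352870000)] [(-43, [(v26, 9, 30175), (v7, 3, 4600),
  (v5, 4, 6532)], [(v6, 7, 3834994), (v21, 3, 4391625), (v22, 2, 3180800)]), (-879, [(v13, 4,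
  5), (v24, 4, 17), (v15, 4, 1)], [(v6, 7, 4649506), (v21, 3, 7403025), (v22, 2, 5566400)]),
  (250, [(v0, 1, 184), (v26, 9, 435)], [(v22, 2, 3180800), (v6, 7, 2002342), (v21, 3,
  2133075)])]))) (.far 55))) (.far 3)) (.node 1 (-878) (.node 1 (-868) (.far 14) (.node 2 217
  (.node 3 297 (.node 7 (-354) (.far 254) (.node 9 (-752) (.far 75) (.leaf 9280656 [(v6, 7,
  6695535), (v22, 2, 8469648), (v21, 3, 10616942)] [(-37, [(v26, 9, 126225), (v7, 3, 18800),
  (v5, 4, 27918)], [(v6, 7, 809193), (v21, 3, 896210), (v22, 2, 747648)]), (-873, [(v13, 4, 5),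
  (v24, 4, 17), (v15, 4, 1)], [(v6, 7, 140151), (v21, 3, 215822), (v22, 2, 186912)]), (228,
  [(v0, 1, 94), (v26, 9, 217)], [(v22, 2, 12672), (v6, 7, 7161), (v21, 3, 7378)])]))) (.far
  55)) (.far 55))) (.far 3)))))) (.node 0 (-30) (.node 2 328 (.node 3 193 (.node 2 360 (.node 1
  (-952) (.node 1 (-925) (.far 2) (.node 7 (-414) (.far 71) (.node 8 836 (.node 9 (-639) (.far
  317) (.leaf 57529440 [(v6, 7, 34607795), (v22, 2, 30238468), (v21, 3, 102173130)] [(-10,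
  [(v26, 9, 836), (v3, 8, 639)], [(v6, 7, 109045), (v21, 3, 217350), (v22, 2, 71024)]), (-939,
  [(v13, 4, 5), (v24, 4, 17), (v15, 4, 1)], [(v6, 7, 132205), (v21, 3, 366390), (v22, 2,
  124292)]), (376, [(v0, 1, 639), (v26, 9, 1850)], [(v6, 7, 56935), (v21, 3, 105570), (v22, 2,
  71024)])])) (.far 74)))) (.far 196)) (.node 1 (-950) (.node 1 (-913) (.far 2) (.node 7 (-401)
  (.far 71) (.node 8 815 (.node 9 (-652) (.far 258) (.leaf 1370784816 [(v6, 7, 850655413),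
  (v22, 2, 797457472), (v21, 3, 2425458525)] [(-1, [(v26, 9, 5), (v3, 8, 4)], [(v6, 7, 894169),
  (v21, 3, 1726305), (v22, 2, 619144)]), (-932, [(v13, 4, 5), (v24, 4, 17), (v15, 4, 1)],
  [(v22, 2, 1083502), (v6, 7, 1084081), (v21, 3, 2910057)]), (344, [(v0, 1, 326), (v26, 9,
  913)], [(v6, 7, 466867), (v21, 3, 838491), (v22, 2, 619144)])])) (.far 74)))) (.far 154)))
  (.node 2 376 (.node 6 (-44) (.node 3 172 (.node 1 (-965) (.node 1 (-950) (.far 153) (.node 2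
  388 (.far 252) (.node 7 (-451) (.far 267) (.node 8 853 (.node 9 (-631) (.far 317) (.leaf
  1575021888 [(v21, 3, 3156848013), (v22, 2, 796509296), (v6, 7, 868747060)] [(11, [(v26, 9,
  853), (v3, 8, 631)], [(v6, 7, 913492), (v21, 3, 2225685), (v22, 2, 620576)]), (-958, [(v13,
  4, 5), (v24, 4, 17), (v15, 4, 1)], [(v6, 7, 1107508), (v21, 3, 3751869), (v22, 2, 1086008)]),
  (382, [(v0, 1, 631), (v26, 9, 1900)], [(v6, 7, 476956), (v21, 3, 1081047), (v22, 2,
  620576)])])) (.far 257))))) (.far 196)) (.node 3 161 (.node 0 15 (.node 1 (-972) (.node 1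
  (-963) (.far 14) (.node 2 395 (.far 252) (.node 7 (-470) (.far 314) (.node 8 858 (.node 9
  (-623) (.far 317) (.leaf 726432 [(v21, 3, 1560306), (v22, 2, 368368), (v6, 7, 384307)] [(22,
  [(v26, 9, 858), (v3, 8, 623)], [(v6, 7, 2599), (v21, 3, 7050), (v22, 2, 1840)]), (-968,
  [(v13, 4, 5), (v24, 4, 17), (v15, 4, 1)], [(v22, 2, 22540), (v6, 7, 22057), (v21, 3,
  83190)]), (385, [(v0, 1, 623), (v26, 9, 1926)], [(v6, 7, 9499), (v21, 3, 23970), (v22, 2,
  12880)])])) (.far 257))))) (.far 196)) (.far 98)) (.node 5 226 (.node 7 (-484) (.node 0 24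
  (.node 1 (-974) (.node 1 (-971) (.far 14) (.node 2 382 (.node 2 393 (.far 250) (.node 3 157
  (.node 7 (-480) (.far 309) (.node 8 864 (.node 9 (-622) (.far 339) (.leaf 6218104320 [(v21,
  3, 13719820320), (v22, 2, 3107846400), (v6, 7, 3221113579)] [(27, [(v26, 9, 432), (v3, 8,
  311)], [(v6, 7, 3388531), (v21, 3, 9626400), (v22, 2, 2411520)]), (-973, [(v13, 4, 5), (v24,
  4, 17), (v15, 4, 1)], [(v6, 7, 4108219), (v21, 3, 16227360), (v22, 2, 4220160)]), (387, [(v0,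
  1, 311), (v26, 9, 971)], [(v6, 7, 1769233), (v21, 3, 4675680), (v22, 2, 2411520)])])) (.far
  103))) (.far 309))) (.far 55))) (.far 220)) (.far 96)) (.node 0 27 (.node 1 (-975) (.node 1
  (-972) (.far 31) (.node 2 386 (.node 2 393 (.far 250) (.node 3 155 (.node 8 867 (.node 9
  (-621) (.far 125) (.leaf 6254867520 [(v21, 3, 13976210028), (v22, 2, 3090824000), (v6, 7,
  3210567545)] [(28, [(v26, 9, 289), (v3, 8, 207)], [(v6, 7, 676079), (v21, 3, 1961652), (v22,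
  2, 480128)]), (-974, [(v13, 4, 5), (v24, 4, 17), (v15, 4, 1)], [(v22, 2, 4201120), (v6, 7,
  4098355), (v21, 3, 16533924)]), (389, [(v0, 1, 23), (v26, 9, 72)], [(v6, 7, 1764985), (v21,
  3, 4764012), (v22, 2, 2400640)])])) (.far 134)) (.far 96))) (.far 72))) (.far 26)) (.far
  122))) (.node 0 23 (.node 1 (-978) (.node 1 (-971) (.far 14) (.node 2 392 (.node 2 400 (.far
  69) (.node 3 151 (.node 6 (-39) (.far 119) (.node 7 (-480) (.far 314) (.node 8 869 (.node 9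
  (-616) (.far 131) (.leaf 153773568 [(v21, 3, 113429472), (v16, 6, 397151744), (v6, 7,
  32941103)] [(26, [(v26, 9, 79), (v3, 8, 56)], [(v6, 7, 237523), (v21, 3, 305760), (v16, 6,
  1546240)]), (-975, [(v13, 4, 5), (v24, 4, 17), (v15, 4, 1)], [(v6, 7, 190411), (v21, 3,
  455520), (v16, 6, 2705920)]), (396, [(v0, 1, 308), (v26, 9, 971)], [(v6, 7, 10192), (v16, 6,
  99960), (v22, 2, 10335)])])) (.far 312)))) (.far 98))) (.far 68))) (.far 28)) (.far 98)))))
  (.node 1 (-988) (.node 1 (-950) (.far 153) (.node 2 425 (.far 69) (.node 3 138 (.node 7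
  (-447) (.far 314) (.node 8 853 (.node 9 (-600) (.far 131) (.leaf 184564512 [(v6, 7,
  43714858), (v16, 6, 426291384), (v21, 3, 150684743)] [(0, [(v26, 9, 853), (v3, 8, 600)],
  [(v6, 7, 61226), (v21, 3, 80311), (v16, 6, 328992)]), (-969, [(v13, 4, 5), (v24, 4, 17),
  (v15, 4, 1)], [(v6, 7, 49082), (v21, 3, 119647), (v16, 6, 575736)]), (400, [(v0, 1, 6), (v26,
  9, 19)], [(v22, 2, 260601), (v6, 7, 264704), (v16, 6, 2142918)])])) (.far 257))) (.far 98))))
  (.far 28))) (.node 2 352 (.node 3 178 (.node 1 (-961) (.node 1 (-949) (.far 153) (.node 7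
  (-450) (.far 254) (.node 8 840 (.node 9 (-638) (.far 258) (.leaf 63439200 [(v21, 3,
  122839200), (v22, 2, 34503075), (v6, 7, 35134352)] [(15, [(v26, 9, 420), (v3, 8, 319)], [(v6,
  7, 110627), (v21, 3, 259875), (v22, 2, 80100)]), (-955, [(v13, 4, 5), (v24, 4, 17), (v15, 4,
  1)], [(v22, 2, 140175), (v6, 7, 134123), (v21, 3, 438075)]), (364, [(v0, 1, 319), (v26, 9,
  949)], [(v6, 7, 57761), (v21, 3, 126225), (v22, 2, 80100)])])) (.far 257)))) (.far 154))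
  (.node 2 364 (.node 0 15 (.node 1 (-969) (.node 1 (-959) (.far 153) (.node 3 164 (.node 7
  (-465) (.far 254) (.node 8 850 (.node 9 (-632) (.far 75) (.leaf 53534520 [(v21, 3,
  112926645), (v22, 2, 28216200), (v6, 7, 28715908)] [(22, [(v26, 9, 425), (v3, 8, 316)], [(v6,
  7, 1686412), (v21, 3, 4443075), (v22, 2, 1220160)]), (-964, [(v13, 4, 5), (v24, 4, 17), (v15,
  4, 1)], [(v22, 2, 305040), (v6, 7, 292084), (v21, 3, 1069965)]), (370, [(v0, 1, 316), (v26,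
  9, 959)], [(v6, 7, 880516), (v21, 3, 2158065), (v22, 2, 1220160)])])) (.far 257))) (.far
  55))) (.far 3)) (.far 55)) (.node 0 22 (.node 1 (-964) (.node 1 (-958) (.far 14) (.node 3 171
  (.node 7 (-467) (.far 254) (.node 8 843 (.node 9 (-640) (.far 75) (.leaf 252986976 [(v21, 3,
  510648622), (v22, 2, 138179229), (v6, 7, 134926638)] [(26, [(v26, 9, 843), (v3, 8, 640)],
  [(v6, 7, 70851), (v21, 3, 179795), (v22, 2, 53238)]), (-961, [(v13, 4, 5), (v24, 4, 17),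
  (v15, 4, 1)], [(v22, 2, 186333), (v6, 7, 171798), (v21, 3, 606166)]), (358, [(v0, 1, 160),
  (v26, 9, 479)], [(v6, 7, 36993), (v21, 3, 87329), (v22, 2, 53238)])])) (.far 103))) (.far
  55))) (.far 3)) (.far 55)))) (.node 0 14 (.node 1 (-959) (.node 1 (-947) (.far 14) (.node 3
  177 (.node 7 (-454) (.far 254) (.node 8 826 (.node 9 (-648) (.far 75) (.leaf 158144544 [(v21,
  3, 308229226), (v22, 2, 93268852), (v6, 7, 87096095)] [(22, [(v26, 9, 413), (v3, 8, 324)],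
  [(v6, 7, 273347), (v21, 3, 651490), (v22, 2, 214288)]), (-953, [(v13, 4, 5), (v24, 4, 17),
  (v15, 4, 1)], [(v22, 2, 6356), (v6, 7, 5617), (v21, 3, 18614)]), (340, [(v0, 1, 324), (v26,
  9, 947)], [(v6, 7, 142721), (v21, 3, 316438), (v22, 2, 214288)])])) (.far 257))) (.far 55)))
  (.far 3)) (.far 55))))) (.node 2 280 (.node 7 (-430) (.node 1 (-931) (.node 1 (-908) (.far
  153) (.node 3 220 (.node 7 (-399) (.far 100) (.node 8 787 (.node 9 (-679) (.far 289) (.leaf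
  18960480 [(v6, 7, 11966020), (v22, 2, 13161984), (v21, 3, 29519217)] [(-6, [(v26, 9, 787),
  (v3, 8, 679)], [(v6, 7, 24860), (v21, 3, 41895), (v22, 2, 20064)]), (-920, [(v13, 4, 5),
  (v24, 4, 17), (v15, 4, 1)], [(v22, 2, 35112), (v6, 7, 30140), (v21, 3, 70623)]), (304, [(v0,
  1, 679), (v26, 9, 1816)], [(v6, 7, 12980), (v21, 3, 20349), (v22, 2, 20064)])])) (.far 257)))
  (.far 254))) (.far 169)) (.node 2 304 (.node 0 (-2) (.node 1 (-950) (.node 1 (-926) (.far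
  170) (.node 3 191 (.node 8 806 (.node 9 (-665) (.far 75) (.leaf 33706152 [(v21, 3, 60637740),
  (v22, 2, 21542699), (v6, 7, 19647406)] [(14, [(v26, 9, 806), (v3, 8, 665)], [(v6, 7, 410077),
  (v21, 3, 857850), (v22, 2, 328520)]), (-938, [(v13, 4, 5), (v24, 4, 17), (v15, 4, 1)], [(v22,
  2, 574910), (v6, 7, 497173), (v21, 3, 1446090)]), (316, [(v0, 1, 665), (v26, 9, 1852)], [(v6,
  7, 214111), (v21, 3, 416670), (v22, 2, 328520)])])) (.far 288)) (.far 55))) (.far 3)) (.far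
  72)) (.node 0 8 (.node 1 (-940) (.node 1 (-923) (.far 170) (.node 3 204 (.node 8 792 (.node 9
  (-681) (.far 75) (.leaf 14736960 [(v21, 3, 24761765), (v22, 2, 10292480), (v6, 7, 8592514)]
  [(19, [(v26, 9, 264), (v3, 8, 227)], [(v6, 7, 26894), (v21, 3, 52675), (v22, 2, 23392)]),
  (-932, [(v13, 4, 5), (v24, 4, 17), (v15, 4, 1)], [(v22, 2, 5848), (v6, 7, 4658), (v21, 3,
  12685)]), (292, [(v0, 1, 681), (v26, 9, 1846)], [(v6, 7, 826), (v21, 3, 1505), (v22, 2,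
  1376)])])) (.far 288)) (.far 55))) (.far 3)) (.far 72)))) (.node 2 256 (.node 0 11 (.node 1
  (-931) (.node 1 (-908) (.far 2) (.node 3 217 (.node 7 (-413) (.far 71) (.node 8 774 (.node 9
  (-697) (.far 75) (.leaf 11061792 [(v21, 3, 17354496), (v22, 2, 8462783), (v6, 7, 6694016)]
  [(20, [(v26, 9, 774), (v3, 8, 697)], [(v6, 7, 14012), (v21, 3, 24780), (v22, 2, 12803)]),
  (-920, [(v13, 4, 5), (v24, 4, 17), (v15, 4, 1)], [(v22, 2, 89621), (v6, 7, 67952), (v21, 3,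
  167088)]), (268, [(v0, 1, 697), (v26, 9, 1816)], [(v6, 7, 124), (v21, 3, 204), (v22, 2,
  217)])])) (.far 74))) (.far 55))) (.far 3)) (.node 1 (-919) (.node 1 (-906) (.far 14) (.node
  3 235 (.node 7 (-405) (.far 254) (.node 8 774 (.node 9 (-706) (.far 75) (.leaf 1624320 [(v6,
  7, 1014448), (v22, 2, 1249965), (v21, 3, 2366928)] [(0, [(v26, 9, 387), (v3, 8, 353)], [(v6,
  7, 21244), (v21, 3, 34020), (v22, 2, 19035)]), (-913, [(v13, 4, 5), (v24, 4, 17), (v15, 4,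
  1)], [(v22, 2, 133245), (v6, 7, 103024), (v21, 3, 229392)]), (268, [(v0, 1, 353), (v26, 9,
  906)], [(v6, 7, 11092), (v21, 3, 16524), (v22, 2, 19035)])])) (.far 257))) (.far 55))) (.far
  3))) (.node 1 (-921) (.node 1 (-905) (.far 197) (.node 2 232 (.node 3 230 (.node 6 37 (.node
  7 (-409) (.far 254) (.node 8 761 (.node 9 (-713) (.far 75) (.leaf 24185420 [(v21, 3,
  5081728), (v22, 2, 8643607), (v2, 6, 289880868)] [(18, [(v26, 9, 761), (v3, 8, 713)], [(v2,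
  6, 664216), (v22, 2, 15133), (v6, 7, 8584)]), (-913, [(v13, 4, 5), (v24, 4, 17), (v15, 4,
  1)], [(v22, 2, 5957), (v2, 6, 182758), (v21, 3, 2146)]), (244, [(v0, 1, 713), (v26, 9,
  1810)], [(v6, 7, 2960), (v2, 6, 166872), (v22, 2, 15133)])])) (.far 316))) (.far 253)) (.far
  55)) (.far 253))) (.far 3))))) (.node 1 (-933) (.node 1 (-910) (.far 14) (.node 2 320 (.node
  3 221 (.node 7 (-392) (.far 314) (.node 8 810 (.node 9 (-659) (.far 131) (.leaf 62375040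
  [(v6, 7, 40669525), (v22, 2, 37728236), (v21, 3, 97837320)] [(-41, [(v26, 9, 810), (v3, 8,
  659)], [(v6, 7, 124865), (v21, 3, 205800), (v22, 2, 86632)]), (-922, [(v13, 4, 5), (v24, 4,
  17), (v15, 4, 1)], [(v22, 2, 151606), (v6, 7, 151385), (v21, 3, 346920)]), (348, [(v0, 1,
  659), (v26, 9, 1820)], [(v6, 7, 3835), (v21, 3, 5880), (v22, 2, 5096)])])) (.far 103))) (.far
  98)) (.far 55))) (.far 28)))) (.node 1 (-904) (.far 29) (.node 2 351 (.node 3 121 (.node 7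
  (-382) (.far 127) (.node 8 825 (.node 9 (-528) (.far 34) (.leaf 5143248 [(v6, 7, 1405965),
  (v16, 6, 8135072), (v21, 3, 4958742)] [(-15, [(v26, 9, 25), (v3, 8, 16)], [(v6, 7, 219615),
  (v21, 3, 280770), (v16, 6, 739552)]), (-952, [(v13, 4, 5), (v24, 4, 17), (v15, 4, 1)], [(v6,
  7, 176055), (v21, 3, 418290), (v16, 6, 1294216)]), (471, [(v0, 1, 33), (v26, 9, 113)], [(v18,
  2, 202460), (v6, 7, 38610), (v16, 6, 1139697)])])) (.far 130))) (.far 14)) (.far 70))))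
  (.node 7 (-250) (.node 7 (-150) (.node 6 30 (.node 0 (-278) (.node 0 (-181) (.far 127) (.node
  1 (-724) (.node 1 (-648) (.far 228) (.node 3 529 (.node 5 511 (.node 9 (-918) (.far 342)
  (.leaf 6064767 [(v11, 1, 9447295), (v1, 0, 49923459), (v23, 5, 3264516)] [(-230, [(v5, 4,
  14283), (v26, 9, 52900), (v7, 3, 5400)], [(v23, 5, 703728), (v1, 0, 9271584), (v11, 1,
  2312275)]), (-686, [(v13, 4, 5), (v24, 4, 17), (v15, 4, 1)], [(v11, 1, 92491), (v23, 5,
  32580), (v1, 0, 533484)]), (67, [(v13, 4, 60809), (v23, 5, 68000), (v26, 9, 766500)], [(v11,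
  1, 647437), (v23, 5, 117288), (v1, 0, 2483460)])])) (.far 333)) (.far 314))) (.far 225)))
  (.far 131)) (.node 6 (-30) (.node 0 (-341) (.node 0 (-196) (.far 127) (.node 1 (-735) (.node
  1 (-627) (.far 228) (.node 3 518 (.node 5 447 (.node 9 (-884) (.far 342) (.leaf 155642718
  [(v11, 1, 255724826), (v1, 0, 1200765819), (v23, 5, 98497938)] [(-269, [(v5, 4, 3367), (v26,
  9, 12950), (v7, 3, 1300)], [(v11, 1, 26075), (v23, 5, 8778), (v1, 0, 93423)]), (-681, [(v13,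
  4, 5), (v24, 4, 17), (v15, 4, 1)], [(v11, 1, 525672), (v23, 5, 204820), (v1, 0, 2709267)]),
  (105, [(v13, 4, 691509), (v23, 5, 884000), (v26, 9, 9051750)], [(v11, 1, 408856), (v23, 5,
  81928), (v1, 0, 1401345)])])) (.far 333)) (.far 314))) (.far 225))) (.far 131)) (.node 2 390
  (.node 5 150 (.node 0 (-671) (.node 1 (-784) (.node 1 (-583) (.far 170) (.node 3 467 (.node 6
  (-218) (.far 283) (.node 9 (-727) (.far 339) (.leaf 173440800 [(v18, 2, 38228480), (v16, 6,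
  128638575), (v23, 5, 195944177)] [(-492, [(v5, 4, 339509), (v26, 9, 1587800), (v7, 3,
  145400)], [(v23, 5, 94939), (v16, 6, 49725), (v18, 2, 30520)]), (-684, [(v13, 4, 5), (v24, 4,
  17), (v15, 4, 1)], [(v18, 2, 34880), (v23, 5, 160121), (v16, 6, 149175)]), (449, [(v0, 1,
  727), (v26, 9, 1166)], [(v18, 2, 34880), (v23, 5, 15587), (v16, 6, 49725)])]))) (.far 309)))
  (.far 220)) (.far 122)) (.node 7 (-100) (.node 0 (-579) (.node 5 100 (.node 1 (-762) (.node 1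
  (-654) (.far 27) (.node 2 495 (.node 3 506 (.node 6 (-336) (.far 333) (.node 9 (-723) (.far
  339) (.leaf 113097600 [(v23, 5, 194613804), (v18, 2, 18753280), (v16, 6, 54402975)] [(-494,
  [(v5, 4, 182919), (v26, 9, 860200), (v7, 3, 72300)], [(v23, 5, 185724), (v16, 6, 42075),
  (v18, 2, 31360)]), (-708, [(v13, 4, 5), (v24, 4, 17), (v15, 4, 1)], [(v18, 2, 35840), (v23,
  5, 313236), (v16, 6, 126225)]), (526, [(v0, 1, 241), (v26, 9, 436)], [(v23, 5, 30492), (v16,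
  6, 42075), (v18, 2, 35840)])]))) (.far 309)) (.far 280))) (.far 220)) (.node 7 30 (.node 1
  (-688) (.node 1 (-675) (.far 27) (.node 2 556 (.node 3 627 (.node 6 (-458) (.far 333) (.node
  9 (-764) (.far 135) (.leaf 1663830 [(v18, 2, 2322009), (v21, 3, 2482818), (v0, 1, 1690240)]
  [(-573, [(v26, 9, 532950), (v7, 3, 38200), (v5, 4, 119757)], [(v0, 1, 58102), (v21, 3,
  72558), (v18, 2, 73359)]), (-682, [(v13, 4, 5), (v24, 4, 17), (v15, 4, 1)], [(v18, 2,
  648945), (v0, 1, 232408), (v21, 3, 675540)]), (571, [(v21, 3, 764000), (v26, 9, 156750),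
  (v13, 4, 359271)], [(v21, 3, 127324), (v16, 6, 79230), (v18, 2, 248007)])]))) (.far 100))
  (.far 280))) (.far 30)) (.node 3 558 (.node 2 622 (.node 1 (-737) (.node 1 (-701) (.far 2)
  (.node 6 (-480) (.far 252) (.node 9 (-687) (.far 313) (.leaf 4257754830 [(v0, 1, 4217841090),
  (v18, 2, 5274178893), (v21, 3, 7154684998)] [(-553, [(v26, 9, 341000), (v21, 3, 114500), (v5,
  4, 149079)], [(v0, 1, 4338450), (v21, 3, 6322319), (v18, 2, 5085054)]), (-719, [(v13, 4, 5),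
  (v24, 4, 17), (v15, 4, 1)], [(v18, 2, 499813), (v0, 1, 192820), (v21, 3, 654033)]), (658,
  [(v0, 1, 687), (v26, 9, 1402)], [(v21, 3, 54736), (v16, 6, 28923), (v18, 2, 84816)])]))))
  (.far 194)) (.node 7 (-9) (.node 1 (-717) (.node 1 (-682) (.far 221) (.node 2 553 (.node 3
  583 (.node 6 (-436) (.far 333) (.node 9 (-729) (.far 289) (.leaf 139921166 [(v21, 3,
  223270432), (v0, 1, 139129823), (v18, 2, 194682356)] [(-552, [(v26, 9, 1982200), (v7, 3,
  145800), (v5, 4, 425007)], [(v0, 1, 732725), (v21, 3, 994294), (v18, 2, 939796)]), (-700,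
  [(v13, 4, 5), (v24, 4, 17), (v15, 4, 1)], [(v0, 1, 146545), (v21, 3, 462861), (v18, 2,
  415679)]), (587, [(v0, 1, 729), (v26, 9, 1364)], [(v21, 3, 241108), (v16, 6, 146545), (v18,
  2, 439052)])]))) (.far 254)) (.far 280))) (.far 169)) (.node 6 (-454) (.node 0 (-535) (.node
  1 (-732) (.node 1 (-706) (.far 221) (.node 2 551 (.node 6 (-413) (.far 307) (.node 9 (-728)
  (.far 317) (.leaf 1266214530 [(v21, 3, 2068928411), (v0, 1, 1168596615), (v18, 2,
  1730679222)] [(-510, [(v5, 4, 25389), (v26, 9, 118575), (v7, 3, 9100)], [(v21, 3, 5640587),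
  (v18, 2, 5121324), (v0, 1, 3843225)]), (-719, [(v13, 4, 5), (v24, 4, 17), (v15, 4, 1)], [(v0,
  1, 170810), (v21, 3, 583509), (v18, 2, 503378)]), (573, [(v0, 1, 182), (v26, 9, 353)], [(v21,
  3, 131747), (v16, 6, 80910), (v18, 2, 230454)])]))) (.far 251))) (.far 196)) (.far 128))
  (.node 0 (-554) (.node 1 (-733) (.node 1 (-709) (.far 226) (.node 2 574 (.node 9 (-717) (.far
  258) (.leaf 3974022990 [(v21, 3, 6613807949), (v0, 1, 3763431000), (v18, 2, 5306675697)]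
  [(-532, [(v26, 9, 316200), (v7, 3, 23900), (v5, 4, 66681)], [(v0, 1, 4003650), (v21, 3,
  5901007), (v18, 2, 5143086)]), (-721, [(v13, 4, 5), (v24, 4, 17), (v15, 4, 1)], [(v0, 1,
  177940), (v21, 3, 610449), (v18, 2, 505517)]), (598, [(v0, 1, 717), (v26, 9, 1418)], [(v21,
  3, 716639), (v16, 6, 400365), (v18, 2, 1203327)])])) (.far 284))) (.far 154)) (.far 72)))))
  (.node 6 (-466) (.node 3 524 (.node 6 (-430) (.node 0 (-496) (.node 1 (-753) (.node 1 (-729)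
  (.far 195) (.node 2 549 (.node 2 589 (.far 252) (.node 6 (-393) (.far 307) (.node 9 (-714)
  (.far 317) (.leaf 815561460 [(v21, 3, 1397171511), (v0, 1, 704966020), (v18, 2, 1099342044)]
  [(-472, [(v5, 4, 2751), (v26, 9, 13100), (v7, 3, 1050)], [(v0, 1, 799100), (v21, 3, 1289601),
  (v18, 2, 1103544)]), (-741, [(v13, 4, 5), (v24, 4, 17), (v15, 4, 1)], [(v18, 2, 976212), (v0,
  1, 319640), (v21, 3, 1200663)]), (569, [(v0, 1, 119), (v26, 9, 243)], [(v21, 3, 6039), (v16,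
  6, 3660), (v18, 2, 9956)])])))) (.far 251))) (.far 196)) (.far 98)) (.node 0 (-518) (.node 1
  (-755) (.node 1 (-730) (.far 197) (.node 2 568 (.node 2 627 (.far 252) (.node 9 (-699) (.far
  317) (.leaf 190112440 [(v21, 3, 332002248), (v0, 1, 169575832), (v18, 2, 252243251)] [(-495,
  [(v5, 4, 91569), (v26, 9, 445400), (v7, 3, 34950)], [(v0, 1, 93010), (v21, 3, 150307), (v18,
  2, 124319)]), (-743, [(v13, 4, 5), (v24, 4, 17), (v15, 4, 1)], [(v0, 1, 74408), (v21, 3,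
  279882), (v18, 2, 219949)]), (597, [(v0, 1, 699), (v26, 9, 1460)], [(v21, 3, 67166), (v16, 6,
  37204), (v18, 2, 107027)])]))) (.far 253))) (.far 196)) (.far 98))) (.node 2 597 (.node 0
  (-494) (.node 1 (-777) (.node 1 (-753) (.far 153) (.node 2 646 (.far 283) (.node 3 491 (.node
  6 (-424) (.far 283) (.node 7 (-69) (.far 314) (.node 9 (-675) (.far 342) (.leaf 732599496
  [(v6, 7, 1555108457), (v16, 6, 161230161), (v21, 3, 204583551)] [(-472, [(v5, 4, 13257),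
  (v26, 9, 66776), (v7, 3, 5400)], [(v6, 7, 3148783), (v21, 3, 179193), (v16, 6, 271032)]),
  (-765, [(v13, 4, 5), (v24, 4, 17), (v15, 4, 1)], [(v6, 7, 2524231), (v21, 3, 266961), (v16,
  6, 474306)]), (621, [(v0, 1, 225), (v26, 9, 502)], [(v6, 7, 928136), (v16, 6, 700281), (v18,
  2, 516856)])])))) (.far 314)))) (.far 225)) (.far 98)) (.node 0 (-477) (.node 1 (-769) (.node
  1 (-750) (.far 195) (.node 2 548 (.node 3 499 (.node 6 (-382) (.far 333) (.node 7 (-74) (.far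
  254) (.node 9 (-699) (.far 289) (.leaf 959189776 [(v21, 3, 254510938), (v6, 7, 1871010979),
  (v16, 6, 238689664)] [(-454, [(v5, 4, 348801), (v26, 9, 1696600), (v7, 3, 139800)], [(v6, 7,
  11532389), (v21, 3, 692566), (v16, 6, 1181632)]), (-760, [(v13, 4, 5), (v24, 4, 17), (v15, 4,
  1)], [(v6, 7, 9244973), (v21, 3, 1031782), (v16, 6, 2067856)]), (572, [(v0, 1, 233), (v26, 9,
  500)], [(v6, 7, 575674), (v16, 6, 517038), (v18, 2, 374551)])])))) (.far 254)) (.far 280)))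
  (.far 169)) (.far 55)))) (.node 1 (-758) (.node 0 (-568) (.node 1 (-732) (.far 197) (.node 2
  606 (.node 2 694 (.far 67) (.node 3 518 (.node 9 (-672) (.far 224) (.leaf 213507686 [(v0, 1,
  1246406938), (v16, 6, 426399211), (v21, 3, 47172947)] [(-529, [(v26, 9, 50875), (v21, 3,
  18000), (v5, 4, 21756)], [(v0, 1, 7301987), (v21, 3, 85278), (v16, 6, 2464644)]), (-745,
  [(v13, 4, 5), (v24, 4, 17), (v15, 4, 1)], [(v0, 1, 5853659), (v21, 3, 170556), (v16, 6,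
  2180262)]), (650, [(v0, 1, 28), (v26, 9, 61)], [(v0, 1, 258863), (v16, 6, 147864), (v18, 2,
  56852)])])) (.far 197))) (.far 253))) (.far 96)) (.node 0 (-531) (.node 1 (-783) (.node 2 629
  (.node 3 484 (.node 9 (-654) (.far 339) (.leaf 619738526 [(v0, 1, 3460606171), (v16, 6,
  1227783007), (v21, 3, 148444067)] [(-500, [(v26, 9, 205700), (v7, 3, 16350), (v5, 4, 39567)],
  [(v0, 1, 6822706), (v21, 3, 88307), (v16, 6, 2384668)]), (-771, [(v13, 4, 5), (v24, 4, 17),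
  (v15, 4, 1)], [(v0, 1, 2734721), (v21, 3, 88307), (v16, 6, 1054757)]), (660, [(v0, 1, 327),
  (v26, 9, 758)], [(v0, 1, 1612127), (v16, 6, 953564), (v18, 2, 353228)])])) (.far 309)) (.far
  168)) (.far 220)) (.far 26))))))) (.node 5 100 (.node 0 (-693) (.node 1 (-676) (.node 1
  (-601) (.far 221) (.node 2 504 (.node 3 643 (.node 6 (-431) (.far 119) (.node 9 (-784) (.far
  125) (.leaf 138480300 [(v18, 2, 26269450), (v16, 6, 53335800), (v23, 5, 257220369)] [(-636,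
  [(v26, 9, 273275), (v7, 3, 19600), (v5, 4, 63014)], [(v23, 5, 259893), (v16, 6, 45900), (v18,
  2, 43100)]), (-639, [(v13, 4, 5), (v24, 4, 17), (v15, 4, 1)], [(v18, 2, 344800), (v23, 5,
  3068289), (v16, 6, 963900)]), (533, [(v21, 3, 392000), (v26, 9, 80375), (v13, 4, 189042)],
  [(v23, 5, 298683), (v16, 6, 321300), (v18, 2, 344800)])]))) (.far 96)) (.far 68))) (.far 26))
  (.far 122)) (.node 7 30 (.node 0 (-665) (.node 2 627 (.node 1 (-705) (.node 1 (-651) (.far 2)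
  (.node 3 609 (.node 6 (-520) (.far 283) (.node 9 (-710) (.far 339) (.leaf 46033295 [(v21, 3,
  73264532), (v0, 1, 52215515), (v18, 2, 58726276)] [(-630, [(v26, 9, 223300), (v21, 3, 71000),
  (v5, 4, 100891)], [(v0, 1, 5225), (v21, 3, 6479), (v18, 2, 5642)]), (-678, [(v13, 4, 5),
  (v24, 4, 17), (v15, 4, 1)], [(v0, 1, 60610), (v21, 3, 174933), (v18, 2, 144739)]), (663,
  [(v21, 3, 1200), (v19, 3, 200), (v13, 4, 609)], [(v21, 3, 12584), (v16, 6, 6699), (v18, 2,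
  21112)])]))) (.far 309))) (.far 220)) (.node 0 (-622) (.node 1 (-694) (.node 1 (-650) (.far
  27) (.node 2 556 (.node 3 621 (.node 6 (-465) (.far 119) (.node 9 (-744) (.far 289) (.leaf
  3021165 [(v18, 2, 4274964), (v21, 3, 4616051), (v0, 1, 3280122)] [(-601, [(v26, 9, 94875),
  (v21, 3, 31000), (v5, 4, 44919)], [(v0, 1, 86319), (v21, 3, 104806), (v18, 2, 104949)]),
  (-672, [(v13, 4, 5), (v24, 4, 17), (v15, 4, 1)], [(v0, 1, 12788), (v21, 3, 36140), (v18, 2,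
  34385)]), (591, [(v21, 3, 124000), (v26, 9, 25875), (v13, 4, 57753)], [(v21, 3, 189596),
  (v16, 6, 115092), (v18, 2, 365769)])]))) (.far 254)) (.far 68))) (.far 169)) (.node 1 (-678)
  (.node 1 (-625) (.far 27) (.node 2 559 (.node 3 646 (.node 6 (-489) (.far 119) (.node 9
  (-756) (.far 75) (.leaf 112848125 [(v18, 2, 162549750), (v21, 3, 169237250), (v0, 1,
  131987167)] [(-644, [(v26, 9, 888250), (v21, 3, 283500), (v5, 4, 427329)], [(v0, 1, 27778),
  (v21, 3, 31175), (v18, 2, 32300)]), (-652, [(v13, 4, 5), (v24, 4, 17), (v15, 4, 1)], [(v0, 1,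
  722228), (v21, 3, 1886625), (v18, 2, 1857250)]), (593, [(v21, 3, 600), (v19, 3, 100), (v13,
  4, 323)], [(v21, 3, 3006861), (v16, 6, 1805570), (v18, 2, 6001986)])]))) (.far 55)) (.far
  68))) (.far 3)))) (.node 2 632 (.node 0 (-750) (.node 1 (-681) (.node 1 (-620) (.far 170)
  (.node 2 703 (.far 281) (.node 3 647 (.node 6 (-559) (.far 69) (.leaf 63380120 [(v18, 2,
  84179229), (v21, 3, 99194296), (v0, 1, 80451862)] [(-708, [(v24, 4, 7117), (v21, 3, 2000),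
  (v5, 4, 647)], [(v0, 1, 255565), (v21, 3, 284084), (v18, 2, 260741)]), (-651, [(v13, 4, 5),
  (v24, 4, 17), (v15, 4, 1)], [(v0, 1, 204452), (v21, 3, 528984), (v18, 2, 461311)]), (667,
  [(v21, 3, 1200), (v19, 3, 200), (v13, 4, 647)], [(v21, 3, 3886168), (v16, 6, 2044520), (v18,
  2, 6871787)])])) (.far 96)))) (.far 26)) (.far 122)) (.node 0 (-721) (.node 1 (-654) (.node 1
  (-609) (.far 221) (.node 2 561 (.node 3 684 (.node 6 (-513) (.far 119) (.node 9 (-772) (.far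
  75) (.leaf 908786340 [(v18, 2, 1341217752), (v21, 3, 1320169697), (v0, 1, 1135183500)]
  [(-693, [(v26, 9, 156750), (v21, 3, 48250), (v5, 4, 77007)], [(v0, 1, 1065900), (v21, 3,
  1100869), (v18, 2, 1203384)]), (-632, [(v13, 4, 5), (v24, 4, 17), (v15, 4, 1)], [(v0, 1,
  142120), (v21, 3, 341649), (v18, 2, 354844)]), (596, [(v21, 3, 300), (v19, 3, 50), (v13, 4,
  171)], [(v21, 3, 6171), (v16, 6, 3740), (v18, 2, 12996)])]))) (.far 55)) (.far 68))) (.far
  3)) (.far 72)))) (.node 2 641 (.node 0 (-625) (.node 1 (-731) (.node 1 (-695) (.far 170)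
  (.node 3 568 (.node 6 (-520) (.far 69) (.node 9 (-692) (.far 125) (.leaf 1771288120 [(v0, 1,
  1858669240), (v18, 2, 2213577224), (v21, 3, 3032306267)] [(-602, [(v26, 9, 195250), (v21, 3,
  64875), (v5, 4, 85981)], [(v0, 1, 1820440), (v21, 3, 2583871), (v18, 2, 2052752)]), (-713,
  [(v13, 4, 5), (v24, 4, 17), (v15, 4, 1)], [(v0, 1, 728176), (v21, 3, 2405673), (v18, 2,
  1815896)]), (669, [(v26, 9, 695), (v0, 1, 346)], [(v21, 3, 91663), (v16, 6, 45511), (v18, 2,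
  140296)])]))) (.far 96))) (.far 26)) (.far 122)) (.node 0 (-602) (.node 1 (-710) (.node 1
  (-687) (.far 31) (.node 2 586 (.node 3 597 (.node 6 (-485) (.far 128) (.node 9 (-727) (.far
  75) (.leaf 560796726 [(v21, 3, 900710128), (v0, 1, 579105124), (v18, 2, 759167289)] [(-591,
  [(v26, 9, 2189000), (v21, 3, 727000), (v5, 4, 1012711)], [(v0, 1, 1457675), (v21, 3,
  1945813), (v18, 2, 1777269)]), (-699, [(v13, 4, 5), (v24, 4, 17), (v15, 4, 1)], [(v0, 1,
  1166140), (v21, 3, 3623238), (v18, 2, 3144399)]), (613, [(v21, 3, 2908000), (v26, 9, 597000),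
  (v13, 4, 1302057)], [(v21, 3, 625262), (v16, 6, 349842), (v18, 2, 1100271)])]))) (.far 55))
  (.far 72))) (.far 3)) (.far 72)))))) (.node 0 (-488) (.node 1 (-753) (.far 221) (.node 2 492
  (.node 3 436 (.node 6 (-306) (.far 333) (.node 9 (-632) (.far 339) (.leaf 13608432 [(v6, 7,
  19328643), (v16, 6, 4199552), (v21, 3, 4176135)] [(-422, [(v5, 4, 8611), (v26, 9, 46325),
  (v7, 3, 3950)], [(v6, 7, 2017917), (v21, 3, 187425), (v16, 6, 348800)]), (-784, [(v13, 4, 5),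
  (v24, 4, 17), (v15, 4, 1)], [(v6, 7, 1617669), (v21, 3, 279225), (v16, 6, 610400)]), (590,
  [(v0, 1, 316), (v26, 9, 753)], [(v18, 2, 1325), (v6, 7, 1353), (v16, 6, 2050)])]))) (.far
  309)) (.far 280))) (.far 122)))) (.node 2 234 (.node 0 (-622) (.node 0 (-249) (.far 71)
  (.node 1 (-768) (.node 1 (-559) (.far 170) (.node 3 483 (.node 5 245 (.node 9 (-777) (.far
  289) (.leaf 364016835 [(v18, 2, 187936070), (v1, 0, 1243602360), (v23, 5, 284765364)] [(-436,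
  [(v5, 4, 17871), (v26, 9, 78200), (v7, 3, 7400)], [(v23, 5, 563238), (v1, 0, 1949220), (v18,
  2, 508375)]), (-664, [(v13, 4, 5), (v24, 4, 17), (v15, 4, 1)], [(v18, 2, 20335), (v23, 5,
  29133), (v1, 0, 162435)]), (312, [(v0, 1, 777), (v26, 9, 1118)], [(v18, 2, 142345), (v23, 5,
  38844), (v1, 0, 487305)])])) (.far 280)) (.far 254))) (.far 169))) (.far 72)) (.node 0 (-391)
  (.node 0 (-224) (.far 127) (.node 1 (-744) (.node 1 (-610) (.far 34) (.node 3 508 (.node 5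
  390 (.node 9 (-854) (.far 289) (.leaf 45296160 [(v11, 1, 77322336), (v1, 0, 308282715), (v23,
  5, 33620272)] [(-308, [(v5, 4, 54229), (v26, 9, 215900), (v7, 3, 21350)], [(v11, 1, 1300),
  (v23, 5, 488), (v1, 0, 3965)]), (-677, [(v13, 4, 5), (v24, 4, 17), (v15, 4, 1)], [(v11, 1,
  78624), (v23, 5, 34160), (v1, 0, 344955)]), (156, [(v13, 4, 116571), (v23, 5, 170800), (v26,
  9, 1579500)], [(v11, 1, 61152), (v23, 5, 13664), (v1, 0, 178425)])])) (.far 280)) (.far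
  254))) (.far 169))) (.node 0 (-558) (.node 1 (-660) (.node 3 642 (.node 5 397 (.node 8 597
  (.node 9 (-917) (.far 75) (.leaf 525132941 [(v11, 8, 1055388373), (v1, 0, 2238708011), (v23,
  5, 431373096)] [(-475, [(v5, 4, 294357), (v26, 9, 1091400), (v7, 3, 91700)], [(v11, 8,
  3880675), (v23, 5, 1400562), (v1, 0, 6636252)]), (-608, [(v13, 4, 5), (v24, 4, 17), (v15, 4,
  1)], [(v11, 8, 931362), (v23, 5, 389045), (v1, 0, 2291087)]), (173, [(v13, 4, 2548343), (v23,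
  5, 3668000), (v26, 9, 32157000)], [(v11, 8, 2173178), (v23, 5, 466854), (v1, 0, 3555135)])]))
  (.far 136)) (.far 68)) (.far 55)) (.far 3)) (.far 72))))))) (.node 2 377 (.node 0 (-436)
  (.node 1 (-765) (.far 170) (.node 3 339 (.node 6 (-153) (.far 283) (.node 9 (-589) (.far 339)
  (.leaf 4610400 [(v6, 7, 4078283), (v16, 6, 2892800), (v21, 3, 1729750)] [(-321, [(v26, 9,
  1152600), (v7, 3, 117800), (v5, 4, 199671)], [(v6, 7, 697323), (v21, 3, 124950), (v16, 6,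
  361600)]), (-820, [(v13, 4, 5), (v24, 4, 17), (v15, 4, 1)], [(v6, 7, 559011), (v21, 3,
  186150), (v16, 6, 632800)]), (532, [(v0, 1, 589), (v26, 9, 1530)], [(v18, 2, 7950), (v6, 7,
  4147), (v16, 6, 18850)])]))) (.far 309))) (.far 122)) (.node 0 (-309) (.node 0 (-104) (.far
  127) (.node 1 (-828) (.node 1 (-718) (.far 226) (.node 2 68 (.node 3 388 (.node 9 (-738)
  (.far 289) (.leaf 4656000 [(v6, 7, 4414082), (v1, 0, 26713800), (v21, 3, 1075875)] [(-207,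
  [(v5, 4, 35793), (v26, 9, 164900), (v7, 3, 18450)], [(v6, 7, 32786), (v21, 3, 4875), (v1, 0,
  116400)]), (-773, [(v13, 4, 5), (v24, 4, 17), (v15, 4, 1)], [(v6, 7, 58006), (v21, 3, 14625),
  (v1, 0, 407400)]), (68, [(v0, 1, 369), (v26, 9, 718)], [])])) (.far 254)) (.far 284))) (.far
  169))) (.far 72)))) (.node 5 226 (.node 3 333 (.node 0 (-218) (.node 1 (-864) (.node 1 (-789)
  (.far 226) (.node 2 130 (.node 9 (-701) (.far 313) (.leaf 13320000 [(v21, 3, 4118750), (v6,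
  7, 7001991), (v1, 0, 117060600)] [(-139, [(v26, 9, 1132200), (v7, 3, 140200), (v5, 4,
  233433)], [(v6, 7, 4329), (v21, 3, 1250), (v1, 0, 44400)]), (-827, [(v13, 4, 5), (v24, 4,
  17), (v15, 4, 1)], [(v6, 7, 2553), (v21, 3, 1250), (v1, 0, 51800)]), (268, [(v0, 1, 701),
  (v26, 9, 1578)], [(v18, 2, 500), (v6, 7, 104), (v1, 0, 5525)])])) (.far 284))) (.far 194))
  (.far 122)) (.node 0 (-163) (.node 1 (-923) (.node 1 (-854) (.far 14) (.node 2 225 (.node 3
  238 (.node 7 (-302) (.far 309) (.node 9 (-659) (.far 125) (.leaf 338240 [(v21, 3, 156285),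
  (v6, 7, 150325), (v1, 0, 3052616)] [(-112, [(v26, 9, 404600), (v7, 3, 65900), (v5, 4,
  78421)], [(v6, 7, 23205), (v21, 3, 11325), (v1, 0, 287504)]), (-889, [(v13, 4, 5), (v24, 4,
  17), (v15, 4, 1)], [(v6, 7, 41055), (v21, 3, 33975), (v1, 0, 1006264)]), (314, [(v0, 1, 659),
  (v26, 9, 1708)], [(v18, 2, 1208), (v6, 7, 360), (v1, 0, 23103)])]))) (.far 96)) (.far 55)))
  (.far 26)) (.far 96))) (.node 0 (-331) (.node 1 (-831) (.far 221) (.node 2 396 (.node 3 132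
  (.node 6 (-89) (.far 119) (.node 9 (-519) (.far 233) (.leaf 599148000 [(v6, 7, 300590202),
  (v16, 6, 665808000), (v21, 3, 583984625)] [(-196, [(v26, 9, 158400), (v22, 2, 8650), (v5, 4,
  17127)], [(v6, 7, 710754), (v21, 3, 545125), (v16, 6, 1056000)]), (-916, [(v13, 4, 5), (v24,
  4, 17), (v15, 4, 1)], [(v6, 7, 569778), (v21, 3, 812125), (v16, 6, 1848000)]), (538, [(v0, 1,
  173), (v26, 9, 554)], [(v18, 2, 589625), (v6, 7, 193842), (v16, 6, 2524500)])]))) (.far 14))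
  (.far 68))) (.far 122)))))) (.node 7 (-100) (.node 7 60 (.node 0 (-764) (.node 1 (-691)
  (.node 1 (-631) (.far 221) (.node 2 697 (.node 3 633 (.node 6 (-597) (.far 333) (.leaf
  9743924085 [(v21, 3, 15645254411), (v0, 1, 12327155940), (v18, 2, 11729855241)] [(-710,
  [(v24, 4, 6963), (v21, 3, 2000), (v5, 4, 633)], [(v0, 1, 11030025), (v21, 3, 12754403), (v18,
  2, 10384998)]), (-661, [(v13, 4, 5), (v24, 4, 17), (v15, 4, 1)], [(v0, 1, 1470670), (v21, 3,
  3958263), (v18, 2, 3062243)]), (716, [(v21, 3, 1200), (v19, 3, 200), (v13, 4, 633)], [(v21,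
  3, 1525733), (v16, 6, 735335), (v18, 2, 2393373)])])) (.far 309)) (.far 280))) (.far 220))
  (.far 122)) (.node 0 (-578) (.node 0 (-487) (.far 121) (.node 1 (-788) (.node 1 (-730) (.far
  27) (.node 2 688 (.node 3 479 (.node 6 (-503) (.far 333) (.node 9 (-638) (.far 339) (.leaf
  5100636290 [(v0, 1, 30040747971), (v16, 6, 9466615910), (v21, 3, 1272313350)] [(-533, [(v26,
  9, 827900), (v7, 0, 63800), (v5, 4, 155353)], [(v0, 1, 29153377), (v21, 3, 367190), (v16, 6,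
  9091420)]), (-759, [(v13, 4, 5), (v24, 4, 17), (v15, 4, 1)], [(v0, 1, 23370889), (v21, 3,
  734380), (v16, 6, 8042410)]), (707, [(v0, 1, 319), (v26, 9, 730)], [(v0, 1, 951676), (v16, 6,
  502240), (v18, 2, 183595)])]))) (.far 309)) (.far 280))) (.far 220))) (.node 0 (-669) (.node
  1 (-744) (.node 1 (-685) (.far 221) (.node 2 693 (.node 2 730 (.far 281) (.node 3 550 (.node
  6 (-554) (.far 119) (.node 9 (-670) (.far 125) (.leaf 55026050 [(v0, 1, 363839500), (v16, 6,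
  97280275), (v21, 3, 11991884)] [(-624, [(v26, 9, 12100), (v21, 3, 4020), (v5, 4, 5159)],
  [(v0, 1, 3686870), (v21, 3, 37949), (v16, 6, 979550)]), (-715, [(v13, 4, 5), (v24, 4, 17),
  (v15, 4, 1)], [(v0, 1, 2955590), (v21, 3, 75898), (v16, 6, 866525)]), (711, [(v21, 3, 5360),
  (v26, 9, 1100), (v13, 4, 2211)], [(v0, 1, 2111571), (v16, 6, 949410), (v18, 2, 379490)])])))
  (.far 96))) (.far 68))) (.far 26)) (.far 122)))) (.node 0 (-501) (.node 1 (-782) (.far 221)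
  (.node 2 678 (.node 3 301 (.node 6 (-392) (.far 335) (.node 9 (-572) (.far 340) (.leaf
  6877248 [(v6, 7, 9774373), (v16, 6, 1603040), (v21, 3, 3297700)] [(-395, [(v26, 9, 46550),
  (v1, 6, 10725), (v5, 4, 7007)], [(v6, 7, 254947), (v21, 3, 34300), (v16, 6, 34400)]), (-840,
  [(v13, 4, 5), (v24, 4, 17), (v15, 4, 1)], [(v6, 7, 29197), (v21, 3, 7300), (v16, 6, 8600)]),
  (700, [(v0, 1, 143), (v26, 9, 391)], [(v6, 7, 365442), (v16, 6, 432225), (v18, 2,
  259700)])]))) (.far 312)) (.far 282))) (.far 122))))) (.node 7 150 (.node 0 (-886) (.node 0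
  (-763) (.far 121) (.node 1 (-643) (.node 1 (-575) (.far 221) (.node 2 734 (.node 3 713 (.node
  6 (-678) (.far 333) (.leaf 91584850 [(v18, 2, 110169195), (v21, 3, 137008440), (v0, 1,
  138844908)] [(-825, [(v24, 4, 4352152), (v21, 3, 667625), (v7, 0, 89125)], [(v0, 1, 11377),
  (v21, 3, 10643), (v18, 2, 9269)]), (-609, [(v13, 4, 5), (v24, 4, 17), (v15, 4, 1)], [(v0, 1,
  45508), (v21, 3, 99090), (v18, 2, 81995)]), (759, [(v21, 3, 1200), (v19, 3, 200), (v13, 4,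
  713)], [(v21, 3, 2737086), (v16, 6, 1308355), (v18, 2, 4592433)])])) (.far 309)) (.far 280)))
  (.far 220))) (.far 122)) (.node 7 60 (.node 0 (-781) (.node 1 (-698) (.node 1 (-636) (.far
  221) (.node 2 729 (.node 3 626 (.node 6 (-625) (.far 333) (.leaf 2239515 [(v21, 3, 3681963),
  (v0, 1, 2873340), (v18, 2, 2604473)] [(-725, [(v24, 4, 3443), (v21, 3, 1000), (v5, 4, 313)],
  [(v0, 1, 1901475), (v21, 3, 2240946), (v18, 2, 1725256)]), (-667, [(v13, 4, 5), (v24, 4, 17),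
  (v15, 4, 1)], [(v0, 1, 380295), (v21, 3, 1043199), (v18, 2, 763094)]), (753, [(v21, 3, 600),
  (v19, 3, 100), (v13, 4, 313)], [(v21, 3, 1002375), (v16, 6, 456354), (v18, 2, 1486750)])]))
  (.far 309)) (.far 280))) (.far 220)) (.far 122)) (.node 7 (-30) (.node 0 (-687) (.node 1
  (-753) (.node 1 (-690) (.far 221) (.node 2 724 (.node 2 773 (.far 281) (.node 3 539 (.node 6
  (-572) (.far 333) (.node 9 (-647) (.far 339) (.leaf 140210070 [(v0, 1, 926136211), (v16, 6,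
  241099110), (v21, 3, 32031870)] [(-631, [(v26, 9, 5929000), (v21, 3, 1941000), (v5, 4,
  2441131)], [(v0, 1, 65219), (v21, 3, 690), (v16, 6, 16905)]), (-722, [(v13, 4, 5), (v24, 4,
  17), (v15, 4, 1)], [(v0, 1, 1359358), (v21, 3, 35880), (v16, 6, 388815)]), (748, [(v21, 3,
  2588000), (v26, 9, 539000), (v13, 4, 1046199)], [(v0, 1, 284713), (v16, 6, 124890), (v18, 2,
  49335)])]))) (.far 309))) (.far 280))) (.far 220)) (.far 122)) (.node 0 (-506) (.node 1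
  (-784) (.far 27) (.node 2 716 (.node 3 403 (.node 6 (-485) (.far 335) (.node 7 (-95) (.far
  121) (.node 9 (-604) (.far 340) (.leaf 1515167160 [(v6, 7, 2359962761), (v16, 6, 282145136),
  (v21, 3, 554991805)] [(-463, [(v5, 4, 14647), (v26, 9, 92150), (v1, 6, 18120)], [(v6, 7,
  4730011), (v21, 3, 451535), (v16, 6, 490048)]), (-810, [(v13, 4, 5), (v24, 4, 17), (v15, 4,
  1)], [(v6, 7, 3791827), (v21, 3, 672695), (v16, 6, 857584)]), (729, [(v0, 1, 151), (v26, 9,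
  392)], [(v6, 7, 763972), (v16, 6, 693804), (v18, 2, 488395)])])))) (.far 312)) (.far 282)))
  (.node 0 (-593) (.node 1 (-794) (.node 1 (-745) (.far 221) (.node 2 721 (.node 3 472 (.node 6
  (-534) (.far 119) (.node 9 (-626) (.far 136) (.leaf 45379142 [(v0, 1, 266929334), (v16, 6,
  80701380), (v21, 3, 11868595)] [(-550, [(v5, 4, 79189), (v26, 9, 430100), (v7, 0, 31300)],
  [(v0, 1, 15248904), (v21, 3, 198915), (v16, 6, 4571320)]), (-770, [(v13, 4, 5), (v24, 4, 17),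
  (v15, 4, 1)], [(v0, 1, 6112164), (v21, 3, 198915), (v16, 6, 2021930)]), (745, [(v0, 1, 313),
  (v26, 9, 745)], [(v0, 1, 2117577), (v16, 6, 1074290), (v18, 2, 397830)])]))) (.far 103))
  (.far 68))) (.far 33)) (.far 122))))))))) (.node 0 (-163) (.node 0 (-58) (.far 70) (.node 1
  (-690) (.far 2) (.node 5 574 (.node 6 94 (.node 9 (-905) (.far 285) (.leaf 0 [] [(0, [],
  [(v2, 6, 12006), (v1, 0, 6486), (v11, 1, 1363)]), (0, [], [(v11, 1, 2726), (v2, 6, 50025),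
  (v1, 0, 97290)]), (0, [(v23, 5, 362000), (v26, 9, 4649400), (v13, 4, 363629)], [(v11, 1,
  2726), (v2, 6, 6670), (v1, 0, 27025)])])) (.far 70)) (.far 279)))) (.node 0 (-268) (.node 1
  (-651) (.far 173) (.node 5 579 (.node 6 40 (.node 9 (-953) (.far 75) (.leaf 0 [] [(0, [],
  [(v2, 6, 318339), (v1, 0, 26040), (v11, 1, 16300)]), (0, [], [(v11, 1, 2608), (v2, 6,
  106113), (v1, 0, 31248)]), (0, [(v13, 4, 3862509), (v23, 5, 3812000), (v26, 9, 46899000)],
  [(v11, 1, 6520), (v2, 6, 35371), (v1, 0, 21700)])])) (.far 285)) (.far 68))) (.far 75))))))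
  (.node 0 (-100) (.node 1 (-823) (.node 1 (-715) (.far 2) (.node 3 361 (.node 6 166 (.node 7
  (-178) (.far 71) (.node 9 (-894) (.far 285) (.leaf 0 [] [(0, [(v26, 9, 613700), (v7, 3,
  89400), (v5, 4, 161367)], [(v2, 6, 2056256), (v7, 3, 103418), (v20, 7, 449445)]), (0, [],
  [(v20, 7, 29963), (v2, 6, 128516), (v7, 3, 14774)]), (0, [], [(v20, 7, 868927), (v2, 6,
  2056256), (v7, 3, 310254)])]))) (.far 70)) (.far 253))) (.far 168)) (.node 1 (-681) (.far
  173) (.node 6 126 (.leaf 0 [] [(0, [], [(v2, 6, 11350), (v1, 0, 4767), (v11, 1, 1750)]), (0,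
  [], [(v11, 1, 2100), (v2, 6, 28375), (v1, 0, 42903)]), (0, [], [(v11, 1, 2520), (v2, 6,
  4540), (v1, 0, 14301)])]) (.far 285)))))) (.node 0 (-133) (.node 1 (-789) (.node 1 (-696)
  (.far 173) (.node 3 413 (.node 6 169 (.node 9 (-931) (.far 285) (.leaf 0 [] [(0, [(v5, 4,
  54929), (v26, 9, 200600), (v7, 3, 26600)], [(v2, 6, 1341424), (v7, 3, 78416), (v11, 1,
  348985)]), (0, [], [(v11, 1, 488579), (v2, 6, 1796550), (v7, 3, 176436)]), (0, [], [(v11, 1,
  69797), (v2, 6, 178416), (v7, 3, 20280)])])) (.far 285)) (.far 253))) (.far 168)) (.far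
  75))))) (.node 0 30 (.node 1 (-911) (.node 3 217 (.node 5 682 (.node 6 280 (.node 7 (-269)
  (.far 71) (.node 9 (-854) (.far 75) (.leaf 32688880 [(v7, 3, 33620965), (v2, 6, 96365484),
  (v20, 7, 26991545)] [(140, [(v5, 4, 341), (v19, 5, 2500), (v9, 4, 2046)], [(v20, 7, 16275),
  (v2, 6, 66712), (v7, 3, 9415)]), (-834, [(v13, 4, 27), (v5, 4, 17), (v15, 4, 2)], [(v20, 7,
  2170), (v2, 6, 8339), (v7, 3, 2690)]), (-125, [(v13, 4, 1019249), (v23, 5, 854000), (v26, 9,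
  13810500)], [(v20, 7, 31465), (v2, 6, 66712), (v7, 3, 28245)])]))) (.far 70)) (.far 68))
  (.far 55)) (.far 3)) (.node 0 (-73) (.node 1 (-716) (.far 173) (.node 3 426 (.node 6 227
  (.node 9 (-953) (.far 75) (.leaf 0 [] [(0, [(v5, 4, 202989), (v26, 9, 724200), (v7, 3,
  95300)], [(v2, 6, 2135112), (v7, 3, 162532), (v11, 1, 725265)]), (0, [], [(v11, 1, 112819),
  (v2, 6, 317725), (v7, 3, 40633)]), (0, [], [(v11, 1, 1402179), (v2, 6, 2745144), (v7, 3,
  406330)])])) (.far 285)) (.far 55))) (.far 75)))) (.node 0 2 (.node 1 (-891) (.node 3 244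
  (.node 5 729 (.node 6 298 (.node 7 (-242) (.far 289) (.node 9 (-888) (.far 75) (.leaf
  246348256 [(v7, 3, 235873407), (v2, 6, 709520768), (v20, 7, 243203462)] [(126, [(v5, 4, 729),
  (v19, 5, 5000), (v9, 4, 4374)], [(v20, 7, 272670), (v2, 6, 944768), (v7, 3, 126203)]), (-816,
  [(v13, 4, 27), (v5, 4, 17), (v15, 4, 2)], [(v20, 7, 18178), (v2, 6, 59048), (v7, 3, 18029)]),
  (-200, [(v13, 4, 188811), (v23, 5, 148000), (v26, 9, 2460375)], [(v20, 7, 527162), (v2, 6,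
  944768), (v7, 3, 378609)])]))) (.far 285)) (.far 68)) (.far 55)) (.far 3)) (.far 75))))
  (.node 0 394 (.node 2 (-455) (.node 5 812 (.node 7 (-519) (.far 135) (.node 8 388 (.leaf
  162426500 [(v10, 2, 358714148), (v4, 0, 154011750), (v3, 8, 852394375)] [(515, [(v5, 4, 203),
  (v19, 5, 1250), (v9, 4, 1218)], [(v20, 7, 76436), (v4, 0, 234934), (v3, 8, 374891)]), (-936,
  [(v13, 4, 27), (v5, 4, 17), (v15, 4, 2)], [(v4, 0, 145500), (v10, 2, 305744), (v3, 8,
  714125)]), (-353, [(v13, 4, 3451), (v23, 5, 500), (v19, 5, 6750)], [(v4, 0, 121250), (v10, 2,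
  38218), (v3, 8, 664875)])]) (.far 340))) (.far 166)) (.far 166)) (.node 0 152 (.node 1 (-937)
  (.node 2 (-411) (.node 3 163 (.node 5 817 (.node 7 (-348) (.far 289) (.node 9 (-891) (.far
  75) (.leaf 18321852 [(v7, 3, 20686744), (v4, 0, 14842780), (v20, 7, 8055297)] [(273, [(v5, 4,
  817), (v19, 5, 5000), (v9, 4, 4902)], [(v20, 7, 52649), (v4, 0, 151264), (v7, 3, 24244)]),
  (-864, [(v13, 4, 27), (v5, 4, 17), (v15, 4, 2)], [(v20, 7, 52649), (v4, 0, 132356), (v7, 3,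
  147668)]), (-331, [(v13, 4, 62909), (v23, 5, 44000), (v26, 9, 817000)], [(v20, 7, 157947),
  (v4, 0, 151264), (v7, 3, 249052)])]))) (.far 68)) (.far 55)) (.far 75)) (.far 3)) (.far
  75)))) (.node 0 (-750) (.node 0 (-591) (.far 124) (.node 1 (-753) (.node 1 (-660) (.far 27)
  (.node 2 767 (.node 2 815 (.far 74) (.node 3 539 (.node 6 (-609) (.far 335) (.node 9 (-647)
  (.far 340) (.leaf 200200 [(v0, 1, 337470), (v29, 5, 2229997), (v21, 3, 32700)] [(-671, [(v5,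
  4, 382377), (v26, 9, 2009400), (v7, 0, 129400)], [(v0, 1, 5), (v29, 5, 33)]), (-707, [(v13,
  4, 5), (v24, 4, 17), (v15, 4, 1)], [(v29, 5, 37191), (v0, 1, 3430), (v21, 3, 300)]), (791,
  [(v21, 3, 2588000), (v26, 9, 539000), (v13, 4, 1046199)], [(v29, 5, 1712711), (v16, 6,
  76700), (v18, 2, 142100)])]))) (.far 312))) (.far 282))) (.far 223))) (.node 0 (-908) (.node
  1 (-676) (.node 1 (-582) (.far 221) (.node 2 776 (.node 2 838 (.far 281) (.node 3 664 (.node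
  6 (-698) (.far 119) (.leaf 2254280 [(v0, 1, 3436200), (v18, 2, 2587857), (v21, 3, 3666212)]
  [(-829, [(v24, 4, 15936), (v21, 3, 2625), (v7, 0, 332)], [(v0, 1, 8300), (v21, 3, 8439),
  (v18, 2, 6474)]), (-629, [(v13, 4, 5), (v24, 4, 17), (v15, 4, 1)], [(v18, 2, 5727), (v0, 1,
  3320), (v21, 3, 7857)]), (807, [(v21, 3, 150), (v19, 3, 25), (v13, 4, 83)], [(v21, 3,
  372383), (v16, 6, 161020), (v18, 2, 550373)])])) (.far 103))) (.far 68))) (.far 33)) (.far
  122))))) (.node 0 (-807) (.far 124) (.node 1 (-536) (.far 27) (.node 2 831 (.node 3 709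
  (.node 6 (-764) (.far 335) (.leaf 123507800 [(v0, 1, 297124175), (v29, 5, 1012858966), (v21,
  3, 15497100)] [(-904, [(v24, 4, 4577304), (v21, 3, 706125), (v7, 0, 88625)], [(v0, 1, 75),
  (v29, 5, 268)]), (-593, [(v13, 4, 5), (v24, 4, 17), (v15, 4, 1)], [(v29, 5, 2185138), (v0, 1,
  372225), (v21, 3, 20100)]), (860, [(v21, 3, 1200), (v19, 3, 200), (v13, 4, 709)], [(v18, 2,
  133700), (v29, 5, 1163954), (v16, 6, 62325)])])) (.far 312)) (.far 282))))

theorem t4_ok : treeOK dat t4 (rootIv dat 4) = true := by decide +kernel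

end Pool.Agent.Y81.Proj.BlockThree
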