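import Mathlib
import Pool.Agent.Y81.BlockThree

/-! Certificate trees. -/

set_option maxRecDepth 100000

namespace Pool.Agent.Y81.Proj.BlockThree

def t5 : Tree dat :=
.node 3 (-150) (.node 8 250 (.node 3 150 (.node 0 313 (.node 2 (-541) (.node 4 853 (.node 7
  (-367) (.far 346) (.node 9 (-901) (.far 329) (.leaf 14060210400 [(v7, 3, 18400840877), (v4,
  0, 5283038400), (v20, 7, 6438676050)] [(418, [(v5, 4, 200), (v19, 5, 853), (v9, 4, 1200)],
  [(v20, 7, 2394450), (v4, 0, 3523200), (v7, 3, 1263581)]), (-814, [(v13, 5, 5379871), (v24, 9,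
  9383000), (v9, 4, 2703000)], [(v4, 0, 3082800), (v7, 3, 7696357), (v20, 7, 2394450)]), (-493,
  [(v17, 5, 7), (v23, 5, 1), (v26, 5, 64)], [(v4, 0, 3523200), (v7, 3, 12980423), (v20, 7,
  7183350)])]))) (.far 311)) (.far 264)) (.far 145)) (.node 0 514 (.node 2 (-591) (.node 2
  (-448) (.far 250) (.node 4 801 (.node 7 (-541) (.far 325) (.leaf 24466400 [(v10, 2,
  31026325), (v4, 0, 18401600), (v3, 8, 213462144)] [(678, [(v19, 5, 801), (v9, 4, 1200), (v5,
  4, 200)], [(v4, 0, 473375), (v3, 8, 1529407), (v20, 7, 192750)]), (-888, [(v13, 5, 801),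
  (v28, 5, 8811), (v9, 4, 2000)], [(v4, 0, 21000), (v10, 2, 32125), (v3, 8, 208684)]), (-520,
  [(v17, 5, 7), (v23, 5, 1), (v26, 5, 64)], [(v4, 0, 140000), (v10, 2, 32125), (v3, 8,
  1554336)])])) (.far 311))) (.far 264)) (.far 108))) (.node 3 (-100) (.node 0 (-250) (.node 1
  250 (.node 0 (-150) (.node 1 434 (.far 4) (.node 2 (-889) (.far 4) (.node 3 468 (.node 4 70
  (.node 6 548 (.node 8 (-483) (.far 40) (.node 9 (-703) (.far 181) (.leaf 4075750 [(v0, 6,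
  5890500), (v15, 4, 4908025), (v12, 1, 3464867)] [(-12, [(v24, 9, 3803904), (v21, 2, 329004),
  (v7, 3, 89281)], [(v0, 6, 133875), (v12, 1, 55622), (v15, 4, 6850)]), (342, [(v17, 5, 702),
  (v13, 5, 117), (v5, 3, 1250)], [(v0, 6, 221375), (v8, 8, 68500), (v12, 1, 308798)]), (-945,
  [(v17, 5, 7), (v23, 5, 1), (v26, 5, 64)], [(v15, 4, 27400), (v0, 6, 44625), (v12, 1,
  26852)])]))) (.far 37)) (.far 67)) (.far 155)))) (.node 1 501 (.far 4) (.node 2 (-849) (.far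
  4) (.node 3 720 (.node 6 481 (.node 8 (-443) (.far 40) (.node 9 (-806) (.far 83) (.leaf
  245310 [(v0, 6, 921750), (v3, 0, 839345), (v12, 1, 334776)] [(-200, [(v24, 9, 364500), (v19,
  5, 25389), (v7, 3, 20150)], [(v0, 6, 4050), (v12, 1, 1443), (v3, 0, 481)]), (375, [(v17, 5,
  108), (v13, 5, 18), (v5, 3, 125)], [(v0, 6, 1218250), (v8, 8, 360750), (v12, 1, 1491581)]),
  (-925, [(v17, 5, 7), (v23, 5, 1), (v26, 5, 64)], [(v3, 0, 9620), (v0, 6, 10875), (v12, 1,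
  4329)])]))) (.far 37)) (.far 57))))) (.node 0 (-150) (.node 0 (-100) (.node 1 150 (.node 0 30
  (.node 2 (-901) (.far 4) (.node 4 93 (.node 6 650 (.node 8 (-458) (.far 40) (.node 9 (-646)
  (.far 181) (.leaf 2055300 [(v15, 4, 1745250), (v0, 6, 1965183), (v12, 1, 2577991)] [(153,
  [(v24, 9, 53), (v10, 2, 19)], [(v15, 4, 650), (v0, 6, 14229), (v12, 1, 11687)]), (200, [(v0,
  6, 323), (v24, 9, 325)], [(v0, 6, 7557), (v8, 8, 2925), (v12, 1, 20839)]), (-951, [(v17, 5,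
  7), (v23, 5, 1), (v26, 5, 64)], [(v0, 6, 4743), (v12, 1, 5642), (v15, 4, 2600)])]))) (.far
  37)) (.far 165))) (.node 2 (-849) (.far 4) (.node 3 558 (.node 4 145 (.node 8 (-406) (.far
  40) (.node 9 (-767) (.far 42) (.leaf 8282400 [(v15, 4, 8621130), (v12, 1, 6151712), (v8, 8,
  2189175)] [(-35, [(v24, 9, 10106496), (v21, 2, 998634), (v7, 3, 217061)], [(v15, 4, 23730),
  (v8, 8, 11475), (v12, 1, 12992)]), (200, [(v17, 5, 1674), (v13, 5, 279), (v5, 3, 2500)],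
  [(v15, 4, 2310), (v8, 8, 3825), (v12, 1, 12992)]), (-906, [(v17, 5, 7), (v23, 5, 1), (v26, 5,
  64)], [(v8, 8, 3825), (v12, 1, 11368), (v15, 4, 14070)])]))) (.far 26)) (.far 16)))) (.node 7
  250 (.node 1 (-29) (.node 2 (-908) (.node 2 (-742) (.far 79) (.node 3 550 (.node 4 233 (.node
  8 (-232) (.far 141) (.node 9 (-802) (.far 242) (.leaf 0 [] [(0, [(v24, 9, 445500), (v19, 5,
  30877), (v7, 3, 32080)], [(v15, 4, 21000), (v8, 8, 29125), (v1, 7, 59648)]), (0, [(v17, 5,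
  66), (v13, 5, 11), (v5, 3, 100)], [(v15, 4, 203000), (v8, 8, 436875), (v1, 7, 1729792)]), (0,
  [], [(v8, 8, 29125), (v1, 7, 108112), (v15, 4, 29000)])]))) (.far 220)) (.far 203))) (.far
  177)) (.far 38)) (.node 0 (-60) (.node 1 100 (.node 0 177 (.node 2 (-930) (.far 4) (.node 3
  262 (.node 6 739 (.node 8 (-468) (.far 40) (.node 9 (-618) (.far 181) (.leaf 2956342500
  [(v16, 1, 2874747447), (v5, 3, 631721850), (v6, 0, 1451519300)] [(264, [(v24, 9, 310), (v10,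
  2, 103)], [(v6, 0, 146900), (v8, 8, 25075), (v12, 1, 135759)]), (100, [(v0, 6, 618), (v24, 9,
  739)], []), (-965, [(v17, 5, 7), (v23, 5, 1), (v26, 5, 64)], [(v6, 0, 1820900), (v16, 1,
  3547611), (v5, 3, 469050)])]))) (.far 37)) (.far 155))) (.node 2 (-861) (.far 178) (.node 4
  160 (.node 6 622 (.node 8 (-399) (.far 240) (.node 9 (-713) (.far 42) (.leaf 86822400 [(v15,
  4, 73501785), (v8, 8, 19407200), (v12, 1, 93921408)] [(90, [(v24, 9, 1722), (v10, 2, 713)],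
  [(v15, 4, 75145), (v8, 8, 40800), (v12, 1, 68096)]), (125, [(v0, 6, 713), (v24, 9, 622)],
  [(v15, 4, 7315), (v8, 8, 13600), (v12, 1, 68096)]), (-911, [(v17, 5, 7), (v23, 5, 1), (v26,
  5, 64)], [(v8, 8, 13600), (v12, 1, 59584), (v15, 4, 44555)])]))) (.far 235)) (.far 26))))
  (.node 0 (-30) (.node 7 150 (.node 4 380 (.node 0 65 (.far 121) (.node 1 (-133) (.node 2
  (-817) (.node 2 (-708) (.far 79) (.node 3 539 (.node 8 (-158) (.far 141) (.node 9 (-863)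
  (.far 339) (.leaf 0 [] [(0, [(v24, 9, 43659000), (v19, 5, 3256099), (v7, 3, 3452000)], [(v15,
  4, 24885), (v8, 8, 82650), (v1, 7, 192128)]), (0, [(v13, 5, 16397), (v24, 9, 64600), (v15, 4,
  8630)], [(v8, 8, 42750), (v1, 7, 192128), (v15, 4, 8295)]), (0, [], [(v8, 8, 2850), (v1, 7,
  12008), (v15, 4, 1185)])]))) (.far 309))) (.far 280)) (.far 38))) (.node 0 30 (.node 1 (-17)
  (.node 2 (-924) (.node 2 (-814) (.far 67) (.node 4 218 (.node 8 (-309) (.far 338) (.node 9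
  (-748) (.far 242) (.leaf 94306800 [(v15, 4, 86357775), (v1, 7, 512579912), (v8, 8, 58876350)]
  [(94, [(v24, 9, 37), (v10, 2, 17)], [(v15, 4, 162225), (v8, 8, 158050), (v1, 7, 718528)]),
  (0, [(v13, 5, 1199), (v24, 9, 5450), (v15, 4, 1100)], [(v8, 8, 81750), (v1, 7, 718528), (v15,
  4, 54075)]), (-869, [(v17, 5, 7), (v23, 5, 1), (v26, 5, 64)], [(v8, 8, 5450), (v1, 7, 44908),
  (v15, 4, 7725)])]))) (.far 220))) (.far 177)) (.far 220)) (.node 1 3 (.node 2 (-811) (.far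
  67) (.node 3 566 (.node 4 288 (.node 7 182 (.node 8 (-315) (.far 123) (.node 9 (-834) (.far
  42) (.leaf 14676480 [(v15, 4, 10564645), (v1, 7, 65548800), (v8, 8, 9489376)] [(0, [(v24, 9,
  14688832), (v21, 2, 1652154), (v7, 3, 338187)], [(v15, 4, 9555), (v8, 8, 12064), (v1, 7,
  46080)]), (51, [(v13, 5, 5004), (v24, 9, 20400), (v15, 4, 3475)], [(v8, 8, 1248), (v1, 7,
  9216), (v15, 4, 637)]), (-842, [(v17, 5, 7), (v23, 5, 1), (v26, 5, 64)], [(v8, 8, 416), (v1,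
  7, 2880), (v15, 4, 455)])]))) (.far 122)) (.far 26)) (.far 16))) (.far 26)))) (.node 1 60
  (.node 0 125 (.node 2 (-886) (.far 178) (.node 4 112 (.node 6 696 (.node 8 (-408) (.far 240)
  (.node 9 (-596) (.far 181) (.leaf 21210000 [(v12, 1, 24873100), (v9, 4, 12503625), (v6, 0,
  10686816)] [(268, [(v24, 9, 443), (v10, 2, 149)], [(v6, 0, 2712), (v8, 8, 375), (v12, 1,
  2950)]), (60, [(v0, 6, 149), (v24, 9, 174)], []), (-943, [(v17, 5, 7), (v23, 5, 1), (v26, 5,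
  64)], [(v6, 0, 45024), (v12, 1, 95900), (v9, 4, 32625)])]))) (.far 235)) (.far 165))) (.far
  39)) (.node 0 30 (.node 7 100 (.node 4 380 (.node 4 455 (.node 1 (-75) (.far 27) (.node 2
  (-770) (.node 2 (-719) (.far 79) (.node 3 535 (.node 9 (-895) (.far 339) (.leaf 2804100 [(v1,
  7, 9303141), (v2, 2, 527700), (v11, 1, 12783820)] [(51, [(v24, 9, 1733400), (v19, 5, 134071),
  (v7, 3, 143200)], [(v11, 1, 7190), (v2, 2, 900), (v1, 7, 2157)]), (-115, [(v13, 5, 16289),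
  (v24, 9, 61880), (v15, 4, 7160)], [(v2, 2, 750), (v1, 7, 6471), (v11, 1, 2876)]), (-745,
  [(v17, 5, 7), (v23, 5, 1), (v26, 5, 64)], [(v2, 2, 200), (v1, 7, 3595), (v11, 1, 5752)])]))
  (.far 309))) (.far 280))) (.node 1 (-101) (.node 2 (-819) (.node 2 (-766) (.far 67) (.node 3
  491 (.node 8 (-231) (.far 338) (.node 9 (-842) (.far 339) (.leaf 49156800 [(v15, 4,
  24343935), (v1, 7, 385599984), (v8, 8, 39818300)] [(73, [(v24, 9, 12035392), (v21, 2,
  1446977), (v7, 3, 322486)], [(v15, 4, 24255), (v8, 8, 55100), (v1, 7, 280896)]), (-58, [(v13,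
  5, 7999), (v24, 9, 32300), (v15, 4, 4210)], [(v8, 8, 9500), (v1, 7, 93632), (v15, 4, 2695)]),
  (-793, [(v17, 5, 7), (v23, 5, 1), (v26, 5, 64)], [(v8, 8, 1900), (v1, 7, 17556), (v15, 4,
  1155)])]))) (.far 309))) (.far 280)) (.far 220))) (.node 0 63 (.node 1 (-47) (.node 2 (-917)
  (.node 2 (-815) (.far 281) (.node 4 231 (.node 8 (-301) (.far 338) (.node 9 (-736) (.far 242)
  (.leaf 6583500 [(v15, 4, 999000), (v1, 7, 33841269), (v6, 0, 7476700)] [(133, [(v24, 9, 815),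
  (v10, 2, 368)], [(v6, 0, 30100), (v8, 8, 3000), (v1, 7, 53277)]), (0, [(v13, 5, 21252), (v24,
  9, 98175), (v15, 4, 18400)], [(v8, 8, 13500), (v1, 7, 306117), (v6, 0, 30100)]), (-866,
  [(v17, 5, 7), (v23, 5, 1), (v26, 5, 64)], [(v6, 0, 30800), (v1, 7, 122661), (v15, 4,
  3000)])]))) (.far 220))) (.far 177)) (.far 220)) (.far 122))) (.node 1 30 (.node 7 60 (.node
  0 178 (.node 2 (-889) (.far 178) (.node 4 197 (.node 6 726 (.node 9 (-694) (.far 242) (.leaf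
  64433775 [(v1, 7, 470620786), (v9, 4, 16080075), (v6, 0, 30572430)] [(221, [(v24, 9, 889),
  (v10, 2, 347)], [(v6, 0, 190), (v4, 0, 100), (v1, 7, 1513)]), (45, [(v0, 6, 347), (v24, 9,
  363)], [(v6, 0, 15), (v4, 0, 75), (v1, 7, 1513)]), (-916, [(v17, 5, 7), (v23, 5, 1), (v26, 5,
  64)], [(v6, 0, 165480), (v1, 7, 2402021), (v9, 4, 53400)])])) (.far 235)) (.far 220))) (.far
  39)) (.node 7 (-60) (.node 1 45 (.node 0 251 (.node 2 (-927) (.far 178) (.node 4 117 (.node 6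
  778 (.node 8 (-444) (.far 240) (.node 9 (-587) (.far 181) (.leaf 30101175 [(v16, 1,
  57653947), (v9, 4, 14985955), (v6, 0, 8041995)] [(342, [(v24, 9, 1854), (v10, 2, 587)], [(v6,
  0, 19980), (v14, 8, 3765), (v12, 1, 37148)]), (52, [(v0, 6, 587), (v24, 9, 778)], [(v6, 0,
  5661), (v14, 8, 4518), (v12, 1, 65009)]), (-964, [(v17, 5, 7), (v23, 5, 1), (v26, 5, 64)],
  [(v6, 0, 70785), (v16, 1, 447031), (v9, 4, 66515)])]))) (.far 235)) (.far 165))) (.far 39))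
  (.node 1 37 (.node 0 245 (.node 2 (-920) (.far 178) (.node 4 119 (.node 6 772 (.node 8 (-434)
  (.far 240) (.node 9 (-586) (.far 298) (.leaf 3716650 [(v16, 1, 8724205), (v9, 4, 1790985),
  (v6, 0, 1016279)] [(340, [(v24, 9, 920), (v10, 2, 293)], [(v6, 0, 6882), (v14, 8, 1295),
  (v12, 1, 15190)]), (41, [(v0, 6, 293), (v24, 9, 386)], [(v6, 0, 19499), (v14, 8, 15540),
  (v12, 1, 265825)]), (-960, [(v17, 5, 7), (v23, 5, 1), (v26, 5, 64)], [(v6, 0, 76109), (v16,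
  1, 570605), (v9, 4, 68635)])]))) (.far 235)) (.far 165))) (.far 39)) (.node 7 30 (.node 0 239
  (.node 0 292 (.far 38) (.node 2 (-939) (.node 2 (-913) (.far 178) (.node 4 204 (.node 6 767
  (.node 8 (-425) (.far 240) (.node 9 (-686) (.far 242) (.leaf 369326700 [(v12, 1, 873528748),
  (v9, 4, 115261335), (v6, 0, 95651520)] [(265, [(v24, 9, 913), (v10, 2, 343)], [(v6, 0, 7650),
  (v14, 8, 1434), (v12, 1, 20315)]), (33, [(v0, 6, 686), (v24, 9, 767)], [(v6, 0, 43350), (v14,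
  8, 34416), (v12, 1, 711025)]), (-926, [(v17, 5, 7), (v23, 5, 1), (v26, 5, 64)], [(v6, 0,
  136680), (v12, 1, 1113262), (v9, 4, 103965)])]))) (.far 235)) (.far 220))) (.far 177))) (.far
  39)) (.node 1 33 (.node 0 288 (.node 2 (-995) (.node 2 (-935) (.far 178) (.node 4 128 (.node
  6 801 (.node 8 (-447) (.far 240) (.node 9 (-593) (.far 242) (.leaf 15586560 [(v16, 1,
  41114496), (v9, 4, 7057809), (v6, 0, 3576188)] [(359, [(v24, 9, 1870), (v10, 2, 593)], [(v6,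
  0, 1639), (v14, 8, 352), (v12, 1, 4768)]), (35, [(v0, 6, 593), (v24, 9, 801)], [(v6, 0,
  27863), (v14, 8, 25344), (v12, 1, 500640)]), (-965, [(v17, 5, 7), (v23, 5, 1), (v26, 5, 64)],
  [(v6, 0, 5324), (v16, 1, 52608), (v9, 4, 5247)])]))) (.far 235)) (.far 220))) (.far 177))
  (.far 39)) (.node 4 174 (.node 0 285 (.node 0 360 (.far 27) (.node 2 (-962) (.node 2 (-932)
  (.far 178) (.node 6 798 (.node 8 (-443) (.far 240) (.node 9 (-644) (.far 224) (.leaf 178350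
  [(v16, 1, 518317), (v9, 4, 56860), (v6, 0, 42108)] [(322, [(v24, 9, 466), (v10, 2, 161)],
  [(v6, 0, 2658), (v14, 8, 570), (v12, 1, 8417)]), (31, [(v0, 6, 46), (v24, 9, 57)], [(v6, 0,
  15062), (v14, 8, 13680), (v12, 1, 294595)]), (-947, [(v17, 5, 7), (v23, 5, 1), (v26, 5, 64)],
  [(v6, 0, 7018), (v16, 1, 75487), (v9, 4, 5035)])]))) (.far 235))) (.far 166))) (.far 39))
  (.node 0 390 (.node 0 427 (.far 38) (.node 2 (-973) (.far 4) (.node 4 133 (.node 6 869 (.node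
  8 (-485) (.far 40) (.node 9 (-597) (.far 242) (.leaf 21266700 [(v16, 1, 61644037), (v9, 4,
  9659130), (v6, 0, 3487127)] [(408, [(v24, 9, 1946), (v10, 2, 597)], [(v6, 0, 13289), (v14, 8,
  3822), (v16, 1, 64311)]), (31, [(v0, 6, 597), (v24, 9, 869)], [(v6, 0, 5723), (v14, 8, 5694),
  (v16, 1, 132405)]), (-982, [(v17, 5, 7), (v23, 5, 1), (v26, 5, 64)], [(v6, 0, 16093), (v16,
  1, 236873), (v9, 4, 20670)])]))) (.far 37)) (.far 220)))) (.node 0 353 (.node 2 (-976) (.node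
  2 (-961) (.far 165) (.node 4 154 (.node 6 845 (.node 8 (-472) (.far 222) (.node 9 (-621)
  (.far 42) (.leaf 15920300 [(v16, 1, 46320307), (v9, 4, 6034535), (v6, 0, 2958010)] [(371,
  [(v24, 9, 1922), (v10, 2, 621)], [(v6, 0, 323320), (v14, 8, 86485), (v16, 1, 1416236)]), (31,
  [(v0, 6, 621), (v24, 9, 845)], [(v6, 0, 27848), (v14, 8, 25769), (v16, 1, 583156)]), (-969,
  [(v17, 5, 7), (v23, 5, 1), (v26, 5, 64)], [(v6, 0, 279510), (v16, 1, 3723797), (v9, 4,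
  280635)])]))) (.far 219)) (.far 26))) (.far 5)) (.far 26)))))))) (.node 0 424 (.node 2 (-987)
  (.far 178) (.node 4 119 (.node 6 892 (.node 8 (-498) (.far 240) (.node 9 (-579) (.far 181)
  (.leaf 582624 [(v14, 8, 119833), (v9, 4, 564414), (v20, 7, 961520)] [(440, [(v24, 9, 658),
  (v10, 2, 193)], [(v20, 7, 8466), (v6, 0, 1245), (v14, 8, 1280)]), (37, [(v0, 6, 579), (v24,
  9, 892)], [(v20, 7, 45152), (v14, 8, 10285), (v9, 4, 17430)]), (-994, [(v17, 5, 7), (v23, 5,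
  1), (v26, 5, 64)], [(v14, 8, 57715), (v9, 4, 181770), (v20, 7, 553112)])]))) (.far 235))
  (.far 281))) (.far 39)))) (.node 3 (-60) (.node 8 150 (.node 3 150 (.node 0 219 (.node 1
  (-776) (.node 2 (-602) (.node 2 (-509) (.far 300) (.node 4 756 (.node 7 (-232) (.far 346)
  (.node 9 (-858) (.far 329) (.leaf 1036483200 [(v7, 3, 1251290956), (v4, 0, 501491200), (v20,
  7, 734082525)] [(367, [(v19, 5, 189), (v9, 4, 300), (v5, 4, 50)], [(v20, 7, 279225), (v4, 0,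
  371200), (v7, 3, 93148)]), (-664, [(v13, 5, 27027), (v24, 9, 107100), (v15, 4, 7150)], [(v20,
  7, 279225), (v4, 0, 324800), (v7, 3, 567356)]), (-556, [(v17, 5, 7), (v23, 5, 1), (v26, 5,
  64)], [(v4, 0, 371200), (v7, 3, 956884), (v20, 7, 837675)])]))) (.far 311))) (.far 264))
  (.far 206)) (.far 145)) (.node 3 100 (.node 0 508 (.node 0 569 (.far 109) (.node 1 (-798)
  (.node 2 (-610) (.node 2 (-540) (.far 265) (.node 4 748 (.node 7 (-482) (.far 325) (.node 9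
  (-831) (.far 329) (.leaf 832510400 [(v7, 3, 1605979897), (v4, 0, 169856800), (v20, 7,
  286607250)] [(538, [(v19, 5, 187), (v9, 4, 300), (v5, 4, 50)], [(v4, 0, 385600), (v7, 3,
  336677), (v20, 7, 323850)]), (-734, [(v13, 5, 1087779), (v24, 9, 2057000), (v9, 4, 623250)],
  [(v4, 0, 337400), (v7, 3, 2050669), (v20, 7, 323850)]), (-575, [(v17, 5, 7), (v23, 5, 1),
  (v26, 5, 64)], [(v4, 0, 385600), (v7, 3, 3458591), (v20, 7, 971550)])]))) (.far 311))) (.far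
  264)) (.far 206))) (.far 108)) (.node 3 (-30) (.node 8 200 (.node 0 565 (.node 1 (-855)
  (.node 2 (-601) (.node 2 (-548) (.far 265) (.node 4 774 (.node 7 (-558) (.far 325) (.leaf
  52635400 [(v10, 2, 50205900), (v4, 0, 35077480), (v3, 8, 560056137)] [(637, [(v19, 5, 387),
  (v9, 4, 600), (v5, 4, 100)], [(v4, 0, 26040), (v3, 8, 115599), (v20, 7, 11300)]), (-800,
  [(v13, 5, 387), (v28, 5, 4257), (v9, 4, 1000)], [(v4, 0, 32880), (v10, 2, 45200), (v3, 8,
  448949)]), (-575, [(v17, 5, 7), (v23, 5, 1), (v26, 5, 64)], [(v4, 0, 27400), (v10, 2, 5650),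
  (v3, 8, 417987)])])) (.far 311))) (.far 264)) (.far 206)) (.far 108)) (.node 7 (-605) (.node
  0 562 (.node 0 651 (.far 141) (.node 1 (-767) (.node 2 (-624) (.node 2 (-579) (.far 265)
  (.node 4 734 (.node 7 (-529) (.far 325) (.leaf 19903511 [(v10, 2, 26813020), (v4, 0,
  29536527), (v9, 4, 27116500)] [(606, [(v19, 5, 367), (v9, 4, 600), (v5, 4, 100)], [(v4, 0,
  3688717), (v9, 4, 1635139), (v20, 7, 1031270)]), (-730, [(v13, 5, 367), (v28, 5, 4037), (v9,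
  4, 1000)], [(v4, 0, 5524818), (v10, 2, 5156350), (v9, 4, 4718271)]), (-602, [(v17, 5, 7),
  (v23, 5, 1), (v26, 5, 64)], [(v4, 0, 4887339), (v10, 2, 2062540), (v9, 4, 4392873)])])) (.far
  338))) (.far 296)) (.far 241))) (.far 108)) (.node 0 619 (.node 1 (-803) (.node 2 (-632)
  (.node 2 (-587) (.far 297) (.node 4 725 (.leaf 1317154625 [(v10, 2, 1831002000), (v4, 0,
  1822312150), (v9, 4, 1870541244)] [(662, [(v19, 5, 29), (v9, 4, 48), (v5, 4, 8)], [(v4, 0,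
  1666775), (v9, 4, 823889), (v20, 7, 448775)]), (-766, [(v13, 5, 29), (v28, 5, 319), (v9, 4,
  80)], [(v4, 0, 381550), (v10, 2, 386875), (v9, 4, 363353)]), (-610, [(v17, 5, 7), (v23, 5,
  1), (v26, 5, 64)], [(v4, 0, 9788225), (v10, 2, 4487750), (v9, 4, 9810531)])]) (.far 311)))
  (.far 264)) (.far 206)) (.far 142)))) (.node 0 702 (.node 1 (-868) (.node 2 (-637) (.node 2
  (-570) (.far 265) (.node 4 720 (.node 7 (-650) (.far 325) (.leaf 414960 [(v10, 2, 621296),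
  (v4, 0, 516800), (v9, 4, 607373)] [(721, [(v19, 5, 18), (v9, 4, 30), (v5, 4, 5)], [(v4, 0,
  760), (v9, 4, 429), (v20, 7, 216)]), (-809, [(v13, 5, 9), (v28, 5, 99), (v9, 4, 25)], [(v4,
  0, 1520), (v10, 2, 1800), (v9, 4, 1653)]), (-604, [(v17, 5, 7), (v23, 5, 1), (v26, 5, 64)],
  [(v4, 0, 17480), (v10, 2, 9360), (v9, 4, 20007)])])) (.far 311))) (.far 264)) (.far 206))
  (.far 108))))) (.node 3 (-30) (.node 7 60 (.node 1 (-60) (.node 0 105 (.node 2 (-914) (.node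
  2 (-806) (.far 178) (.node 4 239 (.node 8 (-283) (.far 240) (.node 9 (-724) (.far 242) (.leaf
  878325 [(v9, 4, 141300), (v1, 7, 6838507), (v6, 0, 713176)] [(172, [(v24, 9, 403), (v10, 2,
  181)], [(v6, 0, 3396), (v8, 8, 600), (v1, 7, 16697)]), (-60, [(v13, 5, 43259), (v24, 9,
  203150), (v15, 4, 36200)], []), (-860, [(v17, 5, 7), (v23, 5, 1), (v26, 5, 64)], [(v6, 0,
  3824), (v1, 7, 32743), (v9, 4, 600)])]))) (.far 220))) (.far 177)) (.far 39)) (.node 1 (-230)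
  (.node 2 (-674) (.far 79) (.node 3 444 (.node 4 365 (.node 9 (-814) (.far 242) (.leaf 262860
  [(v1, 7, 1495943), (v2, 2, 49290), (v11, 1, 1455166)] [(98, [(v24, 9, 121500), (v19, 5,
  8547), (v7, 3, 11000)], [(v11, 1, 1685), (v2, 2, 180), (v1, 7, 674)]), (-145, [(v13, 5,
  29711), (v24, 9, 124100), (v15, 4, 16280)], [(v2, 2, 75), (v1, 7, 1011), (v11, 1, 337)]),
  (-753, [(v17, 5, 7), (v23, 5, 1), (v26, 5, 64)], [(v2, 2, 60), (v1, 7, 1685), (v11, 1,
  2022)])])) (.far 220)) (.far 203))) (.far 38))) (.node 1 (-60) (.node 7 (-60) (.node 4 252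
  (.node 0 262 (.node 0 359 (.far 121) (.node 2 (-913) (.node 2 (-868) (.far 4) (.node 8 (-346)
  (.far 40) (.node 9 (-681) (.far 339) (.leaf 298944 [(v9, 4, 397727), (v14, 8, 213882), (v6,
  0, 215904)] [(310, [(v24, 9, 1736), (v10, 2, 681)], [(v6, 0, 465024), (v14, 8, 324618), (v9,
  4, 385271)]), (-28, [(v13, 5, 14301), (v24, 9, 71400), (v15, 4, 11350)], [(v6, 0, 66432),
  (v14, 8, 88818), (v9, 4, 113315)]), (-891, [(v17, 5, 7), (v23, 5, 1), (v26, 5, 64)], [(v6, 0,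
  813792), (v14, 8, 753774), (v9, 4, 1337117)])])))) (.far 280))) (.node 4 309 (.node 0 214
  (.node 2 (-872) (.node 2 (-849) (.far 4) (.node 8 (-327) (.far 40) (.node 9 (-748) (.far 125)
  (.leaf 1556870544 [(v9, 4, 1689723777), (v14, 8, 1200043627), (v6, 0, 1414871448)] [(238,
  [(v24, 9, 849), (v10, 2, 374)], [(v9, 4, 594813), (v6, 0, 1077792), (v14, 8, 650239)]), (-44,
  [(v13, 5, 3399), (v24, 9, 15450), (v15, 4, 2200)], [(v6, 0, 1077792), (v14, 8, 1245373), (v9,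
  4, 1224615)]), (-861, [(v17, 5, 7), (v23, 5, 1), (v26, 5, 64)], [(v14, 8, 1509877), (v9, 4,
  2064351), (v6, 0, 1886136)])])))) (.far 68)) (.node 3 421 (.node 0 166 (.node 2 (-858) (.node
  2 (-830) (.far 178) (.node 4 325 (.node 7 43 (.node 9 (-785) (.far 327) (.leaf 113672650
  [(v9, 4, 13619304), (v1, 7, 1189759350), (v6, 0, 56445025)] [(179, [(v24, 9, 332), (v10, 2,
  157)], [(v6, 0, 817), (v4, 0, 430), (v1, 7, 8466)]), (-46, [(v13, 5, 2041), (v24, 9, 8840),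
  (v15, 4, 1256)], [(v4, 0, 215), (v1, 7, 5644), (v6, 0, 43)]), (-844, [(v17, 5, 7), (v23, 5,
  1), (v26, 5, 64)], [(v6, 0, 39130), (v1, 7, 739115), (v9, 4, 7138)])])) (.far 204)) (.far
  310))) (.far 263)) (.far 39)) (.node 8 (-340) (.node 7 43 (.node 0 190 (.node 2 (-840) (.far
  155) (.node 4 327 (.node 9 (-780) (.far 346) (.leaf 218179850 [(v9, 4, 26511650), (v1, 7,
  2281579280), (v6, 0, 93538459)] [(198, [(v24, 9, 28), (v10, 2, 13)], [(v6, 0, 817), (v4, 0,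
  430), (v1, 7, 9690)]), (-49, [(v13, 5, 4251), (v24, 9, 18530), (v15, 4, 2600)], [(v4, 0,
  215), (v1, 7, 6460), (v6, 0, 43)]), (-849, [(v17, 5, 7), (v23, 5, 1), (v26, 5, 64)], [(v6, 0,
  196854), (v1, 7, 4255905), (v9, 4, 40850)])])) (.far 338))) (.far 107)) (.node 0 193 (.node 1
  (-43) (.far 240) (.node 2 (-858) (.node 2 (-841) (.far 178) (.node 4 326 (.node 8 (-318)
  (.far 205) (.node 9 (-776) (.far 145) (.leaf 89154480 [(v11, 1, 1108418256), (v9, 4,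
  26151525), (v14, 8, 34491289)] [(203, [(v24, 9, 841), (v10, 2, 388)], [(v11, 1, 1565037),
  (v6, 0, 68370), (v14, 8, 58093)]), (-52, [(v13, 5, 15811), (v24, 9, 69275), (v15, 4, 9700)],
  [(v11, 1, 1658688), (v14, 8, 91117), (v9, 4, 34185)]), (-850, [(v17, 5, 7), (v23, 5, 1),
  (v26, 5, 64)], [(v14, 8, 161207), (v9, 4, 102555), (v11, 1, 5805408)])]))) (.far 123))) (.far
  81))) (.far 39))) (.node 0 190 (.node 2 (-869) (.node 2 (-853) (.far 265) (.node 7 36 (.node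
  9 (-768) (.far 125) (.leaf 43151850 [(v9, 4, 5776950), (v1, 7, 537039940), (v6, 0, 18629919)]
  [(202, [(v24, 9, 853), (v10, 2, 384)], [(v6, 0, 2958), (v14, 8, 570), (v1, 7, 27455)]), (-33,
  [(v13, 5, 9888), (v24, 9, 43775), (v15, 4, 6400)], [(v14, 8, 171), (v1, 7, 11305), (v6, 0,
  306)]), (-861, [(v17, 5, 7), (v23, 5, 1), (v26, 5, 64)], [(v6, 0, 51912), (v1, 7, 1340545),
  (v9, 4, 11400)])])) (.far 142))) (.far 68)) (.far 107))))) (.node 1 (-30) (.node 7 36 (.node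
  0 228 (.node 2 (-908) (.node 2 (-873) (.far 4) (.node 8 (-361) (.far 40) (.node 9 (-723)
  (.far 339) (.leaf 1173060 [(v9, 4, 214320), (v1, 7, 14388206), (v6, 0, 417333)] [(243, [(v24,
  9, 582), (v10, 2, 241)], [(v6, 0, 551), (v14, 8, 120), (v1, 7, 6137)]), (-4, [(v13, 5,
  15183), (v24, 9, 71400), (v15, 4, 12050)], [(v14, 8, 36), (v1, 7, 2527), (v6, 0, 57)]),
  (-891, [(v17, 5, 7), (v23, 5, 1), (v26, 5, 64)], [(v6, 0, 588), (v1, 7, 18221), (v9, 4,
  190)])])))) (.far 68)) (.node 0 199 (.node 2 (-901) (.node 2 (-867) (.far 281) (.node 4 259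
  (.node 8 (-357) (.far 222) (.node 9 (-739) (.far 143) (.leaf 12627545 [(v9, 4, 2162135), (v1,
  7, 156530017), (v6, 0, 5264952)] [(213, [(v24, 9, 1734), (v10, 2, 739)], [(v6, 0, 41412),
  (v14, 8, 7960), (v1, 7, 402577)]), (-7, [(v13, 5, 191401), (v24, 9, 880600), (v15, 4,
  147800)], [(v14, 8, 2388), (v1, 7, 165767), (v6, 0, 4284)]), (-884, [(v17, 5, 7), (v23, 5,
  1), (v26, 5, 64)], [(v6, 0, 261072), (v1, 7, 7061117), (v9, 4, 71640)])]))) (.far 122)))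
  (.far 80)) (.far 122))) (.node 4 278 (.node 0 228 (.node 2 (-891) (.node 2 (-873) (.far 178)
  (.node 8 (-361) (.far 240) (.node 9 (-733) (.far 125) (.leaf 8128998 [(v9, 4, 9870462), (v14,
  8, 5668698), (v6, 0, 6969599)] [(245, [(v24, 9, 1746), (v10, 2, 733)], [(v6, 0, 84512), (v14,
  8, 49206), (v9, 4, 55233)]), (-21, [(v13, 5, 101887), (v24, 9, 472600), (v15, 4, 73300)],
  [(v6, 0, 84512), (v14, 8, 94242), (v9, 4, 113715)]), (-882, [(v17, 5, 7), (v23, 5, 1), (v26,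
  5, 64)], [(v6, 0, 147896), (v14, 8, 114258), (v9, 4, 191691)])])))) (.far 68)) (.far 39))
  (.node 0 242 (.node 2 (-908) (.node 2 (-889) (.far 281) (.node 8 (-382) (.far 123) (.node 9
  (-721) (.far 125) (.leaf 52415748 [(v9, 4, 70881437), (v14, 8, 34720224), (v6, 0, 42685062)]
  [(252, [(v24, 9, 254), (v10, 2, 103)], [(v6, 0, 513408), (v14, 8, 299838), (v9, 4, 392887)]),
  (-9, [(v13, 5, 6489), (v24, 9, 30600), (v15, 4, 5150)], [(v6, 0, 73344), (v14, 8, 82038),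
  (v9, 4, 115555)]), (-899, [(v17, 5, 7), (v23, 5, 1), (v26, 5, 64)], [(v6, 0, 898464), (v14,
  8, 696234), (v9, 4, 1363549)])])))) (.far 68)) (.far 122)))) (.node 0 239 (.node 2 (-887)
  (.node 2 (-870) (.far 67) (.node 4 284 (.node 8 (-350) (.far 123) (.node 9 (-736) (.far 42)
  (.leaf 427618800 [(v6, 0, 352870000), (v9, 4, 513569175), (v14, 8, 312602918)] [(250, [(v24,
  9, 435), (v10, 2, 184)], [(v9, 4, 2133075), (v6, 0, 3180800), (v14, 8, 2002342)]), (-43,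
  [(v13, 5, 6532), (v24, 9, 30175), (v15, 4, 4600)], [(v6, 0, 3180800), (v14, 8, 3834994), (v9,
  4, 4391625)]), (-879, [(v17, 5, 7), (v23, 5, 1), (v26, 5, 64)], [(v14, 8, 4649506), (v9, 4,
  7403025), (v6, 0, 5566400)])]))) (.far 26))) (.far 5)) (.node 0 217 (.node 2 (-878) (.node 2
  (-868) (.far 165) (.node 4 297 (.node 8 (-354) (.far 123) (.node 9 (-752) (.far 42) (.leaf
  9280656 [(v9, 4, 10616942), (v14, 8, 6695535), (v6, 0, 8469648)] [(228, [(v24, 9, 217), (v10,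
  2, 94)], [(v9, 4, 7378), (v6, 0, 12672), (v14, 8, 7161)]), (-37, [(v13, 5, 27918), (v24, 9,
  126225), (v15, 4, 18800)], [(v6, 0, 747648), (v14, 8, 809193), (v9, 4, 896210)]), (-873,
  [(v17, 5, 7), (v23, 5, 1), (v26, 5, 64)], [(v14, 8, 140151), (v9, 4, 215822), (v6, 0,
  186912)])]))) (.far 26))) (.far 5)) (.far 26)))))) (.node 1 (-30) (.node 0 328 (.node 4 193
  (.node 0 360 (.node 2 (-952) (.node 2 (-925) (.far 4) (.node 6 836 (.node 8 (-414) (.far 40)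
  (.node 9 (-639) (.far 339) (.leaf 57529440 [(v9, 4, 102173130), (v14, 8, 34607795), (v6, 0,
  30238468)] [(376, [(v24, 9, 1850), (v10, 2, 639)], [(v6, 0, 71024), (v14, 8, 56935), (v9, 4,
  105570)]), (-10, [(v0, 6, 639), (v24, 9, 836)], [(v6, 0, 71024), (v14, 8, 109045), (v9, 4,
  217350)]), (-939, [(v17, 5, 7), (v23, 5, 1), (v26, 5, 64)], [(v14, 8, 132205), (v9, 4,
  366390), (v6, 0, 124292)])]))) (.far 37))) (.far 280)) (.node 2 (-950) (.node 2 (-913) (.far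
  4) (.node 6 815 (.node 8 (-401) (.far 40) (.node 9 (-652) (.far 125) (.leaf 1370784816 [(v9,
  4, 2425458525), (v14, 8, 850655413), (v6, 0, 797457472)] [(344, [(v24, 9, 913), (v10, 2,
  326)], [(v6, 0, 619144), (v14, 8, 466867), (v9, 4, 838491)]), (-1, [(v0, 6, 4), (v24, 9, 5)],
  [(v6, 0, 619144), (v14, 8, 894169), (v9, 4, 1726305)]), (-932, [(v17, 5, 7), (v23, 5, 1),
  (v26, 5, 64)], [(v6, 0, 1083502), (v14, 8, 1084081), (v9, 4, 2910057)])]))) (.far 37))) (.far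
  68))) (.node 0 376 (.node 7 (-44) (.node 4 172 (.node 0 388 (.far 121) (.node 2 (-965) (.node
  2 (-950) (.far 67) (.node 6 853 (.node 8 (-451) (.far 133) (.node 9 (-631) (.far 339) (.leaf
  1575021888 [(v14, 8, 868747060), (v9, 4, 3156848013), (v6, 0, 796509296)] [(382, [(v24, 9,
  1900), (v10, 2, 631)], [(v6, 0, 620576), (v14, 8, 476956), (v9, 4, 1081047)]), (11, [(v0, 6,
  631), (v24, 9, 853)], [(v6, 0, 620576), (v14, 8, 913492), (v9, 4, 2225685)]), (-958, [(v17,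
  5, 7), (v23, 5, 1), (v26, 5, 64)], [(v14, 8, 1107508), (v9, 4, 3751869), (v6, 0,
  1086008)])]))) (.far 120))) (.far 280))) (.node 4 161 (.node 0 395 (.far 121) (.node 1 15
  (.node 2 (-972) (.node 2 (-963) (.far 67) (.node 6 858 (.node 8 (-470) (.far 338) (.node 9
  (-623) (.far 339) (.leaf 726432 [(v14, 8, 384307), (v9, 4, 1560306), (v6, 0, 368368)] [(385,
  [(v24, 9, 1926), (v10, 2, 623)], [(v6, 0, 12880), (v14, 8, 9499), (v9, 4, 23970)]), (22,
  [(v0, 6, 623), (v24, 9, 858)], [(v6, 0, 1840), (v14, 8, 2599), (v9, 4, 7050)]), (-968, [(v17,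
  5, 7), (v23, 5, 1), (v26, 5, 64)], [(v6, 0, 22540), (v14, 8, 22057), (v9, 4, 83190)])])))
  (.far 120))) (.far 280)) (.far 220))) (.node 3 226 (.node 8 (-484) (.node 0 382 (.node 0 393
  (.far 97) (.node 1 24 (.node 2 (-974) (.node 2 (-971) (.far 165) (.node 4 157 (.node 6 864
  (.node 8 (-480) (.far 311) (.node 9 (-622) (.far 329) (.leaf 6218104320 [(v14, 8,
  3221113579), (v9, 4, 13719820320), (v6, 0, 3107846400)] [(387, [(v24, 9, 971), (v10, 2,
  311)], [(v6, 0, 2411520), (v14, 8, 1769233), (v9, 4, 4675680)]), (27, [(v0, 6, 311), (v24, 9,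
  432)], [(v6, 0, 2411520), (v14, 8, 3388531), (v9, 4, 9626400)]), (-973, [(v17, 5, 7), (v23,
  5, 1), (v26, 5, 64)], [(v14, 8, 4108219), (v9, 4, 16227360), (v6, 0, 4220160)])]))) (.far
  219)) (.far 311))) (.far 264)) (.far 194))) (.far 26)) (.node 0 386 (.node 0 393 (.far 97)
  (.node 1 27 (.node 2 (-975) (.node 2 (-972) (.far 180) (.node 4 155 (.node 6 867 (.node 9
  (-621) (.far 207) (.leaf 6254867520 [(v14, 8, 3210567545), (v9, 4, 13976210028), (v6, 0,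
  3090824000)] [(389, [(v24, 9, 72), (v10, 2, 23)], [(v6, 0, 2400640), (v14, 8, 1764985), (v9,
  4, 4764012)]), (28, [(v0, 6, 207), (v24, 9, 289)], [(v6, 0, 480128), (v14, 8, 676079), (v9,
  4, 1961652)]), (-974, [(v17, 5, 7), (v23, 5, 1), (v26, 5, 64)], [(v6, 0, 4201120), (v14, 8,
  4098355), (v9, 4, 16533924)])])) (.far 237)) (.far 194))) (.far 156)) (.far 206))) (.far
  41))) (.node 0 392 (.node 0 400 (.far 38) (.node 1 23 (.node 2 (-978) (.node 2 (-971) (.far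
  165) (.node 4 151 (.node 6 869 (.node 7 (-39) (.far 203) (.node 8 (-480) (.far 338) (.node 9
  (-616) (.far 242) (.leaf 153773568 [(v14, 8, 32941103), (v9, 4, 113429472), (v20, 7,
  397151744)] [(396, [(v24, 9, 971), (v10, 2, 308)], [(v6, 0, 10335), (v14, 8, 10192), (v20, 7,
  99960)]), (26, [(v0, 6, 56), (v24, 9, 79)], [(v20, 7, 1546240), (v14, 8, 237523), (v9, 4,
  305760)]), (-975, [(v17, 5, 7), (v23, 5, 1), (v26, 5, 64)], [(v14, 8, 190411), (v9, 4,
  455520), (v20, 7, 2705920)])])))) (.far 308)) (.far 220))) (.far 177)) (.far 220))) (.far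
  16))))) (.node 1 (-10) (.node 2 (-988) (.node 2 (-950) (.far 67) (.node 4 138 (.node 6 853
  (.node 8 (-447) (.far 338) (.node 9 (-600) (.far 242) (.leaf 184564512 [(v9, 4, 150684743),
  (v14, 8, 43714858), (v20, 7, 426291384)] [(400, [(v24, 9, 19), (v10, 2, 6)], [(v20, 7,
  2142918), (v6, 0, 260601), (v14, 8, 264704)]), (0, [(v0, 6, 600), (v24, 9, 853)], [(v20, 7,
  328992), (v14, 8, 61226), (v9, 4, 80311)]), (-969, [(v17, 5, 7), (v23, 5, 1), (v26, 5, 64)],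
  [(v14, 8, 49082), (v9, 4, 119647), (v20, 7, 575736)])]))) (.far 120)) (.far 220))) (.far
  177)) (.far 220))) (.node 0 352 (.node 4 178 (.node 2 (-961) (.node 2 (-949) (.far 67) (.node
  6 840 (.node 8 (-450) (.far 123) (.node 9 (-638) (.far 125) (.leaf 63439200 [(v14, 8,
  35134352), (v9, 4, 122839200), (v6, 0, 34503075)] [(364, [(v24, 9, 949), (v10, 2, 319)],
  [(v6, 0, 80100), (v14, 8, 57761), (v9, 4, 126225)]), (15, [(v0, 6, 319), (v24, 9, 420)],
  [(v6, 0, 80100), (v14, 8, 110627), (v9, 4, 259875)]), (-955, [(v17, 5, 7), (v23, 5, 1), (v26,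
  5, 64)], [(v6, 0, 140175), (v14, 8, 134123), (v9, 4, 438075)])]))) (.far 120))) (.far 68))
  (.node 0 364 (.node 1 15 (.node 2 (-969) (.node 2 (-959) (.far 67) (.node 4 164 (.node 6 850
  (.node 8 (-465) (.far 123) (.node 9 (-632) (.far 42) (.leaf 53534520 [(v14, 8, 28715908),
  (v9, 4, 112926645), (v6, 0, 28216200)] [(370, [(v24, 9, 959), (v10, 2, 316)], [(v6, 0,
  1220160), (v14, 8, 880516), (v9, 4, 2158065)]), (22, [(v0, 6, 316), (v24, 9, 425)], [(v6, 0,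
  1220160), (v14, 8, 1686412), (v9, 4, 4443075)]), (-964, [(v17, 5, 7), (v23, 5, 1), (v26, 5,
  64)], [(v6, 0, 305040), (v14, 8, 292084), (v9, 4, 1069965)])]))) (.far 120)) (.far 26)))
  (.far 5)) (.far 26)) (.node 1 22 (.node 2 (-964) (.node 2 (-958) (.far 67) (.node 4 171
  (.node 6 843 (.node 8 (-467) (.far 123) (.node 9 (-640) (.far 42) (.leaf 252986976 [(v14, 8,
  134926638), (v9, 4, 510648622), (v6, 0, 138179229)] [(358, [(v24, 9, 479), (v10, 2, 160)],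
  [(v6, 0, 53238), (v14, 8, 36993), (v9, 4, 87329)]), (26, [(v0, 6, 640), (v24, 9, 843)], [(v6,
  0, 53238), (v14, 8, 70851), (v9, 4, 179795)]), (-961, [(v17, 5, 7), (v23, 5, 1), (v26, 5,
  64)], [(v6, 0, 186333), (v14, 8, 171798), (v9, 4, 606166)])]))) (.far 120)) (.far 26))) (.far
  5)) (.far 26)))) (.node 1 14 (.node 2 (-959) (.node 2 (-947) (.far 67) (.node 4 177 (.node 6
  826 (.node 8 (-454) (.far 123) (.node 9 (-648) (.far 42) (.leaf 158144544 [(v14, 8,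
  87096095), (v9, 4, 308229226), (v6, 0, 93268852)] [(340, [(v24, 9, 947), (v10, 2, 324)],
  [(v6, 0, 214288), (v14, 8, 142721), (v9, 4, 316438)]), (22, [(v0, 6, 324), (v24, 9, 413)],
  [(v6, 0, 214288), (v14, 8, 273347), (v9, 4, 651490)]), (-953, [(v17, 5, 7), (v23, 5, 1),
  (v26, 5, 64)], [(v6, 0, 6356), (v14, 8, 5617), (v9, 4, 18614)])]))) (.far 120)) (.far 26)))
  (.far 5)) (.far 26))))) (.node 0 280 (.node 8 (-430) (.node 2 (-931) (.node 2 (-908) (.far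
  67) (.node 4 220 (.node 6 787 (.node 8 (-399) (.far 222) (.node 9 (-679) (.far 145) (.leaf
  18960480 [(v9, 4, 29519217), (v14, 8, 11966020), (v6, 0, 13161984)] [(304, [(v24, 9, 1816),
  (v10, 2, 679)], [(v6, 0, 20064), (v14, 8, 12980), (v9, 4, 20349)]), (-6, [(v0, 6, 679), (v24,
  9, 787)], [(v6, 0, 20064), (v14, 8, 24860), (v9, 4, 41895)]), (-920, [(v17, 5, 7), (v23, 5,
  1), (v26, 5, 64)], [(v6, 0, 35112), (v14, 8, 30140), (v9, 4, 70623)])]))) (.far 120)) (.far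
  123))) (.far 81)) (.node 0 304 (.node 1 (-2) (.node 2 (-950) (.node 2 (-926) (.far 82) (.node
  4 191 (.node 6 806 (.node 9 (-665) (.far 42) (.leaf 33706152 [(v14, 8, 19647406), (v9, 4,
  60637740), (v6, 0, 21542699)] [(316, [(v24, 9, 1852), (v10, 2, 665)], [(v6, 0, 328520), (v14,
  8, 214111), (v9, 4, 416670)]), (14, [(v0, 6, 665), (v24, 9, 806)], [(v6, 0, 328520), (v14, 8,
  410077), (v9, 4, 857850)]), (-938, [(v17, 5, 7), (v23, 5, 1), (v26, 5, 64)], [(v6, 0,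
  574910), (v14, 8, 497173), (v9, 4, 1446090)])])) (.far 139)) (.far 26))) (.far 5)) (.far 41))
  (.node 1 8 (.node 2 (-940) (.node 2 (-923) (.far 82) (.node 4 204 (.node 6 792 (.node 9
  (-681) (.far 42) (.leaf 14736960 [(v14, 8, 8592514), (v9, 4, 24761765), (v6, 0, 10292480)]
  [(292, [(v24, 9, 1846), (v10, 2, 681)], [(v6, 0, 1376), (v14, 8, 826), (v9, 4, 1505)]), (19,
  [(v0, 6, 227), (v24, 9, 264)], [(v6, 0, 23392), (v14, 8, 26894), (v9, 4, 52675)]), (-932,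
  [(v17, 5, 7), (v23, 5, 1), (v26, 5, 64)], [(v6, 0, 5848), (v14, 8, 4658), (v9, 4, 12685)])]))
  (.far 139)) (.far 26))) (.far 5)) (.far 41)))) (.node 0 256 (.node 1 11 (.node 2 (-931)
  (.node 2 (-908) (.far 4) (.node 4 217 (.node 6 774 (.node 8 (-413) (.far 40) (.node 9 (-697)
  (.far 42) (.leaf 11061792 [(v14, 8, 6694016), (v9, 4, 17354496), (v6, 0, 8462783)] [(268,
  [(v24, 9, 1816), (v10, 2, 697)], [(v6, 0, 217), (v14, 8, 124), (v9, 4, 204)]), (20, [(v0, 6,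
  697), (v24, 9, 774)], [(v6, 0, 12803), (v14, 8, 14012), (v9, 4, 24780)]), (-920, [(v17, 5,
  7), (v23, 5, 1), (v26, 5, 64)], [(v6, 0, 89621), (v14, 8, 67952), (v9, 4, 167088)])]))) (.far
  37)) (.far 26))) (.far 5)) (.node 2 (-919) (.node 2 (-906) (.far 67) (.node 4 235 (.node 6
  774 (.node 8 (-405) (.far 123) (.node 9 (-706) (.far 42) (.leaf 1624320 [(v9, 4, 2366928),
  (v14, 8, 1014448), (v6, 0, 1249965)] [(268, [(v24, 9, 906), (v10, 2, 353)], [(v6, 0, 19035),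
  (v14, 8, 11092), (v9, 4, 16524)]), (0, [(v0, 6, 353), (v24, 9, 387)], [(v6, 0, 19035), (v14,
  8, 21244), (v9, 4, 34020)]), (-913, [(v17, 5, 7), (v23, 5, 1), (v26, 5, 64)], [(v6, 0,
  133245), (v14, 8, 103024), (v9, 4, 229392)])]))) (.far 120)) (.far 26))) (.far 5))) (.node 0
  232 (.node 2 (-921) (.node 2 (-905) (.far 281) (.node 4 230 (.node 6 761 (.node 7 37 (.node 8
  (-409) (.far 123) (.node 9 (-713) (.far 42) (.leaf 24185420 [(v1, 7, 289880868), (v9, 4,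
  5081728), (v6, 0, 8643607)] [(244, [(v24, 9, 1810), (v10, 2, 713)], [(v6, 0, 15133), (v14, 8,
  2960), (v1, 7, 166872)]), (18, [(v0, 6, 713), (v24, 9, 761)], [(v14, 8, 8584), (v1, 7,
  664216), (v6, 0, 15133)]), (-913, [(v17, 5, 7), (v23, 5, 1), (v26, 5, 64)], [(v6, 0, 5957),
  (v1, 7, 182758), (v9, 4, 2146)])]))) (.far 122)) (.far 334)) (.far 26))) (.far 5)) (.far
  122))))) (.node 0 320 (.node 2 (-933) (.node 2 (-910) (.far 165) (.node 4 221 (.node 6 810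
  (.node 8 (-392) (.far 338) (.node 9 (-659) (.far 242) (.leaf 62375040 [(v9, 4, 97837320),
  (v14, 8, 40669525), (v6, 0, 37728236)] [(348, [(v24, 9, 1820), (v10, 2, 659)], [(v6, 0,
  5096), (v14, 8, 3835), (v9, 4, 5880)]), (-41, [(v0, 6, 659), (v24, 9, 810)], [(v6, 0, 86632),
  (v14, 8, 124865), (v9, 4, 205800)]), (-922, [(v17, 5, 7), (v23, 5, 1), (v26, 5, 64)], [(v6,
  0, 151606), (v14, 8, 151385), (v9, 4, 346920)])]))) (.far 219)) (.far 220))) (.far 177))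
  (.far 26)))) (.node 0 351 (.node 2 (-904) (.far 178) (.node 4 121 (.node 6 825 (.node 8
  (-382) (.far 240) (.node 9 (-528) (.far 181) (.leaf 5143248 [(v9, 4, 4958742), (v14, 8,
  1405965), (v20, 7, 8135072)] [(471, [(v24, 9, 113), (v10, 2, 33)], [(v20, 7, 1139697), (v4,
  0, 202460), (v14, 8, 38610)]), (-15, [(v0, 6, 16), (v24, 9, 25)], [(v20, 7, 739552), (v14, 8,
  219615), (v9, 4, 280770)]), (-952, [(v17, 5, 7), (v23, 5, 1), (v26, 5, 64)], [(v14, 8,
  176055), (v9, 4, 418290), (v20, 7, 1294216)])]))) (.far 235)) (.far 165))) (.far 39))) (.node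
  8 (-250) (.node 8 (-150) (.node 7 30 (.node 1 (-278) (.node 1 (-181) (.far 240) (.node 2
  (-724) (.node 2 (-648) (.far 298) (.node 3 511 (.node 4 529 (.node 9 (-918) (.far 346) (.leaf
  6064767 [(v7, 3, 3264516), (v2, 2, 9447295), (v11, 1, 49923459)] [(67, [(v24, 9, 766500),
  (v19, 5, 60809), (v7, 3, 68000)], [(v11, 1, 2483460), (v2, 2, 647437), (v7, 3, 117288)]),
  (-230, [(v13, 5, 14283), (v24, 9, 52900), (v15, 4, 5400)], [(v2, 2, 2312275), (v7, 3,
  703728), (v11, 1, 9271584)]), (-686, [(v17, 5, 7), (v23, 5, 1), (v26, 5, 64)], [(v2, 2,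
  92491), (v7, 3, 32580), (v11, 1, 533484)])])) (.far 338)) (.far 325))) (.far 296))) (.far
  242)) (.node 7 (-30) (.node 1 (-341) (.node 1 (-196) (.far 240) (.node 2 (-735) (.node 2
  (-627) (.far 298) (.node 3 447 (.node 4 518 (.node 9 (-884) (.far 346) (.leaf 155642718 [(v7,
  3, 98497938), (v2, 2, 255724826), (v11, 1, 1200765819)] [(105, [(v24, 9, 9051750), (v19, 5,
  691509), (v7, 3, 884000)], [(v11, 1, 1401345), (v2, 2, 408856), (v7, 3, 81928)]), (-269,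
  [(v13, 5, 3367), (v24, 9, 12950), (v15, 4, 1300)], [(v11, 1, 93423), (v2, 2, 26075), (v7, 3,
  8778)]), (-681, [(v17, 5, 7), (v23, 5, 1), (v26, 5, 64)], [(v2, 2, 525672), (v7, 3, 204820),
  (v11, 1, 2709267)])])) (.far 338)) (.far 325))) (.far 296))) (.far 242)) (.node 0 390 (.node
  3 150 (.node 1 (-671) (.node 2 (-784) (.node 2 (-583) (.far 82) (.node 4 467 (.node 7 (-218)
  (.far 141) (.node 9 (-727) (.far 329) (.leaf 173440800 [(v7, 3, 195944177), (v4, 0,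
  38228480), (v20, 7, 128638575)] [(449, [(v24, 9, 1166), (v10, 2, 727)], [(v20, 7, 49725),
  (v4, 0, 34880), (v7, 3, 15587)]), (-492, [(v13, 5, 339509), (v24, 9, 1587800), (v15, 4,
  145400)], [(v4, 0, 30520), (v7, 3, 94939), (v20, 7, 49725)]), (-684, [(v17, 5, 7), (v23, 5,
  1), (v26, 5, 64)], [(v4, 0, 34880), (v7, 3, 160121), (v20, 7, 149175)])]))) (.far 311)))
  (.far 264)) (.far 206)) (.node 8 (-100) (.node 1 (-579) (.node 3 100 (.node 0 495 (.node 2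
  (-762) (.node 2 (-654) (.far 155) (.node 4 506 (.node 7 (-336) (.far 325) (.node 9 (-723)
  (.far 329) (.leaf 113097600 [(v20, 7, 54402975), (v7, 3, 194613804), (v4, 0, 18753280)]
  [(526, [(v24, 9, 436), (v10, 2, 241)], [(v4, 0, 35840), (v7, 3, 30492), (v20, 7, 42075)]),
  (-494, [(v13, 5, 182919), (v24, 9, 860200), (v15, 4, 72300)], [(v4, 0, 31360), (v7, 3,
  185724), (v20, 7, 42075)]), (-708, [(v17, 5, 7), (v23, 5, 1), (v26, 5, 64)], [(v4, 0, 35840),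
  (v7, 3, 313236), (v20, 7, 126225)])]))) (.far 311))) (.far 264)) (.far 108)) (.node 8 30
  (.node 0 556 (.node 2 (-688) (.node 2 (-675) (.far 155) (.node 4 627 (.node 7 (-458) (.far
  325) (.node 9 (-764) (.far 244) (.leaf 1663830 [(v10, 2, 1690240), (v4, 0, 2322009), (v9, 4,
  2482818)] [(571, [(v19, 5, 359271), (v9, 4, 764000), (v24, 9, 156750)], [(v4, 0, 248007),
  (v9, 4, 127324), (v20, 7, 79230)]), (-573, [(v13, 5, 119757), (v24, 9, 532950), (v15, 4,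
  38200)], [(v4, 0, 73359), (v10, 2, 58102), (v9, 4, 72558)]), (-682, [(v17, 5, 7), (v23, 5,
  1), (v26, 5, 64)], [(v4, 0, 648945), (v10, 2, 232408), (v9, 4, 675540)])]))) (.far 222)))
  (.far 179)) (.far 108)) (.node 4 558 (.node 0 622 (.node 2 (-737) (.node 2 (-701) (.far 4)
  (.node 7 (-480) (.far 121) (.node 9 (-687) (.far 313) (.leaf 4257754830 [(v9, 4, 7154684998),
  (v10, 2, 4217841090), (v4, 0, 5274178893)] [(658, [(v24, 9, 1402), (v10, 2, 687)], [(v4, 0,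
  84816), (v9, 4, 54736), (v20, 7, 28923)]), (-553, [(v13, 5, 149079), (v24, 9, 341000), (v9,
  4, 114500)], [(v4, 0, 5085054), (v10, 2, 4338450), (v9, 4, 6322319)]), (-719, [(v17, 5, 7),
  (v23, 5, 1), (v26, 5, 64)], [(v4, 0, 499813), (v10, 2, 192820), (v9, 4, 654033)])])))) (.far
  251)) (.node 8 (-9) (.node 0 553 (.node 2 (-717) (.node 2 (-682) (.far 265) (.node 4 583
  (.node 7 (-436) (.far 325) (.node 9 (-729) (.far 145) (.leaf 139921166 [(v4, 0, 194682356),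
  (v9, 4, 223270432), (v10, 2, 139129823)] [(587, [(v24, 9, 1364), (v10, 2, 729)], [(v4, 0,
  439052), (v9, 4, 241108), (v20, 7, 146545)]), (-552, [(v13, 5, 425007), (v24, 9, 1982200),
  (v15, 4, 145800)], [(v4, 0, 939796), (v10, 2, 732725), (v9, 4, 994294)]), (-700, [(v17, 5,
  7), (v23, 5, 1), (v26, 5, 64)], [(v10, 2, 146545), (v9, 4, 462861), (v4, 0, 415679)])])))
  (.far 123))) (.far 81)) (.far 108)) (.node 7 (-454) (.node 0 551 (.node 1 (-535) (.node 2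
  (-732) (.node 2 (-706) (.far 265) (.node 7 (-413) (.far 309) (.node 9 (-728) (.far 339)
  (.leaf 1266214530 [(v4, 0, 1730679222), (v9, 4, 2068928411), (v10, 2, 1168596615)] [(573,
  [(v24, 9, 353), (v10, 2, 182)], [(v4, 0, 230454), (v9, 4, 131747), (v20, 7, 80910)]), (-510,
  [(v13, 5, 25389), (v24, 9, 118575), (v15, 4, 9100)], [(v10, 2, 3843225), (v9, 4, 5640587),
  (v4, 0, 5121324)]), (-719, [(v17, 5, 7), (v23, 5, 1), (v26, 5, 64)], [(v10, 2, 170810), (v9,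
  4, 583509), (v4, 0, 503378)])])))) (.far 280)) (.far 241)) (.far 96)) (.node 0 574 (.node 1
  (-554) (.node 2 (-733) (.node 2 (-709) (.far 297) (.node 9 (-717) (.far 125) (.leaf
  3974022990 [(v4, 0, 5306675697), (v9, 4, 6613807949), (v10, 2, 3763431000)] [(598, [(v24, 9,
  1418), (v10, 2, 717)], [(v4, 0, 1203327), (v9, 4, 716639), (v20, 7, 400365)]), (-532, [(v13,
  5, 66681), (v24, 9, 316200), (v15, 4, 23900)], [(v4, 0, 5143086), (v10, 2, 4003650), (v9, 4,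
  5901007)]), (-721, [(v17, 5, 7), (v23, 5, 1), (v26, 5, 64)], [(v10, 2, 177940), (v9, 4,
  610449), (v4, 0, 505517)])]))) (.far 68)) (.far 41)) (.far 142))))) (.node 7 (-466) (.node 4
  524 (.node 7 (-430) (.node 0 549 (.node 0 589 (.far 121) (.node 1 (-496) (.node 2 (-753)
  (.node 2 (-729) (.far 250) (.node 7 (-393) (.far 309) (.node 9 (-714) (.far 339) (.leaf
  815561460 [(v4, 0, 1099342044), (v9, 4, 1397171511), (v10, 2, 704966020)] [(569, [(v24, 9,
  243), (v10, 2, 119)], [(v4, 0, 9956), (v9, 4, 6039), (v20, 7, 3660)]), (-472, [(v13, 5,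
  2751), (v24, 9, 13100), (v15, 4, 1050)], [(v4, 0, 1103544), (v10, 2, 799100), (v9, 4,
  1289601)]), (-741, [(v17, 5, 7), (v23, 5, 1), (v26, 5, 64)], [(v4, 0, 976212), (v10, 2,
  319640), (v9, 4, 1200663)])])))) (.far 280)) (.far 220))) (.far 96)) (.node 0 568 (.node 0
  627 (.far 121) (.node 1 (-518) (.node 2 (-755) (.node 2 (-730) (.far 281) (.node 9 (-699)
  (.far 339) (.leaf 190112440 [(v4, 0, 252243251), (v9, 4, 332002248), (v10, 2, 169575832)]
  [(597, [(v24, 9, 1460), (v10, 2, 699)], [(v4, 0, 107027), (v9, 4, 67166), (v20, 7, 37204)]),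
  (-495, [(v13, 5, 91569), (v24, 9, 445400), (v15, 4, 34950)], [(v4, 0, 124319), (v10, 2,
  93010), (v9, 4, 150307)]), (-743, [(v17, 5, 7), (v23, 5, 1), (v26, 5, 64)], [(v10, 2, 74408),
  (v9, 4, 279882), (v4, 0, 219949)])]))) (.far 280)) (.far 220))) (.far 122))) (.node 0 597
  (.node 0 646 (.far 141) (.node 1 (-494) (.node 2 (-777) (.node 2 (-753) (.far 67) (.node 4
  491 (.node 7 (-424) (.far 141) (.node 8 (-69) (.far 338) (.node 9 (-675) (.far 346) (.leaf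
  732599496 [(v9, 4, 204583551), (v14, 8, 1555108457), (v20, 7, 161230161)] [(621, [(v24, 9,
  502), (v10, 2, 225)], [(v4, 0, 516856), (v14, 8, 928136), (v20, 7, 700281)]), (-472, [(v13,
  5, 13257), (v24, 9, 66776), (v15, 4, 5400)], [(v20, 7, 271032), (v14, 8, 3148783), (v9, 4,
  179193)]), (-765, [(v17, 5, 7), (v23, 5, 1), (v26, 5, 64)], [(v14, 8, 2524231), (v9, 4,
  266961), (v20, 7, 474306)])])))) (.far 338))) (.far 296)) (.far 220))) (.node 0 548 (.node 1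
  (-477) (.node 2 (-769) (.node 2 (-750) (.far 250) (.node 4 499 (.node 7 (-382) (.far 325)
  (.node 8 (-74) (.far 123) (.node 9 (-699) (.far 145) (.leaf 959189776 [(v20, 7, 238689664),
  (v9, 4, 254510938), (v14, 8, 1871010979)] [(572, [(v24, 9, 500), (v10, 2, 233)], [(v4, 0,
  374551), (v14, 8, 575674), (v20, 7, 517038)]), (-454, [(v13, 5, 348801), (v24, 9, 1696600),
  (v15, 4, 139800)], [(v20, 7, 1181632), (v14, 8, 11532389), (v9, 4, 692566)]), (-760, [(v17,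
  5, 7), (v23, 5, 1), (v26, 5, 64)], [(v14, 8, 9244973), (v9, 4, 1031782), (v20, 7,
  2067856)])])))) (.far 123))) (.far 81)) (.far 26)) (.far 108)))) (.node 2 (-758) (.node 0 606
  (.node 0 694 (.far 17) (.node 1 (-568) (.node 2 (-732) (.far 281) (.node 4 518 (.node 9
  (-672) (.far 266) (.leaf 213507686 [(v9, 4, 47172947), (v10, 2, 1246406938), (v20, 7,
  426399211)] [(650, [(v24, 9, 61), (v10, 2, 28)], [(v4, 0, 56852), (v10, 2, 258863), (v20, 7,
  147864)]), (-529, [(v13, 5, 21756), (v24, 9, 50875), (v9, 4, 18000)], [(v20, 7, 2464644),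
  (v10, 2, 7301987), (v9, 4, 85278)]), (-745, [(v17, 5, 7), (v23, 5, 1), (v26, 5, 64)], [(v10,
  2, 5853659), (v9, 4, 170556), (v20, 7, 2180262)])])) (.far 281))) (.far 194))) (.far 122))
  (.node 0 629 (.node 1 (-531) (.node 2 (-783) (.node 4 484 (.node 9 (-654) (.far 329) (.leaf
  619738526 [(v9, 4, 148444067), (v10, 2, 3460606171), (v20, 7, 1227783007)] [(660, [(v24, 9,
  758), (v10, 2, 327)], [(v4, 0, 353228), (v10, 2, 1612127), (v20, 7, 953564)]), (-500, [(v13,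
  5, 39567), (v24, 9, 205700), (v15, 4, 16350)], [(v20, 7, 2384668), (v10, 2, 6822706), (v9, 4,
  88307)]), (-771, [(v17, 5, 7), (v23, 5, 1), (v26, 5, 64)], [(v10, 2, 2734721), (v9, 4,
  88307), (v20, 7, 1054757)])])) (.far 311)) (.far 264)) (.far 156)) (.far 80))))))) (.node 3
  100 (.node 0 504 (.node 1 (-693) (.node 2 (-676) (.node 2 (-601) (.far 265) (.node 4 643
  (.node 7 (-431) (.far 203) (.node 9 (-784) (.far 207) (.leaf 138480300 [(v7, 3, 257220369),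
  (v4, 0, 26269450), (v20, 7, 53335800)] [(533, [(v19, 5, 189042), (v9, 4, 392000), (v24, 9,
  80375)], [(v4, 0, 344800), (v7, 3, 298683), (v20, 7, 321300)]), (-636, [(v13, 5, 63014),
  (v24, 9, 273275), (v15, 4, 19600)], [(v4, 0, 43100), (v7, 3, 259893), (v20, 7, 45900)]),
  (-639, [(v17, 5, 7), (v23, 5, 1), (v26, 5, 64)], [(v4, 0, 344800), (v7, 3, 3068289), (v20, 7,
  963900)])]))) (.far 194))) (.far 156)) (.far 206)) (.far 16)) (.node 8 30 (.node 1 (-665)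
  (.node 0 627 (.node 2 (-705) (.node 2 (-651) (.far 4) (.node 4 609 (.node 7 (-520) (.far 141)
  (.node 9 (-710) (.far 329) (.leaf 46033295 [(v4, 0, 58726276), (v9, 4, 73264532), (v10, 2,
  52215515)] [(663, [(v19, 5, 609), (v9, 4, 1200), (v5, 4, 200)], [(v4, 0, 21112), (v9, 4,
  12584), (v20, 7, 6699)]), (-630, [(v13, 5, 100891), (v24, 9, 223300), (v9, 4, 71000)], [(v4,
  0, 5642), (v10, 2, 5225), (v9, 4, 6479)]), (-678, [(v17, 5, 7), (v23, 5, 1), (v26, 5, 64)],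
  [(v4, 0, 144739), (v10, 2, 60610), (v9, 4, 174933)])]))) (.far 311))) (.far 264)) (.node 1
  (-622) (.node 0 556 (.node 2 (-694) (.node 2 (-650) (.far 155) (.node 4 621 (.node 7 (-465)
  (.far 203) (.node 9 (-744) (.far 145) (.leaf 3021165 [(v10, 2, 3280122), (v4, 0, 4274964),
  (v9, 4, 4616051)] [(591, [(v19, 5, 57753), (v9, 4, 124000), (v24, 9, 25875)], [(v4, 0,
  365769), (v9, 4, 189596), (v20, 7, 115092)]), (-601, [(v13, 5, 44919), (v24, 9, 94875), (v9,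
  4, 31000)], [(v4, 0, 104949), (v10, 2, 86319), (v9, 4, 104806)]), (-672, [(v17, 5, 7), (v23,
  5, 1), (v26, 5, 64)], [(v4, 0, 34385), (v10, 2, 12788), (v9, 4, 36140)])]))) (.far 123)))
  (.far 81)) (.far 16)) (.node 0 559 (.node 2 (-678) (.node 2 (-625) (.far 155) (.node 4 646
  (.node 7 (-489) (.far 203) (.node 9 (-756) (.far 42) (.leaf 112848125 [(v10, 2, 131987167),
  (v4, 0, 162549750), (v9, 4, 169237250)] [(593, [(v19, 5, 323), (v9, 4, 600), (v5, 4, 100)],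
  [(v4, 0, 6001986), (v9, 4, 3006861), (v20, 7, 1805570)]), (-644, [(v13, 5, 427329), (v24, 9,
  888250), (v9, 4, 283500)], [(v4, 0, 32300), (v10, 2, 27778), (v9, 4, 31175)]), (-652, [(v17,
  5, 7), (v23, 5, 1), (v26, 5, 64)], [(v4, 0, 1857250), (v10, 2, 722228), (v9, 4,
  1886625)])]))) (.far 26))) (.far 5)) (.far 16)))) (.node 0 632 (.node 0 703 (.far 109) (.node
  1 (-750) (.node 2 (-681) (.node 2 (-620) (.far 82) (.node 4 647 (.node 7 (-559) (.far 38)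
  (.leaf 63380120 [(v10, 2, 80451862), (v4, 0, 84179229), (v9, 4, 99194296)] [(667, [(v19, 5,
  647), (v9, 4, 1200), (v5, 4, 200)], [(v4, 0, 6871787), (v9, 4, 3886168), (v20, 7, 2044520)]),
  (-708, [(v13, 5, 647), (v28, 5, 7117), (v9, 4, 2000)], [(v4, 0, 260741), (v10, 2, 255565),
  (v9, 4, 284084)]), (-651, [(v17, 5, 7), (v23, 5, 1), (v26, 5, 64)], [(v4, 0, 461311), (v10,
  2, 204452), (v9, 4, 528984)])])) (.far 194))) (.far 156)) (.far 206))) (.node 0 561 (.node 1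
  (-721) (.node 2 (-654) (.node 2 (-609) (.far 265) (.node 4 684 (.node 7 (-513) (.far 203)
  (.node 9 (-772) (.far 42) (.leaf 908786340 [(v10, 2, 1135183500), (v4, 0, 1341217752), (v9,
  4, 1320169697)] [(596, [(v19, 5, 171), (v9, 4, 300), (v5, 4, 50)], [(v4, 0, 12996), (v9, 4,
  6171), (v20, 7, 3740)]), (-693, [(v13, 5, 77007), (v24, 9, 156750), (v9, 4, 48250)], [(v4, 0,
  1203384), (v10, 2, 1065900), (v9, 4, 1100869)]), (-632, [(v17, 5, 7), (v23, 5, 1), (v26, 5,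
  64)], [(v4, 0, 354844), (v10, 2, 142120), (v9, 4, 341649)])]))) (.far 26))) (.far 5)) (.far
  41)) (.far 16)))) (.node 0 641 (.node 1 (-625) (.node 2 (-731) (.node 2 (-695) (.far 82)
  (.node 4 568 (.node 7 (-520) (.far 38) (.node 9 (-692) (.far 207) (.leaf 1771288120 [(v9, 4,
  3032306267), (v10, 2, 1858669240), (v4, 0, 2213577224)] [(669, [(v10, 2, 346), (v24, 9,
  695)], [(v4, 0, 140296), (v9, 4, 91663), (v20, 7, 45511)]), (-602, [(v13, 5, 85981), (v24, 9,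
  195250), (v9, 4, 64875)], [(v4, 0, 2052752), (v10, 2, 1820440), (v9, 4, 2583871)]), (-713,
  [(v17, 5, 7), (v23, 5, 1), (v26, 5, 64)], [(v4, 0, 1815896), (v10, 2, 728176), (v9, 4,
  2405673)])]))) (.far 194))) (.far 156)) (.far 206)) (.node 0 586 (.node 1 (-602) (.node 2
  (-710) (.node 2 (-687) (.far 180) (.node 4 597 (.node 7 (-485) (.far 241) (.node 9 (-727)
  (.far 42) (.leaf 560796726 [(v4, 0, 759167289), (v9, 4, 900710128), (v10, 2, 579105124)]
  [(613, [(v19, 5, 1302057), (v9, 4, 2908000), (v24, 9, 597000)], [(v4, 0, 1100271), (v9, 4,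
  625262), (v20, 7, 349842)]), (-591, [(v13, 5, 1012711), (v24, 9, 2189000), (v9, 4, 727000)],
  [(v4, 0, 1777269), (v10, 2, 1457675), (v9, 4, 1945813)]), (-699, [(v17, 5, 7), (v23, 5, 1),
  (v26, 5, 64)], [(v4, 0, 3144399), (v10, 2, 1166140), (v9, 4, 3623238)])]))) (.far 26))) (.far
  5)) (.far 41)) (.far 41)))))) (.node 0 492 (.node 1 (-488) (.node 2 (-753) (.far 265) (.node
  4 436 (.node 7 (-306) (.far 325) (.node 9 (-632) (.far 329) (.leaf 13608432 [(v9, 4,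
  4176135), (v14, 8, 19328643), (v20, 7, 4199552)] [(590, [(v24, 9, 753), (v10, 2, 316)],
  [(v20, 7, 2050), (v4, 0, 1325), (v14, 8, 1353)]), (-422, [(v13, 5, 8611), (v24, 9, 46325),
  (v15, 4, 3950)], [(v20, 7, 348800), (v14, 8, 2017917), (v9, 4, 187425)]), (-784, [(v17, 5,
  7), (v23, 5, 1), (v26, 5, 64)], [(v14, 8, 1617669), (v9, 4, 279225), (v20, 7, 610400)])])))
  (.far 311))) (.far 206)) (.far 108)))) (.node 0 234 (.node 1 (-622) (.node 1 (-249) (.far 40)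
  (.node 2 (-768) (.node 2 (-559) (.far 82) (.node 3 245 (.node 4 483 (.node 9 (-777) (.far
  145) (.leaf 364016835 [(v7, 3, 284765364), (v4, 0, 187936070), (v11, 1, 1243602360)] [(312,
  [(v24, 9, 1118), (v10, 2, 777)], [(v11, 1, 487305), (v4, 0, 142345), (v7, 3, 38844)]), (-436,
  [(v13, 5, 17871), (v24, 9, 78200), (v15, 4, 7400)], [(v4, 0, 508375), (v7, 3, 563238), (v11,
  1, 1949220)]), (-664, [(v17, 5, 7), (v23, 5, 1), (v26, 5, 64)], [(v4, 0, 20335), (v7, 3,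
  29133), (v11, 1, 162435)])])) (.far 123)) (.far 108))) (.far 81))) (.far 41)) (.node 1 (-391)
  (.node 1 (-224) (.far 240) (.node 2 (-744) (.node 2 (-610) (.far 181) (.node 3 390 (.node 4
  508 (.node 9 (-854) (.far 145) (.leaf 45296160 [(v7, 3, 33620272), (v2, 2, 77322336), (v11,
  1, 308282715)] [(156, [(v24, 9, 1579500), (v19, 5, 116571), (v7, 3, 170800)], [(v11, 1,
  178425), (v2, 2, 61152), (v7, 3, 13664)]), (-308, [(v13, 5, 54229), (v24, 9, 215900), (v15,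
  4, 21350)], [(v11, 1, 3965), (v2, 2, 1300), (v7, 3, 488)]), (-677, [(v17, 5, 7), (v23, 5, 1),
  (v26, 5, 64)], [(v2, 2, 78624), (v7, 3, 34160), (v11, 1, 344955)])])) (.far 123)) (.far
  108))) (.far 81))) (.node 1 (-558) (.node 2 (-660) (.node 3 397 (.node 4 642 (.node 6 597
  (.node 9 (-917) (.far 42) (.leaf 525132941 [(v7, 3, 431373096), (v2, 6, 1055388373), (v11, 1,
  2238708011)] [(173, [(v24, 9, 32157000), (v19, 5, 2548343), (v7, 3, 3668000)], [(v11, 1,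
  3555135), (v2, 6, 2173178), (v7, 3, 466854)]), (-475, [(v13, 5, 294357), (v24, 9, 1091400),
  (v15, 4, 91700)], [(v11, 1, 6636252), (v2, 6, 3880675), (v7, 3, 1400562)]), (-608, [(v17, 5,
  7), (v23, 5, 1), (v26, 5, 64)], [(v2, 6, 931362), (v7, 3, 389045), (v11, 1, 2291087)])]))
  (.far 238)) (.far 26)) (.far 16)) (.far 5)) (.far 41))))))) (.node 0 377 (.node 1 (-436)
  (.node 2 (-765) (.far 82) (.node 4 339 (.node 7 (-153) (.far 141) (.node 9 (-589) (.far 329)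
  (.leaf 4610400 [(v9, 4, 1729750), (v14, 8, 4078283), (v20, 7, 2892800)] [(532, [(v24, 9,
  1530), (v10, 2, 589)], [(v20, 7, 18850), (v4, 0, 7950), (v14, 8, 4147)]), (-321, [(v13, 5,
  199671), (v24, 9, 1152600), (v15, 4, 117800)], [(v20, 7, 361600), (v14, 8, 697323), (v9, 4,
  124950)]), (-820, [(v17, 5, 7), (v23, 5, 1), (v26, 5, 64)], [(v14, 8, 559011), (v9, 4,
  186150), (v20, 7, 632800)])]))) (.far 311))) (.far 206)) (.node 0 68 (.node 1 (-309) (.node 1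
  (-104) (.far 240) (.node 2 (-828) (.node 2 (-718) (.far 297) (.node 4 388 (.node 9 (-738)
  (.far 145) (.leaf 4656000 [(v9, 4, 1075875), (v14, 8, 4414082), (v11, 1, 26713800)] [(68,
  [(v24, 9, 718), (v10, 2, 369)], []), (-207, [(v13, 5, 35793), (v24, 9, 164900), (v15, 4,
  18450)], [(v11, 1, 116400), (v14, 8, 32786), (v9, 4, 4875)]), (-773, [(v17, 5, 7), (v23, 5,
  1), (v26, 5, 64)], [(v14, 8, 58006), (v9, 4, 14625), (v11, 1, 407400)])])) (.far 123))) (.far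
  81))) (.far 41)) (.far 142)))) (.node 3 226 (.node 4 333 (.node 0 130 (.node 1 (-218) (.node
  2 (-864) (.node 2 (-789) (.far 297) (.node 9 (-701) (.far 313) (.leaf 13320000 [(v11, 1,
  117060600), (v9, 4, 4118750), (v14, 8, 7001991)] [(268, [(v24, 9, 1578), (v10, 2, 701)],
  [(v11, 1, 5525), (v4, 0, 500), (v14, 8, 104)]), (-139, [(v13, 5, 233433), (v24, 9, 1132200),
  (v15, 4, 140200)], [(v11, 1, 44400), (v14, 8, 4329), (v9, 4, 1250)]), (-827, [(v17, 5, 7),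
  (v23, 5, 1), (v26, 5, 64)], [(v14, 8, 2553), (v9, 4, 1250), (v11, 1, 51800)])]))) (.far 251))
  (.far 206)) (.far 142)) (.node 0 225 (.node 1 (-163) (.node 2 (-923) (.node 2 (-854) (.far
  165) (.node 4 238 (.node 8 (-302) (.far 311) (.node 9 (-659) (.far 207) (.leaf 338240 [(v11,
  1, 3052616), (v9, 4, 156285), (v14, 8, 150325)] [(314, [(v24, 9, 1708), (v10, 2, 659)],
  [(v11, 1, 23103), (v4, 0, 1208), (v14, 8, 360)]), (-112, [(v13, 5, 78421), (v24, 9, 404600),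
  (v15, 4, 65900)], [(v11, 1, 287504), (v14, 8, 23205), (v9, 4, 11325)]), (-889, [(v17, 5, 7),
  (v23, 5, 1), (v26, 5, 64)], [(v14, 8, 41055), (v9, 4, 33975), (v11, 1, 1006264)])]))) (.far
  194))) (.far 156)) (.far 194)) (.far 26))) (.node 0 396 (.node 1 (-331) (.node 2 (-831) (.far
  265) (.node 4 132 (.node 7 (-89) (.far 203) (.node 9 (-519) (.far 295) (.leaf 599148000 [(v9,
  4, 583984625), (v14, 8, 300590202), (v20, 7, 665808000)] [(538, [(v24, 9, 554), (v10, 2,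
  173)], [(v20, 7, 2524500), (v4, 0, 589625), (v14, 8, 193842)]), (-196, [(v13, 5, 17127),
  (v24, 9, 158400), (v6, 0, 8650)], [(v20, 7, 1056000), (v14, 8, 710754), (v9, 4, 545125)]),
  (-916, [(v17, 5, 7), (v23, 5, 1), (v26, 5, 64)], [(v14, 8, 569778), (v9, 4, 812125), (v20, 7,
  1848000)])]))) (.far 165))) (.far 206)) (.far 16)))))) (.node 8 (-100) (.node 8 60 (.node 0
  697 (.node 1 (-764) (.node 2 (-691) (.node 2 (-631) (.far 265) (.node 4 633 (.node 7 (-597)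
  (.far 325) (.leaf 9743924085 [(v4, 0, 11729855241), (v9, 4, 15645254411), (v10, 2,
  12327155940)] [(716, [(v19, 5, 633), (v9, 4, 1200), (v5, 4, 200)], [(v4, 0, 2393373), (v9, 4,
  1525733), (v20, 7, 735335)]), (-710, [(v13, 5, 633), (v28, 5, 6963), (v9, 4, 2000)], [(v4, 0,
  10384998), (v10, 2, 11030025), (v9, 4, 12754403)]), (-661, [(v17, 5, 7), (v23, 5, 1), (v26,
  5, 64)], [(v4, 0, 3062243), (v10, 2, 1470670), (v9, 4, 3958263)])])) (.far 311))) (.far 264))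
  (.far 206)) (.far 108)) (.node 1 (-578) (.node 0 688 (.node 1 (-487) (.far 205) (.node 2
  (-788) (.node 2 (-730) (.far 155) (.node 4 479 (.node 7 (-503) (.far 325) (.node 9 (-638)
  (.far 329) (.leaf 5100636290 [(v9, 4, 1272313350), (v10, 2, 30040747971), (v20, 7,
  9466615910)] [(707, [(v24, 9, 730), (v10, 2, 319)], [(v4, 0, 183595), (v10, 2, 951676), (v20,
  7, 502240)]), (-533, [(v13, 5, 155353), (v24, 9, 827900), (v15, 1, 63800)], [(v20, 7,
  9091420), (v10, 2, 29153377), (v9, 4, 367190)]), (-759, [(v17, 5, 7), (v23, 5, 1), (v26, 5,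
  64)], [(v20, 7, 8042410), (v10, 2, 23370889), (v9, 4, 734380)])]))) (.far 311))) (.far 264)))
  (.far 108)) (.node 0 693 (.node 0 730 (.far 109) (.node 1 (-669) (.node 2 (-744) (.node 2
  (-685) (.far 265) (.node 4 550 (.node 7 (-554) (.far 203) (.node 9 (-670) (.far 207) (.leaf
  55026050 [(v9, 4, 11991884), (v10, 2, 363839500), (v20, 7, 97280275)] [(711, [(v19, 5, 2211),
  (v9, 4, 5360), (v24, 9, 1100)], [(v4, 0, 379490), (v10, 2, 2111571), (v20, 7, 949410)]),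
  (-624, [(v13, 5, 5159), (v24, 9, 12100), (v9, 4, 4020)], [(v20, 7, 979550), (v10, 2,
  3686870), (v9, 4, 37949)]), (-715, [(v17, 5, 7), (v23, 5, 1), (v26, 5, 64)], [(v20, 7,
  866525), (v10, 2, 2955590), (v9, 4, 75898)])]))) (.far 194))) (.far 156)) (.far 206))) (.far
  16)))) (.node 0 678 (.node 1 (-501) (.node 2 (-782) (.far 265) (.node 4 301 (.node 7 (-392)
  (.far 322) (.node 9 (-572) (.far 324) (.leaf 6877248 [(v9, 4, 3297700), (v14, 8, 9774373),
  (v20, 7, 1603040)] [(700, [(v24, 9, 391), (v10, 2, 143)], [(v4, 0, 259700), (v14, 8, 365442),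
  (v20, 7, 432225)]), (-395, [(v13, 5, 7007), (v24, 9, 46550), (v11, 7, 10725)], [(v20, 7,
  34400), (v14, 8, 254947), (v9, 4, 34300)]), (-840, [(v17, 5, 7), (v23, 5, 1), (v26, 5, 64)],
  [(v14, 8, 29197), (v9, 4, 7300), (v20, 7, 8600)])]))) (.far 308))) (.far 206)) (.far 105)))))
  (.node 8 150 (.node 0 734 (.node 1 (-886) (.node 1 (-763) (.far 205) (.node 2 (-643) (.node 2
  (-575) (.far 265) (.node 4 713 (.node 7 (-678) (.far 325) (.leaf 91584850 [(v10, 2,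
  138844908), (v4, 0, 110169195), (v9, 4, 137008440)] [(759, [(v19, 5, 713), (v9, 4, 1200),
  (v5, 4, 200)], [(v4, 0, 4592433), (v9, 4, 2737086), (v20, 7, 1308355)]), (-825, [(v15, 1,
  89125), (v28, 5, 4352152), (v9, 4, 667625)], [(v4, 0, 9269), (v10, 2, 11377), (v9, 4,
  10643)]), (-609, [(v17, 5, 7), (v23, 5, 1), (v26, 5, 64)], [(v4, 0, 81995), (v10, 2, 45508),
  (v9, 4, 99090)])])) (.far 311))) (.far 264))) (.far 206)) (.far 108)) (.node 8 60 (.node 0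
  729 (.node 1 (-781) (.node 2 (-698) (.node 2 (-636) (.far 265) (.node 4 626 (.node 7 (-625)
  (.far 325) (.leaf 2239515 [(v4, 0, 2604473), (v9, 4, 3681963), (v10, 2, 2873340)] [(753,
  [(v19, 5, 313), (v9, 4, 600), (v5, 4, 100)], [(v4, 0, 1486750), (v9, 4, 1002375), (v20, 7,
  456354)]), (-725, [(v13, 5, 313), (v28, 5, 3443), (v9, 4, 1000)], [(v4, 0, 1725256), (v10, 2,
  1901475), (v9, 4, 2240946)]), (-667, [(v17, 5, 7), (v23, 5, 1), (v26, 5, 64)], [(v4, 0,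
  763094), (v10, 2, 380295), (v9, 4, 1043199)])])) (.far 311))) (.far 264)) (.far 206)) (.far
  108)) (.node 8 (-30) (.node 0 724 (.node 0 773 (.far 109) (.node 1 (-687) (.node 2 (-753)
  (.node 2 (-690) (.far 265) (.node 4 539 (.node 7 (-572) (.far 325) (.node 9 (-647) (.far 329)
  (.leaf 140210070 [(v9, 4, 32031870), (v10, 2, 926136211), (v20, 7, 241099110)] [(748, [(v19,
  5, 1046199), (v9, 4, 2588000), (v24, 9, 539000)], [(v4, 0, 49335), (v10, 2, 284713), (v20, 7,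
  124890)]), (-631, [(v13, 5, 2441131), (v24, 9, 5929000), (v9, 4, 1941000)], [(v20, 7, 16905),
  (v10, 2, 65219), (v9, 4, 690)]), (-722, [(v17, 5, 7), (v23, 5, 1), (v26, 5, 64)], [(v20, 7,
  388815), (v10, 2, 1359358), (v9, 4, 35880)])]))) (.far 311))) (.far 264)) (.far 206))) (.far
  108)) (.node 1 (-506) (.node 0 716 (.node 2 (-784) (.far 155) (.node 4 403 (.node 7 (-485)
  (.far 322) (.node 8 (-95) (.far 205) (.node 9 (-604) (.far 324) (.leaf 1515167160 [(v9, 4,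
  554991805), (v14, 8, 2359962761), (v20, 7, 282145136)] [(729, [(v24, 9, 392), (v10, 2, 151)],
  [(v4, 0, 488395), (v14, 8, 763972), (v20, 7, 693804)]), (-463, [(v13, 5, 14647), (v24, 9,
  92150), (v11, 7, 18120)], [(v20, 7, 490048), (v14, 8, 4730011), (v9, 4, 451535)]), (-810,
  [(v17, 5, 7), (v23, 5, 1), (v26, 5, 64)], [(v14, 8, 3791827), (v9, 4, 672695), (v20, 7,
  857584)])])))) (.far 308))) (.far 105)) (.node 0 721 (.node 1 (-593) (.node 2 (-794) (.node 2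
  (-745) (.far 265) (.node 4 472 (.node 7 (-534) (.far 203) (.node 9 (-626) (.far 238) (.leaf
  45379142 [(v9, 4, 11868595), (v10, 2, 266929334), (v20, 7, 80701380)] [(745, [(v24, 9, 745),
  (v10, 2, 313)], [(v4, 0, 397830), (v10, 2, 2117577), (v20, 7, 1074290)]), (-550, [(v13, 5,
  79189), (v24, 9, 430100), (v15, 1, 31300)], [(v20, 7, 4571320), (v10, 2, 15248904), (v9, 4,
  198915)]), (-770, [(v17, 5, 7), (v23, 5, 1), (v26, 5, 64)], [(v20, 7, 2021930), (v10, 2,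
  6112164), (v9, 4, 198915)])]))) (.far 219))) (.far 176)) (.far 206)) (.far 16))))))))) (.node
  1 (-163) (.node 1 (-58) (.far 39) (.node 2 (-690) (.far 4) (.node 3 574 (.node 7 94 (.node 9
  (-905) (.far 143) (.leaf 0 [] [(0, [(v19, 5, 363629), (v7, 3, 362000), (v24, 9, 4649400)],
  [(v11, 1, 27025), (v2, 2, 2726), (v1, 7, 6670)]), (0, [], [(v2, 2, 1363), (v1, 7, 12006),
  (v11, 1, 6486)]), (0, [], [(v2, 2, 2726), (v1, 7, 50025), (v11, 1, 97290)])])) (.far 39))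
  (.far 107)))) (.node 1 (-268) (.node 2 (-651) (.far 83) (.node 3 579 (.node 7 40 (.node 9
  (-953) (.far 42) (.leaf 0 [] [(0, [(v24, 9, 46899000), (v19, 5, 3862509), (v7, 3, 3812000)],
  [(v11, 1, 21700), (v2, 2, 6520), (v1, 7, 35371)]), (0, [], [(v2, 2, 16300), (v1, 7, 318339),
  (v11, 1, 26040)]), (0, [], [(v2, 2, 2608), (v1, 7, 106113), (v11, 1, 31248)])])) (.far 143))
  (.far 16))) (.far 42)))))) (.node 1 (-100) (.node 2 (-823) (.node 2 (-715) (.far 4) (.node 4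
  361 (.node 7 166 (.node 8 (-178) (.far 40) (.node 9 (-894) (.far 143) (.leaf 0 [] [(0, [],
  [(v15, 4, 310254), (v8, 8, 868927), (v1, 7, 2056256)]), (0, [(v13, 5, 161367), (v24, 9,
  613700), (v15, 4, 89400)], [(v8, 8, 449445), (v1, 7, 2056256), (v15, 4, 103418)]), (0, [],
  [(v8, 8, 29963), (v1, 7, 128516), (v15, 4, 14774)])]))) (.far 39)) (.far 122))) (.far 80))
  (.node 2 (-681) (.far 83) (.node 7 126 (.leaf 0 [] [(0, [], [(v11, 1, 14301), (v2, 2, 2520),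
  (v1, 7, 4540)]), (0, [], [(v2, 2, 1750), (v1, 7, 11350), (v11, 1, 4767)]), (0, [], [(v2, 2,
  2100), (v1, 7, 28375), (v11, 1, 42903)])]) (.far 143)))))) (.node 1 (-133) (.node 2 (-789)
  (.node 2 (-696) (.far 83) (.node 4 413 (.node 7 169 (.node 9 (-931) (.far 143) (.leaf 0 []
  [(0, [], [(v15, 4, 20280), (v2, 2, 69797), (v1, 7, 178416)]), (0, [(v13, 5, 54929), (v24, 9,
  200600), (v15, 4, 26600)], [(v2, 2, 348985), (v1, 7, 1341424), (v15, 4, 78416)]), (0, [],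
  [(v2, 2, 488579), (v1, 7, 1796550), (v15, 4, 176436)])])) (.far 143)) (.far 122))) (.far 80))
  (.far 42))))) (.node 1 30 (.node 2 (-911) (.node 3 682 (.node 4 217 (.node 7 280 (.node 8
  (-269) (.far 40) (.node 9 (-854) (.far 42) (.leaf 32688880 [(v8, 8, 26991545), (v15, 4,
  33620965), (v1, 7, 96365484)] [(-125, [(v24, 9, 13810500), (v19, 5, 1019249), (v7, 3,
  854000)], [(v15, 4, 28245), (v8, 8, 31465), (v1, 7, 66712)]), (140, [(v17, 5, 2046), (v13, 5,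
  341), (v5, 3, 2500)], [(v15, 4, 9415), (v8, 8, 16275), (v1, 7, 66712)]), (-834, [(v17, 5, 7),
  (v23, 5, 1), (v26, 5, 64)], [(v8, 8, 2170), (v1, 7, 8339), (v15, 4, 2690)])]))) (.far 39))
  (.far 26)) (.far 16)) (.far 5)) (.node 1 (-73) (.node 2 (-716) (.far 83) (.node 4 426 (.node
  7 227 (.node 9 (-953) (.far 42) (.leaf 0 [] [(0, [], [(v15, 4, 406330), (v2, 2, 1402179),
  (v1, 7, 2745144)]), (0, [(v13, 5, 202989), (v24, 9, 724200), (v15, 4, 95300)], [(v2, 2,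
  725265), (v1, 7, 2135112), (v15, 4, 162532)]), (0, [], [(v2, 2, 112819), (v1, 7, 317725),
  (v15, 4, 40633)])])) (.far 143)) (.far 26))) (.far 42)))) (.node 1 2 (.node 2 (-891) (.node 3
  729 (.node 4 244 (.node 7 298 (.node 8 (-242) (.far 145) (.node 9 (-888) (.far 42) (.leaf
  246348256 [(v8, 8, 243203462), (v15, 4, 235873407), (v1, 7, 709520768)] [(-200, [(v24, 9,
  2460375), (v19, 5, 188811), (v7, 3, 148000)], [(v15, 4, 378609), (v8, 8, 527162), (v1, 7,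
  944768)]), (126, [(v17, 5, 4374), (v13, 5, 729), (v5, 3, 5000)], [(v15, 4, 126203), (v8, 8,
  272670), (v1, 7, 944768)]), (-816, [(v17, 5, 7), (v23, 5, 1), (v26, 5, 64)], [(v8, 8, 18178),
  (v1, 7, 59048), (v15, 4, 18029)])]))) (.far 143)) (.far 26)) (.far 16)) (.far 5)) (.far
  42)))) (.node 1 394 (.node 0 (-455) (.node 3 812 (.node 6 388 (.node 8 (-519) (.far 244)
  (.leaf 162426500 [(v0, 6, 852394375), (v3, 0, 358714148), (v12, 1, 154011750)] [(-353, [(v5,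
  3, 6750), (v19, 5, 3451), (v7, 3, 500)], [(v0, 6, 664875), (v12, 1, 121250), (v3, 0,
  38218)]), (515, [(v17, 5, 1218), (v13, 5, 203), (v5, 3, 1250)], [(v0, 6, 374891), (v8, 8,
  76436), (v12, 1, 234934)]), (-936, [(v17, 5, 7), (v23, 5, 1), (v26, 5, 64)], [(v0, 6,
  714125), (v12, 1, 145500), (v3, 0, 305744)])])) (.far 324)) (.far 57)) (.far 57)) (.node 0
  (-411) (.node 1 152 (.node 2 (-937) (.node 3 817 (.node 4 163 (.node 8 (-348) (.far 145)
  (.node 9 (-891) (.far 42) (.leaf 18321852 [(v8, 8, 8055297), (v15, 4, 20686744), (v12, 1,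
  14842780)] [(-331, [(v24, 9, 817000), (v19, 5, 62909), (v7, 3, 44000)], [(v15, 4, 249052),
  (v8, 8, 157947), (v12, 1, 151264)]), (273, [(v17, 5, 4902), (v13, 5, 817), (v5, 3, 5000)],
  [(v15, 4, 24244), (v8, 8, 52649), (v12, 1, 151264)]), (-864, [(v17, 5, 7), (v23, 5, 1), (v26,
  5, 64)], [(v8, 8, 52649), (v12, 1, 132356), (v15, 4, 147668)])]))) (.far 26)) (.far 16))
  (.far 5)) (.far 42)) (.far 42)))) (.node 1 (-750) (.node 0 767 (.node 0 815 (.far 37) (.node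
  1 (-591) (.far 202) (.node 2 (-753) (.node 2 (-660) (.far 155) (.node 4 539 (.node 7 (-609)
  (.far 322) (.node 9 (-647) (.far 324) (.leaf 200200 [(v9, 4, 32700), (v10, 2, 337470), (v27,
  3, 2229997)] [(791, [(v19, 5, 1046199), (v9, 4, 2588000), (v24, 9, 539000)], [(v4, 0,
  142100), (v27, 3, 1712711), (v20, 7, 76700)]), (-671, [(v13, 5, 382377), (v24, 9, 2009400),
  (v15, 1, 129400)], [(v27, 3, 33), (v10, 2, 5)]), (-707, [(v17, 5, 7), (v23, 5, 1), (v26, 5,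
  64)], [(v27, 3, 37191), (v10, 2, 3430), (v9, 4, 300)])]))) (.far 308))) (.far 261)))) (.far
  105)) (.node 0 776 (.node 0 838 (.far 109) (.node 1 (-908) (.node 2 (-676) (.node 2 (-582)
  (.far 265) (.node 4 664 (.node 7 (-698) (.far 203) (.leaf 2254280 [(v9, 4, 3666212), (v10, 2,
  3436200), (v4, 0, 2587857)] [(807, [(v19, 5, 83), (v9, 4, 150), (v5, 4, 25)], [(v4, 0,
  550373), (v9, 4, 372383), (v20, 7, 161020)]), (-829, [(v15, 1, 332), (v28, 5, 15936), (v9, 4,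
  2625)], [(v4, 0, 6474), (v10, 2, 8300), (v9, 4, 8439)]), (-629, [(v17, 5, 7), (v23, 5, 1),
  (v26, 5, 64)], [(v4, 0, 5727), (v10, 2, 3320), (v9, 4, 7857)])])) (.far 219))) (.far 176))
  (.far 206))) (.far 16))))) (.node 0 831 (.node 1 (-807) (.far 202) (.node 2 (-536) (.far 155)
  (.node 4 709 (.node 7 (-764) (.far 322) (.leaf 123507800 [(v9, 4, 15497100), (v10, 2,
  297124175), (v27, 3, 1012858966)] [(860, [(v19, 5, 709), (v9, 4, 1200), (v5, 4, 200)], [(v20,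
  7, 62325), (v4, 0, 133700), (v27, 3, 1163954)]), (-904, [(v28, 5, 4577304), (v9, 4, 706125),
  (v15, 1, 88625)], [(v10, 2, 75), (v27, 3, 268)]), (-593, [(v17, 5, 7), (v23, 5, 1), (v26, 5,
  64)], [(v27, 3, 2185138), (v10, 2, 372225), (v9, 4, 20100)])])) (.far 308)))) (.far 105))

theorem t5_ok : treeOK dat t5 (rootIv dat 5) = true := by decide +kernel

end Pool.Agent.Y81.Proj.BlockThree
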