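import Mathlib
import Pool.Agent.Y81.BlockThree

/-! Certificate trees. -/

set_option maxRecDepth 100000

namespace Pool.Agent.Y81.Proj.BlockThree

def t6 : Tree dat :=
.node 8 100 (.node 0 812 (.node 1 (-743) (.far 236) (.node 2 (-679) (.node 2 (-499) (.far 6)
  (.node 3 (-135) (.far 323) (.node 4 486 (.node 5 794 (.node 7 (-718) (.far 344) (.leaf
  31526820 [(v9, 4, 5990495), (v10, 2, 79533900), (v27, 3, 276492906)] [(906, [(v19, 5, 1215),
  (v9, 4, 2382), (v5, 4, 397)], [(v20, 7, 23490), (v4, 0, 48465), (v27, 3, 458084)]), (-872,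
  [(v15, 1, 771768), (v28, 5, 14624469), (v5, 4, 2064797)], [(v10, 2, 135), (v27, 3, 499)]),
  (-589, [(v17, 6, 2779), (v23, 6, 397), (v26, 5, 32000)], [(v27, 3, 206586), (v10, 2, 34020),
  (v9, 4, 2495)])])) (.far 138)) (.far 129)))) (.far 293))) (.far 138)) (.node 1 100 (.node 0
  733 (.node 1 501 (.far 6) (.node 2 (-866) (.far 6) (.node 5 374 (.node 7 (-262) (.far 183)
  (.leaf 556750 [(v26, 5, 713950), (v1, 1, 2745891), (v11, 7, 1557625)] [(733, [(v26, 5,
  19650), (v1, 1, 24497), (v11, 7, 23375)], []), (0, [(v26, 5, 131), (v11, 7, 187)], []),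
  (-1000, [(v17, 6, 22083), (v19, 2, 59500), (v28, 5, 216500)], [])])) (.far 77)))) (.far 6))
  (.node 8 30 (.node 0 788 (.node 1 (-758) (.node 1 (-662) (.far 236) (.node 2 (-719) (.node 2
  (-580) (.far 87) (.node 3 (-116) (.far 323) (.node 4 400 (.node 5 767 (.node 7 (-660) (.far
  344) (.leaf 150800 [(v9, 4, 35351), (v10, 2, 293480), (v27, 3, 1402300)] [(894, [(v5, 4,
  767), (v19, 5, 2000), (v9, 4, 4602)], [(v20, 7, 5713), (v4, 0, 11165), (v27, 3, 119185)]),
  (-710, [(v15, 1, 613600), (v28, 5, 10724400), (v5, 4, 1777139)], [(v10, 2, 1), (v27, 3, 5)]),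
  (-650, [(v17, 6, 5369), (v23, 6, 767), (v26, 5, 64000)], [(v27, 3, 2300), (v10, 2, 280), (v9,
  4, 29)])])) (.far 138)) (.far 129)))) (.far 293))) (.far 47)) (.far 138)) (.node 8 (-30)
  (.node 0 767 (.node 1 (-678) (.node 1 (-591) (.far 236) (.node 2 (-753) (.node 2 (-607) (.far
  87) (.node 3 (-99) (.far 323) (.node 4 325 (.node 5 744 (.node 7 (-609) (.far 344) (.leaf
  253892925 [(v9, 4, 73493739), (v10, 2, 447168150), (v27, 3, 2648614150)] [(883, [(v5, 4,
  744), (v19, 5, 1625), (v9, 4, 4464)], [(v4, 0, 12789), (v27, 3, 155701), (v20, 7, 6903)]),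
  (-635, [(v15, 1, 744), (v28, 5, 1970), (v26, 5, 1379)], [(v27, 3, 607), (v10, 2, 99)]),
  (-680, [(v17, 6, 651), (v23, 6, 93), (v26, 5, 8000)], [(v27, 3, 4537325), (v10, 2, 450450),
  (v9, 4, 60093)])])) (.far 138)) (.far 129)))) (.far 293))) (.far 47)) (.far 138)) (.node 9 30
  (.node 0 862 (.node 1 (-211) (.node 2 (-763) (.far 88) (.node 3 (-426) (.far 213) (.node 4
  (-105) (.far 131) (.node 5 508 (.node 7 (-375) (.far 245) (.leaf 1689100 [(v26, 5, 3679375),
  (v12, 4, 2179320), (v11, 7, 5373116)] [(862, [(v26, 5, 21000), (v12, 4, 6350), (v11, 7,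
  24003)], []), (-211, [(v11, 7, 508), (v26, 5, 375)], []), (-850, [(v17, 6, 41529), (v19, 2,
  127000), (v28, 5, 299750)], [(v18, 3, 875), (v12, 4, 3550), (v11, 7, 1988)])])) (.far 36)))))
  (.far 48)) (.far 48)) (.node 1 60 (.node 0 706 (.node 2 (-913) (.far 187) (.node 5 656 (.node
  7 (-257) (.far 183) (.leaf 1053700 [(v26, 5, 718315), (v1, 1, 8471748), (v11, 7, 2894600)]
  [(706, [(v11, 7, 24600), (v26, 5, 11565), (v1, 1, 42148)], []), (0, [(v26, 5, 257), (v11, 7,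
  656)], []), (-1000, [(v17, 6, 224598), (v19, 2, 574000), (v28, 5, 1255375)], [])])) (.far
  239))) (.far 6)) (.node 3 (-60) (.node 0 615 (.node 1 (-420) (.node 2 (-835) (.far 260)
  (.node 5 935 (.node 7 (-240) (.far 292) (.node 8 (-177) (.far 323) (.node 9 (-407) (.far 271)
  (.leaf 6243380 [(v24, 9, 13020120), (v14, 8, 6764340), (v20, 7, 4634509)] [(615, [(v24, 9,
  1670), (v10, 2, 407)], []), (-219, [(v13, 5, 2960), (v24, 9, 25840), (v11, 7, 6919)], [(v20,
  7, 72039), (v14, 8, 149776), (v24, 9, 138768)]), (-918, [(v17, 6, 1309), (v23, 6, 187), (v26,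
  5, 12800)], [(v14, 8, 136752), (v24, 9, 206736), (v20, 7, 120065)])])))) (.far 260))) (.far
  201)) (.far 77)) (.node 4 (-250) (.node 4 (-150) (.node 1 30 (.node 0 686 (.node 2 (-951)
  (.far 167) (.node 4 (-52) (.far 167) (.node 5 774 (.node 7 (-253) (.far 183) (.node 8 (-569)
  (.far 185) (.node 9 (-154) (.far 228) (.leaf 16806790 [(v12, 4, 17883558), (v24, 9,
  31439551), (v20, 7, 3035578)] [(735, [(v24, 9, 951), (v10, 2, 77)], [(v20, 7, 19907034), (v4,
  0, 7629721), (v14, 8, 1909138)]), (45, [(v28, 5, 8855), (v24, 9, 26703), (v11, 7, 5418)],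
  [(v20, 7, 1508988), (v14, 8, 1157728), (v12, 4, 7053893)]), (-976, [(v17, 6, 368037), (v19,
  2, 903000), (v28, 5, 1743500)], [(v14, 8, 13156), (v12, 4, 10508861), (v20, 7,
  3017976)])])))) (.far 218)))) (.far 6)) (.node 1 (-30) (.node 9 (-252) (.node 0 726 (.node 2
  (-898) (.far 167) (.node 3 (-187) (.far 213) (.node 4 (-53) (.far 228) (.node 5 721 (.node 7
  (-288) (.far 245) (.node 8 (-520) (.far 247) (.node 9 (-89) (.far 228) (.leaf 2806615 [(v24,
  9, 9653314), (v12, 4, 2649263), (v18, 3, 523587)] [(788, [(v24, 9, 1796), (v10, 2, 89)],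
  [(v20, 7, 133705), (v4, 0, 55120), (v14, 8, 15972)]), (0, [(v28, 5, 128160), (v24, 9,
  622944), (v11, 7, 64169)], [(v27, 3, 82680), (v14, 8, 11077), (v12, 4, 57200)]), (-940,
  [(v17, 6, 971187), (v19, 2, 2523500), (v28, 5, 4939000)], [(v18, 3, 136793), (v12, 4,
  316217), (v24, 9, 59466)])])))) (.far 218))))) (.far 48)) (.node 0 654 (.node 2 (-946) (.far
  187) (.node 5 829 (.node 7 (-247) (.far 267) (.node 8 (-514) (.far 185) (.leaf 28882945
  [(v24, 9, 95472416), (v14, 8, 9136036), (v20, 7, 18718595)] [(703, [(v24, 9, 473), (v10, 2,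
  63)], [(v20, 7, 8571978), (v4, 0, 3364387), (v14, 8, 888459)]), (0, [(v28, 5, 103740), (v24,
  9, 204763), (v11, 7, 69636)], [(v20, 7, 138780), (v14, 8, 102258), (v24, 9, 444353)]), (-973,
  [(v17, 6, 1176351), (v19, 2, 2901500), (v28, 5, 5203000)], [(v14, 8, 653562), (v24, 9,
  4633967), (v20, 7, 1619100)])]))) (.far 239))) (.far 59))) (.node 4 (-100) (.node 9 (-60)
  (.node 4 (-60) (.node 1 (-265) (.node 0 941 (.node 1 (-198) (.far 228) (.node 2 (-797) (.node
  2 (-744) (.far 6) (.node 3 (-480) (.far 317) (.node 5 625 (.node 7 (-581) (.far 342) (.leaf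
  10639200 [(v21, 2, 11127160), (v18, 3, 13533267), (v15, 1, 7105200)] [(970, [(v15, 1, 62000),
  (v21, 2, 57420), (v18, 3, 54219)], [(v20, 7, 1355040), (v4, 0, 1952160), (v27, 3, 6013931)]),
  (-232, [(v28, 5, 660), (v26, 5, 462), (v15, 1, 625)], [(v27, 3, 31), (v10, 2, 20)]), (-771,
  [(v17, 6, 1395), (v19, 2, 4375), (v28, 5, 8184)], [(v18, 3, 74679), (v21, 2, 47520), (v15, 1,
  12400)])])) (.far 119)))) (.far 285))) (.far 131)) (.node 0 971 (.node 1 (-331) (.node 2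
  (-760) (.node 2 (-723) (.far 88) (.node 3 (-511) (.far 213) (.node 5 629 (.node 7 (-637)
  (.far 245) (.leaf 1272765585 [(v21, 2, 1393122437), (v18, 3, 1545188129), (v15, 1,
  624498721)] [(985, [(v15, 1, 615755), (v21, 2, 785407), (v18, 3, 676969)], [(v20, 7, 212649),
  (v4, 0, 325507), (v27, 3, 971971)]), (-298, [(v28, 5, 2650), (v26, 5, 1855), (v15, 1, 1887)],
  [(v27, 3, 723), (v10, 2, 511)]), (-742, [(v17, 6, 1364301), (v19, 2, 4403000), (v28, 5,
  7953000)], [(v18, 3, 12773), (v21, 2, 8904), (v15, 1, 1687)])])) (.far 36)))) (.far 186))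
  (.far 48)) (.far 48))) (.node 0 913 (.node 1 (-253) (.node 1 (-135) (.far 228) (.node 2
  (-749) (.far 69) (.node 3 (-450) (.far 317) (.node 5 613 (.node 7 (-528) (.far 342) (.leaf
  73669500 [(v15, 1, 49228988), (v21, 2, 4296240), (v12, 4, 113554071)] [(956, [(v15, 1,
  416444), (v21, 2, 82620), (v12, 4, 357273)], [(v20, 7, 18675), (v4, 0, 25200), (v27, 3,
  80344)]), (-194, [(v28, 5, 450), (v26, 5, 315), (v15, 1, 613)], [(v27, 3, 749), (v10, 2,
  450)]), (-791, [(v17, 6, 196773), (v19, 2, 613000), (v28, 5, 1177000)], [(v18, 3, 51), (v12,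
  4, 270), (v15, 1, 10)])])) (.far 119))))) (.far 28)) (.far 131))) (.node 4 (-60) (.node 3
  (-302) (.node 1 (-316) (.node 0 656 (.node 2 (-803) (.far 157) (.node 5 778 (.node 7 (-255)
  (.far 209) (.node 8 (-267) (.far 211) (.node 9 (-187) (.far 317) (.leaf 6490770 [(v24, 9,
  30441471), (v14, 8, 4415257), (v20, 7, 4171519)] [(753, [(v24, 9, 146), (v10, 2, 17)], [(v20,
  7, 175152), (v4, 0, 70755), (v14, 8, 36080)]), (-173, [(v28, 5, 14025), (v24, 9, 35010),
  (v11, 7, 8558)], [(v20, 7, 2937), (v14, 8, 4301), (v24, 9, 13083)]), (-899, [(v17, 6,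
  312367), (v19, 2, 194500), (v26, 5, 2208250)], [(v14, 8, 3927), (v24, 9, 19491), (v20, 7,
  4895)])])))) (.far 307))) (.far 18)) (.node 1 (-459) (.node 0 700 (.node 2 (-744) (.far 157)
  (.node 4 159 (.node 5 815 (.node 7 (-424) (.far 209) (.node 8 (-143) (.far 211) (.node 9
  (-302) (.far 213) (.leaf 18553392 [(v9, 4, 17141839), (v14, 8, 17598279), (v20, 7, 3504930)]
  [(786, [(v24, 9, 744), (v10, 2, 151)], [(v20, 7, 116025), (v4, 0, 73034), (v14, 8, 74200)]),
  (-388, [(v28, 5, 143148), (v24, 9, 180278), (v15, 1, 24613)], [(v20, 7, 312), (v14, 8, 1749),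
  (v9, 4, 637)]), (-811, [(v17, 6, 1141), (v23, 6, 163), (v26, 5, 12800)], [(v14, 8, 15423),
  (v9, 4, 10439), (v20, 7, 6006)])])))) (.far 201)) (.far 196))) (.far 18)) (.node 1 (-530)
  (.node 0 728 (.node 2 (-817) (.node 2 (-715) (.far 157) (.node 4 292 (.node 5 838 (.node 7
  (-514) (.far 234) (.node 8 (-83) (.far 236) (.node 9 (-373) (.far 213) (.leaf 847096672 [(v9,
  4, 436709563), (v14, 8, 1487146948), (v20, 7, 133201056)] [(805, [(v24, 9, 3966820), (v21, 2,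
  326748), (v9, 4, 266695)], [(v4, 0, 1130543), (v14, 8, 2058056), (v20, 7, 1540812)]), (-495,
  [(v28, 5, 2568105), (v24, 9, 2692494), (v15, 1, 312574)], [(v20, 7, 775552), (v14, 8,
  9080324), (v9, 4, 1045219)]), (-766, [(v17, 6, 2933), (v23, 6, 419), (v26, 5, 32000)], [(v14,
  8, 99716), (v9, 4, 21331), (v20, 7, 18592)])])))) (.far 201)) (.far 196))) (.far 176)) (.far
  36)) (.node 0 749 (.node 1 (-601) (.node 2 (-782) (.node 2 (-686) (.far 270) (.node 4 358
  (.node 5 850 (.node 7 (-565) (.far 234) (.node 9 (-407) (.far 213) (.leaf 2011979690 [(v9, 4,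
  712390420), (v10, 2, 12549336475), (v20, 7, 3275161568)] [(821, [(v24, 9, 152150), (v19, 5,
  218559), (v9, 4, 691900)], [(v4, 0, 110740), (v10, 2, 665005), (v20, 7, 293608)]), (-566,
  [(v28, 5, 64713), (v24, 9, 63070), (v15, 1, 6919)], [(v20, 7, 3192644), (v10, 2, 12237335),
  (v9, 4, 193795)]), (-734, [(v17, 6, 119), (v23, 6, 17), (v26, 5, 1280)], [(v20, 7, 2824262),
  (v10, 2, 9810095), (v9, 4, 387590)])]))) (.far 201)) (.far 196))) (.far 176)) (.far 212))
  (.far 36))))) (.node 3 (-423) (.node 0 813 (.node 2 (-900) (.node 2 (-646) (.far 270) (.node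
  9 (-100) (.far 317) (.leaf 0 [] [(0, [(v24, 9, 323), (v10, 2, 25)], []), (0, [], [(v10, 2,
  151), (v27, 3, 323)]), (0, [], [(v27, 3, 80750), (v10, 2, 22650), (v24, 9, 48773)])]))) (.far
  253)) (.far 98)) (.node 0 900 (.node 1 (-609) (.node 2 (-830) (.node 2 (-630) (.far 87)
  (.leaf 0 [] [(0, [(v24, 9, 21), (v10, 2, 1)], []), (0, [], [(v10, 2, 47), (v27, 3, 70)]), (0,
  [], [(v27, 3, 700), (v10, 2, 282), (v24, 9, 987)])])) (.far 253)) (.far 47)) (.far 98))))
  (.node 0 759 (.node 1 (-199) (.node 2 (-796) (.far 286) (.node 3 (-226) (.far 196) (.node 5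
  673 (.node 7 (-344) (.far 225) (.node 8 (-385) (.far 343) (.leaf 82560 [(v24, 9, 385366),
  (v12, 4, 84710), (v11, 7, 33855)] [(850, [(v24, 9, 27661), (v21, 2, 240), (v12, 4, 199)],
  [(v20, 7, 257301), (v4, 0, 272104), (v27, 3, 1436028)]), (-115, [(v28, 5, 8600), (v24, 9,
  57878), (v11, 7, 3365)], [(v27, 3, 58905), (v14, 8, 12882), (v12, 4, 43505)]), (-870, [(v17,
  6, 401781), (v19, 2, 1177750), (v28, 5, 2189000)], [(v18, 3, 1290), (v12, 4, 4859), (v11, 7,
  1695)])]))) (.far 337)))) (.far 229)) (.far 28)))) (.node 0 799 (.node 1 (-216) (.node 2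
  (-761) (.far 69) (.node 3 (-291) (.far 196) (.node 5 611 (.node 7 (-379) (.far 225) (.leaf
  439981100 [(v26, 5, 717636500), (v12, 4, 565259929), (v11, 7, 1273385100)] [(799, [(v11, 7,
  824850), (v26, 5, 606400), (v12, 4, 231569)], []), (-216, [(v26, 5, 379), (v11, 7, 611)],
  []), (-843, [(v17, 6, 1394913), (v19, 2, 4277000), (v28, 5, 8371000)], [(v18, 3, 37900),
  (v12, 4, 110289), (v11, 7, 58200)])])) (.far 140)))) (.far 28)) (.far 28))))) (.node 0 751
  (.node 1 (-141) (.node 2 (-801) (.far 286) (.node 3 (-236) (.far 196) (.node 5 623 (.node 7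
  (-296) (.far 225) (.leaf 18770100 [(v26, 5, 29625900), (v12, 4, 15753712), (v11, 7,
  70614825)] [(751, [(v11, 7, 1261575), (v26, 5, 710400), (v12, 4, 184408)], []), (-141, [(v26,
  5, 296), (v11, 7, 623)], []), (-890, [(v17, 6, 16821), (v19, 2, 49000), (v28, 5, 99000)],
  [(v18, 3, 555), (v12, 4, 4366), (v20, 7, 2655)])])) (.far 337)))) (.far 229)) (.far 28)))
  (.node 0 851 (.node 1 15 (.node 2 (-888) (.far 286) (.node 3 (-398) (.far 196) (.node 5 649
  (.node 7 (-384) (.far 225) (.leaf 10761600 [(v26, 5, 21388800), (v12, 4, 5913216), (v11, 7,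
  39248275)] [(851, [(v11, 7, 730125), (v26, 5, 512000), (v12, 4, 83072)], []), (0, [(v26, 5,
  384), (v11, 7, 649)], []), (-908, [(v17, 6, 19647), (v19, 2, 51625), (v28, 5, 111000)],
  [(v18, 3, 12000), (v12, 4, 19104), (v11, 7, 24875)])])) (.far 337)))) (.far 229)) (.far
  28)))))))))

theorem t6_ok : treeOK dat t6 (rootIv dat 6) = true := by decide +kernel

def t7 : Tree dat :=
.node 6 100 (.node 0 (-679) (.node 0 (-499) (.far 8) (.node 1 812 (.node 2 (-743) (.far 267)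
  (.node 3 794 (.node 4 (-135) (.far 314) (.node 5 486 (.node 8 (-718) (.far 330) (.leaf
  31526820 [(v25, 4, 276492906), (v17, 5, 5990495), (v3, 0, 79533900)] [(-589, [(v24, 3,
  32000), (v21, 7, 2779), (v7, 7, 397)], [(v17, 5, 2495), (v25, 4, 206586), (v3, 0, 34020)]),
  (906, [(v17, 5, 2382), (v13, 5, 397), (v5, 3, 1215)], [(v25, 4, 458084), (v8, 8, 23490),
  (v12, 1, 48465)]), (-872, [(v13, 5, 2064797), (v23, 2, 771768), (v26, 3, 14624469)], [(v25,
  4, 499), (v3, 0, 135)])])) (.far 234))) (.far 209))) (.far 209))) (.far 111)) (.node 2 100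
  (.node 0 (-866) (.far 8) (.node 1 733 (.node 2 501 (.far 8) (.node 3 374 (.node 8 (-262)
  (.far 90) (.leaf 556750 [(v2, 8, 1557625), (v24, 3, 713950), (v11, 2, 2745891)] [(-1000,
  [(v26, 3, 216500), (v21, 7, 22083), (v5, 0, 59500)], []), (733, [(v2, 8, 23375), (v24, 3,
  19650), (v11, 2, 24497)], []), (0, [(v24, 3, 131), (v2, 8, 187)], [])])) (.far 20))) (.far
  8))) (.node 6 30 (.node 0 (-719) (.node 0 (-580) (.far 44) (.node 1 788 (.node 2 (-758)
  (.node 2 (-662) (.far 267) (.node 3 767 (.node 4 (-116) (.far 314) (.node 5 400 (.node 8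
  (-660) (.far 330) (.leaf 150800 [(v25, 4, 1402300), (v17, 5, 35351), (v3, 0, 293480)] [(-650,
  [(v24, 3, 64000), (v21, 7, 5369), (v7, 7, 767)], [(v17, 5, 29), (v25, 4, 2300), (v3, 0,
  280)]), (894, [(v17, 5, 4602), (v13, 5, 767), (v5, 3, 2000)], [(v25, 4, 119185), (v8, 8,
  5713), (v12, 1, 11165)]), (-710, [(v13, 5, 1777139), (v23, 2, 613600), (v26, 3, 10724400)],
  [(v25, 4, 5), (v3, 0, 1)])])) (.far 234))) (.far 209))) (.far 184)) (.far 209))) (.far 111))
  (.node 6 (-30) (.node 0 (-753) (.node 0 (-607) (.far 44) (.node 1 767 (.node 2 (-678) (.node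
  2 (-591) (.far 267) (.node 3 744 (.node 4 (-99) (.far 314) (.node 5 325 (.node 8 (-609) (.far
  330) (.leaf 253892925 [(v25, 4, 2648614150), (v17, 5, 73493739), (v3, 0, 447168150)] [(-680,
  [(v24, 3, 8000), (v21, 7, 651), (v7, 7, 93)], [(v17, 5, 60093), (v25, 4, 4537325), (v3, 0,
  450450)]), (883, [(v17, 5, 4464), (v13, 5, 744), (v5, 3, 1625)], [(v8, 8, 6903), (v12, 1,
  12789), (v25, 4, 155701)]), (-635, [(v24, 3, 1379), (v23, 2, 744), (v26, 3, 1970)], [(v25, 4,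
  607), (v3, 0, 99)])])) (.far 234))) (.far 209))) (.far 184)) (.far 209))) (.far 111)) (.node
  9 30 (.node 0 (-763) (.far 51) (.node 1 862 (.node 2 (-211) (.node 3 508 (.node 4 (-426)
  (.far 289) (.node 5 (-105) (.far 242) (.node 8 (-375) (.far 305) (.leaf 1689100 [(v2, 8,
  5373116), (v24, 3, 3679375), (v18, 5, 2179320)] [(-850, [(v26, 3, 299750), (v21, 7, 41529),
  (v5, 0, 127000)], [(v2, 8, 1988), (v4, 4, 875), (v18, 5, 3550)]), (862, [(v2, 8, 24003),
  (v24, 3, 21000), (v18, 5, 6350)], []), (-211, [(v24, 3, 375), (v2, 8, 508)], [])])))) (.far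
  159)) (.far 190)) (.far 190))) (.node 2 60 (.node 0 (-913) (.far 93) (.node 1 706 (.node 3
  656 (.node 8 (-257) (.far 90) (.leaf 1053700 [(v2, 8, 2894600), (v24, 3, 718315), (v11, 2,
  8471748)] [(-1000, [(v26, 3, 1255375), (v21, 7, 224598), (v5, 0, 574000)], []), (706, [(v2,
  8, 24600), (v24, 3, 11565), (v11, 2, 42148)], []), (0, [(v24, 3, 257), (v2, 8, 656)], [])]))
  (.far 275)) (.far 8))) (.node 4 (-60) (.node 0 (-835) (.far 100) (.node 1 615 (.node 2 (-420)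
  (.node 3 935 (.node 6 (-177) (.far 314) (.node 8 (-240) (.far 115) (.node 9 (-407) (.far 135)
  (.leaf 6243380 [(v8, 8, 4634509), (v28, 9, 13020120), (v22, 6, 6764340)] [(-918, [(v24, 3,
  12800), (v21, 7, 1309), (v7, 7, 187)], [(v8, 8, 120065), (v22, 6, 136752), (v28, 9,
  206736)]), (615, [(v28, 9, 1670), (v3, 0, 407)], []), (-219, [(v2, 8, 6919), (v19, 3, 2960),
  (v28, 9, 25840)], [(v28, 9, 138768), (v8, 8, 72039), (v22, 6, 149776)])])))) (.far 100))
  (.far 254)) (.far 20))) (.node 5 (-250) (.node 5 (-150) (.node 2 30 (.node 0 (-951) (.far 79)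
  (.node 1 686 (.node 3 774 (.node 5 (-52) (.far 79) (.node 6 (-569) (.far 85) (.node 8 (-253)
  (.far 90) (.node 9 (-154) (.far 298) (.leaf 16806790 [(v8, 8, 3035578), (v18, 5, 17883558),
  (v28, 9, 31439551)] [(-976, [(v26, 3, 1743500), (v21, 7, 368037), (v5, 0, 903000)], [(v8, 8,
  3017976), (v22, 6, 13156), (v18, 5, 10508861)]), (735, [(v28, 9, 951), (v3, 0, 77)], [(v22,
  6, 1909138), (v8, 8, 19907034), (v12, 1, 7629721)]), (45, [(v2, 8, 5418), (v26, 3, 8855),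
  (v28, 9, 26703)], [(v18, 5, 7053893), (v8, 8, 1508988), (v22, 6, 1157728)])]))))) (.far 262))
  (.far 8))) (.node 2 (-30) (.node 9 (-252) (.node 0 (-898) (.far 79) (.node 1 726 (.node 3 721
  (.node 4 (-187) (.far 289) (.node 5 (-53) (.far 298) (.node 6 (-520) (.far 301) (.node 8
  (-288) (.far 305) (.node 9 (-89) (.far 298) (.leaf 2806615 [(v4, 4, 523587), (v28, 9,
  9653314), (v18, 5, 2649263)] [(-940, [(v26, 3, 4939000), (v21, 7, 971187), (v5, 0, 2523500)],
  [(v28, 9, 59466), (v4, 4, 136793), (v18, 5, 316217)]), (788, [(v28, 9, 1796), (v3, 0, 89)],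
  [(v22, 6, 15972), (v8, 8, 133705), (v12, 1, 55120)]), (0, [(v2, 8, 64169), (v26, 3, 128160),
  (v28, 9, 622944)], [(v25, 4, 82680), (v22, 6, 11077), (v18, 5, 57200)])])))))) (.far 262))
  (.far 190))) (.node 0 (-946) (.far 93) (.node 1 654 (.node 3 829 (.node 6 (-514) (.far 85)
  (.node 8 (-247) (.far 133) (.leaf 28882945 [(v8, 8, 18718595), (v28, 9, 95472416), (v22, 6,
  9136036)] [(-973, [(v26, 3, 5203000), (v21, 7, 1176351), (v5, 0, 2901500)], [(v8, 8,
  1619100), (v22, 6, 653562), (v28, 9, 4633967)]), (703, [(v28, 9, 473), (v3, 0, 63)], [(v22,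
  6, 888459), (v8, 8, 8571978), (v12, 1, 3364387)]), (0, [(v2, 8, 69636), (v26, 3, 103740),
  (v28, 9, 204763)], [(v28, 9, 444353), (v8, 8, 138780), (v22, 6, 102258)])]))) (.far 275))
  (.far 30)))) (.node 5 (-100) (.node 9 (-60) (.node 5 (-60) (.node 2 (-265) (.node 0 (-797)
  (.node 0 (-744) (.far 8) (.node 1 941 (.node 2 (-198) (.far 298) (.node 3 625 (.node 4 (-480)
  (.far 339) (.leaf 1196910 [(v23, 2, 43400), (v4, 4, 839883), (v9, 0, 539550)] [(-744, [],
  [(v23, 2, 12400), (v4, 4, 74679), (v9, 0, 47520)]), (0, [(v4, 4, 54219), (v23, 2, 62000),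
  (v9, 0, 57420)], []), (-232, [(v23, 2, 625), (v26, 3, 660), (v24, 3, 462)], [(v25, 4, 31),
  (v3, 0, 20)])])) (.far 203))) (.far 242))) (.far 143)) (.node 0 (-760) (.node 0 (-723) (.far
  51) (.node 1 971 (.node 2 (-331) (.node 3 629 (.node 4 (-511) (.far 289) (.leaf 1272765585
  [(v23, 2, 15640177), (v4, 4, 860657513), (v9, 0, 607146694)] [(-723, [], [(v23, 2, 1687),
  (v4, 4, 12773), (v9, 0, 8904)]), (0, [(v4, 4, 676969), (v23, 2, 615755), (v9, 0, 785407)],
  []), (-298, [(v23, 2, 1887), (v26, 3, 2650), (v24, 3, 1855)], [(v25, 4, 723), (v3, 0,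
  511)])])) (.far 159)) (.far 190)) (.far 190))) (.far 92))) (.node 0 (-749) (.far 38) (.node 1
  913 (.node 2 (-253) (.node 2 (-135) (.far 298) (.node 3 613 (.node 4 (-450) (.far 339) (.leaf
  267750 [(v18, 5, 404733), (v23, 2, 169624), (v9, 0, 13770)] [(-791, [(v26, 3, 1177000), (v21,
  7, 196773), (v5, 0, 613000)], [(v23, 2, 10), (v4, 4, 51), (v18, 5, 270)]), (913, [(v18, 5,
  357273), (v23, 2, 416444), (v9, 0, 82620)], []), (-194, [(v23, 2, 613), (v26, 3, 450), (v24,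
  3, 315)], [(v25, 4, 749), (v3, 0, 450)])])) (.far 203))) (.far 177)) (.far 242)))) (.node 5
  (-60) (.node 4 (-302) (.node 2 (-316) (.node 0 (-803) (.far 71) (.node 1 656 (.node 3 778
  (.node 6 (-267) (.far 283) (.node 8 (-255) (.far 287) (.node 9 (-187) (.far 339) (.leaf
  6490770 [(v8, 8, 4171519), (v28, 9, 30441471), (v22, 6, 4415257)] [(-899, [(v24, 3, 2208250),
  (v21, 7, 312367), (v5, 0, 194500)], [(v8, 8, 4895), (v22, 6, 3927), (v28, 9, 19491)]), (753,
  [(v28, 9, 146), (v3, 0, 17)], [(v22, 6, 36080), (v8, 8, 175152), (v12, 1, 70755)]), (-173,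
  [(v2, 8, 8558), (v26, 3, 14025), (v28, 9, 35010)], [(v28, 9, 13083), (v8, 8, 2937), (v22, 6,
  4301)])])))) (.far 309)) (.far 169))) (.node 2 (-459) (.node 0 (-744) (.far 71) (.node 1 700
  (.node 3 815 (.node 5 159 (.node 6 (-143) (.far 267) (.node 8 (-424) (.far 287) (.node 9
  (-302) (.far 289) (.leaf 18553392 [(v8, 8, 3504930), (v17, 5, 17141839), (v22, 6, 17598279)]
  [(-811, [(v24, 3, 12800), (v21, 7, 1141), (v7, 7, 163)], [(v8, 8, 6006), (v22, 6, 15423),
  (v17, 5, 10439)]), (786, [(v28, 9, 744), (v3, 0, 151)], [(v22, 6, 74200), (v8, 8, 116025),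
  (v12, 1, 73034)]), (-388, [(v23, 2, 24613), (v26, 3, 143148), (v28, 9, 180278)], [(v17, 5,
  637), (v8, 8, 312), (v22, 6, 1749)])])))) (.far 280)) (.far 254)) (.far 169))) (.node 2
  (-530) (.node 0 (-817) (.node 0 (-715) (.far 71) (.node 1 728 (.node 3 838 (.node 5 292
  (.node 6 (-83) (.far 267) (.node 8 (-514) (.far 272) (.node 9 (-373) (.far 289) (.leaf
  847096672 [(v8, 8, 133201056), (v17, 5, 436709563), (v22, 6, 1487146948)] [(-766, [(v24, 3,
  32000), (v21, 7, 2933), (v7, 7, 419)], [(v8, 8, 18592), (v22, 6, 99716), (v17, 5, 21331)]),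
  (805, [(v17, 5, 266695), (v28, 9, 3966820), (v9, 0, 326748)], [(v8, 8, 1540812), (v12, 1,
  1130543), (v22, 6, 2058056)]), (-495, [(v28, 9, 2692494), (v23, 2, 312574), (v26, 3,
  2568105)], [(v17, 5, 1045219), (v8, 8, 775552), (v22, 6, 9080324)])])))) (.far 280)) (.far
  254)) (.far 159))) (.far 62)) (.node 0 (-782) (.node 0 (-686) (.far 127) (.node 1 749 (.node
  2 (-601) (.node 3 850 (.node 5 358 (.node 8 (-565) (.far 272) (.node 9 (-407) (.far 289)
  (.leaf 2011979690 [(v8, 8, 3275161568), (v17, 5, 712390420), (v3, 0, 12549336475)] [(-734,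
  [(v24, 3, 1280), (v21, 7, 119), (v7, 7, 17)], [(v17, 5, 387590), (v8, 8, 2824262), (v3, 0,
  9810095)]), (821, [(v17, 5, 691900), (v28, 9, 152150), (v5, 3, 218559)], [(v8, 8, 293608),
  (v12, 1, 110740), (v3, 0, 665005)]), (-566, [(v28, 9, 63070), (v23, 2, 6919), (v26, 3,
  64713)], [(v17, 5, 193795), (v8, 8, 3192644), (v3, 0, 12237335)])]))) (.far 280)) (.far 254))
  (.far 284)) (.far 159))) (.far 62))))) (.node 4 (-423) (.node 0 (-646) (.far 127) (.node 1
  813 (.node 2 (-607) (.node 9 (-100) (.far 339) (.leaf 0 [] [(0, [], [(v28, 9, 48773), (v25,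
  4, 80750), (v3, 0, 22650)]), (0, [(v28, 9, 323), (v3, 0, 25)], []), (0, [], [(v25, 4, 323),
  (v3, 0, 151)])])) (.far 284)) (.far 220))) (.node 0 (-830) (.node 0 (-630) (.far 44) (.node 1
  900 (.node 2 (-609) (.leaf 0 [] [(0, [], [(v28, 9, 987), (v25, 4, 700), (v3, 0, 282)]), (0,
  [(v28, 9, 21), (v3, 0, 1)], []), (0, [], [(v25, 4, 70), (v3, 0, 47)])]) (.far 184)) (.far
  220))) (.far 122)))) (.node 0 (-796) (.far 144) (.node 1 759 (.node 2 (-199) (.node 3 673
  (.node 4 (-226) (.far 280) (.node 6 (-385) (.far 345) (.node 8 (-344) (.far 296) (.leaf 82560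
  [(v2, 8, 33855), (v28, 9, 385366), (v18, 5, 84710)] [(-870, [(v26, 3, 2189000), (v21, 7,
  401781), (v5, 0, 1177750)], [(v2, 8, 1695), (v4, 4, 1290), (v18, 5, 4859)]), (850, [(v18, 5,
  199), (v28, 9, 27661), (v9, 0, 240)], [(v25, 4, 1436028), (v8, 8, 257301), (v12, 1,
  272104)]), (-115, [(v2, 8, 3365), (v26, 3, 8600), (v28, 9, 57878)], [(v25, 4, 58905), (v22,
  6, 12882), (v18, 5, 43505)])])))) (.far 328)) (.far 299)) (.far 177))))) (.node 0 (-761)
  (.far 38) (.node 1 799 (.node 2 (-216) (.node 3 611 (.node 4 (-291) (.far 280) (.node 8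
  (-379) (.far 296) (.leaf 439981100 [(v2, 8, 1273385100), (v24, 3, 717636500), (v18, 5,
  565259929)] [(-843, [(v26, 3, 8371000), (v21, 7, 1394913), (v5, 0, 4277000)], [(v2, 8,
  58200), (v4, 4, 37900), (v18, 5, 110289)]), (799, [(v2, 8, 824850), (v24, 3, 606400), (v18,
  5, 231569)], []), (-216, [(v24, 3, 379), (v2, 8, 611)], [])]))) (.far 215)) (.far 177)) (.far
  177)))))) (.node 0 (-801) (.far 144) (.node 1 751 (.node 2 (-141) (.node 3 623 (.node 4
  (-236) (.far 280) (.node 8 (-296) (.far 296) (.leaf 18770100 [(v2, 8, 70614825), (v24, 3,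
  29625900), (v18, 5, 15753712)] [(-890, [(v26, 3, 99000), (v21, 7, 16821), (v5, 0, 49000)],
  [(v8, 8, 2655), (v4, 4, 555), (v18, 5, 4366)]), (751, [(v2, 8, 1261575), (v24, 3, 710400),
  (v18, 5, 184408)], []), (-141, [(v24, 3, 296), (v2, 8, 623)], [])]))) (.far 328)) (.far 299))
  (.far 177)))) (.node 0 (-888) (.far 144) (.node 1 851 (.node 2 15 (.node 3 649 (.node 4
  (-398) (.far 280) (.node 8 (-384) (.far 296) (.leaf 10761600 [(v2, 8, 39248275), (v24, 3,
  21388800), (v18, 5, 5913216)] [(-908, [(v26, 3, 111000), (v21, 7, 19647), (v5, 0, 51625)],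
  [(v2, 8, 24875), (v4, 4, 12000), (v18, 5, 19104)]), (851, [(v2, 8, 730125), (v24, 3, 512000),
  (v18, 5, 83072)], []), (0, [(v24, 3, 384), (v2, 8, 649)], [])]))) (.far 328)) (.far 299))
  (.far 177))))))))))

theorem t7_ok : treeOK dat t7 (rootIv dat 7) = true := by decide +kernel

def t8 : Tree dat :=
.node 7 100 (.node 0 (-743) (.far 133) (.node 1 (-679) (.node 1 (-499) (.far 10) (.node 2 812
  (.node 3 486 (.node 4 794 (.node 5 (-135) (.far 338) (.node 6 (-718) (.far 341) (.leaf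
  31526820 [(v0, 1, 79533900), (v29, 5, 276492906), (v21, 3, 5990495)] [(-872, [(v24, 4,
  14624469), (v19, 3, 2064797), (v7, 0, 771768)], [(v0, 1, 135), (v29, 5, 499)]), (-589, [(v15,
  8, 397), (v28, 4, 32000), (v9, 8, 2779)], [(v29, 5, 206586), (v0, 1, 34020), (v21, 3,
  2495)]), (906, [(v21, 3, 2382), (v19, 3, 397), (v13, 4, 1215)], [(v18, 2, 48465), (v29, 5,
  458084), (v16, 6, 23490)])]))) (.far 287)) (.far 272)) (.far 287))) (.far 231))) (.node 0 100
  (.node 0 501 (.far 10) (.node 1 (-866) (.far 10) (.node 2 733 (.node 4 374 (.node 6 (-262)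
  (.far 46) (.leaf 556750 [(v2, 0, 2745891), (v1, 6, 1557625), (v28, 4, 713950)] [(0, [(v28, 4,
  131), (v1, 6, 187)], []), (-1000, [(v13, 1, 59500), (v24, 4, 216500), (v9, 8, 22083)], []),
  (733, [(v2, 0, 24497), (v1, 6, 23375), (v28, 4, 19650)], [])])) (.far 171)) (.far 10))))
  (.node 7 30 (.node 0 (-758) (.node 0 (-662) (.far 133) (.node 1 (-719) (.node 1 (-580) (.far
  188) (.node 2 788 (.node 3 400 (.node 4 767 (.node 5 (-116) (.far 338) (.node 6 (-660) (.far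
  341) (.leaf 150800 [(v0, 1, 293480), (v29, 5, 1402300), (v21, 3, 35351)] [(-710, [(v24, 4,
  10724400), (v19, 3, 1777139), (v7, 0, 613600)], [(v0, 1, 1), (v29, 5, 5)]), (-650, [(v15, 8,
  767), (v28, 4, 64000), (v9, 8, 5369)], [(v29, 5, 2300), (v0, 1, 280), (v21, 3, 29)]), (894,
  [(v13, 4, 2000), (v21, 3, 4602), (v19, 3, 767)], [(v18, 2, 11165), (v29, 5, 119185), (v16, 6,
  5713)])]))) (.far 287)) (.far 272)) (.far 287))) (.far 231))) (.far 91)) (.node 7 (-30)
  (.node 0 (-678) (.node 0 (-591) (.far 133) (.node 1 (-753) (.node 1 (-607) (.far 188) (.node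
  2 767 (.node 3 325 (.node 4 744 (.node 5 (-99) (.far 338) (.node 6 (-609) (.far 341) (.leaf
  253892925 [(v0, 1, 447168150), (v29, 5, 2648614150), (v21, 3, 73493739)] [(-635, [(v24, 4,
  1970), (v28, 4, 1379), (v7, 0, 744)], [(v0, 1, 99), (v29, 5, 607)]), (-680, [(v15, 8, 93),
  (v28, 4, 8000), (v9, 8, 651)], [(v29, 5, 4537325), (v0, 1, 450450), (v21, 3, 60093)]), (883,
  [(v13, 4, 1625), (v21, 3, 4464), (v19, 3, 744)], [(v29, 5, 155701), (v16, 6, 6903), (v18, 2,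
  12789)])]))) (.far 287)) (.far 272)) (.far 287))) (.far 231))) (.far 91)) (.node 9 30 (.node
  0 (-211) (.node 1 (-763) (.far 192) (.node 2 862 (.node 3 (-105) (.far 276) (.node 4 508
  (.node 5 (-426) (.far 145) (.node 6 (-375) (.far 149) (.leaf 1689100 [(v4, 3, 2179320), (v1,
  6, 5373116), (v28, 4, 3679375)] [(-211, [(v28, 4, 375), (v1, 6, 508)], []), (-850, [(v13, 1,
  127000), (v24, 4, 299750), (v9, 8, 41529)], [(v12, 5, 875), (v4, 3, 3550), (v1, 6, 1988)]),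
  (862, [(v4, 3, 6350), (v1, 6, 24003), (v28, 4, 21000)], [])]))) (.far 73))) (.far 94))) (.far
  94)) (.node 0 60 (.node 1 (-913) (.far 54) (.node 2 706 (.node 4 656 (.node 6 (-257) (.far
  46) (.leaf 1053700 [(v2, 0, 8471748), (v1, 6, 2894600), (v28, 4, 718315)] [(0, [(v28, 4,
  257), (v1, 6, 656)], []), (-1000, [(v13, 1, 574000), (v24, 4, 1255375), (v9, 8, 224598)],
  []), (706, [(v28, 4, 11565), (v2, 0, 42148), (v1, 6, 24600)], [])])) (.far 137)) (.far 10)))
  (.node 5 (-60) (.node 0 (-420) (.node 1 (-835) (.far 222) (.node 2 615 (.node 4 935 (.node 6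
  (-240) (.far 227) (.node 7 (-177) (.far 338) (.node 9 (-407) (.far 244) (.leaf 6243380 [(v6,
  7, 6764340), (v16, 6, 4634509), (v26, 9, 13020120)] [(-219, [(v26, 9, 25840), (v1, 6, 6919),
  (v5, 4, 2960)], [(v6, 7, 149776), (v26, 9, 138768), (v16, 6, 72039)]), (-918, [(v15, 8, 187),
  (v28, 4, 12800), (v9, 8, 1309)], [(v6, 7, 136752), (v26, 9, 206736), (v16, 6, 120065)]),
  (615, [(v0, 1, 407), (v26, 9, 1670)], [])])))) (.far 222)) (.far 171))) (.far 123)) (.node 3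
  (-250) (.node 3 (-150) (.node 0 30 (.node 1 (-951) (.far 22) (.node 2 686 (.node 3 (-52)
  (.far 22) (.node 4 774 (.node 6 (-253) (.far 46) (.node 7 (-569) (.far 50) (.node 9 (-154)
  (.far 117) (.leaf 16806790 [(v26, 9, 31439551), (v16, 6, 3035578), (v4, 3, 17883558)] [(45,
  [(v26, 9, 26703), (v1, 6, 5418), (v24, 4, 8855)], [(v6, 7, 1157728), (v4, 3, 7053893), (v16,
  6, 1508988)]), (-976, [(v13, 1, 903000), (v24, 4, 1743500), (v9, 8, 368037)], [(v6, 7,
  13156), (v4, 3, 10508861), (v16, 6, 3017976)]), (735, [(v0, 1, 77), (v26, 9, 951)], [(v18, 2,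
  7629721), (v6, 7, 1909138), (v16, 6, 19907034)])])))) (.far 102))) (.far 10))) (.node 0 (-30)
  (.node 9 (-252) (.node 1 (-898) (.far 22) (.node 2 726 (.node 3 (-53) (.far 117) (.node 4 721
  (.node 5 (-187) (.far 145) (.node 6 (-288) (.far 149) (.node 7 (-520) (.far 151) (.node 9
  (-89) (.far 117) (.leaf 2806615 [(v4, 3, 2649263), (v12, 5, 523587), (v26, 9, 9653314)] [(0,
  [(v26, 9, 622944), (v1, 6, 64169), (v24, 4, 128160)], [(v6, 7, 11077), (v4, 3, 57200), (v29,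
  5, 82680)]), (-940, [(v13, 1, 2523500), (v24, 4, 4939000), (v9, 8, 971187)], [(v12, 5,
  136793), (v4, 3, 316217), (v26, 9, 59466)]), (788, [(v0, 1, 89), (v26, 9, 1796)], [(v18, 2,
  55120), (v6, 7, 15972), (v16, 6, 133705)])]))))) (.far 102))) (.far 94))) (.node 1 (-946)
  (.far 54) (.node 2 654 (.node 4 829 (.node 6 (-247) (.far 236) (.node 7 (-514) (.far 50)
  (.leaf 28882945 [(v6, 7, 9136036), (v16, 6, 18718595), (v26, 9, 95472416)] [(0, [(v26, 9,
  204763), (v1, 6, 69636), (v24, 4, 103740)], [(v6, 7, 102258), (v26, 9, 444353), (v16, 6,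
  138780)]), (-973, [(v13, 1, 2901500), (v24, 4, 5203000), (v9, 8, 1176351)], [(v6, 7, 653562),
  (v26, 9, 4633967), (v16, 6, 1619100)]), (703, [(v0, 1, 63), (v26, 9, 473)], [(v18, 2,
  3364387), (v6, 7, 888459), (v16, 6, 8571978)])]))) (.far 137)) (.far 179)))) (.node 3 (-100)
  (.node 9 (-60) (.node 3 (-60) (.node 0 (-265) (.node 0 (-198) (.far 117) (.node 1 (-797)
  (.node 1 (-744) (.far 10) (.node 2 941 (.node 4 625 (.node 5 (-480) (.far 329) (.leaf 1196910
  [(v7, 0, 43400), (v12, 5, 839883), (v17, 1, 539550)] [(-232, [(v28, 4, 462), (v7, 0, 625),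
  (v24, 4, 660)], [(v0, 1, 20), (v29, 5, 31)]), (-744, [], [(v12, 5, 74679), (v17, 1, 47520),
  (v7, 0, 12400)]), (0, [(v17, 1, 57420), (v12, 5, 54219), (v7, 0, 62000)], [])])) (.far 256))
  (.far 276))) (.far 216))) (.node 0 (-331) (.node 1 (-760) (.node 1 (-723) (.far 192) (.node 2
  971 (.node 4 629 (.node 5 (-511) (.far 145) (.leaf 1272765585 [(v7, 0, 15640177), (v12, 5,
  860657513), (v17, 1, 607146694)] [(-298, [(v28, 4, 1855), (v7, 0, 1887), (v24, 4, 2650)],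
  [(v0, 1, 511), (v29, 5, 723)]), (-723, [], [(v12, 5, 12773), (v17, 1, 8904), (v7, 0, 1687)]),
  (0, [(v17, 1, 785407), (v12, 5, 676969), (v7, 0, 615755)], [])])) (.far 73)) (.far 94)))
  (.far 53)) (.far 94))) (.node 0 (-253) (.node 0 (-135) (.far 117) (.node 1 (-749) (.far 161)
  (.node 2 913 (.node 4 613 (.node 5 (-450) (.far 329) (.leaf 267750 [(v17, 1, 13770), (v4, 3,
  404733), (v7, 0, 169624)] [(-194, [(v28, 4, 315), (v7, 0, 613), (v24, 4, 450)], [(v0, 1,
  450), (v29, 5, 749)]), (-791, [(v13, 1, 613000), (v24, 4, 1177000), (v9, 8, 196773)], [(v12,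
  5, 51), (v4, 3, 270), (v7, 0, 10)]), (913, [(v17, 1, 82620), (v4, 3, 357273), (v7, 0,
  416444)], [])])) (.far 256)) (.far 276)))) (.far 63))) (.node 3 (-60) (.node 5 (-302) (.node
  0 (-316) (.node 1 (-803) (.far 40) (.node 2 656 (.node 4 778 (.node 6 (-255) (.far 138)
  (.node 7 (-267) (.far 141) (.node 9 (-187) (.far 329) (.leaf 6490770 [(v6, 7, 4415257), (v16,
  6, 4171519), (v26, 9, 30441471)] [(-173, [(v26, 9, 35010), (v1, 6, 8558), (v24, 4, 14025)],
  [(v6, 7, 4301), (v26, 9, 13083), (v16, 6, 2937)]), (-899, [(v13, 1, 194500), (v28, 4,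
  2208250), (v9, 8, 312367)], [(v6, 7, 3927), (v26, 9, 19491), (v16, 6, 4895)]), (753, [(v0, 1,
  17), (v26, 9, 146)], [(v18, 2, 70755), (v6, 7, 36080), (v16, 6, 175152)])])))) (.far 311))
  (.far 81))) (.node 0 (-459) (.node 1 (-744) (.far 40) (.node 2 700 (.node 3 159 (.node 4 815
  (.node 6 (-424) (.far 138) (.node 7 (-143) (.far 133) (.node 9 (-302) (.far 145) (.leaf
  18553392 [(v6, 7, 17598279), (v16, 6, 3504930), (v21, 3, 17141839)] [(-388, [(v26, 9,
  180278), (v7, 0, 24613), (v24, 4, 143148)], [(v6, 7, 1749), (v21, 3, 637), (v16, 6, 312)]),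
  (-811, [(v15, 8, 163), (v28, 4, 12800), (v9, 8, 1141)], [(v6, 7, 15423), (v21, 3, 10439),
  (v16, 6, 6006)]), (786, [(v0, 1, 151), (v26, 9, 744)], [(v18, 2, 73034), (v6, 7, 74200),
  (v16, 6, 116025)])])))) (.far 123)) (.far 108)) (.far 81))) (.node 0 (-530) (.node 1 (-817)
  (.node 1 (-715) (.far 40) (.node 2 728 (.node 3 292 (.node 4 838 (.node 6 (-514) (.far 129)
  (.node 7 (-83) (.far 133) (.node 9 (-373) (.far 145) (.leaf 847096672 [(v6, 7, 1487146948),
  (v16, 6, 133201056), (v21, 3, 436709563)] [(-495, [(v24, 4, 2568105), (v26, 9, 2692494), (v7,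
  0, 312574)], [(v6, 7, 9080324), (v21, 3, 1045219), (v16, 6, 775552)]), (-766, [(v15, 8, 419),
  (v28, 4, 32000), (v9, 8, 2933)], [(v16, 6, 18592), (v6, 7, 99716), (v21, 3, 21331)]), (805,
  [(v17, 1, 326748), (v21, 3, 266695), (v26, 9, 3966820)], [(v6, 7, 2058056), (v16, 6,
  1540812), (v18, 2, 1130543)])])))) (.far 123)) (.far 108)) (.far 73))) (.far 33)) (.node 0
  (-601) (.node 1 (-782) (.node 1 (-686) (.far 240) (.node 2 749 (.node 3 358 (.node 4 850
  (.node 6 (-565) (.far 129) (.node 9 (-407) (.far 145) (.leaf 2011979690 [(v0, 1,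
  12549336475), (v16, 6, 3275161568), (v21, 3, 712390420)] [(-566, [(v24, 4, 64713), (v26, 9,
  63070), (v7, 0, 6919)], [(v0, 1, 12237335), (v21, 3, 193795), (v16, 6, 3192644)]), (-734,
  [(v15, 8, 17), (v28, 4, 1280), (v9, 8, 119)], [(v16, 6, 2824262), (v0, 1, 9810095), (v21, 3,
  387590)]), (821, [(v13, 4, 218559), (v21, 3, 691900), (v26, 9, 152150)], [(v0, 1, 665005),
  (v16, 6, 293608), (v18, 2, 110740)])]))) (.far 123)) (.far 108)) (.far 73))) (.far 33)) (.far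
  142))))) (.node 5 (-423) (.node 1 (-900) (.node 1 (-646) (.far 240) (.node 2 813 (.node 9
  (-100) (.far 329) (.leaf 0 [] [(0, [], [(v0, 1, 151), (v29, 5, 323)]), (0, [], [(v29, 5,
  80750), (v0, 1, 22650), (v26, 9, 48773)]), (0, [(v0, 1, 25), (v26, 9, 323)], [])])) (.far
  264))) (.far 206)) (.node 0 (-609) (.node 0 (-160) (.far 109) (.node 1 (-830) (.node 1 (-630)
  (.far 188) (.node 2 900 (.node 4 651 (.leaf 4230 [(v26, 9, 8883), (v29, 5, 10150), (v0, 1,
  5123)] [(-385, [(v28, 4, 1120), (v7, 0, 1953), (v24, 4, 1600)], [(v0, 1, 47), (v29, 5, 70)]),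
  (-630, [], [(v29, 5, 700), (v0, 1, 282), (v26, 9, 987)]), (0, [(v0, 1, 1), (v26, 9, 21)],
  [])]) (.far 291)) (.far 264))) (.far 206))) (.far 91)))) (.node 0 (-199) (.node 1 (-796)
  (.far 217) (.node 2 759 (.node 4 673 (.node 5 (-226) (.far 108) (.node 6 (-344) (.far 112)
  (.node 7 (-385) (.far 332) (.leaf 82560 [(v4, 3, 84710), (v1, 6, 33855), (v26, 9, 385366)]
  [(-115, [(v26, 9, 57878), (v1, 6, 3365), (v24, 4, 8600)], [(v6, 7, 12882), (v4, 3, 43505),
  (v29, 5, 58905)]), (-870, [(v13, 1, 1177750), (v24, 4, 2189000), (v9, 8, 401781)], [(v12, 5,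
  1290), (v4, 3, 4859), (v1, 6, 1695)]), (850, [(v17, 1, 240), (v4, 3, 199), (v26, 9, 27661)],
  [(v18, 2, 272104), (v29, 5, 1436028), (v16, 6, 257301)])])))) (.far 321)) (.far 63))) (.far
  118)))) (.node 0 (-216) (.node 1 (-761) (.far 161) (.node 2 799 (.node 4 611 (.node 5 (-291)
  (.far 108) (.node 6 (-379) (.far 112) (.leaf 439981100 [(v4, 3, 565259929), (v1, 6,
  1273385100), (v28, 4, 717636500)] [(-216, [(v28, 4, 379), (v1, 6, 611)], []), (-843, [(v13,
  1, 4277000), (v24, 4, 8371000), (v9, 8, 1394913)], [(v12, 5, 37900), (v4, 3, 110289), (v1, 6,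
  58200)]), (799, [(v28, 4, 606400), (v4, 3, 231569), (v1, 6, 824850)], [])]))) (.far 291))
  (.far 63))) (.far 63))))) (.node 0 (-141) (.node 1 (-801) (.far 217) (.node 2 751 (.node 4
  623 (.node 5 (-236) (.far 108) (.node 6 (-296) (.far 112) (.leaf 18770100 [(v4, 3, 15753712),
  (v1, 6, 70614825), (v28, 4, 29625900)] [(-141, [(v28, 4, 296), (v1, 6, 623)], []), (-890,
  [(v13, 1, 49000), (v24, 4, 99000), (v9, 8, 16821)], [(v12, 5, 555), (v4, 3, 4366), (v16, 6,
  2655)]), (751, [(v28, 4, 710400), (v4, 3, 184408), (v1, 6, 1261575)], [])]))) (.far 321))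
  (.far 63))) (.far 118))) (.node 0 15 (.node 1 (-888) (.far 217) (.node 2 851 (.node 4 649
  (.node 5 (-398) (.far 108) (.node 6 (-384) (.far 112) (.leaf 10761600 [(v4, 3, 5913216), (v1,
  6, 39248275), (v28, 4, 21388800)] [(0, [(v28, 4, 384), (v1, 6, 649)], []), (-908, [(v13, 1,
  51625), (v24, 4, 111000), (v9, 8, 19647)], [(v12, 5, 12000), (v4, 3, 19104), (v1, 6,
  24875)]), (851, [(v28, 4, 512000), (v4, 3, 83072), (v1, 6, 730125)], [])]))) (.far 321))
  (.far 63))) (.far 118)))))))))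

theorem t8_ok : treeOK dat t8 (rootIv dat 8) = true := by decide +kernel

end Pool.Agent.Y81.Proj.BlockThree
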