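import Mathlib
import Pool.Agent.Y81.ProjBlock
import Pool.Agent.Y81.BlockThreeR0
import Pool.Agent.Y81.BlockThreeR1
import Pool.Agent.Y81.BlockThreeR2
import Pool.Agent.Y81.BlockThreeR3
import Pool.Agent.Y81.BlockThreeR4

/-! The block has only hyperplane projections of large norm. -/

namespace Pool.Agent.Y81.Proj.BlockThree

def trees : List (Tree dat) := [t0, t1, t2, t3, t4, t5, t6, t7, t8, t9]

theorem roots : rootsOK dat 0 trees = true := by
  simp only [trees, rootsOK, Nat.zero_add, Nat.reduceAdd, Bool.and_true, Bool.and_eq_true]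
  exact ⟨t0_ok, t1_ok, t2_ok, t3_ok, t4_ok, t5_ok, t6_ok, t7_ok, t8_ok, t9_ok⟩

theorem len : trees.length = dat.G.length := rfl

theorem rg : RG (Blk dat) (1 + (dat.p : ℝ) / dat.q) := Blk_RG dat trees base roots len

theorem rank : Module.finrank ℝ (Blk dat) = 3 := Blk_finrank dat base

end Pool.Agent.Y81.Proj.BlockThree
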